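import Mathlib

/-!
# Proper edge colourings and rainbow copies
-/

set_option autoImplicit false

namespace Pool.Agent.X82.Rainbow

variable {V W : Type}

/-- `c` is a proper edge colouring of `G` (only its values on the edges of `G` matter): two
different edges with a common end have different colours. -/
def IsProper (G : SimpleGraph V) (c : Sym2 V → ℕ) : Prop :=
  ∀ u v w, G.Adj u v → G.Adj u w → v ≠ w → c s(u, v) ≠ c s(u, w)

/-- the number of colours used by `c` on the edges of `G` -/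
noncomputable def numColours (G : SimpleGraph V) (c : Sym2 V → ℕ) : ℕ :=
  (c '' G.edgeSet).ncard

/-- the chromatic index `χ'(G)` -/
noncomputable def chromaticIndex (G : SimpleGraph V) : ℕ :=
  sInf {n | ∃ c, IsProper G c ∧ numColours G c = n}

/-- `G` contains a copy of `H` (not necessarily induced) whose edges have pairwise different
colours under `c` -/
def HasRainbowCopy (H : SimpleGraph W) (G : SimpleGraph V) (c : Sym2 V → ℕ) : Prop :=
  ∃ f : W → V, Function.Injective f ∧ (∀ a b, H.Adj a b → G.Adj (f a) (f b)) ∧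
    ∀ e ∈ H.edgeSet, ∀ e' ∈ H.edgeSet, c (e.map f) = c (e'.map f) → e = e'

/-- no 4-cycle of `G` is rainbow (in terms of opposite edges) -/
def NoRainbow (G : SimpleGraph V) (c : Sym2 V → ℕ) : Prop :=
  ∀ x0 x1 x2 x3, G.Adj x0 x1 → G.Adj x1 x2 → G.Adj x2 x3 → G.Adj x3 x0 → x0 ≠ x2 → x1 ≠ x3 →
    c s(x0, x1) = c s(x2, x3) ∨ c s(x1, x2) = c s(x3, x0)

theorem c4_adj {a b : Fin 4} (h : (SimpleGraph.cycleGraph 4).Adj a b) :
    (a = 0 ∧ b = 1) ∨ (a = 1 ∧ b = 0) ∨ (a = 1 ∧ b = 2) ∨ (a = 2 ∧ b = 1) ∨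
    (a = 2 ∧ b = 3) ∨ (a = 3 ∧ b = 2) ∨ (a = 3 ∧ b = 0) ∨ (a = 0 ∧ b = 3) := by
  rw [SimpleGraph.cycleGraph_adj] at h
  revert a b
  decide

theorem c4_edges {e : Sym2 (Fin 4)} (h : e ∈ (SimpleGraph.cycleGraph 4).edgeSet) :
    e = s(0, 1) ∨ e = s(1, 2) ∨ e = s(2, 3) ∨ e = s(3, 0) := by
  revert h
  refine Sym2.ind (fun a b => ?_) e
  intro h
  rcases c4_adj h with ⟨rfl, rfl⟩ | ⟨rfl, rfl⟩ | ⟨rfl, rfl⟩ | ⟨rfl, rfl⟩ | ⟨rfl, rfl⟩ |
    ⟨rfl, rfl⟩ | ⟨rfl, rfl⟩ | ⟨rfl, rfl⟩ <;> simp

theorem c4_adj01 : (SimpleGraph.cycleGraph 4).Adj 0 1 := by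
  rw [SimpleGraph.cycleGraph_adj]; decide
theorem c4_adj12 : (SimpleGraph.cycleGraph 4).Adj 1 2 := by
  rw [SimpleGraph.cycleGraph_adj]; decide
theorem c4_adj23 : (SimpleGraph.cycleGraph 4).Adj 2 3 := by
  rw [SimpleGraph.cycleGraph_adj]; decide
theorem c4_adj30 : (SimpleGraph.cycleGraph 4).Adj 3 0 := by
  rw [SimpleGraph.cycleGraph_adj]; decide

/-- the colours of a 4-cycle that witnesses the failure of `NoRainbow` are pairwise different -/
theorem exists_c4 {G : SimpleGraph V} {c : Sym2 V → ℕ} (hp : IsProper G c)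
    (hn : ¬ NoRainbow G c) : ∃ x : Fin 4 → V, Function.Injective x ∧
      (∀ a b, (SimpleGraph.cycleGraph 4).Adj a b → G.Adj (x a) (x b)) ∧
      (∀ e ∈ (SimpleGraph.cycleGraph 4).edgeSet, ∀ e' ∈ (SimpleGraph.cycleGraph 4).edgeSet,
        c (e.map x) = c (e'.map x) → e = e') := by
  unfold NoRainbow at hn
  push Not at hn
  obtain ⟨x0, x1, x2, x3, h01, h12, h23, h30, n02, n13, c1, c2⟩ := hn
  refine ⟨![x0, x1, x2, x3], ?_, ?_, ?_⟩
  · intro a b hab
    have e1 := h01.ne
    have e2 := h12.ne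
    have e3 := h23.ne
    have e4 := h30.ne
    fin_cases a <;> fin_cases b <;> simp at hab ⊢ <;> first
      | exact e1 hab
      | exact e1 hab.symm
      | exact e2 hab
      | exact e2 hab.symm
      | exact e3 hab
      | exact e3 hab.symm
      | exact e4 hab
      | exact e4 hab.symm
      | exact n02 hab
      | exact n02 hab.symm
      | exact n13 hab
      | exact n13 hab.symm
  · intro a b hab
    rcases c4_adj hab with ⟨rfl, rfl⟩ | ⟨rfl, rfl⟩ | ⟨rfl, rfl⟩ | ⟨rfl, rfl⟩ | ⟨rfl, rfl⟩ |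
      ⟨rfl, rfl⟩ | ⟨rfl, rfl⟩ | ⟨rfl, rfl⟩
    · exact h01
    · exact h01.symm
    · exact h12
    · exact h12.symm
    · exact h23
    · exact h23.symm
    · exact h30
    · exact h30.symm
  · have d1 : c s(x0, x1) ≠ c s(x1, x2) := by
      rw [Sym2.eq_swap]; exact hp _ _ _ h01.symm h12 n02
    have d2 : c s(x1, x2) ≠ c s(x2, x3) := by
      rw [Sym2.eq_swap]; exact hp _ _ _ h12.symm h23 n13
    have d3 : c s(x2, x3) ≠ c s(x3, x0) := by
      rw [Sym2.eq_swap]; exact hp _ _ _ h23.symm h30 n02.symm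
    have d4 : c s(x3, x0) ≠ c s(x0, x1) := by
      rw [Sym2.eq_swap]; exact hp _ _ _ h30.symm h01 n13.symm
    intro e he e' he' hc
    rcases c4_edges he with rfl | rfl | rfl | rfl <;>
      rcases c4_edges he' with rfl | rfl | rfl | rfl <;>
      simp only [Sym2.map_mk] at hc <;> first
      | rfl
      | exact absurd hc d1
      | exact absurd hc.symm d1
      | exact absurd hc d2
      | exact absurd hc.symm d2
      | exact absurd hc d3
      | exact absurd hc.symm d3
      | exact absurd hc d4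
      | exact absurd hc.symm d4
      | exact absurd hc c1
      | exact absurd hc.symm c1
      | exact absurd hc c2
      | exact absurd hc.symm c2

/-- a colouring satisfying `NoRainbow` has no injective rainbow 4-cycle -/
theorem no_c4 {G : SimpleGraph V} {c : Sym2 V → ℕ} (hn : NoRainbow G c) (x : Fin 4 → V)
    (hx : Function.Injective x)
    (ha : ∀ a b, (SimpleGraph.cycleGraph 4).Adj a b → G.Adj (x a) (x b))
    (hc : ∀ e ∈ (SimpleGraph.cycleGraph 4).edgeSet,
      ∀ e' ∈ (SimpleGraph.cycleGraph 4).edgeSet, c (e.map x) = c (e'.map x) → e = e') : False := by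
  rcases hn (x 0) (x 1) (x 2) (x 3) (ha _ _ c4_adj01) (ha _ _ c4_adj12) (ha _ _ c4_adj23)
    (ha _ _ c4_adj30) (fun h => by have := hx h; revert this; decide)
    (fun h => by have := hx h; revert this; decide) with h | h
  · have := hc s(0, 1) c4_adj01 s(2, 3) c4_adj23 h
    revert this
    decide
  · have := hc s(1, 2) c4_adj12 s(3, 0) c4_adj30 h
    revert this
    decide

theorem exists_index {V : Type} [Finite V] (G : SimpleGraph V) :
    ∃ c, IsProper G c ∧ numColours G c = chromaticIndex G := by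
  have hne : {n | ∃ c, IsProper G c ∧ numColours G c = n}.Nonempty := by
    obtain ⟨n, ⟨e⟩⟩ := Finite.exists_equiv_fin (Sym2 V)
    refine ⟨_, fun x => (e x).val, ?_, rfl⟩
    intro u v w huv huw hvw h
    have h1 : s(u, v) = s(u, w) := e.injective (Fin.ext h)
    rw [Sym2.congr_right] at h1
    exact hvw h1
  exact Nat.sInf_mem hne

theorem index_le {G : SimpleGraph V} {c : Sym2 V → ℕ} (hp : IsProper G c) :
    chromaticIndex G ≤ numColours G c := Nat.sInf_le ⟨c, hp, rfl⟩

theorem numColours_le {G : SimpleGraph V} {c : Sym2 V → ℕ} {n : ℕ}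
    (h : ∀ e ∈ G.edgeSet, c e < n) : numColours G c ≤ n := by
  unfold numColours
  have h1 : c '' G.edgeSet ⊆ Set.Iio n := by
    rintro _ ⟨e, he, rfl⟩
    exact h e he
  calc (c '' G.edgeSet).ncard ≤ (Set.Iio n).ncard := Set.ncard_le_ncard h1 (Set.finite_Iio n)
    _ = n := by
      rw [← Finset.coe_Iio, Set.ncard_coe_finset, Nat.card_Iio]

end Pool.Agent.X82.Rainbow
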