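import Mathlib
import Pool.Agent.X82.RainbowDefs

/-!
# Bounded-degree graphs whose rainbow-`C_4`-free proper edge colourings need many colours

`m` wires, each a strip (the square of a path together with one extra vertex over every spine
edge); any two wires share one vertex.
-/

set_option autoImplicit false

namespace Pool.Agent.X82.Wires

open Pool.Agent.X82.Rainbow

/-- adjacency in a strip: kind `0` is `s`, kind `1` is `t`, kind `2` is `r` -/
def sadj : Fin 3 → ℕ → Fin 3 → ℕ → Prop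
  | 0, i, 0, j => i + 1 = j ∨ j + 1 = i
  | 1, i, 1, j => i + 1 = j ∨ j + 1 = i
  | 0, i, 1, j => i = j ∨ j + 1 = i
  | 1, i, 0, j => i = j ∨ i + 1 = j
  | 0, i, 2, j => i = j
  | 2, i, 0, j => i = j
  | 1, i, 2, j => i = j
  | 2, i, 1, j => i = j
  | 2, _, 2, _ => False

/-- the colouring of a strip without rainbow 4-cycles -/
def col : Fin 3 → ℕ → Fin 3 → ℕ → ℕ
  | 0, i, 0, j => 2 * min i j + 3
  | 1, i, 1, j => 2 * max i j + 2
  | 0, i, 1, j => i - j
  | 1, i, 0, j => j - i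
  | 0, i, 2, _ => 2 * i + 2
  | 2, i, 0, _ => 2 * i + 2
  | 1, i, 2, _ => 2 * i + 3
  | 2, i, 1, _ => 2 * i + 3
  | 2, _, 2, _ => 0

/-- the colouring of a strip with few colours (before adding the wire bit) -/
def few : Fin 3 → ℕ → Fin 3 → ℕ → ℕ
  | 0, i, 0, j => min i j % 2
  | 1, i, 1, j => 2 + min i j % 2
  | 0, i, 1, j => 4 + 2 * (i - j) + j % 2
  | 1, i, 0, j => 4 + 2 * (j - i) + i % 2
  | 0, i, 2, _ => 8 + i % 2
  | 2, i, 0, _ => 8 + i % 2
  | 1, i, 2, _ => 10 + i % 2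
  | 2, i, 1, _ => 10 + i % 2
  | 2, _, 2, _ => 0

theorem fin3 (k : Fin 3) : k = 0 ∨ k = 1 ∨ k = 2 := by
  fin_cases k <;> simp

theorem sadj_symm {k i l j} (h : sadj k i l j) : sadj l j k i := by
  obtain rfl | rfl | rfl := fin3 k <;> obtain rfl | rfl | rfl := fin3 l <;>
    simp only [sadj] at h ⊢ <;> omega

theorem sadj_irrefl {k i} (h : sadj k i k i) : False := by
  obtain rfl | rfl | rfl := fin3 k <;> simp only [sadj] at h <;> omega

theorem sadj_ss {i j} (h : sadj 0 i 0 j) : i + 1 = j ∨ j + 1 = i := by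
  simpa only [sadj] using h

theorem col_symm {k i l j} (h : sadj k i l j) : col k i l j = col l j k i := by
  obtain rfl | rfl | rfl := fin3 k <;> obtain rfl | rfl | rfl := fin3 l <;>
    simp only [sadj] at h <;> simp only [col] <;> omega

theorem few_symm {k i l j} (h : sadj k i l j) : few k i l j = few l j k i := by
  obtain rfl | rfl | rfl := fin3 k <;> obtain rfl | rfl | rfl := fin3 l <;>
    simp only [sadj] at h <;> simp only [few] <;> omega

theorem few_lt {k i l j} (h : sadj k i l j) : few k i l j < 12 := by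
  obtain rfl | rfl | rfl := fin3 k <;> obtain rfl | rfl | rfl := fin3 l <;>
    simp only [sadj] at h <;> simp only [few] <;> omega

theorem col_proper {k i l j l' j'} (h : sadj k i l j) (h' : sadj k i l' j')
    (hc : col k i l j = col k i l' j') : l = l' ∧ j = j' := by
  obtain rfl | rfl | rfl := fin3 k <;> obtain rfl | rfl | rfl := fin3 l <;>
    obtain rfl | rfl | rfl := fin3 l' <;>
    simp only [sadj] at h h' <;> simp only [col] at hc <;>
    omega

theorem few_proper {k i l j l' j'} (h : sadj k i l j) (h' : sadj k i l' j')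
    (hc : few k i l j = few k i l' j') : l = l' ∧ j = j' := by
  obtain rfl | rfl | rfl := fin3 k <;> obtain rfl | rfl | rfl := fin3 l <;>
    obtain rfl | rfl | rfl := fin3 l' <;>
    simp only [sadj] at h h' <;> simp only [few] at hc <;>
    omega

theorem col_cycle {k0 i0 k1 i1 k2 i2 k3 i3} (h0 : sadj k0 i0 k1 i1) (h1 : sadj k1 i1 k2 i2)
    (h2 : sadj k2 i2 k3 i3) (h3 : sadj k3 i3 k0 i0) (d0 : k0 = k2 → i0 ≠ i2)
    (d1 : k1 = k3 → i1 ≠ i3) :
    col k0 i0 k1 i1 = col k2 i2 k3 i3 ∨ col k1 i1 k2 i2 = col k3 i3 k0 i0 := by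
  obtain rfl | rfl | rfl := fin3 k0 <;> obtain rfl | rfl | rfl := fin3 k1 <;>
    obtain rfl | rfl | rfl := fin3 k2 <;> obtain rfl | rfl | rfl := fin3 k3 <;>
    simp only [sadj] at h0 h1 h2 h3 <;> simp only [col] <;> simp at d0 d1 <;> omega

variable {m : ℕ}

/-- vertices: wire, kind, index -/
abbrev Vt (m : ℕ) : Type := Fin m × Fin 3 × Fin (2 * m + 1)

/-- the vertex at a position of a wire; the position `(0, 2b+1)` of wire `a` and the position
`(0, 2a+1)` of wire `b` are the same vertex -/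
def vert (a : Fin m) (k : Fin 3) (i : Fin (2 * m + 1)) : Vt m :=
  if h : k = 0 ∧ i.val % 2 = 1 ∧ i.val / 2 < a.val then
    (⟨i.val / 2, by have := a.isLt; omega⟩, 0, ⟨2 * a.val + 1, by have := a.isLt; omega⟩)
  else (a, k, i)

theorem vert_pos {a : Fin m} {k : Fin 3} {i : Fin (2 * m + 1)} (h1 : k = 0)
    (h2 : i.val % 2 = 1) (h3 : i.val / 2 < a.val) : vert a k i =
    (⟨i.val / 2, by have := a.isLt; omega⟩, 0, ⟨2 * a.val + 1, by have := a.isLt; omega⟩) :=
  dif_pos ⟨h1, h2, h3⟩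

theorem vert_neg {a : Fin m} {k : Fin 3} {i : Fin (2 * m + 1)}
    (h : ¬(k = 0 ∧ i.val % 2 = 1 ∧ i.val / 2 < a.val)) : vert a k i = (a, k, i) :=
  dif_neg h

/-- the only coincidences of positions are the crossings -/
theorem vert_eq {a a' : Fin m} {k k' : Fin 3} {i i' : Fin (2 * m + 1)}
    (h : vert a k i = vert a' k' i') :
    (a = a' ∧ k = k' ∧ i = i') ∨
      (a ≠ a' ∧ k = 0 ∧ k' = 0 ∧ i.val = 2 * a'.val + 1 ∧ i'.val = 2 * a.val + 1) := by
  by_cases h1 : k = 0 ∧ i.val % 2 = 1 ∧ i.val / 2 < a.val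
  · by_cases h2 : k' = 0 ∧ i'.val % 2 = 1 ∧ i'.val / 2 < a'.val
    · obtain ⟨f1, f2, f3⟩ := h1
      obtain ⟨g1, g2, g3⟩ := h2
      rw [vert_pos f1 f2 f3, vert_pos g1 g2 g3] at h
      simp only [Prod.mk.injEq, Fin.mk.injEq] at h
      left
      refine ⟨Fin.ext (by omega), f1.trans g1.symm, Fin.ext (by omega)⟩
    · obtain ⟨f1, f2, f3⟩ := h1
      rw [vert_pos f1 f2 f3, vert_neg h2] at h
      simp only [Prod.mk.injEq] at h
      obtain ⟨e1, e2, e3⟩ := h
      have e1' := congrArg Fin.val e1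
      have e3' := congrArg Fin.val e3
      simp only at e1' e3'
      right
      refine ⟨?_, f1, e2.symm, by omega, by omega⟩
      rintro rfl
      omega
  · by_cases h2 : k' = 0 ∧ i'.val % 2 = 1 ∧ i'.val / 2 < a'.val
    · obtain ⟨g1, g2, g3⟩ := h2
      rw [vert_neg h1, vert_pos g1 g2 g3] at h
      simp only [Prod.mk.injEq] at h
      obtain ⟨e1, e2, e3⟩ := h
      have e1' := congrArg Fin.val e1
      have e3' := congrArg Fin.val e3
      simp only at e1' e3'
      right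
      refine ⟨?_, e2, g1, by omega, by omega⟩
      rintro rfl
      omega
    · rw [vert_neg h1, vert_neg h2] at h
      simp only [Prod.mk.injEq] at h
      exact Or.inl h

theorem vert_inj {a : Fin m} {k k' : Fin 3} {i i' : Fin (2 * m + 1)}
    (h : vert a k i = vert a k' i') : k = k' ∧ i = i' := by
  rcases vert_eq h with h | h
  · exact h.2
  · exact absurd rfl h.1

theorem vert_cross_lt {a b : Fin m} (hab : a.val < b.val) :
    vert a 0 ⟨2 * b.val + 1, by have := b.isLt; omega⟩ =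
      vert b 0 ⟨2 * a.val + 1, by have := a.isLt; omega⟩ := by
  have hb := b.isLt
  have ha := a.isLt
  have e1 : vert a 0 ⟨2 * b.val + 1, by omega⟩ = (a, 0, ⟨2 * b.val + 1, by omega⟩) := by
    apply vert_neg
    rintro ⟨-, -, h⟩
    have h' : (2 * b.val + 1) / 2 < a.val := h
    omega
  have e2 : vert b 0 ⟨2 * a.val + 1, by omega⟩ =
      (⟨(2 * a.val + 1) / 2, by omega⟩, 0, ⟨2 * b.val + 1, by omega⟩) := by
    apply vert_pos rfl
    · show (2 * a.val + 1) % 2 = 1
      omega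
    · show (2 * a.val + 1) / 2 < b.val
      omega
  rw [e1, e2]
  have h : a = ⟨(2 * a.val + 1) / 2, by omega⟩ := Fin.ext (by
    show a.val = (2 * a.val + 1) / 2
    omega)
  rw [← h]

theorem vert_cross {a b : Fin m} (hab : a ≠ b) :
    vert a 0 ⟨2 * b.val + 1, by have := b.isLt; omega⟩ =
      vert b 0 ⟨2 * a.val + 1, by have := a.isLt; omega⟩ := by
  have hab' : a.val ≠ b.val := fun h => hab (Fin.ext h)
  rcases lt_or_gt_of_ne hab' with h | h
  · exact vert_cross_lt h
  · exact (vert_cross_lt h).symm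

/-- the graph of `m` pairwise crossing wires -/
def G (m : ℕ) : SimpleGraph (Vt m) where
  Adj u v := ∃ (a : Fin m) (k : Fin 3) (i : Fin (2 * m + 1)) (l : Fin 3) (j : Fin (2 * m + 1)),
    sadj k i l j ∧ u = vert a k i ∧ v = vert a l j
  symm := ⟨by
    rintro u v ⟨a, k, i, l, j, h, hu, hv⟩
    exact ⟨a, l, j, k, i, sadj_symm h, hv, hu⟩⟩
  loopless := ⟨by
    rintro u ⟨a, k, i, l, j, h, hu, hv⟩
    obtain ⟨rfl, rfl⟩ := vert_inj (hu.symm.trans hv)
    exact sadj_irrefl h⟩

theorem adj_mk {a : Fin m} {k : Fin 3} {i : Fin (2 * m + 1)} {l : Fin 3} {j : Fin (2 * m + 1)}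
    (h : sadj k i l j) : (G m).Adj (vert a k i) (vert a l j) :=
  ⟨a, k, i, l, j, h, rfl, rfl⟩

/-- an edge determines its wire and positions -/
theorem edge_unique {a : Fin m} {k : Fin 3} {i : Fin (2 * m + 1)} {l : Fin 3}
    {j : Fin (2 * m + 1)} {a' : Fin m} {k' : Fin 3} {i' : Fin (2 * m + 1)} {l' : Fin 3}
    {j' : Fin (2 * m + 1)} (h : sadj k i l j) (hu : vert a k i = vert a' k' i')
    (hv : vert a l j = vert a' l' j') : a = a' ∧ k = k' ∧ i = i' ∧ l = l' ∧ j = j' := by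
  rcases vert_eq hu with ⟨h1, h2, h3⟩ | ⟨h1, h2, h3, h4, h5⟩
  · rcases vert_eq hv with ⟨g1, g2, g3⟩ | ⟨g1, g2, g3, g4, g5⟩
    · exact ⟨h1, h2, h3, g2, g3⟩
    · exact absurd h1 g1
  · rcases vert_eq hv with ⟨g1, g2, g3⟩ | ⟨g1, g2, g3, g4, g5⟩
    · exact absurd g1 h1
    · exfalso
      subst h2; subst g2
      have := sadj_ss h
      omega

/-- edge colourings can be defined through positions -/
theorem exists_colouring (f : Fin m → Fin 3 → ℕ → Fin 3 → ℕ → ℕ)
    (hf : ∀ a k i l j, sadj k i l j → f a k i l j = f a l j k i) :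
    ∃ c : Sym2 (Vt m) → ℕ, ∀ (a : Fin m) (k : Fin 3) (i : Fin (2 * m + 1)) (l : Fin 3)
      (j : Fin (2 * m + 1)), sadj k i l j → c s(vert a k i, vert a l j) = f a k i l j := by
  classical
  refine ⟨fun e => if h : ∃ x : Fin m × Fin 3 × Fin (2 * m + 1) × Fin 3 × Fin (2 * m + 1),
    sadj x.2.1 x.2.2.1 x.2.2.2.1 x.2.2.2.2 ∧
      e = s(vert x.1 x.2.1 x.2.2.1, vert x.1 x.2.2.2.1 x.2.2.2.2) then
      f h.choose.1 h.choose.2.1 h.choose.2.2.1 h.choose.2.2.2.1 h.choose.2.2.2.2 else 0, ?_⟩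
  intro a k i l j hs
  have hex : ∃ x : Fin m × Fin 3 × Fin (2 * m + 1) × Fin 3 × Fin (2 * m + 1),
    sadj x.2.1 x.2.2.1 x.2.2.2.1 x.2.2.2.2 ∧
      s(vert a k i, vert a l j) = s(vert x.1 x.2.1 x.2.2.1, vert x.1 x.2.2.2.1 x.2.2.2.2) :=
    ⟨(a, k, i, l, j), hs, rfl⟩
  simp only [dif_pos hex]
  obtain ⟨h1, h2⟩ := hex.choose_spec
  generalize hex.choose = x at h1 h2
  obtain ⟨a', k', i', l', j'⟩ := x
  simp only at h1 h2 ⊢
  rcases Sym2.eq_iff.mp h2 with ⟨h3, h4⟩ | ⟨h3, h4⟩
  · obtain ⟨rfl, rfl, rfl, rfl, rfl⟩ := edge_unique hs h3 h4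
    rfl
  · obtain ⟨rfl, rfl, rfl, rfl, rfl⟩ := edge_unique hs h3 h4
    exact hf _ _ _ _ _ h1

/-- a colouring with at most 24 colours -/
theorem few_colours (m : ℕ) : ∃ c : Sym2 (Vt m) → ℕ, IsProper (G m) c ∧
    ∀ e ∈ (G m).edgeSet, c e < 24 := by
  obtain ⟨c, hc⟩ := exists_colouring (m := m)
    (fun a k i l j => 2 * few k i l j + (if a.val < min i j / 2 then 1 else 0))
    (by
      intro a k i l j h
      rw [few_symm h, min_comm])
  refine ⟨c, ?_, ?_⟩
  · rintro u v w ⟨a, k, i, l, j, h, rfl, rfl⟩ ⟨a', k', i', l', j', h', hu, rfl⟩ hvw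
    rw [hc a k i l j h, hu, hc a' k' i' l' j' h']
    rcases vert_eq hu with ⟨rfl, rfl, rfl⟩ | ⟨h1, rfl, rfl, h4, h5⟩
    · intro hcol
      have h6 : few k i l j = few k i l' j' := by split_ifs at hcol <;> omega
      obtain ⟨rfl, h7⟩ := few_proper h h' h6
      apply hvw
      rw [Fin.ext h7]
    · have h1' : a.val ≠ a'.val := fun h => h1 (Fin.ext h)
      have hm : min i.val j.val / 2 = a'.val := by
        obtain rfl | rfl | rfl := fin3 l <;> simp only [sadj] at h <;> omega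
      have hm' : min i'.val j'.val / 2 = a.val := by
        obtain rfl | rfl | rfl := fin3 l' <;> simp only [sadj] at h' <;> omega
      rw [hm, hm']
      split_ifs <;> omega
  · intro e
    refine Sym2.ind (fun u v => ?_) e
    rintro ⟨a, k, i, l, j, h, rfl, rfl⟩
    rw [hc a k i l j h]
    have := few_lt h
    split_ifs <;> omega

/-- a proper colouring without a rainbow 4-cycle -/
theorem no_rainbow (m : ℕ) : ∃ c : Sym2 (Vt m) → ℕ, IsProper (G m) c ∧ NoRainbow (G m) c := by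
  obtain ⟨c, hc⟩ := exists_colouring (m := m)
    (fun a k i l j => Nat.pair a.val (col k i l j))
    (by
      intro a k i l j h
      rw [col_symm h])
  refine ⟨c, ?_, ?_⟩
  · rintro u v w ⟨a, k, i, l, j, h, rfl, rfl⟩ ⟨a', k', i', l', j', h', hu, rfl⟩ hvw
    rw [hc a k i l j h, hu, hc a' k' i' l' j' h']
    rw [ne_eq, Nat.pair_eq_pair]
    rcases vert_eq hu with ⟨rfl, rfl, rfl⟩ | ⟨h1, rfl, rfl, h4, h5⟩
    · rintro ⟨-, hcol⟩
      obtain ⟨rfl, h7⟩ := col_proper h h' hcol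
      apply hvw
      rw [Fin.ext h7]
    · rintro ⟨h6, -⟩
      exact h1 (Fin.ext h6)
  · rintro x0 x1 x2 x3 ⟨a0, k0, i0, l0, j0, h0, e0, f0⟩ ⟨a1, k1, i1, l1, j1, h1, e1, f1⟩
      ⟨a2, k2, i2, l2, j2, h2, e2, f2⟩ ⟨a3, k3, i3, l3, j3, h3, e3, f3⟩ d02 d13
    -- two crossings in a row are impossible
    have ss : ∀ (i j : Fin (2 * m + 1)) (k l : Fin 3) (x y : ℕ), sadj k i l j → k = 0 → l = 0 →
        i.val = 2 * x + 1 → j.val = 2 * y + 1 → False := by
      rintro i j k l x y h rfl rfl h4 h5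
      have := sadj_ss h
      omega
    rcases vert_eq (f3.symm.trans e0) with ⟨p0, q0, r0⟩ | ⟨p0, q0, r0, s0, t0⟩ <;>
    rcases vert_eq (f0.symm.trans e1) with ⟨p1, q1, r1⟩ | ⟨p1, q1, r1, s1, t1⟩ <;>
    rcases vert_eq (f1.symm.trans e2) with ⟨p2, q2, r2⟩ | ⟨p2, q2, r2, s2, t2⟩ <;>
    rcases vert_eq (f2.symm.trans e3) with ⟨p3, q3, r3⟩ | ⟨p3, q3, r3, s3, t3⟩
    · subst p0 p1 p2
      subst q0 r0 q1 r1 q2 r2 q3 r3
      rw [e0, f0, e2, f2, hc _ _ _ _ _ h0, hc _ _ _ _ _ h1, hc _ _ _ _ _ h2, hc _ _ _ _ _ h3,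
        Nat.pair_eq_pair, Nat.pair_eq_pair]
      have key := col_cycle h0 h1 h2 h3 (by
        rintro rfl h4
        apply d02
        rw [e0, e2, Fin.ext h4]) (by
        rintro rfl h4
        apply d13
        rw [f0, f2, Fin.ext h4])
      rcases key with key | key
      · exact Or.inl ⟨rfl, key⟩
      · exact Or.inr ⟨rfl, key⟩
    · exact absurd ((p0.trans p1).trans p2).symm p3
    · exact absurd ((p3.trans p0).trans p1).symm p2
    · exact (ss i2 j2 k2 l2 _ _ h2 r2 q3 t2 s3).elim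
    · exact absurd ((p2.trans p3).trans p0).symm p1
    · exfalso
      apply d13
      rw [e1, f2]
      subst p2
      subst r1 q3
      congr 1
      apply Fin.ext
      rw [t1, s3, ← p0]
    · exact (ss i1 j1 k1 l1 _ _ h1 r1 q2 t1 s2).elim
    · exact (ss i1 j1 k1 l1 _ _ h1 r1 q2 t1 s2).elim
    · exact absurd ((p1.trans p2).trans p3).symm p0
    · exact (ss i3 j3 k3 l3 _ _ h3 r3 q0 t3 s0).elim
    · exfalso
      apply d02
      rw [e0, f1]
      subst p1
      subst r0 q2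
      congr 1
      apply Fin.ext
      rw [t0, s2, ← p3]
    · exact (ss i2 j2 k2 l2 _ _ h2 r2 q3 t2 s3).elim
    · exact (ss i0 j0 k0 l0 _ _ h0 r0 q1 t0 s1).elim
    · exact (ss i0 j0 k0 l0 _ _ h0 r0 q1 t0 s1).elim
    · exact (ss i0 j0 k0 l0 _ _ h0 r0 q1 t0 s1).elim
    · exact (ss i0 j0 k0 l0 _ _ h0 r0 q1 t0 s1).elim

theorem sadj01 (i : ℕ) : sadj 0 i 1 i := by
  show i = i ∨ i + 1 = i
  exact Or.inl rfl

theorem k23 {V : Type} {G : SimpleGraph V} {c : Sym2 V → ℕ} (hp : IsProper G c)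
    (hn : NoRainbow G c) {p q x y z : V} (hpq : p ≠ q) (hxy : x ≠ y) (hxz : x ≠ z) (hyz : y ≠ z)
    (px : G.Adj p x) (py : G.Adj p y) (pz : G.Adj p z) (qx : G.Adj q x) (qy : G.Adj q y)
    (qz : G.Adj q z) : c s(p, z) = c s(q, x) ∨ c s(p, z) = c s(q, y) := by
  by_contra hcon
  push Not at hcon
  obtain ⟨h1, h2⟩ := hcon
  have e1 : c s(p, x) = c s(q, z) := by
    rcases hn p x q z px qx.symm qz pz.symm hpq hxz with h | h
    · exact h
    · rw [Sym2.eq_swap (a := x), Sym2.eq_swap (a := z)] at h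
      exact absurd h.symm h1
  have e2 : c s(p, y) = c s(q, z) := by
    rcases hn p y q z py qy.symm qz pz.symm hpq hyz with h | h
    · exact h
    · rw [Sym2.eq_swap (a := y), Sym2.eq_swap (a := z)] at h
      exact absurd h.symm h2
  exact hp p x y px py hxy (e1.trans e2.symm)

theorem spine_step {c : Sym2 (Vt m) → ℕ} (hp : IsProper (G m) c) (hn : NoRainbow (G m) c)
    (a : Fin m) (h i j : Fin (2 * m + 1)) (h1 : h.val + 1 = i.val) (h2 : i.val + 1 = j.val) :
    c s(vert a 0 i, vert a 1 i) = c s(vert a 0 j, vert a 1 j) := by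
  have ne : ∀ {k k' : Fin 3} {x y : Fin (2 * m + 1)}, (k ≠ k' ∨ x.val ≠ y.val) →
      vert a k x ≠ vert a k' y := by
    intro k k' x y hxy he
    obtain ⟨rfl, rfl⟩ := vert_inj he
    rcases hxy with h | h <;> exact h rfl
  have adj : ∀ {k l : Fin 3} {x y : Fin (2 * m + 1)}, sadj k x l y →
      (G m).Adj (vert a k x) (vert a l y) := fun h => adj_mk h
  have st : (G m).Adj (vert a 0 i) (vert a 1 i) := adj (sadj01 _)
  have st' : (G m).Adj (vert a 0 j) (vert a 1 j) := adj (sadj01 _)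
  have ss : (G m).Adj (vert a 0 i) (vert a 0 j) := adj (by simp only [sadj]; omega)
  have tt : (G m).Adj (vert a 1 i) (vert a 1 j) := adj (by simp only [sadj]; omega)
  have sh : (G m).Adj (vert a 0 i) (vert a 1 h) := adj (by simp only [sadj]; omega)
  have sr : (G m).Adj (vert a 0 i) (vert a 2 i) := adj (by simp only [sadj])
  have th : (G m).Adj (vert a 1 i) (vert a 1 h) := adj (by simp only [sadj]; omega)
  have tr : (G m).Adj (vert a 1 i) (vert a 2 i) := adj (by simp only [sadj])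
  have ts : (G m).Adj (vert a 1 i) (vert a 0 j) := adj (by simp only [sadj]; omega)
  have key := k23 hp hn (ne (Or.inl (by decide))) (ne (Or.inl (by decide)))
    (ne (Or.inl (by decide))) (ne (Or.inl (by decide))) sh sr ss th tr ts
  have key2 : c s(vert a 0 i, vert a 0 j) ≠ c s(vert a 1 i, vert a 1 j) := by
    rcases key with key | key
    · rw [key]
      exact hp _ _ _ th tt (ne (Or.inr (by omega)))
    · rw [key]
      exact hp _ _ _ tr tt (ne (Or.inl (by decide)))
  rcases hn (vert a 0 i) (vert a 1 i) (vert a 1 j) (vert a 0 j) st tt st'.symm ss.symm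
    (ne (Or.inl (by decide))) (ne (Or.inl (by decide))) with h3 | h3
  · rw [h3, Sym2.eq_swap]
  · exfalso
    apply key2
    rw [h3, Sym2.eq_swap]

theorem spine_const {c : Sym2 (Vt m) → ℕ} (hp : IsProper (G m) c) (hn : NoRainbow (G m) c)
    (a : Fin m) : ∀ (n : ℕ) (i j : Fin (2 * m + 1)), i.val = 1 → j.val = n + 1 →
    c s(vert a 0 i, vert a 1 i) = c s(vert a 0 j, vert a 1 j) := by
  intro n
  induction n with
  | zero =>
    intro i j hi hj
    have : i = j := Fin.ext (by omega)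
    rw [this]
  | succ n ih =>
    intro i j hi hj
    have hjl := j.isLt
    rw [ih i ⟨n + 1, by omega⟩ hi rfl]
    exact spine_step hp hn a ⟨n, by omega⟩ ⟨n + 1, by omega⟩ j rfl (by simp only []; omega)

/-- a proper colouring without a rainbow 4-cycle has at least `m` colours -/
theorem many_colours {c : Sym2 (Vt m) → ℕ} (hp : IsProper (G m) c) (hn : NoRainbow (G m) c) :
    m ≤ (c '' (G m).edgeSet).ncard := by
  classical
  have hmlt : ∀ a : Fin m, 1 < 2 * m + 1 := fun a => by have := a.isLt; omega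
  let w : Fin m → ℕ := fun a => c s(vert a 0 ⟨1, hmlt a⟩, vert a 1 ⟨1, hmlt a⟩)
  have hw : ∀ a b : Fin m, w a = c s(vert a 0 ⟨2 * b.val + 1, by have := b.isLt; omega⟩,
      vert a 1 ⟨2 * b.val + 1, by have := b.isLt; omega⟩) := by
    intro a b
    exact spine_const hp hn a (2 * b.val) _ _ rfl rfl
  have hinj : Function.Injective w := by
    intro a b hab
    by_contra hne
    rw [hw a b, hw b a] at hab
    rw [← vert_cross hne] at hab
    refine hp _ _ _ (adj_mk (sadj01 _)) ?_ ?_ hab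
    · rw [vert_cross hne]
      exact adj_mk (sadj01 _)
    · intro he
      rcases vert_eq he with h | h
      · exact hne h.1
      · exact absurd h.2.1 (by decide)
  have hmem : ∀ a, w a ∈ c '' (G m).edgeSet := by
    intro a
    refine ⟨_, ?_, rfl⟩
    rw [SimpleGraph.mem_edgeSet]
    exact adj_mk (sadj01 _)
  have hfin : (c '' (G m).edgeSet).Finite := Set.toFinite _
  calc m = (Set.range w).ncard := by
        rw [← Nat.card_coe_set_eq, Nat.card_range_of_injective hinj, Nat.card_eq_fintype_card,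
          Fintype.card_fin]
    _ ≤ _ := Set.ncard_le_ncard (by rintro _ ⟨a, rfl⟩; exact hmem a) hfin

end Pool.Agent.X82.Wires
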