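import Mathlib
import Pool.Agent.W332.Kd.Wr
import Pool.Agent.W332.Kd.Thr

set_option autoImplicit false

/-!
# Factors of Cayley graphs of abelian groups (MP_257582_lc)
-/

namespace Pool.Agent.X82.EF

open Finset
open Pool.Agent.H98R2.Ev (EV toG NE)
open Pool.Agent.H119R2.Kp
open Pool.Agent.W332.Kd

section sub

variable {A : Type} [AddCommGroup A] [DecidableEq A]

theorem Sy.sdiff {T : Finset A} (hT : Sy T) (a : A) : Sy (T \ pr a) := by
  constructor
  · intro h
    exact hT.zero (mem_sdiff.1 h).1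
  · intro x hx
    rw [mem_sdiff, mem_pr] at hx ⊢
    refine ⟨hT.neg x hx.1, ?_⟩
    rintro (h | h)
    · exact hx.2 (Or.inr (by rw [← h, neg_neg]))
    · exact hx.2 (Or.inl (neg_injective h))

theorem pr_sub {T : Finset A} (hT : Sy T) {a : A} (ha : a ∈ T) : pr a ⊆ T := by
  intro x hx
  rw [mem_pr] at hx
  rcases hx with rfl | rfl
  · exact ha
  · exact hT.neg a ha

omit [DecidableEq A] in
/-- a symmetric set without an element of order two has an even number of elements -/
theorem even_card {T : Finset A} (hT : Sy T) (h : ∀ a ∈ T, -a ≠ a) : Even T.card := by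
  have h1 : ∑ a ∈ T, (1 : ZMod 2) = 0 := by
    refine Finset.sum_involution (fun a _ => -a) ?_ ?_ ?_ ?_
    · intro a _
      decide
    · intro a ha _
      exact h a ha
    · intro a ha
      exact hT.neg a ha
    · intro a _
      exact neg_neg a
  rw [Finset.sum_const, nsmul_eq_mul, mul_one, ZMod.natCast_eq_zero_iff] at h1
  exact even_iff_two_dvd.2 h1

theorem exists_sub [Fintype A] {S : Finset A} (hS : Sy S) (m : ℕ) (hm : m ≤ S.card) :
    ∃ T, T ⊆ S ∧ Sy T ∧ m ≤ T.card ∧ T.card ≤ m + 1 ∧ (Even m → T.card = m) := by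
  classical
  obtain ⟨T, hT, hmin⟩ := Finset.exists_min_image
    (S.powerset.filter fun T => Sy T ∧ m ≤ T.card) Finset.card
    ⟨S, by rw [mem_filter, mem_powerset]; exact ⟨Subset.refl _, hS, hm⟩⟩
  rw [mem_filter, mem_powerset] at hT
  obtain ⟨hTS, hTsy, hmT⟩ := hT
  have hle : T.card ≤ m + 1 := by
    by_contra hcon
    obtain ⟨a, ha⟩ := Finset.card_pos.1 (show 0 < T.card by omega)
    have h1 : (T \ pr a).card = T.card - (pr a).card := Finset.card_sdiff_of_subset (pr_sub hTsy ha)
    have h2 : (pr a).card ≤ 2 := by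
      rw [card_pr]
      split_ifs <;> omega
    have h3 := hmin (T \ pr a) (by
      rw [mem_filter, mem_powerset]
      exact ⟨sdiff_subset.trans hTS, Sy.sdiff hTsy a, by omega⟩)
    have h4 : 0 < (pr a).card := Finset.card_pos.2 ⟨a, by rw [mem_pr]; exact Or.inl rfl⟩
    omega
  refine ⟨T, hTS, hTsy, hmT, hle, fun he => ?_⟩
  by_contra hne
  have hcard : T.card = m + 1 := by omega
  obtain ⟨a, ha, haa⟩ : ∃ a ∈ T, -a = a := by
    by_contra hcon
    push Not at hcon
    have := even_card hTsy hcon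
    rw [hcard, Nat.even_add_one] at this
    exact this he
  have h2 : (pr a).card = 1 := by
    rw [card_pr, if_pos haa]
  have h1 : (T \ pr a).card = T.card - (pr a).card := Finset.card_sdiff_of_subset (pr_sub hTsy ha)
  have h3 := hmin (T \ pr a) (by
    rw [mem_filter, mem_powerset]
    exact ⟨sdiff_subset.trans hTS, Sy.sdiff hTsy a, by omega⟩)
  omega

end sub

/-- a spanning subgraph all degrees of which belong to `H` -/
def Fac {V : Type} (H : Set ℕ) (G : SimpleGraph V) : Prop :=
  ∃ F : SimpleGraph V, F ≤ G ∧ ∀ v, (F.neighborSet v).ncard ∈ H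

/-- maximum degree at least `k` -/
def Core {V : Type} (k : ℕ) (G : SimpleGraph V) : Prop :=
  ∃ v : V, k ≤ (G.neighborSet v).ncard

/-- some connected component has an even number of vertices -/
def EvenComp {V : Type} (G : SimpleGraph V) : Prop :=
  ∃ v : V, Even {u : V | G.Reachable v u}.ncard

theorem map_nbr {V W : Type} (e : V ≃ W) (G : SimpleGraph V) (w : W) :
    (G.map e.toEmbedding).neighborSet w = e '' (G.neighborSet (e.symm w)) := by
  ext x
  rw [SimpleGraph.mem_neighborSet, SimpleGraph.map_adj]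
  constructor
  · rintro ⟨u, v, h, h1, h2⟩
    refine ⟨v, ?_, h2⟩
    rw [SimpleGraph.mem_neighborSet]
    have : e.symm w = u := by
      rw [Equiv.symm_apply_eq]
      exact h1.symm
    rwa [this]
  · rintro ⟨v, h, h2⟩
    exact ⟨e.symm w, v, h, e.apply_symm_apply w, h2⟩

theorem Fac.map {V W : Type} {H : Set ℕ} {G : SimpleGraph V} (e : V ≃ W) (h : Fac H G) :
    Fac H (G.map e.toEmbedding) := by
  obtain ⟨F, hF, hd⟩ := h
  refine ⟨F.map e.toEmbedding, SimpleGraph.map_monotone _ hF, fun w => ?_⟩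
  rw [map_nbr, Set.ncard_image_of_injective _ e.injective]
  exact hd _

theorem Fac.mono {V : Type} {H : Set ℕ} {G G' : SimpleGraph V} (h : Fac H G) (hG : G ≤ G') :
    Fac H G' := by
  obtain ⟨F, hF, hd⟩ := h
  exact ⟨F, hF.trans hG, hd⟩

theorem Core.of_map {V W : Type} {k : ℕ} {G : SimpleGraph V} (e : V ≃ W)
    (h : Core k (G.map e.toEmbedding)) : Core k G := by
  obtain ⟨w, hw⟩ := h
  refine ⟨e.symm w, ?_⟩
  rwa [map_nbr, Set.ncard_image_of_injective _ e.injective] at hw

/-- the core of a Cayley graph -/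
theorem cay_core {A : Type} [AddCommGroup A] [Fintype A] {S : Finset A} (hS : Sy S) {k : ℕ}
    (h : Core k (cay S)) : k ≤ S.card := by
  obtain ⟨v, hv⟩ := h
  have h3 := cay_Reg hS v
  omega

theorem cay_fac {A : Type} [AddCommGroup A] [Fintype A] {S T : Finset A} (hT : Sy T)
    (hTS : T ⊆ S) {H : Set ℕ} (hH : T.card ∈ H) : Fac H (cay S) := by
  refine ⟨cay T, cay_mono hTS, fun v => ?_⟩
  rw [cay_Reg hT v]
  exact hH

/-- the first two cases -/
theorem hdeg1 {n k : ℕ} {P : SimpleGraph (Fin n) → Prop} 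
    (hfac : ∀ G : SimpleGraph (Fin n), Fac {k} G → P G)
    (hcore : ∀ G : SimpleGraph (Fin n), P G → Core k G)
    (hk : Even k ∨ ∀ G : SimpleGraph (Fin n), Fac {k + 1} G → P G)
    (A : Type) [AddCommGroup A] [Fintype A] (hA : Fintype.card A = n)
    (S : Finset A) (hS : Sy S) : PV P A (cay S) ↔ k ≤ S.card := by
  classical
  constructor
  · rintro ⟨e, he⟩
    exact cay_core hS (Core.of_map e (hcore _ he))
  · intro h
    obtain ⟨T, hTS, hT, h1, h2, h3⟩ := exists_sub hS k h
    refine ⟨Fintype.equivFinOfCardEq hA, ?_⟩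
    by_cases hTk : T.card = k
    · exact hfac _ (Fac.map _ (cay_fac hT hTS hTk))
    · rcases hk with hk | hk
      · exact absurd (h3 hk) hTk
      · exact hk _ (Fac.map _ (cay_fac hT hTS (show T.card = k + 1 by omega)))

end Pool.Agent.X82.EF
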