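import Mathlib
import Pool.Agent.X82.EF1

set_option autoImplicit false

/-!
# Factors of odd degree of circulant graphs (MP_257582_lc)
-/

namespace Pool.Agent.X82.EF

open Finset Polynomial
open Pool.Agent.H98R2.Ev (EV toG NE)
open Pool.Agent.H119R2.Kp
open Pool.Agent.W332.Kd

section chi

variable {A : Type} [AddCommGroup A]

/-- alternation along the cosets of the subgroup generated by `s` -/
def chi (s x : A) : Prop :=
  ∃ i : ℤ, Even i ∧ x - (Quotient.out (x : A ⧸ AddSubgroup.zmultiples s)) = i • s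

theorem out_add (s x : A) :
    ((x + s : A) : A ⧸ AddSubgroup.zmultiples s) = (x : A ⧸ AddSubgroup.zmultiples s) := by
  rw [QuotientAddGroup.eq]
  have : -(x + s) + x = -s := by abel
  rw [this]
  exact neg_mem (AddSubgroup.mem_zmultiples s)

theorem chi_add (s x : A) (hs : Even (addOrderOf s)) : chi s (x + s) ↔ ¬ chi s x := by
  have hmem : ∃ i : ℤ, i • s = x - (Quotient.out (x : A ⧸ AddSubgroup.zmultiples s)) := by
    have h1 : -(Quotient.out (x : A ⧸ AddSubgroup.zmultiples s)) + x ∈
        AddSubgroup.zmultiples s := by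
      rw [← QuotientAddGroup.eq]
      exact Quotient.out_eq' _
    rw [AddSubgroup.mem_zmultiples_iff] at h1
    obtain ⟨i, hi⟩ := h1
    exact ⟨i, by rw [hi]; abel⟩
  obtain ⟨i, hi⟩ := hmem
  unfold chi
  rw [out_add]
  constructor
  · rintro ⟨j, hj, h1⟩ ⟨l, hl, h2⟩
    have h3 : (l + 1 - j) • s = 0 := by
      rw [sub_smul, add_smul, one_smul, ← h1, ← h2]
      abel
    have h4 : ((addOrderOf s : ℕ) : ℤ) ∣ l + 1 - j := addOrderOf_dvd_iff_zsmul_eq_zero.2 h3
    have h5 : (2 : ℤ) ∣ l + 1 - j := by
      refine dvd_trans ?_ h4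
      exact_mod_cast even_iff_two_dvd.1 hs
    obtain ⟨u, hu⟩ := hj
    obtain ⟨v, hv⟩ := hl
    omega
  · intro h
    have hodd : Odd i := by
      rw [← Int.not_even_iff_odd]
      intro he
      exact h ⟨i, he, hi.symm⟩
    refine ⟨i + 1, hodd.add_one, ?_⟩
    rw [add_smul, one_smul, hi]
    abel

/-- the perfect matching in the cycles of step `s` -/
def mtc (s : A) : SimpleGraph A where
  Adj x y := x ≠ y ∧ ((chi s x ∧ y = x + s) ∨ (chi s y ∧ x = y + s))
  symm := ⟨fun _ _ h => ⟨h.1.symm, h.2.symm⟩⟩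
  loopless := ⟨fun _ h => h.1 rfl⟩

theorem mtc_nbr (s : A) (hs : Even (addOrderOf s)) (x : A) :
    ∃ y, (y = x + s ∨ y = x - s) ∧ (mtc s).neighborSet x = {y} := by
  have hs0 : s ≠ 0 := by
    rintro rfl
    rw [addOrderOf_zero] at hs
    exact absurd hs (by decide)
  by_cases h : chi s x
  · refine ⟨x + s, Or.inl rfl, ?_⟩
    ext z
    rw [SimpleGraph.mem_neighborSet, Set.mem_singleton_iff]
    constructor
    · rintro ⟨_, ⟨_, h2⟩ | ⟨h1, h2⟩⟩
      · exact h2
      · exfalso
        rw [h2, chi_add s z hs] at h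
        exact h h1
    · rintro rfl
      exact ⟨fun h' => hs0 (by simpa using h'.symm), Or.inl ⟨h, rfl⟩⟩
  · refine ⟨x - s, Or.inr rfl, ?_⟩
    have hx : chi s (x - s) := by
      by_contra h'
      apply h
      have := (chi_add s (x - s) hs).2 h'
      rwa [sub_add_cancel] at this
    ext z
    rw [SimpleGraph.mem_neighborSet, Set.mem_singleton_iff]
    constructor
    · rintro ⟨_, ⟨h1, _⟩ | ⟨_, h2⟩⟩
      · exact absurd h1 h
      · rw [h2, add_sub_cancel_right]
    · rintro rfl
      exact ⟨fun h' => hs0 (by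
        have := sub_eq_self.1 h'.symm
        exact this), Or.inr ⟨hx, (sub_add_cancel x s).symm⟩⟩

variable [DecidableEq A] [Fintype A]

/-- a factor of odd degree -/
theorem odd_fac {S : Finset A} (hS : Sy S) {k : ℕ} (hk : Odd k) (hkS : k ≤ S.card)
    {s : A} (hs : s ∈ S) (hse : Even (addOrderOf s)) : Fac {k} (cay S) := by
  classical
  obtain ⟨j, hj⟩ := hk
  have hsplit : ∀ s ∈ S, (pr s).card + k ≤ S.card + 1 → Even (addOrderOf s) →
      Fac {k} (cay S) := by
    intro s hs hc hse
    have hs0 : s ≠ 0 := fun h => hS.zero (h ▸ hs)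
    have h1 : (S \ pr s).card = S.card - (pr s).card :=
      Finset.card_sdiff_of_subset (pr_sub hS hs)
    obtain ⟨T, hT, hTsy, -, -, hc3⟩ := exists_sub (Sy.sdiff hS s) (k - 1) (by omega)
    have hTk : T.card = k - 1 := hc3 ⟨j, by omega⟩
    refine ⟨cay T ⊔ mtc s, sup_le (cay_mono (hT.trans sdiff_subset)) ?_, fun v => ?_⟩
    · intro x y h
      rw [cay_adj hS]
      rcases h.2 with ⟨_, h2⟩ | ⟨_, h2⟩
      · rw [h2, add_sub_cancel_left]
        exact hs
      · have : y - x = -s := by rw [h2]; abel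
        rw [this]
        exact hS.neg s hs
    · obtain ⟨y, hy, hyn⟩ := mtc_nbr s hse v
      have h2 : (cay T ⊔ mtc s).neighborSet v = (cay T).neighborSet v ∪ {y} := by
        rw [← hyn]
        ext z
        rfl
      have h3 : y ∉ (cay T).neighborSet v := by
        intro h
        rw [SimpleGraph.mem_neighborSet, cay_adj hTsy] at h
        have h4 := (mem_sdiff.1 (hT h)).2
        apply h4
        rw [mem_pr]
        rcases hy with rfl | rfl
        · left
          abel
        · right
          abel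
      rw [h2, Set.union_singleton, Set.ncard_insert_of_notMem h3 (Set.toFinite _),
        cay_Reg hTsy v, hTk]
      show k - 1 + 1 = k
      omega
  by_cases hinv : ∃ a ∈ S, -a = a
  · obtain ⟨a, ha, haa⟩ := hinv
    refine hsplit a ha ?_ ?_
    · rw [card_pr, if_pos haa]
      omega
    · have ha0 : a ≠ 0 := fun h => hS.zero (h ▸ ha)
      have h2 : addOrderOf a = 2 := by
        refine addOrderOf_eq_prime ?_ ha0
        rw [two_nsmul]
        nth_rewrite 1 [← haa]
        exact neg_add_cancel a
      rw [h2]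
      exact even_two
  · push Not at hinv
    have he := even_card hS hinv
    refine hsplit s hs ?_ hse
    rw [card_pr, if_neg (hinv s hs)]
    obtain ⟨i, hi⟩ := he
    omega

end chi

end Pool.Agent.X82.EF
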