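import Mathlib
import Pool.Agent.X82.EF2

set_option autoImplicit false

/-!
# The relation for circulant graphs and factors of odd degree (MP_257582_lc)
-/

namespace Pool.Agent.X82.EF

open Finset Polynomial
open Pool.Agent.H98R2.Ev (EV toG NE)
open Pool.Agent.H119R2.Kp
open Pool.Agent.W332.Kd

section comp

variable {A : Type} [AddCommGroup A]

theorem reach_iff {S : Finset A} (hS : Sy S) (v u : A) :
    (cay S).Reachable v u ↔ u - v ∈ AddSubgroup.closure (S : Set A) := by
  constructor
  · rintro ⟨w⟩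
    induction w with
    | nil => rw [sub_self]; exact zero_mem _
    | @cons a b c h _ ih =>
      rw [cay_adj hS] at h
      have h1 : c - a = (c - b) + (b - a) := by abel
      rw [h1]
      exact add_mem ih (AddSubgroup.subset_closure h)
  · intro h
    have key : ∀ x ∈ AddSubgroup.closure (S : Set A), ∀ v : A, (cay S).Reachable v (v + x) := by
      intro x hx
      refine AddSubgroup.closure_induction (p := fun x _ => ∀ v : A, (cay S).Reachable v (v + x))
        ?_ ?_ ?_ ?_ hx
      · intro x hx v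
        refine SimpleGraph.Adj.reachable ?_
        rw [cay_adj hS, add_sub_cancel_left]
        exact hx
      · intro v
        rw [add_zero]
      · intro x y _ _ h1 h2 v
        have := (h1 v).trans (h2 (v + x))
        rwa [add_assoc] at this
      · intro x _ h1 v
        have := h1 (v + -x)
        rw [neg_add_cancel_right] at this
        exact this.symm
    have := key _ h v
    rwa [add_sub_cancel] at this

theorem no_evenComp [Fintype A] {S : Finset A} (hS : Sy S)
    (hodd : ∀ s ∈ S, ¬ Even (addOrderOf s)) : ¬ EvenComp (cay S) := by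
  rintro ⟨v, hv⟩
  have h1 : {u : A | (cay S).Reachable v u} =
      (fun x => v + x) '' (AddSubgroup.closure (S : Set A) : Set A) := by
    ext u
    rw [Set.mem_ofPred_eq, reach_iff hS]
    constructor
    · intro h
      exact ⟨u - v, h, by simp⟩
    · rintro ⟨x, hx, rfl⟩
      simpa using hx
  rw [h1, Set.ncard_image_of_injective _ (add_right_injective v)] at hv
  have h2 : ∀ x ∈ AddSubgroup.closure (S : Set A), ∃ m : ℕ, Odd m ∧ m • x = 0 := by
    intro x hx
    refine AddSubgroup.closure_induction (p := fun x _ => ∃ m : ℕ, Odd m ∧ m • x = 0)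
      ?_ ?_ ?_ ?_ hx
    · intro x hx
      exact ⟨addOrderOf x, Nat.not_even_iff_odd.1 (hodd x hx), addOrderOf_nsmul_eq_zero x⟩
    · exact ⟨1, odd_one, by simp⟩
    · rintro x y _ _ ⟨a, ha, ha'⟩ ⟨b, hb, hb'⟩
      refine ⟨a * b, ha.mul hb, ?_⟩
      have e1 : (a * b) • x = 0 := by rw [mul_comm, mul_smul, ha', smul_zero]
      have e2 : (a * b) • y = 0 := by rw [mul_smul, hb', smul_zero]
      rw [smul_add, e1, e2, add_zero]
    · rintro x _ ⟨a, ha, ha'⟩
      exact ⟨a, ha, by rw [smul_neg, ha', neg_zero]⟩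
  have hc : 2 ∣ Nat.card (AddSubgroup.closure (S : Set A)) := by
    have h3 := even_iff_two_dvd.1 hv
    rwa [← Nat.card_coe_set_eq] at h3
  have : Fact (Nat.Prime 2) := ⟨Nat.prime_two⟩
  obtain ⟨x, hx⟩ := exists_prime_addOrderOf_dvd_card' 2 hc
  obtain ⟨m, hm, hmx⟩ := h2 x.1 x.2
  have h3 : m • x = 0 := by
    apply Subtype.ext
    simpa using hmx
  have h4 := addOrderOf_dvd_of_nsmul_eq_zero h3
  rw [hx] at h4
  exact (Nat.not_even_iff_odd.2 hm) (even_iff_two_dvd.2 h4)

end comp

theorem EvenComp.of_map {V W : Type} {G : SimpleGraph V} (e : V ≃ W)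
    (h : EvenComp (G.map e.toEmbedding)) : EvenComp G := by
  obtain ⟨w, hw⟩ := h
  refine ⟨e.symm w, ?_⟩
  have h1 : {u : W | (G.map e.toEmbedding).Reachable w u} =
      e '' {u : V | G.Reachable (e.symm w) u} := by
    ext u
    have := (SimpleGraph.Iso.map e G).reachable_iff (u := e.symm w) (v := e.symm u)
    rw [SimpleGraph.Iso.map_apply, SimpleGraph.Iso.map_apply, Equiv.apply_symm_apply,
      Equiv.apply_symm_apply] at this
    rw [Set.mem_ofPred_eq]
    constructor
    · intro h
      exact ⟨e.symm u, this.1 h, e.apply_symm_apply u⟩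
    · rintro ⟨x, hx, rfl⟩
      rw [Set.mem_ofPred_eq] at hx
      rw [Equiv.symm_apply_apply] at this
      exact this.2 hx
  rwa [h1, Set.ncard_image_of_injective _ e.injective] at hw

open Classical in
/-- Relation for a regular abelian group, for arbitrary properties. -/
theorem regularC {n : ℕ} {P : SimpleGraph (Fin n) → Prop} (hn : 2 ≤ n)
    (hP : GP n (n.choose 2 - 1) P) {A : Type} [AddCommGroup A] [Fintype A]
    [DecidableEq A] (hA : Fintype.card A = n) (p : ℕ) [Fact p.Prime] {ι : Type} [Fintype ι]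
    (a : ι → A) (c : A) (hpa : ∀ i, p • a i = 0)
    (hgen : ∀ x : A, trl x ∈ Subgroup.closure (insert (trl c) (Set.range fun i => trl (a i)))) :
    ∑ I : Finset (Rp A), (-1 : ℤ) ^ I.card *
      (if PV P A (cay (I.biUnion fun j => pr j.1)) then 1 else 0) = 0 := by
  refine relC hn hP hA p (fun i => trl (a i)) (trl c) ?_ ?_ ?_ (fun j : Rp A => pr j.1) part_pr
    ?_ ?_ ?_
  · intro i j
    rw [← trl_add, ← trl_add, add_comm]
  · intro i
    rw [← trl_nsmul, hpa, trl_zero]
  · intro i
    have : (trl c)⁻¹ * trl (a i) * trl c = trl (a i) := by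
      rw [mul_assoc, ← trl_add, add_comm, trl_add, inv_mul_cancel_left]
    rw [this]
    exact Subgroup.subset_closure ⟨i, rfl⟩
  · intro j i u v h
    change (v + a i) - (u + a i) ∈ _
    rwa [add_sub_add_right_eq_sub]
  · intro j u v h
    change (v + c) - (u + c) ∈ _
    rwa [add_sub_add_right_eq_sub]
  · intro j u v u' v' h h'
    rw [mem_pr] at h h'
    have hcase : v' - u' = v - u ∨ v' - u' = -(v - u) := by
      rcases h with h | h <;> rcases h' with h' | h' <;> rw [h, h']
      · exact Or.inl rfl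
      · exact Or.inr rfl
      · exact Or.inr (neg_neg _).symm
      · exact Or.inl rfl
    rcases hcase with h1 | h1
    · refine ⟨trl (u' - u), hgen _, Or.inl ⟨?_, ?_⟩⟩
      · change u + (u' - u) = u'
        abel
      · change v + (u' - u) = v'
        have : v' = (v' - u') + u' := by abel
        rw [this, h1]
        abel
    · refine ⟨trl (v' - u), hgen _, Or.inr ⟨?_, ?_⟩⟩
      · change u + (v' - u) = v'
        abel
      · change v + (v' - u) = u'
        have : v' = (v' - u') + u' := by abel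
        rw [this, h1]
        abel

/-- alternating sum over the subsets with more than `j` elements -/
theorem alt_sum {κ : Type} [DecidableEq κ] (O : Finset κ) (j : ℕ) :
    ∑ I ∈ O.powerset, (-1 : ℤ) ^ I.card * (if 2 * j + 1 ≤ 2 * I.card then 1 else 0) =
      if O.card = 0 then 0 else -((-1) ^ j * ((O.card - 1).choose j : ℤ)) := by
  rw [Finset.sum_powerset_apply_card
    (fun i => (-1 : ℤ) ^ i * (if 2 * j + 1 ≤ 2 * i then 1 else 0))]
  split_ifs with h0
  · rw [h0, zero_add, Finset.sum_range_one]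
    simp
  · obtain ⟨M, hM⟩ : ∃ M, O.card = M + 1 := ⟨O.card - 1, by omega⟩
    rw [hM, Nat.add_sub_cancel]
    have h1 := Int.alternating_sum_range_choose_of_ne (n := M + 1) (by omega)
    have h2 := Int.alternating_sum_range_choose_eq_choose (n := M) (m := j)
    have h3 : ∑ i ∈ range (M + 1 + 1), ((-1) ^ i * (M + 1).choose i : ℤ) *
        (if i < j + 1 then 1 else 0) = ∑ i ∈ range (j + 1), ((-1) ^ i * (M + 1).choose i : ℤ) := by
      rw [Finset.sum_congr rfl fun i _ => mul_ite _ _ _ _]
      simp only [mul_one, mul_zero]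
      rw [← Finset.sum_filter]
      refine Finset.sum_subset_zero_on_sdiff ?_ ?_ (fun _ _ => rfl)
      · intro i hi
        rw [mem_filter] at hi
        exact mem_range.2 hi.2
      · intro i hi
        rw [mem_sdiff, mem_filter, mem_range, mem_range] at hi
        have : M + 1 < i := by
          by_contra h
          exact hi.2 ⟨by omega, hi.1⟩
        rw [Nat.choose_eq_zero_of_lt this]
        simp
    have h4 : ∑ i ∈ range (M + 1 + 1), (M + 1).choose i • ((-1 : ℤ) ^ i *
        (if 2 * j + 1 ≤ 2 * i then 1 else 0)) + ∑ i ∈ range (M + 1 + 1),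
        ((-1) ^ i * (M + 1).choose i : ℤ) * (if i < j + 1 then 1 else 0) =
        ∑ i ∈ range (M + 1 + 1), ((-1) ^ i * (M + 1).choose i : ℤ) := by
      rw [← Finset.sum_add_distrib]
      refine Finset.sum_congr rfl fun i _ => ?_
      rw [nsmul_eq_mul]
      by_cases h : i < j + 1
      · rw [if_neg (by omega), if_pos h]
        ring
      · rw [if_pos (by omega), if_neg h]
        ring
    rw [h3, h2, h1] at h4
    linarith

theorem choose_lt {N M j : ℕ} (hM : M ≤ N) (hj : 1 ≤ j) (hjN : j ≤ N) (hM0 : M ≠ 0) :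
    (M - 1).choose j < N.choose j := by
  obtain ⟨m, rfl⟩ : ∃ m, M = m + 1 := ⟨M - 1, by omega⟩
  obtain ⟨i, rfl⟩ : ∃ i, j = i + 1 := ⟨j - 1, by omega⟩
  rw [Nat.add_sub_cancel]
  have h1 : (m + 1).choose (i + 1) ≤ N.choose (i + 1) := Nat.choose_le_choose _ hM
  rw [Nat.choose_succ_succ'] at h1
  rcases Nat.lt_or_ge m i with h | h
  · rw [Nat.choose_eq_zero_of_lt (by omega)]
    exact Nat.choose_pos hjN
  · have := Nat.choose_pos h
    omega

/-- factors of odd degree -/
theorem case_odd_fac {n k : ℕ} {P : SimpleGraph (Fin n) → Prop} (he : Even n)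
    (hP : GP n (n.choose 2 - 1) P) (hk : Odd k) (hk3 : 3 ≤ k) (hkn : k < n)
    (hfac : ∀ G : SimpleGraph (Fin n), Fac {k} G → P G)
    (hcore : ∀ G : SimpleGraph (Fin n), P G → Core k G)
    (hev : ∀ G : SimpleGraph (Fin n), P G → EvenComp G) : False := by
  classical
  have hn : 2 ≤ n := by omega
  have : NeZero n := ⟨by omega⟩
  have : Fact (Nat.Prime 2) := ⟨Nat.prime_two⟩
  obtain ⟨j, hj⟩ := hk
  have hinv : inv (ZMod n) = 1 := by
    have := inv_add_one (ZMod n)
    rw [tor_even he] at this
    omega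
  have key := regularC hn hP (A := ZMod n) (ZMod.card n) 2 (ι := Empty) (fun i => i.elim) 1
    (fun i => i.elim) (gen_cyc _)
  have hval : ∀ S : Finset (ZMod n), Sy S → (PV P (ZMod n) (cay S) ↔
      (k ≤ S.card ∧ ∃ s ∈ S, Even (addOrderOf s))) := by
    intro S hS
    constructor
    · rintro ⟨e, h⟩
      refine ⟨cay_core hS (Core.of_map e (hcore _ h)), ?_⟩
      by_contra hcon
      push Not at hcon
      exact no_evenComp hS hcon (EvenComp.of_map e (hev _ h))
    · rintro ⟨h1, s, hs, hse⟩
      exact ⟨Fintype.equivFinOfCardEq (ZMod.card n), hfac _ (Fac.map _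
        (odd_fac hS ⟨j, hj⟩ h1 hs hse))⟩
  obtain ⟨N, hN, hprod⟩ := prod_pr (A := ZMod n)
  obtain ⟨N', hN', hcnt, -⟩ := Rp_count (A := ZMod n)
  rw [hinv, ZMod.card] at hN hN'
  have hNN : N' = N := by omega
  subst hNN
  rw [hinv, pow_one] at hprod
  set c : Finset (Rp (ZMod n)) → ℕ := fun I => ∑ i ∈ I, (pr i.1).card with hc
  have hcard : ∀ I : Finset (Rp (ZMod n)), (I.biUnion fun j => pr j.1).card = c I := by
    intro I
    exact Finset.card_biUnion fun i _ j _ hij => part_pr.disj i j hij
  set O : Finset (Rp (ZMod n)) := univ.filter fun j => ¬ Even (addOrderOf j.1) with hO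
  have hOpr : ∀ i ∈ O, ¬ -i.1 = i.1 := by
    intro i hi h
    rw [hO, mem_filter] at hi
    apply hi.2
    have h0 : i.1 ≠ 0 := ((mem_Rp _).1 i.2).1
    have h2 : addOrderOf i.1 = 2 := by
      refine addOrderOf_eq_prime ?_ h0
      rw [two_nsmul]
      nth_rewrite 1 [← h]
      exact neg_add_cancel i.1
    rw [h2]
    exact even_two
  have hOcard : O.card ≤ N' := by
    rw [← hcnt]
    refine Finset.card_le_card fun i hi => ?_
    rw [mem_filter]
    exact ⟨mem_univ _, hOpr i hi⟩
  have hval2 : ∀ I : Finset (Rp (ZMod n)), PV P (ZMod n) (cay (I.biUnion fun j => pr j.1)) ↔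
      (k ≤ c I ∧ ¬ I ⊆ O) := by
    intro I
    rw [hval _ (part_pr.sy_biUnion I), hcard]
    refine and_congr_right fun _ => ?_
    constructor
    · rintro ⟨s, hs, hse⟩ hIO
      rw [mem_biUnion] at hs
      obtain ⟨i, hi, hsi⟩ := hs
      have h1 := hIO hi
      rw [hO, mem_filter] at h1
      apply h1.2
      rw [mem_pr] at hsi
      rcases hsi with rfl | rfl
      · exact hse
      · rwa [addOrderOf_neg] at hse
    · intro h
      rw [Finset.not_subset] at h
      obtain ⟨i, hi, hiO⟩ := h
      rw [hO, mem_filter] at hiO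
      refine ⟨i.1, mem_biUnion.2 ⟨i, hi, (mem_pr _ _).2 (Or.inl rfl)⟩, ?_⟩
      by_contra h'
      exact hiO ⟨mem_univ _, h'⟩
  -- total sum
  have h0 : Nonempty (Rp (ZMod n)) := by
    have : Nontrivial (ZMod n) := by
      rw [← Fintype.one_lt_card_iff_nontrivial, ZMod.card]
      omega
    obtain ⟨x, hx⟩ := exists_ne (0 : ZMod n)
    obtain ⟨j, _⟩ := cover_pr x hx
    exact ⟨j⟩
  have htot : ∑ I : Finset (Rp (ZMod n)), (-1 : ℤ) ^ I.card = 0 := by
    have := Finset.sum_powerset_neg_one_pow_card (x := (univ : Finset (Rp (ZMod n))))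
    rw [if_neg (Finset.univ_nonempty.ne_empty), Finset.powerset_univ] at this
    exact this
  have hlow : ∑ I : Finset (Rp (ZMod n)), (-1 : ℤ) ^ I.card * (if c I < 2 * j + 1 then 1 else 0) =
      cf N' j := by
    rw [subset_sum (fun i : Rp (ZMod n) => (pr i.1).card),
      sum_range_coeff _ ((1 - X ^ 2) ^ N') hprod, e2_even]
  have hhigh : ∑ I : Finset (Rp (ZMod n)), (-1 : ℤ) ^ I.card * (if k ≤ c I then 1 else 0) =
      - cf N' j := by
    rw [eq_neg_iff_add_eq_zero, ← hlow, ← Finset.sum_add_distrib]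
    refine Eq.trans (Finset.sum_congr rfl fun I _ => ?_) htot
    by_cases h : k ≤ c I
    · rw [if_pos h, if_neg (by omega)]
      ring
    · rw [if_neg h, if_pos (by omega)]
      ring
  have hsub : ∑ I ∈ O.powerset, (-1 : ℤ) ^ I.card * (if k ≤ c I then 1 else 0) =
      if O.card = 0 then 0 else -((-1) ^ j * ((O.card - 1).choose j : ℤ)) := by
    rw [← alt_sum]
    refine Finset.sum_congr rfl fun I hI => ?_
    rw [mem_powerset] at hI
    have h1 : c I = 2 * I.card := by
      rw [hc]
      change ∑ i ∈ I, (pr i.1).card = _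
      rw [Finset.sum_congr rfl fun i hi => by
        rw [card_pr, if_neg (hOpr i (hI hi))], Finset.sum_const, smul_eq_mul, mul_comm]
    rw [h1, hj]
  have hsplit : ∑ I : Finset (Rp (ZMod n)), (-1 : ℤ) ^ I.card *
      (if PV P (ZMod n) (cay (I.biUnion fun j => pr j.1)) then 1 else 0) =
      ∑ I : Finset (Rp (ZMod n)), (-1 : ℤ) ^ I.card * (if k ≤ c I then 1 else 0) -
      ∑ I ∈ O.powerset, (-1 : ℤ) ^ I.card * (if k ≤ c I then 1 else 0) := by
    have h1 : ∑ I ∈ O.powerset, (-1 : ℤ) ^ I.card * (if k ≤ c I then 1 else 0) =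
        ∑ I : Finset (Rp (ZMod n)), (if I ⊆ O then
          (-1 : ℤ) ^ I.card * (if k ≤ c I then 1 else 0) else 0) := by
      rw [← Finset.sum_filter]
      refine Finset.sum_congr ?_ fun _ _ => rfl
      ext I
      simp
    rw [h1, ← Finset.sum_sub_distrib]
    refine Finset.sum_congr rfl fun I _ => ?_
    by_cases h2 : I ⊆ O
    · rw [if_pos h2, if_neg (fun h => ((hval2 I).1 h).2 h2)]
      ring
    · rw [if_neg h2]
      by_cases h3 : k ≤ c I
      · rw [if_pos h3, if_pos ((hval2 I).2 ⟨h3, h2⟩)]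
        ring
      · rw [if_neg h3, if_neg (fun h => h3 ((hval2 I).1 h).1)]
        ring
  rw [hsplit, hhigh, hsub] at key
  have hjN : j ≤ N' := by omega
  have hcf : cf N' j = (-1) ^ j * (N'.choose j : ℤ) := by
    rw [cf_eq, ← mul_assoc, ← pow_add]
    congr 1
    have : N' + (N' - j) = j + 2 * (N' - j) := by omega
    rw [this, pow_add, pow_mul]
    norm_num
  have hpm : ((-1 : ℤ) ^ j) ≠ 0 := pow_ne_zero _ (by norm_num)
  rw [hcf] at key
  split_ifs at key with hO0
  · have h1 : (-1 : ℤ) ^ j * (N'.choose j : ℤ) = 0 := by linarith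
    have h2 : (N'.choose j : ℤ) ≠ 0 := by exact_mod_cast (Nat.choose_pos hjN).ne'
    exact mul_ne_zero hpm h2 h1
  · have h1 : (-1 : ℤ) ^ j * (N'.choose j : ℤ) = (-1) ^ j * ((O.card - 1).choose j : ℤ) := by
      linarith
    have h2 := mul_left_cancel₀ hpm h1
    have h3 := choose_lt hOcard (show 1 ≤ j by omega) hjN hO0
    have h4 : N'.choose j = (O.card - 1).choose j := by exact_mod_cast h2
    omega

end Pool.Agent.X82.EF
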