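import Mathlib
import Pool.Agent.X82.EF3
import Pool.Agent.Y46.Kc.Cop2

set_option autoImplicit false

/-!
# Evasiveness of factor properties (MP_257582_lc)
-/

namespace Pool.Agent.X82.EF

open Finset
open Pool.Agent.H98R2.Ev (EV toG NE)
open Pool.Agent.H119R2.Kp
open Pool.Agent.W332.Kd

theorem case_one {n : ℕ} {P : SimpleGraph (Fin n) → Prop} (he : Even n) (hn : 2 ≤ n)
    (hP : GP n (n.choose 2 - 1) P)
    (hfac : ∀ G : SimpleGraph (Fin n), Fac {1} G → P G)
    (hcore : ∀ G : SimpleGraph (Fin n), P G → Core 1 G) : False := by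
  obtain ⟨m, hm⟩ := he
  have hn2 : n = m * 2 := by omega
  have hch : 0 < n.choose 2 := Nat.choose_pos hn
  have hcard : Nonempty (Fin m × Fin 2 ≃ Fin n) := by
    rw [hn2]
    exact ⟨finProdFinEquiv⟩
  have := Pool.Agent.Y46.Kc.all_cases hP (show m ≠ 0 by omega)
    (Nat.prime_two.isPrimePow) hn2 (SimpleGraph.pathGraph 2) (Or.inl ⟨Nat.prime_two, rfl⟩) ?_ ?_
  · omega
  · rintro ⟨e, h⟩
    obtain ⟨v, h1⟩ := Core.of_map e (hcore _ h)
    have h2 : (⊥ : SimpleGraph (Fin m × Fin 2)).neighborSet v = ∅ := by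
      ext x
      simp
    rw [h2, Set.ncard_empty] at h1
    omega
  · obtain ⟨e⟩ := hcard
    refine ⟨e, hfac _ (Fac.map e ?_)⟩
    refine ⟨_, le_refl _, fun v => ?_⟩
    have hv : (Pool.Agent.Y46.Kc.cop (Fin m) (SimpleGraph.pathGraph 2)).neighborSet v =
        {(v.1, v.2 + 1)} := by
      ext ⟨a, b⟩
      rw [SimpleGraph.mem_neighborSet, Set.mem_singleton_iff]
      obtain ⟨x, y⟩ := v
      change (x = a ∧ (SimpleGraph.pathGraph 2).Adj y b) ↔ _
      rw [SimpleGraph.pathGraph_adj, Prod.mk.injEq]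
      constructor
      · rintro ⟨rfl, h⟩
        refine ⟨rfl, ?_⟩
        fin_cases y <;> fin_cases b <;> simp at h ⊢
      · rintro ⟨rfl, rfl⟩
        refine ⟨rfl, ?_⟩
        fin_cases y <;> simp
    rw [hv, Set.ncard_singleton]
    rfl

theorem no_strategy {n k : ℕ} {P : SimpleGraph (Fin n) → Prop} (hk1 : 1 ≤ k) (hkn : k < n)
    (hP : GP n (n.choose 2 - 1) P)
    (hfac : ∀ G : SimpleGraph (Fin n), Fac {k} G → P G)
    (hcore : ∀ G : SimpleGraph (Fin n), P G → Core k G)
    (hcase : Even k ∨ (∀ G : SimpleGraph (Fin n), Fac {k + 1} G → P G) ∨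
      (Even n ∧ ∀ G : SimpleGraph (Fin n), P G → EvenComp G)) : False := by
  have h12 : (Even k ∨ ∀ G : SimpleGraph (Fin n), Fac {k + 1} G → P G) → False := by
    intro h
    refine no_GP (by omega) hP (k - 1) (by omega) ?_
    intro A _ _ hA S hS
    rw [Nat.sub_add_cancel hk1]
    exact hdeg1 hfac hcore h A hA S hS
  rcases Nat.even_or_odd k with he | ho
  · exact h12 (Or.inl he)
  rcases hcase with h | h | ⟨h1, h2⟩
  · exact h12 (Or.inl h)
  · exact h12 (Or.inr h)
  · rcases Nat.lt_or_ge k 3 with h3 | h3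
    · have hk : k = 1 := by
        obtain ⟨j, hj⟩ := ho
        omega
      subst hk
      exact case_one h1 (by omega) hP hfac hcore
    · exact case_odd_fac h1 hP ho h3 hkn hfac hcore h2

/-- a spanning subgraph with all degrees odd: all components have an even number of vertices -/
theorem comp_even {n : ℕ} {H : Set ℕ} (hH : ∀ h ∈ H, Odd h) (hn : 0 < n)
    (G : SimpleGraph (Fin n)) (h : Fac H G) : EvenComp G := by
  classical
  obtain ⟨F, hF, hd⟩ := h
  let v : Fin n := ⟨0, hn⟩
  refine ⟨v, ?_⟩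
  set C : Set (Fin n) := {u | G.Reachable v u} with hC
  have h1 := (F.induce C).even_card_odd_degree_vertices
  have h2 : (univ.filter fun u : C => Odd ((F.induce C).degree u)) = univ := by
    rw [Finset.filter_eq_self]
    intro u _
    have h3 : (F.induce C).degree u = (F.neighborSet u.1).ncard := by
      rw [← SimpleGraph.card_neighborSet_eq_degree, ← Nat.card_eq_fintype_card,
        Nat.card_coe_set_eq]
      rw [← Set.ncard_image_of_injective _ Subtype.val_injective]
      congr 1
      ext x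
      simp only [Set.mem_image, SimpleGraph.mem_neighborSet, SimpleGraph.comap_adj]
      constructor
      · rintro ⟨y, hy, rfl⟩
        exact hy
      · intro hx
        have hu : G.Reachable v u.1 := u.2
        exact ⟨⟨x, hu.trans (hF hx).reachable⟩, hx, rfl⟩
    rw [h3]
    exact hH _ (hd u.1)
  rw [h2, Finset.card_univ, ← Nat.card_eq_fintype_card, Nat.card_coe_set_eq] at h1
  exact h1

end Pool.Agent.X82.EF
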