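import Mathlib
import Pool.Agent.Y46.Kc.Top
import Pool.Agent.Y46.Kc.Two

set_option autoImplicit false

/-!
# Small blocks and one block of prime order (MP_257582_lc)
-/

namespace Pool.Agent.X82.SB

open Finset
open Pool.Agent.H119R2.Kp
open Pool.Agent.Y46.Kc

section

variable {m p L : ℕ} {J : Type}

/-- the vertex set: `m` blocks with `p` vertices and one block with `L` vertices for each `j` -/
abbrev VV (m p L : ℕ) (J : Type) : Type := (Fin m × ZMod p) ⊕ (J × ZMod L)

/-- affine maps -/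
def W (u : (ZMod p)ˣ) (f : Fin m → ZMod p) (v : (ZMod L)ˣ) (t : ZMod L) :
    Equiv.Perm (VV m p L J) where
  toFun z := match z with
    | .inl a => .inl (a.1, u * a.2 + f a.1)
    | .inr b => .inr (b.1, v * b.2 + t)
  invFun z := match z with
    | .inl a => .inl (a.1, ((u⁻¹ : (ZMod p)ˣ) : ZMod p) * (a.2 - f a.1))
    | .inr b => .inr (b.1, ((v⁻¹ : (ZMod L)ˣ) : ZMod L) * (b.2 - t))
  left_inv z := by
    rcases z with ⟨i, x⟩ | ⟨j, y⟩
    · simp
    · simp
  right_inv z := by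
    rcases z with ⟨i, x⟩ | ⟨j, y⟩
    · simp
    · simp

theorem W_inl (u : (ZMod p)ˣ) (f : Fin m → ZMod p) (v : (ZMod L)ˣ) (t : ZMod L) (i : Fin m)
    (x : ZMod p) : W (J := J) u f v t (.inl (i, x)) = .inl (i, u * x + f i) := rfl

theorem W_inr (u : (ZMod p)ˣ) (f : Fin m → ZMod p) (v : (ZMod L)ˣ) (t : ZMod L) (j : J)
    (y : ZMod L) : W (J := J) u f v t (.inr (j, y)) = .inr (j, v * y + t) := rfl

theorem W_mul (u u' : (ZMod p)ˣ) (f f' : Fin m → ZMod p) (v v' : (ZMod L)ˣ) (t t' : ZMod L) :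
    W (J := J) u f v t * W u' f' v' t' =
      W (u * u') (fun i => u * f' i + f i) (v * v') (v * t' + t) := by
  ext1 z
  rcases z with ⟨i, x⟩ | ⟨j, y⟩
  · rw [Equiv.Perm.mul_apply, W_inl, W_inl, W_inl]
    congr 2
    push_cast
    ring
  · rw [Equiv.Perm.mul_apply, W_inr, W_inr, W_inr]
    congr 2
    push_cast
    ring

theorem W_congr {u u' : (ZMod p)ˣ} {f f' : Fin m → ZMod p} {v v' : (ZMod L)ˣ} {t t' : ZMod L}
    (h1 : u = u') (h2 : ∀ i, f i = f' i) (h3 : v = v') (h4 : t = t') :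
    W (J := J) u f v t = W u' f' v' t' := by
  subst h1 h3 h4
  have : f = f' := funext h2
  rw [this]

theorem W_one : W (m := m) (p := p) (L := L) (J := J) 1 0 1 0 = 1 := by
  ext1 z
  rcases z with ⟨i, x⟩ | ⟨j, y⟩
  · rw [W_inl]
    simp
  · rw [W_inr]
    simp

theorem W_inv (u : (ZMod p)ˣ) (f : Fin m → ZMod p) (v : (ZMod L)ˣ) (t : ZMod L) :
    (W (J := J) u f v t)⁻¹ = W u⁻¹ (fun i => -(((u⁻¹ : (ZMod p)ˣ) : ZMod p) * f i)) v⁻¹
      (-(((v⁻¹ : (ZMod L)ˣ) : ZMod L) * t)) := by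
  rw [inv_eq_iff_mul_eq_one, W_mul, ← W_one]
  refine W_congr (by simp) (fun i => ?_) (by simp) ?_
  · rw [mul_neg, ← mul_assoc, Units.mul_inv, one_mul]
    simp
  · rw [mul_neg, ← mul_assoc, Units.mul_inv, one_mul]
    simp

theorem W_pow_c (g : (ZMod p)ˣ) (n : ℕ) :
    W (m := m) (J := J) g 0 (1 : (ZMod L)ˣ) 1 ^ n = W (g ^ n) 0 1 (n : ZMod L) := by
  induction n with
  | zero =>
    rw [pow_zero, ← W_one]
    exact W_congr (by simp) (fun _ => rfl) rfl (by simp)
  | succ n ih =>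
    rw [pow_succ', ih, W_mul]
    refine W_congr (by rw [pow_succ']) (fun i => by simp) (by simp) ?_
    push_cast
    ring

theorem W_pow_m (h : (ZMod L)ˣ) (n : ℕ) :
    W (m := m) (p := p) (J := J) 1 0 h 0 ^ n = W 1 0 (h ^ n) 0 := by
  induction n with
  | zero =>
    rw [pow_zero, ← W_one]
    exact W_congr rfl (fun _ => rfl) (by simp) rfl
  | succ n ih =>
    rw [pow_succ', ih, W_mul]
    exact W_congr (by simp) (fun i => by simp) (by rw [pow_succ']) (by simp)

/-- the generators of the normal subgroup -/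
def ga (z : Fin m × ZMod p) : Equiv.Perm (VV m p L J) := W 1 (Pi.single z.1 z.2) 1 0

/-- the group `K` -/
def KK (m p L : ℕ) (J : Type) (g : (ZMod p)ˣ) : Subgroup (Equiv.Perm (VV m p L J)) :=
  Subgroup.closure (insert (W g 0 1 1) (Set.range ga))

theorem tr_mem (H : Subgroup (Equiv.Perm (VV m p L J))) (hH : ∀ z, ga z ∈ H)
    (f : Fin m → ZMod p) : W 1 f 1 0 ∈ H := by
  classical
  have key : ∀ s : Finset (Fin m), W (J := J) (L := L) 1 (fun i => if i ∈ s then f i else 0) 1 0 ∈ H := by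
    intro s
    induction s using Finset.induction_on with
    | empty =>
      have : W (J := J) (L := L) (p := p) 1 (fun i : Fin m => if i ∈ (∅ : Finset (Fin m)) then f i else 0)
          1 0 = 1 := by
        rw [← W_one]
        exact W_congr rfl (fun i => by simp) rfl rfl
      rw [this]
      exact H.one_mem
    | insert a s ha ih =>
      have := H.mul_mem (hH (a, f a)) ih
      unfold ga at this
      rw [W_mul] at this
      refine cast (congrArg (· ∈ H) (W_congr (by simp) (fun i => ?_) (by simp) (by simp))) this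
      by_cases hi : i = a
      · subst hi
        simp [ha]
      · simp [hi]
  have := key univ
  simpa using this

variable [Fact p.Prime] [Fact L.Prime]

theorem mem_K (hpL : Nat.Coprime (p - 1) L) (g : (ZMod p)ˣ) (s : ℕ) (f : Fin m → ZMod p)
    (t : ZMod L) : W (g ^ s) f 1 t ∈ KK m p L J g := by
  obtain ⟨n, hn1, hn2⟩ := Nat.chineseRemainder hpL s t.val
  have hc : W (m := m) (J := J) g 0 (1 : (ZMod L)ˣ) 1 ∈ KK m p L J g :=
    Subgroup.subset_closure (Set.mem_insert _ _)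
  have h1 := (KK m p L J g).pow_mem hc n
  rw [W_pow_c] at h1
  have h2 : g ^ n = g ^ s := by
    have hg : orderOf g ∣ p - 1 := by
      rw [orderOf_dvd_iff_pow_eq_one]
      exact ZMod.units_pow_card_sub_one_eq_one p g
    rw [pow_eq_pow_iff_modEq]
    exact hn1.of_dvd hg
  have h3 : (n : ZMod L) = t := by
    have : (n : ZMod L) = (t.val : ZMod L) := (ZMod.natCast_eq_natCast_iff _ _ _).2 hn2
    rw [this, ZMod.natCast_zmod_val]
  rw [h2, h3] at h1
  have h4 := (KK m p L J g).mul_mem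
    (tr_mem (KK m p L J g) (fun z => Subgroup.subset_closure (Set.mem_insert_of_mem _ ⟨z, rfl⟩)) f) h1
  rw [W_mul] at h4
  exact cast (congrArg (· ∈ KK m p L J g) (W_congr (by simp) (fun i => by simp) (by simp)
    (by simp))) h4

theorem conj_K (hpL : Nat.Coprime (p - 1) L) (g : (ZMod p)ˣ) (v : (ZMod L)ˣ)
    (σ : Equiv.Perm (VV m p L J)) (hσ : σ ∈ KK m p L J g) :
    W 1 0 v 0 * σ * (W 1 0 v 0)⁻¹ ∈ KK m p L J g := by
  unfold KK at hσ
  refine Subgroup.closure_induction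
    (p := fun σ _ => W 1 0 v 0 * σ * (W 1 0 v 0)⁻¹ ∈ KK m p L J g) ?_ ?_ ?_ ?_ hσ
  · rintro x (rfl | ⟨z, rfl⟩)
    · have e : W (J := J) 1 (0 : Fin m → ZMod p) v 0 * W g 0 1 1 * (W 1 0 v 0)⁻¹ =
          W (g ^ 1) 0 1 (v : ZMod L) := by
        rw [W_mul, W_inv, W_mul]
        refine W_congr ?_ (fun i => ?_) ?_ ?_
        · rw [one_mul, inv_one, mul_one, pow_one]
        · simp only [Pi.zero_apply, mul_zero, neg_zero, add_zero]
        · rw [mul_one, mul_inv_cancel]
        · simp only [mul_zero, neg_zero, add_zero, zero_add, mul_one]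
      rw [e]
      exact mem_K hpL g 1 0 (v : ZMod L)
    · have e : W (J := J) 1 (0 : Fin m → ZMod p) v 0 * ga z * (W 1 0 v 0)⁻¹ =
          W (g ^ 0) (Pi.single z.1 z.2) 1 0 := by
        unfold ga
        rw [W_mul, W_inv, W_mul]
        refine W_congr ?_ (fun i => ?_) ?_ ?_
        · rw [one_mul, inv_one, mul_one, pow_zero]
        · simp only [Pi.zero_apply, mul_zero, neg_zero, add_zero, zero_add, Units.val_one, one_mul]
        · rw [mul_one, mul_inv_cancel]
        · simp only [mul_zero, neg_zero, add_zero, zero_add, mul_one]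
      rw [e]
      exact mem_K hpL g 0 _ 0
  · rw [mul_one, mul_inv_cancel]
    exact Subgroup.one_mem _
  · intro x y _ _ hx hy
    have := Subgroup.mul_mem _ hx hy
    have h2 : W 1 0 v 0 * x * (W 1 0 v 0)⁻¹ * (W 1 0 v 0 * y * (W 1 0 v 0)⁻¹) =
        W 1 0 v 0 * (x * y) * (W 1 0 v 0)⁻¹ := by group
    rwa [h2] at this
  · intro x _ hx
    have := Subgroup.inv_mem _ hx
    have h2 : (W 1 0 v 0 * x * (W 1 0 v 0)⁻¹)⁻¹ = W 1 0 v 0 * x⁻¹ * (W 1 0 v 0)⁻¹ := by group
    rwa [h2] at this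

theorem conj_K_iff (hpL : Nat.Coprime (p - 1) L) (g : (ZMod p)ˣ) (v : (ZMod L)ˣ)
    (σ : Equiv.Perm (VV m p L J)) : σ ∈ KK m p L J g ↔
    W 1 0 v 0 * σ * (W 1 0 v 0)⁻¹ ∈ KK m p L J g := by
  refine ⟨conj_K hpL g v σ, fun h => ?_⟩
  have h1 := conj_K hpL g v⁻¹ _ h
  have h2 : W (m := m) (p := p) (J := J) 1 0 v⁻¹ 0 = (W 1 0 v 0)⁻¹ := by
    rw [W_inv]
    refine W_congr ?_ (fun i => ?_) rfl ?_
    · rw [inv_one]
    · simp only [Pi.zero_apply, mul_zero, neg_zero]
    · simp only [mul_zero, neg_zero]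
  rw [h2] at h1
  have h3 : (W 1 0 v 0)⁻¹ * (W 1 0 v 0 * σ * (W 1 0 v 0)⁻¹) * ((W 1 0 v 0)⁻¹)⁻¹ = σ := by group
  rwa [h3] at h1

end

/-- placing a graph with a small set of non-isolated vertices -/
theorem place {n : ℕ} {P : SimpleGraph (Fin n) → Prop}
    (hmono : ∀ G H : SimpleGraph (Fin n), G ≤ H → P G → P H) {H0 : SimpleGraph (Fin n)}
    (hH : P H0) (S : Finset (Fin n)) (hS : ∀ a b, H0.Adj a b → a ∈ S) {V : Type} [Fintype V]
    [DecidableEq V] (hV : Fintype.card V = n) (G : SimpleGraph V) (f : Fin n → V)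
    (hf : Set.InjOn f S) (hadj : ∀ a b, H0.Adj a b → G.Adj (f a) (f b)) : PV P V G := by
  classical
  obtain ⟨e, he⟩ := Finset.exists_equiv_extend_of_card_eq (α := Fin n) (t := (univ : Finset V))
    (by rw [Fintype.card_fin, Finset.card_univ, hV]) (s := S) (f := f) (Finset.subset_univ _) hf
  refine PV_emb hmono (e.trans (Equiv.subtypeUnivEquiv (fun x => mem_univ x))) ?_
    (show PV P (Fin n) H0 from ⟨Equiv.refl _, ?_⟩)
  · intro u v h
    have h1 := hadj u v h
    rw [← he u (hS u v h), ← he v (hS v u h.symm)] at h1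
    exact h1
  · have : H0.map (Equiv.refl (Fin n)).toEmbedding = H0 := by
      ext a b
      rw [SimpleGraph.map_adj]
      constructor
      · rintro ⟨u, v, h, rfl, rfl⟩
        exact h
      · intro h
        exact ⟨a, b, h, rfl, rfl⟩
    rwa [this]

end Pool.Agent.X82.SB
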