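import Mathlib
import Pool.Agent.X82.SB1

set_option autoImplicit false

/-!
# The block theorem (MP_257582_lc)
-/

namespace Pool.Agent.X82.SB

open Finset
open Pool.Agent.H119R2.Kp
open Pool.Agent.Y46.Kc

section

variable {m p L : ℕ} {J : Type} [Fact p.Prime] [Fact L.Prime]

/-- the full group -/
def GG (m p L : ℕ) (J : Type) (g : (ZMod p)ˣ) (h : (ZMod L)ˣ) :
    Subgroup (Equiv.Perm (VV m p L J)) :=
  Subgroup.closure (insert (W 1 0 h 0) (insert (W g 0 1 1) (Set.range ga)))

theorem mem_G (hpL : Nat.Coprime (p - 1) L) (g : (ZMod p)ˣ) (h : (ZMod L)ˣ)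
    (hg : ∀ u, ∃ s : ℕ, g ^ s = u) (hh : ∀ u, ∃ s : ℕ, h ^ s = u)
    (u : (ZMod p)ˣ) (f : Fin m → ZMod p) (v : (ZMod L)ˣ) (t : ZMod L) :
    W u f v t ∈ GG m p L J g h := by
  obtain ⟨s, rfl⟩ := hg u
  obtain ⟨r, rfl⟩ := hh v
  have h1 : W (g ^ s) f 1 t ∈ GG m p L J g h := by
    have := mem_K (J := J) hpL g s f t
    exact Subgroup.closure_mono (Set.subset_insert _ _) this
  have h2 : W (m := m) (p := p) (J := J) 1 0 (h ^ r) 0 ∈ GG m p L J g h := by
    rw [← W_pow_m]
    exact Subgroup.pow_mem _ (Subgroup.subset_closure (Set.mem_insert _ _)) r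
  have h3 := Subgroup.mul_mem _ h1 h2
  rw [W_mul] at h3
  have e : W (J := J) (g ^ s * 1) (fun i => ((g ^ s : (ZMod p)ˣ) : ZMod p) *
      (0 : Fin m → ZMod p) i + f i) (1 * h ^ r) (((1 : (ZMod L)ˣ) : ZMod L) * 0 + t) =
      W (g ^ s) f (h ^ r) t := by
    refine W_congr ?_ (fun i => ?_) ?_ ?_
    · rw [mul_one]
    · rw [Pi.zero_apply, mul_zero, zero_add]
    · rw [one_mul]
    · rw [mul_zero, zero_add]
  rwa [e] at h3

end

section

variable {n q : ℕ} {P : SimpleGraph (Fin n) → Prop}

/-- **Block theorem.** -/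
theorem blocks (hP : GP n q P) (m p L : ℕ) (J : Type) [Fintype J] [DecidableEq J] [Subsingleton J]
    [Fact p.Prime] [Fact L.Prime] (hpL : p < L) (l N : ℕ) [Fact l.Prime] (hL : L = 2 * l ^ N + 1)
    (hn : m * p + Fintype.card J * L = n) (hn2 : 2 ≤ n) (h0 : ¬ P ⊥) (H0 H1 : SimpleGraph (Fin n))
    (hH : P H0) (hH1 : P H1) (S : Finset (Fin n))
    (hS : ∀ a b, H0.Adj a b → a ∈ S) (hSp : S.card ≤ p)
    (χ : Fin n → Bool) (hχ : ∀ a b, H1.Adj a b → χ a ≠ χ b) (S1 : Finset (Fin n))
    (hS1 : ∀ a b, H1.Adj a b → a ∈ S1) (hS1p : ∀ i, (S1.filter fun a => χ a = i).card ≤ p) :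
    n.choose 2 ≤ q := by
  classical
  have hpp : p.Prime := Fact.out
  have hLp : L.Prime := Fact.out
  have hcop : Nat.Coprime (p - 1) L := by
    refine ((Nat.Prime.coprime_iff_not_dvd hLp).2 fun h => ?_).symm
    have := Nat.le_of_dvd (by have := hpp.two_le; omega) h
    omega
  obtain ⟨g, hg0⟩ := IsCyclic.exists_generator (α := (ZMod p)ˣ)
  obtain ⟨h, hh0⟩ := IsCyclic.exists_generator (α := (ZMod L)ˣ)
  have hg : ∀ u, ∃ s : ℕ, g ^ s = u := fun u => by
    have := hg0 u
    rw [mem_zpowers_iff_mem_range_orderOf, Finset.mem_image] at this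
    obtain ⟨s, _, hs⟩ := this
    exact ⟨s, hs⟩
  have hh : ∀ u, ∃ s : ℕ, h ^ s = u := fun u => by
    have := hh0 u
    rw [mem_zpowers_iff_mem_range_orderOf, Finset.mem_image] at this
    obtain ⟨s, _, hs⟩ := this
    exact ⟨s, hs⟩
  have hV : Fintype.card (VV m p L J) = n := by
    rw [Fintype.card_sum, Fintype.card_prod, Fintype.card_prod, ZMod.card, ZMod.card,
      Fintype.card_fin, hn]
  have hsq : ((h ^ (l ^ N) : (ZMod L)ˣ) : ZMod L) = 1 ∨ ((h ^ (l ^ N) : (ZMod L)ˣ) : ZMod L) = -1 := by
    have h1 : ((h ^ (l ^ N) : (ZMod L)ˣ) : ZMod L) ^ 2 = 1 := by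
      rw [← Units.val_pow_eq_pow_val, ← pow_mul]
      have h2 : l ^ N * 2 = L - 1 := by omega
      rw [h2, ZMod.units_pow_card_sub_one_eq_one, Units.val_one]
    rw [pow_two] at h1
    exact mul_self_eq_one_iff.1 h1
  -- placing the graph
  have hplace := fun (G : SimpleGraph (VV m p L J)) (f : Fin n → VV m p L J) =>
    place hP.mono hH S hS hV G f
  have hplace1 := fun (G : SimpleGraph (VV m p L J)) (f : Fin n → VV m p L J) =>
    place hP.mono hH1 S1 hS1 hV G f
  have hα : ∀ i, ∃ α : Fin n → ZMod p, ∀ a ∈ S1, χ a = i → ∀ b ∈ S1, χ b = i → α a = α b → a = b := by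
    intro i
    obtain ⟨e⟩ := Function.Embedding.nonempty_of_card_le
      (α := (S1.filter fun a => χ a = i : Finset (Fin n))) (β := ZMod p)
      (by rw [Fintype.card_coe, ZMod.card]; exact hS1p i)
    refine ⟨fun a => if ha : a ∈ S1.filter (fun a => χ a = i) then e ⟨a, ha⟩ else 0, ?_⟩
    intro a ha hai b hb hbi hab
    have ha' : a ∈ S1.filter (fun a => χ a = i) := mem_filter.2 ⟨ha, hai⟩
    have hb' : b ∈ S1.filter (fun a => χ a = i) := mem_filter.2 ⟨hb, hbi⟩
    dsimp only at hab
    rw [dif_pos ha', dif_pos hb'] at hab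
    exact congrArg Subtype.val (e.injective hab)
  have hβ : ∃ β : Fin n → ZMod L, ∀ a ∈ S1, χ a = false → ∀ b ∈ S1, χ b = false → β a = β b →
      a = b := by
    obtain ⟨e⟩ := Function.Embedding.nonempty_of_card_le
      (α := (S1.filter fun a => χ a = false : Finset (Fin n))) (β := ZMod L)
      (by rw [Fintype.card_coe, ZMod.card]; exact (hS1p false).trans hpL.le)
    refine ⟨fun a => if ha : a ∈ S1.filter (fun a => χ a = false) then e ⟨a, ha⟩ else 0, ?_⟩
    intro a ha hai b hb hbi hab
    have ha' : a ∈ S1.filter (fun a => χ a = false) := mem_filter.2 ⟨ha, hai⟩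
    have hb' : b ∈ S1.filter (fun a => χ a = false) := mem_filter.2 ⟨hb, hbi⟩
    dsimp only at hab
    rw [dif_pos ha', dif_pos hb'] at hab
    exact congrArg Subtype.val (e.injective hab)
  obtain ⟨α, hα1⟩ := hα true
  obtain ⟨α', hα2⟩ := hα false
  obtain ⟨β, hβ1⟩ := hβ
  have hcardp : Fintype.card S ≤ Fintype.card (ZMod p) := by
    rw [Fintype.card_coe, ZMod.card]
    exact hSp
  have hcardL : Fintype.card S ≤ Fintype.card (ZMod L) := by
    rw [Fintype.card_coe, ZMod.card]
    omega
  obtain ⟨ψ0⟩ := Function.Embedding.nonempty_of_card_le hcardp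
  obtain ⟨φ0⟩ := Function.Embedding.nonempty_of_card_le hcardL
  set ψ : Fin n → ZMod p := fun a => if ha : a ∈ S then ψ0 ⟨a, ha⟩ else 0 with hψ
  set φ : Fin n → ZMod L := fun a => if ha : a ∈ S then φ0 ⟨a, ha⟩ else 0 with hφ
  have hψi : ∀ a ∈ S, ∀ b ∈ S, ψ a = ψ b → a = b := by
    intro a ha b hb hab
    simp only [hψ, dif_pos ha, dif_pos hb] at hab
    have := ψ0.injective hab
    exact congrArg Subtype.val this
  have hφi : ∀ a ∈ S, ∀ b ∈ S, φ a = φ b → a = b := by
    intro a ha b hb hab
    simp only [hφ, dif_pos ha, dif_pos hb] at hab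
    have := φ0.injective hab
    exact congrArg Subtype.val this
  refine of_orbits_top hP hV p (ga (m := m) (p := p) (L := L) (J := J)) (W g 0 1 1) (W 1 0 h 0)
    ?_ ?_ ?_ (conj_K_iff hcop g h) l N ?_ hn2 ?_ ?_
  · intro i j
    unfold ga
    rw [W_mul, W_mul]
    refine W_congr rfl (fun k => ?_) rfl rfl
    rw [Units.val_one, one_mul, one_mul, add_comm]
  · intro i
    have key : ∀ k : ℕ, ga (L := L) (J := J) i ^ k = 
        W 1 (fun j => (k : ZMod p) * (Pi.single i.1 i.2 : Fin m → ZMod p) j) 1 0 := by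
      intro k
      induction k with
      | zero =>
        rw [pow_zero, ← W_one]
        exact W_congr rfl (fun j => by simp) rfl rfl
      | succ k ih =>
        rw [pow_succ', ih]
        unfold ga
        rw [W_mul]
        refine W_congr (by rw [mul_one]) (fun j => ?_) (by rw [mul_one]) (by rw [mul_zero, add_zero])
        rw [Units.val_one, Nat.cast_succ]
        ring
    rw [key, ← W_one]
    exact W_congr rfl (fun j => by simp) rfl rfl
  · intro i
    have e : (W (J := J) g (0 : Fin m → ZMod p) 1 (1 : ZMod L))⁻¹ * ga i * W g 0 1 1 =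
        ga (i.1, ((g⁻¹ : (ZMod p)ˣ) : ZMod p) * i.2) := by
      unfold ga
      rw [W_inv, W_mul, W_mul]
      refine W_congr ?_ (fun k => ?_) ?_ ?_
      · rw [mul_one, inv_mul_cancel]
      · simp only [Pi.zero_apply, mul_zero, neg_zero, add_zero, zero_add]
        rw [Pi.single_apply, Pi.single_apply]
        split_ifs
        · rfl
        · rw [mul_zero]
      · rw [mul_one, mul_one, inv_one]
      · rw [inv_one, mul_one, Units.val_one, mul_zero, mul_one, zero_add,
          Units.val_one, mul_one, add_neg_cancel]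
    rw [e]
    exact Subgroup.subset_closure ⟨_, rfl⟩
  · -- the top group
    rintro u v -
    rw [W_pow_m]
    set w := ((h ^ (l ^ N) : (ZMod L)ˣ) : ZMod L) with hw
    have hK := fun (f : Fin m → ZMod p) (t : ZMod L) => mem_K (J := J) hcop g 0 f t
    rcases u with ⟨i, x⟩ | ⟨j, y⟩ <;> rcases v with ⟨i', x'⟩ | ⟨j', y'⟩
    · refine ⟨_, hK 0 0, Or.inl ⟨?_, ?_⟩⟩
      · rw [W_inl, W_inl, pow_zero]
      · rw [W_inl, W_inl, pow_zero]
    · refine ⟨_, hK 0 (w * y' - y'), Or.inl ⟨?_, ?_⟩⟩
      · rw [W_inl, W_inl, pow_zero]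
      · rw [W_inr, W_inr]
        congr 2
        rw [Units.val_one, ← hw]
        ring
    · refine ⟨_, hK 0 (w * y - y), Or.inl ⟨?_, ?_⟩⟩
      · rw [W_inr, W_inr]
        congr 2
        rw [Units.val_one, ← hw]
        ring
      · rw [W_inl, W_inl, pow_zero]
    · have hj : j = j' := Subsingleton.elim _ _
      subst hj
      rcases hsq with h1 | h1
      · refine ⟨_, hK 0 0, Or.inl ⟨?_, ?_⟩⟩
        · rw [W_inr, W_inr]
          congr 2
          rw [Units.val_one, ← hw, h1]
        · rw [W_inr, W_inr]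
          congr 2
          rw [Units.val_one, ← hw, h1]
      · refine ⟨_, hK 0 (-y - y'), Or.inr ⟨?_, ?_⟩⟩
        · rw [W_inr, W_inr]
          congr 2
          rw [Units.val_one, ← hw, h1]
          ring
        · rw [W_inr, W_inr]
          congr 2
          rw [Units.val_one, ← hw, h1]
          ring
  · rintro ⟨e, he⟩
    have h2 : (⊥ : SimpleGraph (VV m p L J)).map e.toEmbedding = ⊥ := by
      ext a b
      rw [SimpleGraph.map_adj]
      constructor
      · rintro ⟨u, v, h, _⟩
        exact h
      · exact fun h => h.elim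
    rw [h2] at he
    exact h0 he
  · -- the orbits
    have hG := mem_G (m := m) (J := J) hcop g h hg hh
    have hin : ∀ (i : Fin m) (x x' : ZMod p) (hne : (Sum.inl (i, x) : VV m p L J) ≠ .inl (i, x'))
        (z z' : ZMod p), z ≠ z' → (orbG (GG m p L J g h) _ _ hne).Adj (.inl (i, z)) (.inl (i, z')) := by
      intro i x x' hne z z' hz
      have hx : x' - x ≠ 0 := by
        intro h
        apply hne
        rw [sub_eq_zero.1 h]
      have hz' : z' - z ≠ 0 := sub_ne_zero.2 hz.symm
      set u : (ZMod p)ˣ := Units.mk0 ((z' - z) / (x' - x)) (div_ne_zero hz' hx) with hu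
      have hu' : (u : ZMod p) = (z' - z) / (x' - x) := rfl
      refine ⟨_, hG u (fun _ => z - u * x) 1 0, Or.inl ⟨?_, ?_⟩⟩
      · rw [W_inl]
        congr 2
        ring
      · rw [W_inl]
        congr 2
        have : (u : ZMod p) * (x' - x) = z' - z := by
          rw [hu', div_mul_cancel₀ _ hx]
        have h3 : z' = z + (u : ZMod p) * (x' - x) := by
          rw [this]
          ring
        rw [h3]
        ring
    have hout : ∀ (i i' : Fin m) (x x' : ZMod p)
        (hne : (Sum.inl (i, x) : VV m p L J) ≠ .inl (i', x')) (_ : i ≠ i') (z z' : ZMod p),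
        (orbG (GG m p L J g h) _ _ hne).Adj (.inl (i, z)) (.inl (i', z')) := by
      intro i i' x x' hne hii z z'
      refine ⟨_, hG 1 (fun k => if k = i then z - x else z' - x') 1 0, Or.inl ⟨?_, ?_⟩⟩
      · rw [W_inl, if_pos rfl]
        congr 2
        rw [Units.val_one]
        ring
      · rw [W_inl, if_neg hii.symm]
        congr 2
        rw [Units.val_one]
        ring
    have hmix : ∀ (i : Fin m) (j : J) (x : ZMod p) (y : ZMod L)
        (hne : (Sum.inl (i, x) : VV m p L J) ≠ .inr (j, y)) (z : ZMod p) (z' : ZMod L),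
        (orbG (GG m p L J g h) _ _ hne).Adj (.inl (i, z)) (.inr (j, z')) := by
      intro i j x y hne z z'
      refine ⟨_, hG 1 (fun _ => z - x) 1 (z' - y), Or.inl ⟨?_, ?_⟩⟩
      · rw [W_inl]
        congr 2
        rw [Units.val_one]
        ring
      · rw [W_inr]
        congr 2
        rw [Units.val_one]
        ring
    have hmix' : ∀ (i : Fin m) (j : J) (x : ZMod p) (y : ZMod L)
        (hne : (Sum.inr (j, y) : VV m p L J) ≠ .inl (i, x)) (z : ZMod p) (z' : ZMod L),
        (orbG (GG m p L J g h) _ _ hne).Adj (.inl (i, z)) (.inr (j, z')) := by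
      intro i j x y hne z z'
      refine ⟨_, hG 1 (fun _ => z - x) 1 (z' - y), Or.inr ⟨?_, ?_⟩⟩
      · rw [W_inr]
        congr 2
        rw [Units.val_one]
        ring
      · rw [W_inl]
        congr 2
        rw [Units.val_one]
        ring
    have hsp : ∀ (j : J) (y y' : ZMod L) (hne : (Sum.inr (j, y) : VV m p L J) ≠ .inr (j, y'))
        (z z' : ZMod L), z ≠ z' → (orbG (GG m p L J g h) _ _ hne).Adj (.inr (j, z)) (.inr (j, z')) := by
      intro j y y' hne z z' hz
      have hx : y' - y ≠ 0 := by
        intro h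
        apply hne
        rw [sub_eq_zero.1 h]
      have hz' : z' - z ≠ 0 := sub_ne_zero.2 hz.symm
      set u : (ZMod L)ˣ := Units.mk0 ((z' - z) / (y' - y)) (div_ne_zero hz' hx) with hu
      have hu' : (u : ZMod L) = (z' - z) / (y' - y) := rfl
      refine ⟨_, hG 1 0 u (z - u * y), Or.inl ⟨?_, ?_⟩⟩
      · rw [W_inr]
        congr 2
        ring
      · rw [W_inr]
        congr 2
        have : (u : ZMod L) * (y' - y) = z' - z := by
          rw [hu', div_mul_cancel₀ _ hx]
        have h3 : z' = z + (u : ZMod L) * (y' - y) := by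
          rw [this]
          ring
        rw [h3]
        ring
    rintro (⟨i, x⟩ | ⟨j, y⟩) (⟨i', x'⟩ | ⟨j', y'⟩) hne
    · by_cases hii : i = i'
      · subst hii
        refine hplace _ (fun a => .inl (i, ψ a)) ?_ ?_
        · intro a ha b hb hab
          exact hψi a ha b hb (Prod.ext_iff.1 (Sum.inl_injective hab)).2
        · intro a b hab
          exact hin i x x' hne _ _ fun h => hab.ne (hψi a (hS a b hab) b (hS b a hab.symm) h)
      · refine hplace1 _ (fun a => if χ a = true then .inl (i, α a) else .inl (i', α' a)) ?_ ?_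
        · intro a ha b hb hab
          dsimp only at hab
          rcases h1 : χ a with _ | _ <;> rcases h2 : χ b with _ | _
          · rw [h1, h2, if_neg (by simp), if_neg (by simp)] at hab
            exact hα2 a ha h1 b hb h2 (Prod.ext_iff.1 (Sum.inl_injective hab)).2
          · rw [h1, h2, if_neg (by simp), if_pos rfl] at hab
            exact absurd (Prod.ext_iff.1 (Sum.inl_injective hab)).1.symm hii
          · rw [h1, h2, if_pos rfl, if_neg (by simp)] at hab
            exact absurd (Prod.ext_iff.1 (Sum.inl_injective hab)).1 hii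
          · rw [h1, h2, if_pos rfl, if_pos rfl] at hab
            exact hα1 a ha h1 b hb h2 (Prod.ext_iff.1 (Sum.inl_injective hab)).2
        · intro a b hab
          have h1 := hχ a b hab
          rcases ha : χ a with _ | _ <;> rcases hb : χ b with _ | _
          · exact absurd (ha.trans hb.symm) h1
          · rw [if_neg (by simp), if_pos rfl]
            exact (hout i i' x x' hne hii _ _).symm
          · rw [if_pos rfl, if_neg (by simp)]
            exact hout i i' x x' hne hii _ _
          · exact absurd (ha.trans hb.symm) h1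
    · refine hplace1 _ (fun a => if χ a = true then .inl (i, α a) else .inr (j', β a)) ?_ ?_
      · intro a ha b hb hab
        dsimp only at hab
        rcases h1 : χ a with _ | _ <;> rcases h2 : χ b with _ | _
        · rw [h1, h2, if_neg (by simp), if_neg (by simp)] at hab
          exact hβ1 a ha h1 b hb h2 (Prod.ext_iff.1 (Sum.inr_injective hab)).2
        · rw [h1, h2, if_neg (by simp), if_pos rfl] at hab
          exact absurd hab (by simp)
        · rw [h1, h2, if_pos rfl, if_neg (by simp)] at hab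
          exact absurd hab (by simp)
        · rw [h1, h2, if_pos rfl, if_pos rfl] at hab
          exact hα1 a ha h1 b hb h2 (Prod.ext_iff.1 (Sum.inl_injective hab)).2
      · intro a b hab
        have h1 := hχ a b hab
        rcases ha : χ a with _ | _ <;> rcases hb : χ b with _ | _
        · exact absurd (ha.trans hb.symm) h1
        · rw [if_neg (by simp), if_pos rfl]
          exact (hmix i j' x y' hne _ _).symm
        · rw [if_pos rfl, if_neg (by simp)]
          exact hmix i j' x y' hne _ _
        · exact absurd (ha.trans hb.symm) h1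
    · refine hplace1 _ (fun a => if χ a = true then .inl (i', α a) else .inr (j, β a)) ?_ ?_
      · intro a ha b hb hab
        dsimp only at hab
        rcases h1 : χ a with _ | _ <;> rcases h2 : χ b with _ | _
        · rw [h1, h2, if_neg (by simp), if_neg (by simp)] at hab
          exact hβ1 a ha h1 b hb h2 (Prod.ext_iff.1 (Sum.inr_injective hab)).2
        · rw [h1, h2, if_neg (by simp), if_pos rfl] at hab
          exact absurd hab (by simp)
        · rw [h1, h2, if_pos rfl, if_neg (by simp)] at hab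
          exact absurd hab (by simp)
        · rw [h1, h2, if_pos rfl, if_pos rfl] at hab
          exact hα1 a ha h1 b hb h2 (Prod.ext_iff.1 (Sum.inl_injective hab)).2
      · intro a b hab
        have h1 := hχ a b hab
        rcases ha : χ a with _ | _ <;> rcases hb : χ b with _ | _
        · exact absurd (ha.trans hb.symm) h1
        · rw [if_neg (by simp), if_pos rfl]
          exact (hmix' i' j x' y hne _ _).symm
        · rw [if_pos rfl, if_neg (by simp)]
          exact hmix' i' j x' y hne _ _
        · exact absurd (ha.trans hb.symm) h1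
    · have hj : j = j' := Subsingleton.elim _ _
      subst hj
      refine hplace _ (fun a => .inr (j, φ a)) ?_ ?_
      · intro a ha b hb hab
        exact hφi a ha b hb (Prod.ext_iff.1 (Sum.inr_injective hab)).2
      · intro a b hab
        exact hsp j y y' hne _ _ fun h => hab.ne (hφi a (hS a b hab) b (hS b a hab.symm) h)

end

end Pool.Agent.X82.SB
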