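import Mathlib
import Pool.Agent.Results.MP_257582_lc.ConeDegrees

set_option autoImplicit false

/-!
# The strength of cones over regular graphs (MP_257582_lc)
-/

namespace Pool.Agent.X82.ST

open Finset
open Pool.Agent.Results.MP_257582_lc.ConeDegrees

/-- the edges of `G` between different classes of the partition given by `f` -/
def cross {N : ℕ} (G : SimpleGraph (Fin N)) (f : Fin N → Fin N) : Set (Sym2 (Fin N)) :=
  {e | ∃ u v, G.Adj u v ∧ f u ≠ f v ∧ e = s(u, v)}

/-- the graph of the crossing edges -/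
def crG {N : ℕ} (G : SimpleGraph (Fin N)) (f : Fin N → Fin N) : SimpleGraph (Fin N) where
  Adj u v := G.Adj u v ∧ f u ≠ f v
  symm := ⟨fun _ _ h => ⟨h.1.symm, h.2.symm⟩⟩
  loopless := ⟨fun _ h => h.2 rfl⟩

theorem cross_eq {N : ℕ} (G : SimpleGraph (Fin N)) (f : Fin N → Fin N) :
    cross G f = (crG G f).edgeSet := by
  ext e
  refine Sym2.ind (fun a b => ?_) e
  rw [SimpleGraph.mem_edgeSet]
  constructor
  · rintro ⟨u, v, h1, h2, h3⟩
    rw [Sym2.eq_iff] at h3
    rcases h3 with ⟨rfl, rfl⟩ | ⟨rfl, rfl⟩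
    · exact ⟨h1, h2⟩
    · exact ⟨h1.symm, h2.symm⟩
  · rintro ⟨h1, h2⟩
    exact ⟨a, b, h1, h2, rfl⟩

/-- handshake -/
theorem cross_sum {N : ℕ} (G : SimpleGraph (Fin N)) (f : Fin N → Fin N) :
    ∑ v, ((crG G f).neighborSet v).ncard = 2 * (cross G f).ncard := by
  classical
  have h := (crG G f).sum_degrees_eq_twice_card_edges
  rw [cross_eq, Set.ncard_eq_toFinset_card', ← SimpleGraph.edgeFinset, ← h]
  refine Finset.sum_congr rfl fun v _ => ?_
  rw [← SimpleGraph.card_neighborSet_eq_degree, ← Nat.card_eq_fintype_card, Nat.card_coe_set_eq]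

theorem arith {s d : ℕ} (hs : 1 ≤ s) : d + 2 ≤ s * (2 + (d + 1 - s)) := by
  rcases Nat.lt_or_ge (d + 1) s with h | h
  · have : d + 1 - s = 0 := by omega
    rw [this]
    omega
  · obtain ⟨a, ha⟩ : ∃ a, d + 1 = s + a := ⟨d + 1 - s, by omega⟩
    obtain ⟨b, rfl⟩ : ∃ b, s = b + 1 := ⟨s - 1, by omega⟩
    have h1 : d + 1 - (b + 1) = a := by omega
    rw [h1]
    have h2 : d = b + a := by omega
    rw [h2]
    nlinarith [Nat.zero_le (b * a), Nat.zero_le b]

theorem strength_cone {n d : ℕ} (K : SimpleGraph (Fin n)) (hK : RegularOfDegree K d)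
    (f : Fin (n + 1) → Fin (n + 1)) :
    (d + 2) * ((Set.range f).ncard - 1) ≤ 2 * (cross (Cone K) f).ncard := by
  classical
  rw [← cross_sum, Fin.sum_univ_castSucc]
  set g : Fin n → Fin (n + 1) := fun x => f x.castSucc with hg
  set r := f (Fin.last n) with hr
  set B : Finset (Fin n) := univ.filter fun x => g x ≠ r with hB
  set kx : Fin n → ℕ := fun x => (univ.filter fun y => K.Adj x y ∧ g x ≠ g y).card with hkx
  have hadj : ∀ x y : Fin n, K.Adj x y → (Cone K).Adj x.castSucc y.castSucc := by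
    intro x y h
    refine ⟨fun h' => h.ne (Fin.castSucc_injective n h'), fun a b ha hb => ?_⟩
    rw [← Fin.castSucc_injective n ha, ← Fin.castSucc_injective n hb]
    exact h
  have hlast : ∀ x : Fin n, (Cone K).Adj x.castSucc (Fin.last n) := by
    intro x
    refine ⟨(Fin.castSucc_lt_last x).ne, fun a b _ hb => ?_⟩
    exact absurd hb.symm (Fin.castSucc_lt_last b).ne
  have h1 : B.card ≤ ((crG (Cone K) f).neighborSet (Fin.last n)).ncard := by
    have h2 : ((B.image Fin.castSucc : Finset (Fin (n + 1))) : Set (Fin (n + 1))) ⊆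
        (crG (Cone K) f).neighborSet (Fin.last n) := by
      intro y hy
      rw [Finset.mem_coe, Finset.mem_image] at hy
      obtain ⟨x, hx, rfl⟩ := hy
      rw [hB, mem_filter] at hx
      exact ⟨(hlast x).symm, fun h => hx.2 h.symm⟩
    have h3 := Set.ncard_le_ncard h2 (Set.toFinite _)
    rwa [Set.ncard_coe_finset, Finset.card_image_of_injective _ (Fin.castSucc_injective n)] at h3
  have h2 : ∀ x ∈ B, 1 + kx x ≤ ((crG (Cone K) f).neighborSet x.castSucc).ncard := by
    intro x hx
    rw [hB, mem_filter] at hx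
    have h3 : ((insert (Fin.last n) ((univ.filter fun y => K.Adj x y ∧ g x ≠ g y).image
        Fin.castSucc) : Finset (Fin (n + 1))) : Set (Fin (n + 1))) ⊆
        (crG (Cone K) f).neighborSet x.castSucc := by
      intro y hy
      rw [Finset.mem_coe, Finset.mem_insert, Finset.mem_image] at hy
      rcases hy with rfl | ⟨z, hz, rfl⟩
      · exact ⟨hlast x, hx.2⟩
      · rw [mem_filter] at hz
        exact ⟨hadj x z hz.2.1, hz.2.2⟩
    have h4 := Set.ncard_le_ncard h3 (Set.toFinite _)
    rw [Set.ncard_coe_finset, Finset.card_insert_of_notMem, Finset.card_image_of_injective _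
      (Fin.castSucc_injective n)] at h4
    · change 1 + (univ.filter fun y => K.Adj x y ∧ g x ≠ g y).card ≤ _
      omega
    · rw [Finset.mem_image]
      rintro ⟨z, -, hz⟩
      exact (Fin.castSucc_lt_last z).ne hz
  have h3 : ∑ x ∈ B, (2 + kx x) ≤ ∑ x : Fin n, ((crG (Cone K) f).neighborSet x.castSucc).ncard +
      ((crG (Cone K) f).neighborSet (Fin.last n)).ncard := by
    have h4 : ∑ x ∈ B, (1 + kx x) ≤
        ∑ x : Fin n, ((crG (Cone K) f).neighborSet x.castSucc).ncard :=
      (Finset.sum_le_sum h2).trans (Finset.sum_le_sum_of_subset (Finset.subset_univ _))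
    have h5 : ∑ x ∈ B, (2 + kx x) = ∑ x ∈ B, (1 + kx x) + B.card := by
      rw [Finset.card_eq_sum_ones, ← Finset.sum_add_distrib]
      refine Finset.sum_congr rfl fun x _ => ?_
      ring
    omega
  refine le_trans ?_ h3
  have h4 : (Set.range f).ncard - 1 ≤ (B.image g).card := by
    have h5 : Set.range f ⊆ ((insert r (B.image g) : Finset (Fin (n + 1))) : Set (Fin (n + 1))) := by
      rintro _ ⟨v, rfl⟩
      rw [Finset.mem_coe, Finset.mem_insert]
      rcases Fin.eq_castSucc_or_eq_last v with ⟨x, rfl⟩ | rfl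
      · by_cases hx : f x.castSucc = r
        · exact Or.inl hx
        · exact Or.inr (Finset.mem_image.2 ⟨x, by rw [hB, mem_filter]; exact ⟨mem_univ _, hx⟩, rfl⟩)
      · exact Or.inl rfl
    have h6 := Set.ncard_le_ncard h5 (Set.toFinite _)
    rw [Set.ncard_coe_finset] at h6
    have h7 := Finset.card_insert_le r (B.image g)
    omega
  rw [← Finset.sum_fiberwise_of_maps_to (t := B.image g) (g := g)
    (fun x hx => Finset.mem_image_of_mem g hx)]
  have h5 : ∀ c ∈ B.image g, d + 2 ≤ ∑ x ∈ B.filter (fun x => g x = c), (2 + kx x) := by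
    intro c hc
    set F := B.filter (fun x => g x = c) with hF
    have hFne : 1 ≤ F.card := by
      rw [Finset.mem_image] at hc
      obtain ⟨x, hx, hxc⟩ := hc
      exact Finset.card_pos.2 ⟨x, by rw [hF, mem_filter]; exact ⟨hx, hxc⟩⟩
    have h6 : ∀ x ∈ F, 2 + (d + 1 - F.card) ≤ 2 + kx x := by
      intro x hx
      have hx' := hx
      rw [hF, mem_filter, hB, mem_filter] at hx'
      have h7 : (univ.filter fun y => K.Adj x y).card = d := by
        have := hK x
        rw [← this, ← Set.ncard_coe_finset]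
        congr 1
        ext y
        simp
      have h8 : (univ.filter fun y => K.Adj x y) ⊆
          (univ.filter fun y => K.Adj x y ∧ g x ≠ g y) ∪ F.erase x := by
        intro y hy
        rw [mem_filter] at hy
        rw [mem_union, mem_filter, mem_erase]
        by_cases h9 : g x = g y
        · right
          refine ⟨hy.2.ne', ?_⟩
          rw [hF, mem_filter, hB, mem_filter]
          exact ⟨⟨mem_univ _, by rw [← h9]; exact hx'.1.2⟩, by rw [← h9]; exact hx'.2⟩
        · exact Or.inl ⟨mem_univ _, hy.2, h9⟩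
      have h9 := (Finset.card_le_card h8).trans (Finset.card_union_le _ _)
      rw [h7, Finset.card_erase_of_mem hx] at h9
      change 2 + (d + 1 - F.card) ≤ 2 + (univ.filter fun y => K.Adj x y ∧ g x ≠ g y).card
      omega
    have h7 := Finset.card_nsmul_le_sum F (fun x => 2 + kx x) _ h6
    rw [smul_eq_mul] at h7
    exact (arith hFne).trans h7
  have h6 := Finset.card_nsmul_le_sum (B.image g) _ _ h5
  rw [smul_eq_mul] at h6
  refine le_trans ?_ h6
  rw [mul_comm]
  exact Nat.mul_le_mul_right _ h4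

end Pool.Agent.X82.ST
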