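import Mathlib
import Pool.Agent.X82.ST1

set_option autoImplicit false

/-!
# Evasiveness of strength properties (MP_257582_lc)
-/

namespace Pool.Agent.X82.ST

open Finset
open Pool.Agent.Results.MP_257582_lc.ConeDegrees

/-- strength at least `t` -/
def Str {N : ℕ} (t : ℝ) (G : SimpleGraph (Fin N)) : Prop :=
  ∀ f : Fin N → Fin N, t * (((Set.range f).ncard : ℝ) - 1) ≤ ((cross G f).ncard : ℝ)

theorem range_pos {N : ℕ} (hN : 0 < N) (f : Fin N → Fin N) : 1 ≤ (Set.range f).ncard := by
  rw [Nat.one_le_iff_ne_zero, Ne, Set.ncard_eq_zero (Set.toFinite _)]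
  intro h
  have : f ⟨0, hN⟩ ∈ Set.range f := ⟨_, rfl⟩
  rw [h] at this
  exact this

theorem cone_del {n d : ℕ} (K : SimpleGraph (Fin n)) (hK : RegularOfDegree K d) (x : Fin n) :
    ((Cone K).neighborSet x.castSucc \ {Fin.last n}).ncard = d := by
  have h : (Cone K).neighborSet x.castSucc \ {Fin.last n} = Fin.castSucc '' K.neighborSet x := by
    rw [cone_nbr]
    ext y
    rw [Set.mem_sdiff, Set.mem_insert_iff, Set.mem_singleton_iff]
    constructor
    · rintro ⟨h1 | h1, h2⟩
      · exact absurd h1 h2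
      · exact h1
    · rintro ⟨z, hz, rfl⟩
      exact ⟨Or.inr ⟨z, hz, rfl⟩, (Fin.castSucc_lt_last z).ne⟩
  rw [h, Set.ncard_image_of_injective _ (Fin.castSucc_injective n), hK x]

theorem sandwich (N k : ℕ) (hk : 2 ≤ k) (hkN : k < N) (P : SimpleGraph (Fin N) → Prop)
    (hmono : ∀ G H : SimpleGraph (Fin N), G ≤ H → P G → P H)
    (hiso : ∀ (σ : Fin N ≃ Fin N) (G : SimpleGraph (Fin N)), P G → P (G.map σ.toEmbedding))
    (hbot : ∀ G : SimpleGraph (Fin N), G.IsEdgeConnected k → Str (((k : ℝ) + 1) / 2) G → P G)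
    (hisol : ∀ G : SimpleGraph (Fin N), P G → ∀ v, ∃ w, G.Adj v w)
    (htop : ∀ G : SimpleGraph (Fin N), P G →
      ∀ v, ∃ u, u ≠ v ∧ k - 1 ≤ (G.neighborSet u \ {v}).ncard) : Evasive P := by
  obtain ⟨n, rfl⟩ : ∃ n, N = n + 1 := ⟨N - 1, by omega⟩
  have hn : 1 ≤ n := by omega
  have key : ∀ (d : ℕ) (K : SimpleGraph (Fin n)), RegularOfDegree K d →
      (P (Cone K) ↔ k ≤ d + 1) := by
    intro d K hK
    constructor
    · intro h
      obtain ⟨u, hu, hu'⟩ := htop _ h (Fin.last n)
      rcases Fin.eq_castSucc_or_eq_last u with ⟨x, rfl⟩ | h'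
      · rw [cone_del K hK] at hu'
        omega
      · exact absurd h' hu
    · intro h
      refine hbot _ ((edge_cone hn K hK).2 h) fun f => ?_
      have h1 := strength_cone K hK f
      have h2 := range_pos (Nat.succ_pos n) f
      have h3 : (((d + 2) * ((Set.range f).ncard - 1) : ℕ) : ℝ) ≤
          ((2 * (cross (Cone K) f).ncard : ℕ) : ℝ) := by exact_mod_cast h1
      rw [Nat.cast_mul, Nat.cast_mul, Nat.cast_sub h2] at h3
      push_cast at h3
      have h4 : ((k : ℝ) + 1) ≤ d + 2 := by
        have : (k : ℝ) ≤ d + 1 := by exact_mod_cast h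
        linarith
      have h5 : (0 : ℝ) ≤ ((Set.range f).ncard : ℝ) - 1 := by
        have : (1 : ℝ) ≤ ((Set.range f).ncard : ℝ) := by exact_mod_cast h2
        linarith
      nlinarith
  refine cone_evasive n P hmono hiso ?_ ?_ ?_ ?_
  · rintro G ⟨v, hv⟩ h
    obtain ⟨w, hw⟩ := hisol G h v
    exact hv w hw
  · exact ⟨Cone ⊤, (key (n - 1) _ (regular_top n)).2 (by omega)⟩
  · intro h
    have := (key 0 _ (regular_bot n)).1 h
    omega
  · intro d K L _ _ hK hL
    rw [key d K hK, key d L hL]

theorem cross_map {N : ℕ} (σ : Fin N ≃ Fin N) (G : SimpleGraph (Fin N)) (f : Fin N → Fin N) :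
    cross (G.map σ.toEmbedding) f = Sym2.map σ '' cross G (f ∘ σ) := by
  ext e
  constructor
  · rintro ⟨u, v, h1, h2, rfl⟩
    rw [SimpleGraph.map_adj] at h1
    obtain ⟨a, b, h, rfl, rfl⟩ := h1
    exact ⟨s(a, b), ⟨a, b, h, h2, rfl⟩, rfl⟩
  · rintro ⟨_, ⟨a, b, h1, h2, rfl⟩, rfl⟩
    exact ⟨σ a, σ b, (SimpleGraph.map_adj_apply (f := σ.toEmbedding)).2 h1, h2, rfl⟩

theorem str_evasive (N : ℕ) (t : ℝ) (ht : 1 < t) (htN : t ≤ N / 2) :
    Evasive (fun G : SimpleGraph (Fin N) => Str t G) := by
  classical
  set k := ⌈2 * t - 1⌉₊ with hk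
  have hk2 : 2 ≤ k := by
    have : 1 < k := by
      rw [hk, Nat.lt_ceil]
      norm_num
      linarith
    omega
  have hkN : k < N := by
    have h1 : k ≤ N - 1 := by
      rw [hk, Nat.ceil_le]
      have hN : 1 ≤ N := by
        rcases Nat.eq_zero_or_pos N with h | h
        · rw [h] at htN
          norm_num at htN
          linarith
        · exact h
      rw [Nat.cast_sub hN]
      push_cast
      linarith
    omega
  have hkt : 2 * t - 1 ≤ k := Nat.le_ceil _
  have hkt' : ∀ m : ℕ, m < k - 1 → (m : ℝ) < 2 * t - 2 := by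
    intro m hm
    have h1 : m + 1 < k := by omega
    rw [hk, Nat.lt_ceil] at h1
    push_cast at h1
    linarith
  have hN0 : 0 < N := by omega
  refine sandwich N k hk2 hkN _ ?_ ?_ ?_ ?_ ?_
  · intro G H hGH h f
    refine (h f).trans ?_
    have : cross G f ⊆ cross H f := by
      rintro e ⟨u, v, h1, h2, h3⟩
      exact ⟨u, v, hGH h1, h2, h3⟩
    exact_mod_cast Set.ncard_le_ncard this (Set.toFinite _)
  · intro σ G h f
    have h1 := h (f ∘ σ)
    rw [cross_map, Set.ncard_image_of_injective _ (Sym2.map.injective σ.injective)]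
    have h2 : Set.range (f ∘ σ) = Set.range f := by
      rw [Set.range_comp, σ.range_eq_univ, Set.image_univ]
    rwa [h2] at h1
  · intro G _ h f
    refine le_trans ?_ (h f)
    have h2 := range_pos hN0 f
    have h5 : (0 : ℝ) ≤ ((Set.range f).ncard : ℝ) - 1 := by
      have : (1 : ℝ) ≤ ((Set.range f).ncard : ℝ) := by exact_mod_cast h2
      linarith
    nlinarith
  · intro G h v
    obtain ⟨u, hu⟩ : ∃ u : Fin N, u ≠ v := by
      have : Nontrivial (Fin N) := Fin.nontrivial_iff_two_le.2 (by omega)
      exact exists_ne v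
    have h1 := h (fun w => if w = v then v else u)
    have h2 : Set.range (fun w => if w = v then v else u) = {v, u} := by
      ext x
      rw [Set.mem_range, Set.mem_insert_iff, Set.mem_singleton_iff]
      constructor
      · rintro ⟨w, hw⟩
        split_ifs at hw
        · exact Or.inl hw.symm
        · exact Or.inr hw.symm
      · rintro (rfl | rfl)
        · exact ⟨x, if_pos rfl⟩
        · exact ⟨x, if_neg hu⟩
    rw [h2, Set.ncard_pair hu.symm] at h1
    have h3 : (cross G (fun w => if w = v then v else u)).Nonempty := by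
      rw [← Set.ncard_pos (Set.toFinite _)]
      have : (0 : ℝ) < ((cross G (fun w => if w = v then v else u)).ncard : ℝ) := by
        norm_num at h1
        linarith
      exact_mod_cast this
    obtain ⟨e, a, b, hab, hne, -⟩ := h3
    dsimp only at hne
    by_cases ha : a = v
    · exact ⟨b, ha ▸ hab⟩
    · by_cases hb : b = v
      · exact ⟨a, hb ▸ hab.symm⟩
      · rw [if_neg ha, if_neg hb] at hne
        exact absurd rfl hne
  · intro G h v
    by_contra hcon
    push Not at hcon
    have h1 := h id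
    rw [Set.range_id, Set.ncard_univ, Nat.card_eq_fintype_card, Fintype.card_fin] at h1
    have hcr := cross_sum G id
    have hnb : ∀ u, (crG G id).neighborSet u = G.neighborSet u := by
      intro u
      ext w
      constructor
      · intro h
        exact h.1
      · intro h
        exact ⟨h, G.ne_of_adj h⟩
    simp only [hnb] at hcr
    rw [← Finset.add_sum_erase _ _ (mem_univ v)] at hcr
    have h2 : ∀ u ∈ univ.erase v, (G.neighborSet u).ncard ≤
        (G.neighborSet u \ {v}).ncard + (if G.Adj v u then 1 else 0) := by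
      intro u _
      split_ifs with hadj
      · have := Set.ncard_sdiff_singleton_of_mem (s := G.neighborSet u) (a := v) hadj.symm
        omega
      · have : G.neighborSet u \ {v} = G.neighborSet u := by
          rw [Set.sdiff_singleton_eq_self]
          exact fun h' => hadj (SimpleGraph.Adj.symm h')
        rw [this, add_zero]
    have h3 := Finset.sum_le_sum h2
    rw [Finset.sum_add_distrib] at h3
    have h4 : ∑ u ∈ univ.erase v, (if G.Adj v u then 1 else 0) ≤ N - 1 := by
      refine (Finset.sum_le_card_nsmul _ _ 1 ?_).trans ?_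
      · intro u _
        split_ifs <;> omega
      · rw [smul_eq_mul, mul_one, Finset.card_erase_of_mem (mem_univ v), Finset.card_univ,
          Fintype.card_fin]
    have h5 : (G.neighborSet v).ncard ≤ N - 1 := by
      have h6 : G.neighborSet v ⊆ ((univ.erase v : Finset (Fin N)) : Set (Fin N)) := by
        intro w hw
        rw [Finset.mem_coe, mem_erase]
        exact ⟨(G.ne_of_adj hw).symm, mem_univ _⟩
      have h7 := Set.ncard_le_ncard h6 (Set.toFinite _)
      rwa [Set.ncard_coe_finset, Finset.card_erase_of_mem (mem_univ v), Finset.card_univ,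
        Fintype.card_fin] at h7
    have h6 : ((∑ u ∈ univ.erase v, (G.neighborSet u \ {v}).ncard : ℕ) : ℝ) <
        (N - 1) * (2 * t - 2) := by
      rw [Nat.cast_sum]
      have h7 : (univ.erase v).Nonempty := by
        rw [← Finset.card_pos, Finset.card_erase_of_mem (mem_univ v), Finset.card_univ,
          Fintype.card_fin]
        omega
      refine (Finset.sum_lt_sum_of_nonempty h7 (fun u hu =>
        hkt' _ (hcon u (Finset.ne_of_mem_erase hu)))).trans_le ?_
      rw [Finset.sum_const, Finset.card_erase_of_mem (mem_univ v), Finset.card_univ,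
          Fintype.card_fin, nsmul_eq_mul, Nat.cast_sub (by omega), Nat.cast_one]
    have h8 : 2 * (cross G id).ncard ≤
        ∑ u ∈ univ.erase v, (G.neighborSet u \ {v}).ncard + 2 * (N - 1) := by
      omega
    have h9 : (2 * (cross G id).ncard : ℝ) ≤
        ((∑ u ∈ univ.erase v, (G.neighborSet u \ {v}).ncard : ℕ) : ℝ) + 2 * (N - 1) := by
      have h10 : ((2 * (cross G id).ncard : ℕ) : ℝ) ≤
        ((∑ u ∈ univ.erase v, (G.neighborSet u \ {v}).ncard + 2 * (N - 1) : ℕ) : ℝ) := by
        exact_mod_cast h8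
      rw [Nat.cast_add, Nat.cast_mul, Nat.cast_mul, Nat.cast_sub (by omega : 1 ≤ N)] at h10
      push_cast at h10 ⊢
      exact h10
    nlinarith

end Pool.Agent.X82.ST
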