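import Pool.Agent.X82.AreaI

set_option autoImplicit false

/-! The final form of the equivalence. -/

open MeasureTheory Filter Topology Set
open scoped ENNReal

namespace Pool.Agent.X82.Area

/-- the integrand -/
noncomputable def den (β : ℝ) (s : ℂ) : ℝ := ‖riemannZeta s‖ ^ (β - 2) * ‖deriv riemannZeta s‖ ^ 2

lemma G_den (β : ℝ) (s : ℂ) : G (β / 2) s = β ^ 2 * den β s := by
  unfold G den
  rw [show 2 * (β / 2) - 2 = β - 2 by ring]
  ring

lemma pt_eq (q : ℝ × ℝ) : pt q.1 q.2 = Complex.measurableEquivRealProd.symm q := by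
  apply Complex.ext
  · rw [pt_re]; rfl
  · rw [pt_im]; rfl

lemma open_eq (T : ℝ) : (RR 2 T : Set (ℝ × ℝ)) =ᵐ[volume] (Ioo (1 / 2 : ℝ) 2 ×ˢ Ioo 2 T : Set (ℝ × ℝ)) := by
  unfold RR
  rw [Measure.volume_eq_prod]
  exact Measure.set_prod_ae_eq Ioo_ae_eq_Icc.symm Ioo_ae_eq_Icc.symm

lemma preim (T : ℝ) : Complex.measurableEquivRealProd.symm ⁻¹' (Reg T) = Ioo (1 / 2 : ℝ) 2 ×ˢ Ioo 2 T := by
  ext q
  simp only [mem_preimage, Reg, mem_ofPred_eq, mem_prod, mem_Ioo]
  have h1 : (Complex.measurableEquivRealProd.symm q).re = q.1 := rfl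
  have h2 : (Complex.measurableEquivRealProd.symm q).im = q.2 := rfl
  rw [h1, h2]
  tauto

lemma den_int {β : ℝ} (hβ : 0 < β) (T : ℝ) : IntegrableOn (den β) (Reg T) := by
  have h1 := G_int (κ := β / 2) (by positivity) T
  have h2 : IntegrableOn (fun q : ℝ × ℝ => G (β / 2) (pt q.1 q.2)) (Ioo (1 / 2 : ℝ) 2 ×ˢ Ioo 2 T) :=
    h1.congr_set_ae (open_eq T).symm
  rw [← preim] at h2
  have h3 : IntegrableOn (fun q : ℝ × ℝ => G (β / 2) (Complex.measurableEquivRealProd.symm q))
      (Complex.measurableEquivRealProd.symm ⁻¹' (Reg T)) := by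
    refine h2.congr_fun (fun q _ => ?_) (Complex.measurableEquivRealProd.symm.measurable (Reg_open T).measurableSet)
    dsimp only
    rw [pt_eq]
  have h4 : IntegrableOn (G (β / 2)) (Reg T) :=
    ((Complex.volume_preserving_equiv_real_prod.symm _).integrableOn_comp_preimage
      (Complex.measurableEquivRealProd.symm.measurableEmbedding)).1 h3
  have h5 := h4.const_mul (1 / β ^ 2)
  refine h5.congr (Eventually.of_forall fun s => ?_)
  dsimp only
  rw [G_den]
  field_simp

lemma AA_den {β : ℝ} (T : ℝ) : AA (β / 2) T = β ^ 2 * ∫ s in Reg T, den β s := by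
  rw [AA_eq, setIntegral_congr_set (open_eq T), ← integral_const_mul, ← preim]
  have h := (Complex.volume_preserving_equiv_real_prod.symm _).setIntegral_preimage_emb
    (Complex.measurableEquivRealProd.symm.measurableEmbedding) (G (β / 2)) (Reg T)
  have h2 : ∫ q in Complex.measurableEquivRealProd.symm ⁻¹' (Reg T), G (β / 2) (pt q.1 q.2) =
      ∫ q in Complex.measurableEquivRealProd.symm ⁻¹' (Reg T), G (β / 2) (Complex.measurableEquivRealProd.symm q) := by
    refine setIntegral_congr_fun (Complex.measurableEquivRealProd.symm.measurable (Reg_open T).measurableSet)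
      fun q _ => ?_
    rw [pt_eq]
  rw [h2, h]
  refine setIntegral_congr_fun (Reg_open T).measurableSet fun s _ => ?_
  exact G_den β s

/-- the number of `a`-points -/
noncomputable def cnt (T : ℝ) (a : ℂ) : ℕ := Set.ncard {s : ℂ | s ∈ Reg T ∧ riemannZeta s = a}

lemma count_eq (T : ℝ) (a : ℂ) :
    Measure.count {s : ℂ | s ∈ Reg T ∧ riemannZeta s = a} = (cnt T a : ENNReal) := by
  have h := finite_pts T a
  rw [Measure.count_apply_finite _ h]
  unfold cnt
  rw [Set.ncard_eq_toFinset_card _ h]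

lemma count_form (β T : ℝ) :
    AEStronglyMeasurable (fun a : ℂ => ‖a‖ ^ (β - 2) * (cnt T a : ℝ)) volume ∧
    ∫⁻ s in Reg T, ENNReal.ofReal (den β s) = ∫⁻ a : ℂ, ENNReal.ofReal (‖a‖ ^ (β - 2) * (cnt T a : ℝ)) := by
  have hm : Measurable fun a : ℂ => ‖a‖ ^ (β - 2) := by fun_prop
  obtain ⟨h1, h2⟩ := area_count (Reg_open T) riemannZeta (zeta_UH.mono (Reg_sub T))
    (fun a => ENNReal.ofReal (‖a‖ ^ (β - 2))) hm.ennreal_ofReal
  simp_rw [count_eq] at h1 h2
  constructor
  · have h3 := h1.ennreal_toReal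
    simp only [ENNReal.toReal_natCast] at h3
    exact (hm.aemeasurable.mul h3).aestronglyMeasurable
  · have e1 : ∀ s : ℂ, ENNReal.ofReal (den β s) =
        ENNReal.ofReal (‖deriv riemannZeta s‖ ^ 2) * ENNReal.ofReal (‖riemannZeta s‖ ^ (β - 2)) := by
      intro s
      unfold den
      rw [ENNReal.ofReal_mul (by positivity), mul_comm]
    have e2 : ∀ a : ℂ, ENNReal.ofReal (‖a‖ ^ (β - 2) * (cnt T a : ℝ)) =
        ENNReal.ofReal (‖a‖ ^ (β - 2)) * (cnt T a : ENNReal) := by
      intro a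
      rw [ENNReal.ofReal_mul (by positivity), ENNReal.ofReal_natCast]
    simp_rw [e1, e2]
    exact h2

theorem count_int {β : ℝ} (hβ : 0 < β) (T : ℝ) :
    Integrable (fun a : ℂ => ‖a‖ ^ (β - 2) * (cnt T a : ℝ)) ∧
    ∫ s in Reg T, den β s = ∫ a : ℂ, ‖a‖ ^ (β - 2) * (cnt T a : ℝ) := by
  obtain ⟨h1, h2⟩ := count_form β T
  have hd := den_int hβ T
  have nn1 : 0 ≤ᵐ[volume.restrict (Reg T)] den β := Eventually.of_forall fun s => by
    show 0 ≤ den β s
    unfold den; positivity
  have nn2 : 0 ≤ᵐ[volume] fun a : ℂ => ‖a‖ ^ (β - 2) * (cnt T a : ℝ) := Eventually.of_forall fun a => by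
    show 0 ≤ ‖a‖ ^ (β - 2) * (cnt T a : ℝ)
    positivity
  have hfin : ∫⁻ s in Reg T, ENNReal.ofReal (den β s) < ∞ := by
    have := hd.2
    rwa [hasFiniteIntegral_iff_ofReal nn1] at this
  refine ⟨⟨h1, ?_⟩, ?_⟩
  · rw [hasFiniteIntegral_iff_ofReal nn2, ← h2]
    exact hfin
  · rw [integral_eq_lintegral_of_nonneg_ae nn1 hd.1, integral_eq_lintegral_of_nonneg_ae nn2 h1, h2]

/-- the moment of the problem -/
noncomputable def aT (β x T : ℝ) : ℝ :=
  ∫ v in (0:ℝ)..1, ‖riemannZeta (1 / 2 + x * Complex.I + (v * T) * Complex.I)‖ ^ β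

lemma shift_lim {F : ℝ → ℝ} {c r : ℝ} (x : ℝ) (h : Tendsto (fun T => F T / nu 1 r T) atTop (𝓝 c)) :
    Tendsto (fun T => F (T + x) / nu 1 r T) atTop (𝓝 c) := by
  have htop : Tendsto (fun T : ℝ => T + x) atTop atTop := tendsto_atTop_add_const_right _ _ tendsto_id
  have h1 := h.comp htop
  have h2 : Tendsto (fun T : ℝ => (T + x) / T) atTop (𝓝 1) := by
    have : Tendsto (fun T : ℝ => 1 + x / T) atTop (𝓝 (1 + 0)) :=
      (Tendsto.div_atTop tendsto_const_nhds tendsto_id).const_add 1
    rw [add_zero] at this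
    refine this.congr' ?_
    filter_upwards [eventually_gt_atTop 0] with T hT
    field_simp
  have h3 : Tendsto (fun T : ℝ => Real.log (T + x) / Real.log T) atTop (𝓝 1) := by
    have k1 : Tendsto (fun T : ℝ => Real.log ((T + x) / T)) atTop (𝓝 (Real.log 1)) :=
      (Real.continuousAt_log one_ne_zero).tendsto.comp h2
    rw [Real.log_one] at k1
    have k2 := (k1.div_atTop Real.tendsto_log_atTop).const_add 1
    rw [add_zero] at k2
    refine k2.congr' ?_
    filter_upwards [eventually_gt_atTop 1, htop.eventually_gt_atTop 0] with T hT hT2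
    have := Real.log_pos hT
    rw [Real.log_div hT2.ne' (by linarith)]
    field_simp
    ring
  have h4 := h3.rpow_const (p := r) (Or.inl one_ne_zero)
  rw [Real.one_rpow] at h4
  have h5 := (h1.mul h2).mul h4
  rw [mul_one, mul_one] at h5
  refine h5.congr' ?_
  filter_upwards [eventually_gt_atTop 1, htop.eventually_gt_atTop 1] with T hT hT2
  have k1 := Real.log_pos hT
  have k2 := Real.log_pos hT2
  simp only [Function.comp]
  rw [Real.div_rpow k2.le k1.le]
  unfold nu
  have k3 := Real.rpow_pos_of_pos k1 r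
  have k4 := Real.rpow_pos_of_pos k2 r
  have hT0 : 0 < T := by linarith
  have hT3 : 0 < T + x := by linarith
  rw [pow_one, pow_one]
  field_simp

lemma aT_eq {β : ℝ} (x : ℝ) {T : ℝ} (hT : 0 < T) :
    T * aT β x T = ∫ t in x..(T + x), ph (β / 2) t := by
  unfold aT
  have h5 := intervalIntegral.integral_comp_mul_add (a := (0:ℝ)) (b := 1)
    (fun t => ph (β / 2) t) hT.ne' x
  rw [mul_zero, zero_add, mul_one, smul_eq_mul] at h5
  have e : ∫ v in (0:ℝ)..1, ‖riemannZeta (1 / 2 + x * Complex.I + (v * T) * Complex.I)‖ ^ β =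
      ∫ v in (0:ℝ)..1, ph (β / 2) (T * v + x) := by
    refine intervalIntegral.integral_congr fun v _ => ?_
    show _ = ph (β / 2) (T * v + x)
    unfold ph pt
    rw [show 2 * (β / 2) = β by ring]
    congr 3
    push_cast
    ring
  rw [e, h5]
  field_simp

theorem moment_iff {β : ℝ} (hβ : 0 < β) (x c r : ℝ) :
    Tendsto (fun T => aT β x T / Real.log T ^ r) atTop (𝓝 c) ↔
      Tendsto (fun T => MM (ph (β / 2)) T / nu 1 r T) atTop (𝓝 c) := by
  have hκ : 0 < β / 2 := by positivity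
  have hc := ph_cont hκ
  set K := ∫ t in x..(2:ℝ), ph (β / 2) t with hK
  have hsplit : ∀ T : ℝ, 0 < T → 2 ≤ T + x → T * aT β x T = K + MM (ph (β / 2)) (T + x) := by
    intro T hT hTx
    rw [aT_eq x hT, MM_eq hTx, hK, intervalIntegral.integral_add_adjacent_intervals
      (hc.intervalIntegrable _ _) (hc.intervalIntegrable _ _)]
  have hconst : Tendsto (fun T => K / nu 1 r T) atTop (𝓝 0) := by
    refine Tendsto.div_atTop tendsto_const_nhds ?_
    have h3 : (fun T : ℝ => Real.log T ^ (-r)) =o[atTop] fun T : ℝ => T ^ (1:ℝ) :=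
      isLittleO_log_rpow_rpow_atTop (-r) one_pos
    have h4 := h3.tendsto_div_nhds_zero
    have h5 : Tendsto (fun T : ℝ => Real.log T ^ (-r) / T ^ (1:ℝ)) atTop (𝓝[>] 0) := by
      rw [tendsto_nhdsWithin_iff]
      refine ⟨h4, ?_⟩
      filter_upwards [eventually_gt_atTop 1] with T hT
      have := Real.rpow_pos_of_pos (Real.log_pos hT) (-r)
      have hT0 : 0 < T := by linarith
      rw [mem_Ioi]
      positivity
    have h6 := h5.inv_tendsto_nhdsGT_zero
    refine h6.congr' ?_
    filter_upwards [eventually_gt_atTop 1] with T hT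
    unfold nu
    simp only [Pi.inv_apply]
    rw [Real.rpow_neg (Real.log_pos hT).le, Real.rpow_one, inv_div, pow_one, div_inv_eq_mul]
  have htop : ∀ y : ℝ, Tendsto (fun T : ℝ => T + y) atTop atTop := fun y =>
    tendsto_atTop_add_const_right _ _ tendsto_id
  constructor
  · intro h
    have h1 : Tendsto (fun T => (T * aT β x T) / nu 1 r T) atTop (𝓝 c) := by
      refine h.congr' ?_
      filter_upwards [eventually_gt_atTop 1] with T hT
      have := Real.rpow_pos_of_pos (Real.log_pos hT) r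
      unfold nu
      rw [pow_one]
      have hT0 : 0 < T := by linarith
      field_simp
    have h2 := shift_lim (F := fun T => T * aT β x T) (-x) h1
    have h3 := h2.sub hconst
    rw [sub_zero] at h3
    refine h3.congr' ?_
    filter_upwards [(htop (-x)).eventually_gt_atTop 0, eventually_ge_atTop 2] with T hT hT2
    rw [hsplit (T + -x) hT (by linarith), show T + -x + x = T by ring, ← sub_div]
    congr 1
    ring
  · intro h
    have h1 := (shift_lim x h).add hconst
    rw [add_zero] at h1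
    refine h1.congr' ?_
    filter_upwards [eventually_gt_atTop 1, (htop x).eventually_ge_atTop 2] with T hT hT2
    have hT0 : 0 < T := by linarith
    rw [← add_div, add_comm, ← hsplit T hT0 hT2]
    have := Real.rpow_pos_of_pos (Real.log_pos hT) r
    unfold nu
    rw [pow_one]
    field_simp

theorem final {β : ℝ} (hβ : 0 < β) (x c : ℝ) :
    Tendsto (fun T => aT β x T / Real.log T ^ (β ^ 2 / 4)) atTop (𝓝 c) ↔
      Tendsto (fun T => (∫ a : ℂ, ‖a‖ ^ (β - 2) * (cnt T a : ℝ)) / (T * Real.log T ^ (β ^ 2 / 4 + 1))) atTop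
        (𝓝 (c / (2 * β))) := by
  rw [moment_iff hβ]
  have h := core (κ := β / 2) (by positivity) c
  rw [show (β / 2) ^ 2 = β ^ 2 / 4 by ring] at h
  rw [h]
  have e1 : ∀ T, AA (β / 2) T = β ^ 2 * ∫ a : ℂ, ‖a‖ ^ (β - 2) * (cnt T a : ℝ) := fun T => by
    rw [AA_den, (count_int hβ T).2]
  have e2 : ∀ T, (∫ a : ℂ, ‖a‖ ^ (β - 2) * (cnt T a : ℝ)) / (T * Real.log T ^ (β ^ 2 / 4 + 1)) =
      1 / β ^ 2 * (AA (β / 2) T / nu 1 (β ^ 2 / 4 + 1) T) := fun T => by
    rw [e1]
    unfold nu
    rw [pow_one]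
    field_simp
  constructor
  · intro h1
    have h2 := h1.const_mul (1 / β ^ 2)
    rw [show 1 / β ^ 2 * (β / 2 * c) = c / (2 * β) by field_simp] at h2
    refine h2.congr fun T => (e2 T).symm
  · intro h1
    have h2 := h1.const_mul (β ^ 2)
    rw [show β ^ 2 * (c / (2 * β)) = β / 2 * c by field_simp] at h2
    refine h2.congr fun T => ?_
    rw [e2]
    field_simp

end Pool.Agent.X82.Area
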