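import Mathlib
import Pool.Agent.W184.Const

set_option autoImplicit false

/-! Moments of order `2/v`: uniform explicit bounds and the profile at the distance `λ / log T`. -/

namespace Pool.Agent.X82.Recip

open MeasureTheory Filter Topology Pool.Agent.H306R2 Pool.Agent.W184

noncomputable section

/-- the constant `a(1/v) / Γ(1/v² + 1)` -/
def Av (v : ℕ) : ℝ := aF (1 / (v:ℝ)) / Real.Gamma ((1 / (v:ℝ)) ^ 2 + 1)

lemma Av_pos {v : ℕ} (hv : 2 ≤ v) : 0 < Av v := by
  have hv0 : (0:ℝ) < v := by exact_mod_cast (by omega : 0 < v)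
  have hκ : 0 < 1 / (v:ℝ) := by positivity
  have hA := aF_pos hκ
  have hG : 0 < Real.Gamma ((1 / (v:ℝ)) ^ 2 + 1) := Real.Gamma_pos_of_pos (by positivity)
  unfold Av
  positivity

/-- upper bound for all `v` -/
theorem upper_all {v : ℕ} (hv : 2 ≤ v) :
    ∀ᶠ T : ℝ in atTop, ∫ t in (0:ℝ)..T, zn (1 / 2) t ^ (2 / (v:ℝ)) ≤ 121 / 25 * Av v * MM v T := by
  have hv0 : (0:ℝ) < v := by exact_mod_cast (by omega : 0 < v)
  have h := upper' (v := v) (δ := 9 / 10 * v) (C := 121 / 25) hv (by positivity) (by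
    have e1 : 9 / 10 * (v:ℝ) / v = 9 / 10 := by field_simp
    rw [e1]
    have h0 : hI ((1 / (v:ℝ)) ^ 2) (2 * (9 / 10 * v)) ≤ 1 := hI_le_one (by positivity) (by positivity)
    have h2 := exp_up (u := 9 / 10) (by norm_num) 8 (by decide)
    have h3 := exp_lo (u := 9 / 10) (by norm_num) 9 (by decide)
    simp only [Finset.sum_range_succ, Finset.sum_range_zero, Nat.factorial] at h2 h3
    have h4 : Real.exp (9 / 10) = (Real.exp (-(9 / 10)))⁻¹ := by rw [Real.exp_neg, inv_inv]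
    rw [h4]
    set q := Real.exp (-(9 / 10)) with hq
    have hq0 : 0 < q := Real.exp_pos _
    have key : 1 + q ^ 2 < 121 / 25 * (q - q ^ 2) := by
      norm_num at h2 h3
      nlinarith
    have e2 : q⁻¹ * 1 + q = (1 + q ^ 2) / q := by field_simp
    calc q⁻¹ * hI ((1 / (v:ℝ)) ^ 2) (2 * (9 / 10 * v)) + q ≤ q⁻¹ * 1 + q := by gcongr
      _ = (1 + q ^ 2) / q := e2
      _ < 121 / 25 * (1 - q) := by
        rw [div_lt_iff₀ hq0]
        calc 1 + q ^ 2 < 121 / 25 * (q - q ^ 2) := key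
          _ = _ := by ring)
  filter_upwards [h] with T hT
  refine hT.trans (le_of_eq ?_)
  unfold Av
  ring

/-- a lower bound for `hI` -/
lemma hI_ge {s a y : ℝ} (hs : 0 < s) (ha : 0 ≤ a) (hy : 0 < y) (hy1 : y ≤ 1) :
    y ^ s * Real.exp (-(a * y)) ≤ hI s a := by
  unfold hI
  have i1 : ∀ c d : ℝ, IntervalIntegrable (fun x : ℝ => s * x ^ (s - 1) * Real.exp (-(a * x))) volume c d :=
    fun c d => (rpow_ii hs c d).mul_continuousOn (by fun_prop)
  rw [← intervalIntegral.integral_add_adjacent_intervals (i1 0 y) (i1 y 1)]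
  have h1 : 0 ≤ ∫ x in y..1, s * x ^ (s - 1) * Real.exp (-(a * x)) := by
    refine intervalIntegral.integral_nonneg hy1 fun x hx => ?_
    have : 0 ≤ x := hy.le.trans hx.1
    positivity
  have h2 : ∫ x in (0:ℝ)..y, s * x ^ (s - 1) * Real.exp (-(a * y)) ≤
      ∫ x in (0:ℝ)..y, s * x ^ (s - 1) * Real.exp (-(a * x)) := by
    refine intervalIntegral.integral_mono_on hy.le ((rpow_ii hs 0 y).mul_const _) (i1 0 y) fun x hx => ?_
    have : 0 ≤ x := hx.1
    refine mul_le_mul_of_nonneg_left ?_ (by positivity)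
    apply Real.exp_le_exp.mpr
    have := mul_le_mul_of_nonneg_left hx.2 ha
    linarith
  have h3 : ∫ x in (0:ℝ)..y, s * x ^ (s - 1) * Real.exp (-(a * y)) = y ^ s * Real.exp (-(a * y)) := by
    rw [intervalIntegral.integral_mul_const, intervalIntegral.integral_const_mul, integral_rpow (Or.inl (by linarith))]
    rw [show s - 1 + 1 = s by ring, Real.zero_rpow hs.ne']
    field_simp
    ring
  linarith

/-- lower bound for all `v` -/
theorem lower_all {v : ℕ} (hv : 2 ≤ v) :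
    ∀ᶠ T : ℝ in atTop, 501 / 1000 * Av v * MM v T ≤ ∫ t in (0:ℝ)..T, zn (1 / 2) t ^ (2 / (v:ℝ)) := by
  rcases hv.eq_or_lt with h2 | h3
  · subst h2
    filter_upwards [first_lower, eventually_gt_atTop 1] with T hT hT1
    refine le_trans ?_ hT
    have h1 := Av_pos le_rfl
    have h2 := MM_pos (v := 2) hT1
    have e : 64 / 125 * aF (1 / ((2:ℕ):ℝ)) / Real.Gamma ((1 / ((2:ℕ):ℝ)) ^ 2 + 1) * MM 2 T = 64 / 125 * Av 2 * MM 2 T := by
      unfold Av; ring
    rw [e]
    have : 0 < Av 2 * MM 2 T := mul_pos h1 h2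
    nlinarith
  · have hv3 : 3 ≤ v := h3
    have hv0 : (0:ℝ) < v := by exact_mod_cast (by omega : 0 < v)
    have hvr : (3:ℝ) ≤ v := by exact_mod_cast hv3
    have h := lower' (v := v) (δ := 2 * v) (c := 501 / 1000) hv (by positivity) (by
      have e1 : 2 * (2 * (v:ℝ)) / v = 4 := by field_simp; norm_num
      rw [e1]
      have h0 := hI_ge (s := (1 / (v:ℝ)) ^ 2) (a := 2 * (2 * v)) (y := 1 / (4 * (v:ℝ) ^ 3)) (by positivity)
        (by positivity) (by positivity) (by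
          rw [div_le_one (by positivity)]
          have : (1:ℝ) ≤ (v:ℝ) ^ 3 := one_le_pow₀ (by linarith)
          linarith)
      have e2 : (1 / (4 * (v:ℝ) ^ 3)) ^ ((1 / (v:ℝ)) ^ 2) * Real.exp (-(2 * (2 * v) * (1 / (4 * (v:ℝ) ^ 3)))) =
          Real.exp (-((1 + 2 * Real.log 2 + 3 * Real.log v) / (v:ℝ) ^ 2)) := by
        rw [Real.rpow_def_of_pos (by positivity), ← Real.exp_add]
        congr 1
        rw [one_div, Real.log_inv, Real.log_mul (by norm_num) (by positivity), Real.log_pow,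
          show (4:ℝ) = 2 ^ 2 by norm_num, Real.log_pow]
        push_cast
        field_simp
        ring
      rw [e2] at h0
      have hlog3 : Real.log 3 ≤ 8 / 5 * Real.log 2 := by
        have h5 : (5:ℝ) * Real.log 3 ≤ 8 * Real.log 2 := by
          have := Real.log_le_log (by norm_num) (show (3:ℝ) ^ 5 ≤ 2 ^ 8 by norm_num)
          rw [Real.log_pow, Real.log_pow] at this
          exact_mod_cast this
        linarith
      have hlogv : Real.log v ≤ Real.log 3 + (v / 3 - 1) := by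
        have h5 : Real.log v = Real.log 3 + Real.log (v / 3) := by
          rw [← Real.log_mul (by norm_num) (by positivity)]
          congr 1; field_simp
        have h6 := Real.log_le_sub_one_of_pos (show (0:ℝ) < v / 3 by positivity)
        linarith
      have hl2 := Real.log_two_lt_d9
      have h7 : (1 + 2 * Real.log 2 + 3 * Real.log v) / (v:ℝ) ^ 2 ≤ 127 / 200 := by
        rw [div_le_iff₀ (by positivity)]
        nlinarith
      have h8 : Real.exp (-(127 / 200)) ≤ hI ((1 / (v:ℝ)) ^ 2) (2 * (2 * v)) := by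
        refine le_trans (Real.exp_le_exp.mpr ?_) h0
        linarith
      have h9 := exp_lo (u := 127 / 200) (by norm_num) 7 (by decide)
      have h10 := exp_up (u := 4) (by norm_num) 20 (by decide)
      simp only [Finset.sum_range_succ, Finset.sum_range_zero, Nat.factorial] at h9 h10
      norm_num at h9 h10
      linarith)
    filter_upwards [h] with T hT
    refine le_trans (le_of_eq ?_) hT
    unfold Av
    ring

/-- the profile -/
theorem profile {v : ℕ} (hv : 2 ≤ v) {δ C C' : ℝ} (hδ : 0 < δ) (hCC : C + 1 < C')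
    (hC : ∀ᶠ T : ℝ in atTop, ∫ t in (0:ℝ)..T, zn (1 / 2) t ^ (2 / (v:ℝ)) ≤ C * Av v * MM v T) :
    ∀ᶠ T : ℝ in atTop, |(∫ t in (0:ℝ)..T, zn (1 / 2 + δ / Real.log T) t ^ (2 / (v:ℝ))) -
      Av v * hI ((1 / (v:ℝ)) ^ 2) (2 * δ) * MM v T| ≤ C' * Av v * Real.exp (-(2 / (v:ℝ) * δ)) * MM v T := by
  have hv0 : (0:ℝ) < v := by exact_mod_cast (by omega : 0 < v)
  have hκ : 0 < 1 / (v:ℝ) := by positivity
  have hA := Av_pos hv
  have ha : ∀ d : ℝ, aF (1 / (v:ℝ)) * gI (1 / (v:ℝ)) d = Av v * hI ((1 / (v:ℝ)) ^ 2) (2 * d) := by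
    intro d
    rw [gI_eq hκ]; unfold Av; ring
  have ha0 : aF (1 / (v:ℝ)) * gI (1 / (v:ℝ)) 0 = Av v := by
    rw [ha, mul_zero, hI_zero (by positivity), mul_one]
  set E2 : ℝ := Real.exp (-(2 / (v:ℝ) * δ)) with hE2
  have hE20 : 0 < E2 := Real.exp_pos _
  set Φ : ℝ → ℝ := fun η => (E2 + η) * ((C + 1) * Av v + 2 * η) + η with hΦ
  have hΦ0 : Φ 0 < C' * Av v * E2 := by
    simp only [hΦ]
    have : 0 < Av v * E2 := mul_pos hA hE20
    nlinarith
  have hcont : ContinuousAt Φ 0 := by simp only [hΦ]; fun_prop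
  have h1 : ∀ᶠ η in 𝓝[>] (0:ℝ), Φ η < C' * Av v * E2 :=
    (hcont.eventually (gt_mem_nhds hΦ0)).filter_mono nhdsWithin_le_nhds
  obtain ⟨η, hη1, hη⟩ := (h1.and self_mem_nhdsWithin).exists
  have hη0 : 0 < η := hη
  have hS0 := S_ev hv (le_refl (0:ℝ)) hη0
  simp only [zero_div, add_zero] at hS0
  filter_upwards [half_ev_S hv hδ hη0, S_ev hv hδ.le hη0, hS0, hC,
    eventually_gt_atTop 1, (delta_tendsto δ).eventually (gt_mem_nhds (show (0:ℝ) < 1/8 by norm_num))]
    with T r2 r3 r4 rC r5 r6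
  obtain ⟨-, -, k3, k4⟩ := kv hv
  have hT0 : 0 < T := by linarith
  have hM := MM_pos (v := v) r5
  have hL := Real.log_pos r5
  set Δ := δ / Real.log T with hΔ
  have hΔ0 : 0 < Δ := by positivity
  have cz := zp_cont (σ := 1 / 2 + Δ) (p := 2 / (v:ℝ)) (by linarith) k3
  have cz0 := zp_cont (σ := 1 / 2) (p := 2 / (v:ℝ)) (by norm_num) k3
  have cq := qn_cont (QQ_diff (v := v) T) (p := 2 / (v:ℝ)) (σ := 1 / 2 + Δ) k3 (by linarith)
  have cq0 := qn_cont (QQ_diff (v := v) T) (p := 2 / (v:ℝ)) (σ := 1 / 2) k3 (by norm_num)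
  have t1 := int_add_le cz (sn_cont T (1 / 2 + Δ)) cq hT0.le (tri1 hv T (1 / 2 + Δ))
  have t2 := int_add_le cq0 cz0 (sn_cont T (1 / 2)) hT0.le (tri2 hv T (1 / 2))
  have t3 := int_add_le (sn_cont T (1 / 2 + Δ)) cz cq hT0.le (tri3 hv T (1 / 2 + Δ))
  rw [ha] at r3
  rw [ha0] at r4
  set Z0 := ∫ t in (0:ℝ)..T, zn (1 / 2) t ^ (2 / (v:ℝ))
  set Z1 := ∫ t in (0:ℝ)..T, zn (1 / 2 + Δ) t ^ (2 / (v:ℝ))
  set D0 := ∫ t in (0:ℝ)..T, qn (QQ v T) (2 / (v:ℝ)) (1 / 2) t
  set D1 := ∫ t in (0:ℝ)..T, qn (QQ v T) (2 / (v:ℝ)) (1 / 2 + Δ) t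
  set S0 := ∫ t in (0:ℝ)..T, sn v T (1 / 2) t
  set S1 := ∫ t in (0:ℝ)..T, sn v T (1 / 2 + Δ) t
  set M := MM v T
  have s1 : D1 ≤ (E2 + η) * (((C + 1) * Av v + 2 * η) * M) := by
    refine r2.trans (mul_le_mul_of_nonneg_left ?_ (by positivity))
    linarith [r4.1]
  have s2 : D1 + η * M ≤ Φ η * M := by
    simp only [hΦ]; nlinarith
  have s3 : Φ η * M ≤ C' * Av v * E2 * M := mul_le_mul_of_nonneg_right hη1.le hM.le
  rw [abs_le]
  constructor
  · linarith [r3.2]
  · linarith [r3.1]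

end

end Pool.Agent.X82.Recip
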