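import Mathlib

set_option autoImplicit false

/-! Convergence of moment generating functions to the Gaussian one implies weak convergence, and convergence of the
integrals of all continuous functions of at most exponential growth. -/

open MeasureTheory ProbabilityTheory Filter Topology
open scoped NNReal ENNReal

namespace Pool.Agent.X82.Curt

noncomputable section

/-- clamp -/
def cl (R y : ℝ) : ℝ := max (-R) (min y R)

lemma cl_cont (R : ℝ) : Continuous (cl R) := by unfold cl; fun_prop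

lemma cl_bound {R : ℝ} (hR : 0 ≤ R) (y : ℝ) : |cl R y| ≤ R := by
  unfold cl
  rw [abs_le]
  constructor
  · exact le_max_left _ _
  · exact max_le (by linarith) (min_le_right _ _)

lemma cl_diff {R : ℝ} (hR : 0 < R) (y : ℝ) : |y - cl R y| ≤ y ^ 2 / R := by
  unfold cl
  rw [le_div_iff₀ hR]
  rcases le_total y R with h1 | h1
  · rw [min_eq_left h1]
    rcases le_total (-R) y with h2 | h2
    · rw [max_eq_right h2]
      simp only [sub_self, abs_zero, zero_mul]
      positivity
    · rw [max_eq_left h2]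
      have h3 : y - -R ≤ 0 := by linarith
      rw [abs_of_nonpos h3]
      nlinarith
  · rw [min_eq_right h1, max_eq_right (by linarith)]
    rw [abs_of_nonneg (by linarith)]
    nlinarith

/-- the clamped function as a bounded continuous function -/
def bc (φ : ℝ → ℝ) (hφ : Continuous φ) (R : ℝ) (hR : 0 ≤ R) : BoundedContinuousFunction ℝ ℝ :=
  BoundedContinuousFunction.ofNormedAddCommGroup (fun x => cl R (φ x)) ((cl_cont R).comp hφ) R
    (fun x => by rw [Real.norm_eq_abs]; exact cl_bound hR _)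

lemma bc_apply (φ : ℝ → ℝ) (hφ : Continuous φ) (R : ℝ) (hR : 0 ≤ R) (x : ℝ) : bc φ hφ R hR x = cl R (φ x) := rfl

/-- Fatou for the exponentials -/
lemma fatou {ι : Type*} {l : Filter ι} [l.NeBot] {ρ : ι → ProbabilityMeasure ℝ} {ρ₀ : ProbabilityMeasure ℝ}
    (h : Tendsto ρ l (𝓝 ρ₀)) {s K : ℝ}
    (hb : ∀ᶠ i in l, Integrable (fun x => Real.exp (s * x)) (ρ i : Measure ℝ) ∧
      ∫ x, Real.exp (s * x) ∂(ρ i : Measure ℝ) ≤ K) :
    Integrable (fun x => Real.exp (s * x)) (ρ₀ : Measure ℝ) ∧ ∫ x, Real.exp (s * x) ∂(ρ₀ : Measure ℝ) ≤ K := by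
  rw [ProbabilityMeasure.tendsto_iff_forall_integral_tendsto] at h
  have hc : Continuous fun x : ℝ => Real.exp (s * x) := by fun_prop
  have h1 : ∀ n : ℕ, ∫ x, cl n (Real.exp (s * x)) ∂(ρ₀ : Measure ℝ) ≤ K := by
    intro n
    have h2 := h (bc _ hc n (Nat.cast_nonneg n))
    refine le_of_tendsto h2 ?_
    filter_upwards [hb] with i hi
    refine le_trans (integral_mono ?_ hi.1 ?_) hi.2
    · exact (bc _ hc n (Nat.cast_nonneg n)).integrable _
    · intro x
      show cl n (Real.exp (s * x)) ≤ Real.exp (s * x)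
      unfold cl
      refine max_le ?_ (min_le_left _ _)
      have := Real.exp_pos (s * x)
      have hn : (0:ℝ) ≤ n := Nat.cast_nonneg n
      linarith
  have hK : 0 ≤ K := by
    obtain ⟨i, hi⟩ := hb.exists
    exact le_trans (integral_nonneg fun x => (Real.exp_pos _).le) hi.2
  have h3 : ∫⁻ x, ENNReal.ofReal (Real.exp (s * x)) ∂(ρ₀ : Measure ℝ) ≤ ENNReal.ofReal K := by
    have e1 : ∀ x : ℝ, ENNReal.ofReal (Real.exp (s * x)) = ⨆ n : ℕ, ENNReal.ofReal (cl n (Real.exp (s * x))) := by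
      intro x
      have hp := Real.exp_pos (s * x)
      apply le_antisymm
      · obtain ⟨n, hn⟩ := exists_nat_ge (Real.exp (s * x))
        refine le_iSup_of_le n ?_
        apply ENNReal.ofReal_le_ofReal
        unfold cl
        rw [min_eq_left hn]
        exact le_max_right _ _
      · refine iSup_le fun n => ENNReal.ofReal_le_ofReal ?_
        unfold cl
        refine max_le ?_ (min_le_left _ _)
        have hn : (0:ℝ) ≤ n := Nat.cast_nonneg n
        linarith
    calc ∫⁻ x, ENNReal.ofReal (Real.exp (s * x)) ∂(ρ₀ : Measure ℝ)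
        = ∫⁻ x, ⨆ n : ℕ, ENNReal.ofReal (cl n (Real.exp (s * x))) ∂(ρ₀ : Measure ℝ) := lintegral_congr e1
      _ = ⨆ n : ℕ, ∫⁻ x, ENNReal.ofReal (cl n (Real.exp (s * x))) ∂(ρ₀ : Measure ℝ) := by
          refine lintegral_iSup (fun n => ?_) ?_
          · exact (((cl_cont n).comp hc).measurable).ennreal_ofReal
          · intro m n hmn x
            apply ENNReal.ofReal_le_ofReal
            unfold cl
            have hp := Real.exp_pos (s * x)
            have hm : (m:ℝ) ≤ n := by exact_mod_cast hmn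
            have hm0 : (0:ℝ) ≤ m := Nat.cast_nonneg m
            rw [max_eq_right (by apply le_min <;> linarith), max_eq_right (by apply le_min <;> linarith)]
            exact min_le_min le_rfl hm
      _ ≤ ENNReal.ofReal K := by
          refine iSup_le fun n => ?_
          have hi : Integrable (fun x => cl n (Real.exp (s * x))) (ρ₀ : Measure ℝ) :=
            (bc _ hc n (Nat.cast_nonneg n)).integrable _
          have hnn : ∀ x : ℝ, 0 ≤ cl n (Real.exp (s * x)) := fun x => by
            unfold cl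
            exact le_trans (le_min (Real.exp_pos _).le (Nat.cast_nonneg n)) (le_max_right _ _)
          rw [← ofReal_integral_eq_lintegral_ofReal hi (Eventually.of_forall hnn)]
          exact ENNReal.ofReal_le_ofReal (h1 n)
  have hint : Integrable (fun x => Real.exp (s * x)) (ρ₀ : Measure ℝ) := by
    refine ⟨hc.aestronglyMeasurable, ?_⟩
    rw [hasFiniteIntegral_iff_ofReal (Eventually.of_forall fun x => (Real.exp_pos _).le)]
    exact lt_of_le_of_lt h3 ENNReal.ofReal_lt_top
  refine ⟨hint, ?_⟩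
  have h4 := ofReal_integral_eq_lintegral_ofReal hint (Eventually.of_forall fun x => (Real.exp_pos _).le)
  rw [← h4] at h3
  exact (ENNReal.ofReal_le_ofReal_iff hK).mp h3

lemma exp_abs_le (C x : ℝ) : Real.exp (C * |x|) ≤ Real.exp (C * x) + Real.exp (-C * x) := by
  rcases abs_cases x with ⟨h, _⟩ | ⟨h, _⟩ <;> rw [h]
  · linarith [Real.exp_pos (-C * x)]
  · rw [show C * -x = -C * x by ring]; linarith [Real.exp_pos (C * x)]

lemma growth_int {μ : Measure ℝ} {φ : ℝ → ℝ} (hφ : Continuous φ) {C : ℝ} 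
    (hC : ∀ x, |φ x| ≤ C * Real.exp (C * |x|))
    (h1 : Integrable (fun x => Real.exp (C * x)) μ) (h2 : Integrable (fun x => Real.exp (-C * x)) μ) :
    Integrable φ μ := by
  refine Integrable.mono' ((h1.add h2).const_mul C) hφ.aestronglyMeasurable (Eventually.of_forall fun x => ?_)
  rw [Real.norm_eq_abs]
  have hC0 : 0 ≤ C := by
    by_contra hneg
    have := hC 0
    have h3 := abs_nonneg (φ 0)
    have h4 := Real.exp_pos (C * |0|)
    nlinarith
  refine (hC x).trans (mul_le_mul_of_nonneg_left (exp_abs_le C x) hC0)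

/-- the difference to the clamped function -/
lemma clamp_err {μ : Measure ℝ} [IsProbabilityMeasure μ] {φ : ℝ → ℝ} (hφ : Continuous φ) {C : ℝ} (hC0 : 0 ≤ C)
    (hC : ∀ x, |φ x| ≤ C * Real.exp (C * |x|)) {K R : ℝ} (hR : 0 < R)
    (h1 : Integrable (fun x => Real.exp (C * x)) μ) (h2 : Integrable (fun x => Real.exp (-C * x)) μ)
    (h3 : Integrable (fun x => Real.exp (2 * C * x)) μ) (h4 : Integrable (fun x => Real.exp (-(2 * C) * x)) μ)
    (k3 : ∫ x, Real.exp (2 * C * x) ∂μ ≤ K) (k4 : ∫ x, Real.exp (-(2 * C) * x) ∂μ ≤ K) :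
    |(∫ x, φ x ∂μ) - ∫ x, cl R (φ x) ∂μ| ≤ C ^ 2 * (2 * K) / R := by
  have hi := growth_int hφ hC h1 h2
  have hib : Integrable (fun x => cl R (φ x)) μ := (bc φ hφ R hR.le).integrable _
  rw [← integral_sub hi hib]
  refine (abs_integral_le_integral_abs).trans ?_
  calc ∫ x, |φ x - cl R (φ x)| ∂μ ≤ ∫ x, C ^ 2 / R * (Real.exp (2 * C * x) + Real.exp (-(2 * C) * x)) ∂μ := by
        refine integral_mono (hi.sub hib).abs ((h3.add h4).const_mul _) fun x => ?_
        refine (cl_diff hR (φ x)).trans ?_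
        have e1 : φ x ^ 2 ≤ C ^ 2 * Real.exp (2 * C * |x|) := by
          rw [← sq_abs (φ x)]
          calc |φ x| ^ 2 ≤ (C * Real.exp (C * |x|)) ^ 2 := by
                exact pow_le_pow_left₀ (abs_nonneg _) (hC x) 2
            _ = C ^ 2 * Real.exp (2 * C * |x|) := by
                rw [mul_pow, ← Real.exp_nat_mul]; congr 2; push_cast; ring
        have e2 := exp_abs_le (2 * C) x
        calc φ x ^ 2 / R ≤ C ^ 2 * Real.exp (2 * C * |x|) / R := by gcongr
          _ = C ^ 2 / R * Real.exp (2 * C * |x|) := by ring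
          _ ≤ _ := by gcongr
    _ = C ^ 2 / R * ((∫ x, Real.exp (2 * C * x) ∂μ) + ∫ x, Real.exp (-(2 * C) * x) ∂μ) := by
        rw [integral_const_mul, integral_add h3 h4]
    _ ≤ C ^ 2 / R * (K + K) := by gcongr
    _ = C ^ 2 * (2 * K) / R := by ring

/-- weak convergence and bounded exponential moments: convergence for functions of exponential growth -/
theorem growth {ι : Type*} {l : Filter ι} [l.NeBot] {ρ : ι → ProbabilityMeasure ℝ} {ρ₀ : ProbabilityMeasure ℝ}
    (h : Tendsto ρ l (𝓝 ρ₀))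
    (hb : ∀ s : ℝ, ∃ K : ℝ, ∀ᶠ i in l, Integrable (fun x => Real.exp (s * x)) (ρ i : Measure ℝ) ∧
      ∫ x, Real.exp (s * x) ∂(ρ i : Measure ℝ) ≤ K)
    {φ : ℝ → ℝ} (hφ : Continuous φ) {C : ℝ} (hC : ∀ x, |φ x| ≤ C * Real.exp (C * |x|)) :
    Tendsto (fun i => ∫ x, φ x ∂(ρ i : Measure ℝ)) l (𝓝 (∫ x, φ x ∂(ρ₀ : Measure ℝ))) := by
  have hC0 : 0 ≤ C := by
    by_contra hneg
    have := hC 0
    have h3 := abs_nonneg (φ 0)
    have h4 := Real.exp_pos (C * |0|)
    nlinarith
  obtain ⟨K1, hK1⟩ := hb C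
  obtain ⟨K2, hK2⟩ := hb (-C)
  obtain ⟨K3, hK3⟩ := hb (2 * C)
  obtain ⟨K4, hK4⟩ := hb (-(2 * C))
  set K := max (max K3 K4) 1 with hK
  have f1 := fatou h hK1
  have f2 := fatou h hK2
  have f3 := fatou h hK3
  have f4 := fatou h hK4
  have hw := (ProbabilityMeasure.tendsto_iff_forall_integral_tendsto.mp h)
  rw [Metric.tendsto_nhds]
  intro ε hε
  -- choose R
  obtain ⟨R, hR0, hR⟩ : ∃ R : ℝ, 0 < R ∧ C ^ 2 * (2 * K) / R ≤ ε / 4 := by
    refine ⟨4 * (C ^ 2 * (2 * K) + 1) / ε, by positivity, ?_⟩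
    rw [div_le_iff₀ (by positivity)]
    have : ε / 4 * (4 * (C ^ 2 * (2 * K) + 1) / ε) = C ^ 2 * (2 * K) + 1 := by field_simp
    rw [this]; linarith
  have h5 := (Metric.tendsto_nhds.mp (hw (bc φ hφ R hR0.le))) (ε / 4) (by positivity)
  have kk3 : K3 ≤ K := (le_max_left _ _).trans (le_max_left _ _)
  have kk4 : K4 ≤ K := (le_max_right _ _).trans (le_max_left _ _)
  have e0 := clamp_err (μ := (ρ₀ : Measure ℝ)) hφ hC0 hC hR0 f1.1 f2.1 f3.1 f4.1 (f3.2.trans kk3) (f4.2.trans kk4)
  filter_upwards [hK1, hK2, hK3, hK4, h5] with i g1 g2 g3 g4 g5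
  have e1 := clamp_err (μ := (ρ i : Measure ℝ)) hφ hC0 hC hR0 g1.1 g2.1 g3.1 g4.1 (g3.2.trans kk3) (g4.2.trans kk4)
  rw [Real.dist_eq] at g5 ⊢
  simp only [bc_apply] at g5
  rw [abs_le] at e0 e1
  rw [abs_lt] at g5 ⊢
  constructor <;> linarith [e0.1, e0.2, e1.1, e1.2, g5.1, g5.2]

/-- the standard Gaussian law -/
def γ : ProbabilityMeasure ℝ := ⟨gaussianReal 0 1, inferInstance⟩

lemma eq_gauss {ρ : ProbabilityMeasure ℝ} (hi : ∀ s : ℝ, Integrable (fun x => Real.exp (s * x)) (ρ : Measure ℝ))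
    (h : ∀ s : ℝ, ∫ x, Real.exp (s * x) ∂(ρ : Measure ℝ) = Real.exp (s ^ 2 / 2)) : ρ = γ := by
  apply Subtype.ext
  show (ρ : Measure ℝ) = gaussianReal 0 1
  have hm : mgf id (ρ : Measure ℝ) = mgf id (gaussianReal 0 1) := by
    rw [mgf_id_gaussianReal]
    ext t
    unfold mgf
    simp only [id_eq]
    rw [h t]
    congr 1
    simp
  apply Measure.ext_of_complexMGF_id_eq
  have h1 := eqOn_complexMGF_of_mgf hm
  have hu : integrableExpSet id (ρ : Measure ℝ) = Set.univ := by
    ext t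
    simp only [Set.mem_univ, iff_true]
    exact hi t
  ext z
  apply h1
  rw [hu]
  simp

/-- **Curtiss' theorem** for the Gaussian law, along any filter -/
theorem curtiss {ι : Type*} {l : Filter ι} [l.NeBot] {ρ : ι → ProbabilityMeasure ℝ}
    (h : ∀ s : ℝ, Tendsto (fun i => ∫ x, Real.exp (s * x) ∂(ρ i : Measure ℝ)) l (𝓝 (Real.exp (s ^ 2 / 2)))) :
    Tendsto ρ l (𝓝 γ) ∧ ∀ φ : ℝ → ℝ, Continuous φ → (∃ C : ℝ, ∀ x, |φ x| ≤ C * Real.exp (C * |x|)) →
      Tendsto (fun i => ∫ x, φ x ∂(ρ i : Measure ℝ)) l (𝓝 (∫ x, φ x ∂(gaussianReal 0 1))) := by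
  have hb : ∀ s : ℝ, ∀ᶠ i in l, Integrable (fun x => Real.exp (s * x)) (ρ i : Measure ℝ) ∧
      ∫ x, Real.exp (s * x) ∂(ρ i : Measure ℝ) ≤ Real.exp (s ^ 2 / 2) + 1 := by
    intro s
    filter_upwards [(h s).eventually (gt_mem_nhds (show Real.exp (s ^ 2 / 2) < Real.exp (s ^ 2 / 2) + 1 by linarith)),
      (h s).eventually (lt_mem_nhds (Real.exp_pos (s ^ 2 / 2)))] with i h1 h2
    refine ⟨?_, h1.le⟩
    by_contra hni
    rw [integral_undef hni] at h2
    exact lt_irrefl _ h2
  have hw : Tendsto ρ l (𝓝 γ) := by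
    -- the compact set
    set K : ℝ := 2 * (Real.exp (1 / 2) + 1) with hK
    have hK0 : 0 < K := by positivity
    set u : ℕ → ℝ≥0 := fun n => Real.toNNReal (K * Real.exp (-n)) with hu
    have hu0 : Tendsto u atTop (𝓝 0) := by
      have h1 : Tendsto (fun n : ℕ => K * Real.exp (-(n:ℝ))) atTop (𝓝 (K * 0)) :=
        (Real.tendsto_exp_neg_atTop_nhds_zero.comp tendsto_natCast_atTop_atTop).const_mul K
      rw [mul_zero] at h1
      have h2 := (continuous_real_toNNReal.tendsto 0).comp h1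
      rw [Real.toNNReal_zero] at h2
      exact h2
    have hcomp := isCompact_setOfPred_probabilityMeasure_mass_eq_compl_isCompact_le (E := ℝ) (u := u)
      (K := fun n => Metric.closedBall (0:ℝ) n) hu0 (fun n => isCompact_closedBall _ _) (Or.inl inferInstance)
    refine hcomp.tendsto_nhds_of_unique_mapClusterPt ?_ ?_
    · filter_upwards [hb 1, hb (-1)] with i h1 h2 n
      have hn : (Metric.closedBall (0:ℝ) n)ᶜ = {x : ℝ | (n:ℝ) < |x|} := by
        ext x; simp [Real.norm_eq_abs]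
      rw [hn]
      have hg : Integrable (fun x => Real.exp (1 * x) + Real.exp (-1 * x)) (ρ i : Measure ℝ) := h1.1.add h2.1
      have h3 := mul_meas_ge_le_integral_of_nonneg (μ := (ρ i : Measure ℝ))
        (Eventually.of_forall fun x => by positivity : 0 ≤ᵐ[(ρ i : Measure ℝ)] fun x => Real.exp (1 * x) + Real.exp (-1 * x)) hg (Real.exp n)
      have h4 : {x : ℝ | (n:ℝ) < |x|} ⊆ {x : ℝ | Real.exp n ≤ Real.exp (1 * x) + Real.exp (-1 * x)} := by
        intro x hx
        simp only [Set.mem_ofPred_eq] at hx ⊢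
        have := exp_abs_le 1 x
        refine le_trans ?_ this
        apply Real.exp_le_exp.mpr
        linarith
      have h5 : (ρ i : Measure ℝ).real {x : ℝ | (n:ℝ) < |x|} ≤ K * Real.exp (-n) := by
        refine (measureReal_mono h4).trans ?_
        rw [integral_add h1.1 h2.1] at h3
        have h6 : Real.exp n * (ρ i : Measure ℝ).real {x : ℝ | Real.exp n ≤ Real.exp (1 * x) + Real.exp (-1 * x)} ≤ K := by
          refine h3.trans ?_
          have a1 := h1.2
          have a2 := h2.2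
          norm_num at a1 a2 ⊢
          rw [hK]
          norm_num
          linarith
        rw [Real.exp_neg, ← div_eq_mul_inv, le_div_iff₀ (Real.exp_pos _)]
        linarith
      show (ρ i) {x : ℝ | (n:ℝ) < |x|} ≤ Real.toNNReal (K * Real.exp (-n))
      rw [Real.le_toNNReal_iff_coe_le (by positivity)]
      exact h5
    · intro x _ hx
      rw [mapClusterPt_iff_ultrafilter] at hx
      obtain ⟨U, hU, hUx⟩ := hx
      have hb' : ∀ s : ℝ, ∃ K : ℝ, ∀ᶠ i in (U : Filter ι), Integrable (fun x => Real.exp (s * x)) (ρ i : Measure ℝ) ∧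
          ∫ x, Real.exp (s * x) ∂(ρ i : Measure ℝ) ≤ K := fun s => ⟨_, hU (hb s)⟩
      have hi : ∀ s : ℝ, Integrable (fun y => Real.exp (s * y)) (x : Measure ℝ) := fun s => by
        obtain ⟨K, hK⟩ := hb' s
        exact (fatou hUx hK).1
      refine eq_gauss hi fun s => ?_
      have h1 := growth hUx hb' (φ := fun y => Real.exp (s * y)) (by fun_prop) (C := max |s| 1) (fun y => by
        rw [abs_of_pos (Real.exp_pos _)]
        have h2 : s * y ≤ max |s| 1 * |y| :=
          (le_abs_self _).trans (by rw [abs_mul]; exact mul_le_mul_of_nonneg_right (le_max_left _ _) (abs_nonneg _))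
        calc Real.exp (s * y) ≤ Real.exp (max |s| 1 * |y|) := Real.exp_le_exp.mpr h2
          _ ≤ max |s| 1 * Real.exp (max |s| 1 * |y|) :=
            le_mul_of_one_le_left (Real.exp_pos _).le (le_max_right _ _))
      exact tendsto_nhds_unique h1 ((h s).mono_left hU)
  refine ⟨hw, fun φ hφ hC => ?_⟩
  obtain ⟨C, hC⟩ := hC
  exact growth hw (fun s => ⟨_, hb s⟩) hφ hC

end

end Pool.Agent.X82.Curt
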