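import Mathlib
import Pool.Agent.X82.Curtiss

set_option autoImplicit false

/-! The weighted central limit theorem, from asymptotics of moments with varying exponents. -/

open MeasureTheory ProbabilityTheory Filter Topology
open scoped NNReal ENNReal

namespace Pool.Agent.X82.WClt

noncomputable section

/-- modulus of zeta at the random point -/
def ze (x T u : ℝ) : ℝ := ‖riemannZeta (1 / 2 + x * Complex.I + (u * T) * Complex.I)‖

/-- the moment -/
def Mo (x T β : ℝ) : ℝ := ∫ u in (0:ℝ)..1, ze x T u ^ β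

/-- log log -/
def LL (T : ℝ) : ℝ := Real.log (Real.log T)

/-- the normalised logarithm -/
def XX (x T β u : ℝ) : ℝ := (Real.log (ze x T u) - β / 2 * LL T) / Real.sqrt (LL T / 2)

/-- the main term -/
def EE (T β : ℝ) : ℝ := Real.exp (β ^ 2 / 4 * LL T)

lemma ze_nonneg (x T u : ℝ) : 0 ≤ ze x T u := norm_nonneg _

lemma ze_cont (x T : ℝ) : Continuous (ze x T) := by
  unfold ze
  refine Continuous.norm ?_
  rw [continuous_iff_continuousAt]
  intro u
  have h1 : (1 / 2 + x * Complex.I + (u * T) * Complex.I : ℂ) ≠ 1 := by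
    intro h
    have := congrArg Complex.re h
    norm_num at this
  have h2 : ContinuousAt (fun u : ℝ => (1 / 2 + x * Complex.I + (u * T) * Complex.I : ℂ)) u := by fun_prop
  exact ContinuousAt.comp (g := riemannZeta) (f := fun u : ℝ => (1 / 2 + x * Complex.I + (u * T) * Complex.I : ℂ))
    (differentiableAt_riemannZeta h1).continuousAt h2

lemma pow_cont (x T : ℝ) {β : ℝ} (hβ : 0 < β) : Continuous fun u => ze x T u ^ β :=
  (ze_cont x T).rpow_const fun _ => Or.inr hβ.le

lemma XX_meas (x T β : ℝ) : Measurable (XX x T β) := by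
  unfold XX
  exact (((Real.measurable_log.comp (ze_cont x T).measurable).sub_const _).div_const _)

lemma LL_tendsto : Tendsto LL atTop atTop := Real.tendsto_log_atTop.comp Real.tendsto_log_atTop

/-- the weighted law on the interval -/
def nu (x T β : ℝ) : Measure ℝ :=
  (volume.restrict (Set.Ioc (0:ℝ) 1)).withDensity fun u => ((Real.toNNReal (ze x T u ^ β / Mo x T β) : ℝ≥0) : ℝ≥0∞)

lemma dens_meas (x T : ℝ) {β : ℝ} (hβ : 0 < β) : Measurable fun u => Real.toNNReal (ze x T u ^ β / Mo x T β) :=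
  ((pow_cont x T hβ).measurable.div_const _).real_toNNReal

lemma nu_prob (x T : ℝ) {β : ℝ} (hβ : 0 < β) (hM : 0 < Mo x T β) : IsProbabilityMeasure (nu x T β) := by
  constructor
  unfold nu
  rw [withDensity_apply _ MeasurableSet.univ, Measure.restrict_univ]
  have hi : Integrable (fun u => ze x T u ^ β / Mo x T β) (volume.restrict (Set.Ioc (0:ℝ) 1)) :=
    ((pow_cont x T hβ).integrableOn_Icc.mono_set Set.Ioc_subset_Icc_self).div_const _
  have h1 := ofReal_integral_eq_lintegral_ofReal hi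
    (Eventually.of_forall fun u => div_nonneg (Real.rpow_nonneg (ze_nonneg _ _ _) _) hM.le)
  show ∫⁻ u in Set.Ioc (0:ℝ) 1, ENNReal.ofReal (ze x T u ^ β / Mo x T β) = 1
  rw [← h1, integral_div]
  have h2 : ∫ u in Set.Ioc (0:ℝ) 1, ze x T u ^ β = Mo x T β := by
    unfold Mo
    rw [intervalIntegral.integral_of_le zero_le_one]
  rw [h2, div_self hM.ne', ENNReal.ofReal_one]

lemma nu_int (x T : ℝ) {β : ℝ} (hβ : 0 < β) (hM : 0 < Mo x T β) (g : ℝ → ℝ) :
    ∫ u, g u ∂(nu x T β) = (∫ u in (0:ℝ)..1, ze x T u ^ β * g u) / Mo x T β := by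
  unfold nu
  rw [integral_withDensity_eq_integral_smul (dens_meas x T hβ), intervalIntegral.integral_of_le zero_le_one,
    ← integral_div]
  refine integral_congr_ae (Eventually.of_forall fun u => ?_)
  show (Real.toNNReal (ze x T u ^ β / Mo x T β)) • g u = _
  rw [NNReal.smul_def, Real.coe_toNNReal _ (div_nonneg (Real.rpow_nonneg (ze_nonneg _ _ _) _) hM.le), smul_eq_mul]
  ring

open Classical in
/-- the law of the normalised logarithm -/
def rho (x T β : ℝ) : ProbabilityMeasure ℝ :=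
  if h : IsProbabilityMeasure ((nu x T β).map (XX x T β)) then (⟨(nu x T β).map (XX x T β), h⟩ : ProbabilityMeasure ℝ)
  else Curt.γ

lemma rho_coe (x T : ℝ) {β : ℝ} (hβ : 0 < β) (hM : 0 < Mo x T β) :
    (rho x T β : Measure ℝ) = (nu x T β).map (XX x T β) := by
  have := nu_prob x T hβ hM
  have h : IsProbabilityMeasure ((nu x T β).map (XX x T β)) :=
    Measure.isProbabilityMeasure_map (XX_meas x T β).aemeasurable
  have e : rho x T β = (⟨(nu x T β).map (XX x T β), h⟩ : ProbabilityMeasure ℝ) := dif_pos h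
  rw [e]
  rfl

lemma rho_int (x T : ℝ) {β : ℝ} (hβ : 0 < β) (hM : 0 < Mo x T β) {φ : ℝ → ℝ} (hφ : Measurable φ) :
    ∫ y, φ y ∂(rho x T β : Measure ℝ) = (∫ u in (0:ℝ)..1, ze x T u ^ β * φ (XX x T β u)) / Mo x T β := by
  rw [rho_coe x T hβ hM, integral_map (XX_meas x T β).aemeasurable hφ.aestronglyMeasurable, nu_int x T hβ hM]

lemma sq_alg {L : ℝ} (hL : 0 < L) : L / Real.sqrt (L / 2) = Real.sqrt (2 * L) ∧
    Real.sqrt (2 / L) = 1 / Real.sqrt (L / 2) ∧ Real.sqrt (2 / L) * L = Real.sqrt (2 * L) := by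
  have h0 : 0 < Real.sqrt (L / 2) := Real.sqrt_pos.mpr (by positivity)
  have h1 : Real.sqrt (L / 2) * Real.sqrt (2 * L) = L := by
    rw [← Real.sqrt_mul (by positivity)]
    rw [show L / 2 * (2 * L) = L ^ 2 by ring]
    exact Real.sqrt_sq hL.le
  have h2 : Real.sqrt (2 / L) = 1 / Real.sqrt (L / 2) := by
    rw [show (2:ℝ) / L = (L / 2)⁻¹ by field_simp, Real.sqrt_inv, one_div]
  refine ⟨?_, h2, ?_⟩
  · rw [div_eq_iff h0.ne']; linarith
  · rw [h2, one_div, inv_mul_eq_div, div_eq_iff h0.ne']; linarith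

/-- the exponential twist -/
lemma twist (x T s : ℝ) {β : ℝ} (hβ : 0 < β) (hL : 0 < LL T) (hβ' : 0 < β + s * Real.sqrt (2 / LL T)) (u : ℝ) :
    ze x T u ^ β * Real.exp (s * XX x T β u) =
      Real.exp (-(s * (β / 2) * Real.sqrt (2 * LL T))) * ze x T u ^ (β + s * Real.sqrt (2 / LL T)) := by
  obtain ⟨a1, a2, a3⟩ := sq_alg hL
  have h0 : 0 < Real.sqrt (LL T / 2) := Real.sqrt_pos.mpr (by positivity)
  rcases (ze_nonneg x T u).eq_or_lt with h | h
  · rw [← h, Real.zero_rpow hβ.ne', Real.zero_rpow hβ'.ne']; ring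
  · rw [Real.rpow_def_of_pos h, Real.rpow_def_of_pos h, ← Real.exp_add, ← Real.exp_add]
    congr 1
    unfold XX
    rw [a2, ← a1]
    field_simp
    ring

lemma mgf_eq (x T s : ℝ) {β : ℝ} (hβ : 0 < β) (hM : 0 < Mo x T β) (hL : 0 < LL T)
    (hβ' : 0 < β + s * Real.sqrt (2 / LL T)) :
    ∫ y, Real.exp (s * y) ∂(rho x T β : Measure ℝ) =
      (Mo x T (β + s * Real.sqrt (2 / LL T)) / EE T (β + s * Real.sqrt (2 / LL T))) * (EE T β / Mo x T β) *
        Real.exp (s ^ 2 / 2) := by
  obtain ⟨a1, a2, a3⟩ := sq_alg hL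
  rw [rho_int x T hβ hM (by fun_prop)]
  have h1 : ∫ u in (0:ℝ)..1, ze x T u ^ β * Real.exp (s * XX x T β u) =
      Real.exp (-(s * (β / 2) * Real.sqrt (2 * LL T))) * Mo x T (β + s * Real.sqrt (2 / LL T)) := by
    unfold Mo
    rw [← intervalIntegral.integral_const_mul]
    exact intervalIntegral.integral_congr fun u _ => twist x T s hβ hL hβ' u
  rw [h1]
  have h2 : EE T (β + s * Real.sqrt (2 / LL T)) =
      EE T β * Real.exp (s * (β / 2) * Real.sqrt (2 * LL T)) * Real.exp (s ^ 2 / 2) := by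
    unfold EE
    rw [← Real.exp_add, ← Real.exp_add]
    congr 1
    have h3 : Real.sqrt (2 / LL T) ^ 2 = 2 / LL T := Real.sq_sqrt (by positivity)
    rw [← a3]
    have h4 : Real.sqrt (2 / LL T) ^ 2 * LL T = 2 := by rw [h3]; field_simp
    linear_combination (s ^ 2 / 4) * h4
  rw [h2, Real.exp_neg]
  have e1 := Real.exp_pos (s * (β / 2) * Real.sqrt (2 * LL T))
  have e2 := Real.exp_pos (s ^ 2 / 2)
  have e3 : 0 < EE T β := Real.exp_pos _
  field_simp

/-- the weighted central limit theorem -/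
theorem wclt (x : ℝ) (β : ℝ → ℝ) (hpos : ∀ s : ℝ, ∀ᶠ T in atTop, 0 < β T + s * Real.sqrt (2 / LL T))
    (hM : ∀ s : ℝ, Tendsto (fun T => Mo x T (β T + s * Real.sqrt (2 / LL T)) / EE T (β T + s * Real.sqrt (2 / LL T)))
      atTop (𝓝 1)) :
    (∀ φ : ℝ → ℝ, Continuous φ → (∃ C : ℝ, ∀ y, |φ y| ≤ C * Real.exp (C * |y|)) →
      Tendsto (fun T => (∫ u in (0:ℝ)..1, ze x T u ^ β T * φ (XX x T (β T) u)) / EE T (β T)) atTop
        (𝓝 (∫ y, φ y ∂(gaussianReal 0 1)))) ∧
    (∀ y : ℝ, Tendsto (fun T => (∫ u in {u ∈ Set.Ioc (0:ℝ) 1 | XX x T (β T) u ≤ y}, ze x T u ^ β T) / EE T (β T)) atTop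
        (𝓝 ((gaussianReal 0 1).real (Set.Iic y)))) := by
  have hp0 : ∀ᶠ T in atTop, 0 < β T := by
    have := hpos 0
    simpa using this
  have hM0 : Tendsto (fun T => Mo x T (β T) / EE T (β T)) atTop (𝓝 1) := by
    have := hM 0
    simpa using this
  have hMp : ∀ᶠ T in atTop, 0 < Mo x T (β T) := by
    filter_upwards [hM0.eventually (lt_mem_nhds (show (0:ℝ) < 1 by norm_num))] with T hT
    have e3 : 0 < EE T (β T) := Real.exp_pos _
    by_contra hneg
    have := div_nonpos_of_nonpos_of_nonneg (not_lt.mp hneg) e3.le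
    linarith
  have hinv : Tendsto (fun T => EE T (β T) / Mo x T (β T)) atTop (𝓝 1) := by
    have := hM0.inv₀ one_ne_zero
    rw [inv_one] at this
    refine this.congr fun T => ?_
    rw [inv_div]
  have hmgf : ∀ s : ℝ, Tendsto (fun T => ∫ y, Real.exp (s * y) ∂(rho x T (β T) : Measure ℝ)) atTop
      (𝓝 (Real.exp (s ^ 2 / 2))) := by
    intro s
    have h1 := ((hM s).mul hinv).mul_const (Real.exp (s ^ 2 / 2))
    rw [one_mul, one_mul] at h1
    refine h1.congr' ?_
    filter_upwards [hp0, hMp, LL_tendsto.eventually_gt_atTop 0, hpos s] with T g1 g2 g3 g4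
    exact (mgf_eq x T s g1 g2 g3 g4).symm
  obtain ⟨hw, hg⟩ := Curt.curtiss hmgf
  constructor
  · intro φ hφ hC
    have h1 := (hg φ hφ hC).mul hM0
    rw [mul_one] at h1
    refine h1.congr' ?_
    filter_upwards [hp0, hMp] with T g1 g2
    rw [rho_int x T g1 g2 hφ.measurable]
    have e3 : 0 < EE T (β T) := Real.exp_pos _
    field_simp
  · intro y
    have hfr : (Curt.γ : Measure ℝ) (frontier (Set.Iic y)) = 0 := by
      rw [frontier_Iic]
      show gaussianReal 0 1 {y} = 0
      have : NullSingletonClass (gaussianReal 0 1) := nullSingletonClass_gaussianReal (by norm_num)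
      exact measure_singleton y
    have h1 := ProbabilityMeasure.tendsto_measure_of_null_frontier_of_tendsto' hw hfr
    have h2 := (ENNReal.tendsto_toReal (measure_ne_top (Curt.γ : Measure ℝ) (Set.Iic y))).comp h1
    have h3 := h2.mul hM0
    rw [mul_one] at h3
    refine h3.congr' ?_
    filter_upwards [hp0, hMp] with T g1 g2
    have e3 : 0 < EE T (β T) := Real.exp_pos _
    have hmeas : MeasurableSet {u : ℝ | XX x T (β T) u ≤ y} := (XX_meas x T (β T)) measurableSet_Iic
    have h4 : ((rho x T (β T) : Measure ℝ) (Set.Iic y)).toReal =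
        (∫ u in {u ∈ Set.Ioc (0:ℝ) 1 | XX x T (β T) u ≤ y}, ze x T u ^ β T) / Mo x T (β T) := by
      have h5 : ((rho x T (β T) : Measure ℝ) (Set.Iic y)).toReal =
          ∫ z, (Set.Iic y).indicator (fun _ => (1:ℝ)) z ∂(rho x T (β T) : Measure ℝ) := by
        rw [integral_indicator_const _ measurableSet_Iic, smul_eq_mul, mul_one]
        rfl
      rw [h5, rho_int x T g1 g2 (measurable_const.indicator measurableSet_Iic), intervalIntegral.integral_of_le zero_le_one]
      congr 1
      have h6 : {u ∈ Set.Ioc (0:ℝ) 1 | XX x T (β T) u ≤ y} = Set.Ioc (0:ℝ) 1 ∩ {u : ℝ | XX x T (β T) u ≤ y} := by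
        ext u; simp
      rw [h6, ← setIntegral_indicator hmeas]
      refine setIntegral_congr_fun measurableSet_Ioc fun u _ => ?_
      by_cases hu : XX x T (β T) u ≤ y
      · rw [Set.indicator_of_mem (show XX x T (β T) u ∈ Set.Iic y from hu),
          Set.indicator_of_mem (show u ∈ {u : ℝ | XX x T (β T) u ≤ y} from hu), mul_one]
      · rw [Set.indicator_of_notMem (show XX x T (β T) u ∉ Set.Iic y from hu),
          Set.indicator_of_notMem (show u ∉ {u : ℝ | XX x T (β T) u ≤ y} from hu), mul_zero]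
    simp only [Function.comp_apply]
    rw [h4]
    field_simp

end

end Pool.Agent.X82.WClt
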