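import Pool.Agent.X82.CW7
import Pool.Agent.Helper470.ED.Mmoore

/-!
# Graphs of large girth and bounded clique-width
-/

set_option autoImplicit false

open Finset SimpleGraph Filter

namespace Pool.Agent.X82.CW

/-- `γ(n, k)`: the largest number of edges of a graph on `n` vertices of girth greater than `k`. -/
noncomputable def gam (n k : ℕ) : ℕ :=
  sSup {e : ℕ | ∃ G : SimpleGraph (Fin n), (k : ℕ∞) < G.egirth ∧ Nat.card G.edgeSet = e}

lemma girth_iff {V : Type} (G : SimpleGraph V) (k : ℕ) :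
    (∀ i : {j : ℕ // 3 ≤ j ∧ j ≤ k}, (cycleGraph i.1).Free G) ↔ (k : ℕ∞) < G.egirth := by
  constructor
  · intro h
    by_contra hcon
    push Not at hcon
    have hna : ¬ G.IsAcyclic := by
      intro ha
      rw [← egirth_eq_top] at ha
      rw [ha] at hcon
      exact absurd hcon (by simp)
    obtain ⟨a, w, hw, hl⟩ := exists_egirth_eq_length.mpr hna
    rw [hl] at hcon
    have hle : w.length ≤ k := by exact_mod_cast hcon
    have h3 : 3 ≤ w.length := hw.three_le_length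
    apply h ⟨w.length, h3, hle⟩
    exact (cycleGraph_isContained_iff (show 2 < w.length from h3)).mpr ⟨a, w, hw, rfl⟩
  · rintro h ⟨j, hj3, hjk⟩ hcon
    obtain ⟨v, p, hp, hl⟩ := (cycleGraph_isContained_iff (show 2 < j from hj3)).mp hcon
    have h1 := hp.egirth_le_length
    rw [hl] at h1
    have h2 : ((j : ℕ) : ℕ∞) ≤ k := by exact_mod_cast hjk
    exact absurd (lt_of_lt_of_le h (h1.trans h2)) (lt_irrefl _)

lemma good_girth {k : ℕ} (hk : 4 ≤ k) :
    Good 2 (fun n G => (k : ℕ∞) < G.egirth) (fun n => gam n k) := by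
  have hP : (fun (n : ℕ) (G : SimpleGraph (Fin n)) => (k : ℕ∞) < G.egirth) =
      (fun n G => ∀ i : {j : ℕ // 3 ≤ j ∧ j ≤ k}, (cycleGraph i.1).Free G) := by
    funext n G
    exact propext (girth_iff G k).symm
  have hgam : ∀ n, gam n k =
      exOf (fun n G => ∀ i : {j : ℕ // 3 ≤ j ∧ j ≤ k}, (cycleGraph i.1).Free G) n := by
    intro n
    unfold gam exOf
    congr 1
    ext e
    constructor
    · rintro ⟨G, h1, h2⟩
      exact ⟨G, (girth_iff G k).mpr h1, h2⟩
    · rintro ⟨G, h1, h2⟩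
      exact ⟨G, (girth_iff G k).mp h1, h2⟩
  rw [hP]
  refine good_family (U := fun (i : {j : ℕ // 3 ≤ j ∧ j ≤ k}) => Fin i.1)
    (fun i => cycleGraph i.1) ?_ ?_ ?_ ?_ ?_
  · rintro ⟨j, hj3, hjk⟩
    obtain ⟨i, rfl⟩ : ∃ i, j = i + 1 := ⟨j - 1, by omega⟩
    exact cycleGraph_connected
  · rintro ⟨j, hj3, hjk⟩
    exact free_of_card _ (by simpa using hj3)
  · exact ⟨⟨2 * 2, by norm_num, hk⟩, cycle_bip (by norm_num)⟩
  · intro n G hG
    rw [hgam]
    exact le_exOf _ hG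
  · intro n
    simp only [hgam]
    apply exOf_attained
    refine ⟨⊥, fun i hcon => ?_⟩
    obtain ⟨⟨j, hj3, hjk⟩, hi⟩ : ∃ i', i' = i := ⟨i, rfl⟩
    subst hi
    obtain ⟨v, p, hp, hl⟩ := (cycleGraph_isContained_iff (by omega : 2 < j)).mp hcon
    cases p with
    | nil => simp at hp
    | cons h _ => exact h

theorem gam_le {m n : ℕ} (hm : 1 ≤ m) (hn : 1 ≤ n) :
    (gam n (2 * m) : ℝ) ≤ 2 * (n : ℝ) ^ (1 + 1 / (m : ℝ)) := by
  have hne : ∃ G : SimpleGraph (Fin n), ((2 * m : ℕ) : ℕ∞) < G.egirth :=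
    ⟨⊥, by
      rw [egirth_bot]
      exact WithTop.coe_lt_top _⟩
  obtain ⟨G, hG, he⟩ := exOf_attained (fun (n : ℕ) (G : SimpleGraph (Fin n)) =>
    ((2 * m : ℕ) : ℕ∞) < G.egirth) hne
  have h1 : gam n (2 * m) = Nat.card G.edgeSet := he.symm
  rw [h1]
  have h2 := ED.moore G m hm (fun v c hc => by
    have e1 := hc.egirth_le_length
    have e2 : ((2 * m : ℕ) : ℕ∞) < (c.length : ℕ∞) := lt_of_lt_of_le hG e1
    have e3 : 2 * m < c.length := by exact_mod_cast e2
    omega)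
  rw [Fintype.card_fin] at h2
  rw [Nat.card_coe_set_eq]
  exact h2

end Pool.Agent.X82.CW
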