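import Pool.Agent.X82.CW7

/-!
# The theorem of Kővári, Sós and Turán; complete bipartite graphs and clique-width
-/

set_option autoImplicit false

open Finset SimpleGraph Filter

namespace Pool.Agent.X82.CW

lemma kbip_contained' {n s t : ℕ} {G : SimpleGraph (Fin n)} {X Y : Finset (Fin n)}
    (hX : s ≤ X.card) (hY : t ≤ Y.card) (h : ∀ x ∈ X, ∀ y ∈ Y, G.Adj x y) :
    completeBipartiteGraph (Fin s) (Fin t) ⊑ G := by
  obtain ⟨X', hX', hXc⟩ := Finset.exists_subset_card_eq hX
  obtain ⟨Y', hY', hYc⟩ := Finset.exists_subset_card_eq hY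
  let f := X'.orderEmbOfFin hXc
  let g := Y'.orderEmbOfFin hYc
  have hf : ∀ i, f i ∈ X := fun i => hX' (Finset.orderEmbOfFin_mem _ _ _)
  have hg : ∀ i, g i ∈ Y := fun i => hY' (Finset.orderEmbOfFin_mem _ _ _)
  refine ⟨⟨⟨Sum.elim f g, ?_⟩, ?_⟩⟩
  · rintro (a | a) (b | b) hab
    · simp at hab
    · exact h _ (hf a) _ (hg b)
    · exact (h _ (hf b) _ (hg a)).symm
    · simp at hab
  · rintro (a | a) (b | b) hab
    · exact congrArg Sum.inl (f.injective hab)
    · have hab' : f a = g b := hab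
      exact absurd (h _ (hf a) _ (hg b)) (by rw [hab']; exact G.irrefl)
    · have hab' : g a = f b := hab
      exact absurd (h _ (hf b) _ (hg a)) (by rw [hab']; exact G.irrefl)
    · exact congrArg Sum.inr (g.injective hab)

theorem kst_count {n s t : ℕ} (ht : 1 ≤ t) (G : SimpleGraph (Fin n)) [DecidableRel G.Adj]
    (hG : (completeBipartiteGraph (Fin s) (Fin t)).Free G) :
    ∑ v, (G.degree v).choose s ≤ (t - 1) * n.choose s := by
  classical
  have h1 : ∀ v, (G.degree v).choose s =
      ((powersetCard s (univ : Finset (Fin n))).filter (fun S => S ⊆ G.neighborFinset v)).card := by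
    intro v
    rw [← G.card_neighborFinset_eq_degree, ← card_powersetCard]
    congr 1
    ext S
    simp only [mem_powersetCard, mem_filter, subset_univ, true_and]
    tauto
  simp_rw [h1, card_filter]
  rw [sum_comm]
  calc ∑ S ∈ powersetCard s (univ : Finset (Fin n)), ∑ v, (if S ⊆ G.neighborFinset v then 1 else 0)
      ≤ ∑ S ∈ powersetCard s (univ : Finset (Fin n)), (t - 1) := by
        apply sum_le_sum
        intro S hS
        rw [← card_filter]
        by_contra hcon
        push Not at hcon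
        apply hG
        rw [mem_powersetCard] at hS
        refine kbip_contained' (X := S) (Y := univ.filter (fun v => S ⊆ G.neighborFinset v))
          hS.2.ge (by omega) ?_
        intro x hx y hy
        rw [mem_filter] at hy
        have := hy.2 hx
        rw [mem_neighborFinset] at this
        exact this.symm
    _ = _ := by
        rw [sum_const, card_powersetCard, card_univ, Fintype.card_fin, smul_eq_mul, mul_comm]

theorem kst {n s t : ℕ} (hs : 1 ≤ s) (ht : 1 ≤ t) (G : SimpleGraph (Fin n))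
    (hG : (completeBipartiteGraph (Fin s) (Fin t)).Free G) :
    (Nat.card G.edgeSet : ℝ) ≤ (s + t) * (n : ℝ) ^ (2 - 1 / (s : ℝ)) := by
  classical
  have hs0 : (0 : ℝ) < s := by exact_mod_cast hs
  have ht0 : (1 : ℝ) ≤ t := by exact_mod_cast ht
  rcases Nat.eq_zero_or_pos n with rfl | hn
  · have : Nat.card G.edgeSet = 0 := by
      have : IsEmpty G.edgeSet := by
        constructor
        rintro ⟨e, he⟩
        induction e with
        | _ x y => exact x.elim0
      exact Nat.card_of_isEmpty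
    rw [this, Nat.cast_zero]
    positivity
  have hn0 : (0 : ℝ) < n := by exact_mod_cast hn
  have hn1 : (1 : ℝ) ≤ n := by exact_mod_cast hn
  -- counting
  have h1 : ∑ v, (G.degree v + 1 - s) ^ s ≤ (t - 1) * n ^ s := by
    calc ∑ v, (G.degree v + 1 - s) ^ s ≤ ∑ v, s.factorial * (G.degree v).choose s := by
          apply sum_le_sum
          intro v _
          rw [← Nat.descFactorial_eq_factorial_mul_choose]
          exact Nat.pow_sub_le_descFactorial _ _
      _ = s.factorial * ∑ v, (G.degree v).choose s := by rw [mul_sum]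
      _ ≤ s.factorial * ((t - 1) * n.choose s) := Nat.mul_le_mul_left _ (kst_count ht G hG)
      _ = (t - 1) * (s.factorial * n.choose s) := by ring
      _ ≤ (t - 1) * n ^ s := by
          rw [← Nat.descFactorial_eq_factorial_mul_choose]
          exact Nat.mul_le_mul_left _ (Nat.descFactorial_le_pow _ _)
  let x : Fin n → ℝ := fun v => ((G.degree v + 1 - s : ℕ) : ℝ)
  have hx0 : ∀ v, 0 ≤ x v := fun v => Nat.cast_nonneg _
  have h2 : ∑ v, x v ^ s ≤ (t : ℝ) * n ^ s := by
    have : ((∑ v, (G.degree v + 1 - s) ^ s : ℕ) : ℝ) ≤ (((t - 1) * n ^ s : ℕ) : ℝ) := by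
      exact_mod_cast h1
    push_cast at this
    have e : ∑ v, x v ^ s = ∑ v, ((G.degree v + 1 - s : ℕ) : ℝ) ^ s := rfl
    rw [e]
    refine this.trans ?_
    have h3 : ((t - 1 : ℕ) : ℝ) ≤ t := by exact_mod_cast Nat.sub_le t 1
    gcongr
  have h3 : (∑ v, x v) ^ s ≤ (n : ℝ) ^ (s - 1) * ∑ v, x v ^ s := by
    obtain ⟨r, rfl⟩ : ∃ r, s = r + 1 := ⟨s - 1, by omega⟩
    have h4 := pow_sum_div_card_le_sum_pow (s := (univ : Finset (Fin n))) (f := x)
      (fun v _ => hx0 v) r
    rw [card_univ, Fintype.card_fin, div_le_iff₀ (by positivity)] at h4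
    rw [Nat.add_sub_cancel, mul_comm]
    exact h4
  have h4 : (∑ v, x v) ^ s ≤ (t * (n : ℝ) ^ (2 - 1 / (s : ℝ))) ^ s := by
    calc (∑ v, x v) ^ s ≤ (n : ℝ) ^ (s - 1) * (t * n ^ s) := by
          refine h3.trans ?_
          gcongr
      _ = t * (n : ℝ) ^ (2 * s - 1) := by
          have : 2 * s - 1 = (s - 1) + s := by omega
          rw [this, pow_add]; ring
      _ ≤ (t : ℝ) ^ s * ((n : ℝ) ^ (2 - 1 / (s : ℝ))) ^ s := by
          have e1 : ((n : ℝ) ^ (2 - 1 / (s : ℝ))) ^ s = (n : ℝ) ^ (2 * s - 1) := by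
            rw [← Real.rpow_natCast, ← Real.rpow_mul hn0.le, ← Real.rpow_natCast]
            congr 1
            rw [Nat.cast_sub (by omega)]
            push_cast
            field_simp
          rw [e1]
          have e2 : (t : ℝ) ≤ (t : ℝ) ^ s := by
            calc (t : ℝ) = (t : ℝ) ^ 1 := (pow_one _).symm
              _ ≤ _ := pow_le_pow_right₀ ht0 hs
          gcongr
      _ = _ := (mul_pow _ _ _).symm
  have h5 : ∑ v, x v ≤ t * (n : ℝ) ^ (2 - 1 / (s : ℝ)) :=
    le_of_pow_le_pow_left₀ (by omega) (by positivity) h4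
  have h6 : (2 : ℝ) * Nat.card G.edgeSet ≤ ∑ v, (x v + s) := by
    have e : (2 : ℝ) * Nat.card G.edgeSet = ∑ v, (G.degree v : ℝ) := by
      have := G.sum_degrees_eq_twice_card_edges
      rw [Nat.card_eq_fintype_card, ← edgeFinset_card]
      exact_mod_cast this.symm
    rw [e]
    apply sum_le_sum
    intro v _
    have : G.degree v ≤ (G.degree v + 1 - s) + s := by omega
    have h7 : (G.degree v : ℝ) ≤ ((G.degree v + 1 - s : ℕ) : ℝ) + s := by exact_mod_cast this
    exact h7
  rw [sum_add_distrib, sum_const, card_univ, Fintype.card_fin, nsmul_eq_mul] at h6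
  have h7 : (n : ℝ) ≤ (n : ℝ) ^ (2 - 1 / (s : ℝ)) := by
    calc (n : ℝ) = (n : ℝ) ^ (1 : ℝ) := (Real.rpow_one _).symm
      _ ≤ _ := by
        apply Real.rpow_le_rpow_of_exponent_le hn1
        have : 1 / (s : ℝ) ≤ 1 := by
          rw [div_le_one hs0]; exact_mod_cast hs
        linarith
  have h8 : (n : ℝ) * s ≤ (n : ℝ) ^ (2 - 1 / (s : ℝ)) * s := by gcongr
  have h9 : (0 : ℝ) ≤ (n : ℝ) ^ (2 - 1 / (s : ℝ)) := by positivity
  nlinarith

end Pool.Agent.X82.CW
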