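import Mathlib

set_option autoImplicit false

/-! Calculus for `(|f|² + ε)^κ`, `f` holomorphic in the upper half-plane. -/

open Complex MeasureTheory Filter Topology Set

namespace Pool.Agent.X82.Area

/-- the point `σ + it` -/
noncomputable def pt (σ t : ℝ) : ℂ := (σ : ℂ) + t * I

lemma pt_im (σ t : ℝ) : (pt σ t).im = t := by simp [pt]
lemma pt_re (σ t : ℝ) : (pt σ t).re = σ := by simp [pt]

lemma pt_cont : Continuous fun q : ℝ × ℝ => pt q.1 q.2 := by unfold pt; fun_prop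

/-- upper half-plane -/
def UH : Set ℂ := {z | 0 < z.im}

lemma UH_open : IsOpen UH := isOpen_lt continuous_const Complex.continuous_im

lemma hds {g : ℂ → ℂ} {σ t : ℝ} (hg : DifferentiableAt ℂ g (pt σ t)) :
    HasDerivAt (fun s : ℝ => g (pt s t)) (deriv g (pt σ t)) σ := by
  have h1 : HasDerivAt (fun z : ℂ => z + t * I) 1 (σ : ℂ) := (hasDerivAt_id _).add_const _
  have h2 : HasDerivAt (fun z : ℂ => g (z + t * I)) (deriv g (pt σ t) * 1) (σ : ℂ) :=
    HasDerivAt.comp (σ : ℂ) (by exact hg.hasDerivAt) h1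
  rw [mul_one] at h2
  exact h2.comp_ofReal

lemma hdt {g : ℂ → ℂ} {σ t : ℝ} (hg : DifferentiableAt ℂ g (pt σ t)) :
    HasDerivAt (fun s : ℝ => g (pt σ s)) (deriv g (pt σ t) * I) t := by
  have h1 : HasDerivAt (fun z : ℂ => (σ : ℂ) + z * I) I (t : ℂ) := by
    simpa using ((hasDerivAt_id (t : ℂ)).mul_const I).const_add (σ : ℂ)
  have h2 : HasDerivAt (fun z : ℂ => g ((σ : ℂ) + z * I)) (deriv g (pt σ t) * I) (t : ℂ) :=
    HasDerivAt.comp (t : ℂ) (by exact hg.hasDerivAt) h1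
  exact h2.comp_ofReal

lemma hd_re {G H : ℝ → ℂ} {G' H' : ℂ} {x : ℝ} (hG : HasDerivAt G G' x) (hH : HasDerivAt H H' x) :
    HasDerivAt (fun s => (G s * starRingEnd ℂ (H s)).re)
      ((G' * starRingEnd ℂ (H x) + G x * starRingEnd ℂ H').re) x := by
  have h1 := hG.mul hH.star
  exact Complex.reCLM.hasFDerivAt.comp_hasDerivAt x h1

variable (f : ℂ → ℂ) (κ ε : ℝ)

noncomputable def p (z : ℂ) : ℝ := (f z * starRingEnd ℂ (f z)).re + ε
noncomputable def ps (z : ℂ) : ℝ := 2 * (deriv f z * starRingEnd ℂ (f z)).re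
noncomputable def pq (z : ℂ) : ℝ := 2 * (deriv f z * I * starRingEnd ℂ (f z)).re
noncomputable def pss (z : ℂ) : ℝ :=
  2 * (deriv (deriv f) z * starRingEnd ℂ (f z) + deriv f z * starRingEnd ℂ (deriv f z)).re
noncomputable def pqq (z : ℂ) : ℝ :=
  2 * (deriv (deriv f) z * I * I * starRingEnd ℂ (f z) + deriv f z * I * starRingEnd ℂ (deriv f z * I)).re
noncomputable def u (z : ℂ) : ℝ := p f ε z ^ κ
noncomputable def us (z : ℂ) : ℝ := κ * p f ε z ^ (κ - 1) * ps f z
noncomputable def uq (z : ℂ) : ℝ := κ * p f ε z ^ (κ - 1) * pq f z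
noncomputable def uss (z : ℂ) : ℝ :=
  κ * p f ε z ^ (κ - 1) * pss f z + κ * (κ - 1) * p f ε z ^ (κ - 2) * ps f z ^ 2
noncomputable def uqq (z : ℂ) : ℝ :=
  κ * p f ε z ^ (κ - 1) * pqq f z + κ * (κ - 1) * p f ε z ^ (κ - 2) * pq f z ^ 2
/-- the Laplacian -/
noncomputable def lap (z : ℂ) : ℝ :=
  4 * κ * ‖deriv f z‖ ^ 2 * p f ε z ^ (κ - 2) * (κ * ‖f z‖ ^ 2 + ε)

variable {f κ ε}

lemma p_eq (z : ℂ) : p f ε z = ‖f z‖ ^ 2 + ε := by
  unfold p
  rw [Complex.mul_conj, Complex.normSq_eq_norm_sq]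
  simp only [Complex.ofReal_re]

lemma p_pos (hε : 0 < ε) (z : ℂ) : 0 < p f ε z := by
  rw [p_eq]; positivity

lemma lap_eq (hε : 0 < ε) (z : ℂ) : uss f κ ε z + uqq f κ ε z = lap f κ ε z := by
  have hp := p_pos (f := f) hε z
  have e1 : pss f z + pqq f z = 4 * ‖deriv f z‖ ^ 2 := by
    unfold pss pqq
    rw [← Complex.normSq_eq_norm_sq, Complex.normSq_apply]
    simp
    ring
  have e2 : ps f z ^ 2 + pq f z ^ 2 = 4 * ‖deriv f z‖ ^ 2 * ‖f z‖ ^ 2 := by
    unfold ps pq
    rw [← Complex.normSq_eq_norm_sq, ← Complex.normSq_eq_norm_sq, Complex.normSq_apply, Complex.normSq_apply]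
    simp
    ring
  have e3 : p f ε z ^ (κ - 1) = p f ε z ^ (κ - 2) * p f ε z := by
    rw [show κ - 1 = (κ - 2) + 1 by ring, Real.rpow_add_one hp.ne']
  unfold uss uqq lap
  calc _ = κ * p f ε z ^ (κ - 1) * (pss f z + pqq f z) +
        κ * (κ - 1) * p f ε z ^ (κ - 2) * (ps f z ^ 2 + pq f z ^ 2) := by ring
    _ = _ := by
      rw [e1, e2, e3, p_eq]
      ring

section
variable (hf : DifferentiableOn ℂ f UH)
include hf

lemma dif0 {z : ℂ} (hz : 0 < z.im) : DifferentiableAt ℂ f z :=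
  (hf z hz).differentiableAt (UH_open.mem_nhds hz)

lemma dif1 {z : ℂ} (hz : 0 < z.im) : DifferentiableAt ℂ (deriv f) z :=
  ((hf.deriv UH_open) z hz).differentiableAt (UH_open.mem_nhds hz)

lemma cont0 : ContinuousOn f UH := hf.continuousOn
lemma cont1 : ContinuousOn (deriv f) UH := (hf.deriv UH_open).continuousOn
lemma cont2 : ContinuousOn (deriv (deriv f)) UH := ((hf.deriv UH_open).deriv UH_open).continuousOn

lemma cont_conj : ContinuousOn (fun z => starRingEnd ℂ (f z)) UH :=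
  Complex.continuous_conj.comp_continuousOn (cont0 hf)

lemma p_cont : ContinuousOn (p f ε) UH := by
  unfold p
  exact (Complex.continuous_re.comp_continuousOn ((cont0 hf).mul (cont_conj hf))).add continuousOn_const

lemma ps_cont : ContinuousOn (ps f) UH := by
  unfold ps
  exact continuousOn_const.mul (Complex.continuous_re.comp_continuousOn ((cont1 hf).mul (cont_conj hf)))

lemma pq_cont : ContinuousOn (pq f) UH := by
  unfold pq
  exact continuousOn_const.mul (Complex.continuous_re.comp_continuousOn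
    (((cont1 hf).mul continuousOn_const).mul (cont_conj hf)))

lemma pss_cont : ContinuousOn (pss f) UH := by
  unfold pss
  exact continuousOn_const.mul (Complex.continuous_re.comp_continuousOn
    (((cont2 hf).mul (cont_conj hf)).add ((cont1 hf).mul
      (Complex.continuous_conj.comp_continuousOn (cont1 hf)))))

lemma pqq_cont : ContinuousOn (pqq f) UH := by
  unfold pqq
  exact continuousOn_const.mul (Complex.continuous_re.comp_continuousOn
    (((((cont2 hf).mul continuousOn_const).mul continuousOn_const).mul (cont_conj hf)).add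
      (((cont1 hf).mul continuousOn_const).mul
      (Complex.continuous_conj.comp_continuousOn ((cont1 hf).mul continuousOn_const)))))

lemma pr_cont (hε : 0 < ε) (a : ℝ) : ContinuousOn (fun z => p f ε z ^ a) UH :=
  (p_cont hf).rpow_const fun z _ => Or.inl (p_pos hε z).ne'

lemma u_cont (hε : 0 < ε) : ContinuousOn (u f κ ε) UH := pr_cont hf hε κ

lemma us_cont (hε : 0 < ε) : ContinuousOn (us f κ ε) UH :=
  (continuousOn_const.mul (pr_cont hf hε _)).mul (ps_cont hf)

lemma uq_cont (hε : 0 < ε) : ContinuousOn (uq f κ ε) UH :=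
  (continuousOn_const.mul (pr_cont hf hε _)).mul (pq_cont hf)

lemma uss_cont (hε : 0 < ε) : ContinuousOn (uss f κ ε) UH :=
  ((continuousOn_const.mul (pr_cont hf hε _)).mul (pss_cont hf)).add
    ((continuousOn_const.mul (pr_cont hf hε _)).mul ((ps_cont hf).pow 2))

lemma uqq_cont (hε : 0 < ε) : ContinuousOn (uqq f κ ε) UH :=
  ((continuousOn_const.mul (pr_cont hf hε _)).mul (pqq_cont hf)).add
    ((continuousOn_const.mul (pr_cont hf hε _)).mul ((pq_cont hf).pow 2))

lemma lap_cont (hε : 0 < ε) : ContinuousOn (lap f κ ε) UH := by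
  have := (uss_cont (κ := κ) hf hε).add (uqq_cont (κ := κ) hf hε)
  refine this.congr fun z _ => ?_
  exact (lap_eq hε z).symm

lemma p_ds {σ t : ℝ} (ht : 0 < t) :
    HasDerivAt (fun s : ℝ => p f ε (pt s t)) (ps f (pt σ t)) σ := by
  have h0 := hds (dif0 hf (z := pt σ t) (by rw [pt_im]; exact ht))
  have h1 := (hd_re h0 h0).add_const ε
  refine h1.congr_deriv ?_
  unfold ps
  simp
  ring

lemma p_dq {σ t : ℝ} (ht : 0 < t) :
    HasDerivAt (fun s : ℝ => p f ε (pt σ s)) (pq f (pt σ t)) t := by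
  have h0 := hdt (dif0 hf (z := pt σ t) (by rw [pt_im]; exact ht))
  have h1 := (hd_re h0 h0).add_const ε
  refine h1.congr_deriv ?_
  unfold pq
  simp
  ring

lemma ps_ds {σ t : ℝ} (ht : 0 < t) :
    HasDerivAt (fun s : ℝ => ps f (pt s t)) (pss f (pt σ t)) σ := by
  have h0 := hds (dif0 hf (z := pt σ t) (by rw [pt_im]; exact ht))
  have h1 := hds (dif1 hf (z := pt σ t) (by rw [pt_im]; exact ht))
  exact (hd_re h1 h0).const_mul 2

lemma pq_dq {σ t : ℝ} (ht : 0 < t) :
    HasDerivAt (fun s : ℝ => pq f (pt σ s)) (pqq f (pt σ t)) t := by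
  have h0 := hdt (dif0 hf (z := pt σ t) (by rw [pt_im]; exact ht))
  have h1 := hdt (dif1 hf (z := pt σ t) (by rw [pt_im]; exact ht))
  exact (hd_re (h1.mul_const I) h0).const_mul 2

lemma u_ds (hε : 0 < ε) {σ t : ℝ} (ht : 0 < t) :
    HasDerivAt (fun s : ℝ => u f κ ε (pt s t)) (us f κ ε (pt σ t)) σ := by
  have h := (p_ds (ε := ε) hf (σ := σ) ht).rpow_const (p := κ) (Or.inl (p_pos hε _).ne')
  refine h.congr_deriv ?_
  unfold us
  ring

lemma u_dq (hε : 0 < ε) {σ t : ℝ} (ht : 0 < t) :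
    HasDerivAt (fun s : ℝ => u f κ ε (pt σ s)) (uq f κ ε (pt σ t)) t := by
  have h := (p_dq (ε := ε) hf (σ := σ) ht).rpow_const (p := κ) (Or.inl (p_pos hε _).ne')
  refine h.congr_deriv ?_
  unfold uq
  ring

lemma us_ds (hε : 0 < ε) {σ t : ℝ} (ht : 0 < t) :
    HasDerivAt (fun s : ℝ => us f κ ε (pt s t)) (uss f κ ε (pt σ t)) σ := by
  have h := (p_ds (ε := ε) hf (σ := σ) ht).rpow_const (p := κ - 1) (Or.inl (p_pos hε _).ne')
  have h2 := (h.const_mul κ).mul (ps_ds hf (σ := σ) ht)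
  refine h2.congr_deriv ?_
  unfold uss
  rw [show κ - 1 - 1 = κ - 2 by ring]
  ring

lemma uq_dq (hε : 0 < ε) {σ t : ℝ} (ht : 0 < t) :
    HasDerivAt (fun s : ℝ => uq f κ ε (pt σ s)) (uqq f κ ε (pt σ t)) t := by
  have h := (p_dq (ε := ε) hf (σ := σ) ht).rpow_const (p := κ - 1) (Or.inl (p_pos hε _).ne')
  have h2 := (h.const_mul κ).mul (pq_dq hf (σ := σ) ht)
  refine h2.congr_deriv ?_
  unfold uqq
  rw [show κ - 1 - 1 = κ - 2 by ring]
  ring

end

/-- closed rectangle -/
def RR (a b : ℝ) : Set (ℝ × ℝ) := Icc (1 / 2 : ℝ) 2 ×ˢ Icc a b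

lemma RR_compact (a b : ℝ) : IsCompact (RR a b) := isCompact_Icc.prod isCompact_Icc

lemma RR_meas (a b : ℝ) : MeasurableSet (RR a b) := (RR_compact a b).measurableSet

lemma rr_maps {a b : ℝ} (ha : 0 < a) : MapsTo (fun q : ℝ × ℝ => pt q.1 q.2) (RR a b) UH := by
  intro q hq
  show 0 < (pt q.1 q.2).im
  rw [pt_im]
  exact ha.trans_le hq.2.1

lemma comp_cont {F : ℂ → ℝ} (hF : ContinuousOn F UH) {a b : ℝ} (ha : 0 < a) :
    ContinuousOn (fun q : ℝ × ℝ => F (pt q.1 q.2)) (RR a b) :=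
  hF.comp pt_cont.continuousOn (rr_maps ha)

lemma rr_int {F : ℝ × ℝ → ℝ} {a b : ℝ} (hF : ContinuousOn F (RR a b)) : IntegrableOn F (RR a b) :=
  hF.integrableOn_compact (RR_compact a b)

/-- Green's identity on a rectangle with the weight `g σ * w t`. -/
theorem green (hf : DifferentiableOn ℂ f UH) (hε : 0 < ε) {a b : ℝ} (ha : 0 < a) (hab : a ≤ b)
    {g g1 g2 w w1 w2 : ℝ → ℝ} (hg : ∀ s, HasDerivAt g (g1 s) s) (hg1 : ∀ s, HasDerivAt g1 (g2 s) s)
    (hg2 : Continuous g2)
    (hw : ∀ s, HasDerivAt w (w1 s) s) (hw1 : ∀ s, HasDerivAt w1 (w2 s) s) (hw2 : Continuous w2) :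
    ∫ q in RR a b, (g q.1 * w q.2 * lap f κ ε (pt q.1 q.2) -
      u f κ ε (pt q.1 q.2) * (g2 q.1 * w q.2 + g q.1 * w2 q.2)) =
    (∫ t in a..b, w t * ((g 2 * us f κ ε (pt 2 t) - g1 2 * u f κ ε (pt 2 t)) -
      (g (1 / 2) * us f κ ε (pt (1 / 2) t) - g1 (1 / 2) * u f κ ε (pt (1 / 2) t)))) +
    ∫ s in (1 / 2 : ℝ)..2, g s * ((w b * uq f κ ε (pt s b) - w1 b * u f κ ε (pt s b)) -
      (w a * uq f κ ε (pt s a) - w1 a * u f κ ε (pt s a))) := by
  have cg : Continuous g := continuous_iff_continuousAt.2 fun s => (hg s).continuousAt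
  have cw : Continuous w := continuous_iff_continuousAt.2 fun s => (hw s).continuousAt
  have hb : 0 < b := ha.trans_le hab
  -- the two parts
  have hA : ContinuousOn (fun q : ℝ × ℝ => w q.2 * (g q.1 * uss f κ ε (pt q.1 q.2) -
      g2 q.1 * u f κ ε (pt q.1 q.2))) (RR a b) := by
    have h1 := comp_cont (uss_cont (κ := κ) hf hε) (a := a) (b := b) ha
    have h2 := comp_cont (u_cont (κ := κ) hf hε) (a := a) (b := b) ha
    have c1 : ContinuousOn (fun q : ℝ × ℝ => w q.2) (RR a b) := (cw.comp continuous_snd).continuousOn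
    have c2 : ContinuousOn (fun q : ℝ × ℝ => g q.1) (RR a b) := (cg.comp continuous_fst).continuousOn
    have c3 : ContinuousOn (fun q : ℝ × ℝ => g2 q.1) (RR a b) := (hg2.comp continuous_fst).continuousOn
    exact c1.mul ((c2.mul h1).sub (c3.mul h2))
  have hB : ContinuousOn (fun q : ℝ × ℝ => g q.1 * (w q.2 * uqq f κ ε (pt q.1 q.2) -
      w2 q.2 * u f κ ε (pt q.1 q.2))) (RR a b) := by
    have h1 := comp_cont (uqq_cont (κ := κ) hf hε) (a := a) (b := b) ha
    have h2 := comp_cont (u_cont (κ := κ) hf hε) (a := a) (b := b) ha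
    have c1 : ContinuousOn (fun q : ℝ × ℝ => w q.2) (RR a b) := (cw.comp continuous_snd).continuousOn
    have c2 : ContinuousOn (fun q : ℝ × ℝ => g q.1) (RR a b) := (cg.comp continuous_fst).continuousOn
    have c3 : ContinuousOn (fun q : ℝ × ℝ => w2 q.2) (RR a b) := (hw2.comp continuous_snd).continuousOn
    exact c2.mul ((c1.mul h1).sub (c3.mul h2))
  have e0 : ∀ q : ℝ × ℝ, (g q.1 * w q.2 * lap f κ ε (pt q.1 q.2) -
      u f κ ε (pt q.1 q.2) * (g2 q.1 * w q.2 + g q.1 * w2 q.2)) =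
      (w q.2 * (g q.1 * uss f κ ε (pt q.1 q.2) - g2 q.1 * u f κ ε (pt q.1 q.2))) +
      (g q.1 * (w q.2 * uqq f κ ε (pt q.1 q.2) - w2 q.2 * u f κ ε (pt q.1 q.2))) := by
    intro q
    rw [← lap_eq hε]
    ring
  rw [show (∫ q in RR a b, (g q.1 * w q.2 * lap f κ ε (pt q.1 q.2) -
      u f κ ε (pt q.1 q.2) * (g2 q.1 * w q.2 + g q.1 * w2 q.2))) =
      ∫ q in RR a b, ((w q.2 * (g q.1 * uss f κ ε (pt q.1 q.2) - g2 q.1 * u f κ ε (pt q.1 q.2))) +
      (g q.1 * (w q.2 * uqq f κ ε (pt q.1 q.2) - w2 q.2 * u f κ ε (pt q.1 q.2)))) from by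
        simp_rw [e0]]
  rw [integral_add (rr_int hA) (rr_int hB)]
  have hmem : ∀ {s : ℝ}, s ∈ Icc a b → 0 < s := fun h => ha.trans_le h.1
  congr 1
  · have hI := rr_int hA
    unfold RR at hI ⊢
    have h3 := setIntegral_prod (μ := volume) (ν := volume) (s := Icc a b) (t := Icc (1/2:ℝ) 2)
      (fun q : ℝ × ℝ => w q.1 * (g q.2 * uss f κ ε (pt q.2 q.1) - g2 q.2 * u f κ ε (pt q.2 q.1))) (by
        have := hI.swap
        rw [← Measure.volume_eq_prod]
        exact this)
    have h4 : ∫ q in Icc (1/2:ℝ) 2 ×ˢ Icc a b, w q.2 * (g q.1 * uss f κ ε (pt q.1 q.2) -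
        g2 q.1 * u f κ ε (pt q.1 q.2)) = ∫ q in Icc a b ×ˢ Icc (1/2:ℝ) 2, w q.1 *
        (g q.2 * uss f κ ε (pt q.2 q.1) - g2 q.2 * u f κ ε (pt q.2 q.1)) := by
      rw [Measure.volume_eq_prod]
      exact setIntegral_prod_swap (μ := volume) (ν := volume) (Icc a b) (Icc (1/2:ℝ) 2)
        (fun q : ℝ × ℝ => w q.1 *
        (g q.2 * uss f κ ε (pt q.2 q.1) - g2 q.2 * u f κ ε (pt q.2 q.1)))
    rw [h4, Measure.volume_eq_prod, h3, integral_Icc_eq_integral_Ioc, ← intervalIntegral.integral_of_le hab]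
    refine intervalIntegral.integral_congr fun t ht => ?_
    rw [uIcc_of_le hab] at ht
    have ht0 := hmem ht
    dsimp only
    rw [integral_Icc_eq_integral_Ioc, ← intervalIntegral.integral_of_le (by norm_num),
      intervalIntegral.integral_const_mul]
    congr 1
    refine intervalIntegral.integral_eq_sub_of_hasDerivAt (f := fun s => g s * us f κ ε (pt s t) -
      g1 s * u f κ ε (pt s t)) (fun s _ => ?_) ?_
    · have k1 := ((hg s).mul (us_ds (κ := κ) hf hε (σ := s) ht0)).sub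
        ((hg1 s).mul (u_ds (κ := κ) hf hε (σ := s) ht0))
      refine k1.congr_deriv ?_
      ring
    · refine ContinuousOn.intervalIntegrable ?_
      have m1 : MapsTo (fun s : ℝ => pt s t) (uIcc (1/2:ℝ) 2) UH := by
        intro s _
        show 0 < (pt s t).im
        rw [pt_im]; exact ht0
      have c4 : Continuous fun s : ℝ => pt s t := by unfold pt; fun_prop
      exact (cg.continuousOn.mul ((uss_cont hf hε).comp c4.continuousOn m1)).sub
        (hg2.continuousOn.mul ((u_cont hf hε).comp c4.continuousOn m1))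
  · have hI := rr_int hB
    unfold RR at hI ⊢
    rw [Measure.volume_eq_prod] at hI ⊢
    rw [setIntegral_prod _ hI, integral_Icc_eq_integral_Ioc,
      ← intervalIntegral.integral_of_le (by norm_num)]
    refine intervalIntegral.integral_congr fun s _ => ?_
    dsimp only
    rw [integral_Icc_eq_integral_Ioc, ← intervalIntegral.integral_of_le hab,
      intervalIntegral.integral_const_mul]
    congr 1
    refine intervalIntegral.integral_eq_sub_of_hasDerivAt (f := fun t => w t * uq f κ ε (pt s t) -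
      w1 t * u f κ ε (pt s t)) (fun t ht => ?_) ?_
    · rw [uIcc_of_le hab] at ht
      have ht0 := hmem ht
      have k1 := ((hw t).mul (uq_dq (κ := κ) hf hε (σ := s) ht0)).sub
        ((hw1 t).mul (u_dq (κ := κ) hf hε (σ := s) ht0))
      refine k1.congr_deriv ?_
      ring
    · refine ContinuousOn.intervalIntegrable ?_
      have m1 : MapsTo (fun t : ℝ => pt s t) (uIcc a b) UH := by
        intro t ht
        rw [uIcc_of_le hab] at ht
        show 0 < (pt s t).im
        rw [pt_im]; exact hmem ht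
      have c4 : Continuous fun t : ℝ => pt s t := by unfold pt; fun_prop
      exact (cw.continuousOn.mul ((uqq_cont hf hε).comp c4.continuousOn m1)).sub
        (hw2.continuousOn.mul ((u_cont hf hε).comp c4.continuousOn m1))

end Pool.Agent.X82.Area
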