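import Pool.Agent.X82.AreaA
import Pool.Agent.H370R2.Digamma

set_option autoImplicit false

/-! The normal derivative of `|ζ|²` on the critical line. -/

open Complex MeasureTheory Filter Topology Set
open scoped ComplexConjugate

namespace Pool.Agent.X82.Area

lemma GammaR_conj (s : ℂ) : Gammaℝ (conj s) = conj (Gammaℝ s) := by
  rw [Gammaℝ_def, Gammaℝ_def, map_mul, ← Complex.Gamma_conj]
  congr 1
  · have h := Complex.cpow_conj (Real.pi : ℂ) (-s / 2) (by
      rw [Complex.arg_ofReal_of_nonneg Real.pi_pos.le]; exact Real.pi_pos.ne)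
    rw [Complex.conj_ofReal] at h
    rw [← h]
    congr 1
    rw [map_div₀, map_neg, Complex.conj_ofNat]
  · congr 1
    rw [map_div₀, Complex.conj_ofNat]

lemma line_ne_zero (t : ℝ) : pt (1 / 2) t ≠ 0 := by
  intro h
  have := congrArg Complex.re h
  rw [pt_re] at this
  norm_num at this

lemma GammaR_line_ne (t : ℝ) : Gammaℝ (pt (1 / 2) t) ≠ 0 := by
  apply Gammaℝ_ne_zero_of_re_pos
  rw [pt_re]; norm_num

lemma line_conj (t : ℝ) : conj (pt (1 / 2) t) = 1 - pt (1 / 2) t := by
  unfold pt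
  apply Complex.ext
  · simp
    norm_num
  · simp

lemma prod_eq (t : ℝ) : Gammaℝ (pt (1 / 2) t) * riemannZeta (pt (1 / 2) t) =
    completedRiemannZeta (pt (1 / 2) t) := by
  rw [riemannZeta_def_of_ne_zero (line_ne_zero t), mul_div_cancel₀ _ (GammaR_line_ne t)]

lemma completed_conj (t : ℝ) : conj (completedRiemannZeta (pt (1 / 2) t)) =
    completedRiemannZeta (pt (1 / 2) t) := by
  have h1 : completedRiemannZeta (conj (pt (1 / 2) t)) =
      conj (completedRiemannZeta (pt (1 / 2) t)) := by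
    rw [← prod_eq t, map_mul, ← GammaR_conj, ← riemannZeta_conj]
    have h0 : conj (pt (1 / 2) t) ≠ 0 := by
      intro h
      have := congrArg Complex.re h
      rw [Complex.conj_re, pt_re] at this
      norm_num at this
    rw [riemannZeta_def_of_ne_zero h0]
    have h2 : Gammaℝ (conj (pt (1 / 2) t)) ≠ 0 := by
      apply Gammaℝ_ne_zero_of_re_pos
      rw [Complex.conj_re, pt_re]; norm_num
    rw [mul_div_cancel₀ _ h2]
  rw [← h1, line_conj, completedRiemannZeta_one_sub]

lemma GammaR_diff {s : ℂ} (hs : 0 < s.re) : DifferentiableAt ℂ Gammaℝ s := by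
  have h1 : Gammaℝ = fun s : ℂ => (Real.pi : ℂ) ^ (-s / 2) * Gamma (s / 2) := by
    ext s; rw [Gammaℝ_def]
  rw [h1]
  refine DifferentiableAt.mul ?_ ?_
  · refine DifferentiableAt.const_cpow (by fun_prop) (Or.inl ?_)
    exact_mod_cast Real.pi_pos.ne'
  · refine DifferentiableAt.comp s (differentiableAt_Gamma _ ?_) (by fun_prop)
    intro m h
    have := congrArg Complex.re h
    simp at this
    have h3 : (0:ℝ) ≤ m := Nat.cast_nonneg m
    linarith

/-- `2 Re (G'/G)` on the critical line, `G` the Gamma factor -/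
noncomputable def LL (t : ℝ) : ℝ := 2 * (deriv Gammaℝ (pt (1 / 2) t) / Gammaℝ (pt (1 / 2) t)).re

lemma LL_cont : Continuous LL := by
  have hU : IsOpen {z : ℂ | 0 < z.re} := isOpen_lt continuous_const Complex.continuous_re
  have h1 : DifferentiableOn ℂ Gammaℝ {z : ℂ | 0 < z.re} := fun z hz =>
    (GammaR_diff hz).differentiableWithinAt
  have h2 := (h1.deriv hU).continuousOn
  have h3 := h1.continuousOn
  have h4 : Continuous fun t : ℝ => pt (1 / 2) t := by unfold pt; fun_prop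
  have hm : ∀ t : ℝ, pt (1 / 2) t ∈ {z : ℂ | 0 < z.re} := by
    intro t
    show 0 < (pt (1 / 2) t).re
    rw [pt_re]; norm_num
  have h5 : Continuous fun t : ℝ => deriv Gammaℝ (pt (1 / 2) t) := h2.comp_continuous h4 hm
  have h6 : Continuous fun t : ℝ => Gammaℝ (pt (1 / 2) t) := h3.comp_continuous h4 hm
  unfold LL
  exact continuous_const.mul (Complex.continuous_re.comp (h5.div h6 fun t => GammaR_line_ne t))

theorem line_re (t : ℝ) :
    2 * (deriv riemannZeta (pt (1 / 2) t) * conj (riemannZeta (pt (1 / 2) t))).re =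
      -LL t * ‖riemannZeta (pt (1 / 2) t)‖ ^ 2 := by
  set s := pt (1 / 2) t with hs
  have hs1 : s ≠ 1 := by
    intro h
    have := congrArg Complex.re h
    rw [hs, pt_re] at this
    norm_num at this
  have d1 := hdt (g := Gammaℝ) (σ := 1 / 2) (t := t) (GammaR_diff (by rw [pt_re]; norm_num))
  have d2 := hdt (g := riemannZeta) (σ := 1 / 2) (t := t) (differentiableAt_riemannZeta hs1)
  have d3 := d1.mul d2
  have him : ∀ x : ℝ, (Gammaℝ (pt (1 / 2) x) * riemannZeta (pt (1 / 2) x)).im = 0 := by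
    intro x
    rw [prod_eq]
    have := completed_conj x
    exact Complex.conj_eq_iff_im.1 this
  have d4 : HasDerivAt (fun x : ℝ => (Gammaℝ (pt (1 / 2) x) * riemannZeta (pt (1 / 2) x)).im)
      (deriv Gammaℝ s * I * riemannZeta s + Gammaℝ s * (deriv riemannZeta s * I)).im t :=
    Complex.imCLM.hasFDerivAt.comp_hasDerivAt t d3
  have d5 : (deriv Gammaℝ s * I * riemannZeta s + Gammaℝ s * (deriv riemannZeta s * I)).im = 0 := by
    have h6 : HasDerivAt (fun x : ℝ => (Gammaℝ (pt (1 / 2) x) * riemannZeta (pt (1 / 2) x)).im) 0 t := by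
      simp_rw [him]
      exact hasDerivAt_const t 0
    exact d4.unique h6
  have e1 := him t
  have hG := GammaR_line_ne t
  rw [← hs] at hG e1
  set G := Gammaℝ s
  set G' := deriv Gammaℝ s
  set Z := riemannZeta s
  set Z' := deriv riemannZeta s
  have hN : 0 < ‖G‖ ^ 2 := by positivity
  -- the key identity
  have k1 : (G' * conj G).re * ‖Z‖ ^ 2 + ‖G‖ ^ 2 * (Z' * conj Z).re = 0 := by
    have h7 : ((G' * I * Z + G * (Z' * I)).im) * (G * Z).re -
      ((G' * I * Z + G * (Z' * I)).re) * (G * Z).im = (G' * conj G).re * ‖Z‖ ^ 2 + ‖G‖ ^ 2 * (Z' * conj Z).re := by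
      rw [← Complex.normSq_eq_norm_sq, ← Complex.normSq_eq_norm_sq, Complex.normSq_apply, Complex.normSq_apply]
      simp
      ring
    rw [← h7, d5, e1]
    ring
  have k2 : (G' / G).re * ‖G‖ ^ 2 = (G' * conj G).re := by
    have : G' * conj G = (G' / G) * ((‖G‖ ^ 2 : ℝ) : ℂ) := by
      rw [← Complex.normSq_eq_norm_sq, Complex.normSq_eq_conj_mul_self]
      field_simp
    rw [this, Complex.re_mul_ofReal]
  have k3 : LL t = 2 * (G' / G).re := rfl
  rw [k3]
  have k4 : ‖G‖ ^ 2 * (2 * (Z' * conj Z).re - -(2 * (G' / G).re) * ‖Z‖ ^ 2) = 0 := by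
    linear_combination 2 * k1 + 2 * ‖Z‖ ^ 2 * k2
  have := (mul_eq_zero.1 k4).resolve_left hN.ne'
  linarith

theorem LL_bound : ∃ C : ℝ, 0 < C ∧ ∀ t : ℝ, 1 ≤ t → |LL t - Real.log t| ≤ C := by
  obtain ⟨C, hC⟩ := H370.digamma_bound
  refine ⟨|C| + Real.log Real.pi + Real.log 2 + 1, ?_, fun t ht => ?_⟩
  · have := Real.log_pos (show (1:ℝ) < 2 by norm_num)
    have h2 := Real.log_nonneg (show (1:ℝ) ≤ Real.pi by linarith [Real.pi_gt_three])
    positivity
  have him : (pt (1 / 2) t / 2).im = t / 2 := by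
    rw [show (2:ℂ) = ((2:ℝ):ℂ) by norm_num, Complex.div_ofReal_im, pt_im]
  have hre : (pt (1 / 2) t / 2).re = 1 / 4 := by
    rw [show (2:ℂ) = ((2:ℝ):ℂ) by norm_num, Complex.div_ofReal_re, pt_re]; norm_num
  have h1 := hC (pt (1 / 2) t / 2) (by rw [hre]) (by rw [hre]; norm_num) (by
    rw [him, abs_of_pos (by linarith)]; linarith)
  rw [him, abs_of_pos (by linarith : 0 < t / 2)] at h1
  have h2 : logDeriv Gammaℝ (pt (1 / 2) t) = -(Real.log Real.pi : ℂ) / 2 +
      logDeriv Gamma (pt (1 / 2) t / 2) / 2 := by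
    have hpi : (Real.pi : ℂ) ≠ 0 := by exact_mod_cast Real.pi_pos.ne'
    have e1 : Gammaℝ = fun s : ℂ => (Real.pi : ℂ) ^ (-s / 2) * Gamma (s / 2) := by
      ext s; rw [Gammaℝ_def]
    have hd : DifferentiableAt ℂ Gamma (pt (1 / 2) t / 2) := by
      refine differentiableAt_Gamma _ fun m h => ?_
      have := congrArg Complex.re h
      rw [hre] at this
      simp at this
      have h3 : (0:ℝ) ≤ m := Nat.cast_nonneg m
      linarith
    have hd1 : HasDerivAt (fun s : ℂ => (Real.pi : ℂ) ^ (-s / 2))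
        ((Real.pi : ℂ) ^ (-(pt (1 / 2) t) / 2) * Complex.log Real.pi * (-1 / 2)) (pt (1 / 2) t) := by
      have h5 : HasDerivAt (fun s : ℂ => -s / 2) (-1 / 2) (pt (1 / 2) t) := by
        simpa using ((hasDerivAt_id (pt (1 / 2) t)).neg).div_const 2
      exact h5.const_cpow (Or.inl hpi)
    have hd2 : HasDerivAt (fun s : ℂ => Gamma (s / 2)) (deriv Gamma (pt (1 / 2) t / 2) * (1 / 2))
        (pt (1 / 2) t) := by
      have h5 : HasDerivAt (fun s : ℂ => s / 2) (1 / 2) (pt (1 / 2) t) := by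
        simpa using (hasDerivAt_id (pt (1 / 2) t)).div_const 2
      exact HasDerivAt.comp (h₂ := Gamma) (h := fun s : ℂ => s / 2) (pt (1 / 2) t) hd.hasDerivAt h5
    have hd3 := hd1.mul hd2
    have e2 : deriv Gammaℝ (pt (1 / 2) t) =
        (Real.pi : ℂ) ^ (-pt (1 / 2) t / 2) * Complex.log Real.pi * (-1 / 2) * Gamma (pt (1 / 2) t / 2) +
        (Real.pi : ℂ) ^ (-pt (1 / 2) t / 2) * (deriv Gamma (pt (1 / 2) t / 2) * (1 / 2)) := by
      rw [e1]; exact hd3.deriv
    have hP : (Real.pi : ℂ) ^ (-(pt (1 / 2) t) / 2) ≠ 0 := by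
      rw [Complex.cpow_ne_zero_iff]; left; exact hpi
    have hGn : Gamma (pt (1 / 2) t / 2) ≠ 0 := by
      refine Gamma_ne_zero_of_re_pos ?_
      rw [hre]; norm_num
    rw [logDeriv_apply, logDeriv_apply, e2, Gammaℝ_def, ← Complex.ofReal_log Real.pi_pos.le]
    field_simp
  have h3 : LL t = -Real.log Real.pi + (logDeriv Gamma (pt (1 / 2) t / 2)).re := by
    have : LL t = 2 * (logDeriv Gammaℝ (pt (1 / 2) t)).re := by rw [logDeriv_apply]; rfl
    rw [this, h2, Complex.add_re]
    have e3 : (-(Real.log Real.pi : ℂ) / 2).re = -Real.log Real.pi / 2 := by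
      rw [show (2:ℂ) = ((2:ℝ):ℂ) by norm_num, Complex.div_ofReal_re, Complex.neg_re, Complex.ofReal_re]
    have e4 : (logDeriv Gamma (pt (1 / 2) t / 2) / 2).re = (logDeriv Gamma (pt (1 / 2) t / 2)).re / 2 := by
      rw [show (2:ℂ) = ((2:ℝ):ℂ) by norm_num, Complex.div_ofReal_re]
    rw [e3, e4]
    ring
  have h4 : |(logDeriv Gamma (pt (1 / 2) t / 2)).re - Real.log (t / 2)| ≤ C := by
    refine le_trans ?_ h1
    have := Complex.abs_re_le_norm (logDeriv Gamma (pt (1 / 2) t / 2) - (Real.log (t / 2) : ℂ))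
    rwa [Complex.sub_re, Complex.ofReal_re] at this
  rw [Real.log_div (by linarith) (by norm_num)] at h4
  have h5 := Real.log_pos (show (1:ℝ) < 2 by norm_num)
  have h6 := Real.log_nonneg (show (1:ℝ) ≤ Real.pi by linarith [Real.pi_gt_three])
  have h7 := le_abs_self C
  rw [h3]
  rw [abs_le] at h4 ⊢
  constructor <;> linarith [h4.1, h4.2]

end Pool.Agent.X82.Area
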