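import Pool.Agent.X82.AreaB

set_option autoImplicit false

/-! The identity at the level `ε > 0`, with all error terms uniform in `ε`. -/

open Complex MeasureTheory Filter Topology Set
open scoped ComplexConjugate

namespace Pool.Agent.X82.Area

/-- crude series bound in `Re s ≥ a > 1` -/
lemma lseries_bound {a : ℝ} (ha : 1 < a) (f : ℕ → ℂ) (hf : ∀ n, ‖f n‖ ≤ 1) {s : ℂ}
    (hs : a ≤ s.re) : ‖LSeries f s‖ ≤ ∑' n : ℕ, 1 / (n:ℝ) ^ a := by
  have hsum : Summable (fun n : ℕ => 1 / (n:ℝ) ^ a) := Real.summable_one_div_nat_rpow.mpr ha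
  unfold LSeries
  refine tsum_of_norm_bounded hsum.hasSum ?_
  intro n
  rcases Nat.eq_zero_or_pos n with hn | hn
  · subst hn
    simp
    rw [Real.zero_rpow (by linarith)]
  · rw [LSeries.term_of_ne_zero hn.ne', norm_div, Complex.norm_natCast_cpow_of_pos hn]
    have h1 : (1:ℝ) ≤ n := by exact_mod_cast hn
    have h2 : 0 < (n:ℝ) ^ a := by positivity
    calc ‖f n‖ / (n:ℝ) ^ s.re ≤ 1 / (n:ℝ) ^ s.re := by
          gcongr
          exact hf n
      _ ≤ 1 / (n:ℝ) ^ a := by gcongr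

lemma zeta_bounds {a : ℝ} (ha : 1 < a) : ∃ A : ℝ, 1 ≤ A ∧ ∀ s : ℂ, a ≤ s.re →
    ‖riemannZeta s‖ ≤ A ∧ 1 / A ≤ ‖riemannZeta s‖ := by
  set K := ∑' n : ℕ, 1 / (n:ℝ) ^ a with hK
  refine ⟨max K 1, le_max_right _ _, fun s hs => ?_⟩
  have hs1 : 1 < s.re := by linarith
  have hA : 0 < max K 1 := lt_of_lt_of_le one_pos (le_max_right _ _)
  constructor
  · rw [← LSeries_one_eq_riemannZeta hs1]
    exact (lseries_bound ha 1 (fun n => by simp) hs).trans (le_max_left _ _)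
  · have h1 : riemannZeta s * LSeries (fun n => (ArithmeticFunction.moebius n : ℂ)) s = 1 := by
      rw [← LSeries_one_eq_riemannZeta hs1]
      exact LSeries_one_mul_Lseries_moebius hs1
    have h2 : ‖LSeries (fun n => (ArithmeticFunction.moebius n : ℂ)) s‖ ≤ max K 1 := by
      refine (lseries_bound ha _ (fun n => ?_) hs).trans (le_max_left _ _)
      have h : |ArithmeticFunction.moebius n| ≤ 1 := ArithmeticFunction.abs_moebius_le_one
      rw [Complex.norm_intCast]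
      exact_mod_cast h
    have h3 : ‖riemannZeta s‖ * ‖LSeries (fun n => (ArithmeticFunction.moebius n : ℂ)) s‖ = 1 := by
      rw [← norm_mul, h1, norm_one]
    rw [div_le_iff₀ hA]
    calc (1 : ℝ) = ‖riemannZeta s‖ * ‖LSeries (fun n => (ArithmeticFunction.moebius n : ℂ)) s‖ := h3.symm
      _ ≤ ‖riemannZeta s‖ * max K 1 := by gcongr

lemma zeta_UH : DifferentiableOn ℂ riemannZeta UH := by
  intro z hz
  refine (differentiableAt_riemannZeta ?_).differentiableWithinAt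
  rintro rfl
  have : (0:ℝ) < (1:ℂ).im := hz
  simp at this

lemma rpow_two_sided {A p a : ℝ} (hA : 1 ≤ A) (h1 : 1 / A ≤ p) (h2 : p ≤ A) : p ^ a ≤ A ^ |a| := by
  have hA0 : 0 < A := by linarith
  have hp0 : 0 < p := lt_of_lt_of_le (by positivity) h1
  rcases le_total 0 a with ha | ha
  · rw [abs_of_nonneg ha]
    exact Real.rpow_le_rpow hp0.le h2 ha
  · rw [abs_of_nonpos ha, Real.rpow_neg hA0.le, ← Real.inv_rpow hA0.le]
    refine Real.rpow_le_rpow_of_nonpos (by positivity) ?_ ha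
    rw [← one_div]; exact h1

/-- uniform bounds at `Re s = 2` -/
lemma right_bound (κ : ℝ) : ∃ K : ℝ, 0 < K ∧ ∀ t ε : ℝ, 0 < ε → ε ≤ 1 →
    |us riemannZeta κ ε (pt 2 t)| ≤ K ∧ |u riemannZeta κ ε (pt 2 t)| ≤ K := by
  obtain ⟨A, hA, hb⟩ := zeta_bounds (a := 3 / 2) (by norm_num)
  have hA0 : 0 < A := by linarith
  have hA2 : 1 ≤ A ^ 2 + 1 := by nlinarith
  refine ⟨|κ| * (A ^ 2 + 1) ^ |κ - 1| * (2 * (2 * A * A)) + (A ^ 2 + 1) ^ |κ| + 1, by positivity,
    fun t ε h0 h1 => ?_⟩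
  have hre : (pt 2 t).re = 2 := pt_re _ _
  obtain ⟨b1, b2⟩ := hb (pt 2 t) (by rw [hre]; norm_num)
  have hp1 : p riemannZeta ε (pt 2 t) ≤ A ^ 2 + 1 := by
    rw [p_eq]
    have := pow_le_pow_left₀ (norm_nonneg _) b1 2
    linarith
  have hp2 : 1 / (A ^ 2 + 1) ≤ p riemannZeta ε (pt 2 t) := by
    rw [p_eq]
    have := pow_le_pow_left₀ (by positivity) b2 2
    have h3 : 1 / (A ^ 2 + 1) ≤ (1 / A) ^ 2 := by
      rw [div_pow, one_pow]
      exact one_div_le_one_div_of_le (by positivity) (by linarith)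
    linarith
  have hd : ‖deriv riemannZeta (pt 2 t)‖ ≤ 2 * A := by
    have h := Complex.norm_deriv_le_of_forall_mem_sphere_norm_le (f := riemannZeta) (c := pt 2 t)
      (R := 1 / 2) (C := A) (by norm_num) ?_ ?_
    · refine h.trans (le_of_eq ?_)
      ring
    · refine DifferentiableOn.diffContOnCl ?_
      rw [closure_ball _ (by norm_num)]
      intro z hz
      refine (differentiableAt_riemannZeta ?_).differentiableWithinAt
      rintro rfl
      rw [Metric.mem_closedBall, dist_eq_norm] at hz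
      have h5 := Complex.abs_re_le_norm (1 - pt 2 t)
      rw [Complex.sub_re, hre, Complex.one_re] at h5
      norm_num at h5 hz
      linarith
    · intro z hz
      refine (hb z ?_).1
      rw [mem_sphere_iff_norm] at hz
      have h5 := Complex.abs_re_le_norm (z - pt 2 t)
      rw [Complex.sub_re, hre, hz, abs_le] at h5
      linarith [h5.1]
  have hps : |ps riemannZeta (pt 2 t)| ≤ 2 * (2 * A * A) := by
    unfold ps
    rw [abs_mul, abs_of_pos (by norm_num : (0:ℝ) < 2)]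
    refine mul_le_mul_of_nonneg_left ?_ (by norm_num)
    refine (Complex.abs_re_le_norm _).trans ?_
    rw [norm_mul, Complex.norm_conj]
    exact mul_le_mul hd b1 (norm_nonneg _) (by positivity)
  have hpp := p_pos (f := riemannZeta) h0 (pt 2 t)
  constructor
  · unfold us
    rw [abs_mul, abs_mul, abs_of_nonneg (Real.rpow_nonneg hpp.le _)]
    have h3 := rpow_two_sided (a := κ - 1) hA2 hp2 hp1
    have h4 : |κ| * p riemannZeta ε (pt 2 t) ^ (κ - 1) * |ps riemannZeta (pt 2 t)| ≤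
        |κ| * (A ^ 2 + 1) ^ |κ - 1| * (2 * (2 * A * A)) := by gcongr
    have h5 : 0 ≤ (A ^ 2 + 1) ^ |κ| := by positivity
    linarith
  · unfold u
    rw [abs_of_nonneg (Real.rpow_nonneg hpp.le _)]
    have h3 := rpow_two_sided (a := κ) hA2 hp2 hp1
    have h5 : 0 ≤ |κ| * (A ^ 2 + 1) ^ |κ - 1| * (2 * (2 * A * A)) := by positivity
    linarith

/-- the boundary function -/
noncomputable def Hf (κ ε t : ℝ) : ℝ :=
  κ * LL t * ‖riemannZeta (pt (1 / 2) t)‖ ^ 2 * p riemannZeta ε (pt (1 / 2) t) ^ (κ - 1)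

lemma us_half {κ ε : ℝ} (t : ℝ) : us riemannZeta κ ε (pt (1 / 2) t) = -Hf κ ε t := by
  unfold us ps Hf
  rw [line_re t]
  ring

lemma Hf_abs {κ ε t : ℝ} (hκ : 0 < κ) (h0 : 0 < ε) (h1 : ε ≤ 1) :
    |Hf κ ε t| ≤ κ * |LL t| * (‖riemannZeta (pt (1 / 2) t)‖ ^ 2 + 1) ^ κ := by
  have hpp := p_pos (f := riemannZeta) h0 (pt (1 / 2) t)
  unfold Hf
  rw [abs_mul, abs_mul, abs_mul, abs_of_pos hκ, abs_of_nonneg (Real.rpow_nonneg hpp.le _),
    abs_of_nonneg (sq_nonneg ‖riemannZeta (pt (1 / 2) t)‖), mul_assoc (κ * |LL t|)]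
  refine mul_le_mul_of_nonneg_left ?_ (by positivity)
  have h3 : ‖riemannZeta (pt (1 / 2) t)‖ ^ 2 ≤ p riemannZeta ε (pt (1 / 2) t) := by
    rw [p_eq]; linarith
  calc ‖riemannZeta (pt (1 / 2) t)‖ ^ 2 * p riemannZeta ε (pt (1 / 2) t) ^ (κ - 1) ≤
      p riemannZeta ε (pt (1 / 2) t) * p riemannZeta ε (pt (1 / 2) t) ^ (κ - 1) := by gcongr
    _ = p riemannZeta ε (pt (1 / 2) t) ^ κ := by
      rw [mul_comm, ← Real.rpow_add_one hpp.ne']
      congr 1; ring
    _ ≤ _ := by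
      rw [p_eq]
      exact Real.rpow_le_rpow (by positivity) (by linarith) hκ.le

lemma pt_half_cont : Continuous fun t : ℝ => pt (1 / 2) t := by unfold pt; fun_prop

lemma zeta_half_cont : Continuous fun t : ℝ => riemannZeta (pt (1 / 2) t) := by
  rw [continuous_iff_continuousAt]
  intro t
  refine ContinuousAt.comp (g := riemannZeta) ?_ pt_half_cont.continuousAt
  refine (differentiableAt_riemannZeta ?_).continuousAt
  intro h
  have := congrArg Complex.re h
  rw [pt_re] at this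
  norm_num at this

lemma Hf_cont {κ ε : ℝ} (h0 : 0 < ε) : Continuous (Hf κ ε) := by
  unfold Hf
  have h1 : Continuous fun t : ℝ => p riemannZeta ε (pt (1 / 2) t) := by
    simp_rw [p_eq]
    exact (zeta_half_cont.norm.pow 2).add continuous_const
  exact ((continuous_const.mul LL_cont).mul (zeta_half_cont.norm.pow 2)).mul
    (h1.rpow_const fun t => Or.inl (p_pos h0 _).ne')

lemma left_bound {κ : ℝ} (hκ : 0 < κ) : ∃ K : ℝ, 0 < K ∧ ∀ ε : ℝ, 0 < ε → ε ≤ 1 →
    (∀ t : ℝ, 1 ≤ t → t ≤ 2 → |Hf κ ε t| ≤ K) ∧ (∀ t : ℝ, 1 ≤ t → -K ≤ Hf κ ε t) := by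
  obtain ⟨C, hC0, hC⟩ := LL_bound
  have hcont : Continuous fun t : ℝ => κ * |LL t| * (‖riemannZeta (pt (1 / 2) t)‖ ^ 2 + 1) ^ κ :=
    (continuous_const.mul LL_cont.abs).mul (((zeta_half_cont.norm.pow 2).add continuous_const).rpow_const
      fun _ => Or.inr hκ.le)
  obtain ⟨K, hK⟩ := (isCompact_Icc (a := (1:ℝ)) (b := max 2 (Real.exp C))).exists_bound_of_continuousOn
    hcont.continuousOn
  refine ⟨|K| + 1, by positivity, fun ε h0 h1 => ?_⟩
  have key : ∀ t : ℝ, 1 ≤ t → t ≤ max 2 (Real.exp C) → |Hf κ ε t| ≤ |K| + 1 := by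
    intro t ht1 ht2
    have h2 := hK t ⟨ht1, ht2⟩
    have h3 := Hf_abs (t := t) hκ h0 h1
    have h4 := (le_abs_self (κ * |LL t| * (‖riemannZeta (pt (1 / 2) t)‖ ^ 2 + 1) ^ κ)).trans_eq
      (Real.norm_eq_abs _).symm
    linarith [le_abs_self K]
  refine ⟨fun t ht1 ht2 => key t ht1 (ht2.trans (le_max_left _ _)), fun t ht1 => ?_⟩
  rcases le_total t (max 2 (Real.exp C)) with h2 | h2
  · have := key t ht1 h2
    rw [abs_le] at this
    linarith [this.1]
  · have h3 : Real.exp C ≤ t := (le_max_right _ _).trans h2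
    have h4 : C ≤ Real.log t := (Real.le_log_iff_exp_le (by linarith)).2 h3
    have h5 := hC t ht1
    rw [abs_le] at h5
    have h6 : 0 ≤ LL t := by linarith [h5.1]
    have h7 : 0 ≤ Hf κ ε t := by
      unfold Hf
      have hpp := p_pos (f := riemannZeta) h0 (pt (1 / 2) t)
      have := Real.rpow_nonneg hpp.le (κ - 1)
      positivity
    have := abs_nonneg K
    linarith

/-- uniform bound on the small rectangle -/
lemma small_bound {κ : ℝ} (hκ : 0 < κ) : ∃ K : ℝ, 0 < K ∧ ∀ ε : ℝ, 0 < ε → ε ≤ 1 →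
    ∀ q ∈ RR 1 2, |u riemannZeta κ ε (pt q.1 q.2)| ≤ K := by
  have h1 : ContinuousOn (fun q : ℝ × ℝ => u riemannZeta κ 1 (pt q.1 q.2)) (RR 1 2) :=
    comp_cont (u_cont zeta_UH one_pos) one_pos
  obtain ⟨K, hK⟩ := (RR_compact 1 2).exists_bound_of_continuousOn h1
  refine ⟨|K| + 1, by positivity, fun ε h0 h1 q hq => ?_⟩
  have h2 := hK q hq
  unfold u at h2 ⊢
  have hpp := p_pos (f := riemannZeta) h0 (pt q.1 q.2)
  have hpp1 := p_pos (f := riemannZeta) one_pos (pt q.1 q.2)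
  rw [Real.norm_eq_abs, abs_of_nonneg (Real.rpow_nonneg hpp1.le _)] at h2
  rw [abs_of_nonneg (Real.rpow_nonneg hpp.le _)]
  have h3 : p riemannZeta ε (pt q.1 q.2) ^ κ ≤ p riemannZeta 1 (pt q.1 q.2) ^ κ :=
    Real.rpow_le_rpow hpp.le (by rw [p_eq, p_eq]; linarith) hκ.le
  linarith [le_abs_self K]

lemma lap_nonneg {κ ε : ℝ} (hκ : 0 < κ) (h0 : 0 < ε) (z : ℂ) : 0 ≤ lap riemannZeta κ ε z := by
  unfold lap
  have hpp := p_pos (f := riemannZeta) h0 z
  have := Real.rpow_nonneg hpp.le (κ - 2)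
  positivity

/-- the weights -/
noncomputable def wa (T t : ℝ) : ℝ := (t - 1) * (T - t) ^ 2
noncomputable def wa1 (T t : ℝ) : ℝ := (T - t) ^ 2 - 2 * (t - 1) * (T - t)
noncomputable def wa2 (T t : ℝ) : ℝ := -4 * (T - t) + 2 * (t - 1)

lemma wa_d (T t : ℝ) : HasDerivAt (wa T) (wa1 T t) t := by
  unfold wa wa1
  have h1 : HasDerivAt (fun t : ℝ => t - 1) 1 t := (hasDerivAt_id t).sub_const 1
  have h2 : HasDerivAt (fun t : ℝ => T - t) (-1) t := by simpa using (hasDerivAt_id t).const_sub T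
  refine (h1.mul (h2.pow 2)).congr_deriv ?_
  simp
  ring

lemma wa1_d (T t : ℝ) : HasDerivAt (wa1 T) (wa2 T t) t := by
  unfold wa1 wa2
  have h1 : HasDerivAt (fun t : ℝ => t - 1) 1 t := (hasDerivAt_id t).sub_const 1
  have h2 : HasDerivAt (fun t : ℝ => T - t) (-1) t := by simpa using (hasDerivAt_id t).const_sub T
  refine ((h2.pow 2).sub ((h1.const_mul 2).mul h2)).congr_deriv ?_
  simp
  ring

lemma wb_d (T t : ℝ) : HasDerivAt (fun t : ℝ => (T - t) ^ 2) (-2 * (T - t)) t := by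
  have h2 : HasDerivAt (fun t : ℝ => T - t) (-1) t := by simpa using (hasDerivAt_id t).const_sub T
  refine (h2.pow 2).congr_deriv ?_
  simp

lemma wb1_d (T t : ℝ) : HasDerivAt (fun t : ℝ => -2 * (T - t)) 2 t := by
  have h2 : HasDerivAt (fun t : ℝ => T - t) (-1) t := by simpa using (hasDerivAt_id t).const_sub T
  refine (h2.const_mul (-2)).congr_deriv ?_
  norm_num

lemma hg0 : ∀ s : ℝ, HasDerivAt (fun _ : ℝ => (1:ℝ)) ((fun _ : ℝ => (0:ℝ)) s) s := fun s =>
  hasDerivAt_const s 1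
lemma hg01 : ∀ s : ℝ, HasDerivAt (fun _ : ℝ => (0:ℝ)) ((fun _ : ℝ => (0:ℝ)) s) s := fun s =>
  hasDerivAt_const s 0

lemma hq0 : ∀ s : ℝ, HasDerivAt (fun s : ℝ => s ^ 2 / 2) ((fun s : ℝ => s) s) s := fun s => by
  have := ((hasDerivAt_id s).pow 2).div_const 2
  refine this.congr_deriv ?_
  simp
lemma hq01 : ∀ s : ℝ, HasDerivAt (fun s : ℝ => s) ((fun _ : ℝ => (1:ℝ)) s) s := fun s =>
  hasDerivAt_id s

section
variable {κ ε T : ℝ}

lemma us2_cont (h0 : 0 < ε) {a b : ℝ} (ha : 0 < a) (s : ℝ) :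
    ContinuousOn (fun t : ℝ => us riemannZeta κ ε (pt s t)) (Icc a b) := by
  have c4 : Continuous fun t : ℝ => pt s t := by unfold pt; fun_prop
  refine (us_cont zeta_UH h0).comp c4.continuousOn ?_
  intro t ht
  show 0 < (pt s t).im
  rw [pt_im]; exact ha.trans_le ht.1

lemma u2_cont (h0 : 0 < ε) {a b : ℝ} (ha : 0 < a) (s : ℝ) :
    ContinuousOn (fun t : ℝ => u riemannZeta κ ε (pt s t)) (Icc a b) := by
  have c4 : Continuous fun t : ℝ => pt s t := by unfold pt; fun_prop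
  refine (u_cont zeta_UH h0).comp c4.continuousOn ?_
  intro t ht
  show 0 < (pt s t).im
  rw [pt_im]; exact ha.trans_le ht.1

lemma u1_cont (h0 : 0 < ε) {t : ℝ} (ht : 0 < t) :
    Continuous (fun s : ℝ => u riemannZeta κ ε (pt s t)) := by
  have c4 : Continuous fun s : ℝ => pt s t := by unfold pt; fun_prop
  refine (u_cont zeta_UH h0).comp_continuous c4 ?_
  intro s
  show 0 < (pt s t).im
  rw [pt_im]; exact ht

/-- the left side of the identity -/
noncomputable def EE (κ ε T : ℝ) : ℝ :=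
  (∫ q in RR 1 2, wa T q.2 * lap riemannZeta κ ε (pt q.1 q.2)) +
    ∫ q in RR 2 T, (T - q.2) ^ 2 * lap riemannZeta κ ε (pt q.1 q.2)

lemma mul_w_cont {w : ℝ → ℝ} (hw : Continuous w) {F : ℝ × ℝ → ℝ} {a b : ℝ} (hF : ContinuousOn F (RR a b)) :
    ContinuousOn (fun q : ℝ × ℝ => w q.2 * F q) (RR a b) :=
  ((hw.comp continuous_snd).continuousOn).mul hF

lemma wa_cont (T : ℝ) : Continuous (wa T) := by unfold wa; fun_prop
lemma wa2_cont (T : ℝ) : Continuous (wa2 T) := by unfold wa2; fun_prop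

/-- exact identity, `g = 1` -/
lemma idA (h0 : 0 < ε) (hT : 2 ≤ T) :
    EE κ ε T = (∫ q in RR 1 2, wa2 T q.2 * u riemannZeta κ ε (pt q.1 q.2)) +
      2 * (∫ q in RR 2 T, u riemannZeta κ ε (pt q.1 q.2)) +
      (∫ t in (1:ℝ)..2, wa T t * (us riemannZeta κ ε (pt 2 t) + Hf κ ε t)) +
      (∫ t in (2:ℝ)..T, (T - t) ^ 2 * us riemannZeta κ ε (pt 2 t)) +
      (∫ t in (2:ℝ)..T, (T - t) ^ 2 * Hf κ ε t) +
      ∫ s in (1 / 2 : ℝ)..2, ((T - 1) ^ 2 * u riemannZeta κ ε (pt s 1) -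
        (T - 2) ^ 2 * u riemannZeta κ ε (pt s 2)) := by
  have g1 := green (κ := κ) zeta_UH h0 (a := 1) (b := 2) one_pos (by norm_num) hg0 hg01 continuous_const
    (wa_d T) (wa1_d T) (wa2_cont T)
  have g2 := green (κ := κ) zeta_UH h0 (a := 2) (b := T) two_pos hT hg0 hg01 continuous_const
    (wb_d T) (wb1_d T) continuous_const
  have cu : ∀ {a b : ℝ}, 0 < a → ContinuousOn (fun q : ℝ × ℝ => u riemannZeta κ ε (pt q.1 q.2)) (RR a b) :=
    fun ha => comp_cont (u_cont zeta_UH h0) ha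
  have cl : ∀ {a b : ℝ}, 0 < a → ContinuousOn (fun q : ℝ × ℝ => lap riemannZeta κ ε (pt q.1 q.2)) (RR a b) :=
    fun ha => comp_cont (lap_cont zeta_UH h0) ha
  have e1 : ∫ q in RR 1 2, ((1:ℝ) * wa T q.2 * lap riemannZeta κ ε (pt q.1 q.2) -
      u riemannZeta κ ε (pt q.1 q.2) * (0 * wa T q.2 + 1 * wa2 T q.2)) =
      (∫ q in RR 1 2, wa T q.2 * lap riemannZeta κ ε (pt q.1 q.2)) -
      ∫ q in RR 1 2, wa2 T q.2 * u riemannZeta κ ε (pt q.1 q.2) := by
    rw [← integral_sub (rr_int (mul_w_cont (wa_cont T) (cl one_pos))) (rr_int (mul_w_cont (wa2_cont T) (cu one_pos)))]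
    refine integral_congr_ae (Eventually.of_forall fun q => ?_)
    dsimp only
    ring
  have e2 : ∫ q in RR 2 T, ((1:ℝ) * (T - q.2) ^ 2 * lap riemannZeta κ ε (pt q.1 q.2) -
      u riemannZeta κ ε (pt q.1 q.2) * (0 * (T - q.2) ^ 2 + 1 * 2)) =
      (∫ q in RR 2 T, (T - q.2) ^ 2 * lap riemannZeta κ ε (pt q.1 q.2)) -
      2 * ∫ q in RR 2 T, u riemannZeta κ ε (pt q.1 q.2) := by
    rw [← integral_const_mul, ← integral_sub (rr_int (mul_w_cont (w := fun t => (T - t) ^ 2) (by fun_prop) (cl two_pos)))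
      ((rr_int (cu two_pos)).const_mul 2)]
    refine integral_congr_ae (Eventually.of_forall fun q => ?_)
    dsimp only
    ring
  rw [e1] at g1
  rw [e2] at g2
  have e3 : (∫ t in (1:ℝ)..2, wa T t * (((1:ℝ) * us riemannZeta κ ε (pt 2 t) - 0 * u riemannZeta κ ε (pt 2 t)) -
      ((1:ℝ) * us riemannZeta κ ε (pt (1 / 2) t) - 0 * u riemannZeta κ ε (pt (1 / 2) t)))) =
      ∫ t in (1:ℝ)..2, wa T t * (us riemannZeta κ ε (pt 2 t) + Hf κ ε t) := by
    refine intervalIntegral.integral_congr fun t _ => ?_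
    try dsimp only
    rw [us_half]
    ring
  have i1 : IntervalIntegrable (fun t => (T - t) ^ 2 * us riemannZeta κ ε (pt 2 t)) volume 2 T := by
    refine ContinuousOn.intervalIntegrable ?_
    rw [uIcc_of_le hT]
    exact (Continuous.continuousOn (by fun_prop)).mul (us2_cont h0 two_pos 2)
  have i2 : IntervalIntegrable (fun t => (T - t) ^ 2 * Hf κ ε t) volume 2 T :=
    (Continuous.mul (by fun_prop) (Hf_cont h0)).intervalIntegrable _ _
  have e4 : (∫ t in (2:ℝ)..T, (T - t) ^ 2 * (((1:ℝ) * us riemannZeta κ ε (pt 2 t) - 0 * u riemannZeta κ ε (pt 2 t)) -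
      ((1:ℝ) * us riemannZeta κ ε (pt (1 / 2) t) - 0 * u riemannZeta κ ε (pt (1 / 2) t)))) =
      (∫ t in (2:ℝ)..T, (T - t) ^ 2 * us riemannZeta κ ε (pt 2 t)) +
      ∫ t in (2:ℝ)..T, (T - t) ^ 2 * Hf κ ε t := by
    rw [← intervalIntegral.integral_add i1 i2]
    refine intervalIntegral.integral_congr fun t _ => ?_
    try dsimp only
    rw [us_half]
    ring
  have j1 : IntervalIntegrable (fun s => (1:ℝ) * ((wa T 2 * uq riemannZeta κ ε (pt s 2) - wa1 T 2 * u riemannZeta κ ε (pt s 2)) -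
      (wa T 1 * uq riemannZeta κ ε (pt s 1) - wa1 T 1 * u riemannZeta κ ε (pt s 1)))) volume (1 / 2) 2 := by
    have c1 : ∀ t : ℝ, 0 < t → Continuous fun s : ℝ => uq riemannZeta κ ε (pt s t) := by
      intro t ht
      have c4 : Continuous fun s : ℝ => pt s t := by unfold pt; fun_prop
      refine (uq_cont zeta_UH h0).comp_continuous c4 fun s => ?_
      show 0 < (pt s t).im
      rw [pt_im]; exact ht
    have c2 := c1 2 two_pos
    have c3 := c1 1 one_pos
    have c5 := u1_cont (κ := κ) h0 (t := 2) two_pos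
    have c6 := u1_cont (κ := κ) h0 (t := 1) one_pos
    refine Continuous.intervalIntegrable ?_ _ _
    fun_prop
  have j2 : IntervalIntegrable (fun s => (1:ℝ) * (((T - T) ^ 2 * uq riemannZeta κ ε (pt s T) - -2 * (T - T) * u riemannZeta κ ε (pt s T)) -
      ((T - 2) ^ 2 * uq riemannZeta κ ε (pt s 2) - -2 * (T - 2) * u riemannZeta κ ε (pt s 2)))) volume (1 / 2) 2 := by
    have c1 : ∀ t : ℝ, 0 < t → Continuous fun s : ℝ => uq riemannZeta κ ε (pt s t) := by
      intro t ht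
      have c4 : Continuous fun s : ℝ => pt s t := by unfold pt; fun_prop
      refine (uq_cont zeta_UH h0).comp_continuous c4 fun s => ?_
      show 0 < (pt s t).im
      rw [pt_im]; exact ht
    have c2 := c1 2 two_pos
    have c3 := c1 T (by linarith)
    have c5 := u1_cont (κ := κ) h0 (t := 2) two_pos
    have c6 := u1_cont (κ := κ) h0 (t := T) (by linarith)
    refine Continuous.intervalIntegrable ?_ _ _
    fun_prop
  have e5 := intervalIntegral.integral_add j1 j2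
  have e6 : ∫ s in (1 / 2 : ℝ)..2, ((1:ℝ) * ((wa T 2 * uq riemannZeta κ ε (pt s 2) - wa1 T 2 * u riemannZeta κ ε (pt s 2)) -
      (wa T 1 * uq riemannZeta κ ε (pt s 1) - wa1 T 1 * u riemannZeta κ ε (pt s 1))) +
      (1:ℝ) * (((T - T) ^ 2 * uq riemannZeta κ ε (pt s T) - -2 * (T - T) * u riemannZeta κ ε (pt s T)) -
      ((T - 2) ^ 2 * uq riemannZeta κ ε (pt s 2) - -2 * (T - 2) * u riemannZeta κ ε (pt s 2)))) =
      ∫ s in (1 / 2 : ℝ)..2, ((T - 1) ^ 2 * u riemannZeta κ ε (pt s 1) -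
        (T - 2) ^ 2 * u riemannZeta κ ε (pt s 2)) := by
    refine intervalIntegral.integral_congr fun s _ => ?_
    try dsimp only
    unfold wa wa1
    ring
  rw [e3] at g1
  rw [e4] at g2
  rw [e6] at e5
  unfold EE
  linarith

end

end Pool.Agent.X82.Area
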