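import Pool.Agent.X82.AreaC

set_option autoImplicit false

/-! Bounds for the error terms at the level `ε > 0`. -/

open Complex MeasureTheory Filter Topology Set
open scoped ComplexConjugate

namespace Pool.Agent.X82.Area

variable {κ ε T : ℝ}

lemma u_nn (h0 : 0 < ε) (z : ℂ) : 0 ≤ u riemannZeta κ ε z :=
  Real.rpow_nonneg (p_pos h0 z).le _

lemma wa_abs (hT : 2 ≤ T) {t : ℝ} (h1 : 1 ≤ t) (h2 : t ≤ 2) : 0 ≤ wa T t ∧ wa T t ≤ T ^ 2 := by
  unfold wa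
  have h3 : 0 ≤ t - 1 := by linarith
  have h4 : t - 1 ≤ 1 := by linarith
  have h5 : 0 ≤ (T - t) ^ 2 := sq_nonneg _
  have h6 : (T - t) ^ 2 ≤ T ^ 2 := by
    apply pow_le_pow_left₀ <;> linarith
  constructor
  · positivity
  · nlinarith

lemma wa2_abs (hT : 2 ≤ T) {t : ℝ} (h1 : 1 ≤ t) (h2 : t ≤ 2) : |wa2 T t| ≤ 4 * T := by
  unfold wa2
  rw [abs_le]
  constructor <;> linarith

lemma wb_abs {t : ℝ} (h1 : 0 ≤ t) (h2 : t ≤ T) : |(T - t) ^ 2| ≤ T ^ 2 := by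
  rw [abs_of_nonneg (sq_nonneg _)]
  apply pow_le_pow_left₀ <;> linarith

lemma T_le (hT : 2 ≤ T) : T ≤ T ^ 3 ∧ T ^ 2 ≤ T ^ 3 := by
  constructor
  · nlinarith [sq_nonneg T, sq_nonneg (T - 1)]
  · nlinarith [sq_nonneg T, sq_nonneg (T - 1)]

lemma mem12 {s t : ℝ} (hs : s ∈ Icc (1 / 2 : ℝ) 2) (ht : t ∈ Icc (1:ℝ) 2) : (s, t) ∈ RR 1 2 := ⟨hs, ht⟩

lemma set_bound {F : ℝ × ℝ → ℝ} {C : ℝ} (h : ∀ q ∈ RR 1 2, |F q| ≤ C) :
    |∫ q in RR 1 2, F q| ≤ C * (volume : Measure (ℝ × ℝ)).real (RR 1 2) := by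
  have := norm_setIntegral_le_of_norm_le_const (μ := (volume : Measure (ℝ × ℝ))) (s := RR 1 2) (f := F) (C := C)
    (RR_compact 1 2).measure_lt_top (fun q hq => by rw [Real.norm_eq_abs]; exact h q hq)
  rwa [Real.norm_eq_abs] at this

lemma ii_bound {F : ℝ → ℝ} {a b C : ℝ} (hab : a ≤ b) (h : ∀ t, a ≤ t → t ≤ b → |F t| ≤ C) :
    |∫ t in a..b, F t| ≤ C * (b - a) := by
  have := intervalIntegral.norm_integral_le_of_norm_le_const (f := F) (a := a) (b := b) (C := C) (fun t ht => by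
    rw [uIoc_of_le hab] at ht
    rw [Real.norm_eq_abs]
    exact h t ht.1.le ht.2)
  rwa [Real.norm_eq_abs, abs_of_nonneg (by linarith : 0 ≤ b - a)] at this

theorem eps_A (hκ : 0 < κ) : ∃ C : ℝ, 0 < C ∧ ∀ T : ℝ, 2 ≤ T → ∀ ε : ℝ, 0 < ε → ε ≤ 1 →
    |EE κ ε T - 2 * (∫ q in RR 2 T, u riemannZeta κ ε (pt q.1 q.2)) -
      ∫ t in (2:ℝ)..T, (T - t) ^ 2 * Hf κ ε t| ≤ C * T ^ 3 := by
  obtain ⟨K0, hK0, b0⟩ := small_bound hκ
  obtain ⟨K1, hK1, b1⟩ := right_bound κ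
  obtain ⟨K2, hK2, b2⟩ := left_bound hκ
  set V := (volume : Measure (ℝ × ℝ)).real (RR 1 2) with hV
  have hV0 : 0 ≤ V := measureReal_nonneg
  refine ⟨4 * K0 * V + 2 * K1 + K2 + 3 * K0, by positivity, fun T hT ε h0 h1 => ?_⟩
  rw [idA h0 hT]
  have T0 : 0 ≤ T := by linarith
  have c1 : |∫ q in RR 1 2, wa2 T q.2 * u riemannZeta κ ε (pt q.1 q.2)| ≤ (4 * T * K0) * V := by
    refine set_bound fun q hq => ?_
    rw [abs_mul]
    exact mul_le_mul (wa2_abs hT hq.2.1 hq.2.2) (b0 ε h0 h1 q hq) (abs_nonneg _) (by positivity)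
  have c2 : |∫ t in (1:ℝ)..2, wa T t * (us riemannZeta κ ε (pt 2 t) + Hf κ ε t)| ≤
      (T ^ 2 * (K1 + K2)) * (2 - 1) := by
    refine ii_bound (by norm_num) fun t ht1 ht2 => ?_
    rw [abs_mul]
    have := wa_abs hT ht1 ht2
    refine mul_le_mul ?_ ?_ (abs_nonneg _) (by positivity)
    · rw [abs_of_nonneg this.1]; exact this.2
    · exact (abs_add_le _ _).trans (add_le_add (b1 t ε h0 h1).1 ((b2 ε h0 h1).1 t ht1 ht2))
  have c3 : |∫ t in (2:ℝ)..T, (T - t) ^ 2 * us riemannZeta κ ε (pt 2 t)| ≤ (T ^ 2 * K1) * (T - 2) := by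
    refine ii_bound hT fun t ht1 ht2 => ?_
    rw [abs_mul]
    exact mul_le_mul (wb_abs (by linarith) ht2) (b1 t ε h0 h1).1 (abs_nonneg _) (by positivity)
  have c4 : |∫ s in (1 / 2 : ℝ)..2, ((T - 1) ^ 2 * u riemannZeta κ ε (pt s 1) -
        (T - 2) ^ 2 * u riemannZeta κ ε (pt s 2))| ≤ (2 * T ^ 2 * K0) * (2 - 1 / 2) := by
    refine ii_bound (by norm_num) fun s hs1 hs2 => ?_
    refine (abs_sub _ _).trans ?_
    rw [abs_mul, abs_mul]
    have k1 := mul_le_mul (wb_abs (T := T) (t := 1) (by norm_num) (by linarith))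
      (b0 ε h0 h1 (s, 1) (mem12 ⟨hs1, hs2⟩ ⟨le_refl _, by norm_num⟩)) (abs_nonneg _) (by positivity)
    have k2 := mul_le_mul (wb_abs (T := T) (t := 2) (by norm_num) (by linarith))
      (b0 ε h0 h1 (s, 2) (mem12 ⟨hs1, hs2⟩ ⟨by norm_num, le_refl _⟩)) (abs_nonneg _) (by positivity)
    dsimp only at k1 k2
    linarith
  obtain ⟨hT2, hT3⟩ := T_le hT
  have m1 : 4 * T * K0 * V ≤ 4 * K0 * V * T ^ 3 := by
    have := mul_le_mul_of_nonneg_left hT2 (by positivity : 0 ≤ 4 * K0 * V)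
    linarith
  have m2 : T ^ 2 * (K1 + K2) ≤ (K1 + K2) * T ^ 3 := by
    have := mul_le_mul_of_nonneg_left hT3 (by positivity : 0 ≤ K1 + K2)
    linarith
  have m3 : T ^ 2 * K1 * (T - 2) ≤ K1 * T ^ 3 := by nlinarith [sq_nonneg T, mul_nonneg hK1.le (sq_nonneg T)]
  have m4 : 2 * T ^ 2 * K0 * (2 - 1 / 2) ≤ 3 * K0 * T ^ 3 := by
    have := mul_le_mul_of_nonneg_left hT3 (by positivity : 0 ≤ 3 * K0)
    linarith
  rw [abs_le] at c1 c2 c3 c4 ⊢
  constructor <;> nlinarith [c1.1, c1.2, c2.1, c2.2, c3.1, c3.2, c4.1, c4.2]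

theorem eps_B (hκ : 0 < κ) : ∃ C : ℝ, 0 < C ∧ ∀ T : ℝ, 2 ≤ T → ∀ ε : ℝ, 0 < ε → ε ≤ 1 →
    (∫ q in RR 2 T, (T - q.2) ^ 2 * u riemannZeta κ ε (pt q.1 q.2)) ≤ 2 * EE κ ε T + C * T ^ 3 := by
  obtain ⟨K0, hK0, b0⟩ := small_bound hκ
  obtain ⟨K1, hK1, b1⟩ := right_bound κ
  obtain ⟨K2, hK2, b2⟩ := left_bound hκ
  set V := (volume : Measure (ℝ × ℝ)).real (RR 1 2) with hV
  have hV0 : 0 ≤ V := measureReal_nonneg
  refine ⟨(9 * K0) * V + (4 * K1 + K2 + K0) + (4 * K1 + K2) + 6 * K0, by positivity, fun T hT ε h0 h1 => ?_⟩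
  have T0 : 0 ≤ T := by linarith
  have g1 := green (κ := κ) zeta_UH h0 (a := 1) (b := 2) one_pos (by norm_num) hq0 hq01 continuous_const
    (wa_d T) (wa1_d T) (wa2_cont T)
  have g2 := green (κ := κ) zeta_UH h0 (a := 2) (b := T) two_pos hT hq0 hq01 continuous_const
    (wb_d T) (wb1_d T) continuous_const
  have cu : ∀ {a b : ℝ}, 0 < a → ContinuousOn (fun q : ℝ × ℝ => u riemannZeta κ ε (pt q.1 q.2)) (RR a b) :=
    fun ha => comp_cont (u_cont zeta_UH h0) ha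
  have cl : ∀ {a b : ℝ}, 0 < a → ContinuousOn (fun q : ℝ × ℝ => lap riemannZeta κ ε (pt q.1 q.2)) (RR a b) :=
    fun ha => comp_cont (lap_cont zeta_UH h0) ha
  have cs : ∀ {a b : ℝ}, ContinuousOn (fun q : ℝ × ℝ => q.1 ^ 2 / 2) (RR a b) := fun {a b} =>
    Continuous.continuousOn (by fun_prop)
  have i1 : IntegrableOn (fun q : ℝ × ℝ => q.1 ^ 2 / 2 * wa T q.2 * lap riemannZeta κ ε (pt q.1 q.2)) (RR 1 2) :=
    rr_int ((cs.mul ((wa_cont T).comp continuous_snd).continuousOn).mul (cl one_pos))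
  have i2 : IntegrableOn (fun q : ℝ × ℝ => u riemannZeta κ ε (pt q.1 q.2) * (1 * wa T q.2 + q.1 ^ 2 / 2 * wa2 T q.2))
      (RR 1 2) :=
    rr_int ((cu one_pos).mul ((continuousOn_const.mul ((wa_cont T).comp continuous_snd).continuousOn).add
      (cs.mul ((wa2_cont T).comp continuous_snd).continuousOn)))
  have i3 : IntegrableOn (fun q : ℝ × ℝ => q.1 ^ 2 / 2 * (T - q.2) ^ 2 * lap riemannZeta κ ε (pt q.1 q.2)) (RR 2 T) :=
    rr_int ((cs.mul (Continuous.continuousOn (by fun_prop))).mul (cl two_pos))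
  have i4 : IntegrableOn (fun q : ℝ × ℝ => (T - q.2) ^ 2 * u riemannZeta κ ε (pt q.1 q.2)) (RR 2 T) :=
    rr_int (mul_w_cont (w := fun t => (T - t) ^ 2) (by fun_prop) (cu two_pos))
  have i5 : IntegrableOn (fun q : ℝ × ℝ => q.1 ^ 2 * u riemannZeta κ ε (pt q.1 q.2)) (RR 2 T) :=
    rr_int ((Continuous.continuousOn (by fun_prop)).mul (cu two_pos))
  have i6 : IntegrableOn (fun q : ℝ × ℝ => wa T q.2 * lap riemannZeta κ ε (pt q.1 q.2)) (RR 1 2) :=
    rr_int (mul_w_cont (wa_cont T) (cl one_pos))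
  have i7 : IntegrableOn (fun q : ℝ × ℝ => (T - q.2) ^ 2 * lap riemannZeta κ ε (pt q.1 q.2)) (RR 2 T) :=
    rr_int (mul_w_cont (w := fun t => (T - t) ^ 2) (by fun_prop) (cl two_pos))
  rw [integral_sub i1 i2] at g1
  have e2 : ∫ q in RR 2 T, (q.1 ^ 2 / 2 * (T - q.2) ^ 2 * lap riemannZeta κ ε (pt q.1 q.2) -
      u riemannZeta κ ε (pt q.1 q.2) * (1 * (T - q.2) ^ 2 + q.1 ^ 2 / 2 * 2)) =
      (∫ q in RR 2 T, q.1 ^ 2 / 2 * (T - q.2) ^ 2 * lap riemannZeta κ ε (pt q.1 q.2)) -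
      ((∫ q in RR 2 T, (T - q.2) ^ 2 * u riemannZeta κ ε (pt q.1 q.2)) +
      ∫ q in RR 2 T, q.1 ^ 2 * u riemannZeta κ ε (pt q.1 q.2)) := by
    have e21 := integral_sub i3 (i4.add i5)
    simp only [Pi.add_apply] at e21
    rw [integral_add i4 i5] at e21
    rw [← e21]
    refine integral_congr_ae (Eventually.of_forall fun q => ?_)
    dsimp only
    ring
  rw [e2] at g2
  -- inequalities
  have l1 : ∫ q in RR 1 2, q.1 ^ 2 / 2 * wa T q.2 * lap riemannZeta κ ε (pt q.1 q.2) ≤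
      2 * ∫ q in RR 1 2, wa T q.2 * lap riemannZeta κ ε (pt q.1 q.2) := by
    rw [← integral_const_mul]
    refine setIntegral_mono_on i1 (i6.const_mul 2) (RR_meas 1 2) fun q hq => ?_
    have k1 := (wa_abs hT hq.2.1 hq.2.2).1
    have k2 := lap_nonneg (ε := ε) hκ h0 (pt q.1 q.2)
    have k3 : q.1 ^ 2 / 2 ≤ 2 := by nlinarith [hq.1.1, hq.1.2]
    have k4 := mul_nonneg k1 k2
    nlinarith
  have l2 : ∫ q in RR 2 T, q.1 ^ 2 / 2 * (T - q.2) ^ 2 * lap riemannZeta κ ε (pt q.1 q.2) ≤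
      2 * ∫ q in RR 2 T, (T - q.2) ^ 2 * lap riemannZeta κ ε (pt q.1 q.2) := by
    rw [← integral_const_mul]
    refine setIntegral_mono_on i3 (i7.const_mul 2) (RR_meas 2 T) fun q hq => ?_
    have k1 := sq_nonneg (T - q.2)
    have k2 := lap_nonneg (ε := ε) hκ h0 (pt q.1 q.2)
    have k3 : q.1 ^ 2 / 2 ≤ 2 := by nlinarith [hq.1.1, hq.1.2]
    have k4 := mul_nonneg k1 k2
    nlinarith
  have l3 : 0 ≤ ∫ q in RR 2 T, q.1 ^ 2 * u riemannZeta κ ε (pt q.1 q.2) :=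
    setIntegral_nonneg (RR_meas 2 T) fun q _ => mul_nonneg (sq_nonneg _) (u_nn h0 _)
  have c1 : |∫ q in RR 1 2, u riemannZeta κ ε (pt q.1 q.2) * (1 * wa T q.2 + q.1 ^ 2 / 2 * wa2 T q.2)| ≤
      (K0 * (T ^ 2 + 2 * (4 * T))) * V := by
    refine set_bound fun q hq => ?_
    rw [abs_mul]
    refine mul_le_mul (b0 ε h0 h1 q hq) ?_ (abs_nonneg _) hK0.le
    refine (abs_add_le _ _).trans (add_le_add ?_ ?_)
    · have := wa_abs hT hq.2.1 hq.2.2
      rw [one_mul, abs_of_nonneg this.1]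
      exact this.2
    · rw [abs_mul, abs_of_nonneg (by positivity : 0 ≤ q.1 ^ 2 / 2)]
      refine mul_le_mul ?_ (wa2_abs hT hq.2.1 hq.2.2) (abs_nonneg _) (by norm_num)
      nlinarith [hq.1.1, hq.1.2]
  have hBS : ∀ t : ℝ, 2 ^ 2 / 2 * us riemannZeta κ ε (pt 2 t) - 2 * u riemannZeta κ ε (pt 2 t) -
      ((1 / 2) ^ 2 / 2 * us riemannZeta κ ε (pt (1 / 2) t) - 1 / 2 * u riemannZeta κ ε (pt (1 / 2) t)) =
      2 * us riemannZeta κ ε (pt 2 t) - 2 * u riemannZeta κ ε (pt 2 t) + 1 / 8 * Hf κ ε t +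
        1 / 2 * u riemannZeta κ ε (pt (1 / 2) t) := by
    intro t
    rw [us_half]
    ring
  simp_rw [hBS] at g1 g2
  have c2 : |∫ t in (1:ℝ)..2, wa T t * (2 * us riemannZeta κ ε (pt 2 t) - 2 * u riemannZeta κ ε (pt 2 t) +
      1 / 8 * Hf κ ε t + 1 / 2 * u riemannZeta κ ε (pt (1 / 2) t))| ≤ (T ^ 2 * (4 * K1 + K2 + K0)) * (2 - 1) := by
    refine ii_bound (by norm_num) fun t ht1 ht2 => ?_
    rw [abs_mul]
    have := wa_abs hT ht1 ht2
    refine mul_le_mul ?_ ?_ (abs_nonneg _) (by positivity)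
    · rw [abs_of_nonneg this.1]; exact this.2
    · have k1 := (b1 t ε h0 h1).1
      have k2 := (b1 t ε h0 h1).2
      have k3 := (b2 ε h0 h1).1 t ht1 ht2
      have k4 := b0 ε h0 h1 (1 / 2, t) (mem12 ⟨le_refl _, by norm_num⟩ ⟨ht1, ht2⟩)
      dsimp only at k4
      rw [abs_le] at k1 k2 k3 k4 ⊢
      constructor <;> linarith [k1.1, k1.2, k2.1, k2.2, k3.1, k3.2, k4.1, k4.2]
  have c3 : -((T ^ 2 * (4 * K1 + K2)) * (T - 2)) ≤ ∫ t in (2:ℝ)..T, (T - t) ^ 2 *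
      (2 * us riemannZeta κ ε (pt 2 t) - 2 * u riemannZeta κ ε (pt 2 t) +
      1 / 8 * Hf κ ε t + 1 / 2 * u riemannZeta κ ε (pt (1 / 2) t)) := by
    have hc : ∫ t in (2:ℝ)..T, (-(T ^ 2 * (4 * K1 + K2))) = -((T ^ 2 * (4 * K1 + K2)) * (T - 2)) := by
      rw [intervalIntegral.integral_const, smul_eq_mul]; ring
    rw [← hc]
    refine intervalIntegral.integral_mono_on hT (by simp) ?_ fun t ht => ?_
    · refine ContinuousOn.intervalIntegrable ?_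
      rw [uIcc_of_le hT]
      have c1 := us2_cont (κ := κ) h0 (a := 2) (b := T) two_pos 2
      have c2 := u2_cont (κ := κ) h0 (a := 2) (b := T) two_pos 2
      have c3 := u2_cont (κ := κ) h0 (a := 2) (b := T) two_pos (1 / 2)
      have c4 := (Hf_cont (κ := κ) h0).continuousOn (s := Icc 2 T)
      exact (Continuous.continuousOn (by fun_prop)).mul ((((continuousOn_const.mul c1).sub
        (continuousOn_const.mul c2)).add (continuousOn_const.mul c4)).add (continuousOn_const.mul c3))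
    · have k1 := (b1 t ε h0 h1).1
      have k2 := (b1 t ε h0 h1).2
      have k3 := (b2 ε h0 h1).2 t (by linarith [ht.1])
      have k4 := u_nn (κ := κ) h0 (pt (1 / 2) t)
      have k5 := wb_abs (T := T) (t := t) (by linarith [ht.1]) ht.2
      rw [abs_of_nonneg (sq_nonneg _)] at k5
      rw [abs_le] at k1 k2
      have k6 : -(4 * K1 + K2) ≤ 2 * us riemannZeta κ ε (pt 2 t) - 2 * u riemannZeta κ ε (pt 2 t) +
        1 / 8 * Hf κ ε t + 1 / 2 * u riemannZeta κ ε (pt (1 / 2) t) := by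
        linarith [k1.1, k1.2, k2.1, k2.2]
      have k7 := mul_le_mul_of_nonneg_left k6 (sq_nonneg (T - t))
      have k8 := mul_le_mul_of_nonneg_right k5 (by positivity : 0 ≤ 4 * K1 + K2)
      linarith
  have j1 : IntervalIntegrable (fun s => s ^ 2 / 2 * ((wa T 2 * uq riemannZeta κ ε (pt s 2) - wa1 T 2 * u riemannZeta κ ε (pt s 2)) -
      (wa T 1 * uq riemannZeta κ ε (pt s 1) - wa1 T 1 * u riemannZeta κ ε (pt s 1)))) volume (1 / 2) 2 := by
    have c1 : ∀ t : ℝ, 0 < t → Continuous fun s : ℝ => uq riemannZeta κ ε (pt s t) := by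
      intro t ht
      have c4 : Continuous fun s : ℝ => pt s t := by unfold pt; fun_prop
      refine (uq_cont zeta_UH h0).comp_continuous c4 fun s => ?_
      show 0 < (pt s t).im
      rw [pt_im]; exact ht
    have c2 := c1 2 two_pos
    have c3 := c1 1 one_pos
    have c5 := u1_cont (κ := κ) h0 (t := 2) two_pos
    have c6 := u1_cont (κ := κ) h0 (t := 1) one_pos
    refine Continuous.intervalIntegrable ?_ _ _
    fun_prop
  have j2 : IntervalIntegrable (fun s => s ^ 2 / 2 * (((T - T) ^ 2 * uq riemannZeta κ ε (pt s T) - -2 * (T - T) * u riemannZeta κ ε (pt s T)) -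
      ((T - 2) ^ 2 * uq riemannZeta κ ε (pt s 2) - -2 * (T - 2) * u riemannZeta κ ε (pt s 2)))) volume (1 / 2) 2 := by
    have c1 : ∀ t : ℝ, 0 < t → Continuous fun s : ℝ => uq riemannZeta κ ε (pt s t) := by
      intro t ht
      have c4 : Continuous fun s : ℝ => pt s t := by unfold pt; fun_prop
      refine (uq_cont zeta_UH h0).comp_continuous c4 fun s => ?_
      show 0 < (pt s t).im
      rw [pt_im]; exact ht
    have c2 := c1 2 two_pos
    have c3 := c1 T (by linarith)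
    have c5 := u1_cont (κ := κ) h0 (t := 2) two_pos
    have c6 := u1_cont (κ := κ) h0 (t := T) (by linarith)
    refine Continuous.intervalIntegrable ?_ _ _
    fun_prop
  have e5 := intervalIntegral.integral_add j1 j2
  have e6 : ∫ s in (1 / 2 : ℝ)..2, (s ^ 2 / 2 * ((wa T 2 * uq riemannZeta κ ε (pt s 2) - wa1 T 2 * u riemannZeta κ ε (pt s 2)) -
      (wa T 1 * uq riemannZeta κ ε (pt s 1) - wa1 T 1 * u riemannZeta κ ε (pt s 1))) +
      s ^ 2 / 2 * (((T - T) ^ 2 * uq riemannZeta κ ε (pt s T) - -2 * (T - T) * u riemannZeta κ ε (pt s T)) -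
      ((T - 2) ^ 2 * uq riemannZeta κ ε (pt s 2) - -2 * (T - 2) * u riemannZeta κ ε (pt s 2)))) =
      ∫ s in (1 / 2 : ℝ)..2, s ^ 2 / 2 * ((T - 1) ^ 2 * u riemannZeta κ ε (pt s 1) -
        (T - 2) ^ 2 * u riemannZeta κ ε (pt s 2)) := by
    refine intervalIntegral.integral_congr fun s _ => ?_
    try dsimp only
    unfold wa wa1
    ring
  rw [e6] at e5
  have c4 : |∫ s in (1 / 2 : ℝ)..2, s ^ 2 / 2 * ((T - 1) ^ 2 * u riemannZeta κ ε (pt s 1) -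
        (T - 2) ^ 2 * u riemannZeta κ ε (pt s 2))| ≤ (2 * (2 * T ^ 2 * K0)) * (2 - 1 / 2) := by
    refine ii_bound (by norm_num) fun s hs1 hs2 => ?_
    rw [abs_mul, abs_of_nonneg (by positivity : 0 ≤ s ^ 2 / 2)]
    refine mul_le_mul (by nlinarith) ?_ (abs_nonneg _) (by norm_num)
    refine (abs_sub _ _).trans ?_
    rw [abs_mul, abs_mul]
    have k1 := mul_le_mul (wb_abs (T := T) (t := 1) (by norm_num) (by linarith))
      (b0 ε h0 h1 (s, 1) (mem12 ⟨hs1, hs2⟩ ⟨le_refl _, by norm_num⟩)) (abs_nonneg _) (by positivity)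
    have k2 := mul_le_mul (wb_abs (T := T) (t := 2) (by norm_num) (by linarith))
      (b0 ε h0 h1 (s, 2) (mem12 ⟨hs1, hs2⟩ ⟨by norm_num, le_refl _⟩)) (abs_nonneg _) (by positivity)
    dsimp only at k1 k2
    linarith
  obtain ⟨hT2, hT3⟩ := T_le hT
  have m1 : K0 * (T ^ 2 + 2 * (4 * T)) * V ≤ 9 * K0 * V * T ^ 3 := by
    have q1 := mul_le_mul_of_nonneg_left hT2 (by positivity : 0 ≤ 8 * K0 * V)
    have q2 := mul_le_mul_of_nonneg_left hT3 (by positivity : 0 ≤ K0 * V)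
    linarith
  have m2 : T ^ 2 * (4 * K1 + K2 + K0) ≤ (4 * K1 + K2 + K0) * T ^ 3 := by
    have := mul_le_mul_of_nonneg_left hT3 (by positivity : 0 ≤ 4 * K1 + K2 + K0)
    linarith
  have m3 : T ^ 2 * (4 * K1 + K2) * (T - 2) ≤ (4 * K1 + K2) * T ^ 3 := by
    have : 0 ≤ (4 * K1 + K2) * T ^ 2 := by positivity
    nlinarith
  have m4 : 2 * (2 * T ^ 2 * K0) * (2 - 1 / 2) ≤ 6 * K0 * T ^ 3 := by
    have := mul_le_mul_of_nonneg_left hT3 (by positivity : 0 ≤ 6 * K0)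
    linarith
  unfold EE
  rw [abs_le] at c1 c2 c4
  linarith [c1.1, c1.2, c2.1, c2.2, c4.1, c4.2]

end Pool.Agent.X82.Area
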