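import Pool.Agent.X82.AreaD

set_option autoImplicit false

/-! The limit `ε → 0`. -/

open Complex MeasureTheory Filter Topology Set
open scoped ComplexConjugate ENNReal

namespace Pool.Agent.X82.Area

variable {κ ε T : ℝ}

/-- the zeros are countable -/
lemma zeros_countable : {s : ℂ | riemannZeta s = 0 ∧ s ≠ 1}.Countable := by
  have han : AnalyticOnNhd ℂ riemannZeta ({1}ᶜ : Set ℂ) := by
    refine DifferentiableOn.analyticOnNhd (fun z hz => ?_) isOpen_compl_singleton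
    exact (differentiableAt_riemannZeta hz).differentiableWithinAt
  refine (HereditarilyLindelofSpace.isLindelof _).countable_of_isDiscrete ?_
  rw [isDiscrete_iff_nhdsNE]
  intro z hz
  obtain ⟨hz0, hzne⟩ := hz
  rw [← disjoint_iff, Filter.disjoint_principal_right]
  rcases (han z hzne).eventually_eq_zero_or_eventually_ne_zero with h | h
  · exfalso
    have hc : IsPreconnected ({1}ᶜ : Set ℂ) := by
      refine (isConnected_compl_singleton_of_one_lt_rank ?_ 1).isPreconnected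
      rw [Complex.rank_real_complex]
      norm_num
    have h2 : riemannZeta 2 = 0 := han.eqOn_zero_of_preconnected_of_eventuallyEq_zero hc hzne h
      (show (2:ℂ) ∈ ({1}ᶜ : Set ℂ) by simp)
    exact riemannZeta_ne_zero_of_one_lt_re (by norm_num) h2
  · filter_upwards [h] with w hw hw2
    exact hw hw2.1

lemma pt_inj : Function.Injective fun q : ℝ × ℝ => pt q.1 q.2 := by
  intro q r h
  have h1 := congrArg Complex.re h
  have h2 := congrArg Complex.im h
  dsimp only at h1 h2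
  rw [pt_re, pt_re] at h1
  rw [pt_im, pt_im] at h2
  exact Prod.ext h1 h2

lemma zeros_null : (volume : Measure (ℝ × ℝ)) {q : ℝ × ℝ | 0 < q.2 ∧ riemannZeta (pt q.1 q.2) = 0} = 0 := by
  refine Set.Countable.measure_zero ?_ _
  have h := zeros_countable.preimage_of_injOn (f := fun q : ℝ × ℝ => pt q.1 q.2) (pt_inj.injOn)
  refine h.mono ?_
  rintro q ⟨h1, h2⟩
  refine ⟨h2, ?_⟩
  intro h3
  have := congrArg Complex.im h3
  rw [pt_im] at this
  simp at this
  linarith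

lemma ae_ne {a b : ℝ} (ha : 0 < a) : ∀ᵐ q ∂(volume.restrict (RR a b)), riemannZeta (pt q.1 q.2) ≠ 0 := by
  rw [ae_restrict_iff' (RR_meas a b)]
  have h : ∀ᵐ q ∂(volume : Measure (ℝ × ℝ)), ¬ (0 < q.2 ∧ riemannZeta (pt q.1 q.2) = 0) := by
    rw [ae_iff]
    simp only [not_not]
    exact zeros_null
  filter_upwards [h] with q hq hm h0
  exact hq ⟨ha.trans_le hm.2.1, h0⟩

/-- the limit density `4 κ² |ζ'|² |ζ|^(2κ-2)` -/
noncomputable def G (κ : ℝ) (z : ℂ) : ℝ :=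
  4 * κ ^ 2 * ‖deriv riemannZeta z‖ ^ 2 * ‖riemannZeta z‖ ^ (2 * κ - 2)

lemma G_nn (z : ℂ) : 0 ≤ G κ z := by unfold G; positivity

/-- the sequence tending to zero -/
noncomputable def en (n : ℕ) : ℝ := 1 / ((n : ℝ) + 1)

lemma en_pos (n : ℕ) : 0 < en n := by unfold en; positivity
lemma en_le (n : ℕ) : en n ≤ 1 := by
  unfold en
  rw [div_le_one (by positivity)]
  have := Nat.cast_nonneg (α := ℝ) n
  linarith
lemma en_lim : Tendsto en atTop (𝓝 0) := tendsto_one_div_add_atTop_nhds_zero_nat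

lemma p_lim (z : ℂ) : Tendsto (fun n => p riemannZeta (en n) z) atTop (𝓝 (‖riemannZeta z‖ ^ 2)) := by
  simp_rw [p_eq]
  have := en_lim.const_add (‖riemannZeta z‖ ^ 2)
  simpa using this

lemma sq_rpow {x a : ℝ} (hx : 0 ≤ x) : (x ^ 2) ^ a = x ^ (2 * a) := by
  rw [← Real.rpow_natCast, ← Real.rpow_mul hx]
  norm_num

lemma u_lim (hκ : 0 < κ) (z : ℂ) :
    Tendsto (fun n => u riemannZeta κ (en n) z) atTop (𝓝 (‖riemannZeta z‖ ^ (2 * κ))) := by
  unfold u
  rw [← sq_rpow (norm_nonneg _)]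
  exact (p_lim z).rpow_const (Or.inr hκ.le)

lemma lap_lim {z : ℂ} (hz : riemannZeta z ≠ 0) :
    Tendsto (fun n => lap riemannZeta κ (en n) z) atTop (𝓝 (G κ z)) := by
  have hn : 0 < ‖riemannZeta z‖ := norm_pos_iff.2 hz
  unfold lap
  have h1 := (p_lim z).rpow_const (p := κ - 2) (Or.inl (by positivity))
  have h2 : Tendsto (fun n => κ * ‖riemannZeta z‖ ^ 2 + en n) atTop (𝓝 (κ * ‖riemannZeta z‖ ^ 2 + 0)) :=
    en_lim.const_add _
  have h3 := (h1.const_mul (4 * κ * ‖deriv riemannZeta z‖ ^ 2)).mul h2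
  have e : 4 * κ * ‖deriv riemannZeta z‖ ^ 2 * (‖riemannZeta z‖ ^ 2) ^ (κ - 2) * (κ * ‖riemannZeta z‖ ^ 2 + 0) =
      G κ z := by
    have e2 : (‖riemannZeta z‖ ^ 2) ^ (κ - 2) * ‖riemannZeta z‖ ^ 2 = ‖riemannZeta z‖ ^ (2 * κ - 2) := by
      rw [← Real.rpow_add_one (by positivity), show κ - 2 + 1 = κ - 1 by ring, sq_rpow hn.le]
      congr 1; ring
    unfold G
    rw [← e2]
    ring
  rw [← e]
  exact h3

lemma lap_le (hκ : 0 < κ) (h0 : 0 < ε) (h1 : ε ≤ 1) {z : ℂ} (hz : riemannZeta z ≠ 0) :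
    lap riemannZeta κ ε z ≤ max κ 1 / κ * G κ z +
      4 * κ * max κ 1 * ‖deriv riemannZeta z‖ ^ 2 * (‖riemannZeta z‖ ^ 2 + 1) ^ (κ - 1) := by
  have hn : 0 < ‖riemannZeta z‖ := norm_pos_iff.2 hz
  have hpp := p_pos (f := riemannZeta) h0 z
  have hM : 0 < max κ 1 := lt_of_lt_of_le hκ (le_max_left _ _)
  have e1 : κ * ‖riemannZeta z‖ ^ 2 + ε ≤ max κ 1 * p riemannZeta ε z := by
    rw [p_eq]
    have k1 := mul_le_mul_of_nonneg_right (le_max_left κ 1) (sq_nonneg ‖riemannZeta z‖)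
    have k2 := mul_le_mul_of_nonneg_right (le_max_right κ 1) h0.le
    linarith
  have e2 : p riemannZeta ε z ^ (κ - 2) * p riemannZeta ε z = p riemannZeta ε z ^ (κ - 1) := by
    rw [← Real.rpow_add_one hpp.ne']
    congr 1; ring
  have e3 : lap riemannZeta κ ε z ≤ 4 * κ * max κ 1 * ‖deriv riemannZeta z‖ ^ 2 * p riemannZeta ε z ^ (κ - 1) := by
    unfold lap
    rw [← e2]
    have k := Real.rpow_nonneg hpp.le (κ - 2)
    have k3 := mul_le_mul_of_nonneg_left e1 (by positivity :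
      0 ≤ 4 * κ * ‖deriv riemannZeta z‖ ^ 2 * p riemannZeta ε z ^ (κ - 2))
    refine k3.trans (le_of_eq ?_)
    ring
  have e4 : p riemannZeta ε z ^ (κ - 1) ≤ ‖riemannZeta z‖ ^ (2 * κ - 2) + (‖riemannZeta z‖ ^ 2 + 1) ^ (κ - 1) := by
    have q1 : 0 ≤ ‖riemannZeta z‖ ^ (2 * κ - 2) := by positivity
    have q2 : 0 ≤ (‖riemannZeta z‖ ^ 2 + 1) ^ (κ - 1) := by positivity
    rcases le_total κ 1 with h | h
    · have : p riemannZeta ε z ^ (κ - 1) ≤ (‖riemannZeta z‖ ^ 2) ^ (κ - 1) :=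
        Real.rpow_le_rpow_of_nonpos (by positivity) (by rw [p_eq]; linarith) (by linarith)
      rw [sq_rpow hn.le, show 2 * (κ - 1) = 2 * κ - 2 by ring] at this
      linarith
    · have : p riemannZeta ε z ^ (κ - 1) ≤ (‖riemannZeta z‖ ^ 2 + 1) ^ (κ - 1) :=
        Real.rpow_le_rpow hpp.le (by rw [p_eq]; linarith) (by linarith)
      linarith
  refine e3.trans ?_
  have k4 := mul_le_mul_of_nonneg_left e4 (by positivity :
      0 ≤ 4 * κ * max κ 1 * ‖deriv riemannZeta z‖ ^ 2)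
  refine k4.trans (le_of_eq ?_)
  unfold G
  field_simp

/-- the dominating function -/
noncomputable def D2 (κ : ℝ) (z : ℂ) : ℝ :=
  4 * κ * max κ 1 * ‖deriv riemannZeta z‖ ^ 2 * (‖riemannZeta z‖ ^ 2 + 1) ^ (κ - 1)

lemma D2_cont : ContinuousOn (D2 κ) UH := by
  unfold D2
  have h1 := cont1 zeta_UH
  have h2 := cont0 zeta_UH
  refine (continuousOn_const.mul (h1.norm.pow 2)).mul ?_
  refine ((h2.norm.pow 2).add continuousOn_const).rpow_const fun z _ => Or.inl (ne_of_gt ?_)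
  show 0 < ‖riemannZeta z‖ ^ 2 + 1
  positivity

lemma D2_nn (hκ : 0 < κ) (z : ℂ) : 0 ≤ D2 κ z := by
  unfold D2
  have : 0 < max κ 1 := lt_of_lt_of_le hκ (le_max_left _ _)
  positivity

lemma lap_q_cont {a b : ℝ} (ha : 0 < a) (n : ℕ) :
    ContinuousOn (fun q : ℝ × ℝ => lap riemannZeta κ (en n) (pt q.1 q.2)) (RR a b) :=
  comp_cont (lap_cont zeta_UH (en_pos n)) ha

lemma wG_meas {a b : ℝ} (ha : 0 < a) {w : ℝ → ℝ} (hw : Continuous w) :
    AEStronglyMeasurable (fun q : ℝ × ℝ => w q.2 * G κ (pt q.1 q.2)) (volume.restrict (RR a b)) := by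
  refine aestronglyMeasurable_of_tendsto_ae atTop
    (f := fun (n : ℕ) (q : ℝ × ℝ) => w q.2 * lap riemannZeta κ (en n) (pt q.1 q.2)) (fun n => ?_) ?_
  · exact (mul_w_cont hw (lap_q_cont ha n)).aestronglyMeasurable (RR_meas a b)
  · filter_upwards [ae_ne (a := a) (b := b) ha] with q hq
    exact (lap_lim hq).const_mul _

/-- Fatou -/
lemma wG_int (hκ : 0 < κ) {a b M : ℝ} (ha : 0 < a) {w : ℝ → ℝ} (hw : Continuous w)
    (hw0 : ∀ t ∈ Icc a b, 0 ≤ w t)
    (hM : ∀ n, ∫ q in RR a b, w q.2 * lap riemannZeta κ (en n) (pt q.1 q.2) ≤ M) :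
    IntegrableOn (fun q : ℝ × ℝ => w q.2 * G κ (pt q.1 q.2)) (RR a b) := by
  refine ⟨wG_meas ha hw, ?_⟩
  have h0 : ∀ n, ∫⁻ q in RR a b, ‖w q.2 * lap riemannZeta κ (en n) (pt q.1 q.2)‖ₑ ≤ ENNReal.ofReal M := by
    intro n
    have hnn : 0 ≤ᵐ[volume.restrict (RR a b)] fun q : ℝ × ℝ => w q.2 * lap riemannZeta κ (en n) (pt q.1 q.2) := by
      rw [EventuallyLE, ae_restrict_iff' (RR_meas a b)]
      refine Eventually.of_forall fun q hq => ?_
      exact mul_nonneg (hw0 _ hq.2) (lap_nonneg hκ (en_pos n) _)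
    have h1 := ofReal_integral_eq_lintegral_ofReal (rr_int (mul_w_cont hw (lap_q_cont (κ := κ) (b := b) ha n))) hnn
    have h2 : ∫⁻ q in RR a b, ‖w q.2 * lap riemannZeta κ (en n) (pt q.1 q.2)‖ₑ =
        ∫⁻ q in RR a b, ENNReal.ofReal (w q.2 * lap riemannZeta κ (en n) (pt q.1 q.2)) := by
      refine lintegral_congr_ae ?_
      filter_upwards [hnn] with q hq
      exact Real.enorm_of_nonneg hq
    rw [h2, ← h1]
    exact ENNReal.ofReal_le_ofReal (hM n)
  unfold HasFiniteIntegral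
  have h3 : ∫⁻ q in RR a b, ‖w q.2 * G κ (pt q.1 q.2)‖ₑ ≤
      liminf (fun n => ∫⁻ q in RR a b, ‖w q.2 * lap riemannZeta κ (en n) (pt q.1 q.2)‖ₑ) atTop := by
    refine le_trans (le_of_eq ?_) (lintegral_liminf_le' (fun n => ?_))
    · refine lintegral_congr_ae ?_
      filter_upwards [ae_ne (a := a) (b := b) ha] with q hq
      have : Tendsto (fun n => ‖w q.2 * lap riemannZeta κ (en n) (pt q.1 q.2)‖ₑ) atTop
          (𝓝 ‖w q.2 * G κ (pt q.1 q.2)‖ₑ) := ((lap_lim hq).const_mul _).enorm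
      exact this.liminf_eq.symm
    · exact ((mul_w_cont hw (lap_q_cont ha n)).aestronglyMeasurable (RR_meas a b)).enorm
  refine lt_of_le_of_lt (h3.trans ?_) (ENNReal.ofReal_lt_top (r := M))
  refine liminf_le_of_le (by isBoundedDefault) fun b hb => ?_
  obtain ⟨n, hn⟩ := hb.exists
  exact hn.trans (h0 n)

lemma u_le (hκ : 0 < κ) (n : ℕ) (z : ℂ) : u riemannZeta κ (en n) z ≤ u riemannZeta κ 1 z := by
  unfold u
  refine Real.rpow_le_rpow (p_pos (en_pos n) z).le ?_ hκ.le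
  rw [p_eq, p_eq]
  linarith [en_le n]

/-- `EE` is bounded along the sequence -/
lemma EE_bdd (hκ : 0 < κ) (hT : 2 ≤ T) : ∃ M : ℝ, ∀ n, EE κ (en n) T ≤ M := by
  obtain ⟨C, hC, h⟩ := eps_A hκ
  have c1 : ContinuousOn (fun q : ℝ × ℝ => u riemannZeta κ 1 (pt q.1 q.2)) (RR 2 T) :=
    comp_cont (u_cont zeta_UH one_pos) two_pos
  set F : ℝ → ℝ := fun t => κ * |LL t| * (‖riemannZeta (pt (1 / 2) t)‖ ^ 2 + 1) ^ κ with hF
  have cF : Continuous F :=
    (continuous_const.mul LL_cont.abs).mul (((zeta_half_cont.norm.pow 2).add continuous_const).rpow_const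
      fun _ => Or.inr hκ.le)
  refine ⟨2 * (∫ q in RR 2 T, u riemannZeta κ 1 (pt q.1 q.2)) + (∫ t in (2:ℝ)..T, (T - t) ^ 2 * F t) +
    C * T ^ 3, fun n => ?_⟩
  have h1 := h T hT (en n) (en_pos n) (en_le n)
  rw [abs_le] at h1
  have h2 : ∫ q in RR 2 T, u riemannZeta κ (en n) (pt q.1 q.2) ≤ ∫ q in RR 2 T, u riemannZeta κ 1 (pt q.1 q.2) := by
    refine setIntegral_mono_on (rr_int (comp_cont (u_cont zeta_UH (en_pos n)) two_pos)) (rr_int c1) (RR_meas 2 T)
      fun q _ => ?_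
    exact u_le hκ n _
  have h3 : ∫ t in (2:ℝ)..T, (T - t) ^ 2 * Hf κ (en n) t ≤ ∫ t in (2:ℝ)..T, (T - t) ^ 2 * F t := by
    refine intervalIntegral.integral_mono_on hT ?_ ?_ fun t _ => ?_
    · exact (Continuous.mul (by fun_prop) (Hf_cont (en_pos n))).intervalIntegrable _ _
    · exact (Continuous.mul (by fun_prop) cF).intervalIntegrable _ _
    · refine mul_le_mul_of_nonneg_left ?_ (sq_nonneg _)
      exact (le_abs_self _).trans (Hf_abs hκ (en_pos n) (en_le n))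
  linarith [h1.2]

lemma parts_nn (hκ : 0 < κ) (hT : 2 ≤ T) (n : ℕ) :
    0 ≤ (∫ q in RR 1 2, wa T q.2 * lap riemannZeta κ (en n) (pt q.1 q.2)) ∧
    0 ≤ ∫ q in RR 2 T, (T - q.2) ^ 2 * lap riemannZeta κ (en n) (pt q.1 q.2) := by
  constructor
  · exact setIntegral_nonneg (RR_meas 1 2) fun q hq =>
      mul_nonneg (wa_abs hT hq.2.1 hq.2.2).1 (lap_nonneg hκ (en_pos n) _)
  · exact setIntegral_nonneg (RR_meas 2 T) fun q hq =>
      mul_nonneg (sq_nonneg _) (lap_nonneg hκ (en_pos n) _)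

/-- `G` is integrable -/
theorem G_int (hκ : 0 < κ) (T : ℝ) : IntegrableOn (fun q : ℝ × ℝ => G κ (pt q.1 q.2)) (RR 2 T) := by
  rcases lt_or_ge T 2 with hT | hT
  · have : RR 2 T = ∅ := by
      unfold RR
      rw [show Icc (2:ℝ) T = ∅ from Icc_eq_empty (by linarith), prod_empty]
    rw [this]
    exact integrableOn_empty
  obtain ⟨M, hM⟩ := EE_bdd (T := T + 1) hκ (by linarith)
  have h1 : IntegrableOn (fun q : ℝ × ℝ => (T + 1 - q.2) ^ 2 * G κ (pt q.1 q.2)) (RR 2 (T + 1)) := by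
    refine wG_int (w := fun t => (T + 1 - t) ^ 2) hκ two_pos (by fun_prop) (fun t _ => sq_nonneg _) (M := M) fun n => ?_
    have k := parts_nn (T := T + 1) hκ (by linarith) n
    have k2 := hM n
    unfold EE at k2
    linarith [k.1]
  have hsub : RR 2 T ⊆ RR 2 (T + 1) := prod_mono (le_refl _) (Icc_subset_Icc_right (by linarith))
  have h2 := h1.mono_set hsub
  refine Integrable.mono h2 ?_ ?_
  · have := wG_meas (κ := κ) (a := 2) (b := T) two_pos (w := fun _ => 1) continuous_const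
    simpa using this
  · rw [ae_restrict_iff' (RR_meas 2 T)]
    refine Eventually.of_forall fun q hq => ?_
    rw [Real.norm_of_nonneg (G_nn _), Real.norm_of_nonneg (mul_nonneg (sq_nonneg _) (G_nn _))]
    have k1 : 1 ≤ (T + 1 - q.2) ^ 2 := by
      have : 1 ≤ T + 1 - q.2 := by linarith [hq.2.2]
      nlinarith
    have := mul_le_mul_of_nonneg_right k1 (G_nn (κ := κ) (pt q.1 q.2))
    linarith

lemma G_int12 (hκ : 0 < κ) : IntegrableOn (fun q : ℝ × ℝ => (q.2 - 1) * G κ (pt q.1 q.2)) (RR 1 2) := by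
  obtain ⟨M, hM⟩ := EE_bdd (T := 3) hκ (by norm_num)
  have h1 : IntegrableOn (fun q : ℝ × ℝ => wa 3 q.2 * G κ (pt q.1 q.2)) (RR 1 2) := by
    refine wG_int (w := wa 3) hκ one_pos (wa_cont 3) (fun t ht => (wa_abs (by norm_num) ht.1 ht.2).1) (M := M) fun n => ?_
    have k := parts_nn (T := 3) hκ (by norm_num) n
    have k2 := hM n
    unfold EE at k2
    linarith [k.2]
  refine Integrable.mono h1 ?_ ?_
  · exact wG_meas (κ := κ) (a := 1) (b := 2) one_pos (w := fun t => t - 1) (by fun_prop)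
  · rw [ae_restrict_iff' (RR_meas 1 2)]
    refine Eventually.of_forall fun q hq => ?_
    have k0 : 0 ≤ q.2 - 1 := by linarith [hq.2.1]
    rw [Real.norm_of_nonneg (mul_nonneg k0 (G_nn _)),
      Real.norm_of_nonneg (mul_nonneg (wa_abs (by norm_num) hq.2.1 hq.2.2).1 (G_nn _))]
    have k1 : 1 ≤ (3 - q.2) ^ 2 := by
      have : 1 ≤ 3 - q.2 := by linarith [hq.2.2]
      nlinarith
    unfold wa
    have k2 := mul_nonneg k0 (G_nn (κ := κ) (pt q.1 q.2))
    have := mul_le_mul_of_nonneg_right k1 k2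
    linarith

/-- the small rectangle contributes `O(T²)` -/
lemma small_part (hκ : 0 < κ) : ∃ C : ℝ, 0 < C ∧ ∀ T : ℝ, 2 ≤ T → ∀ n : ℕ,
    (∫ q in RR 1 2, wa T q.2 * lap riemannZeta κ (en n) (pt q.1 q.2)) ≤ C * T ^ 2 := by
  have i1 := (G_int12 hκ).const_mul (max κ 1 / κ)
  have i2 : IntegrableOn (fun q : ℝ × ℝ => (q.2 - 1) * D2 κ (pt q.1 q.2)) (RR 1 2) :=
    rr_int (mul_w_cont (w := fun t => t - 1) (by fun_prop) (comp_cont D2_cont one_pos))
  have i3 := i1.add i2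
  have hM : 0 < max κ 1 := lt_of_lt_of_le hκ (le_max_left _ _)
  set I := ∫ q in RR 1 2, (max κ 1 / κ * ((q.2 - 1) * G κ (pt q.1 q.2)) + (q.2 - 1) * D2 κ (pt q.1 q.2)) with hI
  have hI0 : 0 ≤ I := by
    refine setIntegral_nonneg (RR_meas 1 2) fun q hq => ?_
    have k0 : 0 ≤ q.2 - 1 := by linarith [hq.2.1]
    have k1 := G_nn (κ := κ) (pt q.1 q.2)
    have k2 := D2_nn hκ (pt q.1 q.2)
    positivity
  refine ⟨I + 1, by positivity, fun T hT n => ?_⟩
  have h1 : (∫ q in RR 1 2, wa T q.2 * lap riemannZeta κ (en n) (pt q.1 q.2)) ≤ ∫ q in RR 1 2,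
      T ^ 2 * (max κ 1 / κ * ((q.2 - 1) * G κ (pt q.1 q.2)) + (q.2 - 1) * D2 κ (pt q.1 q.2)) := by
    refine setIntegral_mono_on_ae (rr_int (mul_w_cont (wa_cont T) (lap_q_cont one_pos n))) (i3.const_mul _)
      (RR_meas 1 2) ?_
    have h := ae_ne (a := 1) (b := 2) one_pos
    rw [ae_restrict_iff' (RR_meas 1 2)] at h
    filter_upwards [h] with q hq hm
    have k0 : 0 ≤ q.2 - 1 := by linarith [hm.2.1]
    have k1 := lap_le (ε := en n) hκ (en_pos n) (en_le n) (hq hm)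
    have k2 : (T - q.2) ^ 2 ≤ T ^ 2 := by
      have := wb_abs (T := T) (t := q.2) (by linarith [hm.2.1]) (by linarith [hm.2.2])
      rwa [abs_of_nonneg (sq_nonneg _)] at this
    have k3 := lap_nonneg (ε := en n) hκ (en_pos n) (pt q.1 q.2)
    change wa T q.2 * lap riemannZeta κ (en n) (pt q.1 q.2) ≤
      T ^ 2 * (max κ 1 / κ * ((q.2 - 1) * G κ (pt q.1 q.2)) + (q.2 - 1) * D2 κ (pt q.1 q.2))
    unfold wa
    calc (q.2 - 1) * (T - q.2) ^ 2 * lap riemannZeta κ (en n) (pt q.1 q.2) ≤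
        (q.2 - 1) * T ^ 2 * (max κ 1 / κ * G κ (pt q.1 q.2) + D2 κ (pt q.1 q.2)) := by
          unfold D2
          gcongr
      _ = _ := by ring
  refine h1.trans ?_
  rw [integral_const_mul]
  have := sq_nonneg T
  nlinarith

/-- convergence of the main area integral -/
lemma area_lim (hκ : 0 < κ) : Tendsto (fun n => ∫ q in RR 2 T, (T - q.2) ^ 2 * lap riemannZeta κ (en n) (pt q.1 q.2))
    atTop (𝓝 (∫ q in RR 2 T, (T - q.2) ^ 2 * G κ (pt q.1 q.2))) := by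
  have c1 : ContinuousOn (fun q : ℝ × ℝ => (T - q.2) ^ 2) (RR 2 T) := Continuous.continuousOn (by fun_prop)
  have i1 : IntegrableOn (fun q : ℝ × ℝ => (T - q.2) ^ 2 * G κ (pt q.1 q.2)) (RR 2 T) := by
    refine (G_int hκ T).continuousOn_mul c1 (RR_compact 2 T)
  have i2 : IntegrableOn (fun q : ℝ × ℝ => (T - q.2) ^ 2 * D2 κ (pt q.1 q.2)) (RR 2 T) :=
    rr_int (c1.mul (comp_cont D2_cont two_pos))
  refine tendsto_integral_of_dominated_convergence
    (fun q => max κ 1 / κ * ((T - q.2) ^ 2 * G κ (pt q.1 q.2)) + (T - q.2) ^ 2 * D2 κ (pt q.1 q.2))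
    (fun n => ?_) ((i1.const_mul _).add i2) (fun n => ?_) ?_
  · exact (c1.mul (lap_q_cont two_pos n)).aestronglyMeasurable (RR_meas 2 T)
  · filter_upwards [ae_ne (a := 2) (b := T) two_pos] with q hq
    have k1 := lap_le (ε := en n) hκ (en_pos n) (en_le n) hq
    have k3 := lap_nonneg (ε := en n) hκ (en_pos n) (pt q.1 q.2)
    rw [Real.norm_of_nonneg (mul_nonneg (sq_nonneg _) k3)]
    have k4 := mul_le_mul_of_nonneg_left k1 (sq_nonneg (T - q.2))
    refine k4.trans (le_of_eq ?_)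
    unfold D2
    ring
  · filter_upwards [ae_ne (a := 2) (b := T) two_pos] with q hq
    exact (lap_lim hq).const_mul _

lemma u_int_lim (hκ : 0 < κ) {w : ℝ → ℝ} (hw : Continuous w) (hw0 : ∀ t, 0 ≤ w t) :
    Tendsto (fun n => ∫ q in RR 2 T, w q.2 * u riemannZeta κ (en n) (pt q.1 q.2))
    atTop (𝓝 (∫ q in RR 2 T, w q.2 * ‖riemannZeta (pt q.1 q.2)‖ ^ (2 * κ))) := by
  have i2 : IntegrableOn (fun q : ℝ × ℝ => w q.2 * u riemannZeta κ 1 (pt q.1 q.2)) (RR 2 T) :=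
    rr_int (mul_w_cont hw (comp_cont (u_cont zeta_UH one_pos) two_pos))
  refine tendsto_integral_of_dominated_convergence
    (fun q => w q.2 * u riemannZeta κ 1 (pt q.1 q.2)) (fun n => ?_) i2 (fun n => ?_) ?_
  · exact (mul_w_cont hw (comp_cont (u_cont zeta_UH (en_pos n)) two_pos)).aestronglyMeasurable (RR_meas 2 T)
  · refine Eventually.of_forall fun q => ?_
    rw [Real.norm_of_nonneg (mul_nonneg (hw0 _) (u_nn (en_pos n) _))]
    exact mul_le_mul_of_nonneg_left (u_le hκ n _) (hw0 _)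
  · exact Eventually.of_forall fun q => (u_lim hκ _).const_mul _

lemma Hf_lim (hκ : 0 < κ) (t : ℝ) :
    Tendsto (fun n => Hf κ (en n) t) atTop (𝓝 (κ * LL t * ‖riemannZeta (pt (1 / 2) t)‖ ^ (2 * κ))) := by
  unfold Hf
  rcases eq_or_ne (riemannZeta (pt (1 / 2) t)) 0 with h | h
  · rw [h]
    simp only [norm_zero]
    rw [Real.zero_rpow (by positivity)]
    simp
  · have hn : 0 < ‖riemannZeta (pt (1 / 2) t)‖ := norm_pos_iff.2 h
    have h1 := (p_lim (pt (1 / 2) t)).rpow_const (p := κ - 1) (Or.inl (by positivity))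
    have h2 := h1.const_mul (κ * LL t * ‖riemannZeta (pt (1 / 2) t)‖ ^ 2)
    have e : κ * LL t * ‖riemannZeta (pt (1 / 2) t)‖ ^ 2 * (‖riemannZeta (pt (1 / 2) t)‖ ^ 2) ^ (κ - 1) =
        κ * LL t * ‖riemannZeta (pt (1 / 2) t)‖ ^ (2 * κ) := by
      rw [mul_assoc]
      congr 1
      rw [mul_comm, ← Real.rpow_add_one (by positivity), sq_rpow hn.le]
      congr 1; ring
    rw [← e]
    exact h2

lemma line_lim (hκ : 0 < κ) : Tendsto (fun n => ∫ t in (2:ℝ)..T, (T - t) ^ 2 * Hf κ (en n) t) atTop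
    (𝓝 (∫ t in (2:ℝ)..T, (T - t) ^ 2 * (κ * LL t * ‖riemannZeta (pt (1 / 2) t)‖ ^ (2 * κ)))) := by
  set F : ℝ → ℝ := fun t => κ * |LL t| * (‖riemannZeta (pt (1 / 2) t)‖ ^ 2 + 1) ^ κ with hF
  have cF : Continuous F :=
    (continuous_const.mul LL_cont.abs).mul (((zeta_half_cont.norm.pow 2).add continuous_const).rpow_const
      fun _ => Or.inr hκ.le)
  refine intervalIntegral.tendsto_integral_filter_of_dominated_convergence (fun t => (T - t) ^ 2 * F t)
    ?_ ?_ ?_ ?_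
  · refine Eventually.of_forall fun n => ?_
    exact (Continuous.mul (by fun_prop) (Hf_cont (en_pos n))).aestronglyMeasurable
  · refine Eventually.of_forall fun n => Eventually.of_forall fun t _ => ?_
    rw [norm_mul, Real.norm_of_nonneg (sq_nonneg _), Real.norm_eq_abs]
    exact mul_le_mul_of_nonneg_left (Hf_abs hκ (en_pos n) (en_le n)) (sq_nonneg _)
  · exact (Continuous.mul (by fun_prop) cF).intervalIntegrable _ _
  · exact Eventually.of_forall fun t _ => (Hf_lim hκ t).const_mul _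

/-- area integral, smoothed -/
noncomputable def EG (κ T : ℝ) : ℝ := ∫ q in RR 2 T, (T - q.2) ^ 2 * G κ (pt q.1 q.2)
/-- the integral of `|ζ|^(2κ)` over the rectangle -/
noncomputable def SS (κ T : ℝ) : ℝ := ∫ q in RR 2 T, ‖riemannZeta (pt q.1 q.2)‖ ^ (2 * κ)
/-- the integral over the line -/
noncomputable def PP (κ T : ℝ) : ℝ :=
  ∫ t in (2:ℝ)..T, (T - t) ^ 2 * (LL t * ‖riemannZeta (pt (1 / 2) t)‖ ^ (2 * κ))

theorem lim_A (hκ : 0 < κ) : ∃ C : ℝ, 0 < C ∧ ∀ T : ℝ, 2 ≤ T → |EG κ T - 2 * SS κ T - κ * PP κ T| ≤ C * T ^ 3 := by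
  obtain ⟨C1, hC1, h1⟩ := eps_A hκ
  obtain ⟨C2, hC2, h2⟩ := small_part hκ
  refine ⟨C1 + C2, by positivity, fun T hT => ?_⟩
  have hP : ∫ t in (2:ℝ)..T, (T - t) ^ 2 * (κ * LL t * ‖riemannZeta (pt (1 / 2) t)‖ ^ (2 * κ)) = κ * PP κ T := by
    unfold PP
    rw [← intervalIntegral.integral_const_mul]
    refine intervalIntegral.integral_congr fun t _ => ?_
    try dsimp only
    ring
  have l1 := area_lim (T := T) hκ
  have l2 := u_int_lim (T := T) hκ (w := fun _ => 1) continuous_const (fun _ => zero_le_one)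
  have l3 := line_lim (T := T) hκ
  rw [hP] at l3
  simp only [one_mul] at l2
  have l4 := ((l1.sub (l2.const_mul 2)).sub l3).abs
  refine le_of_tendsto l4 (Eventually.of_forall fun n => ?_)
  have k1 := h1 T hT (en n) (en_pos n) (en_le n)
  have k2 := h2 T hT n
  have k3 := (parts_nn hκ hT n).1
  unfold EE at k1
  obtain ⟨m1, m2⟩ := T_le hT
  have k4 : C2 * T ^ 2 ≤ C2 * T ^ 3 := mul_le_mul_of_nonneg_left m2 hC2.le
  rw [abs_le] at k1 ⊢
  constructor <;> linarith [k1.1, k1.2]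

theorem lim_B (hκ : 0 < κ) : ∃ C : ℝ, 0 < C ∧ ∀ T : ℝ, 2 ≤ T →
    (∫ q in RR 2 T, (T - q.2) ^ 2 * ‖riemannZeta (pt q.1 q.2)‖ ^ (2 * κ)) ≤ 2 * EG κ T + C * T ^ 3 := by
  obtain ⟨C1, hC1, h1⟩ := eps_B hκ
  obtain ⟨C2, hC2, h2⟩ := small_part hκ
  refine ⟨C1 + 2 * C2, by positivity, fun T hT => ?_⟩
  have l1 := area_lim (T := T) hκ
  have l2 := u_int_lim (T := T) hκ (w := fun t => (T - t) ^ 2) (by fun_prop) (fun _ => sq_nonneg _)
  have l5 := (l1.const_mul 2).add_const ((C1 + 2 * C2) * T ^ 3)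
  refine le_of_tendsto_of_tendsto l2 l5 (Eventually.of_forall fun n => ?_)
  have k1 := h1 T hT (en n) (en_pos n) (en_le n)
  have k2 := h2 T hT n
  unfold EE at k1
  obtain ⟨m1, m2⟩ := T_le hT
  have k4 : C2 * T ^ 2 ≤ C2 * T ^ 3 := mul_le_mul_of_nonneg_left m2 hC2.le
  dsimp only
  linarith

end Pool.Agent.X82.Area
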