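import Mathlib

set_option autoImplicit false

/-! A Tauberian lemma for the weight `(T - t)²` and monotone functions with a power of the logarithm. -/

open MeasureTheory Filter Topology Set

namespace Pool.Agent.X82.Area

/-- `T (log T)^q` and its companions -/
noncomputable def nu (m : ℕ) (q T : ℝ) : ℝ := T ^ m * Real.log T ^ q

lemma log_pos_ev : ∀ᶠ T : ℝ in atTop, 0 < Real.log T := by
  filter_upwards [eventually_gt_atTop 1] with T hT
  exact Real.log_pos hT

lemma log_scale {l : ℝ} (hl : 0 < l) (q : ℝ) :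
    Tendsto (fun T : ℝ => Real.log (l * T) ^ q / Real.log T ^ q) atTop (𝓝 1) := by
  have h1 : Tendsto (fun T : ℝ => Real.log (l * T) / Real.log T) atTop (𝓝 1) := by
    have h2 : Tendsto (fun T : ℝ => Real.log l / Real.log T + 1) atTop (𝓝 (0 + 1)) :=
      (Tendsto.div_atTop tendsto_const_nhds Real.tendsto_log_atTop).add tendsto_const_nhds
    rw [zero_add] at h2
    refine h2.congr' ?_
    filter_upwards [eventually_gt_atTop 1] with T hT
    have := Real.log_pos hT
    rw [Real.log_mul hl.ne' (by linarith)]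
    field_simp
  have h3 := h1.rpow_const (p := q) (Or.inl one_ne_zero)
  rw [Real.one_rpow] at h3
  refine h3.congr' ?_
  have h4 : Tendsto (fun T : ℝ => l * T) atTop atTop := tendsto_id.const_mul_atTop hl
  filter_upwards [eventually_gt_atTop 1, h4.eventually_gt_atTop 1] with T hT hT2
  rw [Real.div_rpow (Real.log_pos hT2).le (Real.log_pos hT).le]

lemma nu_scale {l : ℝ} (hl : 0 < l) (m : ℕ) (q : ℝ) :
    Tendsto (fun T : ℝ => nu m q (l * T) / nu m q T) atTop (𝓝 (l ^ m)) := by
  have h := (log_scale hl q).const_mul (l ^ m)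
  rw [mul_one] at h
  refine h.congr' ?_
  filter_upwards [eventually_gt_atTop 1] with T hT
  unfold nu
  have h1 : T ≠ 0 := by linarith
  have h2 : Real.log T ^ q ≠ 0 := (Real.rpow_pos_of_pos (Real.log_pos hT) _).ne'
  rw [mul_pow]
  field_simp

/-- transfer to `l * T` -/
lemma scale_lim {F : ℝ → ℝ} {a : ℝ} {m : ℕ} {q l : ℝ} (hl : 0 < l)
    (h : Tendsto (fun T => F T / nu m q T) atTop (𝓝 a)) :
    Tendsto (fun T => F (l * T) / nu m q T) atTop (𝓝 (a * l ^ m)) := by
  have h4 : Tendsto (fun T : ℝ => l * T) atTop atTop := tendsto_id.const_mul_atTop hl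
  have h5 := (h.comp h4).mul (nu_scale hl m q)
  refine h5.congr' ?_
  filter_upwards [eventually_gt_atTop 1, h4.eventually_gt_atTop 1] with T hT hT2
  have h6 : nu m q (l * T) ≠ 0 := by
    unfold nu
    have := Real.rpow_pos_of_pos (Real.log_pos hT2) q
    have : 0 < l * T := by linarith
    positivity
  simp only [Function.comp]
  field_simp

/-- the double integral of `N` -/
noncomputable def Kf (N : ℝ → ℝ) (T : ℝ) : ℝ := ∫ s in (0:ℝ)..T, 2 * (T - s) * N s

lemma wN_int {N : ℝ → ℝ} (hN : Monotone N) {w : ℝ → ℝ} (hw : Continuous w) (a b : ℝ) :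
    IntervalIntegrable (fun s => w s * N s) volume a b :=
  (hN.intervalIntegrable).continuousOn_mul hw.continuousOn

lemma lin_int (a b c : ℝ) : ∫ s in a..b, 2 * (c - s) = (c - a) ^ 2 - (c - b) ^ 2 := by
  have : ∀ s ∈ uIcc a b, HasDerivAt (fun s => -(c - s) ^ 2) (2 * (c - s)) s := by
    intro s _
    have h2 : HasDerivAt (fun t : ℝ => c - t) (-1) s := by simpa using (hasDerivAt_id s).const_sub c
    refine (h2.pow 2).neg.congr_deriv ?_
    simp
  rw [intervalIntegral.integral_eq_sub_of_hasDerivAt this (by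
    exact Continuous.intervalIntegrable (by fun_prop) _ _)]
  ring

/-- second differences -/
lemma second_diff {N : ℝ → ℝ} (hN : Monotone N) {T h : ℝ} (hh : 0 ≤ h) :
    2 * h ^ 2 * N T ≤ Kf N (T + 2 * h) - 2 * Kf N (T + h) + Kf N T ∧
    Kf N (T + 2 * h) - 2 * Kf N (T + h) + Kf N T ≤ 2 * h ^ 2 * N (T + 2 * h) := by
  have i1 : ∀ c a b : ℝ, IntervalIntegrable (fun s => 2 * (c - s) * N s) volume a b := fun c a b =>
    wN_int hN (by fun_prop) a b
  have e1 : Kf N (T + 2 * h) = (∫ s in (0:ℝ)..T, 2 * (T + 2 * h - s) * N s) +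
      (∫ s in T..(T + h), 2 * (T + 2 * h - s) * N s) + ∫ s in (T + h)..(T + 2 * h), 2 * (T + 2 * h - s) * N s := by
    unfold Kf
    rw [intervalIntegral.integral_add_adjacent_intervals (i1 _ _ _) (i1 _ _ _),
      intervalIntegral.integral_add_adjacent_intervals (i1 _ _ _) (i1 _ _ _)]
  have e2 : Kf N (T + h) = (∫ s in (0:ℝ)..T, 2 * (T + h - s) * N s) +
      ∫ s in T..(T + h), 2 * (T + h - s) * N s := by
    unfold Kf
    rw [intervalIntegral.integral_add_adjacent_intervals (i1 _ _ _) (i1 _ _ _)]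
  have e3 : (∫ s in (0:ℝ)..T, 2 * (T + 2 * h - s) * N s) - 2 * (∫ s in (0:ℝ)..T, 2 * (T + h - s) * N s) +
      (∫ s in (0:ℝ)..T, 2 * (T - s) * N s) = 0 := by
    rw [← intervalIntegral.integral_const_mul, ← intervalIntegral.integral_sub (i1 _ _ _) ((i1 _ _ _).const_mul 2),
      ← intervalIntegral.integral_add ((i1 _ _ _).sub ((i1 _ _ _).const_mul 2)) (i1 _ _ _)]
    rw [intervalIntegral.integral_congr (g := fun _ => (0:ℝ)) (fun s _ => by
      dsimp only
      ring)]
    simp
  have e4 : (∫ s in T..(T + h), 2 * (T + 2 * h - s) * N s) - 2 * (∫ s in T..(T + h), 2 * (T + h - s) * N s) =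
      ∫ s in T..(T + h), 2 * (s - T) * N s := by
    rw [← intervalIntegral.integral_const_mul, ← intervalIntegral.integral_sub (i1 _ _ _) ((i1 _ _ _).const_mul 2)]
    refine intervalIntegral.integral_congr fun s _ => ?_
    try dsimp only
    ring
  have e5 : Kf N (T + 2 * h) - 2 * Kf N (T + h) + Kf N T = (∫ s in T..(T + h), 2 * (s - T) * N s) +
      ∫ s in (T + h)..(T + 2 * h), 2 * (T + 2 * h - s) * N s := by
    rw [e1, e2, ← e4]
    have e6 : Kf N T = ∫ s in (0:ℝ)..T, 2 * (T - s) * N s := rfl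
    rw [e6]
    linarith
  rw [e5]
  have w1 : ∫ s in T..(T + h), 2 * (s - T) = h ^ 2 := by
    have := lin_int T (T + h) T
    have e : ∫ s in T..(T + h), 2 * (s - T) = -∫ s in T..(T + h), 2 * (T - s) := by
      rw [← intervalIntegral.integral_neg]
      refine intervalIntegral.integral_congr fun s _ => ?_
      try dsimp only
      ring
    rw [e, this]
    ring
  have w2 : ∫ s in (T + h)..(T + 2 * h), 2 * (T + 2 * h - s) = h ^ 2 := by
    rw [lin_int]
    ring
  have j1 : ∀ c : ℝ, IntervalIntegrable (fun s => 2 * (s - T) * c) volume T (T + h) := fun c =>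
    Continuous.intervalIntegrable (by fun_prop) _ _
  have j2 : ∀ c : ℝ, IntervalIntegrable (fun s => 2 * (T + 2 * h - s) * c) volume (T + h) (T + 2 * h) := fun c =>
    Continuous.intervalIntegrable (by fun_prop) _ _
  have k1 : IntervalIntegrable (fun s => 2 * (s - T) * N s) volume T (T + h) := wN_int hN (by fun_prop) _ _
  have v1 : ∀ c, ∫ s in T..(T + h), 2 * (s - T) * c = h ^ 2 * c := fun c => by
    rw [intervalIntegral.integral_mul_const, w1]
  have v2 : ∀ c, ∫ s in (T + h)..(T + 2 * h), 2 * (T + 2 * h - s) * c = h ^ 2 * c := fun c => by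
    rw [intervalIntegral.integral_mul_const, w2]
  constructor
  · have m1 : ∫ s in T..(T + h), 2 * (s - T) * N T ≤ ∫ s in T..(T + h), 2 * (s - T) * N s := by
      refine intervalIntegral.integral_mono_on (by linarith) (j1 _) k1 fun s hs => ?_
      exact mul_le_mul_of_nonneg_left (hN hs.1) (by linarith [hs.1])
    have m2 : ∫ s in (T + h)..(T + 2 * h), 2 * (T + 2 * h - s) * N T ≤
        ∫ s in (T + h)..(T + 2 * h), 2 * (T + 2 * h - s) * N s := by
      refine intervalIntegral.integral_mono_on (by linarith) (j2 _) (i1 _ _ _) fun s hs => ?_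
      exact mul_le_mul_of_nonneg_left (hN (by linarith [hs.1])) (by linarith [hs.2])
    rw [v1] at m1
    rw [v2] at m2
    linarith
  · have m1 : ∫ s in T..(T + h), 2 * (s - T) * N s ≤ ∫ s in T..(T + h), 2 * (s - T) * N (T + 2 * h) := by
      refine intervalIntegral.integral_mono_on (by linarith) k1 (j1 _) fun s hs => ?_
      exact mul_le_mul_of_nonneg_left (hN (by linarith [hs.2])) (by linarith [hs.1])
    have m2 : ∫ s in (T + h)..(T + 2 * h), 2 * (T + 2 * h - s) * N s ≤
        ∫ s in (T + h)..(T + 2 * h), 2 * (T + 2 * h - s) * N (T + 2 * h) := by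
      refine intervalIntegral.integral_mono_on (by linarith) (i1 _ _ _) (j2 _) fun s hs => ?_
      exact mul_le_mul_of_nonneg_left (hN hs.2) (by linarith [hs.2])
    rw [v1] at m1
    rw [v2] at m2
    linarith

/-- Abelian direction -/
theorem abel {N : ℝ → ℝ} (hN : Monotone N) (h0 : ∀ s, 0 ≤ N s) {q a : ℝ}
    (h : Tendsto (fun T => N T / nu 1 q T) atTop (𝓝 a)) :
    Tendsto (fun T => Kf N T / nu 3 q T) atTop (𝓝 (a / 3)) := by
  have e0 : ∫ u in (0:ℝ)..1, 2 * (1 - u) * (a * u) = a / 3 := by
    have : ∀ s ∈ uIcc (0:ℝ) 1, HasDerivAt (fun s => a * s ^ 2 - 2 * a / 3 * s ^ 3) (2 * (1 - s) * (a * s)) s := by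
      intro s _
      have h1 := ((hasDerivAt_pow 2 s).const_mul a).sub ((hasDerivAt_pow 3 s).const_mul (2 * a / 3))
      refine h1.congr_deriv ?_
      norm_num
      ring
    rw [intervalIntegral.integral_eq_sub_of_hasDerivAt this (by
      exact Continuous.intervalIntegrable (by fun_prop) _ _)]
    ring
  rw [← e0]
  have hT : Tendsto (fun T : ℝ => ∫ u in (0:ℝ)..1, 2 * (1 - u) * (N (u * T) / nu 1 q T)) atTop
      (𝓝 (∫ u in (0:ℝ)..1, 2 * (1 - u) * (a * u))) := by
    refine intervalIntegral.tendsto_integral_filter_of_dominated_convergence (fun _ => 2 * (|a| + 1)) ?_ ?_ ?_ ?_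
    · filter_upwards with T
      refine Measurable.aestronglyMeasurable ?_
      refine Measurable.mul (by fun_prop) ?_
      exact (hN.measurable.comp (measurable_id.mul_const T)).div_const _
    · have h1 : ∀ᶠ T in atTop, |N T / nu 1 q T| < |a| + 1 := h.abs.eventually_lt_const (by linarith)
      filter_upwards [h1, eventually_gt_atTop 1] with T hT1 hT2
      refine Eventually.of_forall fun u hu => ?_
      rw [uIoc_of_le zero_le_one] at hu
      have hnu : 0 < nu 1 q T := by
        unfold nu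
        have := Real.rpow_pos_of_pos (Real.log_pos hT2) q
        positivity
      have h2 : 0 ≤ N (u * T) / nu 1 q T := div_nonneg (h0 _) hnu.le
      have h3 : N (u * T) / nu 1 q T ≤ N T / nu 1 q T := by
        refine div_le_div_of_nonneg_right (hN ?_) hnu.le
        nlinarith [hu.2]
      have h4 : 0 ≤ 1 - u := by linarith [hu.2]
      rw [Real.norm_of_nonneg (by positivity)]
      have h5 := le_abs_self (N T / nu 1 q T)
      have h6 : N (u * T) / nu 1 q T ≤ |a| + 1 := by linarith
      have h7 : 1 - u ≤ 1 := by linarith [hu.1]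
      calc 2 * (1 - u) * (N (u * T) / nu 1 q T) ≤ 2 * 1 * (|a| + 1) := by
            gcongr
        _ = _ := by ring
    · simp
    · refine Eventually.of_forall fun u hu => ?_
      rw [uIoc_of_le zero_le_one] at hu
      have := scale_lim (l := u) hu.1 h
      rw [pow_one] at this
      exact this.const_mul _
  refine hT.congr' ?_
  filter_upwards [eventually_gt_atTop 1] with T hT2
  have hT0 : 0 < T := by linarith
  have hlog := Real.rpow_pos_of_pos (Real.log_pos hT2) q
  have e1 : Kf N T = T ^ 2 * ∫ u in (0:ℝ)..1, 2 * (1 - u) * N (u * T) := by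
    unfold Kf
    have h3 := intervalIntegral.integral_comp_mul_right (a := (0:ℝ)) (b := 1)
      (fun s => 2 * (T - s) * N s) hT0.ne'
    rw [zero_mul, one_mul, smul_eq_mul] at h3
    have h4 : ∫ s in (0:ℝ)..T, 2 * (T - s) * N s = T * ∫ u in (0:ℝ)..1, 2 * (T - u * T) * N (u * T) := by
      rw [h3]
      field_simp
    rw [h4, ← intervalIntegral.integral_const_mul, ← intervalIntegral.integral_const_mul]
    refine intervalIntegral.integral_congr fun u _ => ?_
    try dsimp only
    ring
  have e2 : ∫ u in (0:ℝ)..1, 2 * (1 - u) * (N (u * T) / nu 1 q T) =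
      (∫ u in (0:ℝ)..1, 2 * (1 - u) * N (u * T)) / nu 1 q T := by
    rw [← intervalIntegral.integral_div]
    refine intervalIntegral.integral_congr fun u _ => ?_
    try dsimp only
    ring
  rw [e1, e2]
  generalize (∫ u in (0:ℝ)..1, 2 * (1 - u) * N (u * T)) = I
  unfold nu
  field_simp

/-- Tauberian direction -/
theorem taub {N : ℝ → ℝ} (hN : Monotone N) {q b : ℝ}
    (h : Tendsto (fun T => Kf N T / nu 3 q T) atTop (𝓝 b)) :
    Tendsto (fun T => N T / nu 1 q T) atTop (𝓝 (3 * b)) := by
  -- the quotient of second differences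
  have hD : ∀ d : ℝ, 0 < d → Tendsto (fun T => (Kf N (T + 2 * (d * T)) - 2 * Kf N (T + d * T) + Kf N T) /
      nu 3 q T) atTop (𝓝 (6 * d ^ 2 * (1 + d) * b)) := by
    intro d hd
    have h1 := scale_lim (l := 1 + 2 * d) (by positivity) h
    have h2 := scale_lim (l := 1 + d) (by positivity) h
    have h3 := (h1.sub (h2.const_mul 2)).add h
    have e : b * (1 + 2 * d) ^ 3 - 2 * (b * (1 + d) ^ 3) + b = 6 * d ^ 2 * (1 + d) * b := by ring
    rw [e] at h3
    refine h3.congr' (Eventually.of_forall fun T => ?_)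
    dsimp only
    rw [show T + 2 * (d * T) = (1 + 2 * d) * T by ring, show T + d * T = (1 + d) * T by ring]
    ring
  have hup : ∀ d : ℝ, 0 < d → ∀ᶠ T in atTop, N T / nu 1 q T ≤ 3 * (1 + d) * b + d := by
    intro d hd
    have h1 := (hD d hd).div_const (2 * d ^ 2)
    have h2 : 6 * d ^ 2 * (1 + d) * b / (2 * d ^ 2) = 3 * (1 + d) * b := by field_simp; ring
    rw [h2] at h1
    filter_upwards [h1.eventually_le_const (show 3 * (1 + d) * b < 3 * (1 + d) * b + d by linarith),
      eventually_gt_atTop 1] with T hT hT2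
    refine le_trans ?_ hT
    have hlog := Real.rpow_pos_of_pos (Real.log_pos hT2) q
    have hT0 : 0 < T := by linarith
    have h3 := (second_diff hN (T := T) (h := d * T) (by positivity)).1
    rw [div_div, div_le_div_iff₀ (by unfold nu; positivity) (by unfold nu; positivity)]
    have h4 := mul_le_mul_of_nonneg_right h3 (show 0 ≤ nu 1 q T by unfold nu; positivity)
    refine le_trans (le_of_eq ?_) h4
    unfold nu
    ring
  have hlo : ∀ d : ℝ, 0 < d → ∀ᶠ T in atTop, 3 * (1 + d) * b / (1 + 2 * d) - d ≤ N T / nu 1 q T := by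
    intro d hd
    have h1 := (hD d hd).div_const (2 * d ^ 2)
    have h2 : 6 * d ^ 2 * (1 + d) * b / (2 * d ^ 2) = 3 * (1 + d) * b := by field_simp; ring
    rw [h2] at h1
    have h5 := nu_scale (l := 1 + 2 * d) (by positivity) 1 q
    have h6 := h1.div h5 (by positivity)
    rw [pow_one] at h6
    have h7 := h6.eventually_const_le (show 3 * (1 + d) * b / (1 + 2 * d) - d < 3 * (1 + d) * b / (1 + 2 * d) by linarith)
    have h8 : ∀ᶠ T : ℝ in atTop, 3 * (1 + d) * b / (1 + 2 * d) - d ≤
        N ((1 + 2 * d) * T) / nu 1 q ((1 + 2 * d) * T) := by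
      filter_upwards [h7, eventually_gt_atTop 1] with T hT hT2
      refine hT.trans ?_
      have hlog := Real.rpow_pos_of_pos (Real.log_pos hT2) q
      have hT0 : 0 < T := by linarith
      have hT3 : 1 < (1 + 2 * d) * T := by nlinarith
      have hlog2 := Real.rpow_pos_of_pos (Real.log_pos hT3) q
      have h3 := (second_diff hN (T := T) (h := d * T) (by positivity)).2
      have h9 : 0 < nu 1 q ((1 + 2 * d) * T) := by unfold nu; positivity
      show (Kf N (T + 2 * (d * T)) - 2 * Kf N (T + d * T) + Kf N T) / nu 3 q T / (2 * d ^ 2) /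
        (nu 1 q ((1 + 2 * d) * T) / nu 1 q T) ≤ N ((1 + 2 * d) * T) / nu 1 q ((1 + 2 * d) * T)
      rw [show T + 2 * (d * T) = (1 + 2 * d) * T by ring] at h3 ⊢
      rw [div_div_eq_mul_div, div_div, div_mul_eq_mul_div, div_div]
      rw [div_le_div_iff₀ (by unfold nu; positivity) (by unfold nu; positivity)]
      have h4 := mul_le_mul_of_nonneg_right h3 (show 0 ≤ nu 1 q T * nu 1 q ((1 + 2 * d) * T) by unfold nu; positivity)
      refine le_trans (le_of_eq ?_) (h4.trans (le_of_eq ?_))
      · ring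
      · unfold nu
        ring
    have h10 : Tendsto (fun T : ℝ => T / (1 + 2 * d)) atTop atTop := tendsto_id.atTop_div_const (by positivity)
    filter_upwards [h10.eventually h8] with T hT
    rwa [mul_div_cancel₀ T (by positivity)] at hT
  rw [tendsto_order]
  constructor
  · intro c hc
    have hcont : Tendsto (fun d : ℝ => 3 * (1 + d) * b / (1 + 2 * d) - d) (𝓝[>] 0) (𝓝 (3 * (1 + 0) * b / (1 + 2 * 0) - 0)) := by
      refine Tendsto.mono_left ?_ nhdsWithin_le_nhds
      refine ContinuousAt.tendsto ?_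
      refine ContinuousAt.sub (ContinuousAt.div (by fun_prop) (by fun_prop) (by norm_num)) continuousAt_id
    have e : 3 * (1 + 0) * b / (1 + 2 * 0) - 0 = 3 * b := by ring
    rw [e] at hcont
    obtain ⟨d, hd1, hd2⟩ := ((hcont.eventually_const_lt hc).and self_mem_nhdsWithin).exists
    filter_upwards [hlo d hd2] with T hT
    linarith
  · intro c hc
    have hcont : Tendsto (fun d : ℝ => 3 * (1 + d) * b + d) (𝓝[>] 0) (𝓝 (3 * (1 + 0) * b + 0)) := by
      refine Tendsto.mono_left ?_ nhdsWithin_le_nhds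
      refine ContinuousAt.tendsto ?_
      fun_prop
    have e : 3 * (1 + 0) * b + 0 = 3 * b := by ring
    rw [e] at hcont
    obtain ⟨d, hd1, hd2⟩ := ((hcont.eventually_lt_const hc).and self_mem_nhdsWithin).exists
    filter_upwards [hup d hd2] with T hT
    linarith

/-- Fubini -/
theorem fub {X : Type*} [MeasurableSpace X] (m : Measure X) [SFinite m] {τ : X → ℝ} (hτ : Measurable τ)
    {B : Set X} (hB : MeasurableSet B) (hB0 : ∀ x ∈ B, 0 < τ x) {g : X → ℝ} {T : ℝ} (hT : 0 ≤ T)
    (hg : IntegrableOn g {x | x ∈ B ∧ τ x ≤ T} m) :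
    ∫ x in {x | x ∈ B ∧ τ x ≤ T}, (T - τ x) ^ 2 * g x ∂m =
      Kf (fun s => ∫ x in {x | x ∈ B ∧ τ x ≤ s}, g x ∂m) T := by
  set S : ℝ → Set X := fun s => {x | x ∈ B ∧ τ x ≤ s} with hS
  have hSm : ∀ s, MeasurableSet (S s) := fun s => hB.inter (measurableSet_le hτ measurable_const)
  set f : X → ℝ → ℝ := fun x s => {p : X × ℝ | τ p.1 ≤ p.2}.indicator (fun p => g p.1 * (2 * (T - p.2))) (x, s) with hf
  have hPm : MeasurableSet {p : X × ℝ | τ p.1 ≤ p.2} :=
    measurableSet_le (hτ.comp measurable_fst) measurable_snd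
  have hint : Integrable (Function.uncurry f) ((m.restrict (S T)).prod (volume.restrict (Ioc 0 T))) := by
    have h1 : Integrable (fun p : X × ℝ => g p.1 * (2 * (T - p.2))) ((m.restrict (S T)).prod (volume.restrict (Ioc 0 T))) := by
      refine Integrable.mul_prod (f := g) (g := fun s : ℝ => 2 * (T - s)) hg ?_
      exact (Continuous.integrableOn_Ioc (by fun_prop))
    have h2 := h1.indicator hPm
    refine h2.congr (Eventually.of_forall fun p => ?_)
    rfl
  have hsw := integral_integral_swap hint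
  have eL : ∫ x in S T, (∫ s in Ioc (0:ℝ) T, f x s) ∂m = ∫ x in S T, (T - τ x) ^ 2 * g x ∂m := by
    refine setIntegral_congr_fun (hSm T) fun x hx => ?_
    have hx0 := hB0 x hx.1
    have e1 : (fun s => f x s) = (Ici (τ x)).indicator (fun s => g x * (2 * (T - s))) := by
      ext s
      simp only [hf, indicator, mem_ofPred_eq, mem_Ici]
    show ∫ s in Ioc 0 T, f x s = (T - τ x) ^ 2 * g x
    rw [e1, setIntegral_indicator measurableSet_Ici]
    have e2 : Ioc 0 T ∩ Ici (τ x) = Icc (τ x) T := by
      ext s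
      simp only [mem_inter_iff, mem_Ioc, mem_Ici, mem_Icc]
      constructor
      · rintro ⟨⟨a, b⟩, c⟩; exact ⟨c, b⟩
      · rintro ⟨a, b⟩; exact ⟨⟨by linarith, b⟩, a⟩
    rw [e2, integral_Icc_eq_integral_Ioc, ← intervalIntegral.integral_of_le hx.2, intervalIntegral.integral_const_mul,
      lin_int]
    ring
  have eR : ∫ s in Ioc (0:ℝ) T, (∫ x in S T, f x s ∂m) = Kf (fun s => ∫ x in S s, g x ∂m) T := by
    unfold Kf
    rw [intervalIntegral.integral_of_le hT]
    refine setIntegral_congr_fun measurableSet_Ioc fun s hs => ?_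
    have e1 : (fun x => f x s) = {x | τ x ≤ s}.indicator (fun x => g x * (2 * (T - s))) := by
      ext x
      simp only [hf, indicator, mem_ofPred_eq]
    show ∫ x in S T, f x s ∂m = 2 * (T - s) * ∫ x in S s, g x ∂m
    rw [e1, setIntegral_indicator (measurableSet_le hτ measurable_const)]
    have e2 : S T ∩ {x | τ x ≤ s} = S s := by
      ext x
      simp only [hS, mem_inter_iff, mem_ofPred_eq]
      constructor
      · rintro ⟨⟨a, b⟩, c⟩; exact ⟨a, c⟩
      · rintro ⟨a, b⟩; exact ⟨⟨a, b.trans hs.2⟩, b⟩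
    rw [e2, integral_mul_const]
    ring
  rw [← eL, ← eR]
  exact hsw

end Pool.Agent.X82.Area
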