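import Pool.Agent.X82.AreaF
import Pool.Agent.X82.AreaB

set_option autoImplicit false

/-! From the weight `LL t ~ log t` to the plain moment. -/

open MeasureTheory Filter Topology Set

namespace Pool.Agent.X82.Area

/-- the shorter height -/
noncomputable def sh (T : ℝ) : ℝ := T / Real.log T ^ 2

lemma loglog_lim : Tendsto (fun T : ℝ => Real.log (Real.log T) / Real.log T) atTop (𝓝 0) := by
  have h := Real.isLittleO_log_id_atTop.tendsto_div_nhds_zero
  exact h.comp Real.tendsto_log_atTop

lemma log_sh : ∀ᶠ T : ℝ in atTop, Real.log (sh T) = Real.log T - 2 * Real.log (Real.log T) := by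
  filter_upwards [eventually_gt_atTop 1] with T hT
  have h := Real.log_pos hT
  unfold sh
  rw [Real.log_div (by linarith) (by positivity), Real.log_pow]
  norm_num

lemma log_sh_ratio : Tendsto (fun T : ℝ => Real.log (sh T) / Real.log T) atTop (𝓝 1) := by
  have h := (loglog_lim.const_mul 2).const_sub 1
  rw [mul_zero, sub_zero] at h
  refine h.congr' ?_
  filter_upwards [eventually_gt_atTop 1, log_sh] with T hT h2
  have h := Real.log_pos hT
  rw [h2]
  field_simp

lemma log_sh_top : Tendsto (fun T : ℝ => Real.log (sh T)) atTop atTop := by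
  have h := log_sh_ratio.pos_mul_atTop one_pos Real.tendsto_log_atTop
  refine h.congr' ?_
  filter_upwards [eventually_gt_atTop 1] with T hT
  have h := Real.log_pos hT
  field_simp

lemma sh_top : Tendsto sh atTop atTop := by
  have h := Real.tendsto_exp_atTop.comp log_sh_top
  refine h.congr' ?_
  filter_upwards [eventually_gt_atTop 1] with T hT
  have h := Real.log_pos hT
  simp only [Function.comp]
  rw [Real.exp_log]
  unfold sh
  positivity

lemma sh_le : ∀ᶠ T : ℝ in atTop, sh T ≤ T := by
  filter_upwards [Real.tendsto_log_atTop.eventually_ge_atTop 1, eventually_gt_atTop 1] with T h hT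
  unfold sh
  exact div_le_self (by linarith) (one_le_pow₀ h)

lemma inv_log_lim : Tendsto (fun T : ℝ => 1 / Real.log T) atTop (𝓝 0) :=
  Tendsto.div_atTop tendsto_const_nhds Real.tendsto_log_atTop

/-- the value at the shorter height is negligible -/
lemma small_sh {F : ℝ → ℝ} {p c : ℝ} (h : Tendsto (fun T => F T / nu 1 p T) atTop (𝓝 c)) :
    Tendsto (fun T => F (sh T) / nu 1 (p - 1) T) atTop (𝓝 0) := by
  have h1 := h.comp sh_top
  have h2 := log_sh_ratio.rpow_const (p := p) (Or.inl one_ne_zero)
  have h3 := (h1.mul h2).mul inv_log_lim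
  rw [mul_zero] at h3
  refine h3.congr' ?_
  filter_upwards [eventually_gt_atTop 1, log_sh_top.eventually_gt_atTop 0] with T hT h4
  have h5 := Real.log_pos hT
  have hT0 : 0 < T := by linarith
  have hs : 0 < sh T := by unfold sh; positivity
  simp only [Function.comp]
  rw [Real.div_rpow h4.le h5.le]
  unfold nu
  have e1 : Real.log T ^ p = Real.log T ^ (p - 1) * Real.log T := by
    rw [← Real.rpow_add_one h5.ne']; congr 1; ring
  have h6 : 0 < Real.log (sh T) ^ p := Real.rpow_pos_of_pos h4 _
  have h7 : 0 < Real.log T ^ (p - 1) := Real.rpow_pos_of_pos h5 _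
  rw [e1, pow_one, pow_one]
  have e2 : sh T * Real.log T ^ 2 = T := by unfold sh; field_simp
  field_simp
  linear_combination (-F (sh T)) * e2

section
variable {φ : ℝ → ℝ}

/-- the moment over `[2, T]` -/
noncomputable def MM (φ : ℝ → ℝ) (T : ℝ) : ℝ := ∫ x in {x : ℝ | x ∈ Ici (2:ℝ) ∧ x ≤ T}, φ x
/-- the moment with the weight `max (LL t) 0` -/
noncomputable def NN (φ : ℝ → ℝ) (T : ℝ) : ℝ := ∫ x in {x : ℝ | x ∈ Ici (2:ℝ) ∧ x ≤ T}, max (LL x) 0 * φ x

lemma set_eq (T : ℝ) : {x : ℝ | x ∈ Ici (2:ℝ) ∧ x ≤ T} = Icc 2 T := by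
  ext x; simp [mem_Icc, mem_Ici]

lemma MM_eq {T : ℝ} (hT : 2 ≤ T) : MM φ T = ∫ x in (2:ℝ)..T, φ x := by
  unfold MM
  rw [set_eq, integral_Icc_eq_integral_Ioc, intervalIntegral.integral_of_le hT]

lemma NN_eq {T : ℝ} (hT : 2 ≤ T) : NN φ T = ∫ x in (2:ℝ)..T, max (LL x) 0 * φ x := by
  unfold NN
  rw [set_eq, integral_Icc_eq_integral_Ioc, intervalIntegral.integral_of_le hT]

lemma mono_int {g : ℝ → ℝ} (hg : Continuous g) (h0 : ∀ x, 0 ≤ g x) :
    Monotone fun T : ℝ => ∫ x in {x : ℝ | x ∈ Ici (2:ℝ) ∧ x ≤ T}, g x := by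
  intro a b hab
  dsimp only
  rw [set_eq, set_eq]
  exact setIntegral_mono_set (hg.continuousOn.integrableOn_compact isCompact_Icc)
    (Eventually.of_forall fun x => h0 x) (LE.le.eventuallyLE (Icc_subset_Icc_right hab))

lemma LLp_cont : Continuous fun x => max (LL x) 0 := LL_cont.max continuous_const

/-- comparison over `[A, T]` -/
lemma compare (hφ : Continuous φ) (h0 : ∀ x, 0 ≤ φ x) {C : ℝ} (hC : ∀ t : ℝ, 1 ≤ t → |LL t - Real.log t| ≤ C)
    {A T : ℝ} (hA : 2 ≤ A) (hAT : A ≤ T) (hlog : 0 ≤ Real.log A - C) :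
    (Real.log A - C) * (MM φ T - MM φ A) ≤ NN φ T - NN φ A ∧
    NN φ T - NN φ A ≤ (Real.log T + C) * (MM φ T - MM φ A) := by
  have i1 : ∀ a b, IntervalIntegrable φ volume a b := fun a b => hφ.intervalIntegrable a b
  have i2 : ∀ a b, IntervalIntegrable (fun x => max (LL x) 0 * φ x) volume a b := fun a b =>
    (LLp_cont.mul hφ).intervalIntegrable a b
  have e1 : MM φ T - MM φ A = ∫ x in A..T, φ x := by
    rw [MM_eq hA, MM_eq (hA.trans hAT), intervalIntegral.integral_interval_sub_left (i1 _ _) (i1 _ _)]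
  have e2 : NN φ T - NN φ A = ∫ x in A..T, max (LL x) 0 * φ x := by
    rw [NN_eq hA, NN_eq (hA.trans hAT), intervalIntegral.integral_interval_sub_left (i2 _ _) (i2 _ _)]
  rw [e1, e2, ← intervalIntegral.integral_const_mul, ← intervalIntegral.integral_const_mul]
  constructor
  · refine intervalIntegral.integral_mono_on hAT ((i1 _ _).const_mul _) (i2 _ _) fun x hx => ?_
    refine mul_le_mul_of_nonneg_right ?_ (h0 x)
    have h1 := hC x (by linarith [hx.1])
    rw [abs_le] at h1
    have h2 := Real.log_le_log (by linarith) hx.1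
    exact le_max_of_le_left (by linarith [h1.1])
  · refine intervalIntegral.integral_mono_on hAT (i2 _ _) ((i1 _ _).const_mul _) fun x hx => ?_
    refine mul_le_mul_of_nonneg_right ?_ (h0 x)
    have h1 := hC x (by linarith [hx.1])
    rw [abs_le] at h1
    have h2 := Real.log_le_log (by linarith [hx.1]) hx.2
    have h3 := Real.log_le_log (by linarith) hx.1
    refine max_le (by linarith [h1.2]) ?_
    have : 0 ≤ C := (abs_nonneg _).trans (hC 1 le_rfl)
    have h4 : 0 ≤ Real.log T := Real.log_nonneg (by linarith)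
    linarith

lemma NN_le (hφ : Continuous φ) (h0 : ∀ x, 0 ≤ φ x) {C : ℝ} (hC : ∀ t : ℝ, 1 ≤ t → |LL t - Real.log t| ≤ C)
    {T : ℝ} (hT : 2 ≤ T) : NN φ T ≤ (Real.log T + C) * MM φ T := by
  rw [NN_eq hT, MM_eq hT, ← intervalIntegral.integral_const_mul]
  refine intervalIntegral.integral_mono_on hT ((LLp_cont.mul hφ).intervalIntegrable _ _)
    ((hφ.intervalIntegrable _ _).const_mul _) fun x hx => ?_
  refine mul_le_mul_of_nonneg_right ?_ (h0 x)
  have h1 := hC x (by linarith [hx.1])
  rw [abs_le] at h1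
  have h2 := Real.log_le_log (by linarith [hx.1]) hx.2
  refine max_le (by linarith [h1.2]) ?_
  have : 0 ≤ C := (abs_nonneg _).trans (hC 1 le_rfl)
  have h4 : 0 ≤ Real.log T := Real.log_nonneg (by linarith)
  linarith

lemma MM_nn (h0 : ∀ x, 0 ≤ φ x) (T : ℝ) : 0 ≤ MM φ T := by
  unfold MM
  rw [set_eq]
  exact setIntegral_nonneg measurableSet_Icc fun x _ => h0 x

lemma NN_nn (h0 : ∀ x, 0 ≤ φ x) (T : ℝ) : 0 ≤ NN φ T := by
  unfold NN
  rw [set_eq]
  exact setIntegral_nonneg measurableSet_Icc fun x _ => mul_nonneg (le_max_right _ _) (h0 x)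

lemma log_add_ratio (C : ℝ) : Tendsto (fun T : ℝ => (Real.log T + C) / Real.log T) atTop (𝓝 1) := by
  have h := (inv_log_lim.const_mul C).const_add 1
  rw [mul_zero, add_zero] at h
  refine h.congr' ?_
  filter_upwards [eventually_gt_atTop 1] with T hT
  have h := Real.log_pos hT
  field_simp

lemma log_sh_sub_ratio (C : ℝ) : Tendsto (fun T : ℝ => (Real.log (sh T) - C) / Real.log T) atTop (𝓝 1) := by
  have h := log_sh_ratio.sub (inv_log_lim.const_mul C)
  rw [mul_zero, sub_zero] at h
  refine h.congr' ?_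
  filter_upwards [eventually_gt_atTop 1] with T hT
  have h := Real.log_pos hT
  field_simp

theorem weight_iff (hφ : Continuous φ) (h0 : ∀ x, 0 ≤ φ x) (r c : ℝ) :
    Tendsto (fun T => MM φ T / nu 1 r T) atTop (𝓝 c) ↔ Tendsto (fun T => NN φ T / nu 1 (r + 1) T) atTop (𝓝 c) := by
  obtain ⟨C, hC0, hC⟩ := LL_bound
  have hbase : ∀ᶠ T : ℝ in atTop, 1 < T ∧ 2 ≤ sh T ∧ sh T ≤ T ∧ 0 < Real.log (sh T) - C ∧ 0 < Real.log T ∧ 2 ≤ T := by
    filter_upwards [eventually_gt_atTop 1, sh_top.eventually_ge_atTop 2, sh_le, log_sh_top.eventually_gt_atTop C,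
      eventually_ge_atTop 2] with T h1 h2 h3 h4 h5
    exact ⟨h1, h2, h3, by linarith, Real.log_pos h1, h5⟩
  have hnu : ∀ T : ℝ, 1 < T → nu 1 (r + 1) T = nu 1 r T * Real.log T := by
    intro T hT
    unfold nu
    rw [Real.rpow_add_one (Real.log_pos hT).ne', mul_assoc]
  have hnup : ∀ T : ℝ, 1 < T → 0 < nu 1 r T := by
    intro T hT
    unfold nu
    have := Real.rpow_pos_of_pos (Real.log_pos hT) r
    positivity
  constructor
  · intro h
    have hs : Tendsto (fun T => MM φ (sh T) / nu 1 r T) atTop (𝓝 0) := by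
      have h1 := (small_sh h).mul inv_log_lim
      rw [mul_zero] at h1
      refine h1.congr' ?_
      filter_upwards [eventually_gt_atTop 1] with T hT
      have h5 := Real.log_pos hT
      have e1 : Real.log T ^ r = Real.log T ^ (r - 1) * Real.log T := by
        rw [← Real.rpow_add_one h5.ne']; congr 1; ring
      have h7 : 0 < Real.log T ^ (r - 1) := Real.rpow_pos_of_pos h5 _
      unfold nu
      rw [e1]
      field_simp
    have hup : Tendsto (fun T => (Real.log T + C) / Real.log T * (MM φ T / nu 1 r T)) atTop (𝓝 c) := by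
      have := (log_add_ratio C).mul h
      rwa [one_mul] at this
    have hlo : Tendsto (fun T => (Real.log (sh T) - C) / Real.log T * (MM φ T / nu 1 r T - MM φ (sh T) / nu 1 r T))
        atTop (𝓝 c) := by
      have := (log_sh_sub_ratio C).mul (h.sub hs)
      rwa [one_mul, sub_zero] at this
    refine tendsto_of_tendsto_of_tendsto_of_le_of_le' hlo hup ?_ ?_
    · filter_upwards [hbase] with T ⟨h1, h2, h3, h4, h5, h6⟩
      have k1 := (compare hφ h0 hC h2 h3 h4.le).1
      have k2 := NN_nn h0 (sh T)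
      have k3 := hnup T h1
      rw [hnu T h1, ← sub_div, div_mul_div_comm, mul_comm (nu 1 r T)]
      exact div_le_div_of_nonneg_right (by linarith) (by positivity)
    · filter_upwards [hbase] with T ⟨h1, h2, h3, h4, h5, h6⟩
      have k1 := NN_le hφ h0 hC h6
      have k3 := hnup T h1
      rw [hnu T h1, div_mul_div_comm, mul_comm (nu 1 r T)]
      exact div_le_div_of_nonneg_right k1 (by positivity)
  · intro h
    have hs : Tendsto (fun T => NN φ (sh T) / nu 1 r T) atTop (𝓝 0) := by
      have h1 := small_sh h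
      rwa [add_sub_cancel_right] at h1
    -- t1
    set t1 : ℝ := max 2 (Real.exp (C + 1)) with ht1
    have ht1' : 2 ≤ t1 := le_max_left _ _
    have hlt1 : C + 1 ≤ Real.log t1 := by
      rw [Real.le_log_iff_exp_le (by linarith)]
      exact le_max_right _ _
    have hk : Tendsto (fun T => MM φ t1 / nu 1 r T) atTop (𝓝 0) := by
      refine Tendsto.div_atTop tendsto_const_nhds ?_
      have h1 : Tendsto (fun T : ℝ => T / Real.log T ^ (-r)) atTop atTop := by
        have h2 := (isLittleO_log_rpow_atTop (r := 1) one_pos)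
        have h3 : (fun T : ℝ => Real.log T ^ (-r)) =o[atTop] fun T : ℝ => T ^ (1:ℝ) :=
          isLittleO_log_rpow_rpow_atTop (-r) one_pos
        have h4 := h3.tendsto_div_nhds_zero
        have h5 : Tendsto (fun T : ℝ => Real.log T ^ (-r) / T ^ (1:ℝ)) atTop (𝓝[>] 0) := by
          rw [tendsto_nhdsWithin_iff]
          refine ⟨h4, ?_⟩
          filter_upwards [eventually_gt_atTop 1] with T hT
          have := Real.rpow_pos_of_pos (Real.log_pos hT) (-r)
          have hT0 : 0 < T := by linarith
          rw [mem_Ioi]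
          positivity
        have h6 := h5.inv_tendsto_nhdsGT_zero
        refine h6.congr' ?_
        filter_upwards [eventually_gt_atTop 1] with T hT
        simp
      refine h1.congr' ?_
      filter_upwards [eventually_gt_atTop 1] with T hT
      unfold nu
      rw [Real.rpow_neg (Real.log_pos hT).le, pow_one, div_inv_eq_mul]
    have hlo : Tendsto (fun T => (NN φ T / nu 1 (r + 1) T) / ((Real.log T + C) / Real.log T)) atTop (𝓝 c) := by
      have := h.div (log_add_ratio C) one_ne_zero
      rwa [div_one] at this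
    have hup : Tendsto (fun T => MM φ t1 / nu 1 r T + NN φ (sh T) / nu 1 r T +
        (NN φ T / nu 1 (r + 1) T) / ((Real.log (sh T) - C) / Real.log T)) atTop (𝓝 c) := by
      have := (hk.add hs).add (h.div (log_sh_sub_ratio C) one_ne_zero)
      rwa [div_one, zero_add, zero_add] at this
    refine tendsto_of_tendsto_of_tendsto_of_le_of_le' hlo hup ?_ ?_
    · filter_upwards [hbase] with T ⟨h1, h2, h3, h4, h5, h6⟩
      have k1 := NN_le hφ h0 hC h6
      have k3 := hnup T h1
      rw [hnu T h1, div_div_eq_mul_div, div_mul_eq_mul_div, div_div, div_le_div_iff₀ (by positivity) k3]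
      have k4 := mul_le_mul_of_nonneg_right k1 (by positivity : 0 ≤ Real.log T * nu 1 r T)
      linarith
    · filter_upwards [hbase, sh_top.eventually_ge_atTop t1] with T ⟨h1, h2, h3, h4, h5, h6⟩ h7
      have k1 := (compare hφ h0 hC h2 h3 h4.le).1
      have k2 := NN_nn h0 (sh T)
      have k3 := hnup T h1
      have k5 := (compare hφ h0 hC ht1' h7 (by linarith)).1
      have k6 := NN_nn h0 t1
      have k7 : MM φ t1 ≤ MM φ (sh T) := mono_int hφ h0 h7
      have k8 : MM φ (sh T) - MM φ t1 ≤ NN φ (sh T) := by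
        have : 1 * (MM φ (sh T) - MM φ t1) ≤ (Real.log t1 - C) * (MM φ (sh T) - MM φ t1) :=
          mul_le_mul_of_nonneg_right (by linarith) (by linarith)
        linarith
      have k9 : MM φ T ≤ MM φ (sh T) + NN φ T / (Real.log (sh T) - C) := by
        have : MM φ T - MM φ (sh T) ≤ NN φ T / (Real.log (sh T) - C) := by
          rw [le_div_iff₀ h4]
          linarith
        linarith
      have k10 : (NN φ T / nu 1 (r + 1) T) / ((Real.log (sh T) - C) / Real.log T) =
          NN φ T / (Real.log (sh T) - C) / nu 1 r T := by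
        rw [hnu T h1]
        field_simp
      rw [k10, ← add_div, ← add_div]
      exact div_le_div_of_nonneg_right (by linarith) k3.le

end

end Pool.Agent.X82.Area
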