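import Pool.Agent.X82.AreaE
import Pool.Agent.X82.AreaG
import Pool.Agent.H388LH.ZG

set_option autoImplicit false

/-! The equivalence between the moment on the line and the area integral. -/

open MeasureTheory Filter Topology Set

namespace Pool.Agent.X82.Area

variable {κ : ℝ}

/-- the integrand on the line -/
noncomputable def ph (κ t : ℝ) : ℝ := ‖riemannZeta (pt (1 / 2) t)‖ ^ (2 * κ)

lemma ph_cont (hκ : 0 < κ) : Continuous (ph κ) := by
  unfold ph
  exact zeta_half_cont.norm.rpow_const fun _ => Or.inr (by positivity)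

lemma ph_nn (t : ℝ) : 0 ≤ ph κ t := by unfold ph; positivity

/-- the area integral `∬ 4κ²|ζ'|²|ζ|^(2κ-2)` over `[1/2,2] × [2,T]` -/
noncomputable def AA (κ T : ℝ) : ℝ :=
  ∫ q in {q : ℝ × ℝ | q ∈ Icc (1 / 2 : ℝ) 2 ×ˢ Ici (2:ℝ) ∧ q.2 ≤ T}, G κ (pt q.1 q.2)

lemma RR_eq (T : ℝ) : {q : ℝ × ℝ | q ∈ Icc (1 / 2 : ℝ) 2 ×ˢ Ici (2:ℝ) ∧ q.2 ≤ T} = RR 2 T := by
  ext q
  simp only [mem_ofPred_eq, RR, mem_prod, mem_Ici, mem_Icc]
  tauto

lemma AA_eq (T : ℝ) : AA κ T = ∫ q in RR 2 T, G κ (pt q.1 q.2) := by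
  unfold AA
  rw [RR_eq]

lemma AA_mono (hκ : 0 < κ) : Monotone (AA κ) := by
  intro a b hab
  rw [AA_eq, AA_eq]
  exact setIntegral_mono_set (G_int hκ b) (Eventually.of_forall fun q => G_nn _)
    (LE.le.eventuallyLE (prod_mono (le_refl _) (Icc_subset_Icc_right hab)))

lemma AA_nn (T : ℝ) : 0 ≤ AA κ T := by
  rw [AA_eq]
  exact setIntegral_nonneg (RR_meas 2 T) fun q _ => G_nn _

lemma EG_eq (hκ : 0 < κ) {T : ℝ} (hT : 0 ≤ T) : EG κ T = Kf (AA κ) T := by
  have h := fub (volume : Measure (ℝ × ℝ)) (τ := fun q : ℝ × ℝ => q.2) measurable_snd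
    (B := Icc (1 / 2 : ℝ) 2 ×ˢ Ici (2:ℝ)) (measurableSet_Icc.prod measurableSet_Ici)
    (fun q hq => by have h : (2:ℝ) ≤ q.2 := hq.2; linarith) (g := fun q => G κ (pt q.1 q.2)) hT
    (by rw [RR_eq]; exact G_int hκ T)
  unfold EG
  rw [← RR_eq]
  exact h

lemma KN_eq (hκ : 0 < κ) {T : ℝ} (hT : 0 ≤ T) :
    Kf (NN (ph κ)) T = ∫ x in Icc (2:ℝ) T, (T - x) ^ 2 * (max (LL x) 0 * ph κ x) := by
  have h := fub (volume : Measure ℝ) (τ := fun x : ℝ => x) measurable_id
    (B := Ici (2:ℝ)) measurableSet_Ici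
    (fun q hq => by have h : (2:ℝ) ≤ q := hq; linarith) (g := fun x => max (LL x) 0 * ph κ x) hT
    (by rw [set_eq]; exact (LLp_cont.mul (ph_cont hκ)).continuousOn.integrableOn_compact isCompact_Icc)
  rw [← set_eq]
  exact h.symm

/-- the negative part of `LL` does not matter -/
lemma PP_KN (hκ : 0 < κ) : ∃ C : ℝ, 0 ≤ C ∧ ∀ T : ℝ, 2 ≤ T → |PP κ T - Kf (NN (ph κ)) T| ≤ C * T ^ 2 := by
  obtain ⟨C, hC0, hC⟩ := LL_bound
  set ψ : ℝ → ℝ := fun t => (max (LL t) 0 - LL t) * ph κ t with hψ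
  have cψ : Continuous ψ := (LLp_cont.sub LL_cont).mul (ph_cont hκ)
  have hψ0 : ∀ t, 0 ≤ ψ t := fun t => mul_nonneg (by linarith [le_max_left (LL t) 0]) (ph_nn t)
  set t0 : ℝ := max 2 (Real.exp C) with ht0
  have ht02 : 2 ≤ t0 := le_max_left _ _
  have hz : ∀ t, t0 ≤ t → ψ t = 0 := by
    intro t ht
    have h1 : Real.exp C ≤ t := (le_max_right _ _).trans ht
    have h2 : 2 ≤ t := ht02.trans ht
    have h3 : C ≤ Real.log t := (Real.le_log_iff_exp_le (by linarith)).2 h1
    have h4 := hC t (by linarith)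
    rw [abs_le] at h4
    have h5 : 0 ≤ LL t := by linarith [h4.1]
    simp only [hψ]
    rw [max_eq_left h5]
    ring
  set I := ∫ t in (2:ℝ)..t0, ψ t with hI
  have hI0 : 0 ≤ I := intervalIntegral.integral_nonneg ht02 fun t _ => hψ0 t
  refine ⟨I, hI0, fun T hT => ?_⟩
  have e1 : PP κ T - Kf (NN (ph κ)) T = -∫ t in (2:ℝ)..T, (T - t) ^ 2 * ψ t := by
    rw [KN_eq hκ (by linarith), integral_Icc_eq_integral_Ioc, ← intervalIntegral.integral_of_le hT]
    unfold PP
    rw [← intervalIntegral.integral_sub, ← intervalIntegral.integral_neg]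
    · refine intervalIntegral.integral_congr fun t _ => ?_
      simp only [hψ, ph]
      ring
    · exact Continuous.intervalIntegrable ((by fun_prop : Continuous fun t : ℝ => (T - t) ^ 2).mul
        (LL_cont.mul (ph_cont hκ))) _ _
    · exact Continuous.intervalIntegrable ((by fun_prop : Continuous fun t : ℝ => (T - t) ^ 2).mul
        (LLp_cont.mul (ph_cont hκ))) _ _
  rw [e1, abs_neg]
  have h0 : 0 ≤ ∫ t in (2:ℝ)..T, (T - t) ^ 2 * ψ t :=
    intervalIntegral.integral_nonneg hT fun t _ => mul_nonneg (sq_nonneg _) (hψ0 t)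
  rw [abs_of_nonneg h0]
  have h1 : ∫ t in (2:ℝ)..T, (T - t) ^ 2 * ψ t ≤ ∫ t in (2:ℝ)..T, T ^ 2 * ψ t := by
    refine intervalIntegral.integral_mono_on hT ?_ ?_ fun t ht => ?_
    · exact Continuous.intervalIntegrable ((by fun_prop : Continuous fun t : ℝ => (T - t) ^ 2).mul cψ) _ _
    · exact (continuous_const.mul cψ).intervalIntegrable _ _
    · refine mul_le_mul_of_nonneg_right ?_ (hψ0 t)
      have := wb_abs (T := T) (t := t) (by linarith [ht.1]) ht.2
      rwa [abs_of_nonneg (sq_nonneg _)] at this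
  have h2 : ∫ t in (2:ℝ)..T, ψ t ≤ I := by
    have h3 : ∫ t in (2:ℝ)..T, ψ t ≤ ∫ t in (2:ℝ)..(max T t0), ψ t := by
      refine intervalIntegral.integral_mono_interval le_rfl hT (le_max_left _ _) ?_ (cψ.intervalIntegrable _ _)
      exact Eventually.of_forall fun t => hψ0 t
    refine h3.trans (le_of_eq ?_)
    have h4 : ∫ t in t0..(max T t0), ψ t = 0 := by
      rw [intervalIntegral.integral_congr (g := fun _ => (0:ℝ)) (fun t ht => by
        rw [uIcc_of_le (le_max_right _ _)] at ht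
        exact hz t ht.1)]
      simp
    rw [hI, ← intervalIntegral.integral_add_adjacent_intervals (cψ.intervalIntegrable 2 t0)
      (cψ.intervalIntegrable t0 (max T t0)), h4, add_zero]
  rw [intervalIntegral.integral_const_mul] at h1
  have := mul_le_mul_of_nonneg_left h2 (sq_nonneg T)
  linarith

/-- `SS` is controlled by `EG` at the double height -/
lemma SS_le (hκ : 0 < κ) : ∃ C : ℝ, 0 ≤ C ∧ ∀ T : ℝ, 2 ≤ T → SS κ T ≤ 2 * EG κ (2 * T) / T ^ 2 + C * T := by
  obtain ⟨C, hC0, hC⟩ := lim_B hκ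
  refine ⟨8 * C, by positivity, fun T hT => ?_⟩
  have h1 := hC (2 * T) (by linarith)
  have hcont : ∀ T' : ℝ, ContinuousOn (fun q : ℝ × ℝ => ‖riemannZeta (pt q.1 q.2)‖ ^ (2 * κ)) (RR 2 T') := by
    intro T'
    have hc : ContinuousOn (fun z : ℂ => ‖riemannZeta z‖ ^ (2 * κ)) UH :=
      (cont0 zeta_UH).norm.rpow_const fun _ _ => Or.inr (by positivity)
    exact comp_cont hc two_pos
  have hT0 : 0 < T ^ 2 := by positivity
  have h2 : T ^ 2 * SS κ T ≤ ∫ q in RR 2 (2 * T), (2 * T - q.2) ^ 2 * ‖riemannZeta (pt q.1 q.2)‖ ^ (2 * κ) := by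
    unfold SS
    rw [← integral_const_mul]
    have c1 : ∀ T' : ℝ, ContinuousOn (fun q : ℝ × ℝ => (2 * T - q.2) ^ 2 * ‖riemannZeta (pt q.1 q.2)‖ ^ (2 * κ)) (RR 2 T') :=
      fun T' => (Continuous.continuousOn (by fun_prop)).mul (hcont T')
    calc ∫ q in RR 2 T, T ^ 2 * ‖riemannZeta (pt q.1 q.2)‖ ^ (2 * κ) ≤
        ∫ q in RR 2 T, (2 * T - q.2) ^ 2 * ‖riemannZeta (pt q.1 q.2)‖ ^ (2 * κ) := by
          refine setIntegral_mono_on ((rr_int (hcont T)).const_mul _) (rr_int (c1 T)) (RR_meas 2 T) fun q hq => ?_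
          refine mul_le_mul_of_nonneg_right ?_ (by positivity)
          refine pow_le_pow_left₀ (by linarith) ?_ 2
          linarith [hq.2.2]
      _ ≤ _ := by
          refine setIntegral_mono_set (rr_int (c1 _)) (Eventually.of_forall fun q => ?_)
            (LE.le.eventuallyLE (prod_mono (le_refl _) (Icc_subset_Icc_right (by linarith))))
          exact mul_nonneg (sq_nonneg _) (by positivity)
  have h3 : T ^ 2 * SS κ T ≤ 2 * EG κ (2 * T) + 8 * C * T ^ 3 := by
    refine (h2.trans h1).trans (le_of_eq ?_)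
    ring
  rw [div_add' _ _ _ hT0.ne', le_div_iff₀ hT0]
  linarith

/-- a crude bound -/
lemma SS_crude (hκ : 0 < κ) : ∃ (C : ℝ) (b : ℕ), 0 ≤ C ∧ ∀ T : ℝ, 2 ≤ T → SS κ T ≤ C * T ^ b := by
  obtain ⟨b, hb⟩ := exists_nat_ge (2 * κ)
  refine ⟨12 ^ b * 2, b + 1, by positivity, fun T hT => ?_⟩
  have hbd : ∀ q ∈ RR 2 T, ‖‖riemannZeta (pt q.1 q.2)‖ ^ (2 * κ)‖ ≤ (12 * T) ^ b := by
    intro q hq
    have h1 : ‖riemannZeta (pt q.1 q.2)‖ ≤ 6 * ‖pt q.1 q.2‖ := by
      refine Pool.Agent.H388LH.zeta_growth ?_ ?_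
      · rw [pt_re]; linarith [hq.1.1]
      · rw [pt_im]; linarith [hq.2.1]
    have h2 : ‖pt q.1 q.2‖ ≤ 2 * T := by
      have := Complex.norm_le_abs_re_add_abs_im (pt q.1 q.2)
      rw [pt_re, pt_im, abs_of_nonneg (by linarith [hq.1.1]), abs_of_nonneg (by linarith [hq.2.1])] at this
      linarith [hq.1.2, hq.2.2]
    have h3 : ‖riemannZeta (pt q.1 q.2)‖ ≤ 12 * T := by linarith
    rw [Real.norm_of_nonneg (by positivity)]
    calc ‖riemannZeta (pt q.1 q.2)‖ ^ (2 * κ) ≤ (12 * T) ^ (2 * κ) :=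
          Real.rpow_le_rpow (norm_nonneg _) h3 (by positivity)
      _ ≤ (12 * T) ^ (b : ℝ) := Real.rpow_le_rpow_of_exponent_le (by linarith) hb
      _ = _ := Real.rpow_natCast _ _
  have h4 := norm_setIntegral_le_of_norm_le_const (μ := (volume : Measure (ℝ × ℝ))) (s := RR 2 T)
    (RR_compact 2 T).measure_lt_top hbd
  have h5 : (volume : Measure (ℝ × ℝ)).real (RR 2 T) = 3 / 2 * (T - 2) := by
    unfold RR
    rw [Measure.volume_eq_prod, measureReal_prod_prod, Real.volume_real_Icc_of_le (by norm_num),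
      Real.volume_real_Icc_of_le hT]
    norm_num
  rw [h5] at h4
  unfold SS
  refine (le_abs_self _).trans ?_
  rw [← Real.norm_eq_abs]
  refine h4.trans ?_
  rw [mul_pow, pow_succ]
  have h6 : 3 / 2 * (T - 2) ≤ 2 * T := by linarith
  have h7 : 0 ≤ (12:ℝ) ^ b * T ^ b := by positivity
  calc (12:ℝ) ^ b * T ^ b * (3 / 2 * (T - 2)) ≤ 12 ^ b * T ^ b * (2 * T) := mul_le_mul_of_nonneg_left h6 h7
    _ = _ := by ring

/-- iteration -/
lemma iter {S : ℝ → ℝ} {T0 C0 C1 : ℝ} {B : ℕ} (hT0 : 1 ≤ T0) (hC0 : 0 ≤ C0) (hC1 : 0 ≤ C1)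
    (h0 : ∀ T, T0 ≤ T → S T ≤ C0 * T ^ B) (h1 : ∀ T, T0 ≤ T → S T ≤ 4 / T ^ 2 * S (2 * T) + C1 * T ^ 2) :
    ∃ C : ℝ, 0 ≤ C ∧ ∀ T, T0 ≤ T → S T ≤ C * T ^ 2 := by
  have key : ∀ n : ℕ, ∃ C : ℝ, 0 ≤ C ∧ ∀ T, T0 ≤ T → S T ≤ C * T ^ (max 2 (B - 2 * n)) := by
    intro n
    induction n with
    | zero =>
      refine ⟨C0, hC0, fun T hT => (h0 T hT).trans ?_⟩
      refine mul_le_mul_of_nonneg_left ?_ hC0
      exact pow_le_pow_right₀ (by linarith) (by simp)
    | succ n ih =>
      obtain ⟨C, hC, hS⟩ := ih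
      set m := max 2 (B - 2 * n) with hm
      set m' := max 2 (B - 2 * (n + 1)) with hm'
      refine ⟨4 * C * 2 ^ m + C1, by positivity, fun T hT => ?_⟩
      have hT1 : 1 ≤ T := hT0.trans hT
      have hT' : 0 < T := by linarith
      have k1 := hS (2 * T) (by linarith)
      have k2 := h1 T hT
      have hm2 : m - 2 ≤ m' := by omega
      have hm3 : 2 ≤ m := by omega
      have k3 : T ^ m = T ^ (m - 2) * T ^ 2 := by rw [← pow_add]; congr 1; omega
      have k4 : T ^ (m - 2) ≤ T ^ m' := pow_le_pow_right₀ hT1 hm2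
      have k5 : T ^ 2 ≤ T ^ m' := pow_le_pow_right₀ hT1 (le_max_left _ _)
      calc S T ≤ 4 / T ^ 2 * S (2 * T) + C1 * T ^ 2 := k2
        _ ≤ 4 / T ^ 2 * (C * (2 * T) ^ m) + C1 * T ^ 2 := by gcongr
        _ = 4 * C * 2 ^ m * T ^ (m - 2) + C1 * T ^ 2 := by
            rw [mul_pow, k3]
            field_simp
        _ ≤ 4 * C * 2 ^ m * T ^ m' + C1 * T ^ m' := by gcongr
        _ = _ := by ring
  obtain ⟨C, hC, hS⟩ := key B
  refine ⟨C, hC, fun T hT => (hS T hT).trans (le_of_eq ?_)⟩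
  congr 2
  omega

lemma nu_pos {m : ℕ} {q T : ℝ} (hT : 1 < T) : 0 < nu m q T := by
  unfold nu
  have := Real.rpow_pos_of_pos (Real.log_pos hT) q
  positivity

/-- lower powers are negligible -/
lemma pow_negl {m k : ℕ} {q C : ℝ} (hmk : m ≤ k) (hq : 0 < q) :
    Tendsto (fun T : ℝ => C * T ^ m / nu k q T) atTop (𝓝 0) := by
  have h1 : Tendsto (fun T : ℝ => |C| * (1 / Real.log T ^ q)) atTop (𝓝 (|C| * 0)) := by
    refine Tendsto.const_mul _ ?_
    refine Tendsto.div_atTop tendsto_const_nhds ?_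
    exact (tendsto_rpow_atTop hq).comp Real.tendsto_log_atTop
  rw [mul_zero] at h1
  refine squeeze_zero_norm' ?_ h1
  filter_upwards [eventually_gt_atTop 1] with T hT
  have h3 := Real.rpow_pos_of_pos (Real.log_pos hT) q
  have hT0 : 0 < T := by linarith
  rw [norm_div, norm_mul, Real.norm_eq_abs, Real.norm_of_nonneg (by positivity : 0 ≤ T ^ m),
    Real.norm_of_nonneg (nu_pos hT).le]
  unfold nu
  rw [mul_one_div, div_le_div_iff₀ (by positivity) h3]
  have h4 : T ^ m ≤ T ^ k := pow_le_pow_right₀ hT.le hmk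
  have h5 : 0 ≤ |C| * Real.log T ^ q := by positivity
  nlinarith

lemma SS_nn (T : ℝ) : 0 ≤ SS κ T := by
  unfold SS
  exact setIntegral_nonneg (RR_meas 2 T) fun q _ => by positivity

/-- the core equivalence -/
theorem core (hκ : 0 < κ) (c : ℝ) :
    Tendsto (fun T => MM (ph κ) T / nu 1 (κ ^ 2) T) atTop (𝓝 c) ↔
      Tendsto (fun T => AA κ T / nu 1 (κ ^ 2 + 1) T) atTop (𝓝 (κ * c)) := by
  have hq : 0 < κ ^ 2 + 1 := by positivity
  set q := κ ^ 2 + 1 with hqd
  obtain ⟨CA, hCA0, hCA⟩ := lim_A hκ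
  obtain ⟨CS, hCS0, hCS⟩ := SS_le hκ
  obtain ⟨CP, hCP0, hCP⟩ := PP_KN hκ
  obtain ⟨CC, B, hCC0, hCC⟩ := SS_crude hκ
  have hNmono : Monotone (NN (ph κ)) := mono_int (LLp_cont.mul (ph_cont hκ))
    (fun x => mul_nonneg (le_max_right _ _) (ph_nn x))
  have hwt := weight_iff (ph_cont hκ) (fun x => ph_nn x) (κ ^ 2) c
  rw [hwt]
  -- PP and Kf NN
  have hdiff : Tendsto (fun T => (PP κ T - Kf (NN (ph κ)) T) / nu 3 q T) atTop (𝓝 0) := by
    refine squeeze_zero_norm' ?_ (pow_negl (m := 2) (k := 3) (C := CP) (by norm_num) hq)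
    filter_upwards [eventually_ge_atTop 2] with T hT
    rw [norm_div, Real.norm_eq_abs, Real.norm_of_nonneg (nu_pos (by linarith)).le]
    exact div_le_div_of_nonneg_right (hCP T hT) (nu_pos (by linarith)).le
  have hrem : Tendsto (fun T => (EG κ T - 2 * SS κ T - κ * PP κ T) / nu 3 q T) atTop (𝓝 0) := by
    refine squeeze_zero_norm' ?_ (pow_negl (m := 3) (k := 3) (C := CA) (by norm_num) hq)
    filter_upwards [eventually_ge_atTop 2] with T hT
    rw [norm_div, Real.norm_eq_abs, Real.norm_of_nonneg (nu_pos (by linarith)).le]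
    exact div_le_div_of_nonneg_right (hCA T hT) (nu_pos (by linarith)).le
  constructor
  · intro h
    have h2 := abel hNmono (fun s => NN_nn (fun x => ph_nn x) s) h
    have h3 : Tendsto (fun T => PP κ T / nu 3 q T) atTop (𝓝 (c / 3)) := by
      have := hdiff.add h2
      rw [zero_add] at this
      refine this.congr fun T => ?_
      rw [← add_div]; congr 1; ring
    -- the iteration
    have h4 : Tendsto (fun T => SS κ T / nu 3 q T) atTop (𝓝 0) := by
      have hlog : ∀ᶠ T : ℝ in atTop, Real.log T ^ q ≤ T := by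
        have := (isLittleO_log_rpow_rpow_atTop q one_pos).bound (show (0:ℝ) < 1 by norm_num)
        filter_upwards [this, eventually_gt_atTop 1] with T hT hT1
        rw [Real.rpow_one, one_mul, Real.norm_of_nonneg (Real.rpow_pos_of_pos (Real.log_pos hT1) q).le,
          Real.norm_of_nonneg (by linarith)] at hT
        exact hT
      have hPP : ∀ᶠ T : ℝ in atTop, PP κ T ≤ (|c| + 1) * T ^ 4 := by
        have hc : c / 3 < |c| + 1 := by
          have := le_abs_self c
          have := abs_nonneg c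
          linarith
        filter_upwards [h3.eventually_lt_const hc, hlog, eventually_gt_atTop 1] with T h5 h6 h7
        have hn := nu_pos (m := 3) (q := q) h7
        rw [div_lt_iff₀ hn] at h5
        refine h5.le.trans ?_
        refine mul_le_mul_of_nonneg_left ?_ (by positivity)
        unfold nu
        have : 0 ≤ T ^ 3 := by positivity
        nlinarith
      have hPP2 : ∀ᶠ T : ℝ in atTop, PP κ (2 * T) ≤ (|c| + 1) * (2 * T) ^ 4 :=
        (tendsto_id.const_mul_atTop two_pos).eventually hPP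
      obtain ⟨T0, hT0⟩ := eventually_atTop.1 hPP2
      set T1 := max 2 T0 with hT1
      have hT12 : 2 ≤ T1 := le_max_left _ _
      have hstep : ∀ T, T1 ≤ T → SS κ T ≤ 4 / T ^ 2 * SS κ (2 * T) +
          (32 * κ * (|c| + 1) + 16 * CA + CS) * T ^ 2 := by
        intro T hT
        have hT2 : 2 ≤ T := hT12.trans hT
        have hTp : 0 < T := by linarith
        have k1 := hCS T hT2
        have k2 := hCA (2 * T) (by linarith)
        have k3 := hT0 T ((le_max_right _ _).trans hT)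
        rw [abs_le] at k2
        have k4 : EG κ (2 * T) ≤ 2 * SS κ (2 * T) + κ * ((|c| + 1) * (2 * T) ^ 4) + CA * (2 * T) ^ 3 := by
          have := mul_le_mul_of_nonneg_left k3 hκ.le
          linarith [k2.2]
        have k5 : 2 * EG κ (2 * T) / T ^ 2 ≤ 2 * (2 * SS κ (2 * T) + κ * ((|c| + 1) * (2 * T) ^ 4) + CA * (2 * T) ^ 3) / T ^ 2 := by
          gcongr
        have k6 : 2 * (2 * SS κ (2 * T) + κ * ((|c| + 1) * (2 * T) ^ 4) + CA * (2 * T) ^ 3) / T ^ 2 =
            4 / T ^ 2 * SS κ (2 * T) + 32 * κ * (|c| + 1) * T ^ 2 + 16 * CA * T := by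
          field_simp
          ring
        have k7 : T ≤ T ^ 2 := by nlinarith
        have k8 : 16 * CA * T ≤ 16 * CA * T ^ 2 := mul_le_mul_of_nonneg_left k7 (by positivity)
        have k9 : CS * T ≤ CS * T ^ 2 := mul_le_mul_of_nonneg_left k7 hCS0
        linarith
      obtain ⟨C, hC, hS⟩ := iter (S := SS κ) (T0 := T1) (C0 := CC) (B := B) (by linarith) hCC0 (by positivity)
        (fun T hT => hCC T (hT12.trans hT)) hstep
      refine squeeze_zero' ?_ ?_ (pow_negl (m := 2) (k := 3) (C := C) (by norm_num) hq)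
      · filter_upwards [eventually_gt_atTop 1] with T hT
        exact div_nonneg (SS_nn T) (nu_pos hT).le
      · filter_upwards [eventually_gt_atTop 1, eventually_ge_atTop T1] with T hT hT2
        exact div_le_div_of_nonneg_right (hS T hT2) (nu_pos hT).le
    have h5 : Tendsto (fun T => Kf (AA κ) T / nu 3 q T) atTop (𝓝 (κ * (c / 3))) := by
      have := (hrem.add (h4.const_mul 2)).add (h3.const_mul κ)
      rw [mul_zero, zero_add, zero_add] at this
      refine this.congr' ?_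
      filter_upwards [eventually_ge_atTop 0] with T hT
      rw [← EG_eq hκ hT]
      ring
    have h6 := taub (AA_mono hκ) h5
    rw [show 3 * (κ * (c / 3)) = κ * c by ring] at h6
    exact h6
  · intro h
    have h2 := abel (AA_mono hκ) (fun s => AA_nn s) h
    have h3 : Tendsto (fun T => EG κ T / nu 3 q T) atTop (𝓝 (κ * c / 3)) := by
      refine h2.congr' ?_
      filter_upwards [eventually_ge_atTop 0] with T hT
      rw [EG_eq hκ hT]
    have h4 : Tendsto (fun T => SS κ T / nu 3 q T) atTop (𝓝 0) := by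
      have k1 := scale_lim (l := 2) two_pos h3
      have k2 : Tendsto (fun T : ℝ => 2 / T ^ 2) atTop (𝓝 0) :=
        Tendsto.div_atTop tendsto_const_nhds (tendsto_pow_atTop two_ne_zero)
      have k3 := (k1.mul k2).add (pow_negl (m := 1) (k := 3) (C := CS) (by norm_num) hq)
      rw [mul_zero, zero_add] at k3
      refine squeeze_zero' ?_ ?_ k3
      · filter_upwards [eventually_gt_atTop 1] with T hT
        exact div_nonneg (SS_nn T) (nu_pos hT).le
      · filter_upwards [eventually_ge_atTop 2] with T hT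
        have hn := nu_pos (m := 3) (q := q) (by linarith : 1 < T)
        have k4 := div_le_div_of_nonneg_right (hCS T hT) hn.le
        refine k4.trans (le_of_eq ?_)
        rw [pow_one]
        ring
    have h5 : Tendsto (fun T => PP κ T / nu 3 q T) atTop (𝓝 (c / 3)) := by
      have k := (((h3.sub (h4.const_mul 2)).sub hrem).const_mul (1 / κ))
      have e : 1 / κ * (κ * c / 3 - 2 * 0 - 0) = c / 3 := by field_simp; ring
      rw [e] at k
      refine k.congr fun T => ?_
      field_simp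
      ring
    have h6 : Tendsto (fun T => Kf (NN (ph κ)) T / nu 3 q T) atTop (𝓝 (c / 3)) := by
      have := h5.sub hdiff
      rw [sub_zero] at this
      refine this.congr fun T => ?_
      rw [← sub_div]; congr 1; ring
    have h7 := taub hNmono h6
    rw [show 3 * (c / 3) = c by ring] at h7
    exact h7

end Pool.Agent.X82.Area
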