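import Pool.Agent.X82.AreaH

set_option autoImplicit false

/-! Area formula with multiplicity for holomorphic functions of one variable. -/

open MeasureTheory Filter Topology Set
open scoped ENNReal

namespace Pool.Agent.X82.Area

theorem det_smul_id (w : ℂ) :
    ContinuousLinearMap.det (w • (ContinuousLinearMap.id ℝ ℂ)) = ‖w‖ ^ 2 := by
  have h1 : (((w • (ContinuousLinearMap.id ℝ ℂ)) : ℂ →L[ℝ] ℂ) : ℂ →ₗ[ℝ] ℂ)
      = Algebra.lmul ℝ ℂ w := by
    ext <;> simp
  rw [ContinuousLinearMap.det, h1, ← Algebra.norm_apply, Algebra.norm_complex_apply,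
    Complex.normSq_eq_norm_sq]

theorem area_count {W : Set ℂ} (hW : IsOpen W) (g : ℂ → ℂ) (hg : DifferentiableOn ℂ g W)
    (ψ : ℂ → ENNReal) (hψ : Measurable ψ) :
    AEMeasurable (fun w => Measure.count {z : ℂ | z ∈ W ∧ g z = w}) volume ∧
    ∫⁻ z in W, ENNReal.ofReal (‖deriv g z‖ ^ 2) * ψ (g z)
      = ∫⁻ w, ψ w * Measure.count {z : ℂ | z ∈ W ∧ g z = w} := by
  classical
  set Z : Set ℂ := {z | deriv g z ≠ 0} with hZ
  have hZm : MeasurableSet Z := (measurable_deriv g) (measurableSet_singleton 0).compl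
  set S : Set ℂ := Z ∩ W with hS
  have hSm : MeasurableSet S := hZm.inter hW.measurableSet
  have hred : ∫⁻ z in W, ENNReal.ofReal (‖deriv g z‖ ^ 2) * ψ (g z)
      = ∫⁻ z in S, ENNReal.ofReal (‖deriv g z‖ ^ 2) * ψ (g z) := by
    rw [hS, ← Measure.restrict_restrict hZm, ← lintegral_indicator hZm]
    congr 1
    funext z
    by_cases h : z ∈ Z
    · simp only [Set.indicator_of_mem h]
    · have h' : deriv g z = 0 := not_not.1 h
      simp [Set.indicator_of_notMem h, h']
  rw [hred]
  set f' : ℂ → (ℂ →L[ℝ] ℂ) := fun z => (deriv g z) • (ContinuousLinearMap.id ℝ ℂ) with hf'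
  have hder : ∀ z ∈ W, HasFDerivAt g (f' z) z := by
    intro z hz
    have h1 : HasDerivAt g (deriv g z) z :=
      (hg.differentiableAt (hW.mem_nhds hz)).hasDerivAt
    have h2 := h1.complexToReal_fderiv
    refine h2.congr_fderiv ?_
    ext <;> simp [hf']
  have hdet : ∀ z, (f' z).det = ‖deriv g z‖ ^ 2 := fun z => det_smul_id _
  have hdet0 : ∀ z ∈ S, (f' z).det ≠ 0 := by
    intro z hz
    rw [hdet]
    have : deriv g z ≠ 0 := hz.1
    positivity
  -- the critical set
  set N : Set ℂ := {z | z ∈ W ∧ deriv g z = 0} with hN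
  have himg : volume (g '' N) = 0 :=
    addHaar_image_eq_zero_of_det_fderivWithin_eq_zero volume
      (fun z hz => (hder z hz.1).hasFDerivWithinAt) (fun z hz => by rw [hdet, hz.2]; simp)
  let r : (ℂ →L[ℝ] ℂ) → NNReal := fun A =>
    if h : A.det ≠ 0 then ‖((A.toContinuousLinearEquivOfDetNeZero h).symm : ℂ →L[ℝ] ℂ)‖₊⁻¹ / 2 +
      (if ‖((A.toContinuousLinearEquivOfDetNeZero h).symm : ℂ →L[ℝ] ℂ)‖₊ = 0 then 1 else 0) else 1
  have rpos : ∀ A, r A ≠ 0 := by
    intro A
    simp only [r]
    split_ifs with h h2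
    · positivity
    · positivity
    · exact one_ne_zero
  obtain ⟨t, A, hdisj, htm, hcov, happ, hex⟩ :=
    exists_partition_approximatesLinearOn_of_hasFDerivWithinAt g S f'
      (fun x hx => (hder x hx.2).hasFDerivWithinAt) r rpos
  have hinj : ∀ k, InjOn g (S ∩ t k) := by
    intro k
    by_cases hne : S.Nonempty
    · obtain ⟨y, hy, hAy⟩ := hex hne k
      have hd : (A k).det ≠ 0 := by rw [hAy]; exact hdet0 y hy
      have h1 : ApproximatesLinearOn g
        (((A k).toContinuousLinearEquivOfDetNeZero hd : ℂ ≃L[ℝ] ℂ) : ℂ →L[ℝ] ℂ)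
        (S ∩ t k) (r (A k)) := by
        simpa using happ k
      refine h1.injOn ?_
      by_cases hz : ‖(((A k).toContinuousLinearEquivOfDetNeZero hd).symm : ℂ →L[ℝ] ℂ)‖₊ = 0
      · left
        refine ⟨fun a b => ?_⟩
        have h0 : (((A k).toContinuousLinearEquivOfDetNeZero hd).symm : ℂ →L[ℝ] ℂ) = 0 := by
          simpa using hz
        have : ∀ c : ℂ, c = 0 := by
          intro c
          have h3 := congrArg (fun L : ℂ →L[ℝ] ℂ => L ((A k).toContinuousLinearEquivOfDetNeZero hd c)) h0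
          have h4 := ((A k).toContinuousLinearEquivOfDetNeZero hd).symm_apply_apply c
          rw [← h4]
          exact h3
        rw [this a, this b]
      · right
        simp only [r, dif_pos hd, if_neg hz, add_zero]
        exact NNReal.half_lt_self (by simpa using hz)
    · rw [Set.not_nonempty_iff_eq_empty] at hne
      simp [hne]
  set S' : ℕ → Set ℂ := fun k => S ∩ t k with hS'
  have hSm' : ∀ k, MeasurableSet (S' k) := fun k => hSm.inter (htm k)
  have hder' : ∀ k, ∀ x ∈ S' k, HasFDerivWithinAt g (f' x) (S' k) x := fun k x hx =>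
    (hder x hx.1.2).hasFDerivWithinAt
  have him : ∀ k, MeasurableSet (g '' (S' k)) := fun k =>
    measurable_image_of_fderivWithin (hSm' k) (hder' k) (hinj k)
  have hU : S = ⋃ k, S' k := by
    ext x; constructor
    · intro hx
      obtain ⟨k, hk⟩ := mem_iUnion.1 (hcov hx)
      exact mem_iUnion.2 ⟨k, hx, hk⟩
    · intro hx
      obtain ⟨k, hk⟩ := mem_iUnion.1 hx
      exact hk.1
  have hdisj' : Pairwise (Function.onFun Disjoint S') := by
    intro i j hij
    exact (hdisj hij).mono inter_subset_right inter_subset_right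
  -- counting
  have hcount : ∀ w, w ∉ g '' N → Measure.count {z : ℂ | z ∈ W ∧ g z = w} =
      ∑' k, (g '' (S' k)).indicator (fun _ => (1 : ENNReal)) w := by
    intro w hw
    have e1 : {z : ℂ | z ∈ W ∧ g z = w} = ⋃ k, {z | z ∈ S' k ∧ g z = w} := by
      ext z
      simp only [mem_ofPred_eq, mem_iUnion]
      constructor
      · rintro ⟨hz, hgz⟩
        have hzS : z ∈ S := by
          refine ⟨?_, hz⟩
          intro h0
          exact hw ⟨z, ⟨hz, h0⟩, hgz⟩
        rw [hU] at hzS
        obtain ⟨k, hk⟩ := mem_iUnion.1 hzS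
        exact ⟨k, hk, hgz⟩
      · rintro ⟨k, hk, hgz⟩
        exact ⟨hk.1.2, hgz⟩
    have hsub : ∀ k, ({z | z ∈ S' k ∧ g z = w} : Set ℂ).Subsingleton := by
      intro k a ha b hb
      exact hinj k ha.1 hb.1 (ha.2.trans hb.2.symm)
    rw [e1, measure_iUnion]
    · refine tsum_congr fun k => ?_
      by_cases h : w ∈ g '' (S' k)
      · rw [indicator_of_mem h]
        obtain ⟨z, hz, hgz⟩ := h
        have e2 : {z | z ∈ S' k ∧ g z = w} = {z} := by
          refine (hsub k).eq_singleton_of_mem ⟨hz, hgz⟩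
        rw [e2, Measure.count_singleton]
      · rw [indicator_of_notMem h]
        have e2 : {z | z ∈ S' k ∧ g z = w} = ∅ := by
          ext z
          simp only [mem_ofPred_eq, mem_empty_iff_false, iff_false]
          rintro ⟨hz, hgz⟩
          exact h ⟨z, hz, hgz⟩
        rw [e2, measure_empty]
    · intro i j hij
      exact (hdisj' hij).mono (fun z hz => hz.1) (fun z hz => hz.1)
    · intro k
      exact (hsub k).measurableSet
  have hae : ∀ᵐ w ∂(volume : Measure ℂ), Measure.count {z : ℂ | z ∈ W ∧ g z = w} =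
      ∑' k, (g '' (S' k)).indicator (fun _ => (1 : ENNReal)) w := by
    have h0 : ∀ᵐ w ∂(volume : Measure ℂ), w ∉ g '' N := compl_mem_ae_iff.mpr himg
    filter_upwards [h0] with w hw using hcount w hw
  refine ⟨⟨fun w => ∑' k, (g '' (S' k)).indicator (fun _ => (1 : ENNReal)) w,
    Measurable.ennreal_tsum fun k => measurable_const.indicator (him k), hae⟩, ?_⟩
  calc ∫⁻ z in S, ENNReal.ofReal (‖deriv g z‖ ^ 2) * ψ (g z)
      = ∑' k, ∫⁻ z in S' k, ENNReal.ofReal (‖deriv g z‖ ^ 2) * ψ (g z) := by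
        conv_lhs => rw [hU]
        exact lintegral_iUnion hSm' hdisj' _
    _ = ∑' k, ∫⁻ y in g '' (S' k), ψ y := by
        refine tsum_congr fun k => ?_
        rw [lintegral_image_eq_lintegral_abs_det_fderiv_mul volume (hSm' k) (hder' k) (hinj k) ψ]
        refine lintegral_congr fun x => ?_
        rw [hdet, abs_of_nonneg (by positivity)]
    _ = ∑' k, ∫⁻ y, (g '' (S' k)).indicator ψ y := by
        refine tsum_congr fun k => ?_
        rw [lintegral_indicator (him k)]
    _ = ∫⁻ y, ∑' k, (g '' (S' k)).indicator ψ y :=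
        (lintegral_tsum (fun k => (hψ.indicator (him k)).aemeasurable)).symm
    _ = ∫⁻ y, ψ y * Measure.count {z : ℂ | z ∈ W ∧ g z = y} := by
        refine lintegral_congr_ae ?_
        filter_upwards [hae] with y hy
        rw [hy, ← ENNReal.tsum_mul_left]
        refine tsum_congr fun k => ?_
        by_cases h : y ∈ g '' (S' k)
        · rw [indicator_of_mem h, indicator_of_mem h, mul_one]
        · rw [indicator_of_notMem h, indicator_of_notMem h, mul_zero]

/-- the open rectangle -/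
def Reg (T : ℝ) : Set ℂ := {s : ℂ | 1 / 2 < s.re ∧ s.re < 2 ∧ 2 < s.im ∧ s.im < T}

lemma Reg_open (T : ℝ) : IsOpen (Reg T) := by
  unfold Reg
  have h1 : IsOpen {s : ℂ | 1 / 2 < s.re} := isOpen_lt continuous_const Complex.continuous_re
  have h2 : IsOpen {s : ℂ | s.re < 2} := isOpen_lt Complex.continuous_re continuous_const
  have h3 : IsOpen {s : ℂ | 2 < s.im} := isOpen_lt continuous_const Complex.continuous_im
  have h4 : IsOpen {s : ℂ | s.im < T} := isOpen_lt Complex.continuous_im continuous_const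
  exact h1.inter (h2.inter (h3.inter h4))

lemma Reg_sub (T : ℝ) : Reg T ⊆ UH := fun s hs => by
  show 0 < s.im
  linarith [hs.2.2.1]

/-- each value is taken finitely often -/
lemma finite_pts (T : ℝ) (a : ℂ) : {s : ℂ | s ∈ Reg T ∧ riemannZeta s = a}.Finite := by
  by_contra hinf
  have hinf : {s : ℂ | s ∈ Reg T ∧ riemannZeta s = a}.Infinite := hinf
  have hK : IsCompact (Icc (1 / 2 : ℝ) 2 ×ℂ Icc 2 T) := isCompact_Icc.reProdIm isCompact_Icc
  obtain ⟨x, hx, hacc⟩ := hinf.exists_accPt_of_subset_isCompact hK (fun s hs => by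
    obtain ⟨⟨h1, h2, h3, h4⟩, _⟩ := hs
    exact ⟨⟨h1.le, h2.le⟩, ⟨h3.le, h4.le⟩⟩)
  have hfreq : ∃ᶠ z in 𝓝[≠] x, riemannZeta z - a = 0 := by
    rw [accPt_iff_frequently_nhdsNE] at hacc
    exact hacc.mono fun z hz => by rw [hz.2, sub_self]
  have hx1 : x ≠ 1 := by
    rintro rfl
    have h5 : (2:ℝ) ≤ (1:ℂ).im := hx.2.1
    norm_num at h5
  have hU : IsPreconnected ({1}ᶜ : Set ℂ) :=
    (isConnected_compl_singleton_of_one_lt_rank (by simp) (1 : ℂ)).isPreconnected
  have han : AnalyticOnNhd ℂ (fun z => riemannZeta z - a) ({1}ᶜ : Set ℂ) := by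
    refine DifferentiableOn.analyticOnNhd (fun z hz => ?_) isOpen_compl_singleton
    exact ((differentiableAt_riemannZeta hz).sub_const a).differentiableWithinAt
  have hz := han.eqOn_zero_of_preconnected_of_frequently_eq_zero hU hx1 hfreq
  have h2 : riemannZeta 2 = a := by
    have := hz (show (2:ℂ) ∈ ({1}ᶜ : Set ℂ) by simp)
    simpa [sub_eq_zero] using this
  have h4 : riemannZeta 4 = a := by
    have := hz (show (4:ℂ) ∈ ({1}ᶜ : Set ℂ) by simp)
    simpa [sub_eq_zero] using this
  rw [riemannZeta_two] at h2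
  rw [riemannZeta_four, ← h2] at h4
  have h5 : (Real.pi : ℝ) ^ 4 / 90 = Real.pi ^ 2 / 6 := by exact_mod_cast h4
  have h6 := Real.pi_gt_three
  have h7 := Real.pi_lt_d2
  have h8 : Real.pi ^ 2 = 15 := by
    have h9 : Real.pi ^ 2 * (Real.pi ^ 2 - 15) = 0 := by nlinarith
    rcases mul_eq_zero.1 h9 with h | h
    · exfalso; nlinarith
    · linarith
  nlinarith

end Pool.Agent.X82.Area
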