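import Mathlib

/-!
# Clique-width and dense spots: localisation of the edges of a graph without `K_{t,t}`
-/

set_option autoImplicit false

open Finset

namespace Pool.Agent.X82.CW

/-- Clique-width expressions with `w` labels, on a fixed ground set `V`. `Builds w S l A` says that some
expression with labels in `Fin w` has as its value the labelled graph with vertex set `S`, in which the
vertex `v ∈ S` has label `l v` (the values of `l` outside `S` are irrelevant) and `x, y` are adjacent iff
`A x y`. The operations are: a single vertex, disjoint union, changing label `i` into `j`, and joining all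
vertices of label `i` with all vertices of label `j` for `i ≠ j`. -/
inductive Builds {V : Type} [DecidableEq V] (w : ℕ) :
    Finset V → (V → Fin w) → (V → V → Prop) → Prop
  | vertex (v : V) (l : V → Fin w) : Builds w {v} l (fun _ _ => False)
  | union {S T : Finset V} {l m : V → Fin w} {A B : V → V → Prop}
      (hS : Builds w S l A) (hT : Builds w T m B) (hd : Disjoint S T) :
      Builds w (S ∪ T) (fun v => if v ∈ S then l v else m v) (fun x y => A x y ∨ B x y)
  | relabel {S : Finset V} {l : V → Fin w} {A : V → V → Prop} (i j : Fin w)
      (h : Builds w S l A) : Builds w S (fun v => if l v = i then j else l v) A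
  | join {S : Finset V} {l : V → Fin w} {A : V → V → Prop} (i j : Fin w) (hij : i ≠ j)
      (h : Builds w S l A) :
      Builds w S l (fun x y => A x y ∨ (x ∈ S ∧ y ∈ S ∧ ((l x = i ∧ l y = j) ∨ (l x = j ∧ l y = i))))

/-- The graph `G` has clique-width at most `w`. -/
def CliqueWidthLe {V : Type} [Fintype V] [DecidableEq V] (G : SimpleGraph V) (w : ℕ) : Prop :=
  ∃ l : V → Fin w, Builds w Finset.univ l G.Adj

section upper

variable {V : Type} [DecidableEq V]

/-- class of the label `i` -/
def cls (S : Finset V) {w : ℕ} (l : V → Fin w) (i : Fin w) : Finset V := S.filter (fun v => l v = i)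

lemma mem_cls {S : Finset V} {w : ℕ} {l : V → Fin w} {i : Fin w} {v : V} :
    v ∈ cls S l i ↔ v ∈ S ∧ l v = i := by simp [cls]

lemma cls_card_mono {S : Finset V} {w w' : ℕ} {l : V → Fin w} {m : V → Fin w'} {x : V}
    {T : Finset V} (hST : S ⊆ T) (h : ∀ y ∈ S, l y = l x → m y = m x) :
    (cls S l (l x)).card ≤ (cls T m (m x)).card := by
  apply card_le_card
  intro y hy
  rw [mem_cls] at hy ⊢
  exact ⟨hST hy.1, h y hy.1 hy.2⟩

/-- the structure produced by the induction -/
structure Acc (G : SimpleGraph V) (t w : ℕ) (B : ℕ) (S : Finset V) (l : V → Fin w)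
    (A : V → V → Prop) (Bs : Finset (Finset V)) (R : Finset V) (H : V → Finset V) : Prop where
  sub : R ⊆ S
  light : ∀ x ∈ S, (cls S l (l x)).card < t → x ∈ R
  size : R.card ≤ B
  pot : w * Bs.card + R.card ≤ S.card
  bags : ∀ b ∈ Bs, b.card ≤ 2 * (t * w)
  outside : ∀ x, x ∉ S → H x = ∅
  heavy : ∀ x, H x = ∅ ∨ ∃ C ⊆ S, t ≤ C.card ∧ (∀ x' ∈ C, l x' = l x) ∧
    ∀ x' ∈ C, ∀ y ∈ H x, G.Adj x' y
  cover : ∀ x y, A x y → y ∈ H x ∨ x ∈ H y ∨ (x ∈ R ∧ y ∈ R) ∨ ∃ b ∈ Bs, x ∈ b ∧ y ∈ b

lemma card_light (t w : ℕ) (S : Finset V) (l : V → Fin w) :
    (S.filter (fun x => (cls S l (l x)).card < t)).card ≤ (t - 1) * w := by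
  classical
  have h1 : S.filter (fun x => (cls S l (l x)).card < t) ⊆
      (Finset.univ.filter (fun i : Fin w => (cls S l i).card < t)).biUnion (fun i => cls S l i) := by
    intro x hx
    rw [mem_filter] at hx
    rw [mem_biUnion]
    exact ⟨l x, by simpa using hx.2, mem_cls.mpr ⟨hx.1, rfl⟩⟩
  refine (card_le_card h1).trans (card_biUnion_le.trans ?_)
  calc ∑ i ∈ Finset.univ.filter (fun i : Fin w => (cls S l i).card < t), (cls S l i).card
      ≤ ∑ i ∈ Finset.univ.filter (fun i : Fin w => (cls S l i).card < t), (t - 1) := by
        apply sum_le_sum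
        intro i hi
        rw [mem_filter] at hi
        omega
    _ ≤ (t - 1) * w := by
        rw [sum_const, smul_eq_mul, mul_comm]
        apply Nat.mul_le_mul_left
        calc _ ≤ (Finset.univ : Finset (Fin w)).card := card_filter_le _ _
          _ = w := by simp

/-- closing the pending bag -/
lemma flush {G : SimpleGraph V} {t w : ℕ} (ht : 1 ≤ t) {S : Finset V} {l : V → Fin w}
    {A : V → V → Prop} {Bs : Finset (Finset V)} {R : Finset V} {H : V → Finset V}
    (h : Acc G t w (2 * (t * w)) S l A Bs R H) :
    ∃ Bs' R', Acc G t w (t * w) S l A Bs' R' H := by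
  classical
  by_cases hR : R.card ≤ t * w
  · exact ⟨Bs, R, { h with size := hR }⟩
  · refine ⟨insert R Bs, S.filter (fun x => (cls S l (l x)).card < t), ?_⟩
    have hL := card_light t w S l
    have htw : (t - 1) * w + w = t * w := by
      obtain ⟨s, rfl⟩ : ∃ s, t = s + 1 := ⟨t - 1, by omega⟩
      simp only [Nat.add_sub_cancel]
      ring
    refine
      { sub := filter_subset _ _
        light := fun x hx h1 => mem_filter.mpr ⟨hx, h1⟩
        size := by omega
        pot := ?_
        bags := ?_
        outside := h.outside
        heavy := h.heavy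
        cover := ?_ }
    · have h1 := h.pot
      have h2 : (insert R Bs).card ≤ Bs.card + 1 := card_insert_le _ _
      have h3 : w * (insert R Bs).card ≤ w * Bs.card + w := by
        calc w * (insert R Bs).card ≤ w * (Bs.card + 1) := Nat.mul_le_mul_left _ h2
          _ = _ := by ring
      omega
    · intro b hb
      rcases mem_insert.mp hb with rfl | hb
      · exact h.size
      · exact h.bags b hb
    · intro x y hxy
      rcases h.cover x y hxy with h1 | h1 | h1 | ⟨b, hb, h1⟩
      · exact Or.inl h1
      · exact Or.inr (Or.inl h1)
      · exact Or.inr (Or.inr (Or.inr ⟨R, mem_insert_self _ _, h1⟩))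
      · exact Or.inr (Or.inr (Or.inr ⟨b, mem_insert_of_mem hb, h1⟩))

theorem key {G : SimpleGraph V} {t w : ℕ} (ht : 1 ≤ t)
    {S : Finset V} {l : V → Fin w} {A : V → V → Prop} (hb : Builds w S l A) :
    (∀ x y, A x y → G.Adj x y) → ∃ Bs R H, Acc G t w (t * w) S l A Bs R H := by
  classical
  induction hb with
  | vertex v l =>
    intro _
    have hw : 1 ≤ w := Nat.one_le_iff_ne_zero.mpr (by
      rintro rfl
      exact (l v).elim0)
    have h1 : 1 ≤ t * w := Nat.mul_le_mul ht hw
    refine ⟨∅, {v}, fun _ => ∅, ?_⟩
    exact
      { sub := Subset.refl _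
        light := fun x hx _ => hx
        size := by simpa using h1
        pot := by simp
        bags := by simp
        outside := fun _ _ => rfl
        heavy := fun _ => Or.inl rfl
        cover := fun x y h => h.elim }
  | @union S T l m A B hS hT hd ihS ihT =>
    intro hG
    obtain ⟨Bs1, R1, H1, a1⟩ := ihS (fun x y h => hG x y (Or.inl h))
    obtain ⟨Bs2, R2, H2, a2⟩ := ihT (fun x y h => hG x y (Or.inr h))
    have hTS : ∀ x ∈ T, x ∉ S := fun x hx hx' => (Finset.disjoint_left.mp hd) hx' hx
    have main : Acc G t w (2 * (t * w)) (S ∪ T) (fun v => if v ∈ S then l v else m v)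
        (fun x y => A x y ∨ B x y) (Bs1 ∪ Bs2) (R1 ∪ R2) (fun x => if x ∈ S then H1 x else H2 x) := by
      refine
        { sub := union_subset_union a1.sub a2.sub
          light := ?_
          size := ?_
          pot := ?_
          bags := ?_
          outside := ?_
          heavy := ?_
          cover := ?_ }
      · intro x hx hlt
        by_cases hxS : x ∈ S
        · apply mem_union_left
          apply a1.light x hxS
          refine lt_of_le_of_lt ?_ hlt
          apply cls_card_mono (subset_union_left)
          intro y hy hyx
          simp [hy, hxS, hyx]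
        · have hxT : x ∈ T := by
            rcases mem_union.mp hx with h | h
            · exact absurd h hxS
            · exact h
          apply mem_union_right
          apply a2.light x hxT
          refine lt_of_le_of_lt ?_ hlt
          apply cls_card_mono (subset_union_right)
          intro y hy hyx
          simp [hTS y hy, hxS, hyx]
      · have := card_union_le R1 R2
        have h1 := a1.size
        have h2 := a2.size
        omega
      · have h0 := card_union_le R1 R2
        have h3 := card_union_le Bs1 Bs2
        have h1 := a1.pot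
        have h2 := a2.pot
        have h4 : (S ∪ T).card = S.card + T.card := card_union_of_disjoint hd
        have h5 : w * (Bs1 ∪ Bs2).card ≤ w * Bs1.card + w * Bs2.card := by
          calc _ ≤ w * (Bs1.card + Bs2.card) := Nat.mul_le_mul_left _ h3
            _ = _ := by ring
        omega
      · intro b hb
        rcases mem_union.mp hb with h | h
        · exact a1.bags b h
        · exact a2.bags b h
      · intro x hx
        have hxS : x ∉ S := fun h => hx (mem_union_left _ h)
        have hxT : x ∉ T := fun h => hx (mem_union_right _ h)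
        simp only [hxS, if_false]
        exact a2.outside x hxT
      · intro x
        by_cases hxS : x ∈ S
        · simp only [hxS, if_true]
          rcases a1.heavy x with h | ⟨C, hC, hCt, hCl, hCG⟩
          · exact Or.inl h
          · refine Or.inr ⟨C, hC.trans subset_union_left, hCt, ?_, hCG⟩
            intro x' hx'
            simp only [hC hx', if_true]
            exact hCl x' hx'
        · simp only [hxS, if_false]
          rcases a2.heavy x with h | ⟨C, hC, hCt, hCl, hCG⟩
          · exact Or.inl h
          · refine Or.inr ⟨C, hC.trans subset_union_right, hCt, ?_, hCG⟩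
            intro x' hx'
            simp only [hTS x' (hC hx'), if_false]
            exact hCl x' hx'
      · have e1 : ∀ x y, y ∈ H1 x → y ∈ (if x ∈ S then H1 x else H2 x) := by
          intro x y h
          by_cases hxS : x ∈ S
          · simpa [hxS] using h
          · rw [a1.outside x hxS] at h
            simp at h
        have e2 : ∀ x y, y ∈ H2 x → y ∈ (if x ∈ S then H1 x else H2 x) := by
          intro x y h
          by_cases hxT : x ∈ T
          · simpa [hTS x hxT] using h
          · rw [a2.outside x hxT] at h
            simp at h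
        rintro x y (h | h)
        · rcases a1.cover x y h with h1 | h1 | h1 | ⟨b, hb, h1⟩
          · exact Or.inl (e1 x y h1)
          · exact Or.inr (Or.inl (e1 y x h1))
          · exact Or.inr (Or.inr (Or.inl ⟨mem_union_left _ h1.1, mem_union_left _ h1.2⟩))
          · exact Or.inr (Or.inr (Or.inr ⟨b, mem_union_left _ hb, h1⟩))
        · rcases a2.cover x y h with h1 | h1 | h1 | ⟨b, hb, h1⟩
          · exact Or.inl (e2 x y h1)
          · exact Or.inr (Or.inl (e2 y x h1))
          · exact Or.inr (Or.inr (Or.inl ⟨mem_union_right _ h1.1, mem_union_right _ h1.2⟩))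
          · exact Or.inr (Or.inr (Or.inr ⟨b, mem_union_right _ hb, h1⟩))
    obtain ⟨Bs', R', h⟩ := flush ht main
    exact ⟨Bs', R', _, h⟩
  | @relabel S l A i j hS ih =>
    intro hG
    obtain ⟨Bs, R, H, a⟩ := ih hG
    refine ⟨Bs, R, H, ?_⟩
    refine
      { sub := a.sub
        light := ?_
        size := a.size
        pot := a.pot
        bags := a.bags
        outside := a.outside
        heavy := ?_
        cover := a.cover }
    · intro x hx hlt
      apply a.light x hx
      refine lt_of_le_of_lt ?_ hlt
      apply cls_card_mono (Subset.refl _)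
      intro y hy hyx
      simp [hyx]
    · intro x
      rcases a.heavy x with h | ⟨C, hC, hCt, hCl, hCG⟩
      · exact Or.inl h
      · refine Or.inr ⟨C, hC, hCt, ?_, hCG⟩
        intro x' hx'
        simp [hCl x' hx']
  | @join S l A i j hij hS ih =>
    intro hG
    obtain ⟨Bs, R, H, a⟩ := ih (fun x y h => hG x y (Or.inl h))
    -- new neighbours
    let N : V → Finset V := fun x =>
      if x ∈ S ∧ t ≤ (cls S l (l x)).card then
        (if l x = i then cls S l j else if l x = j then cls S l i else ∅) else ∅
    refine ⟨Bs, R, fun x => H x ∪ N x, ?_⟩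
    have hN : ∀ x, ∀ x', x' ∈ S → l x' = l x → ∀ y ∈ N x, G.Adj x' y := by
      intro x x' hx' hl y hy
      simp only [N] at hy
      split_ifs at hy with h1 h2 h3
      · rw [mem_cls] at hy
        exact hG x' y (Or.inr ⟨hx', hy.1, Or.inl ⟨by rw [hl, h2], hy.2⟩⟩)
      · rw [mem_cls] at hy
        exact hG x' y (Or.inr ⟨hx', hy.1, Or.inr ⟨by rw [hl, h3], hy.2⟩⟩)
      · simp at hy
      · simp at hy
    refine
      { sub := a.sub
        light := a.light
        size := a.size
        pot := a.pot
        bags := a.bags
        outside := ?_
        heavy := ?_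
        cover := ?_ }
    · intro x hx
      have : N x = ∅ := by simp [N, hx]
      simp only [this, a.outside x hx, union_empty]
    · intro x
      by_cases hNx : N x = ∅
      · simp only [hNx, union_empty]
        exact a.heavy x
      · have hx : x ∈ S ∧ t ≤ (cls S l (l x)).card := by
          by_contra hcon
          exact hNx (by simp [N, hcon])
        rcases a.heavy x with h | ⟨C, hC, hCt, hCl, hCG⟩
        · refine Or.inr ⟨cls S l (l x), filter_subset _ _, hx.2, ?_, ?_⟩
          · intro x' hx'
            exact (mem_cls.mp hx').2
          · intro x' hx' y hy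
            simp only [h, empty_union] at hy
            exact hN x x' (mem_cls.mp hx').1 (mem_cls.mp hx').2 y hy
        · refine Or.inr ⟨C, hC, hCt, hCl, ?_⟩
          intro x' hx' y hy
          rcases mem_union.mp hy with hy | hy
          · exact hCG x' hx' y hy
          · exact hN x x' (hC hx') (hCl x' hx') y hy
    · rintro x y (h | ⟨hx, hy, h⟩)
      · rcases a.cover x y h with h1 | h1 | h1 | h1
        · exact Or.inl (mem_union_left _ h1)
        · exact Or.inr (Or.inl (mem_union_left _ h1))
        · exact Or.inr (Or.inr (Or.inl h1))
        · exact Or.inr (Or.inr (Or.inr h1))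
      · have hmem : ∀ x y, x ∈ S → y ∈ S → ((l x = i ∧ l y = j) ∨ (l x = j ∧ l y = i)) →
            t ≤ (cls S l (l x)).card → y ∈ N x := by
          intro x y hx hy h hc
          simp only [N, hx, hc, and_self, if_true]
          rcases h with ⟨h1, h2⟩ | ⟨h1, h2⟩
          · simp [h1, mem_cls, hy, h2]
          · have hji : ¬ (j = i) := fun h => hij h.symm
            simp [hji, h1, mem_cls, hy, h2]
        by_cases hcx : t ≤ (cls S l (l x)).card
        · exact Or.inl (mem_union_right _ (hmem x y hx hy h hcx))
        · by_cases hcy : t ≤ (cls S l (l y)).card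
          · refine Or.inr (Or.inl (mem_union_right _ (hmem y x hy hx ?_ hcy)))
            rcases h with h | h
            · exact Or.inr ⟨h.2, h.1⟩
            · exact Or.inl ⟨h.2, h.1⟩
          · exact Or.inr (Or.inr (Or.inl ⟨a.light x hx (by omega), a.light y hy (by omega)⟩))

end upper

end Pool.Agent.X82.CW
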