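import Pool.Agent.X82.CW1

/-!
# Counting the edges
-/

set_option autoImplicit false

open Finset

namespace Pool.Agent.X82.CW

/-- the number of ordered pairs of adjacent vertices of the set `R` -/
noncomputable def prs {V : Type} (G : SimpleGraph V) (R : Finset V) : ℕ := by
  classical
  exact ((R ×ˢ R).filter (fun p => G.Adj p.1 p.2)).card

lemma prs_mono {V : Type} (G : SimpleGraph V) {R T : Finset V} (h : R ⊆ T) : prs G R ≤ prs G T := by
  classical
  unfold prs
  exact card_le_card (filter_subset_filter _ (product_subset_product h h))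

lemma prs_univ {V : Type} [Fintype V] (G : SimpleGraph V) :
    prs G Finset.univ = 2 * Nat.card G.edgeSet := by
  classical
  unfold prs
  rw [Nat.card_eq_fintype_card, ← SimpleGraph.edgeFinset_card]
  rw [← SimpleGraph.sum_degrees_eq_twice_card_edges]
  rw [univ_product_univ, card_filter, Fintype.sum_prod_type]
  apply sum_congr rfl
  intro x _
  rw [← SimpleGraph.card_neighborFinset_eq_degree, SimpleGraph.neighborFinset_eq_filter, card_filter]

/-- no complete bipartite subgraph with `t` vertices on both sides -/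
def NoK {V : Type} (G : SimpleGraph V) (t : ℕ) : Prop :=
  ∀ X Y : Finset V, t ≤ X.card → t ≤ Y.card → ¬ ∀ x ∈ X, ∀ y ∈ Y, G.Adj x y

theorem edges_le {V : Type} [Fintype V] [DecidableEq V] {G : SimpleGraph V} {t w e : ℕ}
    (ht : 1 ≤ t) (hw : 1 ≤ w) (hK : NoK G t) (hcw : CliqueWidthLe G w)
    (he : ∀ R : Finset V, R.card ≤ 2 * (t * w) → prs G R ≤ 2 * e) :
    Nat.card G.edgeSet ≤ (t - 1) * Fintype.card V + (Fintype.card V / w + 1) * e := by
  classical
  obtain ⟨l, hl⟩ := hcw
  obtain ⟨Bs, R, H, a⟩ := key ht hl (fun x y h => h)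
  have hH : ∀ x, (H x).card ≤ t - 1 := by
    intro x
    rcases a.heavy x with h | ⟨C, -, hC, -, hCG⟩
    · simp [h]
    · by_contra hcon
      exact hK C (H x) hC (by omega) hCG
  have hBs : Bs.card ≤ Fintype.card V / w := by
    rw [Nat.le_div_iff_mul_le hw]
    have := a.pot
    rw [card_univ] at this
    rw [mul_comm]
    omega
  let P : Finset (V × V) := (univ ×ˢ univ).filter (fun p => G.Adj p.1 p.2)
  let P1 : Finset (V × V) := univ.biUnion (fun x => (H x).image (fun y => (x, y)))
  let P2 : Finset (V × V) := univ.biUnion (fun x => (H x).image (fun y => (y, x)))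
  let Q : Finset V → Finset (V × V) := fun R => (R ×ˢ R).filter (fun p => G.Adj p.1 p.2)
  have hsub : P ⊆ P1 ∪ P2 ∪ Q R ∪ Bs.biUnion Q := by
    rintro ⟨x, y⟩ hp
    have hxy : G.Adj x y := (mem_filter.mp hp).2
    rcases a.cover x y hxy with h | h | h | ⟨b, hb, h⟩
    · refine mem_union_left _ (mem_union_left _ (mem_union_left _ ?_))
      exact mem_biUnion.mpr ⟨x, mem_univ _, mem_image.mpr ⟨y, h, rfl⟩⟩
    · refine mem_union_left _ (mem_union_left _ (mem_union_right _ ?_))
      exact mem_biUnion.mpr ⟨y, mem_univ _, mem_image.mpr ⟨x, h, rfl⟩⟩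
    · refine mem_union_left _ (mem_union_right _ ?_)
      exact mem_filter.mpr ⟨mem_product.mpr h, hxy⟩
    · refine mem_union_right _ ?_
      exact mem_biUnion.mpr ⟨b, hb, mem_filter.mpr ⟨mem_product.mpr h, hxy⟩⟩
  have h1 : P1.card ≤ Fintype.card V * (t - 1) := by
    refine card_biUnion_le.trans ?_
    calc _ ≤ ∑ x : V, (t - 1) := sum_le_sum (fun x _ => card_image_le.trans (hH x))
      _ = _ := by rw [sum_const, card_univ, smul_eq_mul]
  have h2 : P2.card ≤ Fintype.card V * (t - 1) := by
    refine card_biUnion_le.trans ?_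
    calc _ ≤ ∑ x : V, (t - 1) := sum_le_sum (fun x _ => card_image_le.trans (hH x))
      _ = _ := by rw [sum_const, card_univ, smul_eq_mul]
  have h3 : (Q R).card ≤ 2 * e := by
    have := he R (by have := a.size; omega)
    simpa [prs, Q] using this
  have h4 : (Bs.biUnion Q).card ≤ Bs.card * (2 * e) := by
    refine card_biUnion_le.trans ?_
    calc _ ≤ ∑ b ∈ Bs, 2 * e := sum_le_sum (fun b hb => by
            have := he b (a.bags b hb)
            simpa [prs, Q] using this)
      _ = _ := by rw [sum_const, smul_eq_mul]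
  have h5 : P.card = 2 * Nat.card G.edgeSet := by
    rw [← prs_univ G]
    simp [prs, P]
  have h6 : P.card ≤ P1.card + P2.card + (Q R).card + (Bs.biUnion Q).card := by
    refine (card_le_card hsub).trans ?_
    refine (card_union_le _ _).trans ?_
    have e1 := card_union_le (P1 ∪ P2) (Q R)
    have e2 := card_union_le P1 P2
    omega
  have h7 : Bs.card * (2 * e) ≤ (Fintype.card V / w) * (2 * e) := Nat.mul_le_mul_right _ hBs
  have h8 : 2 * Nat.card G.edgeSet ≤
      2 * ((t - 1) * Fintype.card V + (Fintype.card V / w + 1) * e) := by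
    calc 2 * Nat.card G.edgeSet = P.card := h5.symm
      _ ≤ Fintype.card V * (t - 1) + Fintype.card V * (t - 1) + 2 * e +
          (Fintype.card V / w) * (2 * e) := by omega
      _ = _ := by ring
  omega

end Pool.Agent.X82.CW
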