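import Pool.Agent.X82.CW2

/-!
# Disjoint copies of a graph with `w` vertices have clique-width at most `w`
-/

set_option autoImplicit false

open Finset

namespace Pool.Agent.X82.CW

section build

variable {V : Type} [DecidableEq V] {w : ℕ}

lemma builds_empty (lam : V → Fin w) (S : Finset V) (hS : S.Nonempty) :
    Builds w S lam (fun _ _ => False) := by
  induction S using Finset.induction_on with
  | empty => exact absurd hS (by simp)
  | insert a s ha ih =>
    by_cases hs : s = ∅
    · subst hs
      simpa using Builds.vertex (w := w) a lam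
    · have h := Builds.union (Builds.vertex (w := w) a lam) (ih (nonempty_iff_ne_empty.mpr hs))
        (by simpa using ha)
      have e1 : ({a} : Finset V) ∪ s = insert a s := by ext x; simp
      have e2 : (fun v => if v ∈ ({a} : Finset V) then lam v else lam v) = lam := by
        funext v; simp
      have e3 : (fun (_ _ : V) => False ∨ False) = (fun _ _ => False) := by
        funext x y; simp
      rw [e1, e2, e3] at h
      exact h

lemma builds_small (lam : V → Fin w) (S : Finset V) (hS : S.Nonempty)
    (hinj : ∀ x ∈ S, ∀ y ∈ S, lam x = lam y → x = y) (A : V → V → Prop)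
    (hs : ∀ x y, A x y → A y x) (hi : ∀ x, ¬ A x x) :
    Builds w S lam (fun x y => x ∈ S ∧ y ∈ S ∧ A x y) := by
  classical
  have main : ∀ E : Finset (V × V), (∀ p ∈ E, p.1 ∈ S ∧ p.2 ∈ S ∧ A p.1 p.2) →
      Builds w S lam (fun x y => ∃ p ∈ E, (x = p.1 ∧ y = p.2) ∨ (x = p.2 ∧ y = p.1)) := by
    intro E
    induction E using Finset.induction_on with
    | empty =>
      intro _
      have h := builds_empty lam S hS
      have e : (fun (_ _ : V) => False) =
          (fun x y => ∃ p ∈ (∅ : Finset (V × V)), (x = p.1 ∧ y = p.2) ∨ (x = p.2 ∧ y = p.1)) := by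
        funext x y; simp
      rw [← e]
      exact h
    | insert p E hp ih =>
      intro hE
      have h1 := ih (fun q hq => hE q (mem_insert_of_mem hq))
      obtain ⟨ha, hb, hab⟩ := hE p (mem_insert_self _ _)
      have hne : lam p.1 ≠ lam p.2 := by
        intro h
        have := hinj _ ha _ hb h
        rw [this] at hab
        exact hi _ hab
      have h2 := Builds.join (lam p.1) (lam p.2) hne h1
      have e : (fun x y => (∃ q ∈ E, (x = q.1 ∧ y = q.2) ∨ (x = q.2 ∧ y = q.1)) ∨
          (x ∈ S ∧ y ∈ S ∧ ((lam x = lam p.1 ∧ lam y = lam p.2) ∨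
            (lam x = lam p.2 ∧ lam y = lam p.1)))) =
          (fun x y => ∃ q ∈ insert p E, (x = q.1 ∧ y = q.2) ∨ (x = q.2 ∧ y = q.1)) := by
        funext x y
        apply propext
        constructor
        · rintro (⟨q, hq, h⟩ | ⟨hx, hy, h⟩)
          · exact ⟨q, mem_insert_of_mem hq, h⟩
          · refine ⟨p, mem_insert_self _ _, ?_⟩
            rcases h with ⟨h1, h2⟩ | ⟨h1, h2⟩
            · exact Or.inl ⟨hinj _ hx _ ha h1, hinj _ hy _ hb h2⟩
            · exact Or.inr ⟨hinj _ hx _ hb h1, hinj _ hy _ ha h2⟩
        · rintro ⟨q, hq, h⟩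
          rcases mem_insert.mp hq with rfl | hq
          · right
            rcases h with ⟨rfl, rfl⟩ | ⟨rfl, rfl⟩
            · exact ⟨ha, hb, Or.inl ⟨rfl, rfl⟩⟩
            · exact ⟨hb, ha, Or.inr ⟨rfl, rfl⟩⟩
          · exact Or.inl ⟨q, hq, h⟩
      rw [e] at h2
      exact h2
  have h := main ((S ×ˢ S).filter (fun p => A p.1 p.2)) (fun p hp => by
    rw [mem_filter, mem_product] at hp
    exact ⟨hp.1.1, hp.1.2, hp.2⟩)
  have e : (fun x y => ∃ p ∈ (S ×ˢ S).filter (fun p => A p.1 p.2),
      (x = p.1 ∧ y = p.2) ∨ (x = p.2 ∧ y = p.1)) = (fun x y => x ∈ S ∧ y ∈ S ∧ A x y) := by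
    funext x y
    apply propext
    constructor
    · rintro ⟨p, hp, h⟩
      rw [mem_filter, mem_product] at hp
      rcases h with ⟨rfl, rfl⟩ | ⟨rfl, rfl⟩
      · exact ⟨hp.1.1, hp.1.2, hp.2⟩
      · exact ⟨hp.1.2, hp.1.1, hs _ _ hp.2⟩
    · rintro ⟨hx, hy, h⟩
      exact ⟨(x, y), mem_filter.mpr ⟨mem_product.mpr ⟨hx, hy⟩, h⟩, Or.inl ⟨rfl, rfl⟩⟩
  rw [e] at h
  exact h

lemma builds_blocks [Fintype V] (lam : V → Fin w) (p : V → ℕ)
    (hinj : ∀ x y, p x = p y → lam x = lam y → x = y) (A : V → V → Prop)
    (hs : ∀ x y, A x y → A y x) (hi : ∀ x, ¬ A x x) (hp : ∀ x y, A x y → p x = p y) :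
    ∀ s : Finset ℕ, (univ.filter (fun x => p x ∈ s)).Nonempty →
      Builds w (univ.filter (fun x => p x ∈ s)) lam (fun x y => p x ∈ s ∧ p y ∈ s ∧ A x y) := by
  classical
  intro s
  induction s using Finset.induction_on with
  | empty => intro h; simp at h
  | insert j s hj ih =>
    intro hne
    by_cases h1 : (univ.filter (fun x => p x = j)).Nonempty
    · have hsm := builds_small lam (univ.filter (fun x => p x = j)) h1
        (fun x hx y hy hxy => by
          rw [mem_filter] at hx hy
          exact hinj x y (hx.2.trans hy.2.symm) hxy) A hs hi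
      by_cases h2 : (univ.filter (fun x => p x ∈ s)).Nonempty
      · have hd : Disjoint (univ.filter (fun x => p x = j)) (univ.filter (fun x => p x ∈ s)) := by
          rw [Finset.disjoint_left]
          intro x hx hx'
          rw [mem_filter] at hx hx'
          exact hj (hx.2 ▸ hx'.2)
        have h := Builds.union hsm (ih h2) hd
        have e1 : (univ.filter (fun x => p x = j)) ∪ (univ.filter (fun x => p x ∈ s)) =
            univ.filter (fun x => p x ∈ insert j s) := by
          ext x; simp
        have e2 : (fun v => if v ∈ univ.filter (fun x => p x = j) then lam v else lam v) = lam := by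
          funext v; simp
        have e3 : (fun x y => (x ∈ univ.filter (fun x => p x = j) ∧
            y ∈ univ.filter (fun x => p x = j) ∧ A x y) ∨ (p x ∈ s ∧ p y ∈ s ∧ A x y)) =
            (fun x y => p x ∈ insert j s ∧ p y ∈ insert j s ∧ A x y) := by
          funext x y
          apply propext
          simp only [mem_filter, mem_univ, true_and, mem_insert]
          constructor
          · rintro (⟨h1, h2, h3⟩ | ⟨h1, h2, h3⟩)
            · exact ⟨Or.inl h1, Or.inl h2, h3⟩
            · exact ⟨Or.inr h1, Or.inr h2, h3⟩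
          · rintro ⟨h1, h2, h3⟩
            have := hp x y h3
            rcases h1 with h1 | h1
            · exact Or.inl ⟨h1, by omega, h3⟩
            · exact Or.inr ⟨h1, by rwa [← this], h3⟩
        rw [e1, e2, e3] at h
        exact h
      · rw [not_nonempty_iff_eq_empty] at h2
        have h2' : ∀ x, p x ∉ s := fun x hx => by
          have : x ∈ univ.filter (fun x => p x ∈ s) := by simpa using hx
          rw [h2] at this
          simp at this
        have e1 : (univ.filter (fun x => p x ∈ insert j s)) = univ.filter (fun x => p x = j) := by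
          ext x; simp [h2' x]
        have e3 : (fun x y => x ∈ univ.filter (fun x => p x = j) ∧
            y ∈ univ.filter (fun x => p x = j) ∧ A x y) =
            (fun x y => p x ∈ insert j s ∧ p y ∈ insert j s ∧ A x y) := by
          funext x y
          simp [h2' x, h2' y]
        rw [e1, ← e3]
        exact hsm
    · rw [not_nonempty_iff_eq_empty] at h1
      have h1' : ∀ x, p x ≠ j := fun x hx => by
        have : x ∈ univ.filter (fun x => p x = j) := by simpa using hx
        rw [h1] at this
        simp at this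
      have e1 : (univ.filter (fun x => p x ∈ insert j s)) = univ.filter (fun x => p x ∈ s) := by
        ext x; simp [h1' x]
      have e3 : (fun x y => p x ∈ insert j s ∧ p y ∈ insert j s ∧ A x y) =
          (fun x y => p x ∈ s ∧ p y ∈ s ∧ A x y) := by
        funext x y
        simp [h1' x, h1' y]
      rw [e1] at hne ⊢
      rw [e3]
      exact ih hne

end build

/-- `⌊n / w⌋` disjoint copies of `G0` (and a part of one more copy on the remaining vertices). -/
def blk (n w : ℕ) (hw : 0 < w) (G0 : SimpleGraph (Fin w)) : SimpleGraph (Fin n) where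
  Adj x y := x.val / w = y.val / w ∧
    G0.Adj ⟨x.val % w, Nat.mod_lt _ hw⟩ ⟨y.val % w, Nat.mod_lt _ hw⟩
  symm := ⟨fun x y h => ⟨h.1.symm, h.2.symm⟩⟩
  loopless := ⟨fun x h => G0.loopless.irrefl _ h.2⟩

lemma blk_cw {n w : ℕ} (hn : 1 ≤ n) (hw : 0 < w) (G0 : SimpleGraph (Fin w)) :
    CliqueWidthLe (blk n w hw G0) w := by
  classical
  refine ⟨fun x => ⟨x.val % w, Nat.mod_lt _ hw⟩, ?_⟩
  have h := builds_blocks (V := Fin n) (w := w) (fun x => ⟨x.val % w, Nat.mod_lt _ hw⟩)
    (fun x => x.val / w) (fun x y h1 h2 => by
      simp only [Fin.mk.injEq] at h2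
      apply Fin.ext
      have h1' : x.val / w = y.val / w := h1
      rw [← Nat.div_add_mod x.val w, ← Nat.div_add_mod y.val w, h2, h1']) (blk n w hw G0).Adj (fun x y h => h.symm) (fun x h => (blk n w hw G0).loopless.irrefl x h)
    (fun x y h => h.1) (Finset.range (n + 1)) (by
      refine ⟨⟨0, by omega⟩, ?_⟩
      simp)
  have hmem : ∀ x : Fin n, x.val / w ∈ Finset.range (n + 1) := by
    intro x
    rw [Finset.mem_range]
    have := Nat.div_le_self x.val w
    omega
  have e1 : (univ.filter (fun x : Fin n => x.val / w ∈ Finset.range (n + 1))) = univ := by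
    ext x
    simp only [mem_filter, mem_univ, true_and, iff_true]
    exact hmem x
  have e2 : (fun x y : Fin n => x.val / w ∈ Finset.range (n + 1) ∧
      y.val / w ∈ Finset.range (n + 1) ∧ (blk n w hw G0).Adj x y) = (blk n w hw G0).Adj := by
    funext x y
    simp only [hmem x, hmem y, true_and]
  rw [e1, e2] at h
  exact h

lemma blk_edges {n w : ℕ} (hw : 0 < w) (G0 : SimpleGraph (Fin w)) :
    (n / w) * Nat.card G0.edgeSet ≤ Nat.card (blk n w hw G0).edgeSet := by
  classical
  have h1 := prs_univ G0
  have h2 := prs_univ (blk n w hw G0)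
  have h3 : (n / w) * prs G0 univ ≤ prs (blk n w hw G0) univ := by
    unfold prs
    have e : (n / w) * ((univ ×ˢ univ : Finset (Fin w × Fin w)).filter (fun p => G0.Adj p.1 p.2)).card =
        ((univ : Finset (Fin (n / w))) ×ˢ
          ((univ ×ˢ univ : Finset (Fin w × Fin w)).filter (fun p => G0.Adj p.1 p.2))).card := by
      rw [card_product]; simp
    rw [e]
    have hlt : ∀ (j : Fin (n / w)) (a : Fin w), j.val * w + a.val < n := by
      intro j a
      have h1 : (j.val + 1) * w ≤ (n / w) * w := Nat.mul_le_mul_right _ j.isLt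
      have h2 := Nat.div_mul_le_self n w
      have h3 := a.isLt
      have h4 : (j.val + 1) * w = j.val * w + w := by ring
      omega
    refine card_le_card_of_injOn
      (fun q => ((⟨q.1.val * w + q.2.1.val, hlt q.1 q.2.1⟩ : Fin n),
        (⟨q.1.val * w + q.2.2.val, hlt q.1 q.2.2⟩ : Fin n))) ?_ ?_
    · rintro ⟨j, a, b⟩ hq
      simp only [coe_product, Set.mem_prod, mem_coe, mem_filter, mem_product, mem_univ, true_and,
        coe_filter, Set.mem_setOf_eq, and_true] at hq ⊢
      have d1 : (j.val * w + a.val) / w = j.val := by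
        rw [mul_comm, Nat.mul_add_div hw, Nat.div_eq_of_lt a.isLt, add_zero]
      have d2 : (j.val * w + b.val) / w = j.val := by
        rw [mul_comm, Nat.mul_add_div hw, Nat.div_eq_of_lt b.isLt, add_zero]
      have m1 : (j.val * w + a.val) % w = a.val := by
        rw [mul_comm, Nat.mul_add_mod, Nat.mod_eq_of_lt a.isLt]
      have m2 : (j.val * w + b.val) % w = b.val := by
        rw [mul_comm, Nat.mul_add_mod, Nat.mod_eq_of_lt b.isLt]
      refine ⟨by simp only [d1, d2], ?_⟩
      simp only [m1, m2]
      exact hq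
    · rintro ⟨j, a, b⟩ - ⟨j', a', b'⟩ - h
      simp only [Prod.mk.injEq, Fin.mk.injEq] at h
      have d1 : (j.val * w + a.val) / w = j.val := by
        rw [mul_comm, Nat.mul_add_div hw, Nat.div_eq_of_lt a.isLt, add_zero]
      have d2 : (j'.val * w + a'.val) / w = j'.val := by
        rw [mul_comm, Nat.mul_add_div hw, Nat.div_eq_of_lt a'.isLt, add_zero]
      have hj : j.val = j'.val := by rw [← d1, ← d2, h.1]
      have ha : a.val = a'.val := by
        have := h.1; rw [hj] at this; omega
      have hb : b.val = b'.val := by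
        have := h.2; rw [hj] at this; omega
      simp only [Prod.mk.injEq]
      exact ⟨Fin.ext hj, Fin.ext ha, Fin.ext hb⟩
  rw [h1, h2] at h3
  have : 2 * ((n / w) * Nat.card G0.edgeSet) ≤ 2 * Nat.card (blk n w hw G0).edgeSet := by
    calc _ = (n / w) * (2 * Nat.card G0.edgeSet) := by ring
      _ ≤ _ := h3
  omega

/-- A connected graph contained in `blk` is contained in `G0`. -/
lemma blk_free {n w : ℕ} (hw : 0 < w) (G0 : SimpleGraph (Fin w)) {U : Type} (F : SimpleGraph U)
    (hF : F.Connected) (h : F.Free G0) : F.Free (blk n w hw G0) := by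
  intro hcon
  obtain ⟨f⟩ := hcon
  apply h
  have hconst : ∀ u v : U, F.Reachable u v → (f u).val / w = (f v).val / w := by
    intro u v huv
    obtain ⟨p⟩ := huv
    induction p with
    | nil => rfl
    | cons hadj _ ih =>
      have h1 := f.toHom.map_adj hadj
      exact h1.1.trans ih
  refine ⟨⟨⟨fun u => ⟨(f u).val % w, Nat.mod_lt _ hw⟩, ?_⟩, ?_⟩⟩
  · intro u v huv
    exact (f.toHom.map_adj huv).2
  · intro u v huv
    have h1 := hconst u v (hF.preconnected u v)
    have h2 : (f u).val % w = (f v).val % w := by
      have := congrArg Fin.val huv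
      exact this
    have h3 : (f u).val = (f v).val := by
      rw [← Nat.div_add_mod (f u).val w, ← Nat.div_add_mod (f v).val w, h1, h2]
    exact f.injective (Fin.ext h3)

end Pool.Agent.X82.CW
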