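import Pool.Agent.X82.CW3

/-!
# The general two-sided theorem
-/

set_option autoImplicit false

open Finset SimpleGraph

namespace Pool.Agent.X82.CW

/-- A monotone graph property, closed under taking disjoint copies, with graphs of clique size 2,
without `K_{t,t}`, and its extremal function. -/
structure Good (t : ℕ) (P : (n : ℕ) → SimpleGraph (Fin n) → Prop) (ex : ℕ → ℕ) : Prop where
  mono : ∀ (m n : ℕ) (G' : SimpleGraph (Fin m)) (G : SimpleGraph (Fin n)), G' ⊑ G → P n G → P m G'
  blk : ∀ (n w : ℕ) (hw : 0 < w) (G0 : SimpleGraph (Fin w)), P w G0 → P n (blk n w hw G0)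
  edge : P 2 ⊤
  noK : ∀ (n : ℕ) (G : SimpleGraph (Fin n)), P n G → NoK G t
  le : ∀ (n : ℕ) (G : SimpleGraph (Fin n)), P n G → Nat.card G.edgeSet ≤ ex n
  attained : ∀ n : ℕ, ∃ G : SimpleGraph (Fin n), P n G ∧ Nat.card G.edgeSet = ex n

variable {t : ℕ} {P : (n : ℕ) → SimpleGraph (Fin n) → Prop} {ex : ℕ → ℕ}

lemma Good.div_mul_le (h : Good t P ex) {n w : ℕ} (hw : 0 < w) : (n / w) * ex w ≤ ex n := by
  obtain ⟨G, hG, he⟩ := h.attained w
  calc (n / w) * ex w = (n / w) * Nat.card G.edgeSet := by rw [he]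
    _ ≤ _ := blk_edges hw G
    _ ≤ ex n := h.le n _ (h.blk n w hw G hG)

lemma Good.ex_mono (h : Good t P ex) {m n : ℕ} (hmn : m ≤ n) : ex m ≤ ex n := by
  rcases Nat.eq_zero_or_pos m with rfl | hm
  · obtain ⟨G, hG, he⟩ := h.attained 0
    have : Nat.card G.edgeSet = 0 := by
      have : IsEmpty G.edgeSet := by
        constructor
        rintro ⟨e, he⟩
        induction e with
        | _ x y => exact x.elim0
      exact Nat.card_of_isEmpty
    rw [← he, this]
    exact Nat.zero_le _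
  · calc ex m = 1 * ex m := (one_mul _).symm
      _ ≤ (n / m) * ex m := Nat.mul_le_mul_right _ ((Nat.one_le_div_iff hm).mpr hmn)
      _ ≤ ex n := h.div_mul_le hm

lemma Good.half_le (h : Good t P ex) (w : ℕ) : w / 2 ≤ ex w := by
  have h1 := h.div_mul_le (n := w) (w := 2) (by norm_num)
  have h2 : 1 ≤ ex 2 := by
    refine le_trans ?_ (h.le 2 ⊤ h.edge)
    have : Nonempty (⊤ : SimpleGraph (Fin 2)).edgeSet := ⟨⟨s(0, 1), by simp⟩⟩
    exact Nat.card_pos
  calc w / 2 = (w / 2) * 1 := (mul_one _).symm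
    _ ≤ (w / 2) * ex 2 := Nat.mul_le_mul_left _ h2
    _ ≤ _ := h1

/-- a set with at most `w ≤ n` vertices spans at most `ex w` edges -/
lemma Good.prs_le (h : Good t P ex) {n w : ℕ} (hwn : w ≤ n) (G : SimpleGraph (Fin n)) (hG : P n G)
    (T : Finset (Fin n)) (hT : T.card ≤ w) : prs G T ≤ 2 * ex w := by
  classical
  obtain ⟨T', hTT', hT'⟩ := Finset.exists_superset_card_eq hT (by simpa using hwn)
  refine (prs_mono G hTT').trans ?_
  let f : Fin w ↪o Fin n := T'.orderEmbOfFin hT'
  let G' : SimpleGraph (Fin w) := G.comap f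
  have hP : P w G' := by
    refine h.mono w n G' G ?_ hG
    exact ⟨⟨⟨f, fun {a b} hab => hab⟩, f.injective⟩⟩
  have h1 := h.le w G' hP
  have h2 : prs G T' ≤ prs G' univ := by
    unfold prs
    have himg : ((univ ×ˢ univ : Finset (Fin w × Fin w)).filter (fun p => G'.Adj p.1 p.2)).image
        (fun p => (f p.1, f p.2)) = (T' ×ˢ T').filter (fun p => G.Adj p.1 p.2) := by
      ext ⟨x, y⟩
      simp only [mem_image, mem_filter, mem_product, mem_univ, true_and, Prod.exists,
        Prod.mk.injEq]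
      constructor
      · rintro ⟨a, b, hab, rfl, rfl⟩
        exact ⟨⟨Finset.orderEmbOfFin_mem _ _ _, Finset.orderEmbOfFin_mem _ _ _⟩, hab⟩
      · rintro ⟨⟨hx, hy⟩, hxy⟩
        have hr := Finset.range_orderEmbOfFin T' hT'
        have hx' : x ∈ Set.range f := by rw [hr]; exact hx
        have hy' : y ∈ Set.range f := by rw [hr]; exact hy
        obtain ⟨a, rfl⟩ := hx'
        obtain ⟨b, rfl⟩ := hy'
        exact ⟨a, b, hxy, rfl, rfl⟩
    rw [← himg]
    exact card_image_le
  rw [prs_univ] at h2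
  omega

/-- colouring a set with few colours and small classes -/
lemma exists_colouring {V : Type} [DecidableEq V] (R : Finset V) (c h : ℕ) (hR : R.card ≤ c * h) :
    ∃ φ : V → ℕ, (∀ x ∈ R, φ x < c) ∧ ∀ a, (R.filter (fun x => φ x = a)).card ≤ h := by
  classical
  rcases Nat.eq_zero_or_pos h with rfl | hh
  · have : R = ∅ := by
      rw [← Finset.card_eq_zero]; simpa using hR
    subst this
    exact ⟨fun _ => 0, by simp, by simp⟩
  let e := R.equivFin
  refine ⟨fun x => if hx : x ∈ R then (e ⟨x, hx⟩).val / h else 0, ?_, ?_⟩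
  · intro x hx
    simp only [hx, dif_pos]
    rw [Nat.div_lt_iff_lt_mul hh]
    exact lt_of_lt_of_le (e ⟨x, hx⟩).isLt hR
  · intro a
    have : ((R.filter (fun x => (if hx : x ∈ R then (e ⟨x, hx⟩).val / h else 0) = a)).card) ≤
        (Finset.Ico (a * h) (a * h + h)).card := by
      refine card_le_card_of_injOn (fun x => if hx : x ∈ R then (e ⟨x, hx⟩).val else 0) ?_ ?_
      · intro x hx
        rw [mem_coe, mem_filter] at hx
        obtain ⟨hxR, hx⟩ := hx
        simp only [hxR, dif_pos] at hx ⊢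
        rw [mem_coe, Finset.mem_Ico]
        have h1 := Nat.div_add_mod (e ⟨x, hxR⟩).val h
        have h2 := Nat.mod_lt (e ⟨x, hxR⟩).val hh
        rw [hx] at h1
        have h3 : h * a = a * h := mul_comm _ _
        omega
      · intro x hx y hy hxy
        rw [mem_coe, mem_filter] at hx hy
        simp only [hx.1, hy.1, dif_pos] at hxy
        have := e.injective (Fin.ext hxy)
        simpa using this
    simpa using this

lemma Good.bag_le (h : Good t P ex) {n w : ℕ} (hw : 2 ≤ w) (hwn : w ≤ n) (G : SimpleGraph (Fin n))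
    (hG : P n G) (R : Finset (Fin n)) (hR : R.card ≤ 2 * (t * w)) :
    prs G R ≤ 2 * (36 * t ^ 2 * ex w) := by
  classical
  have hh : w ≤ 3 * (w / 2) := by omega
  have hR' : R.card ≤ (6 * t) * (w / 2) := by
    calc R.card ≤ 2 * (t * w) := hR
      _ ≤ 2 * (t * (3 * (w / 2))) := by gcongr
      _ = _ := by ring
  obtain ⟨φ, hφ, hcl⟩ := exists_colouring R (6 * t) (w / 2) hR'
  have hsub : (R ×ˢ R).filter (fun p => G.Adj p.1 p.2) ⊆
      (Finset.range (6 * t) ×ˢ Finset.range (6 * t)).biUnion (fun q =>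
        ((R.filter (fun x => φ x = q.1) ∪ R.filter (fun x => φ x = q.2)) ×ˢ
          (R.filter (fun x => φ x = q.1) ∪ R.filter (fun x => φ x = q.2))).filter
            (fun p => G.Adj p.1 p.2)) := by
    rintro ⟨x, y⟩ hp
    rw [mem_filter, mem_product] at hp
    rw [mem_biUnion]
    refine ⟨(φ x, φ y), ?_, ?_⟩
    · rw [mem_product, mem_range, mem_range]
      exact ⟨hφ x hp.1.1, hφ y hp.1.2⟩
    · rw [mem_filter, mem_product, mem_union, mem_union]
      exact ⟨⟨Or.inl (mem_filter.mpr ⟨hp.1.1, rfl⟩), Or.inr (mem_filter.mpr ⟨hp.1.2, rfl⟩)⟩, hp.2⟩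
  have h1 : prs G R ≤ ∑ q ∈ Finset.range (6 * t) ×ˢ Finset.range (6 * t), 2 * ex w := by
    have e : prs G R = ((R ×ˢ R).filter (fun p => G.Adj p.1 p.2)).card := by simp [prs]
    rw [e]
    refine (card_le_card hsub).trans (card_biUnion_le.trans ?_)
    apply sum_le_sum
    intro q _
    have := h.prs_le hwn G hG (R.filter (fun x => φ x = q.1) ∪ R.filter (fun x => φ x = q.2)) (by
      have e1 := card_union_le (R.filter (fun x => φ x = q.1)) (R.filter (fun x => φ x = q.2))
      have e2 := hcl q.1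
      have e3 := hcl q.2
      omega)
    simpa [prs] using this
  rw [sum_const, card_product, card_range, smul_eq_mul] at h1
  calc prs G R ≤ _ := h1
    _ = _ := by ring

/-- lower bound -/
theorem Good.lower (h : Good t P ex) {n w : ℕ} (hw : 1 ≤ w) (hn : 1 ≤ n) :
    ∃ G : SimpleGraph (Fin n), P n G ∧ CliqueWidthLe G w ∧ (n / w) * ex w ≤ Nat.card G.edgeSet := by
  obtain ⟨G, hG, he⟩ := h.attained w
  exact ⟨Pool.Agent.X82.CW.blk n w hw G, h.blk n w hw G hG, blk_cw hn hw G, by
    rw [← he]; exact blk_edges hw G⟩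

/-- upper bound -/
theorem Good.upper (h : Good t P ex) (ht : 1 ≤ t) {n w : ℕ} (hw : 2 ≤ w) (hwn : w ≤ n)
    (G : SimpleGraph (Fin n)) (hG : P n G) (hcw : CliqueWidthLe G w) :
    Nat.card G.edgeSet ≤ 78 * t ^ 2 * ((n / w) * ex w) := by
  have h1 := edges_le ht (by omega) (h.noK n G hG) hcw (fun R hR => h.bag_le hw hwn G hG R hR)
  rw [Fintype.card_fin] at h1
  have hq : 1 ≤ n / w := (Nat.one_le_div_iff (by omega)).mpr hwn
  have h2 : w ≤ 3 * ex w := by
    have := h.half_le w
    omega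
  have h3 : n ≤ 6 * ((n / w) * ex w) := by
    have e1 := Nat.lt_div_mul_add (a := n) (show 0 < w by omega)
    calc n ≤ n / w * w + w := e1.le
      _ ≤ n / w * w + n / w * w := by
        have : w ≤ n / w * w := by
          calc w = 1 * w := (one_mul _).symm
            _ ≤ _ := Nat.mul_le_mul_right _ hq
        omega
      _ = 2 * (n / w) * w := by ring
      _ ≤ 2 * (n / w) * (3 * ex w) := Nat.mul_le_mul_left _ h2
      _ = _ := by ring
  have h4 : (n / w + 1) * (36 * t ^ 2 * ex w) ≤ 72 * t ^ 2 * ((n / w) * ex w) := by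
    calc (n / w + 1) * (36 * t ^ 2 * ex w) ≤ (n / w + n / w) * (36 * t ^ 2 * ex w) := by
          gcongr
      _ = _ := by ring
  have h5 : (t - 1) * n ≤ 6 * t ^ 2 * ((n / w) * ex w) := by
    calc (t - 1) * n ≤ t ^ 2 * (6 * ((n / w) * ex w)) := by
          apply Nat.mul_le_mul _ h3
          nlinarith [Nat.sub_le t 1]
      _ = _ := by ring
  calc Nat.card G.edgeSet ≤ _ := h1
    _ ≤ 6 * t ^ 2 * ((n / w) * ex w) + 72 * t ^ 2 * ((n / w) * ex w) := by omega
    _ = _ := by ring

end Pool.Agent.X82.CW
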