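import Pool.Agent.X82.CW4

/-!
# Orders of magnitude
-/

set_option autoImplicit false

open Finset SimpleGraph Filter

namespace Pool.Agent.X82.CW

variable {t : ℕ} {P : (n : ℕ) → SimpleGraph (Fin n) → Prop} {ex : ℕ → ℕ}

lemma width_facts {γ : ℝ} (h0 : 0 < γ) (h1 : γ ≤ 1) {n : ℕ} (hn : 2 ≤ n) :
    2 ≤ ⌈(n : ℝ) ^ γ⌉₊ ∧ ⌈(n : ℝ) ^ γ⌉₊ ≤ n ∧ (n : ℝ) ^ γ ≤ ⌈(n : ℝ) ^ γ⌉₊ ∧
      (⌈(n : ℝ) ^ γ⌉₊ : ℝ) ≤ 2 * (n : ℝ) ^ γ := by
  have hn' : (1 : ℝ) < n := by exact_mod_cast (by omega : 1 < n)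
  have hp : (1 : ℝ) < (n : ℝ) ^ γ := Real.one_lt_rpow hn' h0
  refine ⟨?_, ?_, Nat.le_ceil _, ?_⟩
  · have : (1 : ℕ) < ⌈(n : ℝ) ^ γ⌉₊ := by
      rw [Nat.lt_ceil]; simpa using hp
    omega
  · rw [Nat.ceil_le]
    calc (n : ℝ) ^ γ ≤ (n : ℝ) ^ (1 : ℝ) := Real.rpow_le_rpow_of_exponent_le hn'.le h1
      _ = n := Real.rpow_one _
  · have := (Nat.ceil_lt_add_one (by positivity : (0 : ℝ) ≤ (n : ℝ) ^ γ)).le
    linarith

lemma inv_facts {γ : ℝ} (h0 : 0 < γ) (h1 : γ ≤ 1) {m : ℕ} (hm : 1 ≤ m) :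
    m ≤ ⌊(m : ℝ) ^ (1 / γ)⌋₊ ∧ ((⌊(m : ℝ) ^ (1 / γ)⌋₊ : ℝ)) ^ γ ≤ m ∧
      (m : ℝ) / 2 ≤ ((⌊(m : ℝ) ^ (1 / γ)⌋₊ : ℝ)) ^ γ := by
  have hm' : (1 : ℝ) ≤ m := by exact_mod_cast hm
  have h1g : 1 ≤ 1 / γ := by rw [le_div_iff₀ h0]; linarith
  have hx : (m : ℝ) ≤ (m : ℝ) ^ (1 / γ) := by
    calc (m : ℝ) = (m : ℝ) ^ (1 : ℝ) := (Real.rpow_one _).symm
      _ ≤ _ := Real.rpow_le_rpow_of_exponent_le hm' h1g
  have hx1 : 1 ≤ (m : ℝ) ^ (1 / γ) := hm'.trans hx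
  have hpow : ((m : ℝ) ^ (1 / γ)) ^ γ = m := by
    rw [← Real.rpow_mul (by linarith), one_div_mul_cancel h0.ne', Real.rpow_one]
  refine ⟨Nat.le_floor hx, ?_, ?_⟩
  · calc _ ≤ ((m : ℝ) ^ (1 / γ)) ^ γ :=
          Real.rpow_le_rpow (by positivity) (Nat.floor_le (by positivity)) h0.le
      _ = m := hpow
  · have hfl : (m : ℝ) ^ (1 / γ) / 2 ≤ (⌊(m : ℝ) ^ (1 / γ)⌋₊ : ℝ) := by
      have e1 := Nat.lt_floor_add_one ((m : ℝ) ^ (1 / γ))
      have e2 : (1 : ℝ) ≤ (⌊(m : ℝ) ^ (1 / γ)⌋₊ : ℝ) := by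
        exact_mod_cast Nat.le_floor (by simpa using hx1)
      linarith
    calc (m : ℝ) / 2 ≤ (m : ℝ) / 2 ^ γ := by
          apply div_le_div_of_nonneg_left (by linarith) (by positivity)
          calc (2 : ℝ) ^ γ ≤ (2 : ℝ) ^ (1 : ℝ) := Real.rpow_le_rpow_of_exponent_le (by norm_num) h1
            _ = 2 := Real.rpow_one _
      _ = ((m : ℝ) ^ (1 / γ) / 2) ^ γ := by
          rw [Real.div_rpow (by positivity) (by norm_num), hpow]
      _ ≤ _ := Real.rpow_le_rpow (by positivity) hfl h0.le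

lemma div_real_le (n w : ℕ) : ((n / w : ℕ) : ℝ) ≤ (n : ℝ) / w := Nat.cast_div_le

lemma half_div {n w : ℕ} (hw : 0 < w) (hwn : w ≤ n) : (n : ℝ) / (2 * w) ≤ ((n / w : ℕ) : ℝ) := by
  have hq : 1 ≤ n / w := (Nat.one_le_div_iff hw).mpr hwn
  have e1 := (Nat.lt_div_mul_add (a := n) hw).le
  have e2 : (n : ℝ) ≤ ((n / w : ℕ) : ℝ) * w + w := by exact_mod_cast e1
  have e3 : (1 : ℝ) ≤ ((n / w : ℕ) : ℝ) := by exact_mod_cast hq
  have hw' : (0 : ℝ) < w := by exact_mod_cast hw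
  rw [div_le_iff₀ (by positivity)]
  nlinarith

/-- a graph in the class with many edges needs extremal graphs at the scale of its clique-width -/
theorem Good.scale (h : Good t P ex) (ht : 1 ≤ t) {n w : ℕ} (hw : 2 ≤ w) (hwn : w ≤ n)
    (G : SimpleGraph (Fin n)) (hG : P n G) (hcw : CliqueWidthLe G w) :
    (w : ℝ) * Nat.card G.edgeSet ≤ 78 * t ^ 2 * (n * ex w) := by
  have h1 := h.upper ht hw hwn G hG hcw
  have h2 : (Nat.card G.edgeSet : ℝ) ≤ 78 * t ^ 2 * (((n / w : ℕ) : ℝ) * ex w) := by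
    exact_mod_cast h1
  have h3 := div_real_le n w
  have hw' : (0 : ℝ) < w := by exact_mod_cast (by omega : 0 < w)
  calc (w : ℝ) * Nat.card G.edgeSet ≤ w * (78 * t ^ 2 * (((n : ℝ) / w) * ex w)) := by
        apply mul_le_mul_of_nonneg_left _ hw'.le
        refine h2.trans ?_
        gcongr
    _ = _ := by field_simp

/-- comparison of close orders -/
theorem Good.double (h : Good t P ex) (ht : 1 ≤ t) {m w : ℕ} (hw : 2 ≤ w) (hwm : w ≤ m)
    (hm : m ≤ 2 * w) : ex m ≤ 36 * t ^ 2 * ex w := by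
  obtain ⟨G, hG, he⟩ := h.attained m
  have h1 := h.bag_le hw hwm G hG univ (by
    rw [card_univ, Fintype.card_fin]
    calc m ≤ 2 * w := hm
      _ = 2 * (1 * w) := by ring
      _ ≤ 2 * (t * w) := by gcongr)
  rw [prs_univ, he] at h1
  omega

/-- **Lower orders of magnitude** are the same at all scales of the clique-width. -/
theorem Good.lower_iff (h : Good t P ex) (ht : 1 ≤ t) {a γ : ℝ} (ha : 1 ≤ a) (h0 : 0 < γ)
    (h1 : γ ≤ 1) :
    (∃ c : ℝ, 0 < c ∧ ∀ᶠ n : ℕ in atTop, c * (n : ℝ) ^ a ≤ ex n) ↔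
      (∃ c : ℝ, 0 < c ∧ ∀ᶠ n : ℕ in atTop, ∃ G : SimpleGraph (Fin n), P n G ∧
        CliqueWidthLe G ⌈(n : ℝ) ^ γ⌉₊ ∧ c * (n : ℝ) ^ (1 + γ * (a - 1)) ≤ Nat.card G.edgeSet) := by
  constructor
  · rintro ⟨c, hc, hev⟩
    rw [eventually_atTop] at hev
    obtain ⟨N, hN⟩ := hev
    refine ⟨c / 2, by positivity, ?_⟩
    have hlim : Tendsto (fun n : ℕ => (n : ℝ) ^ γ) atTop atTop :=
      (tendsto_rpow_atTop h0).comp tendsto_natCast_atTop_atTop
    filter_upwards [eventually_ge_atTop 2, hlim.eventually_ge_atTop (N : ℝ)] with n hn hnN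
    obtain ⟨f1, f2, f3, f4⟩ := width_facts h0 h1 hn
    obtain ⟨G, hG, hcw, hE⟩ := h.lower (n := n) (w := ⌈(n : ℝ) ^ γ⌉₊) (by omega) (by omega)
    refine ⟨G, hG, hcw, ?_⟩
    set w := ⌈(n : ℝ) ^ γ⌉₊ with hw
    have hNw : N ≤ w := by
      have : (N : ℝ) ≤ w := hnN.trans f3
      exact_mod_cast this
    have h3 := hN w hNw
    have hw0 : (0 : ℝ) < w := by exact_mod_cast (by omega : 0 < w)
    have hn0 : (0 : ℝ) < n := by exact_mod_cast (by omega : 0 < n)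
    have h4 := half_div (n := n) (w := w) (by omega) f2
    have h5 : (((n / w : ℕ) : ℝ)) * ex w ≤ Nat.card G.edgeSet := by exact_mod_cast hE
    have h6 : (n : ℝ) ^ (1 + γ * (a - 1)) = n * ((n : ℝ) ^ γ) ^ (a - 1) := by
      rw [Real.rpow_add hn0, Real.rpow_one, Real.rpow_mul hn0.le]
    have h7 : ((n : ℝ) ^ γ) ^ (a - 1) ≤ (w : ℝ) ^ (a - 1) :=
      Real.rpow_le_rpow (by positivity) f3 (by linarith)
    have h8 : (w : ℝ) ^ a = w * (w : ℝ) ^ (a - 1) := by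
      rw [show a = 1 + (a - 1) by ring, Real.rpow_add hw0, Real.rpow_one]
      simp
    calc c / 2 * (n : ℝ) ^ (1 + γ * (a - 1)) = c / 2 * (n * ((n : ℝ) ^ γ) ^ (a - 1)) := by rw [h6]
      _ ≤ c / 2 * (n * (w : ℝ) ^ (a - 1)) := by gcongr
      _ = (n : ℝ) / (2 * w) * (c * (w : ℝ) ^ a) := by
          rw [h8]; field_simp
      _ ≤ ((n / w : ℕ) : ℝ) * ex w := by
          apply mul_le_mul h4 h3 (by positivity) (by positivity)
      _ ≤ _ := h5
  · rintro ⟨c, hc, hev⟩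
    rw [eventually_atTop] at hev
    obtain ⟨N, hN⟩ := hev
    refine ⟨c / (78 * t ^ 2) / 2 ^ a, by positivity, ?_⟩
    filter_upwards [eventually_ge_atTop (max N 4)] with m hm
    have hm4 : 4 ≤ m := (le_max_right _ _).trans hm
    have hmN : N ≤ m := (le_max_left _ _).trans hm
    obtain ⟨g1, g2, g3⟩ := inv_facts h0 h1 (m := m) (by omega)
    set n := ⌊(m : ℝ) ^ (1 / γ)⌋₊ with hn
    obtain ⟨f1, f2, f3, f4⟩ := width_facts h0 h1 (n := n) (by omega)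
    obtain ⟨G, hG, hcw, hE⟩ := hN n (by omega)
    set w := ⌈(n : ℝ) ^ γ⌉₊ with hw
    have hwm : w ≤ m := by
      rw [hw, Nat.ceil_le]; exact g2
    have h3 := h.scale ht f1 f2 G hG hcw
    have hw0 : (0 : ℝ) < w := by exact_mod_cast (by omega : 0 < w)
    have hn0 : (0 : ℝ) < n := by exact_mod_cast (by omega : 0 < n)
    have hm0 : (0 : ℝ) < m := by exact_mod_cast (by omega : 0 < m)
    have ht0 : (0 : ℝ) < t := by exact_mod_cast ht
    have h6 : (n : ℝ) ^ (1 + γ * (a - 1)) = n * ((n : ℝ) ^ γ) ^ (a - 1) := by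
      rw [Real.rpow_add hn0, Real.rpow_one, Real.rpow_mul hn0.le]
    have h7 : ((m : ℝ) / 2) ^ (a - 1) ≤ ((n : ℝ) ^ γ) ^ (a - 1) :=
      Real.rpow_le_rpow (by positivity) g3 (by linarith)
    have h8 : ((m : ℝ) / 2) ^ a = m / 2 * ((m : ℝ) / 2) ^ (a - 1) := by
      have hm2 : (0 : ℝ) < (m : ℝ) / 2 := by positivity
      rw [show a = 1 + (a - 1) by ring, Real.rpow_add hm2, Real.rpow_one]
      simp
    have h9 : (ex w : ℝ) ≤ ex m := by exact_mod_cast h.ex_mono hwm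
    have h10 : (m : ℝ) / 2 ≤ w := g3.trans f3
    have h11 : n * (c * (m / 2 * ((m : ℝ) / 2) ^ (a - 1))) ≤ n * (78 * t ^ 2 * ex w) := by
      calc n * (c * (m / 2 * ((m : ℝ) / 2) ^ (a - 1)))
          ≤ n * (c * (w * ((n : ℝ) ^ γ) ^ (a - 1))) := by gcongr
        _ = w * (c * (n * ((n : ℝ) ^ γ) ^ (a - 1))) := by ring
        _ ≤ w * Nat.card G.edgeSet := by
            rw [← h6]
            gcongr
        _ ≤ 78 * t ^ 2 * (n * ex w) := h3
        _ = _ := by ring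
    have h12 := le_of_mul_le_mul_left h11 hn0
    have h13 : ((m : ℝ)) ^ a = ((m : ℝ) / 2) ^ a * 2 ^ a := by
      rw [← Real.mul_rpow (by positivity) (by norm_num)]
      congr 1
      ring
    rw [h13, h8]
    have hY : (0 : ℝ) < (2 : ℝ) ^ a := by positivity
    generalize (m : ℝ) / 2 * ((m : ℝ) / 2) ^ (a - 1) = X at h12 ⊢
    generalize (2 : ℝ) ^ a = Y at hY ⊢
    have h14 : c / (78 * t ^ 2) / Y * (X * Y) = (c * X) / (78 * t ^ 2) := by
      field_simp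
    rw [h14, div_le_iff₀ (by positivity)]
    calc c * X ≤ 78 * t ^ 2 * (ex w : ℝ) := h12
      _ ≤ 78 * t ^ 2 * (ex m : ℝ) := by gcongr
      _ = _ := by ring

/-- **Upper orders of magnitude** are the same at all scales of the clique-width. -/
theorem Good.upper_iff (h : Good t P ex) (ht : 1 ≤ t) {a γ : ℝ} (ha : 1 ≤ a) (h0 : 0 < γ)
    (h1 : γ ≤ 1) :
    (∃ C : ℝ, ∀ n : ℕ, 1 ≤ n → (ex n : ℝ) ≤ C * (n : ℝ) ^ a) ↔
      (∃ C : ℝ, ∀ n : ℕ, 1 ≤ n → ∀ G : SimpleGraph (Fin n), P n G →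
        CliqueWidthLe G ⌈(n : ℝ) ^ γ⌉₊ →
        (Nat.card G.edgeSet : ℝ) ≤ C * (n : ℝ) ^ (1 + γ * (a - 1))) := by
  constructor
  · rintro ⟨C, hC⟩
    have hC0 : 0 ≤ C := by
      have := hC 1 le_rfl
      simp only [Nat.cast_one, Real.one_rpow, mul_one] at this
      exact le_trans (Nat.cast_nonneg _) this
    refine ⟨78 * t ^ 2 * C * 2 ^ (a - 1), ?_⟩
    intro n hn G hG hcw
    rcases Nat.lt_or_ge n 2 with hn2 | hn2
    · have hn1 : n = 1 := by omega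
      subst hn1
      have : Nat.card G.edgeSet = 0 := by
        have : IsEmpty G.edgeSet := by
          constructor
          rintro ⟨e, he⟩
          induction e with
          | _ x y =>
            have := G.ne_of_adj he
            exact this (Subsingleton.elim x y)
        exact Nat.card_of_isEmpty
      rw [this]
      simp only [Nat.cast_zero, Nat.cast_one, Real.one_rpow, mul_one]
      positivity
    · obtain ⟨f1, f2, f3, f4⟩ := width_facts h0 h1 hn2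
      set w := ⌈(n : ℝ) ^ γ⌉₊ with hw
      have h3 := h.scale ht f1 f2 G hG hcw
      have hw0 : (0 : ℝ) < w := by exact_mod_cast (by omega : 0 < w)
      have hn0 : (0 : ℝ) < n := by exact_mod_cast (by omega : 0 < n)
      have h4 := hC w (by omega)
      have h8 : (w : ℝ) ^ a = w * (w : ℝ) ^ (a - 1) := by
        rw [show a = 1 + (a - 1) by ring, Real.rpow_add hw0, Real.rpow_one]
        simp
      have h6 : (n : ℝ) ^ (1 + γ * (a - 1)) = n * ((n : ℝ) ^ γ) ^ (a - 1) := by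
        rw [Real.rpow_add hn0, Real.rpow_one, Real.rpow_mul hn0.le]
      have h7 : (w : ℝ) ^ (a - 1) ≤ 2 ^ (a - 1) * ((n : ℝ) ^ γ) ^ (a - 1) := by
        rw [← Real.mul_rpow (by norm_num) (by positivity)]
        exact Real.rpow_le_rpow (by positivity) f4 (by linarith)
      have h9 : (w : ℝ) * Nat.card G.edgeSet ≤
          w * (78 * t ^ 2 * C * 2 ^ (a - 1) * (n : ℝ) ^ (1 + γ * (a - 1))) := by
        calc (w : ℝ) * Nat.card G.edgeSet ≤ 78 * t ^ 2 * (n * ex w) := h3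
          _ ≤ 78 * t ^ 2 * (n * (C * (w * (w : ℝ) ^ (a - 1)))) := by
              rw [← h8]; gcongr
          _ ≤ 78 * t ^ 2 * (n * (C * (w * (2 ^ (a - 1) * ((n : ℝ) ^ γ) ^ (a - 1))))) := by
              gcongr
          _ = _ := by rw [h6]; ring
      exact le_of_mul_le_mul_left h9 hw0
  · rintro ⟨C, hC⟩
    have hC0 : 0 ≤ C := by
      obtain ⟨G, hG, hcw, hE⟩ := h.lower (n := 1) (w := 1) le_rfl le_rfl
      have := hC 1 le_rfl G hG (by simpa using hcw)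
      simp only [Nat.cast_one, Real.one_rpow, mul_one] at this
      exact le_trans (Nat.cast_nonneg _) this
    refine ⟨36 * t ^ 2 * (2 * C) + ex 1 + ex 2 + ex 3, ?_⟩
    intro m hm
    have hm0 : (0 : ℝ) < m := by exact_mod_cast (by omega : 0 < m)
    have hpow1 : (1 : ℝ) ≤ (m : ℝ) ^ a := Real.one_le_rpow (by exact_mod_cast hm) (by linarith)
    rcases Nat.lt_or_ge m 4 with hm4 | hm4
    · have h5 : (ex m : ℝ) ≤ ex 1 + ex 2 + ex 3 := by
        have : m = 1 ∨ m = 2 ∨ m = 3 := by omega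
        have e1 : (0 : ℝ) ≤ ex 1 := Nat.cast_nonneg _
        have e2 : (0 : ℝ) ≤ ex 2 := Nat.cast_nonneg _
        have e3 : (0 : ℝ) ≤ ex 3 := Nat.cast_nonneg _
        rcases this with rfl | rfl | rfl <;> linarith
      have h6 : (0 : ℝ) ≤ 36 * t ^ 2 * (2 * C) := by positivity
      have e1 : (0 : ℝ) ≤ ex 1 := Nat.cast_nonneg _
      have e2 : (0 : ℝ) ≤ ex 2 := Nat.cast_nonneg _
      have e3 : (0 : ℝ) ≤ ex 3 := Nat.cast_nonneg _
      nlinarith
    · obtain ⟨g1, g2, g3⟩ := inv_facts h0 h1 (m := m) (by omega)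
      set n := ⌊(m : ℝ) ^ (1 / γ)⌋₊ with hn
      obtain ⟨f1, f2, f3, f4⟩ := width_facts h0 h1 (n := n) (by omega)
      obtain ⟨G, hG, hcw, hE⟩ := h.lower (n := n) (w := ⌈(n : ℝ) ^ γ⌉₊) (by omega) (by omega)
      have hE' := hC n (by omega) G hG hcw
      set w := ⌈(n : ℝ) ^ γ⌉₊ with hw
      have hwm : w ≤ m := by
        rw [hw, Nat.ceil_le]; exact g2
      have hw0 : (0 : ℝ) < w := by exact_mod_cast (by omega : 0 < w)
      have hn0 : (0 : ℝ) < n := by exact_mod_cast (by omega : 0 < n)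
      have h10 : (m : ℝ) / 2 ≤ w := g3.trans f3
      have hm2w : m ≤ 2 * w := by
        have : (m : ℝ) ≤ 2 * w := by linarith
        exact_mod_cast this
      have h5 := h.double ht f1 hwm hm2w
      have h5' : (ex m : ℝ) ≤ 36 * t ^ 2 * ex w := by exact_mod_cast h5
      have h4 := half_div (n := n) (w := w) (by omega) f2
      have h6 : (n : ℝ) ^ (1 + γ * (a - 1)) = n * ((n : ℝ) ^ γ) ^ (a - 1) := by
        rw [Real.rpow_add hn0, Real.rpow_one, Real.rpow_mul hn0.le]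
      have h7 : ((n : ℝ) ^ γ) ^ (a - 1) ≤ (m : ℝ) ^ (a - 1) :=
        Real.rpow_le_rpow (by positivity) g2 (by linarith)
      have h8 : (m : ℝ) ^ a = m * (m : ℝ) ^ (a - 1) := by
        rw [show a = 1 + (a - 1) by ring, Real.rpow_add hm0, Real.rpow_one]
        simp
      have h9 : (n : ℝ) / (2 * w) * ex w ≤ C * (n * (m : ℝ) ^ (a - 1)) := by
        calc (n : ℝ) / (2 * w) * ex w ≤ ((n / w : ℕ) : ℝ) * ex w := by gcongr
          _ ≤ Nat.card G.edgeSet := by exact_mod_cast hE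
          _ ≤ _ := hE'
          _ = C * (n * ((n : ℝ) ^ γ) ^ (a - 1)) := by rw [h6]
          _ ≤ _ := by gcongr
      have h11 : (ex w : ℝ) ≤ 2 * C * (m : ℝ) ^ a := by
        have e1 : (n : ℝ) * ex w ≤ n * (2 * w * (C * (m : ℝ) ^ (a - 1))) := by
          calc (n : ℝ) * ex w = 2 * w * ((n : ℝ) / (2 * w) * ex w) := by field_simp
            _ ≤ 2 * w * (C * (n * (m : ℝ) ^ (a - 1))) := by gcongr
            _ = _ := by ring
        have e2 := le_of_mul_le_mul_left e1 hn0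
        calc (ex w : ℝ) ≤ 2 * w * (C * (m : ℝ) ^ (a - 1)) := e2
          _ ≤ 2 * m * (C * (m : ℝ) ^ (a - 1)) := by
              have : (w : ℝ) ≤ m := by exact_mod_cast hwm
              gcongr
          _ = _ := by rw [h8]; ring
      calc (ex m : ℝ) ≤ 36 * t ^ 2 * ex w := h5'
        _ ≤ 36 * t ^ 2 * (2 * C * (m : ℝ) ^ a) := by gcongr
        _ = 36 * t ^ 2 * (2 * C) * (m : ℝ) ^ a := by ring
        _ ≤ _ := by
            have e1 : (0 : ℝ) ≤ ex 1 := Nat.cast_nonneg _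
            have e2 : (0 : ℝ) ≤ ex 2 := Nat.cast_nonneg _
            have e3 : (0 : ℝ) ≤ ex 3 := Nat.cast_nonneg _
            have e4 : (0 : ℝ) ≤ (m : ℝ) ^ a := by positivity
            nlinarith [mul_nonneg e1 e4, mul_nonneg e2 e4, mul_nonneg e3 e4]

end Pool.Agent.X82.CW
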