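import Pool.Agent.X82.CW5

/-!
# Instances: forbidden connected bipartite graphs, and families of connected graphs
-/

set_option autoImplicit false

open Finset SimpleGraph Filter

namespace Pool.Agent.X82.CW

/-- complete bipartite subgraphs from adjacent sets -/
lemma kbip_contained {n t : ℕ} {G : SimpleGraph (Fin n)} {X Y : Finset (Fin n)}
    (hX : t ≤ X.card) (hY : t ≤ Y.card) (h : ∀ x ∈ X, ∀ y ∈ Y, G.Adj x y) :
    completeBipartiteGraph (Fin t) (Fin t) ⊑ G := by
  obtain ⟨X', hX', hXc⟩ := Finset.exists_subset_card_eq hX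
  obtain ⟨Y', hY', hYc⟩ := Finset.exists_subset_card_eq hY
  let f := X'.orderEmbOfFin hXc
  let g := Y'.orderEmbOfFin hYc
  have hf : ∀ i, f i ∈ X := fun i => hX' (Finset.orderEmbOfFin_mem _ _ _)
  have hg : ∀ i, g i ∈ Y := fun i => hY' (Finset.orderEmbOfFin_mem _ _ _)
  refine ⟨⟨⟨Sum.elim f g, ?_⟩, ?_⟩⟩
  · rintro (a | a) (b | b) hab
    · simp at hab
    · exact h _ (hf a) _ (hg b)
    · exact (h _ (hf b) _ (hg a)).symm
    · simp at hab
  · rintro (a | a) (b | b) hab
    · exact congrArg Sum.inl (f.injective hab)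
    · have hab' : f a = g b := hab
      exact absurd (h _ (hf a) _ (hg b)) (by rw [hab']; exact G.irrefl)
    · have hab' : g a = f b := hab
      exact absurd (h _ (hf b) _ (hg a)) (by rw [hab']; exact G.irrefl)
    · exact congrArg Sum.inr (g.injective hab)

/-- families of connected graphs -/
lemma good_family {ι : Type} {U : ι → Type} (F : (i : ι) → SimpleGraph (U i)) {t : ℕ}
    {ex : ℕ → ℕ} (hc : ∀ i, (F i).Connected) (he : ∀ i, (F i).Free (⊤ : SimpleGraph (Fin 2)))
    (hb : ∃ i, F i ⊑ completeBipartiteGraph (Fin t) (Fin t))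
    (hle : ∀ (n : ℕ) (G : SimpleGraph (Fin n)), (∀ i, (F i).Free G) → Nat.card G.edgeSet ≤ ex n)
    (hat : ∀ n : ℕ, ∃ G : SimpleGraph (Fin n), (∀ i, (F i).Free G) ∧ Nat.card G.edgeSet = ex n) :
    Good t (fun n G => ∀ i, (F i).Free G) ex where
  mono := fun m n G' G hGG hG i hcon => hG i (hcon.trans hGG)
  blk := fun n w hw G0 hG0 i => blk_free hw G0 (F i) (hc i) (hG0 i)
  edge := he
  noK := fun n G hG X Y hX hY h => by
    obtain ⟨i, hi⟩ := hb
    exact hG i (hi.trans (kbip_contained hX hY h))
  le := hle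
  attained := hat

lemma good_single {U : Type} (F : SimpleGraph U) {t : ℕ} (hc : F.Connected)
    (he : F.Free (⊤ : SimpleGraph (Fin 2))) (hb : F ⊑ completeBipartiteGraph (Fin t) (Fin t)) :
    Good t (fun n G => F.Free G) (fun n => extremalNumber n F) where
  mono := fun m n G' G hGG hG hcon => hG (hcon.trans hGG)
  blk := fun n w hw G0 hG0 => blk_free hw G0 F hc hG0
  edge := he
  noK := fun n G hG X Y hX hY h => hG (hb.trans (kbip_contained hX hY h))
  le := fun n G hG => by
    classical
    have := card_edgeFinset_le_extremalNumber (G := G) hG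
    rw [Fintype.card_fin] at this
    rw [Nat.card_eq_fintype_card, ← edgeFinset_card]
    exact this
  attained := fun n => by
    classical
    have hne : F ≠ ⊥ := by
      rintro rfl
      apply he
      -- a connected edgeless graph has one vertex
      have hs : Subsingleton U := by
        constructor
        intro a b
        by_contra hab
        obtain ⟨p⟩ := hc.preconnected a b
        cases p with
        | nil => exact hab rfl
        | cons h _ => exact h
      exact ⟨⟨⟨fun _ => 0, fun {a b} h => h.elim⟩, fun a b _ => Subsingleton.elim a b⟩⟩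
    obtain ⟨G, _, hG⟩ := exists_isExtremal_free (V := Fin n) hne
    refine ⟨G, hG.1, ?_⟩
    have h1 := card_edgeFinset_of_isExtremal_free hG
    rw [Fintype.card_fin] at h1
    rw [Nat.card_eq_fintype_card, ← h1]
    convert (edgeFinset_card (G := G)).symm

/-- The extremal function of a property. -/
noncomputable def exOf (P : (n : ℕ) → SimpleGraph (Fin n) → Prop) (n : ℕ) : ℕ :=
  sSup {e : ℕ | ∃ G : SimpleGraph (Fin n), P n G ∧ Nat.card G.edgeSet = e}

lemma exOf_bdd (P : (n : ℕ) → SimpleGraph (Fin n) → Prop) (n : ℕ) :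
    BddAbove {e : ℕ | ∃ G : SimpleGraph (Fin n), P n G ∧ Nat.card G.edgeSet = e} := by
  classical
  refine ⟨Fintype.card (Sym2 (Fin n)), ?_⟩
  rintro e ⟨G, -, rfl⟩
  rw [Nat.card_eq_fintype_card]
  exact Fintype.card_subtype_le _

lemma le_exOf (P : (n : ℕ) → SimpleGraph (Fin n) → Prop) {n : ℕ} {G : SimpleGraph (Fin n)}
    (hG : P n G) : Nat.card G.edgeSet ≤ exOf P n := le_csSup (exOf_bdd P n) ⟨G, hG, rfl⟩

lemma exOf_attained (P : (n : ℕ) → SimpleGraph (Fin n) → Prop) {n : ℕ} (hP : ∃ G, P n G) :
    ∃ G, P n G ∧ Nat.card G.edgeSet = exOf P n := by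
  obtain ⟨G, hG⟩ := hP
  exact Nat.sSup_mem (s := {e : ℕ | ∃ G : SimpleGraph (Fin n), P n G ∧ Nat.card G.edgeSet = e})
    ⟨_, G, hG, rfl⟩ (exOf_bdd P n)

/-- even cycles are contained in complete bipartite graphs -/
lemma cycle_bip {k : ℕ} (hk : 1 ≤ k) :
    cycleGraph (2 * k) ⊑ completeBipartiteGraph (Fin k) (Fin k) := by
  let f : Fin (2 * k) → Fin k ⊕ Fin k := fun v =>
    if v.val % 2 = 0 then Sum.inl ⟨v.val / 2, by omega⟩ else Sum.inr ⟨v.val / 2, by omega⟩
  have hpar : ∀ u v : Fin (2 * k), (u - v).val = 1 → u.val % 2 ≠ v.val % 2 := by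
    intro u v h
    rw [Fin.sub_def] at h
    simp only at h
    have hu := u.isLt
    have hv := v.isLt
    have h1 : (2 * k - v.val + u.val) % (2 * k) = 1 := h
    have h2 := Nat.div_add_mod (2 * k - v.val + u.val) (2 * k)
    rw [h1] at h2
    have h3 : (2 * k) * ((2 * k - v.val + u.val) / (2 * k)) =
        2 * (k * ((2 * k - v.val + u.val) / (2 * k))) := by ring
    rw [h3] at h2
    omega
  refine ⟨⟨⟨f, ?_⟩, ?_⟩⟩
  · intro u v huv
    rw [cycleGraph_adj'] at huv
    have hp : u.val % 2 ≠ v.val % 2 := by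
      rcases huv with h | h
      · exact hpar u v h
      · exact (hpar v u h).symm
    simp only [f]
    by_cases hu : u.val % 2 = 0
    · have hv : ¬ v.val % 2 = 0 := by omega
      simp [hu, hv]
    · have hv : v.val % 2 = 0 := by omega
      simp [hu, hv]
  · intro u v huv
    have huv' : f u = f v := huv
    simp only [f] at huv'
    apply Fin.ext
    by_cases hu : u.val % 2 = 0
    · by_cases hv : v.val % 2 = 0
      · simp only [hu, hv, if_true, Sum.inl.injEq, Fin.mk.injEq] at huv'
        omega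
      · simp [hu, hv] at huv'
    · by_cases hv : v.val % 2 = 0
      · simp [hu, hv] at huv'
      · simp only [hu, hv, if_false, Sum.inr.injEq, Fin.mk.injEq] at huv'
        omega

lemma free_of_card {U : Type} [Fintype U] (F : SimpleGraph U) (h : 3 ≤ Fintype.card U) :
    F.Free (⊤ : SimpleGraph (Fin 2)) := by
  rintro ⟨f⟩
  have := Fintype.card_le_of_injective _ f.injective
  rw [Fintype.card_fin] at this
  omega

end Pool.Agent.X82.CW
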