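import Pool.Agent.X82.CW6

/-!
# Dense graphs have linear clique-width
-/

set_option autoImplicit false

open Finset SimpleGraph Filter

namespace Pool.Agent.X82.CW

variable {t : ℕ} {P : (n : ℕ) → SimpleGraph (Fin n) → Prop} {ex : ℕ → ℕ}

lemma builds_one {V : Type} [DecidableEq V] {w : ℕ} {S : Finset V} {l : V → Fin w}
    {A : V → V → Prop} (hw : w ≤ 1) (h : Builds w S l A) : ∀ x y, ¬ A x y := by
  induction h with
  | vertex v l => intro x y h; exact h
  | union _ _ _ ih1 ih2 =>
    rintro x y (h | h)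
    · exact ih1 x y h
    · exact ih2 x y h
  | relabel i j _ ih => exact ih
  | join i j hij _ ih =>
    exfalso
    apply hij
    apply Fin.ext
    omega

lemma cw_one {V : Type} [Fintype V] [DecidableEq V] {G : SimpleGraph V} {w : ℕ} (hw : w ≤ 1)
    (h : CliqueWidthLe G w) : Nat.card G.edgeSet = 0 := by
  obtain ⟨l, hl⟩ := h
  have : IsEmpty G.edgeSet := by
    constructor
    rintro ⟨e, he⟩
    induction e with
    | _ x y => exact builds_one hw hl x y he
  exact Nat.card_of_isEmpty

/-- upper bound in terms of the width -/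
theorem Good.upper_pow (h : Good t P ex) (ht : 1 ≤ t) {a C : ℝ} (ha : 1 ≤ a)
    (hC : ∀ n : ℕ, 1 ≤ n → (ex n : ℝ) ≤ C * (n : ℝ) ^ a) {n w : ℕ}
    (G : SimpleGraph (Fin n)) (hG : P n G) (hcw : CliqueWidthLe G w) (hw1 : 1 ≤ w) :
    (Nat.card G.edgeSet : ℝ) ≤ 78 * t ^ 2 * C * (n * (w : ℝ) ^ (a - 1)) := by
  have hC0 : 0 ≤ C := by
    have := hC 1 le_rfl
    simp only [Nat.cast_one, Real.one_rpow, mul_one] at this
    exact le_trans (Nat.cast_nonneg _) this
  have hw0 : (0 : ℝ) < w := by exact_mod_cast (by omega : 0 < w)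
  rcases Nat.lt_or_ge w 2 with hw2 | hw2
  · rw [cw_one (by omega) hcw, Nat.cast_zero]
    positivity
  · have hmain : ∀ v : ℕ, 2 ≤ v → v ≤ n → CliqueWidthLe G v ∨ v = n → v ≤ w →
        (Nat.card G.edgeSet : ℝ) ≤ 78 * t ^ 2 * C * (n * (w : ℝ) ^ (a - 1)) := by
      intro v hv hvn hcv hvw
      have hv0 : (0 : ℝ) < v := by exact_mod_cast (by omega : 0 < v)
      have h8 : (v : ℝ) ^ a = v * (v : ℝ) ^ (a - 1) := by
        rw [show a = 1 + (a - 1) by ring, Real.rpow_add hv0, Real.rpow_one]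
        simp
      have h3 : (v : ℝ) * Nat.card G.edgeSet ≤ 78 * t ^ 2 * (n * ex v) := by
        rcases hcv with hcv | hcv
        · exact h.scale ht hv hvn G hG hcv
        · subst hcv
          have h1 : (Nat.card G.edgeSet : ℝ) ≤ ex v := by exact_mod_cast h.le v G hG
          have h2 : (1 : ℝ) ≤ 78 * t ^ 2 := by
            have : (1 : ℝ) ≤ t := by exact_mod_cast ht
            nlinarith
          have h4 : (0 : ℝ) ≤ v * ex v := by positivity
          calc (v : ℝ) * Nat.card G.edgeSet ≤ v * ex v := by gcongr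
            _ = 1 * (v * ex v) := (one_mul _).symm
            _ ≤ _ := mul_le_mul_of_nonneg_right h2 h4
      have h5 : (v : ℝ) * Nat.card G.edgeSet ≤ v * (78 * t ^ 2 * C * (n * (v : ℝ) ^ (a - 1))) := by
        calc (v : ℝ) * Nat.card G.edgeSet ≤ 78 * t ^ 2 * (n * ex v) := h3
          _ ≤ 78 * t ^ 2 * (n * (C * (v * (v : ℝ) ^ (a - 1)))) := by
              have := hC v (by omega)
              rw [h8] at this
              gcongr
          _ = _ := by ring
      have h6 := le_of_mul_le_mul_left h5 hv0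
      refine h6.trans ?_
      have hvw' : (v : ℝ) ≤ w := by exact_mod_cast hvw
      have h7 : (v : ℝ) ^ (a - 1) ≤ (w : ℝ) ^ (a - 1) :=
        Real.rpow_le_rpow hv0.le hvw' (by linarith)
      gcongr
    rcases Nat.le_total w n with hwn | hwn
    · exact hmain w hw2 hwn (Or.inl hcw) le_rfl
    · rcases Nat.lt_or_ge n 2 with hn2 | hn2
      · have : Nat.card G.edgeSet = 0 := by
          have : IsEmpty G.edgeSet := by
            constructor
            rintro ⟨e, he⟩
            induction e with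
            | _ x y =>
              apply G.ne_of_adj he
              apply Fin.ext
              omega
          exact Nat.card_of_isEmpty
        rw [this, Nat.cast_zero]
        positivity
      · exact hmain n hn2 le_rfl (Or.inr rfl) hwn

/-- dense members of the class have linear clique-width -/
theorem Good.linear (h : Good t P ex) (ht : 1 ≤ t) {a C ε : ℝ} (ha : 1 < a) (hC1 : 0 < C)
    (hC : ∀ n : ℕ, 1 ≤ n → (ex n : ℝ) ≤ C * (n : ℝ) ^ a) (hε : 0 < ε) {n w : ℕ}
    (G : SimpleGraph (Fin n)) (hG : P n G) (hE : ε * (n : ℝ) ^ a ≤ Nat.card G.edgeSet)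
    (hcw : CliqueWidthLe G w) :
    (ε / (78 * t ^ 2 * C)) ^ (1 / (a - 1)) * n ≤ w := by
  have ht0 : (0 : ℝ) < t := by exact_mod_cast ht
  have ha1 : 0 < a - 1 := by linarith
  rcases Nat.eq_zero_or_pos n with rfl | hn
  · simp
  have hn0 : (0 : ℝ) < n := by exact_mod_cast hn
  rcases Nat.eq_zero_or_pos w with rfl | hw
  · have h1 := cw_one (by omega) hcw
    rw [h1] at hE
    have : 0 < ε * (n : ℝ) ^ a := by positivity
    simp only [Nat.cast_zero] at hE
    linarith
  have hw0 : (0 : ℝ) < w := by exact_mod_cast hw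
  have h1 := h.upper_pow ht ha.le hC G hG hcw hw
  have h8 : (n : ℝ) ^ a = n * (n : ℝ) ^ (a - 1) := by
    rw [show a = 1 + (a - 1) by ring, Real.rpow_add hn0, Real.rpow_one]
    simp
  have h2 : n * (ε * (n : ℝ) ^ (a - 1)) ≤ n * (78 * t ^ 2 * C * (w : ℝ) ^ (a - 1)) := by
    calc n * (ε * (n : ℝ) ^ (a - 1)) = ε * (n : ℝ) ^ a := by rw [h8]; ring
      _ ≤ _ := hE
      _ ≤ _ := h1
      _ = _ := by ring
  have h3 := le_of_mul_le_mul_left h2 hn0
  have h4 : ε / (78 * t ^ 2 * C) * (n : ℝ) ^ (a - 1) ≤ (w : ℝ) ^ (a - 1) := by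
    rw [div_mul_eq_mul_div, div_le_iff₀ (by positivity)]
    linarith
  have h5 := Real.rpow_le_rpow (by positivity) h4 (by positivity : 0 ≤ 1 / (a - 1))
  rw [Real.mul_rpow (by positivity) (by positivity), ← Real.rpow_mul hn0.le,
    ← Real.rpow_mul hw0.le, mul_one_div_cancel ha1.ne', Real.rpow_one, Real.rpow_one] at h5
  exact h5

end Pool.Agent.X82.CW
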