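import Pool.Agent.X82.PC2

/-!
Finite automata for the coincidences of compositions of substitutions (MP_e732b0_an). Part 1: the
relation on the finite set of overlapping pairs of edges given by a substitution.
-/

set_option autoImplicit false

namespace Pool.Agent.X82.FC
open Pool.Agent.H812R2.PI Pool.Agent.TH100.Pisot Pool.Agent.X82.PC
open scoped BigOperators

variable {d : ℕ} {M : Matrix (Fin d) (Fin d) ℤ}

/-- overlapping pairs of edges with distance at most `D` in the stable direction -/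
def Om (P : PD M) (D : ℝ) : Set (Fin d × Fin d × (Fin d → ℤ)) :=
  {t | P.N (rv t.2.2) ≤ D ∧ 0 < P.OV (0, t.1) (t.2.2, t.2.1)}

/-- all overlapping pairs of edges in the image of a pair in `Om P D` have distance at most `D` -/
def AP (P : PD M) (D : ℝ) (S : Fin d → List (Fin d)) : Prop :=
  ∀ t ∈ Om P D, ∀ e ∈ edges 0 (S t.1), ∀ f ∈ edges ((inc S).mulVec t.2.2) (S t.2.1),
    0 < P.OV e f → P.N (rv (f.1 - e.1)) ≤ D

/-- the pairs of overlapping pairs of edges, the second one in the image of the first -/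
def Rel (P : PD M) (D : ℝ) (S : Fin d → List (Fin d)) :
    Set ((Fin d × Fin d × (Fin d → ℤ)) × (Fin d × Fin d × (Fin d → ℤ))) :=
  {p | p.1 ∈ Om P D ∧ p.2 ∈ Om P D ∧ ∃ e ∈ edges 0 (S p.1.1),
    ∃ f ∈ edges ((inc S).mulVec p.1.2.2) (S p.1.2.1), p.2 = (e.2, f.2, f.1 - e.1)}

/-- composition of relations -/
def sc {X : Type} (A B : Set (X × X)) : Set (X × X) := {p | ∃ q, (p.1, q) ∈ A ∧ (q, p.2) ∈ B}

theorem om_finite (P : PD M) (D : ℝ) : (Om P D).Finite := pairs_finite P D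

theorem ov_nonneg (P : PD M) (e f : (Fin d → ℤ) × Fin d) : 0 ≤ P.OV e f := le_max_left _ _

theorem sum_pos_of {α : Type} (l : List α) (f : α → ℝ) (h0 : ∀ x ∈ l, 0 ≤ f x) {x : α} (hx : x ∈ l)
    (h : 0 < f x) : 0 < (l.map f).sum := by
  induction l with
  | nil => simp at hx
  | cons a l ih =>
    rw [List.map_cons, List.sum_cons]
    have h1 := h0 a (List.mem_cons_self ..)
    have h2 : 0 ≤ (l.map f).sum := by
      apply List.sum_nonneg
      intro y hy
      obtain ⟨z, hz, rfl⟩ := List.mem_map.1 hy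
      exact h0 z (List.mem_cons_of_mem _ hz)
    rcases List.mem_cons.1 hx with h3 | h3
    · subst h3; linarith
    · have := ih (fun y hy => h0 y (List.mem_cons_of_mem _ hy)) h3
      linarith

theorem ov_parent_base {A : Matrix (Fin d) (Fin d) ℤ} (P : PD A) (S : Fin d → List (Fin d))
    (hS : inc S = A) (g h e f : (Fin d → ℤ) × Fin d)
    (he : e ∈ edges ((inc S).mulVec g.1) (S g.2)) (hf : f ∈ edges ((inc S).mulVec h.1) (S h.2))
    (hef : 0 < P.OV e f) : 0 < P.OV g h := by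
  subst hS
  have hlam : 0 < P.lam := lt_trans one_pos P.lam_gt
  have hsum := sum_OV_edges P ((inc S).mulVec g.1) ((inc S).mulVec h.1) (S g.2) (S h.2)
  rw [ab_subst, ab_subst, ht_mulVec, ht_mulVec, ht_mulVec, ht_mulVec, ht_ev, ht_ev,
    ← mul_add, ← mul_add, JComp_ovl_mul _ _ _ _ _ hlam.le] at hsum
  have h1 : 0 < P.lam * P.OV g h := by
    change 0 < P.lam * ovl _ _ _ _
    rw [← hsum]
    refine sum_pos_of _ _ (fun x _ => ?_) he ?_
    · apply List.sum_nonneg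
      intro y hy
      obtain ⟨z, -, rfl⟩ := List.mem_map.1 hy
      exact ov_nonneg P _ _
    · exact sum_pos_of _ _ (fun x _ => ov_nonneg P _ _) hf hef
  exact (mul_pos_iff_of_pos_left hlam).1 h1

theorem ov_parent (P : PD M) (S : Fin d → List (Fin d)) (i : ℕ) (hi : 1 ≤ i)
    (hS : inc S = M ^ i) (g h e f : (Fin d → ℤ) × Fin d)
    (he : e ∈ edges ((inc S).mulVec g.1) (S g.2)) (hf : f ∈ edges ((inc S).mulVec h.1) (S h.2))
    (hef : 0 < P.OV e f) : 0 < P.OV g h :=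
  ov_parent_base (P.pow i hi) S hS g h e f he hf hef

theorem ap_base {A : Matrix (Fin d) (Fin d) ℤ} (P : PD A) (τ : Fin d → List (Fin d))
    (hτ : inc τ = A) (B D : ℝ) (hB : ∀ a k, P.N (rv (ab ((τ a).take k))) ≤ B) (a b : Fin d)
    (v : Fin d → ℤ) (hv : P.N (rv v) ≤ D) (e : (Fin d → ℤ) × Fin d) (he : e ∈ edges 0 (τ a))
    (f : (Fin d → ℤ) × Fin d) (hf : f ∈ edges ((inc τ).mulVec v) (τ b)) :
    P.N (rv (f.1 - e.1)) ≤ P.rho * D + 2 * B := by
  subst hτ
  obtain ⟨k, hk, rfl⟩ := mem_edges.1 he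
  obtain ⟨l, hl, rfl⟩ := mem_edges.1 hf
  simp only
  rw [zero_add, add_sub_assoc, rv_add, rv_mulVec, rv_sub]
  have h1 := P.N_add (act (inc τ) (rv v)) (rv (ab ((τ b).take l)) - rv (ab ((τ a).take k)))
  have h2 := N_sub P (rv (ab ((τ b).take l))) (rv (ab ((τ a).take k)))
  have h3 := P.N_act (rv v)
  have h4 := mul_le_mul_of_nonneg_left hv P.rho_nonneg
  have h5 := hB a k
  have h6 := hB b l
  linarith

theorem ap_fac (P : PD M) (B D : ℝ) (hD0 : 0 ≤ D) (hD : 2 * B ≤ (1 - P.rho) * D)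
    (τ : Fin d → List (Fin d)) (hτ : Fac P B τ) : AP P D τ := by
  obtain ⟨⟨i, hi, h1⟩, h2⟩ := hτ
  intro t ht e he f hf _
  have h3 := ap_base (P.pow i hi) τ h1 B D h2 t.1 t.2.1 t.2.2 ht.1 e he f hf
  have h5 : P.rho ^ i * D ≤ P.rho * D := mul_le_mul_of_nonneg_right (rho_pow_le P hi) hD0
  change P.N (rv (f.1 - e.1)) ≤ P.rho ^ i * D + 2 * B at h3
  linarith

/-- the edges of a composition and their parents -/
theorem parents (S T : Fin d → List (Fin d)) (a b : Fin d) (v : Fin d → ℤ)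
    (e f : (Fin d → ℤ) × Fin d) (he : e ∈ edges 0 (comp S T a))
    (hf : f ∈ edges ((inc (comp S T)).mulVec v) (comp S T b)) :
    ∃ g ∈ edges 0 (T a), ∃ h ∈ edges ((inc T).mulVec v) (T b),
      e ∈ edges ((inc S).mulVec g.1) (S g.2) ∧ f ∈ edges ((inc S).mulVec h.1) (S h.2) := by
  have h1 : e ∈ edges ((inc S).mulVec 0) (ext S (T a)) := by rw [Matrix.mulVec_zero]; exact he
  rw [edges_ext] at h1
  have h2 : f ∈ edges ((inc S).mulVec ((inc T).mulVec v)) (ext S (T b)) := by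
    rw [Matrix.mulVec_mulVec, ← inc_comp]; exact hf
  rw [edges_ext] at h2
  obtain ⟨g, hg, hg'⟩ := List.mem_flatMap.1 h1
  obtain ⟨h, hh, hh'⟩ := List.mem_flatMap.1 h2
  exact ⟨g, hg, h, hh, hg', hh'⟩

theorem mem_shift {S : Fin d → List (Fin d)} {z y : Fin d → ℤ} {w : List (Fin d)}
    {e : (Fin d → ℤ) × Fin d} (he : e ∈ edges ((inc S).mulVec z) w) :
    (e.1 - (inc S).mulVec y, e.2) ∈ edges ((inc S).mulVec (z - y)) w := by
  have h := JComp_mem_translate (t := -((inc S).mulVec y)) he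
  rw [Matrix.mulVec_sub, sub_eq_add_neg, sub_eq_add_neg]
  exact h

theorem om_parent (P : PD M) (D : ℝ) (S T : Fin d → List (Fin d)) (i : ℕ) (hi : 1 ≤ i)
    (hS : inc S = M ^ i) (hT : AP P D T) (t : Fin d × Fin d × (Fin d → ℤ)) (ht : t ∈ Om P D)
    (e f g h : (Fin d → ℤ) × Fin d) (hg : g ∈ edges 0 (T t.1))
    (hh : h ∈ edges ((inc T).mulVec t.2.2) (T t.2.1))
    (he : e ∈ edges ((inc S).mulVec g.1) (S g.2)) (hf : f ∈ edges ((inc S).mulVec h.1) (S h.2))
    (hef : 0 < P.OV e f) : (g.2, h.2, h.1 - g.1) ∈ Om P D := by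
  have h1 := ov_parent P S i hi hS g h e f he hf hef
  refine ⟨hT t ht g hg h hh h1, ?_⟩
  simp only
  rw [JComp_OV_translate]
  exact h1

theorem shift_pair {S : Fin d → List (Fin d)} {e f g h : (Fin d → ℤ) × Fin d}
    (he : e ∈ edges ((inc S).mulVec g.1) (S g.2)) (hf : f ∈ edges ((inc S).mulVec h.1) (S h.2)) :
    (e.1 - (inc S).mulVec g.1, e.2) ∈ edges 0 (S g.2) ∧
      (f.1 - (inc S).mulVec g.1, f.2) ∈ edges ((inc S).mulVec (h.1 - g.1)) (S h.2) := by
  refine ⟨?_, mem_shift hf⟩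
  have := mem_shift (y := g.1) he
  rwa [sub_self, Matrix.mulVec_zero] at this

theorem ov_shift (P : PD M) (c : Fin d → ℤ) (e f : (Fin d → ℤ) × Fin d) :
    P.OV (e.1 - c, e.2) (f.1 - c, f.2) = P.OV e f := by
  rw [sub_eq_add_neg, sub_eq_add_neg]
  exact UTot_OV_translate P (-c) e f

theorem ap_comp (P : PD M) (D : ℝ) (S T : Fin d → List (Fin d)) (i : ℕ) (hi : 1 ≤ i)
    (hS : inc S = M ^ i) (hAS : AP P D S) (hT : AP P D T) : AP P D (comp S T) := by
  intro t ht e he f hf hef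
  obtain ⟨g, hg, h, hh, he', hf'⟩ := parents S T t.1 t.2.1 t.2.2 e f he hf
  have hq := om_parent P D S T i hi hS hT t ht e f g h hg hh he' hf' hef
  obtain ⟨h1, h2⟩ := shift_pair he' hf'
  have h3 := hAS _ hq _ h1 _ h2 (by rw [ov_shift]; exact hef)
  simpa using h3

theorem rel_comp (P : PD M) (D : ℝ) (S T : Fin d → List (Fin d)) (i : ℕ) (hi : 1 ≤ i)
    (hS : inc S = M ^ i) (hT : AP P D T) : Rel P D (comp S T) = sc (Rel P D T) (Rel P D S) := by
  ext ⟨t, s⟩
  constructor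
  · rintro ⟨h1, h2, e, he, f, hf, hs⟩
    simp only at h1 h2 he hf hs
    have hef : 0 < P.OV e f := by
      have := h2.2
      rw [hs] at this
      simp only at this
      rwa [JComp_OV_translate] at this
    obtain ⟨g, hg, h, hh, he', hf'⟩ := parents S T t.1 t.2.1 t.2.2 e f he hf
    have hq := om_parent P D S T i hi hS hT t h1 e f g h hg hh he' hf' hef
    obtain ⟨h3, h4⟩ := shift_pair he' hf'
    refine ⟨(g.2, h.2, h.1 - g.1), ⟨h1, hq, g, hg, h, hh, rfl⟩, ⟨hq, h2, _, h3, _, h4, ?_⟩⟩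
    rw [hs]
    simp
  · rintro ⟨q, ⟨h1, -, g, hg, h, hh, hq⟩, ⟨-, h2, e, he, f, hf, hs⟩⟩
    simp only at h1 h2 hg hh hq he hf hs
    subst hq
    refine ⟨h1, h2, _, JComp_mem0 hg he, _, JComp_mem1 hh hf, ?_⟩
    simp only
    rw [hs]
    simp

end Pool.Agent.X82.FC
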