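import Pool.Agent.X82.FC1

/-!
Finite automata for the coincidences of compositions of substitutions (MP_e732b0_an). Part 2: the
relations of compositions; a substitution and its powers.
-/

set_option autoImplicit false

namespace Pool.Agent.X82.FC
open Pool.Agent.H812R2.PI Pool.Agent.TH100.Pisot Pool.Agent.X82.PC
open scoped BigOperators

variable {d : ℕ} {M : Matrix (Fin d) (Fin d) ℤ}

theorem ap_list (P : PD M) (B D : ℝ) (hD0 : 0 ≤ D) (hD : 2 * B ≤ (1 - P.rho) * D)
    (l : List (Fin d → List (Fin d))) (hl : ∀ τ ∈ l, Fac P B τ) : AP P D (compList l) := by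
  induction l with
  | nil =>
    intro t ht e he f hf _
    simp only [compList, edges, List.mem_singleton] at he hf
    rw [JComp_inc_id, Matrix.one_mulVec] at hf
    subst he hf
    simpa using ht.1
  | cons τ l ih =>
    have ih' := ih (fun τ' h => hl τ' (List.mem_cons_of_mem _ h))
    have hτ := hl τ (List.mem_cons_self ..)
    obtain ⟨i, hi, h1⟩ := hτ.1
    exact ap_comp P D τ (compList l) i hi h1 (ap_fac P B D hD0 hD τ hτ) ih'

theorem rel_nil (P : PD M) (D : ℝ) :
    Rel P D (compList []) = {p | p.1 ∈ Om P D ∧ p.1 = p.2} := by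
  ext ⟨⟨a, b, v⟩, s⟩
  simp only [Rel, Set.mem_ofPred_eq, compList, edges, List.mem_singleton, exists_eq_left,
    JComp_inc_id, Matrix.one_mulVec, sub_zero]
  constructor
  · rintro ⟨h1, -, h2⟩
    exact ⟨h1, h2.symm⟩
  · rintro ⟨h1, h2⟩
    exact ⟨h1, h2 ▸ h1, h2.symm⟩

theorem rel_cons (P : PD M) (B D : ℝ) (hD0 : 0 ≤ D) (hD : 2 * B ≤ (1 - P.rho) * D)
    (τ : Fin d → List (Fin d)) (l : List (Fin d → List (Fin d))) (hτ : Fac P B τ)
    (hl : ∀ τ ∈ l, Fac P B τ) :
    Rel P D (compList (τ :: l)) = sc (Rel P D (compList l)) (Rel P D τ) := by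
  obtain ⟨i, hi, h1⟩ := hτ.1
  exact rel_comp P D τ (compList l) i hi h1 (ap_list P B D hD0 hD l hl)

theorem sc_assoc {X : Type} (A B C : Set (X × X)) : sc (sc A B) C = sc A (sc B C) := by
  ext ⟨x, y⟩
  constructor
  · rintro ⟨q, ⟨r, h1, h2⟩, h3⟩
    exact ⟨r, h1, q, h2, h3⟩
  · rintro ⟨r, h1, q, h2, h3⟩
    exact ⟨q, ⟨r, h1, h2⟩, h3⟩

theorem rel_id_sc (P : PD M) (D : ℝ) (S : Fin d → List (Fin d)) :
    sc (Rel P D S) (Rel P D (compList [])) = Rel P D S := by
  rw [rel_nil]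
  ext ⟨x, y⟩
  constructor
  · rintro ⟨q, h1, h2, h3⟩
    simp only at h2 h3
    subst h3
    exact h1
  · intro h
    exact ⟨y, h, h.2.1, rfl⟩

theorem rel_append (P : PD M) (B D : ℝ) (hD0 : 0 ≤ D) (hD : 2 * B ≤ (1 - P.rho) * D)
    (l l' : List (Fin d → List (Fin d))) (hl : ∀ τ ∈ l, Fac P B τ) (hl' : ∀ τ ∈ l', Fac P B τ) :
    Rel P D (compList (l ++ l')) = sc (Rel P D (compList l')) (Rel P D (compList l)) := by
  induction l with
  | nil => rw [List.nil_append, rel_id_sc]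
  | cons τ l ih =>
    have h1 : ∀ τ ∈ l, Fac P B τ := fun τ' h => hl τ' (List.mem_cons_of_mem _ h)
    have hτ := hl τ (List.mem_cons_self ..)
    have h2 : ∀ τ ∈ l ++ l', Fac P B τ := fun ρ h => by
      rcases List.mem_append.1 h with h | h
      · exact h1 ρ h
      · exact hl' ρ h
    rw [List.cons_append, rel_cons P B D hD0 hD τ _ hτ h2, rel_cons P B D hD0 hD τ _ hτ h1,
      ih h1, sc_assoc]

/-- the property `Hit` in terms of the relation -/
def HitRel (P : PD M) (D : ℝ)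
    (R : Set ((Fin d × Fin d × (Fin d → ℤ)) × (Fin d × Fin d × (Fin d → ℤ)))) : Prop :=
  ∀ t ∈ Om P D, ∃ c : Fin d, (t, (c, c, 0)) ∈ R

theorem hit_iff (P : PD M) (D : ℝ) (hD0 : 0 ≤ D) (S : Fin d → List (Fin d)) :
    P.Hit S D ↔ HitRel P D (Rel P D S) := by
  constructor
  · intro h t ht
    obtain ⟨e, he1, he2⟩ := h t.1 t.2.1 t.2.2 ht.1 ht.2
    refine ⟨e.2, ht, ⟨?_, ?_⟩, e, he1, e, he2, by simp⟩
    · simpa [rv_zero, N_zero] using hD0
    · unfold PD.OV ovl
      simp only [ht_zero, zero_add, max_self, min_self, sub_zero]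
      exact lt_max_of_lt_right (P.ell_pos _)
  · intro h a b v hv hO
    obtain ⟨c, -, -, e, he, f, hf, hs⟩ := h (a, b, v) ⟨hv, hO⟩
    simp only [Prod.mk.injEq] at he hf hs
    obtain ⟨h1, h2, h3⟩ := hs
    have h4 : e = f := by
      have h5 : f.1 = e.1 := (sub_eq_zero.1 h3.symm)
      exact Prod.ext h5.symm (h1.symm.trans h2)
    exact ⟨e, he, by rw [h4]; exact hf⟩

/-! ### powers of a substitution -/

theorem iter_iter (σ : Fin d → List (Fin d)) (k n : ℕ) (a : Fin d) :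
    iter (iter σ k) n a = iter σ (k * n) a := by
  induction n generalizing a with
  | zero => rfl
  | succ n ih =>
    rw [iter_succ, ih, Nat.mul_succ, Nat.add_comm, iter_add]

theorem infix_ext (τ : Fin d → List (Fin d)) {w w' : List (Fin d)} (h : w <:+: w') :
    ext τ w <:+: ext τ w' := by
  obtain ⟨s, t, rfl⟩ := h
  rw [ext_append, ext_append]
  exact ⟨ext τ s, ext τ t, rfl⟩

theorem lang_iter_eq {σ : Fin d → List (Fin d)} (P : PD (inc σ)) (k : ℕ) (hk : 1 ≤ k) :
    lang (iter σ k) = lang σ := by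
  ext w
  constructor
  · rintro ⟨n, hn, a, h⟩
    rw [iter_iter] at h
    exact ⟨k * n, Nat.mul_pos (by omega) (by omega), a, h⟩
  · rintro ⟨n, hn, a, h⟩
    obtain ⟨j, hj, hprim⟩ := primitive P
    have hle : n + j ≤ k * (n + j) := Nat.le_mul_of_pos_left _ (by omega)
    refine ⟨n + j, by omega, a, ?_⟩
    rw [iter_iter]
    obtain ⟨r, hr⟩ : ∃ r, k * (n + j) = n + r := ⟨k * (n + j) - n, by omega⟩
    have h1 : a ∈ iter σ r a := hprim r (by omega) a a
    rw [hr, iter_add]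
    refine h.trans ?_
    obtain ⟨s, t, hst⟩ := List.append_of_mem h1
    rw [hst]
    have : iter σ n a = ext (iter σ n) [a] := by simp [ext]
    rw [this]
    exact infix_ext _ ⟨s, t, by simp⟩

theorem semi_iter {σ : Fin d → List (Fin d)} (P : PD (inc σ)) (k : ℕ) (hk : 1 ≤ k)
    (h : SemiConjToral (iter σ k)) : SemiConjToral σ := by
  have hX : X (iter σ k) = X σ := by
    unfold X
    rw [lang_iter_eq P k hk]
  unfold SemiConjToral at h ⊢
  rwa [hX] at h

theorem semi_iter' {σ : Fin d → List (Fin d)} (P : PD M) (n : ℕ) (hn : 1 ≤ n)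
    (hσ : inc σ = M ^ n) (k : ℕ) (hk : 1 ≤ k)
    (h : SemiConjToral (iter σ k)) : SemiConjToral σ := by
  have key : ∀ (A : Matrix (Fin d) (Fin d) ℤ) (_ : inc σ = A) (_ : PD A), SemiConjToral σ := by
    intro A hA Q
    subst hA
    exact semi_iter Q k hk h
  exact key (M ^ n) hσ (P.pow n hn)

end Pool.Agent.X82.FC
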