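import Pool.Agent.X82.FC2
import Mathlib.Computability.MyhillNerode

/-!
Finite automata for the coincidences of compositions of substitutions (MP_e732b0_an). Part 3: the
conclusion of the conjecture depends on the relation only; uniform absorption, short
sub-compositions, regular languages.
-/

set_option autoImplicit false

namespace Pool.Agent.X82.FC
open Pool.Agent.H812R2.PI Pool.Agent.TH100.Pisot Pool.Agent.X82.PC
open scoped BigOperators

theorem setup {m : ℕ} (M : Matrix (Fin (m+1)) (Fin (m+1)) ℤ)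
    (hnn : ∀ i j, 0 ≤ M i j) (hM : PisotMat M) (lam : ℝ) (hlam : 1 < lam)
    (u : Fin (m+1) → ℝ) (hu : ∀ i, ∑ j, (M i j : ℝ) * u j = lam * u i)
    (husum : ∑ i, u i = 1) (B₀ : ℝ) :
    ∃ (P : PD M) (B D : ℝ) (n₁ : ℕ), 0 ≤ D ∧ 2 * B ≤ (1 - P.rho) * D ∧
      (∀ ρ : Fin (m+1) → List (Fin (m+1)), (∃ i, 1 ≤ i ∧ ρ ∈ SubSet u (M ^ i) B₀) → Fac P B ρ) ∧
      ∀ l : List (Fin (m+1) → List (Fin (m+1))), (∀ ρ ∈ l, Fac P B ρ) → n₁ ≤ l.length →
        P.Hit (compList l) D → SemiConjToral (compList l) := by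
  classical
  obtain ⟨P, rfl, -⟩ := exists_PD M hnn hM lam hlam u hu husum
  have hdet : IsUnit M.det := by
    rcases hM.2.1 with h | h <;> rw [h] <;> simp
  have hr : 0 < 1 - P.rho := by linarith [P.rho_lt]
  have hrho : ∀ᶠ n : ℕ in Filter.atTop, P.rho ^ n ≤ 1 / 2 := by
    have h := tendsto_pow_atTop_nhds_zero_of_lt_one P.rho_nonneg P.rho_lt
    exact (h.eventually (gt_mem_nhds (show (0:ℝ) < 1/2 by norm_num))).mono fun n hn => hn.le
  obtain ⟨n1, hn1⟩ := Filter.eventually_atTop.mp hrho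
  obtain ⟨BF, hBF⟩ : ∃ BF : ℝ, BF = P.c * |B₀| := ⟨_, rfl⟩
  have hBF0 : 0 ≤ BF := by
    rw [hBF]
    exact mul_nonneg P.c_pos.le (abs_nonneg _)
  have hfac : ∀ ρ : Fin (m+1) → List (Fin (m+1)), (∃ i, 1 ≤ i ∧ ρ ∈ SubSet P.u (M ^ i) B₀) →
      Fac P BF ρ := by
    rintro ρ ⟨i, hi1, hi, hpre⟩
    refine ⟨⟨i, hi1, hi⟩, fun a k => ?_⟩
    rw [hBF]
    exact GFin_dis_N P |B₀| (abs_nonneg _) _ (by rw [sq_abs]; exact hpre a k)
  obtain ⟨BS, hBS⟩ : ∃ BS : ℝ, BS = BF / (1 - P.rho) + ∑ a, P.N (rv (ev a)) := ⟨_, rfl⟩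
  have hBS0 : 0 ≤ BS := by
    rw [hBS]
    exact add_nonneg (div_nonneg hBF0 hr.le) (Finset.sum_nonneg fun a _ => P.N_nonneg _)
  obtain ⟨D, hD⟩ : ∃ D : ℝ, D = (16 * P.c ^ 2 + 4) * BS + 2 * BF / (1 - P.rho) := ⟨_, rfl⟩
  have hq1 : 0 ≤ 2 * BF / (1 - P.rho) := div_nonneg (by linarith) hr.le
  have hq2 : 0 ≤ (16 * P.c ^ 2 + 4) * BS := mul_nonneg (by positivity) hBS0
  have hD0 : 0 ≤ D := by rw [hD]; linarith
  have hDBS : (16 * P.c ^ 2 + 4) * BS ≤ D := by rw [hD]; linarith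
  have hDBF : 2 * BF ≤ (1 - P.rho) * D := by
    have h1 : 2 * BF / (1 - P.rho) ≤ D := by rw [hD]; linarith
    rw [div_le_iff₀ hr] at h1
    linarith
  refine ⟨P, BF, D, n1 + 1, hD0, hDBF, hfac, fun l hl hlen hhit => ?_⟩
  obtain ⟨N, hN, hinc⟩ := fac_inc P BF l hl
  have hN1 : 1 ≤ N := by omega
  have hpre : ∀ a j, P.N (rv (ab ((compList l a).take j))) ≤ BS := by
    intro a j
    refine (fac_prefix P _ BF hBF0 hl a j).trans ?_
    rw [hBS]
    have := Finset.single_le_sum (f := fun a => P.N (rv (ev a)))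
      (fun a _ => P.N_nonneg _) (Finset.mem_univ a)
    linarith
  refine JFin_semi (P.pow N hN1) (by rw [Matrix.det_pow]; exact hdet.pow _) BS D hBS0
    hDBS (hn1 N (by omega)) 1 le_rfl _ (by rw [pow_one]; exact hinc) hpre ?_
  intro a b v hv hO
  exact hhit a b v hv hO

/-- each substitution is in the set `SubSet` for a large bound -/
theorem exists_bound {d : ℕ} (u : Fin d → ℝ) (ρ : Fin d → List (Fin d)) :
    ∃ B : ℝ, 0 ≤ B ∧ ∀ a k, dis u (ab ((ρ a).take k)) ≤ B ^ 2 := by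
  classical
  have h0 : ∀ x : Fin d → ℤ, 0 ≤ dis u x := fun x => Finset.sum_nonneg fun i _ => sq_nonneg _
  obtain ⟨s, hs⟩ : ∃ s : ℝ, s = ∑ a, ∑ k ∈ Finset.range ((ρ a).length + 1),
    dis u (ab ((ρ a).take k)) := ⟨_, rfl⟩
  have hs0 : 0 ≤ s := by
    rw [hs]
    exact Finset.sum_nonneg fun a _ => Finset.sum_nonneg fun k _ => h0 _
  have h1 : ∀ a k, dis u (ab ((ρ a).take k)) ≤ s := by
    intro a k
    have h2 : (ρ a).take k = (ρ a).take (min k (ρ a).length) := by
      rcases le_total k (ρ a).length with h | h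
      · rw [min_eq_left h]
      · rw [min_eq_right h, List.take_length, List.take_of_length_le h]
    rw [h2, hs]
    refine le_trans ?_ (Finset.single_le_sum (f := fun a =>
      ∑ k ∈ Finset.range ((ρ a).length + 1), dis u (ab ((ρ a).take k)))
      (fun a _ => Finset.sum_nonneg fun k _ => h0 _) (Finset.mem_univ a))
    exact Finset.single_le_sum (f := fun k => dis u (ab ((ρ a).take k))) (fun k _ => h0 _)
      (Finset.mem_range.2 (Nat.lt_succ_of_le (min_le_right _ _)))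
  refine ⟨s + 1, by linarith, fun a k => (h1 a k).trans ?_⟩
  nlinarith

variable {m : ℕ} {M : Matrix (Fin (m+1)) (Fin (m+1)) ℤ}

theorem mem_pow {α : Type} {l : List α} {k : ℕ} {x : α} (h : x ∈ (List.replicate k l).flatten) :
    x ∈ l := by
  rw [List.mem_flatten] at h
  obtain ⟨l', hl', hx⟩ := h
  rwa [List.eq_of_mem_replicate hl'] at hx

theorem pow_add {α : Type} (l : List α) (j k : ℕ) : (List.replicate (j + k) l).flatten =
    (List.replicate j l).flatten ++ (List.replicate k l).flatten := by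
  rw [List.replicate_add, List.flatten_append]

theorem len_pow {α : Type} (l : List α) (hl : l ≠ []) (k : ℕ) :
    k ≤ ((List.replicate k l).flatten).length := by
  induction k with
  | zero => exact Nat.zero_le _
  | succ k ih =>
    rw [List.replicate_succ, List.flatten_cons, List.length_append]
    have := List.length_pos_iff.2 hl
    omega

theorem hit_mono (P : PD M) (B D : ℝ) (l : List (Fin (m+1) → List (Fin (m+1))))
    (hl : ∀ ρ ∈ l, Fac P B ρ) (j k : ℕ) (hjk : j ≤ k)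
    (h : P.Hit (compList (List.replicate j l).flatten) D) :
    P.Hit (compList (List.replicate k l).flatten) D := by
  obtain ⟨i, rfl⟩ := Nat.exists_eq_add_of_le hjk
  rw [Nat.add_comm j i, pow_add, compList_append]
  exact hit_comp_right P _ _ (fac_ne_nil P B _ fun ρ h => hl ρ (mem_pow h)) D h

theorem hit_pow_of_semi (P : PD M) (B D : ℝ) (l : List (Fin (m+1) → List (Fin (m+1))))
    (hl : ∀ ρ ∈ l, Fac P B ρ) (hne : l ≠ []) (hs : SemiConjToral (compList l)) :
    ∃ k, P.Hit (compList (List.replicate k l).flatten) D := by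
  obtain ⟨N, hN, hinc⟩ := fac_inc P B l hl
  have hN1 : 1 ≤ N := le_trans (List.length_pos_iff.2 hne) hN
  obtain ⟨K, hK⟩ := exists_hit P N hN1 (compList l) hinc
    (coin_of_semi P N hN1 (compList l) hinc hs) D
  refine ⟨K, ?_⟩
  rw [compList_flatten]
  exact hK K le_rfl

theorem semi_of_pow (P : PD M) (B : ℝ) (l : List (Fin (m+1) → List (Fin (m+1))))
    (hl : ∀ ρ ∈ l, Fac P B ρ) (hne : l ≠ []) (k : ℕ) (hk : 1 ≤ k)
    (hs : SemiConjToral (compList (List.replicate k l).flatten)) : SemiConjToral (compList l) := by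
  obtain ⟨N, hN, hinc⟩ := fac_inc P B l hl
  have hN1 : 1 ≤ N := le_trans (List.length_pos_iff.2 hne) hN
  rw [compList_flatten, compList_replicate] at hs
  exact semi_iter' P N hN1 hinc k hk hs

/-- the data of `setup` -/
def Good (P : PD M) (B D : ℝ) (n₁ : ℕ) : Prop :=
  0 ≤ D ∧ 2 * B ≤ (1 - P.rho) * D ∧
    ∀ l : List (Fin (m+1) → List (Fin (m+1))), (∀ ρ ∈ l, Fac P B ρ) → n₁ ≤ l.length →
      P.Hit (compList l) D → SemiConjToral (compList l)

theorem semi_iff {P : PD M} {B D : ℝ} {n₁ : ℕ} (hG : Good P B D n₁)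
    (l : List (Fin (m+1) → List (Fin (m+1)))) (hl : ∀ ρ ∈ l, Fac P B ρ) (hne : l ≠ []) :
    SemiConjToral (compList l) ↔ ∃ k, P.Hit (compList (List.replicate k l).flatten) D := by
  constructor
  · exact hit_pow_of_semi P B D l hl hne
  · rintro ⟨k, hk⟩
    have h1 := hit_mono P B D l hl k (k + n₁ + 1) (by omega) hk
    refine semi_of_pow P B l hl hne (k + n₁ + 1) (by omega) ?_
    refine hG.2.2 _ (fun ρ h => hl ρ (mem_pow h)) ?_ h1
    have := len_pow l hne (k + n₁ + 1)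
    omega

theorem rel_pow {P : PD M} {B D : ℝ} {n₁ : ℕ} (hG : Good P B D n₁)
    (l l' : List (Fin (m+1) → List (Fin (m+1)))) (hl : ∀ ρ ∈ l, Fac P B ρ)
    (hl' : ∀ ρ ∈ l', Fac P B ρ) (h : Rel P D (compList l) = Rel P D (compList l')) (k : ℕ) :
    Rel P D (compList (List.replicate k l).flatten) =
      Rel P D (compList (List.replicate k l').flatten) := by
  induction k with
  | zero => rfl
  | succ k ih =>
    rw [List.replicate_succ, List.replicate_succ, List.flatten_cons, List.flatten_cons,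
      rel_append P B D hG.1 hG.2.1 _ _ hl (fun ρ h => hl ρ (mem_pow h)),
      rel_append P B D hG.1 hG.2.1 _ _ hl' (fun ρ h => hl' ρ (mem_pow h)), ih, h]

theorem semi_congr {P : PD M} {B D : ℝ} {n₁ : ℕ} (hG : Good P B D n₁)
    (l l' : List (Fin (m+1) → List (Fin (m+1)))) (hl : ∀ ρ ∈ l, Fac P B ρ)
    (hl' : ∀ ρ ∈ l', Fac P B ρ) (hne : l ≠ []) (hne' : l' ≠ [])
    (h : Rel P D (compList l) = Rel P D (compList l')) :
    SemiConjToral (compList l) ↔ SemiConjToral (compList l') := by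
  rw [semi_iff hG l hl hne, semi_iff hG l' hl' hne']
  refine exists_congr fun k => ?_
  rw [hit_iff P D hG.1, hit_iff P D hG.1, rel_pow hG l l' hl hl' h k]

/-- the relation of a composition in a context -/
theorem rel_context {P : PD M} {B D : ℝ} {n₁ : ℕ} (hG : Good P B D n₁)
    (l l' u v : List (Fin (m+1) → List (Fin (m+1)))) (hl : ∀ ρ ∈ l, Fac P B ρ)
    (hl' : ∀ ρ ∈ l', Fac P B ρ) (hu : ∀ ρ ∈ u, Fac P B ρ) (hv : ∀ ρ ∈ v, Fac P B ρ)
    (h : Rel P D (compList l) = Rel P D (compList l')) :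
    Rel P D (compList (u ++ l ++ v)) = Rel P D (compList (u ++ l' ++ v)) := by
  have h1 : ∀ ρ ∈ u ++ l, Fac P B ρ := fun ρ h => by
    rcases List.mem_append.1 h with h | h
    exacts [hu ρ h, hl ρ h]
  have h2 : ∀ ρ ∈ u ++ l', Fac P B ρ := fun ρ h => by
    rcases List.mem_append.1 h with h | h
    exacts [hu ρ h, hl' ρ h]
  rw [rel_append P B D hG.1 hG.2.1 _ _ h1 hv, rel_append P B D hG.1 hG.2.1 _ _ h2 hv,
    rel_append P B D hG.1 hG.2.1 _ _ hu hl, rel_append P B D hG.1 hG.2.1 _ _ hu hl', h]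

/-- the finite set of all possible relations -/
theorem rels_finite (P : PD M) (D : ℝ) :
    {R : Set ((Fin (m+1) × Fin (m+1) × (Fin (m+1) → ℤ)) ×
      (Fin (m+1) × Fin (m+1) × (Fin (m+1) → ℤ))) | R ⊆ Om P D ×ˢ Om P D}.Finite :=
  ((om_finite P D).prod (om_finite P D)).finite_subsets

theorem rel_sub (P : PD M) (D : ℝ) (S : Fin (m+1) → List (Fin (m+1))) :
    Rel P D S ⊆ Om P D ×ˢ Om P D := fun _ hp => ⟨hp.1, hp.2.1⟩

/-- uniform absorption -/
theorem uniform_abs {P : PD M} {B D : ℝ} {n₁ : ℕ} (hG : Good P B D n₁) :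
    ∃ K, ∀ l : List (Fin (m+1) → List (Fin (m+1))), l ≠ [] → (∀ ρ ∈ l, Fac P B ρ) →
      SemiConjToral (compList l) → ∀ k ≥ K, ∀ u v : List (Fin (m+1) → List (Fin (m+1))),
      (∀ ρ ∈ u, Fac P B ρ) → (∀ ρ ∈ v, Fac P B ρ) →
      SemiConjToral (compList (u ++ (List.replicate k l).flatten ++ v)) := by
  classical
  have hex : ∀ R : Set ((Fin (m+1) × Fin (m+1) × (Fin (m+1) → ℤ)) ×
      (Fin (m+1) × Fin (m+1) × (Fin (m+1) → ℤ))), ∃ k : ℕ,
      ∀ l : List (Fin (m+1) → List (Fin (m+1))), l ≠ [] → (∀ ρ ∈ l, Fac P B ρ) →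
      Rel P D (compList l) = R → SemiConjToral (compList l) →
      P.Hit (compList (List.replicate k l).flatten) D := by
    intro R
    by_cases h : ∃ l : List (Fin (m+1) → List (Fin (m+1))), l ≠ [] ∧ (∀ ρ ∈ l, Fac P B ρ) ∧
      Rel P D (compList l) = R ∧ SemiConjToral (compList l)
    · obtain ⟨l, hne, hl, hR, hs⟩ := h
      obtain ⟨k, hk⟩ := hit_pow_of_semi P B D l hl hne hs
      refine ⟨k, fun l' hne' hl' hR' _ => ?_⟩
      rw [hit_iff P D hG.1] at hk ⊢
      rwa [rel_pow hG l' l hl' hl (hR'.trans hR.symm) k]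
    · exact ⟨0, fun l h1 h2 h3 h4 => absurd ⟨l, h1, h2, h3, h4⟩ h⟩
  choose κ hκ using hex
  refine ⟨(rels_finite P D).toFinset.sup κ + n₁, fun l hne hl hs k hk u v hu hv => ?_⟩
  have h1 := hκ _ l hne hl rfl hs
  have h2 : κ (Rel P D (compList l)) ≤ (rels_finite P D).toFinset.sup κ :=
    Finset.le_sup (f := κ) (by rw [Set.Finite.mem_toFinset]; exact rel_sub P D _)
  have h3 := hit_mono P B D l hl _ k (by omega) h1
  have hpow : ∀ ρ ∈ (List.replicate k l).flatten, Fac P B ρ := fun ρ h => hl ρ (mem_pow h)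
  refine hG.2.2 _ ?_ ?_ ?_
  · intro ρ h
    rcases List.mem_append.1 h with h | h
    · rcases List.mem_append.1 h with h | h
      exacts [hu ρ h, hpow ρ h]
    · exact hv ρ h
  · have := len_pow l hne k
    rw [List.length_append, List.length_append]
    omega
  · rw [compList_append, compList_append, comp_assoc]
    refine hit_comp_right P _ _ (fac_ne_nil P B u hu) D ?_
    exact hit_comp_left P _ _ D D (fac_ovTo P v B D hG.1 hv hG.2.1) h3

end Pool.Agent.X82.FC
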