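import Pool.Agent.X82.FC3

/-!
Finite automata for the coincidences of compositions of substitutions (MP_e732b0_an). Part 4: short
sub-compositions, rotations, regular languages.
-/

set_option autoImplicit false

namespace Pool.Agent.X82.FC
open Pool.Agent.H812R2.PI Pool.Agent.TH100.Pisot Pool.Agent.X82.PC
open scoped BigOperators

variable {m : ℕ} {M : Matrix (Fin (m+1)) (Fin (m+1)) ℤ}

/-- every composition has a short sub-composition with the same relation -/
theorem shorten {P : PD M} {B D : ℝ} {n₁ : ℕ} (hG : Good P B D n₁) :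
    ∀ (n : ℕ) (l : List (Fin (m+1) → List (Fin (m+1)))), l.length ≤ n → l ≠ [] →
      (∀ ρ ∈ l, Fac P B ρ) → ∃ l', l' ≠ [] ∧ List.Sublist l' l ∧
        l'.length ≤ (rels_finite P D).toFinset.card ∧
        Rel P D (compList l') = Rel P D (compList l) := by
  classical
  intro n
  induction n with
  | zero =>
    intro l h hne
    exact absurd (List.length_eq_zero_iff.1 (Nat.le_zero.1 h)) hne
  | succ n ih =>
    intro l hn hne hl
    by_cases hN : l.length ≤ (rels_finite P D).toFinset.card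
    · exact ⟨l, hne, List.Sublist.refl l, hN, rfl⟩
    · push Not at hN
      have hcard : (rels_finite P D).toFinset.card <
          (Finset.range ((rels_finite P D).toFinset.card + 1)).card := by
        rw [Finset.card_range]; omega
      obtain ⟨i, hi, j, hj, hij, heq⟩ := Finset.exists_ne_map_eq_of_card_lt_of_maps_to hcard
        (f := fun i => Rel P D (compList (l.drop i)))
        (fun i _ => by
          rw [Finset.mem_coe, Set.Finite.mem_toFinset]
          exact rel_sub P D _)
      wlog hlt : i < j generalizing i j with H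
      · exact H j hj i hi hij.symm heq.symm (by omega)
      rw [Finset.mem_range] at hi hj
      have hdrop : l.drop j ≠ [] := by
        intro h
        rw [List.drop_eq_nil_iff] at h
        omega
      have hsub : List.Sublist (l.take i ++ l.drop j) l := by
        have h1 : List.Sublist (l.take i ++ l.drop j) (l.take i ++ l.drop i) :=
          List.Sublist.append_left (List.drop_sublist_drop_left l hlt.le) _
        rwa [List.take_append_drop] at h1
      have hl1 : ∀ ρ ∈ l.take i, Fac P B ρ := fun ρ h => hl ρ (List.mem_of_mem_take h)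
      have hl2 : ∀ ρ ∈ l.drop i, Fac P B ρ := fun ρ h => hl ρ (List.mem_of_mem_drop h)
      have hl3 : ∀ ρ ∈ l.drop j, Fac P B ρ := fun ρ h => hl ρ (List.mem_of_mem_drop h)
      have hrel : Rel P D (compList (l.take i ++ l.drop j)) = Rel P D (compList l) := by
        conv_rhs => rw [← List.take_append_drop i l]
        rw [rel_append P B D hG.1 hG.2.1 _ _ hl1 hl3, rel_append P B D hG.1 hG.2.1 _ _ hl1 hl2,
          heq]
      obtain ⟨l', h1, h2, h3, h4⟩ := ih (l.take i ++ l.drop j) (by
        rw [List.length_append, List.length_take, List.length_drop]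
        omega) (by simp [hdrop]) (fun ρ h => hl ρ (hsub.subset h))
      exact ⟨l', h1, h2.trans hsub, h3, h4.trans hrel⟩

/-- the conclusion of the conjecture is invariant under rotation of the factors -/
theorem rotate {P : PD M} {B D : ℝ} {n₁ : ℕ} (hG : Good P B D n₁)
    (u v : List (Fin (m+1) → List (Fin (m+1)))) (hu : ∀ ρ ∈ u, Fac P B ρ)
    (hv : ∀ ρ ∈ v, Fac P B ρ) (hne : u ++ v ≠ []) (h : SemiConjToral (compList (u ++ v))) :
    SemiConjToral (compList (v ++ u)) := by
  have huv : ∀ ρ ∈ u ++ v, Fac P B ρ := fun ρ h => by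
    rcases List.mem_append.1 h with h | h
    exacts [hu ρ h, hv ρ h]
  have hvu : ∀ ρ ∈ v ++ u, Fac P B ρ := fun ρ h => by
    rcases List.mem_append.1 h with h | h
    exacts [hv ρ h, hu ρ h]
  have hne' : v ++ u ≠ [] := by
    intro h
    rw [List.append_eq_nil_iff] at h
    exact hne (by rw [h.1, h.2]; rfl)
  rw [semi_iff hG _ huv hne] at h
  rw [semi_iff hG _ hvu hne']
  obtain ⟨k, hk⟩ := h
  refine ⟨k + 1, ?_⟩
  have h1 : ∀ k : ℕ, (List.replicate (k + 1) (v ++ u)).flatten =
      v ++ ((List.replicate k (u ++ v)).flatten ++ u) := by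
    intro k
    induction k with
    | zero => simp
    | succ k ih =>
      rw [List.replicate_succ, List.flatten_cons, ih, List.replicate_succ, List.flatten_cons]
      simp only [List.append_assoc]
  rw [h1, compList_append, compList_append]
  refine hit_comp_right P _ _ (fac_ne_nil P B v hv) D ?_
  exact hit_comp_left P _ _ D D (fac_ovTo P u B D hG.1 hu hG.2.1) hk

variable {ι : Type}

/-- the words over `F` whose composition satisfies the conclusion of the conjecture -/
def Sat (F : ι → (Fin (m+1) → List (Fin (m+1)))) : Language ι :=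
  {w | w ≠ [] ∧ SemiConjToral (compList (w.map F))}

/-- the words over `F` such that all compositions with this factor satisfy the conclusion -/
def Per (F : ι → (Fin (m+1) → List (Fin (m+1)))) : Language ι :=
  {w | w ≠ [] ∧ ∀ u v : List ι, SemiConjToral (compList ((u ++ w ++ v).map F))}

theorem finite_range {α β γ : Type*} [Nonempty α] (f : α → β) (g : α → γ)
    (hg : (Set.range g).Finite) (h : ∀ x y, g x = g y → f x = f y) : (Set.range f).Finite := by
  classical
  obtain ⟨x₀⟩ := ‹Nonempty α›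
  refine (hg.image (fun c => if hc : ∃ x, g x = c then f hc.choose else f x₀)).subset ?_
  rintro _ ⟨x, rfl⟩
  refine ⟨g x, ⟨x, rfl⟩, ?_⟩
  have hc : ∃ y, g y = g x := ⟨x, rfl⟩
  simp only [dif_pos hc]
  exact h _ _ hc.choose_spec

theorem fac_map {P : PD M} {B : ℝ} {F : ι → (Fin (m+1) → List (Fin (m+1)))}
    (hF : ∀ i, Fac P B (F i)) (w : List ι) : ∀ ρ ∈ w.map F, Fac P B ρ := by
  intro ρ h
  obtain ⟨i, -, rfl⟩ := List.mem_map.1 h
  exact hF i

theorem regular_of {P : PD M} {D : ℝ} {F : ι → (Fin (m+1) → List (Fin (m+1)))} (L : Language ι)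
    (h : ∀ x x' y : List ι, Rel P D (compList (x.map F)) = Rel P D (compList (x'.map F)) →
      x.isEmpty = x'.isEmpty → x ++ y ∈ L → x' ++ y ∈ L) : L.IsRegular := by
  rw [Language.isRegular_iff_finite_range_leftQuotient]
  refine finite_range _ (fun x : List ι => (Rel P D (compList (x.map F)), x.isEmpty)) ?_ ?_
  · refine ((rels_finite P D).prod (Set.finite_univ (α := Bool))).subset ?_
    rintro _ ⟨x, rfl⟩
    exact ⟨rel_sub P D _, Set.mem_univ _⟩
  · intro x x' hx
    rw [Prod.mk.injEq] at hx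
    ext y
    rw [Language.mem_leftQuotient, Language.mem_leftQuotient]
    exact ⟨h x x' y hx.1 hx.2, h x' x y hx.1.symm hx.2.symm⟩

theorem rel_left {P : PD M} {B D : ℝ} {n₁ : ℕ} (hG : Good P B D n₁)
    {F : ι → (Fin (m+1) → List (Fin (m+1)))} (hF : ∀ i, Fac P B (F i)) (u x x' y : List ι)
    (h : Rel P D (compList (x.map F)) = Rel P D (compList (x'.map F))) :
    Rel P D (compList ((u ++ x ++ y).map F)) = Rel P D (compList ((u ++ x' ++ y).map F)) := by
  simp only [List.map_append]
  exact rel_context hG _ _ _ _ (fac_map hF x) (fac_map hF x') (fac_map hF u) (fac_map hF y) h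

theorem sat_regular {P : PD M} {B D : ℝ} {n₁ : ℕ} (hG : Good P B D n₁)
    {F : ι → (Fin (m+1) → List (Fin (m+1)))} (hF : ∀ i, Fac P B (F i)) : (Sat F).IsRegular := by
  refine regular_of (P := P) (D := D) (F := F) _ (fun x x' y h h0 hxy => ?_)
  obtain ⟨h1, h2⟩ := hxy
  have h3 : x' ++ y ≠ [] := by
    intro h
    rw [List.append_eq_nil_iff] at h
    apply h1
    rw [h.1, List.isEmpty_nil, List.isEmpty_iff] at h0
    rw [h0, h.2]
    rfl
  refine ⟨h3, ?_⟩
  have h4 := rel_left hG hF [] x x' y h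
  rw [List.nil_append, List.nil_append] at h4
  exact (semi_congr hG _ _ (fac_map hF _) (fac_map hF _) (by simpa using h1) (by simpa using h3)
    h4).1 h2

theorem per_regular {P : PD M} {B D : ℝ} {n₁ : ℕ} (hG : Good P B D n₁)
    {F : ι → (Fin (m+1) → List (Fin (m+1)))} (hF : ∀ i, Fac P B (F i)) : (Per F).IsRegular := by
  refine regular_of (P := P) (D := D) (F := F) _ (fun x x' y h h0 hxy => ?_)
  obtain ⟨h1, h2⟩ := hxy
  have h3 : x' ++ y ≠ [] := by
    intro h
    rw [List.append_eq_nil_iff] at h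
    apply h1
    rw [h.1, List.isEmpty_nil, List.isEmpty_iff] at h0
    rw [h0, h.2]
    rfl
  refine ⟨h3, fun u v => ?_⟩
  have h4 := rel_left hG hF u x x' (y ++ v) h
  have h5 : u ++ x ++ (y ++ v) = u ++ (x ++ y) ++ v := by simp only [List.append_assoc]
  have h6 : u ++ x' ++ (y ++ v) = u ++ (x' ++ y) ++ v := by simp only [List.append_assoc]
  rw [h5, h6] at h4
  refine (semi_congr hG _ _ (fac_map hF _) (fac_map hF _) ?_ ?_ h4).1 (h2 u v)
  · intro h
    rw [List.map_eq_nil_iff, List.append_eq_nil_iff, List.append_eq_nil_iff] at h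
    exact h1 h.1.2
  · intro h
    rw [List.map_eq_nil_iff, List.append_eq_nil_iff, List.append_eq_nil_iff] at h
    exact h3 h.1.2

/-- `ρ` has the incidence matrix `M ^ i` for some `i ≥ 1`, and all prefixes of the images of the
letters have discrepancy at most `B`. -/
def Factor (M : Matrix (Fin (m+1)) (Fin (m+1)) ℤ) (u : Fin (m+1) → ℝ) (B : ℝ)
    (ρ : Fin (m+1) → List (Fin (m+1))) : Prop := ∃ i, 1 ≤ i ∧ ρ ∈ SubSet u (M ^ i) B

theorem factor_finite (M : Matrix (Fin (m+1)) (Fin (m+1)) ℤ) (u : Fin (m+1) → ℝ)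
    (F : Set (Fin (m+1) → List (Fin (m+1)))) (hfin : F.Finite)
    (hF : ∀ ρ ∈ F, ∃ i, 1 ≤ i ∧ inc ρ = M ^ i) : ∃ B, ∀ ρ ∈ F, Factor M u B ρ := by
  classical
  choose b hb0 hb using fun ρ : Fin (m+1) → List (Fin (m+1)) => exists_bound u ρ
  refine ⟨∑ ρ ∈ hfin.toFinset, b ρ, fun ρ hρ => ?_⟩
  obtain ⟨i, hi, h⟩ := hF ρ hρ
  refine ⟨i, hi, h, fun a k => (hb ρ a k).trans ?_⟩
  have h1 : b ρ ≤ ∑ ρ ∈ hfin.toFinset, b ρ :=
    Finset.single_le_sum (fun x _ => hb0 x) ((Set.Finite.mem_toFinset _).2 hρ)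
  have := hb0 ρ
  nlinarith

theorem main (M : Matrix (Fin (m+1)) (Fin (m+1)) ℤ) (hnn : ∀ i j, 0 ≤ M i j) (hM : PisotMat M)
    (lam : ℝ) (hlam : 1 < lam) (w : Fin (m+1) → ℝ)
    (hw : ∀ i, ∑ j, (M i j : ℝ) * w j = lam * w i) (hwsum : ∑ i, w i = 1) (B₀ : ℝ) :
    (∀ l : List (Fin (m+1) → List (Fin (m+1))), l ≠ [] → (∀ ρ ∈ l, Factor M w B₀ ρ) →
      PisotMat (inc (compList l))) ∧
    (∀ u v : List (Fin (m+1) → List (Fin (m+1))), (∀ ρ ∈ u ++ v, Factor M w B₀ ρ) →
      u ++ v ≠ [] → (SemiConjToral (compList (u ++ v)) ↔ SemiConjToral (compList (v ++ u)))) ∧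
    ∃ K N : ℕ, 1 ≤ K ∧
      (∀ l u v : List (Fin (m+1) → List (Fin (m+1))), l ≠ [] →
        (∀ ρ ∈ u ++ l ++ v, Factor M w B₀ ρ) → SemiConjToral (compList l) →
        ∀ k ≥ K, SemiConjToral (compList (u ++ (List.replicate k l).flatten ++ v))) ∧
      (∀ l : List (Fin (m+1) → List (Fin (m+1))), l ≠ [] → (∀ ρ ∈ l, Factor M w B₀ ρ) →
        ∃ l', l' ≠ [] ∧ List.Sublist l' l ∧ l'.length ≤ N ∧
          ∀ u v : List (Fin (m+1) → List (Fin (m+1))), (∀ ρ ∈ u ++ v, Factor M w B₀ ρ) →
            (SemiConjToral (compList (u ++ l ++ v)) ↔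
              SemiConjToral (compList (u ++ l' ++ v)))) ∧
      (∀ F : Set (Fin (m+1) → List (Fin (m+1))), (∀ ρ ∈ F, Factor M w B₀ ρ) →
        (∀ l : List (Fin (m+1) → List (Fin (m+1))), l ≠ [] → (∀ ρ ∈ l, ρ ∈ F) →
          l.length ≤ N → SemiConjToral (compList l)) →
        ∀ l : List (Fin (m+1) → List (Fin (m+1))), l ≠ [] → (∀ ρ ∈ l, ρ ∈ F) →
          SemiConjToral (compList l)) ∧
      (∀ (ι : Type) (F : ι → (Fin (m+1) → List (Fin (m+1)))), (∀ i, Factor M w B₀ (F i)) →
        (Sat F).IsRegular ∧ (Per F).IsRegular ∧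
        ∀ x : List ι, x ∈ Sat F ↔ (List.replicate K x).flatten ∈ Per F) := by
  obtain ⟨P, B, D, n₁, hD0, hD, hfac, hsemi⟩ := setup M hnn hM lam hlam w hw hwsum B₀
  have hG : Good P B D n₁ := ⟨hD0, hD, hsemi⟩
  obtain ⟨K, hK⟩ := uniform_abs hG
  have happ : ∀ u v : List (Fin (m+1) → List (Fin (m+1))), (∀ ρ ∈ u ++ v, Factor M w B₀ ρ) →
      (∀ ρ ∈ u, Fac P B ρ) ∧ ∀ ρ ∈ v, Fac P B ρ := fun u v h =>
    ⟨fun ρ hρ => hfac ρ (h ρ (List.mem_append_left _ hρ)),
      fun ρ hρ => hfac ρ (h ρ (List.mem_append_right _ hρ))⟩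
  have hshort : ∀ l : List (Fin (m+1) → List (Fin (m+1))), l ≠ [] → (∀ ρ ∈ l, Factor M w B₀ ρ) →
        ∃ l', l' ≠ [] ∧ List.Sublist l' l ∧ l'.length ≤ (rels_finite P D).toFinset.card ∧
          ∀ u v : List (Fin (m+1) → List (Fin (m+1))), (∀ ρ ∈ u ++ v, Factor M w B₀ ρ) →
            (SemiConjToral (compList (u ++ l ++ v)) ↔
              SemiConjToral (compList (u ++ l' ++ v))) := by
    intro l hne hl
    have hl' : ∀ ρ ∈ l, Fac P B ρ := fun ρ h => hfac ρ (hl ρ h)
    obtain ⟨l', h1, h2, h3, h4⟩ := shorten hG l.length l le_rfl hne hl'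
    refine ⟨l', h1, h2, h3, fun u v huv => ?_⟩
    obtain ⟨hu, hv⟩ := happ u v huv
    have hl'' : ∀ ρ ∈ l', Fac P B ρ := fun ρ h => hl' ρ (h2.subset h)
    have hmem : ∀ w : List (Fin (m+1) → List (Fin (m+1))), (∀ ρ ∈ w, Fac P B ρ) →
        ∀ ρ ∈ u ++ w ++ v, Fac P B ρ := by
      intro w hw ρ h
      rcases List.mem_append.1 h with h | h
      · rcases List.mem_append.1 h with h | h
        exacts [hu ρ h, hw ρ h]
      · exact hv ρ h
    have hnn : ∀ w : List (Fin (m+1) → List (Fin (m+1))), w ≠ [] → u ++ w ++ v ≠ [] := by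
      intro w hw h
      rw [List.append_eq_nil_iff, List.append_eq_nil_iff] at h
      exact hw h.1.2
    exact semi_congr hG _ _ (hmem l hl') (hmem l' hl'') (hnn l hne) (hnn l' h1)
      (rel_context hG l l' u v hl' hl'' hu hv h4.symm)
  refine ⟨fun l hne hl => ?_, fun u v huv hne => ?_, K + 1, (rels_finite P D).toFinset.card,
    by omega, ?_, hshort, ?_, ?_⟩
  · obtain ⟨N, hN, hinc⟩ := fac_inc P B l (fun ρ h => hfac ρ (hl ρ h))
    rw [hinc]
    exact pisotMat_pow M hnn hM N (le_trans (List.length_pos_iff.2 hne) hN)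
  · obtain ⟨hu, hv⟩ := happ u v huv
    have hne' : v ++ u ≠ [] := by
      intro h
      rw [List.append_eq_nil_iff] at h
      exact hne (by rw [h.1, h.2]; rfl)
    exact ⟨rotate hG u v hu hv hne, rotate hG v u hv hu hne'⟩
  · intro l u v hne hl hs k hk
    obtain ⟨h1, h2⟩ := happ (u ++ l) v hl
    exact hK l hne (fun ρ h => h1 ρ (List.mem_append_right _ h)) hs k (by omega) u v
      (fun ρ h => h1 ρ (List.mem_append_left _ h)) h2
  · intro F hF h l hne hl
    obtain ⟨l', h1, h2, h3, h4⟩ := hshort l hne (fun ρ hρ => hF ρ (hl ρ hρ))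
    have h5 := h4 [] [] (by simp)
    simp only [List.nil_append, List.append_nil] at h5
    exact h5.2 (h l' h1 (fun ρ hρ => hl ρ (h2.subset hρ)) h3)
  · intro ι F hF
    have hF' : ∀ i, Fac P B (F i) := fun i => hfac _ (hF i)
    refine ⟨sat_regular hG hF', per_regular hG hF', fun x => ?_⟩
    have hpow : ∀ k : ℕ, ((List.replicate k x).flatten).map F =
        (List.replicate k (x.map F)).flatten := by
      intro k
      rw [List.map_flatten, List.map_replicate]
    constructor
    · rintro ⟨hne, hs⟩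
      refine ⟨?_, fun u v => ?_⟩
      · intro h
        have := len_pow x hne (K + 1)
        rw [h] at this
        simp at this
      · rw [List.map_append, List.map_append, hpow]
        exact hK (x.map F) (by simpa using hne) (fac_map hF' x) hs (K + 1) (by omega) _ _
          (fac_map hF' u) (fac_map hF' v)
    · rintro ⟨hne, hs⟩
      have hne' : x ≠ [] := by
        rintro rfl
        apply hne
        simp
      refine ⟨hne', ?_⟩
      have h1 := hs [] []
      rw [List.nil_append, List.append_nil, hpow] at h1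
      exact semi_of_pow P B (x.map F) (fac_map hF' x) (by simpa using hne') (K + 1) (by omega) h1

end Pool.Agent.X82.FC
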