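import Pool.Agent.X82.FC4

/-!
Robustness of the Pisot substitution conjecture (MP_e732b0_an). Part 1: counting common edges.
-/

set_option autoImplicit false

namespace Pool.Agent.X82.FC
open Pool.Agent.H812R2.PI Pool.Agent.TH100.Pisot Pool.Agent.X82.PC
open scoped BigOperators

variable {d : ℕ} {M : Matrix (Fin d) (Fin d) ℤ}

theorem ht_pow (P : PD M) (n : ℕ) (v : Fin d → ℤ) :
    P.ht ((M ^ n).mulVec v) = P.lam ^ n * P.ht v := by
  induction n generalizing v with
  | zero => simp
  | succ n ih =>
    rw [_root_.pow_succ', ← Matrix.mulVec_mulVec, ht_mulVec, ih, _root_.pow_succ]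
    ring

theorem ell_le (P : PD M) (a : Fin d) : P.ell a ≤ ∑ i, P.ell i :=
  Finset.single_le_sum (f := P.ell) (fun j _ => (P.ell_pos j).le) (Finset.mem_univ a)

theorem ht_ab_le (P : PD M) (w : List (Fin d)) : P.ht (ab w) ≤ (∑ i, P.ell i) * w.length := by
  induction w with
  | nil => simp [ab_nil, ht_zero]
  | cons a w ih =>
    rw [ab_cons, ht_add, ht_ev, List.length_cons]
    have h1 := ell_le P a
    push_cast
    linarith

theorem sum_le_edges {z : Fin d → ℤ} {w : List (Fin d)} {e : (Fin d → ℤ) × Fin d}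
    (he : e ∈ edges z w) : ∑ i, z i ≤ ∑ i, e.1 i := by
  induction w generalizing z with
  | nil => simp [edges] at he
  | cons a w ih =>
    simp only [edges, List.mem_cons] at he
    rcases he with rfl | he
    · exact le_rfl
    · have h1 := ih he
      have h2 : ∑ i, (z + ev a) i = ∑ i, z i + 1 := by
        simp [Finset.sum_add_distrib, ev]
      linarith

theorem nodup_edges (z : Fin d → ℤ) (w : List (Fin d)) : (edges z w).Nodup := by
  induction w generalizing z with
  | nil => simp [edges]
  | cons a w ih =>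
    simp only [edges, List.nodup_cons]
    refine ⟨fun h => ?_, ih _⟩
    have h1 := sum_le_edges h
    have h2 : ∑ i, (z + ev a) i = ∑ i, z i + 1 := by
      simp [Finset.sum_add_distrib, ev]
    simp only at h1
    linarith

/-- the common edges of the images -/
def ce (S : Fin d → List (Fin d)) (a b : Fin d) (v : Fin d → ℤ) :
    Finset ((Fin d → ℤ) × Fin d) :=
  (edges 0 (S a)).toFinset ∩ (edges ((inc S).mulVec v) (S b)).toFinset

theorem pieces (S : Fin d → List (Fin d)) (z : Fin d → ℤ) (w : List (Fin d))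
    {g g' e : (Fin d → ℤ) × Fin d} (hg : g ∈ edges z w) (hg' : g' ∈ edges z w)
    (he : e ∈ edges ((inc S).mulVec g.1) (S g.2)) (he' : e ∈ edges ((inc S).mulVec g'.1) (S g'.2)) :
    g = g' := by
  have h1 := nodup_edges ((inc S).mulVec z) (ext S w)
  rw [edges_ext, List.nodup_flatMap] at h1
  by_contra hne
  have hsymm : Std.Symm (Function.onFun List.Disjoint
      (fun e : (Fin d → ℤ) × Fin d => edges ((inc S).mulVec e.1) (S e.2))) :=
    ⟨fun _ _ h => List.Disjoint.symm h⟩
  have h2 := h1.2.forall hg hg' hne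
  exact h2 he he'

theorem ce_grow (S T : Fin d → List (Fin d)) (l : ℕ) (hl : ∀ c, l ≤ (S c).length) (a b : Fin d)
    (v : Fin d → ℤ) : l * (ce T a b v).card ≤ (ce (comp S T) a b v).card := by
  have hsub : (ce T a b v).biUnion (fun e => (edges ((inc S).mulVec e.1) (S e.2)).toFinset) ⊆
      ce (comp S T) a b v := by
    intro h hh
    obtain ⟨e, he, hh⟩ := Finset.mem_biUnion.1 hh
    unfold ce at he ⊢
    rw [Finset.mem_inter, List.mem_toFinset, List.mem_toFinset] at he ⊢
    rw [List.mem_toFinset] at hh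
    constructor
    · have h2 := JComp_mem (S := S) he.1 hh
      rwa [Matrix.mulVec_zero] at h2
    · have h2 := JComp_mem (S := S) he.2 hh
      rw [Matrix.mulVec_mulVec, ← inc_comp] at h2
      exact h2
  refine le_trans ?_ (Finset.card_le_card hsub)
  rw [Finset.card_biUnion]
  · calc l * (ce T a b v).card = ∑ _e ∈ ce T a b v, l := by
          rw [Finset.sum_const, smul_eq_mul, mul_comm]
      _ ≤ _ := Finset.sum_le_sum fun e _ => by
          rw [List.toFinset_card_of_nodup (nodup_edges _ _), length_edges]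
          exact hl _
  · intro e he e' he' hne
    change Disjoint _ _
    rw [Finset.disjoint_left]
    intro x hx hx'
    unfold ce at he he'
    rw [Finset.mem_coe, Finset.mem_inter, List.mem_toFinset] at he he'
    rw [List.mem_toFinset] at hx hx'
    exact hne (pieces S 0 (T a) he.1 he'.1 hx hx')

open Classical in
/-- the edges of the first path which overlap an edge of the second path -/
noncomputable def ovs (P : PD M) (S : Fin d → List (Fin d)) (a b : Fin d) (v : Fin d → ℤ) :
    Finset ((Fin d → ℤ) × Fin d) :=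
  (edges 0 (S a)).toFinset.filter (fun g => ∃ h ∈ edges ((inc S).mulVec v) (S b), 0 < P.OV g h)

theorem ce_hit (P : PD M) (D : ℝ) (T S : Fin d → List (Fin d)) (hT : P.Hit T D) (hS : AP P D S)
    (t : Fin d × Fin d × (Fin d → ℤ)) (ht : t ∈ Om P D) :
    (ovs P S t.1 t.2.1 t.2.2).card ≤ (ce (comp T S) t.1 t.2.1 t.2.2).card := by
  classical
  have hex : ∀ g ∈ ovs P S t.1 t.2.1 t.2.2, ∃ e, e ∈ ce (comp T S) t.1 t.2.1 t.2.2 ∧
      e ∈ edges ((inc T).mulVec g.1) (T g.2) := by
    intro g hg
    unfold ovs at hg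
    rw [Finset.mem_filter, List.mem_toFinset] at hg
    obtain ⟨hg, h, hh, hgh⟩ := hg
    have hN := hS t ht g hg h hh hgh
    obtain ⟨e, he1, he2⟩ := hT g.2 h.2 (h.1 - g.1) hN (by rw [JComp_OV_translate]; exact hgh)
    refine ⟨(e.1 + (inc T).mulVec g.1, e.2), ?_, ?_⟩
    · unfold ce
      rw [Finset.mem_inter, List.mem_toFinset, List.mem_toFinset]
      exact ⟨JComp_mem0 hg he1, JComp_mem1 hh he2⟩
    · have := JComp_mem_translate (t := (inc T).mulVec g.1) he1
      rwa [zero_add] at this
  choose! f hf1 hf2 using hex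
  refine Finset.card_le_card_of_injOn f (fun g hg => hf1 g hg) ?_
  intro g hg g' hg' hgg
  have h1 := hf2 g hg
  have h2 := hf2 g' hg'
  rw [← hgg] at h2
  have hm : ∀ g ∈ ovs P S t.1 t.2.1 t.2.2, g ∈ edges 0 (S t.1) := by
    intro g hg
    unfold ovs at hg
    rw [Finset.mem_filter, List.mem_toFinset] at hg
    exact hg.1
  exact pieces T 0 (S t.1) (hm g hg) (hm g' hg') h1 h2

theorem ovl_le (a b c e : ℝ) (h : a ≤ b) : ovl a b c e ≤ b - a := by
  unfold ovl
  refine max_le (by linarith) ?_
  have h1 := min_le_left b e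
  have h2 := le_max_left a c
  linarith

theorem ovs_card (P : PD M) (S : Fin d → List (Fin d)) (n : ℕ) (hS : inc S = M ^ n)
    (a b : Fin d) (v : Fin d → ℤ) :
    P.lam ^ n * P.OV (0, a) (v, b) ≤ (∑ i, P.ell i) * (ovs P S a b v).card := by
  classical
  have hsum := sum_OV_edges P 0 ((inc S).mulVec v) (S a) (S b)
  rw [ab_subst, ab_subst, hS, ht_pow, ht_pow, ht_pow, ht_ev, ht_ev, ht_zero] at hsum
  have h0 : P.OV (0, a) (v, b) = ovl 0 (0 + P.ell a) (P.ht v) (P.ht v + P.ell b) := by
    unfold PD.OV
    simp only [ht_zero]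
  have h1 := JComp_ovl_mul 0 (0 + P.ell a) (P.ht v) (P.ht v + P.ell b) (P.lam ^ n)
    (pow_nonneg (lt_trans one_pos P.lam_gt).le n)
  have h2 : P.lam ^ n * P.OV (0, a) (v, b) =
      ((edges 0 (S a)).map (fun e =>
        ((edges ((inc S).mulVec v) (S b)).map (fun f => P.OV e f)).sum)).sum := by
    rw [hS, hsum, h0, ← h1]
    congr 1 <;> ring
  rw [h2, ← List.sum_toFinset _ (nodup_edges _ _)]
  have h3 : ∀ g ∈ (edges 0 (S a)).toFinset,
      ((edges ((inc S).mulVec v) (S b)).map (fun f => P.OV g f)).sum ≤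
      if ∃ h ∈ edges ((inc S).mulVec v) (S b), 0 < P.OV g h then ∑ i, P.ell i else 0 := by
    intro g _
    split_ifs with h
    · have h4 : ((edges ((inc S).mulVec v) (S b)).map (fun f => P.OV g f)).sum =
          ovl (P.ht g.1) (P.ht g.1 + P.ell g.2) (P.ht ((inc S).mulVec v))
            (P.ht ((inc S).mulVec v) + P.ht (ab (S b))) :=
        sum_ovl_edges P _ _ (by linarith [P.ell_pos g.2]) _ _
      rw [h4]
      have h5 := ovl_le (P.ht g.1) (P.ht g.1 + P.ell g.2) (P.ht ((inc S).mulVec v))
        (P.ht ((inc S).mulVec v) + P.ht (ab (S b))) (by linarith [P.ell_pos g.2])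
      have h6 := ell_le P g.2
      linarith
    · push Not at h
      refine (List.sum_eq_zero ?_).le
      intro x hx
      obtain ⟨y, hy, rfl⟩ := List.mem_map.1 hx
      exact le_antisymm (h y hy) (ov_nonneg P _ _)
  refine (Finset.sum_le_sum h3).trans ?_
  rw [← Finset.sum_filter, Finset.sum_const, nsmul_eq_mul, mul_comm]
  exact le_rfl

/-- a substitution whose broken lines have almost all edges in common with those of `S` -/
theorem hit_of_close (S S' : Fin d → List (Fin d)) (hinc : inc S' = inc S) (n : ℕ)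
    (hclose : ∀ a, ((edges 0 (S a)).toFinset \ (edges 0 (S' a)).toFinset).card ≤ n)
    (a b : Fin d) (v : Fin d → ℤ) (h : 2 * n < (ce S a b v).card) :
    ∃ e, e ∈ edges 0 (S' a) ∧ e ∈ edges ((inc S').mulVec v) (S' b) := by
  classical
  by_contra hcon
  push Not at hcon
  have hsub : ce S a b v ⊆ ((edges 0 (S a)).toFinset \ (edges 0 (S' a)).toFinset) ∪
      ((edges 0 (S b)).toFinset \ (edges 0 (S' b)).toFinset).image
        (fun e => (e.1 + (inc S).mulVec v, e.2)) := by
    intro e he
    unfold ce at he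
    rw [Finset.mem_inter, List.mem_toFinset, List.mem_toFinset] at he
    rw [Finset.mem_union, Finset.mem_sdiff, Finset.mem_image, List.mem_toFinset,
      List.mem_toFinset]
    by_cases h1 : e ∈ edges 0 (S' a)
    · right
      have h2 := hcon e h1
      refine ⟨(e.1 - (inc S).mulVec v, e.2), ?_, by simp⟩
      rw [Finset.mem_sdiff, List.mem_toFinset, List.mem_toFinset]
      constructor
      · have h3 := JComp_mem_translate (t := -((inc S).mulVec v)) he.2
        rwa [add_neg_cancel, ← sub_eq_add_neg] at h3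
      · intro h3
        apply h2
        have h4 := JComp_mem_translate (t := (inc S).mulVec v) h3
        rw [zero_add, ← hinc] at h4
        simpa using h4
    · exact Or.inl ⟨he.1, h1⟩
  have h1 := Finset.card_le_card hsub
  have h2 := Finset.card_union_le ((edges 0 (S a)).toFinset \ (edges 0 (S' a)).toFinset)
    (((edges 0 (S b)).toFinset \ (edges 0 (S' b)).toFinset).image
        (fun e => (e.1 + (inc S).mulVec v, e.2)))
  have h3 := Finset.card_image_le (s := (edges 0 (S b)).toFinset \ (edges 0 (S' b)).toFinset)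
    (f := fun e => (e.1 + (inc S).mulVec v, e.2))
  have h4 := hclose a
  have h5 := hclose b
  omega

end Pool.Agent.X82.FC
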