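import Pool.Agent.X82.FC5

/-!
Robustness of the Pisot substitution conjecture (MP_e732b0_an). Part 2: the theorem.
-/

set_option autoImplicit false

namespace Pool.Agent.X82.FC
open Pool.Agent.H812R2.PI Pool.Agent.TH100.Pisot Pool.Agent.X82.PC
open scoped BigOperators

variable {m : ℕ} {M : Matrix (Fin (m+1)) (Fin (m+1)) ℤ}

theorem exists_mu (P : PD M) : ∃ μ : ℝ, 0 < μ ∧ ∀ i, μ ≤ P.ell i := by
  obtain ⟨i, -, hi⟩ := Finset.exists_min_image Finset.univ P.ell ⟨0, Finset.mem_univ _⟩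
  exact ⟨P.ell i, P.ell_pos i, fun j => hi j (Finset.mem_univ j)⟩

theorem exists_delta (P : PD M) (D : ℝ) :
    ∃ δ : ℝ, 0 < δ ∧ ∀ t ∈ Om P D, δ ≤ P.OV (0, t.1) (t.2.2, t.2.1) := by
  classical
  rcases (om_finite P D).toFinset.eq_empty_or_nonempty with h | h
  · refine ⟨1, one_pos, fun t ht => ?_⟩
    have : t ∈ (om_finite P D).toFinset := (Set.Finite.mem_toFinset _).2 ht
    rw [h] at this
    simp at this
  · obtain ⟨t, ht, hmin⟩ := Finset.exists_min_image _
      (fun t : Fin (m+1) × Fin (m+1) × (Fin (m+1) → ℤ) => P.OV (0, t.1) (t.2.2, t.2.1)) h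
    rw [Set.Finite.mem_toFinset] at ht
    exact ⟨_, ht.2, fun s hs => hmin s ((Set.Finite.mem_toFinset _).2 hs)⟩

theorem mu_le_ht (P : PD M) (μ : ℝ) (hμ : ∀ i, μ ≤ P.ell i) (w : List (Fin (m+1))) :
    μ * w.length ≤ P.ht (ab w) := by
  induction w with
  | nil => simp [ab_nil, ht_zero]
  | cons a w ih =>
    rw [ab_cons, ht_add, ht_ev, List.length_cons]
    have h1 := hμ a
    push_cast
    linarith

theorem ht_image (P : PD M) (S : Fin (m+1) → List (Fin (m+1))) (n : ℕ) (hS : inc S = M ^ n)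
    (a : Fin (m+1)) : P.ht (ab (S a)) = P.lam ^ n * P.ell a := by
  rw [ab_subst, hS, ht_pow, ht_ev]

theorem lam_pow_eq (P : PD M) (a b : ℕ) (h : M ^ a = M ^ b) : P.lam ^ a = P.lam ^ b := by
  have h1 := ht_pow P a (ev 0)
  rw [h, ht_pow, ht_ev] at h1
  exact (mul_right_cancel₀ (P.ell_pos 0).ne' h1).symm

/-- many common edges -/
theorem many_common {P : PD M} {B D : ℝ} {n₁ : ℕ} (hG : Good P B D n₁) :
    ∃ c₁ : ℝ, 0 < c₁ ∧ ∀ (u v lT : List (Fin (m+1) → List (Fin (m+1)))),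
      (∀ ρ ∈ u, Fac P B ρ) → (∀ ρ ∈ v, Fac P B ρ) → P.Hit (compList lT) D →
      ∀ NT N : ℕ, inc (compList lT) = M ^ NT → inc (compList (u ++ lT ++ v)) = M ^ N →
      ∀ t ∈ Om P D, c₁ * P.lam ^ N ≤
        P.lam ^ NT * (ce (compList (u ++ lT ++ v)) t.1 t.2.1 t.2.2).card := by
  obtain ⟨μ, hμ0, hμ⟩ := exists_mu P
  obtain ⟨δ, hδ0, hδ⟩ := exists_delta P D
  obtain ⟨L, hL⟩ : ∃ L, L = ∑ i, P.ell i := ⟨_, rfl⟩
  have hL0 : 0 < L := by
    rw [hL]
    exact Finset.sum_pos (fun i _ => P.ell_pos i) ⟨0, Finset.mem_univ _⟩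
  refine ⟨μ / L * (δ / L), by positivity, fun u v lT hu hv hT NT N hNT hN t ht => ?_⟩
  obtain ⟨N1, -, h1⟩ := fac_inc P B u hu
  obtain ⟨N2, -, h2⟩ := fac_inc P B v hv
  have hlam : 0 < P.lam := lt_trans one_pos P.lam_gt
  have hNN : P.lam ^ N = P.lam ^ N1 * P.lam ^ NT * P.lam ^ N2 := by
    rw [← _root_.pow_add, ← _root_.pow_add]
    apply lam_pow_eq P
    rw [← hN, compList_append, compList_append, inc_comp, inc_comp, h1, hNT, h2,
      ← _root_.pow_add, ← _root_.pow_add]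
  have hlen : ∀ c, ⌈P.lam ^ N1 * (μ / L)⌉₊ ≤ (compList u c).length := by
    intro c
    rw [Nat.ceil_le]
    have h3 := ht_ab_le P (compList u c)
    rw [ht_image P _ N1 h1, ← hL] at h3
    have h4 := mul_le_mul_of_nonneg_left (hμ c) (pow_pos hlam N1).le
    rw [mul_div_assoc', div_le_iff₀ hL0]
    linarith
  have h5 := ce_grow (compList u) (comp (compList lT) (compList v)) _ hlen t.1 t.2.1 t.2.2
  have h6 := ce_hit P D (compList lT) (compList v) hT (ap_list P B D hG.1 hG.2.1 v hv) t ht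
  have h7 := ovs_card P (compList v) N2 h2 t.1 t.2.1 t.2.2
  rw [← hL] at h7
  have h8 : P.lam ^ N2 * (δ / L) ≤ ((ovs P (compList v) t.1 t.2.1 t.2.2).card : ℝ) := by
    rw [mul_div_assoc', div_le_iff₀ hL0]
    have := mul_le_mul_of_nonneg_left (hδ t ht) (pow_pos hlam N2).le
    linarith
  have h9 : (P.lam ^ N1 * (μ / L)) * (P.lam ^ N2 * (δ / L)) ≤
      ((ce (comp (compList u) (comp (compList lT) (compList v))) t.1 t.2.1 t.2.2).card : ℝ) := by
    calc (P.lam ^ N1 * (μ / L)) * (P.lam ^ N2 * (δ / L)) ≤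
        (⌈P.lam ^ N1 * (μ / L)⌉₊ : ℝ) *
          ((ce (comp (compList lT) (compList v)) t.1 t.2.1 t.2.2).card : ℝ) := by
          apply mul_le_mul (Nat.le_ceil _) _ (by positivity) (Nat.cast_nonneg _)
          exact h8.trans (by exact_mod_cast h6)
      _ ≤ _ := by exact_mod_cast h5
  rw [compList_append, compList_append, comp_assoc, hNN]
  have hNTp := pow_pos hlam NT
  calc μ / L * (δ / L) * (P.lam ^ N1 * P.lam ^ NT * P.lam ^ N2) =
      P.lam ^ NT * ((P.lam ^ N1 * (μ / L)) * (P.lam ^ N2 * (δ / L))) := by ring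
    _ ≤ _ := mul_le_mul_of_nonneg_left h9 hNTp.le

/-- robustness -/
theorem robust (M : Matrix (Fin (m+1)) (Fin (m+1)) ℤ) (hnn : ∀ i j, 0 ≤ M i j) (hM : PisotMat M)
    (lam : ℝ) (hlam : 1 < lam) (w : Fin (m+1) → ℝ)
    (hw : ∀ i, ∑ j, (M i j : ℝ) * w j = lam * w i) (hwsum : ∑ i, w i = 1) (B₀ : ℝ)
    (l : List (Fin (m+1) → List (Fin (m+1)))) (hne : l ≠ []) (hl : ∀ ρ ∈ l, Factor M w B₀ ρ)
    (hs : SemiConjToral (compList l)) :
    ∃ (k : ℕ) (c : ℝ), 0 < c ∧ ∀ (u v : List (Fin (m+1) → List (Fin (m+1)))) (N : ℕ)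
      (S' : Fin (m+1) → List (Fin (m+1))), (∀ ρ ∈ u ++ v, Factor M w B₀ ρ) →
      inc (compList (u ++ (List.replicate k l).flatten ++ v)) = M ^ N →
      S' ∈ SubSet w (M ^ N) B₀ →
      (∀ a, (((edges 0 (compList (u ++ (List.replicate k l).flatten ++ v) a)).toFinset \
        (edges 0 (S' a)).toFinset).card : ℝ) ≤ c * (S' a).length) →
      ∀ u' v' : List (Fin (m+1) → List (Fin (m+1))), (∀ ρ ∈ u' ++ v', Factor M w B₀ ρ) →
        PisotMat (inc (compList (u' ++ [S'] ++ v'))) ∧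
        SemiConjToral (compList (u' ++ [S'] ++ v')) := by
  obtain ⟨P, B, D, n₁, hD0, hD, hfac, hsemi⟩ := setup M hnn hM lam hlam w hw hwsum B₀
  have hG : Good P B D n₁ := ⟨hD0, hD, hsemi⟩
  have hl' : ∀ ρ ∈ l, Fac P B ρ := fun ρ h => hfac ρ (hl ρ h)
  obtain ⟨k, hk⟩ := hit_pow_of_semi P B D l hl' hne hs
  have hk' := hit_mono P B D l hl' k (k + 1) (by omega) hk
  have hpow : ∀ ρ ∈ (List.replicate (k + 1) l).flatten, Fac P B ρ := fun ρ h => hl' ρ (mem_pow h)
  obtain ⟨NT, hNT1, hNT⟩ := fac_inc P B _ hpow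
  have hNTpos : 1 ≤ NT := by
    have := len_pow l hne (k + 1)
    omega
  obtain ⟨c₁, hc₁, hce⟩ := many_common hG
  obtain ⟨μ, hμ0, hμ⟩ := exists_mu P
  obtain ⟨L, hL⟩ : ∃ L, L = ∑ i, P.ell i := ⟨_, rfl⟩
  have hL0 : 0 < L := by
    rw [hL]
    exact Finset.sum_pos (fun i _ => P.ell_pos i) ⟨0, Finset.mem_univ _⟩
  have hlam0 : 0 < P.lam := lt_trans one_pos P.lam_gt
  have hNTp := pow_pos hlam0 NT
  refine ⟨k + 1, c₁ * μ / (3 * L * P.lam ^ NT), by positivity,
    fun u v N S' huv hN hS' hclose u' v' huv' => ?_⟩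
  have hu : ∀ ρ ∈ u, Fac P B ρ := fun ρ h => hfac ρ (huv ρ (List.mem_append_left _ h))
  have hv : ∀ ρ ∈ v, Fac P B ρ := fun ρ h => hfac ρ (huv ρ (List.mem_append_right _ h))
  have hu' : ∀ ρ ∈ u', Fac P B ρ := fun ρ h => hfac ρ (huv' ρ (List.mem_append_left _ h))
  have hv' : ∀ ρ ∈ v', Fac P B ρ := fun ρ h => hfac ρ (huv' ρ (List.mem_append_right _ h))
  -- the exponent is positive
  have hN1 : 1 ≤ N := by
    by_contra hcon
    have h0 : N = 0 := by omega
    obtain ⟨N1, -, h1⟩ := fac_inc P B u hu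
    obtain ⟨N2, -, h2⟩ := fac_inc P B v hv
    have h3 : M ^ N = M ^ (N1 + NT + N2) := by
      rw [← hN, compList_append, compList_append, inc_comp, inc_comp, h1, hNT, h2,
        ← _root_.pow_add, ← _root_.pow_add]
    have h4 := lam_pow_eq P _ _ h3
    rw [h0, _root_.pow_zero] at h4
    have h5 : 1 < P.lam ^ (N1 + NT + N2) := one_lt_pow₀ P.lam_gt (by omega)
    linarith
  have hfS : Fac P B S' := hfac S' ⟨N, hN1, hS'⟩
  -- a common edge
  have hhit : P.Hit S' D := by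
    intro a b y hy hO
    obtain ⟨n, hn⟩ : ∃ n, n = ⌊c₁ * P.lam ^ N / (3 * P.lam ^ NT)⌋₊ := ⟨_, rfl⟩
    refine hit_of_close (compList (u ++ (List.replicate (k + 1) l).flatten ++ v)) S'
      (hS'.1.trans hN.symm) n (fun a => ?_) a b y ?_
    · rw [hn, Nat.le_floor_iff (by positivity)]
      have h1 := mu_le_ht P μ hμ (S' a)
      rw [ht_image P S' N hS'.1] at h1
      have h2 := ell_le P a
      rw [← hL] at h2
      have h3 : μ * (S' a).length ≤ P.lam ^ N * L :=
        h1.trans (mul_le_mul_of_nonneg_left h2 (pow_pos hlam0 N).le)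
      refine (hclose a).trans ?_
      rw [div_mul_eq_mul_div, div_le_div_iff₀ (by positivity) (by positivity)]
      have h4 := mul_le_mul_of_nonneg_left h3 (show 0 ≤ c₁ * (3 * P.lam ^ NT) by positivity)
      linarith
    · have h1 := hce u v _ hu hv hk' NT N hNT hN (a, b, y) ⟨hy, hO⟩
      simp only at h1
      have h2 : (n : ℝ) ≤ c₁ * P.lam ^ N / (3 * P.lam ^ NT) := by
        rw [hn]
        exact Nat.floor_le (by positivity)
      rw [le_div_iff₀ (by positivity)] at h2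
      have h3 : (0 : ℝ) < c₁ * P.lam ^ N := by positivity
      have h4 : 2 * (n : ℝ) * P.lam ^ NT < P.lam ^ NT *
          ((ce (compList (u ++ (List.replicate (k + 1) l).flatten ++ v)) a b y).card : ℝ) := by
        refine lt_of_lt_of_le ?_ h1
        linarith
      have h5 : 2 * (n : ℝ) <
          ((ce (compList (u ++ (List.replicate (k + 1) l).flatten ++ v)) a b y).card : ℝ) := by
        rw [mul_comm (P.lam ^ NT)] at h4
        exact lt_of_mul_lt_mul_right h4 hNTp.le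
      exact_mod_cast h5
  have hall : ∀ ρ ∈ u' ++ [S'] ++ v', Fac P B ρ := by
    intro ρ h
    rcases List.mem_append.1 h with h | h
    · rcases List.mem_append.1 h with h | h
      · exact hu' ρ h
      · rw [List.mem_singleton] at h
        rw [h]
        exact hfS
    · exact hv' ρ h
  have hne' : u' ++ [S'] ++ v' ≠ [] := by simp
  have hone : compList [S'] = S' := by
    funext a
    simp only [compList, comp, ext, List.flatMap_cons, List.flatMap_nil, List.append_nil]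
  constructor
  · obtain ⟨N', hN', hinc⟩ := fac_inc P B _ hall
    rw [hinc]
    exact pisotMat_pow M hnn hM N' (le_trans (List.length_pos_iff.2 hne') hN')
  · rw [semi_iff hG _ hall hne']
    refine ⟨1, ?_⟩
    have h1 : (List.replicate 1 (u' ++ [S'] ++ v')).flatten = u' ++ [S'] ++ v' := by simp
    rw [h1, compList_append, compList_append, comp_assoc, hone]
    refine hit_comp_right P _ _ (fac_ne_nil P B u' hu') D ?_
    exact hit_comp_left P _ _ D D (fac_ovTo P v' B D hG.1 hv' hG.2.1) hhit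

end Pool.Agent.X82.FC
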