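import Mathlib

/-!
# Fricke trace polynomials: existence, uniqueness and the upper bound for their sizes
-/

open MvPolynomial

namespace Pool.Agent.X82.Fricke

/-- `f` is the Fricke trace polynomial of `w`: `Tr w(A,B) = f(Tr A, Tr B, Tr AB)` for all
`A, B` in `SL(2, ℂ)` -/
def IsTracePoly (w : FreeGroup (Fin 2)) (f : MvPolynomial (Fin 3) ℤ) : Prop :=
  ∀ A B : Matrix.SpecialLinearGroup (Fin 2) ℂ,
    (FreeGroup.lift ![A, B] w).1.trace = aeval ![A.1.trace, B.1.trace, (A * B).1.trace] f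

/-- the cyclically reduced length of `w` is `n` -/
def CycLen (w : FreeGroup (Fin 2)) (n : ℕ) : Prop :=
  ∃ L : List (Fin 2 × Bool), FreeGroup.IsCyclicallyReduced L ∧ L.length = n ∧
    IsConj (FreeGroup.mk L) w

/-- the total binary size of the nonzero coefficients -/
def bitSize (f : MvPolynomial (Fin 3) ℤ) : ℕ :=
  ∑ d ∈ f.support, (f.coeff d).natAbs.size

/-- the sizes of the trace polynomials of the words of cyclically reduced length `n` -/
def sizes (n : ℕ) : Set ℕ :=
  {s | ∃ (w : FreeGroup (Fin 2)) (f : MvPolynomial (Fin 3) ℤ), CycLen w n ∧ IsTracePoly w f ∧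
    s = bitSize f}

/-- `S(n)` -/
noncomputable def S (n : ℕ) : ℕ := sSup (sizes n)

/-! ### Uniqueness -/

theorem surj (x y z : ℂ) : ∃ A B : Matrix.SpecialLinearGroup (Fin 2) ℂ,
    A.1.trace = x ∧ B.1.trace = y ∧ (A * B).1.trace = z := by
  obtain ⟨s, hs⟩ := IsAlgClosed.exists_pow_nat_eq (z ^ 2 - 4) (n := 2) (by norm_num)
  have ht : (z + s) / 2 * ((z - s) / 2) = 1 := by linear_combination (-1 / 4 : ℂ) * hs
  refine ⟨⟨!![x, -1; 1, 0], by simp [Matrix.det_fin_two]⟩,
    ⟨!![0, (z + s) / 2; -((z - s) / 2), y], ?_⟩, ?_, ?_, ?_⟩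
  · rw [Matrix.det_fin_two_of]
    linear_combination ht
  · simp [Matrix.trace_fin_two]
  · simp [Matrix.trace_fin_two]
  · change (!![x, -1; 1, 0] * !![0, (z + s) / 2; -((z - s) / 2), y]).trace = z
    rw [Matrix.mul_fin_two, Matrix.trace_fin_two_of]
    ring

theorem unique {w : FreeGroup (Fin 2)} {f g : MvPolynomial (Fin 3) ℤ} (hf : IsTracePoly w f)
    (hg : IsTracePoly w g) : f = g := by
  apply MvPolynomial.map_injective (Int.castRingHom ℂ) Int.cast_injective
  apply MvPolynomial.funext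
  intro p
  obtain ⟨A, B, h1, h2, h3⟩ := surj (p 0) (p 1) (p 2)
  have h := (hf A B).symm.trans (hg A B)
  have hp : ![A.1.trace, B.1.trace, (A * B).1.trace] = p := by
    ext i
    fin_cases i
    · exact h1
    · exact h2
    · exact h3
  rw [hp] at h
  rw [MvPolynomial.eval_map, MvPolynomial.eval_map]
  exact h

/-! ### The relations of two matrices -/

section rel

variable {E : Type*} [Ring E] [Algebra ℂ E] {A B : E} {x y z : ℂ}

theorem rel_AAB (hA : A * A = x • A - 1) : A * (A * B) = x • (A * B) - B := by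
  rw [← mul_assoc, hA, sub_mul, smul_mul_assoc, one_mul]

theorem rel_BAB (hB : B * B = y • B - 1)
    (hBA : B * A = (z - x * y) • 1 + y • A + x • B - A * B) :
    B * (A * B) = z • B + A - x • 1 := by
  rw [← mul_assoc, hBA]
  simp only [sub_mul, add_mul, smul_mul_assoc, one_mul, mul_assoc, hB, mul_sub, mul_smul_comm,
    mul_one]
  module

end rel

/-- the coefficient of a word with respect to `1, A, B, AB` -/
structure V4 where
  /-- the coefficient of `1` -/
  p : MvPolynomial (Fin 3) ℤ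
  /-- the coefficient of `A` -/
  q : MvPolynomial (Fin 3) ℤ
  /-- the coefficient of `B` -/
  r : MvPolynomial (Fin 3) ℤ
  /-- the coefficient of `AB` -/
  s : MvPolynomial (Fin 3) ℤ

/-- multiplication by a letter from the left -/
noncomputable def step : Fin 2 × Bool → V4 → V4
  | (0, true), v => ⟨-v.q, v.p + X 0 * v.q, -v.s, v.r + X 0 * v.s⟩
  | (0, false), v => ⟨X 0 * v.p + v.q, -v.p, X 0 * v.r + v.s, -v.r⟩
  | (1, true), v => ⟨X 2 * v.q - X 0 * (X 1 * v.q) - v.r - X 0 * v.s, X 1 * v.q + v.s,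
      v.p + X 0 * v.q + X 1 * v.r + X 2 * v.s, -v.q⟩
  | (1, false), v => ⟨X 1 * v.p - X 2 * v.q + X 0 * (X 1 * v.q) + v.r + X 0 * v.s, -v.s,
      -v.p - X 0 * v.q - X 2 * v.s, X 1 * v.s + v.q⟩

/-- the vector of a word -/
noncomputable def vec : List (Fin 2 × Bool) → V4
  | [] => ⟨1, 0, 0, 0⟩
  | l :: L => step l (vec L)

/-- the value of a vector -/
noncomputable def ev {E : Type*} [Ring E] [Algebra ℂ E] (A B : E) (t : Fin 3 → ℂ) (v : V4) : E :=
  aeval t v.p • (1 : E) + aeval t v.q • A + aeval t v.r • B + aeval t v.s • (A * B)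

theorem ev_step {E : Type*} [Ring E] [Algebra ℂ E] {A B : E} {t : Fin 3 → ℂ}
    (hA : A * A = t 0 • A - 1) (hB : B * B = t 1 • B - 1)
    (hBA : B * A = (t 2 - t 0 * t 1) • 1 + t 1 • A + t 0 • B - A * B) (v : V4) :
    A * ev A B t v = ev A B t (step (0, true) v) ∧
    (t 0 • 1 - A) * ev A B t v = ev A B t (step (0, false) v) ∧
    B * ev A B t v = ev A B t (step (1, true) v) ∧
    (t 1 • 1 - B) * ev A B t v = ev A B t (step (1, false) v) := by
  have h1 := rel_AAB (B := B) hA
  have h2 := rel_BAB hB hBA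
  refine ⟨?_, ?_, ?_, ?_⟩ <;>
  · simp only [ev, step, map_neg, map_add, map_sub, map_mul, aeval_X, mul_add, mul_smul_comm,
      mul_one, hA, hB, hBA, h1, h2, sub_mul, smul_mul_assoc, one_mul]
    module

/-! ### Matrices of determinant one -/

theorem sl_sq (A : Matrix.SpecialLinearGroup (Fin 2) ℂ) : A.1 * A.1 = A.1.trace • A.1 - 1 := by
  obtain ⟨M, hM⟩ := A
  rw [Matrix.det_fin_two] at hM
  ext i j
  fin_cases i <;> fin_cases j <;>
    simp [Matrix.mul_apply, Matrix.trace_fin_two, Fin.sum_univ_two] <;>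
    first | ring1 | linear_combination (-1 : ℂ) * hM

theorem sl_inv (A : Matrix.SpecialLinearGroup (Fin 2) ℂ) : (A⁻¹).1 = A.1.trace • 1 - A.1 := by
  have h : (A⁻¹).1 = Matrix.adjugate A.1 := rfl
  rw [h, Matrix.adjugate_fin_two]
  ext i j
  fin_cases i <;> fin_cases j <;>
    simp [Matrix.trace_fin_two]

theorem sl_comm (A B : Matrix.SpecialLinearGroup (Fin 2) ℂ) :
    B.1 * A.1 = ((A * B).1.trace - A.1.trace * B.1.trace) • 1 + B.1.trace • A.1 +
      A.1.trace • B.1 - A.1 * B.1 := by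
  have h1 : (A * B).1 = A.1 * B.1 := rfl
  rw [h1]
  obtain ⟨M, hM⟩ := A
  obtain ⟨N, hN⟩ := B
  ext i j
  fin_cases i <;> fin_cases j <;>
    simp [Matrix.mul_apply, Matrix.trace_fin_two, Fin.sum_univ_two] <;> ring

/-- the traces of `A`, `B`, `AB` -/
noncomputable def tr3 (A B : Matrix.SpecialLinearGroup (Fin 2) ℂ) : Fin 3 → ℂ :=
  ![A.1.trace, B.1.trace, (A * B).1.trace]

theorem word_ev (A B : Matrix.SpecialLinearGroup (Fin 2) ℂ) (L : List (Fin 2 × Bool)) :
    (FreeGroup.lift ![A, B] (FreeGroup.mk L)).1 = ev A.1 B.1 (tr3 A B) (vec L) := by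
  induction L with
  | nil =>
    rw [← FreeGroup.one_eq_mk, map_one]
    simp [ev, vec]
  | cons l L ih =>
    have hcons : FreeGroup.mk (l :: L) = FreeGroup.mk [l] * FreeGroup.mk L := by
      rw [FreeGroup.mul_mk]; rfl
    have hst := ev_step (A := A.1) (B := B.1) (t := tr3 A B) (sl_sq A) (sl_sq B) (sl_comm A B)
      (vec L)
    rw [hcons, map_mul]
    have hmul : ∀ P Q : Matrix.SpecialLinearGroup (Fin 2) ℂ, (P * Q).1 = P.1 * Q.1 :=
      fun _ _ => rfl
    rw [hmul, ih]
    obtain ⟨i, b⟩ := l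
    fin_cases i <;> cases b
    · have : (FreeGroup.lift ![A, B] (FreeGroup.mk [(0, false)])) = A⁻¹ := by
        simp [FreeGroup.lift_mk]
      change (FreeGroup.lift ![A, B] (FreeGroup.mk [(0, false)])).1 * _ = _
      rw [this, sl_inv]
      exact hst.2.1
    · have : (FreeGroup.lift ![A, B] (FreeGroup.mk [(0, true)])) = A := by
        simp [FreeGroup.lift_mk]
      change (FreeGroup.lift ![A, B] (FreeGroup.mk [(0, true)])).1 * _ = _
      rw [this]
      exact hst.1
    · have : (FreeGroup.lift ![A, B] (FreeGroup.mk [(1, false)])) = B⁻¹ := by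
        simp [FreeGroup.lift_mk]
      change (FreeGroup.lift ![A, B] (FreeGroup.mk [(1, false)])).1 * _ = _
      rw [this, sl_inv]
      exact hst.2.2.2
    · have : (FreeGroup.lift ![A, B] (FreeGroup.mk [(1, true)])) = B := by
        simp [FreeGroup.lift_mk]
      change (FreeGroup.lift ![A, B] (FreeGroup.mk [(1, true)])).1 * _ = _
      rw [this]
      exact hst.2.2.1

/-- the trace polynomial of a vector -/
noncomputable def poly (v : V4) : MvPolynomial (Fin 3) ℤ :=
  2 * v.p + X 0 * v.q + X 1 * v.r + X 2 * v.s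

theorem trace_ev (A B : Matrix.SpecialLinearGroup (Fin 2) ℂ) (v : V4) :
    (ev A.1 B.1 (tr3 A B) v).trace = aeval (tr3 A B) (poly v) := by
  have h1 : A.1.trace = tr3 A B 0 := rfl
  have h2 : B.1.trace = tr3 A B 1 := rfl
  have h3 : (A.1 * B.1).trace = tr3 A B 2 := rfl
  simp only [ev, poly, Matrix.trace_add, Matrix.trace_smul, h1, h2, h3, Matrix.trace_one,
    Fintype.card_fin, map_add, map_mul, aeval_X, smul_eq_mul, map_ofNat]
  push_cast
  ring

theorem isTracePoly_vec (L : List (Fin 2 × Bool)) :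
    IsTracePoly (FreeGroup.mk L) (poly (vec L)) := by
  intro A B
  rw [word_ev, trace_ev]
  rfl

theorem isTracePoly_conj {v w : FreeGroup (Fin 2)} (h : IsConj v w)
    {f : MvPolynomial (Fin 3) ℤ} (hf : IsTracePoly v f) : IsTracePoly w f := by
  intro A B
  rw [← hf A B]
  obtain ⟨c, rfl⟩ := isConj_iff.1 h
  have hmul : ∀ P Q : Matrix.SpecialLinearGroup (Fin 2) ℂ, (P * Q).1 = P.1 * Q.1 :=
    fun _ _ => rfl
  rw [map_mul, map_mul, map_inv, hmul, Matrix.trace_mul_comm, ← hmul, inv_mul_cancel_left]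

theorem existsUnique (w : FreeGroup (Fin 2)) : ∃! f, IsTracePoly w f := by
  refine ⟨poly (vec w.toWord), ?_, fun g hg => unique hg ?_⟩
  · have := isTracePoly_vec w.toWord
    rwa [FreeGroup.mk_toWord] at this
  · have := isTracePoly_vec w.toWord
    rwa [FreeGroup.mk_toWord] at this

end Pool.Agent.X82.Fricke
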