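import Pool.Agent.X82.FrickeA

/-!
# Fricke trace polynomials: the upper bound for their sizes
-/

open MvPolynomial

namespace Pool.Agent.X82.Fricke

/-- coefficients at most `K`, exponents at most `D` -/
def Bd (K : ℤ) (D : ℕ) (p : MvPolynomial (Fin 3) ℤ) : Prop :=
  ∀ d, |coeff d p| ≤ K ∧ (coeff d p ≠ 0 → ∀ i, d i ≤ D)

namespace Bd

variable {K K' : ℤ} {D D' : ℕ} {p q : MvPolynomial (Fin 3) ℤ}

theorem nonneg (h : Bd K D p) : 0 ≤ K := (abs_nonneg _).trans (h 0).1

theorem mono (h : Bd K D p) (hK : K ≤ K') (hD : D ≤ D') : Bd K' D' p :=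
  fun d => ⟨(h d).1.trans hK, fun h0 i => ((h d).2 h0 i).trans hD⟩

theorem neg (h : Bd K D p) : Bd K D (-p) := by
  intro d
  rw [coeff_neg, abs_neg]
  exact ⟨(h d).1, fun h0 => (h d).2 (by simpa using h0)⟩

theorem add (h : Bd K D p) (h' : Bd K' D q) : Bd (K + K') D (p + q) := by
  intro d
  rw [coeff_add]
  refine ⟨(abs_add_le _ _).trans (add_le_add (h d).1 (h' d).1), fun h0 => ?_⟩
  by_cases h1 : coeff d p = 0
  · exact (h' d).2 (by rw [h1, zero_add] at h0; exact h0)
  · exact (h d).2 h1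

theorem sub (h : Bd K D p) (h' : Bd K' D q) : Bd (K + K') D (p - q) := by
  rw [sub_eq_add_neg]
  exact h.add h'.neg

theorem X_mul (h : Bd K D p) (i : Fin 3) : Bd K (D + 1) (X i * p) := by
  intro d
  rw [coeff_X_mul']
  split_ifs with hi
  · refine ⟨(h _).1, fun h0 j => ?_⟩
    have := (h _).2 h0 j
    rw [Finsupp.tsub_apply, Finsupp.single_apply] at this
    split_ifs at this <;> omega
  · refine ⟨by rw [abs_zero]; exact h.nonneg, fun h0 => absurd rfl h0⟩

end Bd

/-- a bounded vector -/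
def BdV (K : ℤ) (D : ℕ) (v : V4) : Prop := Bd K D v.p ∧ Bd K D v.q ∧ Bd K D v.r ∧ Bd K D v.s

theorem BdV.step {K : ℤ} {D : ℕ} {v : V4} (h : BdV K D v) (l : Fin 2 × Bool) :
    BdV (5 * K) (D + 2) (step l v) := by
  obtain ⟨hp, hq, hr, hs⟩ := h
  have hK := hp.nonneg
  have w : ∀ {p : MvPolynomial (Fin 3) ℤ}, Bd K D p → Bd K (D + 2) p :=
    fun h => h.mono le_rfl (by omega)
  have w1 : ∀ {p : MvPolynomial (Fin 3) ℤ} (i : Fin 3), Bd K D p → Bd K (D + 2) (X i * p) :=
    fun i h => (h.X_mul i).mono le_rfl (by omega)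
  have w2 : ∀ {p : MvPolynomial (Fin 3) ℤ} (i j : Fin 3), Bd K D p →
      Bd K (D + 2) (X i * (X j * p)) := fun i j h => (h.X_mul j).X_mul i
  obtain ⟨i, b⟩ := l
  fin_cases i <;> cases b
  · exact ⟨((w1 0 hp).add (w hq)).mono (by linarith) le_rfl, (w hp.neg).mono (by linarith) le_rfl,
      ((w1 0 hr).add (w hs)).mono (by linarith) le_rfl, (w hr.neg).mono (by linarith) le_rfl⟩
  · exact ⟨(w hq.neg).mono (by linarith) le_rfl, ((w hp).add (w1 0 hq)).mono (by linarith) le_rfl,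
      (w hs.neg).mono (by linarith) le_rfl, ((w hr).add (w1 0 hs)).mono (by linarith) le_rfl⟩
  · exact ⟨(((((w1 1 hp).sub (w1 2 hq)).add (w2 0 1 hq)).add (w hr)).add (w1 0 hs)).mono
        (by linarith) le_rfl, (w hs.neg).mono (by linarith) le_rfl,
      (((w hp).neg.sub (w1 0 hq)).sub (w1 2 hs)).mono (by linarith) le_rfl,
      ((w1 1 hs).add (w hq)).mono (by linarith) le_rfl⟩
  · exact ⟨((((w1 2 hq).sub (w2 0 1 hq)).sub (w hr)).sub (w1 0 hs)).mono (by linarith) le_rfl,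
      ((w1 1 hq).add (w hs)).mono (by linarith) le_rfl,
      ((((w hp).add (w1 0 hq)).add (w1 1 hr)).add (w1 2 hs)).mono (by linarith) le_rfl,
      (w hq.neg).mono (by linarith) le_rfl⟩

theorem bdV_vec (L : List (Fin 2 × Bool)) : BdV (5 ^ L.length) (2 * L.length) (vec L) := by
  induction L with
  | nil =>
    have h0 : Bd 1 0 (0 : MvPolynomial (Fin 3) ℤ) := by
      intro d
      simp
    refine ⟨?_, h0, h0, h0⟩
    intro d
    change |coeff d (1 : MvPolynomial (Fin 3) ℤ)| ≤ 1 ∧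
      (coeff d (1 : MvPolynomial (Fin 3) ℤ) ≠ 0 → ∀ i, d i ≤ 2 * 0)
    rw [MvPolynomial.coeff_one]
    split_ifs with h
    · subst h; simp
    · simp
  | cons l L ih =>
    have := ih.step l
    rw [List.length_cons, pow_succ', mul_add, mul_one]
    exact this

theorem bd_poly {K : ℤ} {D : ℕ} {v : V4} (h : BdV K D v) : Bd (5 * K) (D + 1) (poly v) := by
  obtain ⟨hp, hq, hr, hs⟩ := h
  have h1 : Bd K (D + 1) v.p := hp.mono le_rfl (by omega)
  unfold poly
  rw [two_mul]
  exact ((((h1.add h1).add (hq.X_mul 0)).add (hr.X_mul 1)).add (hs.X_mul 2)).mono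
    (by linarith) le_rfl

theorem size_le {n m : ℕ} (h : n < 2 ^ m) : n.size ≤ m := Nat.size_le.2 h

theorem bitSize_le {K : ℤ} {D m : ℕ} {f : MvPolynomial (Fin 3) ℤ} (h : Bd K D f)
    (hK : K < 2 ^ m) : bitSize f ≤ (D + 1) ^ 3 * m := by
  classical
  have hcard : f.support.card ≤ (D + 1) ^ 3 := by
    have hinj : ∀ d ∈ f.support, (fun i => (⟨min (d i) D, by omega⟩ : Fin (D + 1))) ∈
        (Finset.univ : Finset (Fin 3 → Fin (D + 1))) := fun _ _ => Finset.mem_univ _
    have := Finset.card_le_card_of_injOn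
      (fun (d : Fin 3 →₀ ℕ) => (fun i => (⟨min (d i) D, by omega⟩ : Fin (D + 1)))) hinj ?_
    · simpa using this
    · intro d hd e he hde
      ext i
      have h1 := (h d).2 (by simpa using hd) i
      have h2 := (h e).2 (by simpa using he) i
      have h3 := congrFun hde i
      simp only [Fin.mk.injEq] at h3
      omega
  have hterm : ∀ d ∈ f.support, (f.coeff d).natAbs.size ≤ m := by
    intro d _
    apply size_le
    have := (h d).1
    have h2 : ((f.coeff d).natAbs : ℤ) < 2 ^ m := by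
      rw [Int.natCast_natAbs]
      exact this.trans_lt hK
    exact_mod_cast h2
  unfold bitSize
  refine (Finset.sum_le_card_nsmul _ _ _ hterm).trans ?_
  rw [smul_eq_mul]
  exact Nat.mul_le_mul_right _ hcard

theorem upper (n : ℕ) : ∀ s ∈ sizes n, s ≤ 24 * (n + 1) ^ 4 := by
  rintro s ⟨w, f, ⟨L, -, hL, hc⟩, hf, rfl⟩
  have h1 : f = poly (vec L) := unique hf (isTracePoly_conj hc (isTracePoly_vec L))
  have h2 := bd_poly (bdV_vec L)
  rw [← h1, hL] at h2
  have h3 : (5 * 5 ^ n : ℤ) < 2 ^ (3 * (n + 1)) := by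
    rw [pow_mul, ← pow_succ']
    exact pow_lt_pow_left₀ (by norm_num) (by norm_num) (by omega)
  refine (bitSize_le h2 h3).trans (le_of_eq ?_)
  ring

end Pool.Agent.X82.Fricke
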