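import Pool.Agent.X82.FrickeA

/-!
# Fricke trace polynomials: Chebyshev coefficients and the words `a^p b^q (ab)^r`
-/

open MvPolynomial

namespace Pool.Agent.X82.Fricke

/-- Chebyshev polynomials: `A^n = σ_n(Tr A) A - σ_{n-1}(Tr A)` -/
noncomputable def sig : ℕ → Polynomial ℤ
  | 0 => 0
  | 1 => 1
  | (n + 2) => sig (n + 1) * Polynomial.X - sig n

theorem sig_deg (n : ℕ) : ∀ j, n ≤ j → (sig n).coeff j = 0 := by
  induction n using Nat.strong_induction_on with
  | _ n ih =>
    match n with
    | 0 => intro j _; simp [sig]
    | 1 => intro j hj; rw [sig, Polynomial.coeff_one, if_neg (by omega)]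
    | n + 2 =>
      intro j hj
      obtain ⟨j, rfl⟩ : ∃ i, j = i + 1 := ⟨j - 1, by omega⟩
      rw [sig, Polynomial.coeff_sub, Polynomial.coeff_mul_X, ih (n + 1) (by omega) j (by omega),
        ih n (by omega) (j + 1) (by omega), sub_zero]

theorem sig_parity (n : ℕ) : ∀ j, (n + j) % 2 = 0 → (sig n).coeff j = 0 := by
  induction n using Nat.strong_induction_on with
  | _ n ih =>
    match n with
    | 0 => intro j _; simp [sig]
    | 1 => intro j hj; rw [sig, Polynomial.coeff_one, if_neg (by omega)]
    | n + 2 =>
      intro j hj
      rw [sig, Polynomial.coeff_sub, ih n (by omega) j (by omega), sub_zero]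
      rcases Nat.eq_zero_or_pos j with rfl | hj0
      · exact Polynomial.coeff_mul_X_zero _
      · obtain ⟨j, rfl⟩ : ∃ i, j = i + 1 := ⟨j - 1, by omega⟩
        rw [Polynomial.coeff_mul_X, ih (n + 1) (by omega) j (by omega)]

theorem sig_coeff (n : ℕ) : ∀ j a, n = j + 2 * a + 1 →
    (sig n).coeff j = (-1) ^ a * ((j + a).choose a : ℤ) := by
  induction n using Nat.strong_induction_on with
  | _ n ih =>
    match n with
    | 0 => intro j a h; omega
    | 1 =>
      intro j a h
      obtain rfl : j = 0 := by omega
      obtain rfl : a = 0 := by omega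
      simp [sig]
    | n + 2 =>
      intro j a h
      rw [sig, Polynomial.coeff_sub]
      rcases Nat.eq_zero_or_pos j with rfl | hj0
      · obtain ⟨a, rfl⟩ : ∃ i, a = i + 1 := ⟨a - 1, by omega⟩
        rw [Polynomial.coeff_mul_X_zero, ih n (by omega) 0 a (by omega)]
        simp [pow_succ]
      · obtain ⟨j, rfl⟩ : ∃ i, j = i + 1 := ⟨j - 1, by omega⟩
        rw [Polynomial.coeff_mul_X, ih (n + 1) (by omega) j a (by omega)]
        rcases Nat.eq_zero_or_pos a with rfl | ha0
        · rw [sig_deg n (j + 1) (by omega)]
          simp
        · obtain ⟨a, rfl⟩ : ∃ i, a = i + 1 := ⟨a - 1, by omega⟩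
          rw [ih n (by omega) (j + 1) a (by omega)]
          have h1 : j + 1 + a = j + (a + 1) := by ring
          have h2 : j + 1 + (a + 1) = (j + (a + 1)) + 1 := by ring
          rw [h1, h2, Nat.choose_succ_succ (j + (a + 1)) a]
          push_cast
          ring

/-- the product of three univariate polynomials in the three variables -/
noncomputable def P (s t u : Polynomial ℤ) : MvPolynomial (Fin 3) ℤ :=
  Polynomial.aeval (X 0) s * Polynomial.aeval (X 1) t * Polynomial.aeval (X 2) u

theorem coeff_P (s t u : Polynomial ℤ) (d : Fin 3 →₀ ℕ) :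
    coeff d (P s t u) = s.coeff (d 0) * t.coeff (d 1) * u.coeff (d 2) := by
  unfold P
  induction s using Polynomial.induction_on' with
  | add s s' h1 h2 => rw [map_add, add_mul, add_mul, coeff_add, h1, h2, Polynomial.coeff_add]; ring
  | monomial a c =>
    induction t using Polynomial.induction_on' with
    | add t t' h1 h2 =>
      rw [map_add, mul_add, add_mul, coeff_add, h1, h2, Polynomial.coeff_add]; ring
    | monomial b c' =>
      induction u using Polynomial.induction_on' with
      | add u u' h1 h2 => rw [map_add, mul_add, coeff_add, h1, h2, Polynomial.coeff_add]; ring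
      | monomial e c'' =>
        have h : Polynomial.aeval (X 0 : MvPolynomial (Fin 3) ℤ) (Polynomial.monomial a c) *
            Polynomial.aeval (X 1 : MvPolynomial (Fin 3) ℤ) (Polynomial.monomial b c') *
            Polynomial.aeval (X 2 : MvPolynomial (Fin 3) ℤ) (Polynomial.monomial e c'') =
            monomial (Finsupp.single 0 a + Finsupp.single 1 b + Finsupp.single 2 e)
              (c * c' * c'') := by
          rw [Polynomial.aeval_monomial, Polynomial.aeval_monomial, Polynomial.aeval_monomial]
          rw [MvPolynomial.X_pow_eq_monomial, MvPolynomial.X_pow_eq_monomial,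
            MvPolynomial.X_pow_eq_monomial, MvPolynomial.algebraMap_eq,
            MvPolynomial.C_mul_monomial, MvPolynomial.C_mul_monomial,
            MvPolynomial.C_mul_monomial, MvPolynomial.monomial_mul, MvPolynomial.monomial_mul]
          simp
        rw [h, MvPolynomial.coeff_monomial, Polynomial.coeff_monomial, Polynomial.coeff_monomial,
          Polynomial.coeff_monomial]
        by_cases h0 : a = d 0
        · by_cases h1 : b = d 1
          · by_cases h2 : e = d 2
            · rw [if_pos h0, if_pos h1, if_pos h2, if_pos]
              ext i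
              fin_cases i <;> simp [h0, h1, h2]
            · rw [if_neg h2, if_neg, mul_zero]
              intro hd
              apply h2
              rw [← hd]; simp
          · rw [if_neg h1, if_neg, mul_zero, zero_mul]
            intro hd
            apply h1
            rw [← hd]; simp
        · rw [if_neg h0, if_neg, zero_mul, zero_mul]
          intro hd
          apply h0
          rw [← hd]; simp

end Pool.Agent.X82.Fricke
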