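import Pool.Agent.X82.FrickeC

/-!
# Fricke trace polynomials: the words `a^p b^q (ab)^r`
-/

open MvPolynomial

namespace Pool.Agent.X82.Fricke

theorem aeval_P (v : Fin 3 → ℂ) (s t u : Polynomial ℤ) :
    aeval v (P s t u) = Polynomial.aeval (v 0) s * Polynomial.aeval (v 1) t *
      Polynomial.aeval (v 2) u := by
  unfold P
  rw [map_mul, map_mul, ← Polynomial.aeval_algHom_apply, ← Polynomial.aeval_algHom_apply,
    ← Polynomial.aeval_algHom_apply, aeval_X, aeval_X, aeval_X]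

theorem pow_sig {E : Type*} [Ring E] [Algebra ℂ E] {A : E} {x : ℂ} (hA : A * A = x • A - 1)
    (k : ℕ) : A ^ (k + 1) = Polynomial.aeval x (sig (k + 1)) • A -
      Polynomial.aeval x (sig k) • (1 : E) := by
  induction k with
  | zero => simp [sig]
  | succ k ih =>
    rw [pow_succ, ih, sub_mul, smul_mul_assoc, hA, smul_mul_assoc, one_mul]
    rw [show sig (k + 1 + 1) = sig (k + 1) * Polynomial.X - sig k from rfl]
    rw [map_sub, map_mul, Polynomial.aeval_X]
    module

/-- the word `a^(p+1) b^(q+1) (ab)^(r+1)` -/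
def word (p q r : ℕ) : FreeGroup (Fin 2) :=
  FreeGroup.of 0 ^ (p + 1) * FreeGroup.of 1 ^ (q + 1) * (FreeGroup.of 0 * FreeGroup.of 1) ^ (r + 1)

/-- its trace polynomial -/
noncomputable def F (p q r : ℕ) : MvPolynomial (Fin 3) ℤ :=
  P (sig (p + 1)) (sig (q + 1)) (sig (r + 1) * Polynomial.X ^ 2)
  - P (sig (p + 1)) (sig (q + 1)) (sig (r + 1)) - P (sig (p + 1)) (sig (q + 1)) (sig (r + 1))
  - P (sig (p + 1)) (sig (q + 1)) (sig r * Polynomial.X)
  + P (sig (p + 1)) (sig q * Polynomial.X) (sig (r + 1))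
  + P (sig p * Polynomial.X) (sig (q + 1)) (sig (r + 1))
  - P (sig (p + 1) * Polynomial.X) (sig q) (sig (r + 1) * Polynomial.X)
  + P (sig (p + 1) * Polynomial.X) (sig q) (sig r)
  - P (sig p) (sig (q + 1) * Polynomial.X) (sig (r + 1) * Polynomial.X)
  + P (sig p) (sig (q + 1) * Polynomial.X) (sig r)
  + P (sig p) (sig q) (sig (r + 1) * Polynomial.X)
  - P (sig p) (sig q) (sig r) - P (sig p) (sig q) (sig r)

theorem isTracePoly_F (p q r : ℕ) : IsTracePoly (word p q r) (F p q r) := by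
  intro A B
  have hmul : ∀ P Q : Matrix.SpecialLinearGroup (Fin 2) ℂ, (P * Q).1 = P.1 * Q.1 :=
    fun _ _ => rfl
  have hpow : ∀ (P : Matrix.SpecialLinearGroup (Fin 2) ℂ) (n : ℕ), (P ^ n).1 = P.1 ^ n :=
    fun P n => Matrix.SpecialLinearGroup.coe_pow P n
  have hw : FreeGroup.lift ![A, B] (word p q r) = A ^ (p + 1) * B ^ (q + 1) * (A * B) ^ (r + 1) := by
    simp [word]
  have hA := sl_sq A
  have hB := sl_sq B
  have hC := sl_sq (A * B)
  have hBA := sl_comm A B
  rw [hw, hmul, hmul, hpow, hpow, hpow, pow_sig hA, pow_sig hB, pow_sig hC]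
  have e1 : (A.1 * B.1 * (A.1 * B.1)).trace = (A * B).1.trace ^ 2 - 2 := by
    have h := hC
    rw [hmul] at h
    rw [h, Matrix.trace_sub, Matrix.trace_smul, Matrix.trace_one, ← hmul]
    simp [sq]
  have e2 : (A.1 * (A.1 * B.1)).trace = A.1.trace * (A * B).1.trace - B.1.trace := by
    rw [rel_AAB hA, Matrix.trace_sub, Matrix.trace_smul, ← hmul]
    simp
  have e3 : (B.1 * (A.1 * B.1)).trace = B.1.trace * (A * B).1.trace - A.1.trace := by
    rw [rel_BAB hB hBA, Matrix.trace_sub, Matrix.trace_add, Matrix.trace_smul, Matrix.trace_smul,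
      Matrix.trace_one]
    simp
    ring
  have e4 : (1 : Matrix (Fin 2) (Fin 2) ℂ).trace = 2 := by simp
  have e5 : (A.1 * B.1).trace = (A * B).1.trace := rfl
  have e6 : (A * B).1 = A.1 * B.1 := rfl
  simp only [F, map_add, map_sub, aeval_P, map_mul, map_pow, Polynomial.aeval_X,
    Matrix.cons_val_zero, Matrix.cons_val_one, Matrix.cons_val]
  simp only [e6, sub_mul, mul_sub, smul_mul_assoc, mul_smul_comm, mul_one, one_mul,
    Matrix.trace_sub, Matrix.trace_smul, e1, e2, e3, e4, smul_eq_mul]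
  simp only [e5, e6]
  ring

end Pool.Agent.X82.Fricke
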