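import Pool.Agent.X82.FrickeB
import Pool.Agent.X82.FrickeD

/-!
# Fricke trace polynomials: the lower bound
-/

open MvPolynomial

namespace Pool.Agent.X82.Fricke

theorem coeff_F (i j k a b c : ℕ) (d : Fin 3 →₀ ℕ) (h0 : d 0 = i + 1) (h1 : d 1 = j + 1)
    (h2 : d 2 = k + 2) :
    ((i + 1 + a).choose a : ℤ) ≤
      |coeff d (F (i + 1 + 2 * a) (j + 1 + 2 * b) (k + 2 * c + 2))| := by
  have s1 : (sig (i + 1 + 2 * a + 1)).coeff (i + 1) = (-1) ^ a * ((i + 1 + a).choose a : ℤ) :=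
    sig_coeff _ _ _ (by ring)
  have s2 : (sig (i + 1 + 2 * a)).coeff i = (-1) ^ a * ((i + a).choose a : ℤ) :=
    sig_coeff _ _ _ (by ring)
  have s3 : (sig (i + 1 + 2 * a)).coeff (i + 1) = 0 := sig_parity _ _ (by omega)
  have s4 : (sig (i + 1 + 2 * a + 1)).coeff i = 0 := sig_parity _ _ (by omega)
  have t1 : (sig (j + 1 + 2 * b + 1)).coeff (j + 1) = (-1) ^ b * ((j + 1 + b).choose b : ℤ) :=
    sig_coeff _ _ _ (by ring)
  have t2 : (sig (j + 1 + 2 * b)).coeff j = (-1) ^ b * ((j + b).choose b : ℤ) :=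
    sig_coeff _ _ _ (by ring)
  have u1 : (sig (k + 2 * c + 2 + 1)).coeff (k + 2) = (-1) ^ c * ((k + 2 + c).choose c : ℤ) :=
    sig_coeff _ _ _ (by ring)
  have u2 : (sig (k + 2 * c + 2 + 1)).coeff k =
      (-1) ^ (c + 1) * ((k + (c + 1)).choose (c + 1) : ℤ) :=
    sig_coeff _ _ _ (by ring)
  have u3 : (sig (k + 2 * c + 2)).coeff (k + 1) = (-1) ^ c * ((k + 1 + c).choose c : ℤ) :=
    sig_coeff _ _ _ (by ring)
  have u4 : (sig (k + 2 * c + 2) * Polynomial.X).coeff (k + 2) =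
      (-1) ^ c * ((k + 1 + c).choose c : ℤ) := by
    rw [show k + 2 = (k + 1) + 1 from rfl, Polynomial.coeff_mul_X, u3]
  have hF : coeff d (F (i + 1 + 2 * a) (j + 1 + 2 * b) (k + 2 * c + 2)) =
      (-1) ^ (a + b + c + 1) * (((i + 1 + a).choose a : ℤ) * ((j + 1 + b).choose b : ℤ) *
        (((k + (c + 1)).choose (c + 1) : ℤ) + 2 * ((k + 2 + c).choose c : ℤ) +
          ((k + 1 + c).choose c : ℤ)) -
        ((i + 1 + a).choose a : ℤ) * ((j + b).choose b : ℤ) * ((k + 2 + c).choose c : ℤ) -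
        ((i + a).choose a : ℤ) * ((j + 1 + b).choose b : ℤ) * ((k + 2 + c).choose c : ℤ)) := by
    unfold F
    simp only [coeff_add, coeff_sub, coeff_P, h0, h1, h2, Polynomial.coeff_mul_X,
      Polynomial.coeff_mul_X_pow, s1, s2, s3, s4, t1, t2, u1, u2, u4]
    ring
  rw [hF, abs_mul, abs_pow, abs_neg, abs_one, one_pow, one_mul]
  refine le_trans ?_ (le_abs_self _)
  have p1 : (1 : ℤ) ≤ ((i + 1 + a).choose a : ℤ) := by
    exact_mod_cast Nat.choose_pos (by omega)
  have p2 : (1 : ℤ) ≤ ((j + 1 + b).choose b : ℤ) := by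
    exact_mod_cast Nat.choose_pos (by omega)
  have p3 : (1 : ℤ) ≤ ((k + (c + 1)).choose (c + 1) : ℤ) := by
    exact_mod_cast Nat.choose_pos (by omega)
  have p4 : (0 : ℤ) ≤ ((k + 1 + c).choose c : ℤ) := by positivity
  have p5 : (0 : ℤ) ≤ ((k + 2 + c).choose c : ℤ) := by positivity
  have p6 : ((j + b).choose b : ℤ) ≤ ((j + 1 + b).choose b : ℤ) := by
    exact_mod_cast Nat.choose_le_choose _ (by omega)
  have p7 : ((i + a).choose a : ℤ) ≤ ((i + 1 + a).choose a : ℤ) := by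
    exact_mod_cast Nat.choose_le_choose _ (by omega)
  have q1 : ((i + 1 + a).choose a : ℤ) * ((j + b).choose b : ℤ) * ((k + 2 + c).choose c : ℤ) ≤
      ((i + 1 + a).choose a : ℤ) * ((j + 1 + b).choose b : ℤ) * ((k + 2 + c).choose c : ℤ) :=
    mul_le_mul_of_nonneg_right (mul_le_mul_of_nonneg_left p6 (by positivity)) p5
  have q2 : ((i + a).choose a : ℤ) * ((j + 1 + b).choose b : ℤ) * ((k + 2 + c).choose c : ℤ) ≤
      ((i + 1 + a).choose a : ℤ) * ((j + 1 + b).choose b : ℤ) * ((k + 2 + c).choose c : ℤ) :=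
    mul_le_mul_of_nonneg_right (mul_le_mul_of_nonneg_right p7 (by positivity)) p5
  have q3 : ((i + 1 + a).choose a : ℤ) ≤ ((i + 1 + a).choose a : ℤ) * ((j + 1 + b).choose b : ℤ) *
      ((k + (c + 1)).choose (c + 1) : ℤ) := by
    have h3 : (1 : ℤ) ≤ ((j + 1 + b).choose b : ℤ) * ((k + (c + 1)).choose (c + 1) : ℤ) :=
      one_le_mul_of_one_le_of_one_le p2 p3
    calc ((i + 1 + a).choose a : ℤ) = ((i + 1 + a).choose a : ℤ) * 1 := by ring
      _ ≤ ((i + 1 + a).choose a : ℤ) *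
        (((j + 1 + b).choose b : ℤ) * ((k + (c + 1)).choose (c + 1) : ℤ)) :=
          mul_le_mul_of_nonneg_left h3 (by positivity)
      _ = _ := by ring
  have q4 : 0 ≤ ((i + 1 + a).choose a : ℤ) * ((j + 1 + b).choose b : ℤ) *
      ((k + 1 + c).choose c : ℤ) := by positivity
  nlinarith [q1, q2, q3, q4]

theorem choose_ge (m : ℕ) : ∀ u v : ℕ, m ≤ u → m ≤ v → 2 ^ m ≤ (u + v).choose v := by
  induction m with
  | zero => intro u v _ _; exact Nat.choose_pos (by omega)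
  | succ m ih =>
    intro u v hu hv
    obtain ⟨u, rfl⟩ : ∃ i, u = i + 1 := ⟨u - 1, by omega⟩
    obtain ⟨v, rfl⟩ : ∃ i, v = i + 1 := ⟨v - 1, by omega⟩
    have h1 := ih u v (by omega) (by omega)
    have h2 : u + 1 + (v + 1) = (u + v + 1) + 1 := by ring
    rw [h2, Nat.choose_succ_succ, pow_succ, Nat.succ_eq_add_one]
    have h3 : (u + v).choose v ≤ (u + v + 1).choose v := Nat.choose_le_choose _ (by omega)
    have h4 : (u + v).choose v ≤ (u + v + 1).choose (v + 1) := by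
      rw [Nat.choose_succ_succ]; omega
    omega

theorem bitSize_F {p q r M : ℕ} (hp : 5 * M ≤ p) (hq : 2 * M ≤ q) (hr : 2 * M ≤ r) :
    M ^ 4 ≤ bitSize (F p q r) := by
  classical
  let φ : ℕ × ℕ × ℕ → (Fin 3 →₀ ℕ) := fun x => Finsupp.single 0 (p - 2 * (M + x.1)) +
    Finsupp.single 1 (q - 2 * x.2.1) + Finsupp.single 2 (r - 2 * x.2.2)
  have φ0 : ∀ x, φ x 0 = p - 2 * (M + x.1) := fun x => by simp [φ]
  have φ1 : ∀ x, φ x 1 = q - 2 * x.2.1 := fun x => by simp [φ]
  have φ2 : ∀ x, φ x 2 = r - 2 * x.2.2 := fun x => by simp [φ]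
  let T : Finset (ℕ × ℕ × ℕ) := Finset.range M ×ˢ (Finset.range M ×ˢ Finset.range M)
  have hT : ∀ x ∈ T, x.1 < M ∧ x.2.1 < M ∧ x.2.2 < M := by
    intro x hx
    simpa [T] using hx
  have hinj : Set.InjOn φ T := by
    intro x hx y hy hxy
    obtain ⟨x1, x2, x3⟩ := hT x hx
    obtain ⟨y1, y2, y3⟩ := hT y hy
    have e0 := congrArg (fun d : Fin 3 →₀ ℕ => d 0) hxy
    have e1 := congrArg (fun d : Fin 3 →₀ ℕ => d 1) hxy
    have e2 := congrArg (fun d : Fin 3 →₀ ℕ => d 2) hxy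
    simp only [φ0, φ1, φ2] at e0 e1 e2
    ext
    · omega
    · omega
    · omega
  have hval : ∀ x ∈ T, (2 : ℤ) ^ M ≤ |coeff (φ x) (F p q r)| := by
    intro x hx
    obtain ⟨x1, x2, x3⟩ := hT x hx
    obtain ⟨i, hi⟩ : ∃ i, p = i + 1 + 2 * (M + x.1) := ⟨p - 1 - 2 * (M + x.1), by omega⟩
    obtain ⟨j, hj⟩ : ∃ j, q = j + 1 + 2 * x.2.1 := ⟨q - 1 - 2 * x.2.1, by omega⟩
    obtain ⟨k, hk⟩ : ∃ k, r = k + 2 * x.2.2 + 2 := ⟨r - 2 - 2 * x.2.2, by omega⟩
    have h := coeff_F i j k (M + x.1) x.2.1 x.2.2 (φ x) (by rw [φ0]; omega) (by rw [φ1]; omega)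
      (by rw [φ2]; omega)
    rw [← hi, ← hj, ← hk] at h
    refine le_trans ?_ h
    exact_mod_cast choose_ge M (i + 1) (M + x.1) (by omega) (by omega)
  have hsub : T.image φ ⊆ (F p q r).support := by
    intro d hd
    obtain ⟨x, hx, rfl⟩ := Finset.mem_image.1 hd
    rw [MvPolynomial.mem_support_iff]
    intro h0
    have := hval x hx
    rw [h0, abs_zero] at this
    have h2 : (0 : ℤ) < 2 ^ M := by positivity
    omega
  unfold bitSize
  calc M ^ 4 = (T.image φ).card * M := by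
        rw [Finset.card_image_of_injOn hinj]
        simp [T]
        ring
    _ ≤ ∑ d ∈ T.image φ, ((F p q r).coeff d).natAbs.size := by
        rw [← smul_eq_mul]
        apply Finset.card_nsmul_le_sum
        intro d hd
        obtain ⟨x, hx, rfl⟩ := Finset.mem_image.1 hd
        apply le_of_lt
        rw [Nat.lt_size]
        have h := hval x hx
        rw [← Int.natCast_natAbs] at h
        exact_mod_cast h
    _ ≤ _ := Finset.sum_le_sum_of_subset hsub

/-- the positive word `a^(p+1) b^(q+1) (ab)^(r+1)` as a list of letters -/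
def letters (p q r : ℕ) : List (Fin 2 × Bool) :=
  List.replicate (p + 1) (0, true) ++ List.replicate (q + 1) (1, true) ++
    (List.replicate (r + 1) [(0, true), (1, true)]).flatten

theorem mk_letters (p q r : ℕ) : FreeGroup.mk (letters p q r) = word p q r := by
  have hflat : ∀ (n : ℕ) (l : List (Fin 2 × Bool)),
      FreeGroup.mk (List.replicate n l).flatten = FreeGroup.mk l ^ n := by
    intro n l
    induction n with
    | zero => simp [FreeGroup.one_eq_mk]
    | succ n ih => rw [List.replicate_succ, List.flatten_cons, ← FreeGroup.mul_mk, ih, pow_succ']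
  have hrep : ∀ (n : ℕ) (x : Fin 2 × Bool),
      FreeGroup.mk (List.replicate n x) = FreeGroup.mk [x] ^ n := by
    intro n x
    rw [← hflat]
    congr 1
    induction n with
    | zero => simp
    | succ n ih => rw [List.replicate_succ, List.replicate_succ, List.flatten_cons, ← ih]; rfl
  unfold letters word
  rw [← FreeGroup.mul_mk, ← FreeGroup.mul_mk, hrep, hrep, hflat]
  rfl

theorem length_letters (p q r : ℕ) : (letters p q r).length = (p + 1) + (q + 1) + 2 * (r + 1) := by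
  simp [letters]
  ring

theorem cyc_of_pos {L : List (Fin 2 × Bool)} (h : ∀ x ∈ L, x.2 = true) :
    FreeGroup.IsCyclicallyReduced L := by
  rw [FreeGroup.isCyclicallyReduced_iff]
  constructor
  · unfold FreeGroup.IsReduced
    rw [List.isChain_iff_getElem]
    intro i hi _
    rw [h _ (List.getElem_mem _), h _ (List.getElem_mem _)]
  · intro a ha b hb _
    rw [h a (List.mem_of_mem_getLast? ha), h b (List.mem_of_mem_head? hb)]

theorem cycLen_word (p q r : ℕ) : CycLen (word p q r) ((p + 1) + (q + 1) + 2 * (r + 1)) := by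
  refine ⟨letters p q r, cyc_of_pos ?_, length_letters p q r, ?_⟩
  · intro x hx
    simp [letters] at hx
    rcases hx with h | h | h <;> (try rcases h with h | h) <;> simp_all
  · rw [mk_letters]

theorem lower {n : ℕ} {M : ℕ} (h : 20 * M + 4 ≤ n) : ∃ s ∈ sizes n, M ^ 4 ≤ s := by
  have hlen : (n / 4 + n % 4 - 1 + 1) + (n / 4 - 1 + 1) + 2 * (n / 4 - 1 + 1) = n := by omega
  refine ⟨_, ⟨word (n / 4 + n % 4 - 1) (n / 4 - 1) (n / 4 - 1),
    F (n / 4 + n % 4 - 1) (n / 4 - 1) (n / 4 - 1), ?_, isTracePoly_F _ _ _, rfl⟩, ?_⟩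
  · have := cycLen_word (n / 4 + n % 4 - 1) (n / 4 - 1) (n / 4 - 1)
    rwa [hlen] at this
  · exact bitSize_F (by omega) (by omega) (by omega)

theorem sizes_nonempty (n : ℕ) : (sizes n).Nonempty := by
  obtain ⟨f, hf, -⟩ := existsUnique (FreeGroup.mk (List.replicate n ((0 : Fin 2), true)))
  refine ⟨bitSize f, _, f, ⟨List.replicate n (0, true), cyc_of_pos ?_, by simp, IsConj.refl _⟩, hf,
    rfl⟩
  intro x hx
  rw [List.mem_replicate] at hx
  rw [hx.2]

theorem isGreatest (n : ℕ) : IsGreatest (sizes n) (S n) := by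
  have hb : BddAbove (sizes n) := ⟨_, fun s hs => upper n s hs⟩
  exact ⟨Nat.sSup_mem (sizes_nonempty n) hb, fun s hs => le_csSup hb hs⟩

theorem bounds (n : ℕ) (hn : 56 ≤ n) : (n : ℝ) ^ 4 / 40 ^ 4 ≤ S n ∧ (S n : ℝ) ≤ 384 * (n : ℝ) ^ 4 := by
  constructor
  · obtain ⟨s, hs, h⟩ := lower (n := n) (M := (n - 4) / 20) (by omega)
    have h1 := (isGreatest n).2 hs
    have h2 : ((((n - 4) / 20 : ℕ) : ℝ)) ^ 4 ≤ S n := by exact_mod_cast h.trans h1
    refine le_trans ?_ h2
    rw [← div_pow]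
    apply pow_le_pow_left₀ (by positivity)
    have h3 : n ≤ 40 * ((n - 4) / 20) := by omega
    have h4 : (n : ℝ) ≤ 40 * (((n - 4) / 20 : ℕ) : ℝ) := by exact_mod_cast h3
    linarith
  · have h1 := upper n _ (isGreatest n).1
    have h2 : (S n : ℝ) ≤ 24 * ((n : ℝ) + 1) ^ 4 := by exact_mod_cast h1
    have h3 : ((n : ℝ) + 1) ^ 4 ≤ (2 * (n : ℝ)) ^ 4 := by
      apply pow_le_pow_left₀ (by positivity)
      have : (56 : ℝ) ≤ n := by exact_mod_cast hn
      linarith
    refine h2.trans ?_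
    nlinarith [h3]

end Pool.Agent.X82.Fricke
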