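import Mathlib

/-!
# Proper colourings with prescribed class sizes: shifting along accessible classes

The set-up of the proof of Kierstead and Kostochka of the Hajnal-Szemerédi theorem, for
colourings whose class sizes are prescribed and not necessarily equal.
-/

set_option autoImplicit false

namespace Pool.Agent.X82.HSz

open Finset

variable {V ι : Type} [DecidableEq V] [DecidableEq ι]

/-- `f` is a proper colouring of the subgraph induced by `X` -/
def Proper (G : SimpleGraph V) (X : Finset V) (f : V → ι) : Prop :=
  ∀ x ∈ X, ∀ y ∈ X, G.Adj x y → f x ≠ f y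

/-- the colour class of `i` in `X` -/
def cls (X : Finset V) (f : V → ι) (i : ι) : Finset V := X.filter (fun x => f x = i)

/-- `x` has no neighbour of colour `j` -/
def Free (G : SimpleGraph V) (X : Finset V) (f : V → ι) (x : V) (j : ι) : Prop :=
  ∀ y ∈ X, G.Adj x y → f y ≠ j

/-- some vertex of colour `i` can be moved to colour `j` -/
def Edge (G : SimpleGraph V) (X : Finset V) (f : V → ι) (i j : ι) : Prop :=
  i ≠ j ∧ ∃ x ∈ X, f x = i ∧ Free G X f x j

/-- `i` reaches `m` by a walk outside `Z` -/
inductive Reach (E : ι → ι → Prop) (m : ι) (Z : Finset ι) : ι → Prop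
  | base : m ∉ Z → Reach E m Z m
  | step {i j : ι} : i ∉ Z → E i j → Reach E m Z j → Reach E m Z i

/-- a proper colouring of `X` by the labels in `I` with class sizes `n` -/
def Good (G : SimpleGraph V) (X : Finset V) (I : Finset ι) (n : ι → ℕ) (f : V → ι) : Prop :=
  (∀ x ∈ X, f x ∈ I) ∧ Proper G X f ∧ ∀ i ∈ I, (cls X f i).card = n i

/-- the class sizes are as prescribed except that class `p` has one vertex too many and class `m`
has one vertex too few -/
def Nearly (G : SimpleGraph V) (X : Finset V) (I : Finset ι) (n : ι → ℕ) (f : V → ι)
    (p m : ι) : Prop :=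
  (∀ x ∈ X, f x ∈ I) ∧ Proper G X f ∧ p ∈ I ∧ m ∈ I ∧ p ≠ m ∧ (cls X f p).card = n p + 1 ∧
    (cls X f m).card + 1 = n m ∧ ∀ i ∈ I, i ≠ p → i ≠ m → (cls X f i).card = n i

theorem Reach.notMem {E : ι → ι → Prop} {m : ι} {Z : Finset ι} {i : ι} (h : Reach E m Z i) :
    i ∉ Z := by
  cases h with
  | base h => exact h
  | step h _ _ => exact h

theorem Reach.mono {E : ι → ι → Prop} {m : ι} {Z Z' : Finset ι} (hZ : Z ⊆ Z') {i : ι}
    (h : Reach E m Z' i) : Reach E m Z i := by
  induction h with
  | base h => exact Reach.base (fun h' => h (hZ h'))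
  | step h1 h2 _ ih => exact Reach.step (fun h' => h1 (hZ h')) h2 ih

theorem Reach.exit {E : ι → ι → Prop} {m : ι} {Z : Finset ι} {c : ι} (h : Reach E m Z c)
    {x : ι} (hx : x ≠ m) :
    Reach E m (insert x Z) c ∨ ∃ d, E x d ∧ Reach E m (insert x Z) d := by
  induction h with
  | base h =>
    left
    refine Reach.base ?_
    rw [mem_insert, not_or]
    exact ⟨Ne.symm hx, h⟩
  | @step i j h1 h2 _ ih =>
    rcases ih with ih | ih
    · by_cases hi : i = x
      · right
        rw [hi] at h2
        exact ⟨j, h2, ih⟩
      · left
        refine Reach.step ?_ h2 ih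
        rw [mem_insert, not_or]
        exact ⟨hi, h1⟩
    · exact Or.inr ih

theorem Reach.exit_self {E : ι → ι → Prop} {m : ι} {Z : Finset ι} {x : ι} (h : Reach E m Z x)
    (hx : x ≠ m) : ∃ d, E x d ∧ Reach E m (insert x Z) d := by
  rcases h.exit hx with h1 | h1
  · exact absurd (mem_insert_self x Z) h1.notMem
  · exact h1

theorem mem_cls {X : Finset V} {f : V → ι} {i : ι} {x : V} :
    x ∈ cls X f i ↔ x ∈ X ∧ f x = i := mem_filter

theorem cls_update_new {X : Finset V} {f : V → ι} {x : V} {d : ι} (hx : x ∈ X) (hd : f x ≠ d) :
    (cls X (Function.update f x d) d).card = (cls X f d).card + 1 := by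
  have h : cls X (Function.update f x d) d = insert x (cls X f d) := by
    ext y
    rw [mem_cls, mem_insert, mem_cls]
    by_cases hy : y = x
    · subst hy
      rw [Function.update_self]
      tauto
    · rw [Function.update_of_ne hy]
      tauto
  rw [h, card_insert_of_notMem]
  rw [mem_cls]
  exact fun h' => hd h'.2

theorem cls_update_old {X : Finset V} {f : V → ι} {x : V} {d : ι} (hx : x ∈ X) (hd : f x ≠ d) :
    (cls X (Function.update f x d) (f x)).card + 1 = (cls X f (f x)).card := by
  have h : cls X (Function.update f x d) (f x) = (cls X f (f x)).erase x := by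
    ext y
    rw [mem_cls, mem_erase, mem_cls]
    by_cases hy : y = x
    · subst hy
      rw [Function.update_self]
      constructor
      · intro h
        exact absurd h.2.symm hd
      · intro h
        exact absurd rfl h.1
    · rw [Function.update_of_ne hy]
      tauto
  rw [h]
  exact card_erase_add_one (mem_cls.mpr ⟨hx, rfl⟩)

theorem cls_update_other {X : Finset V} {f : V → ι} {x : V} {d i : ι} (h1 : i ≠ d)
    (h2 : i ≠ f x) : cls X (Function.update f x d) i = cls X f i := by
  ext y
  rw [mem_cls, mem_cls]
  by_cases hy : y = x
  · subst hy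
    rw [Function.update_self]
    constructor
    · intro h
      exact absurd h.2.symm h1
    · intro h
      exact absurd h.2.symm h2
  · rw [Function.update_of_ne hy]

theorem proper_update {G : SimpleGraph V} {X : Finset V} {f : V → ι} (hf : Proper G X f)
    {x : V} {d : ι} (hd : Free G X f x d) : Proper G X (Function.update f x d) := by
  intro u hu v hv huv
  by_cases hux : u = x
  · subst hux
    have hvu : v ≠ u := fun h => G.loopless.irrefl u (h ▸ huv)
    rw [Function.update_self, Function.update_of_ne hvu]
    exact Ne.symm (hd v hv huv)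
  · by_cases hvx : v = x
    · subst hvx
      rw [Function.update_self, Function.update_of_ne hux]
      exact hd u hu huv.symm
    · rw [Function.update_of_ne hux, Function.update_of_ne hvx]
      exact hf u hu v hv huv

/-- moving a vertex of the large class -/
theorem move {G : SimpleGraph V} {X : Finset V} {I : Finset ι} {n : ι → ℕ} {f : V → ι} {p m : ι}
    (h : Nearly G X I n f p m) {x : V} (hx : x ∈ X) (hxp : f x = p) {d : ι} (hd : d ∈ I)
    (hdp : p ≠ d) (hfree : Free G X f x d) :
    (d = m ∧ Good G X I n (Function.update f x d)) ∨
      (d ≠ m ∧ Nearly G X I n (Function.update f x d) d m) := by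
  obtain ⟨h1, h2, h3, h4, h5, h6, h7, h8⟩ := h
  have hmem : ∀ y ∈ X, Function.update f x d y ∈ I := by
    intro y hy
    by_cases hyx : y = x
    · subst hyx
      rw [Function.update_self]
      exact hd
    · rw [Function.update_of_ne hyx]
      exact h1 y hy
  have hprop := proper_update h2 hfree
  have hne : f x ≠ d := by
    rw [hxp]
    exact hdp
  have hnew := cls_update_new hx hne
  have hold := cls_update_old hx hne
  rw [hxp] at hold
  by_cases hdm : d = m
  · left
    refine ⟨hdm, hmem, hprop, ?_⟩
    intro i hi
    by_cases hid : i = d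
    · rw [hid, hnew, hdm]
      exact h7
    · by_cases hip : i = p
      · rw [hip]
        omega
      · rw [cls_update_other hid (by rw [hxp]; exact hip)]
        exact h8 i hi hip (by rw [← hdm]; exact hid)
  · right
    refine ⟨hdm, hmem, hprop, hd, h4, hdm, ?_, ?_, ?_⟩
    · rw [hnew, h8 d hd (Ne.symm hdp) hdm]
    · rw [cls_update_other (Ne.symm hdm) (by rw [hxp]; exact Ne.symm h5)]
      exact h7
    · intro i hi hid him
      by_cases hip : i = p
      · rw [hip]
        omega
      · rw [cls_update_other hid (by rw [hxp]; exact hip)]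
        exact h8 i hi hip him

theorem Reach.mem {G : SimpleGraph V} {X : Finset V} {I : Finset ι} {f : V → ι} {m i : ι}
    {Z : Finset ι} (hf : ∀ x ∈ X, f x ∈ I) (hm : m ∈ I) (h : Reach (Edge G X f) m Z i) :
    i ∈ I := by
  cases h with
  | base h => exact hm
  | step _ h2 _ =>
    obtain ⟨_, x, hx, hxi, _⟩ := h2
    rw [← hxi]
    exact hf x hx

/-- If the small class can be reached from the large one, then there is a colouring with the
prescribed class sizes. -/
theorem shift {G : SimpleGraph V} {X : Finset V} {I : Finset ι} {n : ι → ℕ} (k : ℕ) :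
    ∀ (Z : Finset ι) (f : V → ι) (p m : ι), (I \ Z).card ≤ k → Nearly G X I n f p m →
      Reach (Edge G X f) m Z p → ∃ g, Good G X I n g := by
  induction k with
  | zero =>
    intro Z f p m hk h hr
    exfalso
    have h1 : p ∈ I \ Z := mem_sdiff.mpr ⟨h.2.2.1, hr.notMem⟩
    have h2 := card_pos.mpr ⟨p, h1⟩
    omega
  | succ k ih =>
    intro Z f p m hk h hr
    obtain ⟨d, ⟨hpd, x, hx, hxp, hfree⟩, hd⟩ := hr.exit_self h.2.2.2.2.1
    have hdI : d ∈ I := hd.mem h.1 h.2.2.2.1
    rcases move h hx hxp hdI hpd hfree with ⟨_, hg⟩ | ⟨hdm, hn⟩
    · exact ⟨_, hg⟩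
    · refine ih (insert p Z) _ d m ?_ hn ?_
      · have h1 : p ∈ I \ Z := mem_sdiff.mpr ⟨h.2.2.1, hr.notMem⟩
        have h2 : I \ insert p Z = (I \ Z).erase p := by
          ext i
          simp only [mem_sdiff, mem_insert, mem_erase, not_or]
          tauto
        rw [h2, card_erase_of_mem h1]
        omega
      · obtain ⟨d', ⟨hdd', y, hy, hyd, hyfree⟩, hd'⟩ := hd.exit_self hdm
        have hconv : ∀ i, Reach (Edge G X f) m (insert d (insert p Z)) i →
            Reach (Edge G X (Function.update f x d)) m (insert d (insert p Z)) i := by
          intro i hi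
          induction hi with
          | base h => exact Reach.base h
          | @step i j h1 h2 h3 ih3 =>
            refine Reach.step h1 ?_ ih3
            obtain ⟨hij, w, hw, hwi, hwfree⟩ := h2
            have hj := h3.notMem
            simp only [mem_insert, not_or] at h1 hj
            have hwx : w ≠ x := by
              intro hwx
              rw [hwx, hxp] at hwi
              exact h1.2.1 hwi.symm
            refine ⟨hij, w, hw, ?_, ?_⟩
            · rw [Function.update_of_ne hwx]
              exact hwi
            · intro v hv hwv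
              by_cases hvx : v = x
              · rw [hvx, Function.update_self]
                exact Ne.symm hj.1
              · rw [Function.update_of_ne hvx]
                exact hwfree v hv hwv
        have h3 := (hconv d' hd').mono (subset_insert d (insert p Z))
        refine Reach.step hd.notMem ?_ h3
        have hyx : y ≠ x := by
          intro hyx
          rw [hyx, hxp] at hyd
          exact hpd hyd
        refine ⟨hdd', y, hy, ?_, ?_⟩
        · rw [Function.update_of_ne hyx]
          exact hyd
        · intro v hv hyv
          by_cases hvx : v = x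
          · rw [hvx, Function.update_self]
            exact hdd'
          · rw [Function.update_of_ne hvx]
            exact hyfree v hv hyv

end Pool.Agent.X82.HSz
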