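import Pool.Agent.X82.HSz1

/-!
# Proper colourings with prescribed class sizes: the counting argument
-/

set_option autoImplicit false
set_option linter.unusedSectionVars false

namespace Pool.Agent.X82.HSz

open Finset

variable {V ι : Type} [DecidableEq V] [DecidableEq ι]

open Classical in
/-- the number of neighbours of `x` of colour `j` -/
noncomputable def nb (G : SimpleGraph V) (X : Finset V) (f : V → ι) (x : V) (j : ι) : ℕ :=
  (X.filter (fun y => G.Adj x y ∧ f y = j)).card

open Classical in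
theorem deg_split (G : SimpleGraph V) (X : Finset V) (f : V → ι) (A : Finset ι) (x : V) :
    (X.filter (fun y => G.Adj x y)).card =
      ∑ j ∈ A, nb G X f x j + ((X.filter (fun y => f y ∉ A)).filter (fun y => G.Adj x y)).card := by
  have h1 := card_filter_add_card_filter_not (s := X.filter (fun y => G.Adj x y))
    (fun y => f y ∈ A)
  have h2 : ((X.filter (fun y => G.Adj x y)).filter (fun y => f y ∈ A)).card =
      ∑ j ∈ A, nb G X f x j := by
    rw [card_eq_sum_card_fiberwise (f := f) (t := A) (by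
      intro y hy
      exact (mem_filter.mp hy).2)]
    refine sum_congr rfl (fun j hj => ?_)
    unfold nb
    congr 1
    ext y
    simp only [mem_filter]
    constructor
    · rintro ⟨⟨⟨h3, h4⟩, _⟩, h5⟩
      exact ⟨h3, h4, h5⟩
    · rintro ⟨h3, h4, h5⟩
      refine ⟨⟨⟨h3, h4⟩, ?_⟩, h5⟩
      rw [h5]
      exact hj
  have h3 : (X.filter (fun y => G.Adj x y)).filter (fun y => ¬ f y ∈ A) =
      (X.filter (fun y => f y ∉ A)).filter (fun y => G.Adj x y) := by
    ext y
    simp only [mem_filter]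
    tauto
  rw [← h1, h2, h3]

open Classical in
theorem double_count (G : SimpleGraph V) (P Q : Finset V) :
    ∑ y ∈ P, (Q.filter (fun z => G.Adj y z)).card =
      ∑ z ∈ Q, (P.filter (fun y => G.Adj z y)).card := by
  simp only [card_filter]
  rw [sum_comm]
  refine sum_congr rfl (fun z _ => sum_congr rfl (fun y _ => ?_))
  by_cases h : G.Adj y z
  · rw [if_pos h, if_pos h.symm]
  · rw [if_neg h, if_neg (fun h' => h h'.symm)]

open Classical in
/-- The counting argument: not all solo vertices can be unmovable with solo neighbourhoods that are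
cliques. -/
theorem counting (G : SimpleGraph V) (X : Finset V) (f : V → ι) (A T : Finset ι) (r s q : ℕ)
    (hTA : T ⊆ A) (hT0 : T.Nonempty) (hq : A.card + q = r + 1)
    (hdeg : ∀ x ∈ X, (X.filter (fun y => G.Adj x y)).card ≤ r)
    (hB : s * q + 1 ≤ (X.filter (fun y => f y ∉ A)).card)
    (hcls : ∀ j ∈ T, (cls X f j).card ≤ s)
    (h1 : ∀ y ∈ X, f y ∉ A → ∀ j ∈ A, 1 ≤ nb G X f y j)
    (h2 : ∀ x ∈ X, f x ∈ T → A.card ≤ ∑ j ∈ A, nb G X f x j + 1 + T.card)
    (h3 : ∀ z ∈ X, f z ∈ T → (∃ y ∈ X, f y ∉ A ∧ G.Adj z y ∧ nb G X f y (f z) = 1) →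
      A.card ≤ ∑ j ∈ A, nb G X f z j + 1)
    (h4 : ∀ z ∈ X, f z ∈ T → ∀ y ∈ X, f y ∉ A → G.Adj z y → nb G X f y (f z) = 1 →
      ∀ y' ∈ X, f y' ∉ A → G.Adj z y' → nb G X f y' (f z) = 1 → y ≠ y' → G.Adj y y') :
    False := by
  set B := X.filter (fun y => f y ∉ A) with hBdef
  have hmemB : ∀ y, y ∈ B ↔ y ∈ X ∧ f y ∉ A := fun y => mem_filter
  let Sz : V → Finset V := fun z => B.filter (fun y => G.Adj z y ∧ nb G X f y (f z) = 1)
  let Sy : V → Finset V := fun y => X.filter (fun z => f z ∈ T ∧ G.Adj z y ∧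
    nb G X f y (f z) = 1)
  have hSz : ∀ z y, y ∈ Sz z ↔ (y ∈ X ∧ f y ∉ A) ∧ G.Adj z y ∧ nb G X f y (f z) = 1 := by
    intro z y
    simp only [Sz, mem_filter, hmemB]
  have hSy : ∀ y z, z ∈ Sy y ↔ z ∈ X ∧ f z ∈ T ∧ G.Adj z y ∧ nb G X f y (f z) = 1 := by
    intro y z
    simp only [Sy, mem_filter]
  let dB : V → ℕ := fun z => (B.filter (fun y => G.Adj z y)).card
  have hsplit : ∀ x ∈ X, ∑ j ∈ A, nb G X f x j + dB x ≤ r := by
    intro x hx
    have := deg_split G X f A x
    have h5 := hdeg x hx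
    have h6 : dB x = ((X.filter (fun y => f y ∉ A)).filter (fun y => G.Adj x y)).card := rfl
    omega
  have hdz : ∀ z ∈ X, f z ∈ T → (Sz z).Nonempty → dB z ≤ q := by
    intro z hz hzT hne
    obtain ⟨y, hy⟩ := hne
    rw [hSz] at hy
    have h5 := h3 z hz hzT ⟨y, hy.1.1, hy.1.2, hy.2.1, hy.2.2⟩
    have h6 := hsplit z hz
    omega
  have hdz' : ∀ z ∈ X, f z ∈ T → dB z ≤ q + T.card := by
    intro z hz hzT
    have h5 := h2 z hz hzT
    have h6 := hsplit z hz
    omega
  -- first part
  have hqt : q + 1 ≤ T.card := by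
    by_contra hlt
    push Not at hlt
    obtain ⟨W, hW⟩ := hT0
    let S := (cls X f W).filter (fun z => (Sz z).Nonempty)
    let D := (cls X f W).filter (fun z => ¬ (Sz z).Nonempty)
    have hSD : S.card + D.card = (cls X f W).card :=
      card_filter_add_card_filter_not (s := cls X f W) (fun z => (Sz z).Nonempty)
    have hWs := hcls W hW
    have hy : ∀ y ∈ B, 2 ≤ (D.filter (fun z => G.Adj y z)).card +
        2 * (S.filter (fun z => G.Adj y z)).card := by
      intro y hy
      by_cases hne : (S.filter (fun z => G.Adj y z)).Nonempty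
      · have := card_pos.mpr hne
        omega
      · rw [not_nonempty_iff_eq_empty] at hne
        have hyB := (hmemB y).mp hy
        have h5 := h1 y hyB.1 hyB.2 W (hTA hW)
        have h6 : nb G X f y W = (D.filter (fun z => G.Adj y z)).card := by
          unfold nb
          congr 1
          ext z
          simp only [mem_filter, D, mem_cls]
          constructor
          · rintro ⟨h7, h8, h9⟩
            refine ⟨⟨⟨h7, h9⟩, ?_⟩, h8⟩
            intro h10
            have h11 : z ∈ S.filter (fun z => G.Adj y z) :=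
              mem_filter.mpr ⟨mem_filter.mpr ⟨mem_cls.mpr ⟨h7, h9⟩, h10⟩, h8⟩
            rw [hne] at h11
            exact absurd h11 (notMem_empty z)
          · rintro ⟨⟨⟨h7, h9⟩, _⟩, h8⟩
            exact ⟨h7, h8, h9⟩
        by_cases h7 : nb G X f y W = 1
        · exfalso
          have h8 : 0 < (D.filter (fun z => G.Adj y z)).card := by omega
          obtain ⟨z, hz⟩ := card_pos.mp h8
          have hz1 := mem_filter.mp hz
          have hz2 := mem_filter.mp hz1.1
          refine hz2.2 ⟨y, (hSz z y).mpr ⟨hyB, hz1.2.symm, ?_⟩⟩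
          rw [(mem_cls.mp hz2.1).2]
          exact h7
        · omega
    have hsum : 2 * B.card ≤ ∑ z ∈ D, dB z + 2 * ∑ z ∈ S, dB z := by
      calc 2 * B.card = ∑ y ∈ B, 2 := by rw [sum_const, smul_eq_mul, mul_comm]
        _ ≤ ∑ y ∈ B, ((D.filter (fun z => G.Adj y z)).card +
              2 * (S.filter (fun z => G.Adj y z)).card) := sum_le_sum hy
        _ = ∑ y ∈ B, (D.filter (fun z => G.Adj y z)).card +
              2 * ∑ y ∈ B, (S.filter (fun z => G.Adj y z)).card := by
            rw [sum_add_distrib, mul_sum]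
        _ = ∑ z ∈ D, dB z + 2 * ∑ z ∈ S, dB z := by
            rw [double_count G B D, double_count G B S]
    have hD : ∑ z ∈ D, dB z ≤ D.card * (q + T.card) := by
      rw [← smul_eq_mul]
      refine sum_le_card_nsmul _ _ _ (fun z hz => ?_)
      have hz1 := mem_cls.mp (mem_filter.mp hz).1
      exact hdz' z hz1.1 (by rw [hz1.2]; exact hW)
    have hS : ∑ z ∈ S, dB z ≤ S.card * q := by
      rw [← smul_eq_mul]
      refine sum_le_card_nsmul _ _ _ (fun z hz => ?_)
      have hz1 := mem_cls.mp (mem_filter.mp hz).1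
      exact hdz z hz1.1 (by rw [hz1.2]; exact hW) (mem_filter.mp hz).2
    have h5 : D.card * (q + T.card) ≤ D.card * (2 * q) := Nat.mul_le_mul_left _ (by omega)
    have h6 : (S.card + D.card) * (2 * q) ≤ s * (2 * q) :=
      Nat.mul_le_mul_right _ (by omega)
    nlinarith
  -- second part
  have hSycard : ∀ y ∈ B, T.card + 1 + dB y ≤ (Sy y).card + q := by
    intro y hy
    have hyB := (hmemB y).mp hy
    have h5 : ∀ j ∈ T, 2 ≤ nb G X f y j + ((Sy y).filter (fun z => f z = j)).card := by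
      intro j hj
      have h6 := h1 y hyB.1 hyB.2 j (hTA hj)
      by_cases h7 : nb G X f y j = 1
      · have h8 : ((Sy y).filter (fun z => f z = j)).card = nb G X f y j := by
          unfold nb
          congr 1
          ext z
          simp only [mem_filter, hSy]
          constructor
          · rintro ⟨⟨h9, _, h10, _⟩, h11⟩
            exact ⟨h9, h10.symm, h11⟩
          · rintro ⟨h9, h10, h11⟩
            refine ⟨⟨h9, ?_, h10.symm, ?_⟩, h11⟩
            · rw [h11]
              exact hj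
            · rw [h11]
              exact h7
        omega
      · omega
    have h6 : (Sy y).card = ∑ j ∈ T, ((Sy y).filter (fun z => f z = j)).card :=
      card_eq_sum_card_fiberwise (fun z hz => ((hSy y z).mp hz).2.1)
    have h7 : 2 * T.card ≤ ∑ j ∈ T, nb G X f y j + (Sy y).card := by
      rw [h6, ← sum_add_distrib]
      calc 2 * T.card = ∑ j ∈ T, 2 := by rw [sum_const, smul_eq_mul, mul_comm]
        _ ≤ _ := sum_le_sum h5
    have h8 : (A \ T).card ≤ ∑ j ∈ A \ T, nb G X f y j := by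
      calc (A \ T).card = ∑ j ∈ A \ T, 1 := by rw [sum_const, smul_eq_mul, mul_one]
        _ ≤ _ := sum_le_sum (fun j hj => h1 y hyB.1 hyB.2 j (mem_sdiff.mp hj).1)
    have h9 := sum_sdiff (f := fun j => nb G X f y j) hTA
    have h10 := card_sdiff_add_card_eq_card hTA
    have h11 := hsplit y hyB.1
    omega
  -- third part
  let w : V → ℚ := fun z => (q : ℚ) / ((Sz z).card : ℚ)
  have hswap : ∑ y ∈ B, ∑ z ∈ Sy y, w z =
      ∑ z ∈ X.filter (fun z => f z ∈ T), ∑ y ∈ Sz z, w z := by
    refine sum_comm' ?_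
    intro y z
    have h5 : z ∈ X.filter (fun z => f z ∈ T) ↔ z ∈ X ∧ f z ∈ T := mem_filter
    rw [hSy, hSz, hmemB, h5]
    tauto
  have hup : ∑ z ∈ X.filter (fun z => f z ∈ T), ∑ y ∈ Sz z, w z ≤ (q : ℚ) * (T.card * s) := by
    have h5 : ∀ z ∈ X.filter (fun z => f z ∈ T), ∑ y ∈ Sz z, w z ≤ (q : ℚ) := by
      intro z _
      rw [sum_const, nsmul_eq_mul]
      simp only [w]
      by_cases h6 : (Sz z).card = 0
      · rw [h6]
        simp
      · rw [mul_div_cancel₀]
        exact_mod_cast h6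
    have h6 : (X.filter (fun z => f z ∈ T)).card ≤ T.card * s := by
      have h7 : (X.filter (fun z => f z ∈ T)).card =
          ∑ j ∈ T, ((X.filter (fun z => f z ∈ T)).filter (fun z => f z = j)).card :=
        card_eq_sum_card_fiberwise (fun z hz => (mem_filter.mp hz).2)
      rw [h7, ← smul_eq_mul]
      refine sum_le_card_nsmul _ _ _ (fun j hj => ?_)
      refine le_trans (card_le_card ?_) (hcls j hj)
      intro z hz
      rw [mem_filter, mem_filter] at hz
      exact mem_cls.mpr ⟨hz.1.1, hz.2⟩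
    calc _ ≤ ∑ _z ∈ X.filter (fun z => f z ∈ T), (q : ℚ) := sum_le_sum h5
      _ = ((X.filter (fun z => f z ∈ T)).card : ℚ) * q := by rw [sum_const, nsmul_eq_mul]
      _ ≤ ((T.card * s : ℕ) : ℚ) * q :=
          mul_le_mul_of_nonneg_right (by exact_mod_cast h6) (Nat.cast_nonneg _)
      _ = (q : ℚ) * (T.card * s) := by
          push_cast
          ring
  have hlow : ∀ y ∈ B, (T.card : ℚ) ≤ ∑ z ∈ Sy y, w z := by
    intro y hy
    have h5 := hSycard y hy
    have hyB := (hmemB y).mp hy
    have hne : (Sy y).Nonempty := by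
      rw [← card_pos]
      omega
    obtain ⟨z0, hz0, hmax⟩ := exists_max_image (Sy y) (fun z => (Sz z).card) hne
    have hz0' := (hSy y z0).mp hz0
    have hyz0 : y ∈ Sz z0 := (hSz z0 y).mpr ⟨hyB, hz0'.2.2.1, hz0'.2.2.2⟩
    set c := (Sz z0).card with hc
    have hc1 : 1 ≤ c := card_pos.mpr ⟨y, hyz0⟩
    have hcq : c ≤ q := by
      refine le_trans (card_le_card ?_) (hdz z0 hz0'.1 hz0'.2.1 ⟨y, hyz0⟩)
      intro u hu
      have hu' := (hSz z0 u).mp hu
      exact mem_filter.mpr ⟨(hmemB u).mpr hu'.1, hu'.2.1⟩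
    have hcd : c ≤ dB y + 1 := by
      have h6 : ((Sz z0).erase y).card ≤ dB y := by
        refine card_le_card ?_
        intro u hu
        have hu1 := mem_erase.mp hu
        have hu' := (hSz z0 u).mp hu1.2
        refine mem_filter.mpr ⟨(hmemB u).mpr hu'.1, ?_⟩
        exact h4 z0 hz0'.1 hz0'.2.1 y hyB.1 hyB.2 hz0'.2.2.1 hz0'.2.2.2 u hu'.1.1 hu'.1.2
          hu'.2.1 hu'.2.2 (Ne.symm hu1.1)
      rw [card_erase_of_mem hyz0] at h6
      omega
    have hSyc : T.card + c ≤ (Sy y).card + q := by omega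
    have hc0 : (0 : ℚ) < (c : ℚ) := by exact_mod_cast hc1
    have hw : ∀ z ∈ Sy y, (q : ℚ) / (c : ℚ) ≤ w z := by
      intro z hz
      have hz' := (hSy y z).mp hz
      have hyz : y ∈ Sz z := (hSz z y).mpr ⟨hyB, hz'.2.2.1, hz'.2.2.2⟩
      have h6 : 0 < (Sz z).card := card_pos.mpr ⟨y, hyz⟩
      have h7 : (Sz z).card ≤ c := hmax z hz
      exact div_le_div_of_nonneg_left (Nat.cast_nonneg _) (by exact_mod_cast h6)
        (by exact_mod_cast h7)
    have h8 : ((Sy y).card : ℚ) * ((q : ℚ) / (c : ℚ)) ≤ ∑ z ∈ Sy y, w z := by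
      rw [← nsmul_eq_mul]
      exact card_nsmul_le_sum _ _ _ hw
    refine le_trans ?_ h8
    rw [mul_div_assoc', le_div_iff₀ hc0]
    have h9 : (T.card : ℚ) + c ≤ (Sy y).card + q := by exact_mod_cast hSyc
    have h10 : (c : ℚ) ≤ q := by exact_mod_cast hcq
    have h11 : (q : ℚ) + 1 ≤ T.card := by exact_mod_cast hqt
    have h12 : (0 : ℚ) ≤ q := Nat.cast_nonneg _
    nlinarith
  have hfin : (B.card : ℚ) * T.card ≤ (q : ℚ) * (T.card * s) := by
    calc (B.card : ℚ) * T.card = ∑ _y ∈ B, (T.card : ℚ) := by rw [sum_const, nsmul_eq_mul]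
      _ ≤ ∑ y ∈ B, ∑ z ∈ Sy y, w z := sum_le_sum hlow
      _ ≤ _ := by rw [hswap]; exact hup
  have hB' : (s : ℚ) * q + 1 ≤ B.card := by exact_mod_cast hB
  have hT' : (0 : ℚ) < T.card := by exact_mod_cast card_pos.mpr hT0
  nlinarith

end Pool.Agent.X82.HSz
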