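import Pool.Agent.X82.HSz2

/-!
# Proper colourings with prescribed class sizes: terminal classes and the two cases
-/

set_option autoImplicit false
set_option linter.unusedSectionVars false

namespace Pool.Agent.X82.HSz

open Finset

variable {V ι : Type} [DecidableEq V] [DecidableEq ι]

theorem Reach.target {E : ι → ι → Prop} {m : ι} {Z : Finset ι} {i : ι} (h : Reach E m Z i) :
    m ∉ Z := by
  induction h with
  | base h => exact h
  | step _ _ _ ih => exact ih

open Classical in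
/-- the accessible labels -/
noncomputable def acc (G : SimpleGraph V) (X : Finset V) (I : Finset ι) (f : V → ι) (m : ι) :
    Finset ι := I.filter (fun i => Reach (Edge G X f) m ∅ i)

theorem mem_acc {G : SimpleGraph V} {X : Finset V} {I : Finset ι} {f : V → ι} {m i : ι} :
    i ∈ acc G X I f m ↔ i ∈ I ∧ Reach (Edge G X f) m ∅ i := by
  classical
  exact mem_filter

open Classical in
theorem terminal_choice (G : SimpleGraph V) (X : Finset V) (f : V → ι) (A : Finset ι) (m : ι)
    (hA : ∀ i ∈ A, Reach (Edge G X f) m ∅ i) (hm : m ∈ A) (h2 : 2 ≤ A.card) :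
    ∃ T ⊆ A, T.Nonempty ∧ m ∉ T ∧ (∀ W ∈ T, ∀ i ∈ A, i ≠ W → Reach (Edge G X f) m {W} i) ∧
      ∃ U ∈ A, ∀ x ∈ X, f x ∈ T → ∀ j ∈ A, j ≠ U → j ∉ T → ¬ Free G X f x j := by
  let TU : ι → Finset ι := fun U => (A.erase U).filter (fun i => ¬ Reach (Edge G X f) m {U} i)
  have hTU : ∀ U i, i ∈ TU U ↔ (i ≠ U ∧ i ∈ A) ∧ ¬ Reach (Edge G X f) m {U} i := by
    intro U i
    simp only [TU, mem_filter, mem_erase]
  have hne : (A.filter (fun U => (TU U).Nonempty)).Nonempty := by
    refine ⟨m, mem_filter.mpr ⟨hm, ?_⟩⟩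
    have h3 : 0 < (A.erase m).card := by
      rw [card_erase_of_mem hm]
      omega
    obtain ⟨i, hi⟩ := card_pos.mp h3
    have hi' := mem_erase.mp hi
    exact ⟨i, (hTU m i).mpr ⟨hi', fun h => h.target (mem_singleton_self m)⟩⟩
  obtain ⟨U, hU, hmin⟩ := exists_min_image _ (fun U => (TU U).card) hne
  have hUA := (mem_filter.mp hU).1
  have hUne := (mem_filter.mp hU).2
  have hTm : ∀ W ∈ TU U, m ≠ W := by
    intro W hW hmW
    have hW' := (hTU U W).mp hW
    apply hW'.2
    rw [← hmW]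
    refine Reach.base ?_
    rw [mem_singleton, hmW]
    exact hW'.1.1
  have ha : ∀ W ∈ TU U, ∀ i, Reach (Edge G X f) m {U} i → Reach (Edge G X f) m {W} i := by
    intro W hW i hi
    have hW' := (hTU U W).mp hW
    induction hi with
    | base h =>
      refine Reach.base ?_
      rw [mem_singleton]
      exact hTm W hW
    | @step i j h3 h4 h5 ih =>
      refine Reach.step ?_ h4 ih
      rw [mem_singleton]
      intro hiW
      apply hW'.2
      rw [← hiW]
      exact Reach.step h3 h4 h5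
  have hb : ∀ W ∈ TU U, Reach (Edge G X f) m {W} U := by
    intro W hW
    have hW' := (hTU U W).mp hW
    by_cases hUm : U = m
    · rw [hUm]
      refine Reach.base ?_
      rw [mem_singleton]
      exact hTm W hW
    · obtain ⟨d, hd1, hd2⟩ := (hA U hUA).exit_self hUm
      refine Reach.step ?_ hd1 (ha W hW d hd2)
      rw [mem_singleton]
      exact Ne.symm hW'.1.1
  refine ⟨TU U, fun i hi => ((hTU U i).mp hi).1.2, hUne, fun h => hTm m h rfl, ?_, U, hUA, ?_⟩
  · intro W hW i hi hiW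
    by_contra hcon
    have hW' := (hTU U W).mp hW
    have h3 : W ∈ A.filter (fun U => (TU U).Nonempty) :=
      mem_filter.mpr ⟨hW'.1.2, i, (hTU W i).mpr ⟨⟨hiW, hi⟩, hcon⟩⟩
    have h4 : (TU U).card ≤ (TU W).card := hmin W h3
    have h5 : TU W ⊆ (TU U).erase W := by
      intro j hj
      have hj' := (hTU W j).mp hj
      refine mem_erase.mpr ⟨hj'.1.1, (hTU U j).mpr ⟨⟨?_, hj'.1.2⟩, ?_⟩⟩
      · intro hjU
        rw [hjU] at hj'
        exact hj'.2 (hb W hW)
      · intro hr
        exact hj'.2 (ha W hW j hr)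
    have h6 := card_le_card h5
    rw [card_erase_of_mem hW] at h6
    have h7 := card_pos.mpr ⟨W, hW⟩
    omega
  · intro x hx hxT j hj hjU hjT hfree
    have hx' := (hTU U (f x)).mp hxT
    have hjR : Reach (Edge G X f) m {U} j := by
      by_contra hcon
      exact hjT ((hTU U j).mpr ⟨⟨hjU, hj⟩, hcon⟩)
    apply hx'.2
    refine Reach.step ?_ ⟨?_, x, hx, rfl, hfree⟩ hjR
    · rw [mem_singleton]
      exact hx'.1.1
    · intro h
      rw [h] at hxT
      exact hjT hxT

theorem free_iff (G : SimpleGraph V) (X : Finset V) (f : V → ι) (x : V) (j : ι) :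
    ¬ Free G X f x j ↔ 1 ≤ nb G X f x j := by
  classical
  unfold nb Free
  constructor
  · intro h
    push Not at h
    obtain ⟨y, hy, h1, h2⟩ := h
    exact card_pos.mpr ⟨y, mem_filter.mpr ⟨hy, h1, h2⟩⟩
  · intro h hcon
    obtain ⟨y, hy⟩ := card_pos.mp h
    have hy' := mem_filter.mp hy
    exact hcon y hy'.1 hy'.2.1 hy'.2.2

theorem solo_unique (G : SimpleGraph V) (X : Finset V) (f : V → ι) {y z : V} (hz : z ∈ X)
    (hyz : G.Adj z y) (h : nb G X f y (f z) = 1) :
    ∀ w ∈ X, G.Adj y w → f w = f z → w = z := by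
  classical
  intro w hw hyw hfw
  unfold nb at h
  obtain ⟨a, ha⟩ := card_eq_one.mp h
  have h1 : z ∈ X.filter (fun v => G.Adj y v ∧ f v = f z) := mem_filter.mpr ⟨hz, hyz.symm, rfl⟩
  have h2 : w ∈ X.filter (fun v => G.Adj y v ∧ f v = f z) := mem_filter.mpr ⟨hw, hyw, hfw⟩
  rw [ha, mem_singleton] at h1 h2
  rw [h1, h2]

/-- combining colourings of two disjoint parts with disjoint label sets -/
theorem combine {G : SimpleGraph V} {X X1 X2 : Finset V} {I I1 I2 : Finset ι} {n : ι → ℕ}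
    {g1 g2 : V → ι} (h1 : Good G X1 I1 n g1) (h2 : Good G X2 I2 n g2)
    (hX : ∀ x, x ∈ X ↔ x ∈ X1 ∨ x ∈ X2) (hXd : ∀ x ∈ X1, x ∉ X2)
    (hI : ∀ i, i ∈ I ↔ i ∈ I1 ∨ i ∈ I2) (hId : ∀ i ∈ I1, i ∉ I2) :
    ∃ g, Good G X I n g := by
  classical
  obtain ⟨h, hh1, hh2⟩ : ∃ h : V → ι, (∀ x ∈ X1, h x = g1 x) ∧ ∀ x, x ∉ X1 → h x = g2 x :=
    ⟨fun x => if x ∈ X1 then g1 x else g2 x, fun x hx => if_pos hx, fun x hx => if_neg hx⟩
  refine ⟨h, ?_, ?_, ?_⟩
  · intro x hx
    rw [hI]
    by_cases hx1 : x ∈ X1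
    · rw [hh1 x hx1]
      exact Or.inl (h1.1 x hx1)
    · rw [hh2 x hx1]
      exact Or.inr (h2.1 x (((hX x).mp hx).resolve_left hx1))
  · intro x hx y hy hxy
    by_cases hx1 : x ∈ X1
    · by_cases hy1 : y ∈ X1
      · rw [hh1 x hx1, hh1 y hy1]
        exact h1.2.1 x hx1 y hy1 hxy
      · rw [hh1 x hx1, hh2 y hy1]
        intro heq
        have h3 := h2.1 y (((hX y).mp hy).resolve_left hy1)
        rw [← heq] at h3
        exact hId _ (h1.1 x hx1) h3
    · by_cases hy1 : y ∈ X1
      · rw [hh2 x hx1, hh1 y hy1]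
        intro heq
        have h3 := h2.1 x (((hX x).mp hx).resolve_left hx1)
        rw [heq] at h3
        exact hId _ (h1.1 y hy1) h3
      · rw [hh2 x hx1, hh2 y hy1]
        exact h2.2.1 x (((hX x).mp hx).resolve_left hx1) y (((hX y).mp hy).resolve_left hy1) hxy
  · intro i hi
    rcases (hI i).mp hi with hi1 | hi2
    · rw [← h1.2.2 i hi1]
      congr 1
      ext x
      rw [mem_cls, mem_cls, hX]
      constructor
      · rintro ⟨h3, h4⟩
        by_cases hx1 : x ∈ X1
        · rw [hh1 x hx1] at h4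
          exact ⟨hx1, h4⟩
        · rw [hh2 x hx1] at h4
          have h5 := h2.1 x (h3.resolve_left hx1)
          rw [h4] at h5
          exact absurd h5 (hId i hi1)
      · rintro ⟨h3, h4⟩
        rw [hh1 x h3]
        exact ⟨Or.inl h3, h4⟩
    · have hi1 : i ∉ I1 := fun h => hId i h hi2
      rw [← h2.2.2 i hi2]
      congr 1
      ext x
      rw [mem_cls, mem_cls, hX]
      constructor
      · rintro ⟨h3, h4⟩
        by_cases hx1 : x ∈ X1
        · rw [hh1 x hx1] at h4
          rw [← h4] at hi1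
          exact absurd (h1.1 x hx1) hi1
        · rw [hh2 x hx1] at h4
          exact ⟨h3.resolve_left hx1, h4⟩
      · rintro ⟨h3, h4⟩
        have hx1 : x ∉ X1 := fun h => hXd x h h3
        rw [hh2 x hx1]
        exact ⟨Or.inr h3, h4⟩

end Pool.Agent.X82.HSz
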