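import Pool.Agent.X82.HSz3

/-!
# Proper colourings with prescribed class sizes: the two cases of the induction step
-/

set_option autoImplicit false
set_option linter.unusedSectionVars false

namespace Pool.Agent.X82.HSz

open Finset

variable {V ι : Type} [DecidableEq V] [DecidableEq ι]

/-- The solo vertex `z` can be moved inside the accessible part. -/
theorem case_one {G : SimpleGraph V} {X : Finset V} {I : Finset ι} {n : ι → ℕ} {f : V → ι}
    {p m : ι} (h : Nearly G X I n f p m) (A : Finset ι) (hAI : A ⊆ I)
    (hacc : ∀ i, Reach (Edge G X f) m ∅ i → i ∈ A) (hp : p ∉ A) (hm : m ∈ A)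
    {z : V} (hz : z ∈ X) (hzA : f z ∈ A)
    (hterm : ∀ i ∈ A, i ≠ f z → Reach (Edge G X f) m {f z} i) (hzm : f z ≠ m)
    {y : V} (hy : y ∈ X) (hyA : f y ∉ A)
    (hsolo : ∀ w ∈ X, G.Adj y w → f w = f z → w = z)
    {j : ι} (hj : j ∈ A) (hjz : j ≠ f z) (hfree : Free G X f z j) :
    ∃ g, Good G (insert y (X.filter (fun x => f x ∈ A))) A n g := by
  classical
  obtain ⟨h1, h2, h3, h4, h5, h6, h7, h8⟩ := h
  have hzy : z ≠ y := by
    intro heq
    rw [heq] at hzA
    exact hyA hzA
  obtain ⟨φ, hφz, hφy, hφ⟩ : ∃ φ : V → ι, φ z = j ∧ φ y = f z ∧ ∀ x, x ≠ z → x ≠ y → φ x = f x := by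
    refine ⟨Function.update (Function.update f z j) y (f z), ?_, ?_, ?_⟩
    · rw [Function.update_of_ne hzy, Function.update_self]
    · rw [Function.update_self]
    · intro x hx1 hx2
      rw [Function.update_of_ne hx2, Function.update_of_ne hx1]
  set XA := insert y (X.filter (fun x => f x ∈ A)) with hXA
  have hmemXA : ∀ x, x ∈ XA ↔ x = y ∨ (x ∈ X ∧ f x ∈ A) := by
    intro x
    rw [hXA, mem_insert, mem_filter]
  have hsub : ∀ x ∈ XA, x ∈ X := by
    intro x hx
    rcases (hmemXA x).mp hx with rfl | hx
    · exact hy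
    · exact hx.1
  have hφA : ∀ x ∈ XA, φ x ∈ A := by
    intro x hx
    rcases (hmemXA x).mp hx with rfl | hx
    · rw [hφy]
      exact hzA
    · by_cases hxz : x = z
      · rw [hxz, hφz]
        exact hj
      · have hxy : x ≠ y := by
          intro heq
          rw [heq] at hx
          exact hyA hx.2
        rw [hφ x hxz hxy]
        exact hx.2
  -- properness: first the pairs with a special first vertex
  have hPz : ∀ x ∈ XA, G.Adj z x → φ z ≠ φ x := by
    intro x hx hzx
    have hxz : x ≠ z := fun heq => G.loopless.irrefl z (by rw [heq] at hzx; exact hzx)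
    by_cases hxy : x = y
    · rw [hxy, hφz, hφy]
      exact hjz
    · rw [hφz, hφ x hxz hxy]
      exact Ne.symm (hfree x (hsub x hx) hzx)
  have hPy : ∀ x ∈ XA, G.Adj y x → φ y ≠ φ x := by
    intro x hx hyx
    have hxy : x ≠ y := fun heq => G.loopless.irrefl y (by rw [heq] at hyx; exact hyx)
    by_cases hxz : x = z
    · rw [hxz, hφz, hφy]
      exact Ne.symm hjz
    · rw [hφy, hφ x hxz hxy]
      intro heq
      exact hxz (hsolo x (hsub x hx) hyx heq.symm)
  have hprop : Proper G XA φ := by
    intro u hu v hv huv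
    by_cases huz : u = z
    · rw [huz] at huv ⊢
      exact hPz v hv huv
    · by_cases huy : u = y
      · rw [huy] at huv ⊢
        exact hPy v hv huv
      · by_cases hvz : v = z
        · rw [hvz] at huv ⊢
          exact Ne.symm (hPz u hu huv.symm)
        · by_cases hvy : v = y
          · rw [hvy] at huv ⊢
            exact Ne.symm (hPy u hu huv.symm)
          · rw [hφ u huz huy, hφ v hvz hvy]
            exact h2 u (hsub u hu) v (hsub v hv) huv
  -- class sizes
  have hcW : (cls XA φ (f z)).card = (cls X f (f z)).card := by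
    have h9 : cls XA φ (f z) = insert y ((cls X f (f z)).erase z) := by
      ext x
      rw [mem_cls, hmemXA, mem_insert, mem_erase, mem_cls]
      constructor
      · rintro ⟨h10, h11⟩
        by_cases hxy : x = y
        · exact Or.inl hxy
        · right
          have hxz : x ≠ z := by
            intro heq
            rw [heq, hφz] at h11
            exact hjz h11
          rw [hφ x hxz hxy] at h11
          exact ⟨hxz, (h10.resolve_left hxy).1, h11⟩
      · rintro (rfl | ⟨h10, h11, h12⟩)
        · exact ⟨Or.inl rfl, hφy⟩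
        · have hxy : x ≠ y := by
            intro heq
            rw [heq] at h12
            rw [h12] at hyA
            exact hyA hzA
          rw [hφ x h10 hxy, h12]
          exact ⟨Or.inr ⟨h11, hzA⟩, rfl⟩
    rw [h9, card_insert_of_notMem, card_erase_add_one (mem_cls.mpr ⟨hz, rfl⟩)]
    intro h10
    have h11 := (mem_cls.mp (mem_erase.mp h10).2).2
    rw [h11] at hyA
    exact hyA hzA
  have hcj : (cls XA φ j).card = (cls X f j).card + 1 := by
    have h9 : cls XA φ j = insert z (cls X f j) := by
      ext x
      rw [mem_cls, hmemXA, mem_insert, mem_cls]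
      constructor
      · rintro ⟨h10, h11⟩
        by_cases hxz : x = z
        · exact Or.inl hxz
        · right
          have hxy : x ≠ y := by
            intro heq
            rw [heq, hφy] at h11
            exact hjz h11.symm
          rw [hφ x hxz hxy] at h11
          exact ⟨(h10.resolve_left hxy).1, h11⟩
      · rintro (rfl | ⟨h11, h12⟩)
        · exact ⟨Or.inr ⟨hz, hzA⟩, hφz⟩
        · have hxy : x ≠ y := by
            intro heq
            rw [heq] at h12
            rw [h12] at hyA
            exact hyA hj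
          have hxz : x ≠ z := by
            intro heq
            rw [heq] at h12
            exact hjz h12.symm
          rw [hφ x hxz hxy, h12]
          exact ⟨Or.inr ⟨h11, hj⟩, rfl⟩
    rw [h9, card_insert_of_notMem]
    intro h10
    exact hjz (mem_cls.mp h10).2.symm
  have hco : ∀ i ∈ A, i ≠ f z → i ≠ j → (cls XA φ i).card = (cls X f i).card := by
    intro i hi hiz hij
    congr 1
    ext x
    rw [mem_cls, hmemXA, mem_cls]
    constructor
    · rintro ⟨h10, h11⟩
      have hxz : x ≠ z := by
        intro heq
        rw [heq, hφz] at h11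
        exact hij h11.symm
      have hxy : x ≠ y := by
        intro heq
        rw [heq, hφy] at h11
        exact hiz h11.symm
      rw [hφ x hxz hxy] at h11
      exact ⟨(h10.resolve_left hxy).1, h11⟩
    · rintro ⟨h11, h12⟩
      have hxz : x ≠ z := by
        intro heq
        rw [heq] at h12
        exact hiz h12.symm
      have hxy : x ≠ y := by
        intro heq
        rw [heq] at h12
        rw [h12] at hyA
        exact hyA hi
      rw [hφ x hxz hxy, h12]
      exact ⟨Or.inr ⟨h11, hi⟩, rfl⟩
  have hW : (cls X f (f z)).card = n (f z) :=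
    h8 (f z) (hAI hzA) (fun heq => hp (by rw [← heq]; exact hzA)) hzm
  by_cases hjm : j = m
  · refine ⟨φ, hφA, hprop, ?_⟩
    intro i hi
    by_cases hiz : i = f z
    · rw [hiz, hcW, hW]
    · by_cases hij : i = j
      · rw [hij, hcj, hjm]
        exact h7
      · rw [hco i hi hiz hij]
        exact h8 i (hAI hi) (fun heq => hp (by rw [← heq]; exact hi))
          (fun heq => hij (by rw [heq, hjm]))
  · have hnear : Nearly G XA A n φ j m := by
      refine ⟨hφA, hprop, hj, hm, hjm, ?_, ?_, ?_⟩
      · rw [hcj, h8 j (hAI hj) (fun heq => hp (by rw [← heq]; exact hj)) hjm]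
      · rw [hco m hm (Ne.symm hzm) (Ne.symm hjm)]
        exact h7
      · intro i hi hij him
        by_cases hiz : i = f z
        · rw [hiz, hcW, hW]
        · rw [hco i hi hiz hij]
          exact h8 i (hAI hi) (fun heq => hp (by rw [← heq]; exact hi)) him
    refine shift A.card ∅ φ j m (card_le_card sdiff_subset) hnear ?_
    obtain ⟨d, ⟨hjd, w, hw, hwj, hwfree⟩, hd⟩ := (hterm j hj hjz).exit_self hjm
    have hconv : ∀ i, Reach (Edge G X f) m (insert j {f z}) i →
        Reach (Edge G XA φ) m (insert j {f z}) i := by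
      intro i hi
      induction hi with
      | base h => exact Reach.base h
      | @step i k h9 h10 h11 ih =>
        refine Reach.step h9 ?_ ih
        have hiA : i ∈ A := hacc i ((Reach.step h9 h10 h11).mono (empty_subset _))
        obtain ⟨hik, u, hu, hui, hufree⟩ := h10
        have hk := h11.notMem
        simp only [mem_insert, mem_singleton, not_or] at h9 hk
        have huz : u ≠ z := by
          intro heq
          rw [heq] at hui
          exact h9.2 hui.symm
        have huy : u ≠ y := by
          intro heq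
          rw [heq] at hui
          rw [hui] at hyA
          exact hyA hiA
        refine ⟨hik, u, (hmemXA u).mpr (Or.inr ⟨hu, by rw [hui]; exact hiA⟩), ?_, ?_⟩
        · rw [hφ u huz huy]
          exact hui
        · intro v hv huv
          by_cases hvz : v = z
          · rw [hvz, hφz]
            exact Ne.symm hk.1
          · by_cases hvy : v = y
            · rw [hvy, hφy]
              exact Ne.symm hk.2
            · rw [hφ v hvz hvy]
              exact hufree v (hsub v hv) huv
    have hd2 := (hconv d hd).mono (empty_subset _)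
    refine Reach.step (notMem_empty _) ?_ hd2
    have hdn := hd.notMem
    simp only [mem_insert, mem_singleton, not_or] at hdn
    have hwz : w ≠ z := by
      intro heq
      rw [heq] at hwj
      exact hjz hwj.symm
    have hwy : w ≠ y := by
      intro heq
      rw [heq] at hwj
      rw [hwj] at hyA
      exact hyA hj
    refine ⟨hjd, w, (hmemXA w).mpr (Or.inr ⟨hw, by rw [hwj]; exact hj⟩), ?_, ?_⟩
    · rw [hφ w hwz hwy]
      exact hwj
    · intro v hv hwv
      by_cases hvz : v = z
      · rw [hvz, hφz]
        exact hjd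
      · by_cases hvy : v = y
        · rw [hvy, hφy]
          exact Ne.symm hdn.2
        · rw [hφ v hvz hvy]
          exact hwfree v (hsub v hv) hwv

/-- The solo vertex `z` cannot be moved, and it has two solo neighbours that are not adjacent. -/
theorem case_two {G : SimpleGraph V} {X : Finset V} {I : Finset ι} {n : ι → ℕ} {f : V → ι}
    {p m : ι} (h : Nearly G X I n f p m) (A : Finset ι) (hAI : A ⊆ I)
    (hacc : ∀ i, i ∈ A ↔ Reach (Edge G X f) m ∅ i) (hp : p ∉ A) (hm : m ∈ A)
    {z : V} (hz : z ∈ X) (hzA : f z ∈ A)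
    (hterm : ∀ i ∈ A, i ≠ f z → Reach (Edge G X f) m {f z} i) (hzm : f z ≠ m)
    {y : V} (hy : y ∈ X) (hyA : f y ∉ A)
    (hsolo : ∀ w ∈ X, G.Adj y w → f w = f z → w = z)
    (hnf : ∀ j ∈ A, j ≠ f z → ¬ Free G X f z j)
    {y2 : V} (hy2 : y2 ∈ X) (hy2A : f y2 ∉ A)
    (hsolo2 : ∀ w ∈ X, G.Adj y2 w → f w = f z → w = z) (hyy2 : y ≠ y2) (hna : ¬ G.Adj y y2)
    {g : V → ι} (hg : Good G ((X.filter (fun x => f x ∉ A)).erase y) (I \ A) n g)
    {Y : ι} (hY : Y ∈ I \ A)
    (hYfree : ∀ x ∈ (X.filter (fun x => f x ∉ A)).erase y, G.Adj z x → g x ≠ Y) :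
    ∃ ψ, Nearly G X I n ψ Y m ∧ (I \ acc G X I ψ m).card < (I \ A).card := by
  classical
  obtain ⟨h1, h2, h3, h4, h5, h6, h7, h8⟩ := h
  have hYI := (mem_sdiff.mp hY).1
  have hYA := (mem_sdiff.mp hY).2
  have hzy : z ≠ y := by
    intro heq
    rw [heq] at hzA
    exact hyA hzA
  obtain ⟨ψ, hψz, hψy, hψA, hψB⟩ : ∃ ψ : V → ι, ψ z = Y ∧ ψ y = f z ∧
      (∀ x, x ≠ z → x ≠ y → f x ∈ A → ψ x = f x) ∧
      ∀ x, x ≠ z → x ≠ y → f x ∉ A → ψ x = g x := by
    refine ⟨fun x => if x = z then Y else if x = y then f z else if f x ∈ A then f x else g x,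
      ?_, ?_, ?_, ?_⟩
    · exact if_pos rfl
    · show (if y = z then Y else if y = y then f z else if f y ∈ A then f y else g y) = f z
      rw [if_neg (Ne.symm hzy), if_pos rfl]
    · intro x hx1 hx2 hx3
      show (if x = z then Y else if x = y then f z else if f x ∈ A then f x else g x) = f x
      rw [if_neg hx1, if_neg hx2, if_pos hx3]
    · intro x hx1 hx2 hx3
      show (if x = z then Y else if x = y then f z else if f x ∈ A then f x else g x) = g x
      rw [if_neg hx1, if_neg hx2, if_neg hx3]
  have hmemB : ∀ x, x ∈ (X.filter (fun x => f x ∉ A)).erase y ↔ x ≠ y ∧ x ∈ X ∧ f x ∉ A := by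
    intro x
    rw [mem_erase, mem_filter]
  -- the colour of a vertex is in `A` exactly for `y` and the vertices of `A` different from `z`
  have hcolA : ∀ x ∈ X, f x ∈ A → x ≠ z → ψ x = f x := by
    intro x hx hxA hxz
    have hxy : x ≠ y := by
      intro heq
      rw [heq] at hxA
      exact hyA hxA
    exact hψA x hxz hxy hxA
  have hneZ : ∀ x, f x ∉ A → x ≠ z := by
    intro x hxA heq
    rw [heq] at hxA
    exact hxA hzA
  have hcolB : ∀ x ∈ X, f x ∉ A → x ≠ y → ψ x = g x ∧ g x ∈ I ∧ g x ∉ A := by
    intro x hx hxA hxy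
    have h9 := hg.1 x ((hmemB x).mpr ⟨hxy, hx, hxA⟩)
    exact ⟨hψB x (hneZ x hxA) hxy hxA, (mem_sdiff.mp h9).1, (mem_sdiff.mp h9).2⟩
  have hψI : ∀ x ∈ X, ψ x ∈ I := by
    intro x hx
    by_cases hxA : f x ∈ A
    · by_cases hxz : x = z
      · rw [hxz, hψz]
        exact hYI
      · rw [hcolA x hx hxA hxz]
        exact h1 x hx
    · by_cases hxy : x = y
      · rw [hxy, hψy]
        exact hAI hzA
      · rw [(hcolB x hx hxA hxy).1]
        exact (hcolB x hx hxA hxy).2.1
  have hPz : ∀ x ∈ X, G.Adj z x → ψ z ≠ ψ x := by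
    intro x hx hzx
    rw [hψz]
    have hxz : x ≠ z := fun heq => G.loopless.irrefl z (by rw [heq] at hzx; exact hzx)
    by_cases hxA : f x ∈ A
    · rw [hcolA x hx hxA hxz]
      intro heq
      rw [← heq] at hxA
      exact hYA hxA
    · by_cases hxy : x = y
      · rw [hxy, hψy]
        intro heq
        rw [← heq] at hzA
        exact hYA hzA
      · rw [(hcolB x hx hxA hxy).1]
        exact Ne.symm (hYfree x ((hmemB x).mpr ⟨hxy, hx, hxA⟩) hzx)
  have hPy : ∀ x ∈ X, x ≠ z → G.Adj y x → ψ y ≠ ψ x := by
    intro x hx hxz hyx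
    rw [hψy]
    have hxy : x ≠ y := fun heq => G.loopless.irrefl y (by rw [heq] at hyx; exact hyx)
    by_cases hxA : f x ∈ A
    · rw [hcolA x hx hxA hxz]
      intro heq
      exact hxz (hsolo x hx hyx heq.symm)
    · rw [(hcolB x hx hxA hxy).1]
      intro heq
      exact (hcolB x hx hxA hxy).2.2 (by rw [← heq]; exact hzA)
  have hprop : Proper G X ψ := by
    intro u hu v hv huv
    by_cases huz : u = z
    · rw [huz] at huv ⊢
      exact hPz v hv huv
    · by_cases hvz : v = z
      · rw [hvz] at huv ⊢
        exact Ne.symm (hPz u hu huv.symm)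
      · by_cases huy : u = y
        · rw [huy] at huv ⊢
          exact hPy v hv hvz huv
        · by_cases hvy : v = y
          · rw [hvy] at huv ⊢
            exact Ne.symm (hPy u hu huz huv.symm)
          · by_cases huA : f u ∈ A
            · rw [hcolA u hu huA huz]
              by_cases hvA : f v ∈ A
              · rw [hcolA v hv hvA hvz]
                exact h2 u hu v hv huv
              · rw [(hcolB v hv hvA hvy).1]
                intro heq
                exact (hcolB v hv hvA hvy).2.2 (by rw [← heq]; exact huA)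
            · rw [(hcolB u hu huA huy).1]
              by_cases hvA : f v ∈ A
              · rw [hcolA v hv hvA hvz]
                intro heq
                exact (hcolB u hu huA huy).2.2 (by rw [heq]; exact hvA)
              · rw [(hcolB v hv hvA hvy).1]
                exact hg.2.1 u ((hmemB u).mpr ⟨huy, hu, huA⟩) v ((hmemB v).mpr ⟨hvy, hv, hvA⟩) huv
  -- class sizes
  have hcW : (cls X ψ (f z)).card = (cls X f (f z)).card := by
    have h9 : cls X ψ (f z) = insert y ((cls X f (f z)).erase z) := by
      ext x
      rw [mem_cls, mem_insert, mem_erase, mem_cls]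
      constructor
      · rintro ⟨h10, h11⟩
        by_cases hxy : x = y
        · exact Or.inl hxy
        · right
          have hxz : x ≠ z := by
            intro heq
            rw [heq, hψz] at h11
            rw [← h11] at hzA
            exact hYA hzA
          by_cases hxA : f x ∈ A
          · rw [hcolA x h10 hxA hxz] at h11
            exact ⟨hxz, h10, h11⟩
          · rw [(hcolB x h10 hxA hxy).1] at h11
            exact absurd hzA (by rw [← h11]; exact (hcolB x h10 hxA hxy).2.2)
      · rintro (rfl | ⟨h10, h11, h12⟩)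
        · exact ⟨hy, hψy⟩
        · rw [hcolA x h11 (by rw [h12]; exact hzA) h10]
          exact ⟨h11, h12⟩
    rw [h9, card_insert_of_notMem, card_erase_add_one (mem_cls.mpr ⟨hz, rfl⟩)]
    intro h10
    have h11 := (mem_cls.mp (mem_erase.mp h10).2).2
    rw [h11] at hyA
    exact hyA hzA
  have hcA : ∀ i ∈ A, i ≠ f z → (cls X ψ i).card = (cls X f i).card := by
    intro i hi hiz
    congr 1
    ext x
    rw [mem_cls, mem_cls]
    constructor
    · rintro ⟨h10, h11⟩
      refine ⟨h10, ?_⟩
      have hxz : x ≠ z := by
        intro heq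
        rw [heq, hψz] at h11
        rw [← h11] at hi
        exact hYA hi
      have hxy : x ≠ y := by
        intro heq
        rw [heq, hψy] at h11
        exact hiz h11.symm
      by_cases hxA : f x ∈ A
      · rw [hcolA x h10 hxA hxz] at h11
        exact h11
      · rw [(hcolB x h10 hxA hxy).1] at h11
        exact absurd hi (by rw [← h11]; exact (hcolB x h10 hxA hxy).2.2)
    · rintro ⟨h10, h11⟩
      refine ⟨h10, ?_⟩
      have hxz : x ≠ z := by
        intro heq
        rw [heq] at h11
        exact hiz h11.symm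
      rw [hcolA x h10 (by rw [h11]; exact hi) hxz]
      exact h11
  have hcB : ∀ i ∈ I \ A, i ≠ Y → (cls X ψ i).card = n i := by
    intro i hi hiY
    rw [← hg.2.2 i hi]
    have hiA := (mem_sdiff.mp hi).2
    congr 1
    ext x
    rw [mem_cls, mem_cls, hmemB]
    constructor
    · rintro ⟨h10, h11⟩
      by_cases hxA : f x ∈ A
      · exfalso
        by_cases hxz : x = z
        · rw [hxz, hψz] at h11
          exact hiY h11.symm
        · rw [hcolA x h10 hxA hxz] at h11
          rw [h11] at hxA
          exact hiA hxA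
      · by_cases hxy : x = y
        · exfalso
          rw [hxy, hψy] at h11
          rw [h11] at hzA
          exact hiA hzA
        · rw [(hcolB x h10 hxA hxy).1] at h11
          exact ⟨⟨hxy, h10, hxA⟩, h11⟩
    · rintro ⟨⟨hxy, h10, hxA⟩, h11⟩
      rw [(hcolB x h10 hxA hxy).1]
      exact ⟨h10, h11⟩
  have hcY : (cls X ψ Y).card = n Y + 1 := by
    rw [← hg.2.2 Y hY]
    have h9 : cls X ψ Y = insert z (cls ((X.filter (fun x => f x ∉ A)).erase y) g Y) := by
      ext x
      rw [mem_cls, mem_insert, mem_cls, hmemB]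
      constructor
      · rintro ⟨h10, h11⟩
        by_cases hxz : x = z
        · exact Or.inl hxz
        · right
          by_cases hxA : f x ∈ A
          · exfalso
            rw [hcolA x h10 hxA hxz] at h11
            rw [h11] at hxA
            exact hYA hxA
          · by_cases hxy : x = y
            · exfalso
              rw [hxy, hψy] at h11
              rw [h11] at hzA
              exact hYA hzA
            · rw [(hcolB x h10 hxA hxy).1] at h11
              exact ⟨⟨hxy, h10, hxA⟩, h11⟩
      · rintro (rfl | ⟨⟨hxy, h10, hxA⟩, h11⟩)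
        · exact ⟨hz, hψz⟩
        · rw [(hcolB x h10 hxA hxy).1]
          exact ⟨h10, h11⟩
    rw [h9, card_insert_of_notMem]
    rw [mem_cls, hmemB]
    exact fun h10 => h10.1.2.2 hzA
  have hYm : Y ≠ m := by
    intro heq
    rw [heq] at hYA
    exact hYA hm
  have hnear : Nearly G X I n ψ Y m := by
    refine ⟨hψI, hprop, hYI, h4, hYm, hcY, ?_, ?_⟩
    · rw [hcA m hm (Ne.symm hzm)]
      exact h7
    · intro i hi hiY him
      by_cases hiA : i ∈ A
      · have hip : i ≠ p := fun heq => hp (by rw [← heq]; exact hiA)
        by_cases hiz : i = f z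
        · rw [hiz, hcW, ← hiz]
          exact h8 i hi hip him
        · rw [hcA i hiA hiz]
          exact h8 i hi hip him
      · exact hcB i (mem_sdiff.mpr ⟨hi, hiA⟩) hiY
  refine ⟨ψ, hnear, ?_⟩
  -- free vertices for labels of `A`
  have hfreeψ : ∀ x ∈ X, ∀ k ∈ A, k ≠ f z → Free G X f x k → Free G X ψ x k := by
    intro x _ k hk hkz hxk v hv hxv
    by_cases hvz : v = z
    · rw [hvz, hψz]
      intro heq
      rw [← heq] at hk
      exact hYA hk
    · by_cases hvA : f v ∈ A
      · rw [hcolA v hv hvA hvz]
        exact hxk v hv hxv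
      · by_cases hvy : v = y
        · rw [hvy, hψy]
          exact Ne.symm hkz
        · rw [(hcolB v hv hvA hvy).1]
          intro heq
          exact (hcolB v hv hvA hvy).2.2 (by rw [heq]; exact hk)
  have hreach1 : ∀ i, Reach (Edge G X f) m {f z} i → Reach (Edge G X ψ) m ∅ i := by
    intro i hi
    induction hi with
    | base _ => exact Reach.base (notMem_empty _)
    | @step i k h9 h10 h11 ih =>
      refine Reach.step (notMem_empty _) ?_ ih
      have hiA : i ∈ A := (hacc i).mpr ((Reach.step h9 h10 h11).mono (empty_subset _))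
      have hkA : k ∈ A := (hacc k).mpr (h11.mono (empty_subset _))
      obtain ⟨hik, u, hu, hui, hufree⟩ := h10
      have hk := h11.notMem
      rw [mem_singleton] at h9 hk
      have huz : u ≠ z := by
        intro heq
        rw [heq] at hui
        exact h9 hui.symm
      refine ⟨hik, u, hu, ?_, hfreeψ u hu k hkA hk hufree⟩
      rw [hcolA u hu (by rw [hui]; exact hiA) huz]
      exact hui
  have hreachW : Reach (Edge G X ψ) m ∅ (f z) := by
    obtain ⟨d, ⟨hzd, w, hw, hwz, hwfree⟩, hd⟩ := ((hacc (f z)).mp hzA).exit_self hzm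
    have hdA : d ∈ A := (hacc d).mpr (hd.mono (empty_subset _))
    have hwz' : w ≠ z := by
      intro heq
      rw [heq] at hwfree
      exact hnf d hdA (Ne.symm hzd) hwfree
    refine Reach.step (notMem_empty _) ?_ (hreach1 d (hterm d hdA (Ne.symm hzd)))
    refine ⟨hzd, w, hw, ?_, hfreeψ w hw d hdA (Ne.symm hzd) hwfree⟩
    rw [hcolA w hw (by rw [hwz]; exact hzA) hwz']
    exact hwz
  have hreachA : ∀ i ∈ A, Reach (Edge G X ψ) m ∅ i := by
    intro i hi
    by_cases hiz : i = f z
    · rw [hiz]
      exact hreachW
    · exact hreach1 i (hterm i hi hiz)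
  have hy2' := hcolB y2 hy2 hy2A (Ne.symm hyy2)
  have hreachy2 : Reach (Edge G X ψ) m ∅ (g y2) := by
    refine Reach.step (notMem_empty _) ?_ hreachW
    refine ⟨fun heq => hy2'.2.2 (by rw [heq]; exact hzA), y2, hy2, hy2'.1, ?_⟩
    intro v hv hv2
    by_cases hvz : v = z
    · rw [hvz, hψz]
      intro heq
      rw [heq] at hYA
      exact hYA hzA
    · by_cases hvA : f v ∈ A
      · rw [hcolA v hv hvA hvz]
        intro heq
        exact hvz (hsolo2 v hv hv2 heq)
      · by_cases hvy : v = y
        · rw [hvy] at hv2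
          exact absurd hv2.symm hna
        · rw [(hcolB v hv hvA hvy).1]
          intro heq
          exact (hcolB v hv hvA hvy).2.2 (by rw [heq]; exact hzA)
  refine card_lt_card ?_
  rw [ssubset_iff_of_subset]
  · refine ⟨g y2, mem_sdiff.mpr ⟨hy2'.2.1, hy2'.2.2⟩, ?_⟩
    rw [mem_sdiff, mem_acc]
    exact fun h9 => h9.2 ⟨h9.1, hreachy2⟩
  · intro i hi
    rw [mem_sdiff, mem_acc] at hi
    rw [mem_sdiff]
    exact ⟨hi.1, fun hiA => hi.2 ⟨hi.1, hreachA i hiA⟩⟩

end Pool.Agent.X82.HSz
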