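import Pool.Agent.X82.HSz4

/-!
# Proper colourings with prescribed class sizes: the induction
-/

set_option autoImplicit false
set_option linter.unusedSectionVars false

namespace Pool.Agent.X82.HSz

open Finset

variable {V ι : Type} [DecidableEq V] [DecidableEq ι]

open Classical in
theorem nearly_good {G : SimpleGraph V} {X : Finset V} {I : Finset ι} {n : ι → ℕ} {r s : ℕ}
    (hdeg : ∀ x ∈ X, (X.filter (fun y => G.Adj x y)).card ≤ r)
    (hn : ∀ i ∈ I, n i ≤ s) (hsum : ∑ i ∈ I, n i = X.card) (hs : s * (r + 1) ≤ X.card)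
    (IH : ∀ X' ⊆ X, (∃ y ∈ X, y ∉ X' ∧ ∃ z ∈ X, G.Adj y z) → ∀ (I' : Finset ι) (r' : ℕ),
      (∀ x ∈ X', (X'.filter (fun y => G.Adj x y)).card ≤ r') → (∀ i ∈ I', n i ≤ s) →
      ∑ i ∈ I', n i = X'.card → s * (r' + 1) ≤ X'.card → ∃ g, Good G X' I' n g) (k : ℕ) :
    ∀ (f : V → ι) (p m : ι), (I \ acc G X I f m).card ≤ k → Nearly G X I n f p m →
      ∃ g, Good G X I n g := by
  induction k with
  | zero =>
    intro f p m hk h
    have hp : p ∈ acc G X I f m := by
      by_contra hcon
      have := card_pos.mpr ⟨p, mem_sdiff.mpr ⟨h.2.2.1, hcon⟩⟩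
      omega
    exact shift I.card ∅ f p m (card_le_card sdiff_subset) h (mem_acc.mp hp).2
  | succ k ih =>
    intro f p m hk h
    set A := acc G X I f m with hA
    by_cases hp : p ∈ A
    · exact shift I.card ∅ f p m (card_le_card sdiff_subset) h (mem_acc.mp hp).2
    obtain ⟨h1, h2, h3, h4, h5, h6, h7, h8⟩ := id h
    have hAI : A ⊆ I := fun i hi => (mem_acc.mp hi).1
    have hacc : ∀ i, i ∈ A ↔ Reach (Edge G X f) m ∅ i := by
      intro i
      rw [hA, mem_acc]
      exact ⟨fun h => h.2, fun h => ⟨h.mem h1 h4, h⟩⟩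
    have hm : m ∈ A := (hacc m).mpr (Reach.base (notMem_empty _))
    set B := X.filter (fun x => f x ∉ A) with hB
    have hmemB : ∀ x, x ∈ B ↔ x ∈ X ∧ f x ∉ A := fun x => mem_filter
    have hXAB : (X.filter (fun x => f x ∈ A)).card + B.card = X.card :=
      card_filter_add_card_filter_not (s := X) (fun x => f x ∈ A)
    have hXA : (X.filter (fun x => f x ∈ A)).card + 1 = ∑ i ∈ A, n i := by
      have h9 : (X.filter (fun x => f x ∈ A)).card = ∑ i ∈ A, (cls X f i).card := by
        rw [card_eq_sum_card_fiberwise (f := f) (t := A)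
          (fun x hx => by simpa using (mem_filter.mp hx).2)]
        refine sum_congr rfl (fun i hi => ?_)
        congr 1
        ext x
        rw [mem_filter, mem_filter, mem_cls]
        constructor
        · rintro ⟨⟨h9, _⟩, h10⟩
          exact ⟨h9, h10⟩
        · rintro ⟨h9, h10⟩
          exact ⟨⟨h9, by rw [h10]; exact hi⟩, h10⟩
      rw [h9, ← add_sum_erase A _ hm, ← add_sum_erase A n hm]
      have h10 : ∑ i ∈ A.erase m, (cls X f i).card = ∑ i ∈ A.erase m, n i := by
        refine sum_congr rfl (fun i hi => ?_)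
        have hi' := mem_erase.mp hi
        exact h8 i (hAI hi'.2) (fun heq => hp (by rw [← heq]; exact hi'.2)) hi'.1
      omega
    have hsumA : ∑ i ∈ A, n i ≤ A.card * s := by
      rw [← smul_eq_mul]
      exact sum_le_card_nsmul _ _ _ (fun i hi => hn i (hAI hi))
    have hsumI : ∑ i ∈ I \ A, n i + ∑ i ∈ A, n i = ∑ i ∈ I, n i := sum_sdiff hAI
    have hsumB : ∑ i ∈ I \ A, n i + 1 = B.card := by omega
    have hnb : ∀ y ∈ X, f y ∉ A → ∀ j ∈ A, 1 ≤ nb G X f y j := by
      intro y hy hyA j hj
      rw [← free_iff]
      intro hfree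
      apply hyA
      rw [hacc]
      refine Reach.step (notMem_empty _) ⟨?_, y, hy, rfl, hfree⟩ ((hacc j).mp hj)
      intro heq
      rw [heq] at hyA
      exact hyA hj
    have hcardnb : ∀ (J : Finset ι) (x : V), (∀ j ∈ J, 1 ≤ nb G X f x j) →
        J.card ≤ ∑ j ∈ J, nb G X f x j := by
      intro J x hJ
      calc J.card = ∑ j ∈ J, 1 := by rw [sum_const, smul_eq_mul, mul_one]
        _ ≤ _ := sum_le_sum hJ
    have hsplit : ∀ x ∈ X, ∑ j ∈ A, nb G X f x j + (B.filter (fun y => G.Adj x y)).card ≤ r := by
      intro x hx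
      have h9 := deg_split G X f A x
      have h10 := hdeg x hx
      have h11 : (B.filter (fun y => G.Adj x y)).card =
          ((X.filter (fun y => f y ∉ A)).filter (fun y => G.Adj x y)).card := rfl
      omega
    -- `a ≤ r`
    have hAr : A.card ≤ r := by
      have h9 : 0 < (cls X f p).card := by omega
      obtain ⟨y, hy⟩ := card_pos.mp h9
      have hy' := mem_cls.mp hy
      have hyA : f y ∉ A := by
        rw [hy'.2]
        exact hp
      have h10 := hcardnb A y (hnb y hy'.1 hyA)
      have h11 := hsplit y hy'.1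
      omega
    obtain ⟨q, hq⟩ : ∃ q, A.card + q = r + 1 := ⟨r + 1 - A.card, by omega⟩
    have hq1 : 1 ≤ q := by omega
    have hBcard : s * q + 1 ≤ B.card := by
      have h9 : s * (r + 1) = A.card * s + s * q := by
        rw [← hq]
        ring
      omega
    -- `2 ≤ a`
    have hA2 : 2 ≤ A.card := by
      by_contra hlt
      push Not at hlt
      have hA1 : A.card = 1 := by
        have := card_pos.mpr ⟨m, hm⟩
        omega
      have hqr : q = r := by omega
      have h9 : B.card ≤ (cls X f m).card * r := by
        calc B.card = ∑ y ∈ B, 1 := by rw [sum_const, smul_eq_mul, mul_one]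
          _ ≤ ∑ y ∈ B, ((cls X f m).filter (fun z => G.Adj y z)).card := by
              refine sum_le_sum (fun y hy => ?_)
              have hy' := (hmemB y).mp hy
              have h10 := hnb y hy'.1 hy'.2 m hm
              refine le_trans h10 (card_le_card ?_)
              intro z hz
              have hz' := mem_filter.mp hz
              exact mem_filter.mpr ⟨mem_cls.mpr ⟨hz'.1, hz'.2.2⟩, hz'.2.1⟩
          _ = ∑ z ∈ cls X f m, (B.filter (fun y => G.Adj z y)).card := double_count G B _
          _ ≤ (cls X f m).card • r := by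
              refine sum_le_card_nsmul _ _ _ (fun z hz => ?_)
              have h10 := hsplit z (mem_cls.mp hz).1
              omega
          _ = (cls X f m).card * r := smul_eq_mul _ _
      have h10 := hn m h4
      have h11 : ((cls X f m).card + 1) * r ≤ s * r := Nat.mul_le_mul_right _ (by omega)
      rw [hqr] at hBcard
      nlinarith
    obtain ⟨T, hTA, hTne, hmT, hterm, U, hU, hTU⟩ :=
      terminal_choice G X f A m (fun i hi => (hacc i).mp hi) hm hA2
    have key : ∃ z ∈ X, f z ∈ T ∧ ∃ y ∈ X, f y ∉ A ∧ G.Adj z y ∧ nb G X f y (f z) = 1 ∧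
        ((∃ j ∈ A, j ≠ f z ∧ Free G X f z j) ∨ ((∀ j ∈ A, j ≠ f z → ¬ Free G X f z j) ∧
          ∃ y2 ∈ X, f y2 ∉ A ∧ G.Adj z y2 ∧ nb G X f y2 (f z) = 1 ∧ y ≠ y2 ∧ ¬ G.Adj y y2)) := by
      by_contra hcon
      push Not at hcon
      refine counting G X f A T r s q hTA hTne hq hdeg hBcard ?_ hnb ?_ ?_ ?_
      · intro j hj
        have hjm : j ≠ m := fun heq => hmT (by rw [← heq]; exact hj)
        have hjp : j ≠ p := fun heq => hp (by rw [← heq]; exact hTA hj)
        rw [h8 j (hAI (hTA hj)) hjp hjm]
        exact hn j (hAI (hTA hj))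
      · intro x hx hxT
        have h9 : (A \ insert U T).card ≤ ∑ j ∈ A \ insert U T, nb G X f x j := by
          refine hcardnb _ x (fun j hj => ?_)
          have hj' := mem_sdiff.mp hj
          rw [mem_insert, not_or] at hj'
          rw [← free_iff]
          exact hTU x hx hxT j hj'.1 hj'.2.1 hj'.2.2
        have h10 : ∑ j ∈ A \ insert U T, nb G X f x j ≤ ∑ j ∈ A, nb G X f x j :=
          sum_le_sum_of_subset sdiff_subset
        have h11 := le_card_sdiff (insert U T) A
        have h12 := card_insert_le U T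
        omega
      · intro z hz hzT ⟨y, hy, hyA, hzy, hsolo⟩
        have h9 := hcon z hz hzT y hy hyA hzy hsolo
        have h10 : (A.erase (f z)).card ≤ ∑ j ∈ A.erase (f z), nb G X f z j := by
          refine hcardnb _ z (fun j hj => ?_)
          have hj' := mem_erase.mp hj
          rw [← free_iff]
          exact h9.1 j hj'.2 hj'.1
        have h11 : ∑ j ∈ A.erase (f z), nb G X f z j ≤ ∑ j ∈ A, nb G X f z j :=
          sum_le_sum_of_subset (erase_subset _ _)
        rw [card_erase_of_mem (hTA hzT)] at h10
        omega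
      · intro z hz hzT y hy hyA hzy hsolo y' hy' hyA' hzy' hsolo' hne
        have h9 := hcon z hz hzT y hy hyA hzy hsolo
        exact h9.2 h9.1 y' hy' hyA' hzy' hsolo' hne
    obtain ⟨z, hz, hzT, y, hy, hyA, hzy, hsolo, hcase⟩ := key
    have hzA := hTA hzT
    have hzm : f z ≠ m := fun heq => hmT (by rw [← heq]; exact hzT)
    have hyB : y ∈ B := (hmemB y).mpr ⟨hy, hyA⟩
    have hBe : (B.erase y).card + 1 = B.card := card_erase_add_one hyB
    have hdisj : ∀ x ∈ insert y (X.filter (fun x => f x ∈ A)), x ∉ B.erase y := by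
      intro x hx hx'
      have hx1 := mem_erase.mp hx'
      rcases mem_insert.mp hx with hx2 | hx2
      · exact hx1.1 hx2
      · exact ((hmemB x).mp hx1.2).2 (mem_filter.mp hx2).2
    have hBe' : B.erase y ⊆ X := (erase_subset _ _).trans (filter_subset _ _)
    obtain ⟨g, hg⟩ := IH (B.erase y) hBe'
      ⟨y, hy, notMem_erase y B, z, hz, hzy.symm⟩ (I \ A) (q - 1)
      (by
        intro x hx
        have hx' := (hmemB x).mp (mem_erase.mp hx).2
        have h9 := hcardnb A x (hnb x hx'.1 hx'.2)
        have h10 := hsplit x hx'.1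
        have h11 : ((B.erase y).filter (fun y => G.Adj x y)).card ≤
            (B.filter (fun y => G.Adj x y)).card :=
          card_le_card (filter_subset_filter _ (erase_subset _ _))
        omega)
      (fun i hi => hn i (mem_sdiff.mp hi).1)
      (by omega)
      (by
        have h9 : q - 1 + 1 = q := by omega
        rw [h9]
        omega)
    have hsolo1 := solo_unique G X f hz hzy hsolo
    rcases hcase with ⟨j, hj, hjz, hfree⟩ | ⟨hnf, y2, hy2, hy2A, hzy2, hsolo2, hyy2, hna⟩
    · obtain ⟨g1, hg1⟩ := case_one h A hAI (fun i hi => (hacc i).mpr hi) hp hm hz hzA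
        (hterm (f z) hzT) hzm hy hyA hsolo1 hj hjz hfree
      refine combine hg1 hg ?_ hdisj ?_ ?_
      · intro x
        rw [mem_insert, mem_filter, mem_erase, hmemB]
        constructor
        · intro hx
          by_cases hxA : f x ∈ A
          · exact Or.inl (Or.inr ⟨hx, hxA⟩)
          · by_cases hxy : x = y
            · exact Or.inl (Or.inl hxy)
            · exact Or.inr ⟨hxy, hx, hxA⟩
        · rintro ((hx | hx) | hx)
          · rw [hx]
            exact hy
          · exact hx.1
          · exact hx.2.1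
      · intro i
        rw [mem_sdiff]
        constructor
        · intro hi
          by_cases hiA : i ∈ A
          · exact Or.inl hiA
          · exact Or.inr ⟨hi, hiA⟩
        · rintro (hi | hi)
          · exact hAI hi
          · exact hi.1
      · intro i hi hi'
        exact (mem_sdiff.mp hi').2 hi
    · have hsolo2' := solo_unique G X f hz hzy2 hsolo2
      -- a label for `z`
      have hs1 : 1 ≤ s := by
        have := hn m h4
        omega
      have hIA : q ≤ (I \ A).card := by
        have h9 : ∑ i ∈ I \ A, n i ≤ (I \ A).card * s := by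
          rw [← smul_eq_mul]
          exact sum_le_card_nsmul _ _ _ (fun i hi => hn i (mem_sdiff.mp hi).1)
        have h10 : q * s ≤ (I \ A).card * s := by
          have h11 : s * q = q * s := mul_comm _ _
          omega
        exact Nat.le_of_mul_le_mul_right h10 hs1
      have hzB : ((B.erase y).filter (fun x => G.Adj z x)).card + 1 ≤ q := by
        have h9 : (A.erase (f z)).card ≤ ∑ j ∈ A.erase (f z), nb G X f z j := by
          refine hcardnb _ z (fun j hj => ?_)
          have hj' := mem_erase.mp hj
          rw [← free_iff]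
          exact hnf j hj'.2 hj'.1
        have h10 : ∑ j ∈ A.erase (f z), nb G X f z j ≤ ∑ j ∈ A, nb G X f z j :=
          sum_le_sum_of_subset (erase_subset _ _)
        rw [card_erase_of_mem hzA] at h9
        have h11 := hsplit z hz
        have h12 : ((B.erase y).filter (fun x => G.Adj z x)) =
            (B.filter (fun x => G.Adj z x)).erase y := by
          ext x
          simp only [mem_filter, mem_erase]
          tauto
        have h13 : y ∈ B.filter (fun x => G.Adj z x) := mem_filter.mpr ⟨hyB, hzy⟩
        rw [h12, card_erase_add_one h13]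
        omega
      have hY : ∃ Y ∈ I \ A, ∀ x ∈ B.erase y, G.Adj z x → g x ≠ Y := by
        have h9 : (((B.erase y).filter (fun x => G.Adj z x)).image g).card < (I \ A).card := by
          have := card_image_le (s := (B.erase y).filter (fun x => G.Adj z x)) (f := g)
          omega
        obtain ⟨Y, hY1, hY2⟩ := exists_mem_notMem_of_card_lt_card h9
        refine ⟨Y, hY1, fun x hx hzx heq => hY2 ?_⟩
        rw [← heq]
        exact mem_image_of_mem g (mem_filter.mpr ⟨hx, hzx⟩)
      obtain ⟨Y, hY1, hY2⟩ := hY
      obtain ⟨ψ, hψ1, hψ2⟩ := case_two h A hAI hacc hp hm hz hzA (hterm (f z) hzT) hzm hy hyA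
        hsolo1 hnf hy2 hy2A hsolo2' hyy2 hna hg hY1 hY2
      exact ih ψ Y m (by omega) hψ1

open Classical in
/-- the number of vertices of `X` that have a neighbour in `X` -/
noncomputable def active (G : SimpleGraph V) (X : Finset V) : ℕ :=
  (X.filter (fun x => ∃ y ∈ X, G.Adj x y)).card

/-- the graph without the edges at `u` -/
def isolate (G : SimpleGraph V) (u : V) : SimpleGraph V where
  Adj x y := G.Adj x y ∧ x ≠ u ∧ y ≠ u
  symm := ⟨fun _ _ h => ⟨h.1.symm, h.2.2, h.2.1⟩⟩
  loopless := ⟨fun x h => G.loopless.irrefl x h.1⟩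

theorem active_lt_of_subset {G : SimpleGraph V} {X X' : Finset V} (hX : X' ⊆ X)
    (h : ∃ y ∈ X, y ∉ X' ∧ ∃ z ∈ X, G.Adj y z) : active G X' < active G X := by
  classical
  obtain ⟨y, hy, hyX', z, hz, hyz⟩ := h
  refine card_lt_card ?_
  rw [ssubset_iff_of_subset]
  · exact ⟨y, mem_filter.mpr ⟨hy, z, hz, hyz⟩, fun h => hyX' (mem_filter.mp h).1⟩
  · intro x hx
    obtain ⟨h1, w, h2, h3⟩ := mem_filter.mp hx
    exact mem_filter.mpr ⟨hX h1, w, hX h2, h3⟩

theorem active_isolate {G : SimpleGraph V} {X : Finset V} {u : V} (hu : u ∈ X)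
    (h : ∃ z ∈ X, G.Adj u z) : active (isolate G u) X < active G X := by
  classical
  obtain ⟨z, hz, huz⟩ := h
  refine card_lt_card ?_
  rw [ssubset_iff_of_subset]
  · refine ⟨u, mem_filter.mpr ⟨hu, z, hz, huz⟩, fun h => ?_⟩
    obtain ⟨_, w, _, h3⟩ := mem_filter.mp h
    exact h3.2.1 rfl
  · intro x hx
    obtain ⟨h1, w, h2, h3⟩ := mem_filter.mp hx
    exact mem_filter.mpr ⟨h1, w, h2, h3.1⟩

theorem exists_fibers [Nonempty ι] (I : Finset ι) (n : ι → ℕ) : ∀ X : Finset V,
    ∑ i ∈ I, n i = X.card → ∃ g, Good (⊥ : SimpleGraph V) X I n g := by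
  classical
  induction I using Finset.induction_on with
  | empty =>
    intro X hX
    rw [sum_empty] at hX
    have hX0 : X = ∅ := card_eq_zero.mp hX.symm
    subst hX0
    obtain ⟨i0⟩ := ‹Nonempty ι›
    exact ⟨fun _ => i0, fun x hx => absurd hx (notMem_empty x),
      fun x hx => absurd hx (notMem_empty x), fun i hi => absurd hi (notMem_empty i)⟩
  | insert i I hi ih =>
    intro X hX
    rw [sum_insert hi] at hX
    obtain ⟨X1, hX1, hX1c⟩ := exists_subset_card_eq (by omega : n i ≤ X.card)
    have h1 := card_sdiff_add_card_eq_card hX1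
    obtain ⟨g, hg⟩ := ih (X \ X1) (by omega)
    have hg1 : Good (⊥ : SimpleGraph V) X1 {i} n (fun _ => i) := by
      refine ⟨fun x _ => mem_singleton_self i, fun x _ y _ hxy => absurd hxy (by simp), ?_⟩
      intro j hj
      rw [mem_singleton] at hj
      subst hj
      rw [← hX1c]
      congr 1
      ext x
      rw [mem_cls]
      exact ⟨fun h => h.1, fun h => ⟨h, rfl⟩⟩
    refine combine hg1 hg ?_ ?_ ?_ ?_
    · intro x
      rw [mem_sdiff]
      constructor
      · intro hx
        by_cases hx1 : x ∈ X1
        · exact Or.inl hx1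
        · exact Or.inr ⟨hx, hx1⟩
      · rintro (hx | hx)
        · exact hX1 hx
        · exact hx.1
    · intro x hx hx'
      exact (mem_sdiff.mp hx').2 hx
    · intro j
      rw [mem_insert, mem_singleton]
    · intro j hj
      rw [mem_singleton] at hj
      rw [hj]
      exact hi

open Classical in
/-- Proper colourings with prescribed class sizes. -/
theorem exists_good [Nonempty ι] (N : ℕ) : ∀ (G : SimpleGraph V) (X : Finset V) (I : Finset ι)
    (n : ι → ℕ) (r s : ℕ), active G X ≤ N →
    (∀ x ∈ X, (X.filter (fun y => G.Adj x y)).card ≤ r) →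
    (∀ i ∈ I, n i ≤ s) → ∑ i ∈ I, n i = X.card → s * (r + 1) ≤ X.card →
    ∃ g, Good G X I n g := by
  induction N with
  | zero =>
    intro G X I n r s hN _ _ hsum _
    have hno : ∀ x ∈ X, ∀ y ∈ X, ¬ G.Adj x y := by
      intro x hx y hy hxy
      have h1 : 0 < active G X := card_pos.mpr ⟨x, mem_filter.mpr ⟨hx, y, hy, hxy⟩⟩
      omega
    obtain ⟨g, hg⟩ := exists_fibers I n X hsum
    exact ⟨g, hg.1, fun x hx y hy hxy => absurd hxy (hno x hx y hy), hg.2.2⟩
  | succ N ih =>
    intro G X I n r s hN hdeg hn hsum hs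
    by_cases hN' : active G X ≤ N
    · exact ih G X I n r s hN' hdeg hn hsum hs
    have hpos : 0 < active G X := by omega
    obtain ⟨u, hu⟩ := card_pos.mp hpos
    obtain ⟨huX, huA⟩ := mem_filter.mp hu
    have hlt := active_isolate huX huA
    obtain ⟨f, hf⟩ := ih (isolate G u) X I n r s (by omega)
      (fun x hx => by
        refine le_trans (card_le_card ?_) (hdeg x hx)
        intro y hy
        obtain ⟨h1, h2⟩ := mem_filter.mp hy
        exact mem_filter.mpr ⟨h1, h2.1⟩) hn hsum hs
    have hprop' : ∀ x ∈ X, ∀ y ∈ X, x ≠ u → y ≠ u → G.Adj x y → f x ≠ f y :=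
      fun x hx y hy hxu hyu hxy => hf.2.1 x hx y hy ⟨hxy, hxu, hyu⟩
    by_cases hfree : Free G X f u (f u)
    · refine ⟨f, hf.1, ?_, hf.2.2⟩
      intro x hx y hy hxy
      by_cases hxu : x = u
      · rw [hxu] at hxy ⊢
        exact Ne.symm (hfree y hy hxy)
      · by_cases hyu : y = u
        · rw [hyu] at hxy ⊢
          exact hfree x hx hxy.symm
        · exact hprop' x hx y hy hxu hyu hxy
    · have hs1 : 1 ≤ s := by
        by_contra hcon
        have hs0 : s = 0 := by omega
        have h1 : ∑ i ∈ I, n i = 0 := by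
          refine sum_eq_zero (fun i hi => ?_)
          have := hn i hi
          omega
        rw [h1] at hsum
        have h2 := card_pos.mpr ⟨u, huX⟩
        omega
      have hI : r + 1 ≤ I.card := by
        have h1 : ∑ i ∈ I, n i ≤ I.card * s := by
          rw [← smul_eq_mul]
          exact sum_le_card_nsmul _ _ _ hn
        have h2 : (r + 1) * s ≤ I.card * s := by
          have h3 : s * (r + 1) = (r + 1) * s := mul_comm _ _
          omega
        exact Nat.le_of_mul_le_mul_right h2 hs1
      obtain ⟨j, hjI, hj⟩ : ∃ j ∈ I, Free G X f u j := by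
        have h1 : ((X.filter (fun y => G.Adj u y)).image f).card < I.card := by
          have h2 := card_image_le (s := X.filter (fun y => G.Adj u y)) (f := f)
          have h3 := hdeg u huX
          omega
        obtain ⟨j, hj1, hj2⟩ := exists_mem_notMem_of_card_lt_card h1
        refine ⟨j, hj1, fun y hy huy heq => hj2 ?_⟩
        rw [← heq]
        exact mem_image_of_mem f (mem_filter.mpr ⟨hy, huy⟩)
      have hju : f u ≠ j := by
        intro heq
        rw [heq] at hfree
        exact hfree hj
      have hnear : Nearly G X I n (Function.update f u j) j (f u) := by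
        refine ⟨?_, ?_, hjI, hf.1 u huX, Ne.symm hju, ?_, ?_, ?_⟩
        · intro x hx
          by_cases hxu : x = u
          · rw [hxu, Function.update_self]
            exact hjI
          · rw [Function.update_of_ne hxu]
            exact hf.1 x hx
        · intro x hx y hy hxy
          by_cases hxu : x = u
          · rw [hxu] at hxy ⊢
            have hyu : y ≠ u := fun heq => G.loopless.irrefl u (by rw [heq] at hxy; exact hxy)
            rw [Function.update_self, Function.update_of_ne hyu]
            exact Ne.symm (hj y hy hxy)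
          · by_cases hyu : y = u
            · rw [hyu] at hxy ⊢
              rw [Function.update_self, Function.update_of_ne hxu]
              exact hj x hx hxy.symm
            · rw [Function.update_of_ne hxu, Function.update_of_ne hyu]
              exact hprop' x hx y hy hxu hyu hxy
        · rw [cls_update_new huX hju, hf.2.2 j hjI]
        · rw [cls_update_old huX hju, hf.2.2 (f u) (hf.1 u huX)]
        · intro i hi hij hiu
          rw [cls_update_other hij hiu]
          exact hf.2.2 i hi
      refine nearly_good hdeg hn hsum hs ?_ I.card (Function.update f u j) j (f u)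
        (card_le_card sdiff_subset) hnear
      intro X' hX' hex I' r' h1 h2 h3 h4
      have h5 := active_lt_of_subset hX' hex
      exact ih G X' I' n r' s (by omega) h1 h2 h3 h4

/-- Proper colourings of the whole graph with prescribed class sizes. -/
theorem exists_prescribed [Nonempty ι] [Fintype V] (G : SimpleGraph V) (I : Finset ι)
    (n : ι → ℕ) (r s : ℕ) (hdeg : ∀ x, ∃ S : Finset V, S.card ≤ r ∧ ∀ y, G.Adj x y → y ∈ S)
    (hn : ∀ i ∈ I, n i ≤ s) (hsum : ∑ i ∈ I, n i = Fintype.card V)
    (hs : s * (r + 1) ≤ Fintype.card V) :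
    ∃ g : V → ι, (∀ x y, G.Adj x y → g x ≠ g y) ∧
      ∀ i ∈ I, (univ.filter (fun x => g x = i)).card = n i := by
  classical
  obtain ⟨g, _, hg2, hg3⟩ := exists_good (active G univ) G univ I n r s le_rfl
    (fun x _ => by
      obtain ⟨S, hS, hS'⟩ := hdeg x
      refine le_trans (card_le_card ?_) hS
      intro y hy
      exact hS' y (mem_filter.mp hy).2) hn hsum hs
  exact ⟨g, fun x y hxy => hg2 x (mem_univ x) y (mem_univ y) hxy, hg3⟩

end Pool.Agent.X82.HSz
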