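import Pool.Agent.Y425.PC.Ok
import Pool.Agent.Y425.PC.Cyc
import Pool.Agent.H160R2.CC.Pet

/-!
Homogeneity of the Petersen graph: two assignments of edges of the Petersen graph to the edges of a
cut with at most three edges differ by an automorphism (MP_03045a_co).
-/

set_option autoImplicit false
set_option maxRecDepth 100000

open Finset

namespace Pool.Agent.X82.JP

open Pool.Agent.H160R2.CC Pool.Agent.H160R2.CC.MGraph
open Pool.Agent.Y425.PC
open Pool.Agent.TH697.CW6 (allB allB_iff)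

theorem pt_lt {g c : ℕ} (hg : g < 120) (hc : c < 15) : pt g c < 15 := by
  have h := allB_iff.1 (allB_iff.1 pt_ok g hg) c hc
  rw [Bool.and_eq_true] at h
  exact (Pool.Agent.TH222.RG.blt_iff _ _).1 h.1

theorem rho_lt {g i : ℕ} (hg : g < 120) (hi : i < 64) : rho g i < 64 :=
  (Pool.Agent.TH222.RG.blt_iff _ _).1 (allB_iff.1 (allB_iff.1 rho_ok g hg) i hi)

theorem pt_cyc {g c i : ℕ} (hg : g < 120) (hc : c < 15) (hi : i < 64) :
    (cyc i).testBit (pt g c) = (cyc (rho g i)).testBit c := by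
  have h := allB_iff.1 (allB_iff.1 pt_ok g hg) c hc
  rw [Bool.and_eq_true] at h
  have h2 := allB_iff.1 h.2 i hi
  rw [tb1, tb1] at h2
  rw [← ms_cyc (pt_lt hg hc) hi, ← ms_cyc hc (rho_lt hg hi)]
  revert h2
  cases (ms (pt g c)).testBit i <;> cases (ms c).testBit (rho g i) <;> simp

/-- the indicator of the `i`-th cycle -/
def chi (i : ℕ) (e : Fin 15) : ZMod 2 := if (cyc i).testBit e = true then 1 else 0

theorem chi_flow' : ∀ i : Fin 64, ∀ v : Fin 10, ∑ e : Fin 15,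
    ((if psrc e = v then (1 : ZMod 2) else 0) + (if ptgt e = v then 1 else 0)) * chi i e = 0 := by
  decide +kernel

theorem chi_flow (i : Fin 64) : petersen.Flow (chi i) := fun v => chi_flow' i v

theorem flow_ind {G : MGraph} {φ : G.E → ZMod 2} (h : G.Flow φ) :
    G.IsCycle ({e | φ e = 1} : Finset G.E) := by
  rw [isCycle_iff]
  convert h using 1
  funext e
  rcases z2 (φ e) with h | h <;> simp [h]

theorem flow_chi (φ : Fin 15 → ZMod 2) (h : petersen.Flow φ) : ∃ i : Fin 64, φ = chi i := by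
  have h1 := flow_ind (G := petersen) h
  obtain ⟨i, hi⟩ := cycle_cyc _ h1
  refine ⟨i, funext fun e => ?_⟩
  have h2 : φ e = 1 ↔ (cyc i).testBit e = true :=
    ⟨fun h3 => (hi e).1 (mem_filter.2 ⟨mem_univ _, h3⟩), fun h3 => (mem_filter.1 ((hi e).2 h3)).2⟩
  unfold chi
  rcases z2 (φ e) with h3 | h3
  · rw [h3, if_neg]
    intro h4
    have := h2.2 h4
    rw [h3] at this
    exact absurd this (by decide)
  · rw [h3, if_pos (h2.1 h3)]

/-- the automorphism with index `g` -/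
def aut (g : Fin 120) (c : Fin 15) : Fin 15 := ⟨pt g c, pt_lt g.2 c.2⟩

theorem aut_cc (g : Fin 120) : CC petersen petersen (aut g) := by
  intro φ hφ
  obtain ⟨i, rfl⟩ := flow_chi φ hφ
  have h : ((chi i : Fin 15 → ZMod 2) ∘ aut g) = chi (rho g i) := by
    funext c
    unfold chi aut
    simp only [Function.comp]
    rw [pt_cyc g.2 c.2 i.2]
  exact h ▸ chi_flow ⟨rho g i, rho_lt g.2 i.2⟩

/-- three edges with zero sum -/
def bal3 (a b c : ℕ) : Bool := (List.range 64).all fun i =>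
  !(((cyc i).testBit a ^^ (cyc i).testBit b) ^^ (cyc i).testBit c)

def bal2 (a b : ℕ) : Bool := (List.range 64).all fun i =>
  !((cyc i).testBit a ^^ (cyc i).testBit b)

theorem one_ok : ∀ a : Fin 15, ∃ i : Fin 64, (cyc i).testBit a = true := by decide +kernel

theorem two_ok : ∀ a b : Fin 15, bal2 a b = true → a = b := by decide +kernel

theorem two_tr : ∀ a : Fin 15, (∃ g : Fin 120, pt g 0 = a) ∧ ∃ g : Fin 120, pt g a = 0 := by
  decide +kernel

theorem three_tr : ∀ a b c : Fin 15, bal3 a b c = true →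
    (∃ g : Fin 120, pt g 0 = a ∧ pt g 4 = b ∧ pt g 5 = c) ∧
    ∃ g : Fin 120, pt g a = 0 ∧ pt g b = 4 ∧ pt g c = 5 := by
  decide +kernel

theorem aut2_cc (g h : Fin 120) : CC petersen petersen (fun c : Fin 15 => aut g (aut h c)) := by
  have := CC.comp (aut_cc g) (aut_cc h)
  exact this

theorem aut_val (g : Fin 120) (c : Fin 15) : (aut g c : ℕ) = pt g c := by
  unfold aut
  rfl

theorem two_tr' (a : Fin 15) : (∃ g : Fin 120, aut g 0 = a) ∧ ∃ g : Fin 120, aut g a = 0 := by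
  obtain ⟨⟨g1, h1⟩, ⟨g2, h2⟩⟩ := two_tr a
  refine ⟨⟨g1, Fin.ext ?_⟩, ⟨g2, Fin.ext ?_⟩⟩
  · rw [aut_val]; exact h1
  · rw [aut_val, h2]; rfl

theorem three_tr' (a b c : Fin 15) (h : bal3 a b c = true) :
    (∃ g : Fin 120, aut g 0 = a ∧ aut g 4 = b ∧ aut g 5 = c) ∧
    ∃ g : Fin 120, aut g a = 0 ∧ aut g b = 4 ∧ aut g c = 5 := by
  obtain ⟨⟨g1, h1, h2, h3⟩, ⟨g2, k1, k2, k3⟩⟩ := three_tr a b c h
  refine ⟨⟨g1, Fin.ext ?_, Fin.ext ?_, Fin.ext ?_⟩, ⟨g2, Fin.ext ?_, Fin.ext ?_, Fin.ext ?_⟩⟩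
  · rw [aut_val]; exact h1
  · rw [aut_val]; exact h2
  · rw [aut_val]; exact h3
  · rw [aut_val, k1]; rfl
  · rw [aut_val, k2]; rfl
  · rw [aut_val, k3]; rfl

end Pool.Agent.X82.JP
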