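import Pool.Agent.TH505.OW.Perm
import Pool.Agent.TH505.OCDC.Decomp

/-!
From flows with values in the roots to families of directed cycles. This file repeats parts of
`Pool.Agent.TH505.OW.Ends2`, `Join`, `Fin` and `Pool.Agent.TH505.SC.Assemble` that do not depend on
tables.
-/

set_option autoImplicit false

open Finset

namespace Pool.Agent.X82.OC0

open Pool.Agent.TH505.OW (Good bd co vc vc_iff sw pt ov cut pt_vc pt_sw)
open Pool.Agent.TH505.OCDC

section

variable {V E : Type} [Fintype E]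

theorem bd_congr (s t : E → V) (x y : E → ℤ) (v : V)
    (h : ∀ e, (s e = v ∨ t e = v) → x e = y e) : bd s t x v = bd s t y v := by
  classical
  unfold bd
  refine Finset.sum_congr rfl fun e _ => ?_
  by_cases h1 : s e = v
  · rw [h e (Or.inl h1)]
  · by_cases h2 : t e = v
    · rw [h e (Or.inr h2)]
    · simp [h1, h2]

theorem mem_cut (s t : E → V) (Z : Set V) (e : E) :
    e ∈ cut s t Z ↔ ¬ (s e ∈ Z ↔ t e ∈ Z) := by
  classical
  unfold cut
  simp only [mem_filter, mem_univ, true_and]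

theorem ov_pt (s t : E → V) (X : Set V) (f : E → ℕ) (hf : ∀ e, vc (f e) = true) (p : ℕ)
    (hp : p < 240) (e : E) : ov s X (fun e => pt p (f e)) e = pt p (ov s X f e) := by
  unfold ov
  split_ifs
  · rfl
  · rw [pt_sw p _ hp (hf e)]

end

variable {V : Type}

/-- The edges of `G` between `Z` and the rest. -/
def bdry (G : SimpleGraph V) (Z : Set V) : Set (Sym2 V) :=
  {e | ∃ u v, G.Adj u v ∧ u ∈ Z ∧ v ∉ Z ∧ e = s(u, v)}

/-- First end. -/
noncomputable def sE (G : SimpleGraph V) (e : G.edgeSet) : V := (Quot.out e.1).1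
/-- Second end. -/
noncomputable def tE (G : SimpleGraph V) (e : G.edgeSet) : V := (Quot.out e.1).2

lemma st_mk (G : SimpleGraph V) (e : G.edgeSet) : s(sE G e, tE G e) = e.1 := by
  unfold sE tE
  exact Quot.out_eq e.1

lemma st_adj (G : SimpleGraph V) (e : G.edgeSet) : G.Adj (sE G e) (tE G e) := by
  have h := e.2
  rw [← st_mk G e, SimpleGraph.mem_edgeSet] at h
  exact h

lemma st_eq (G : SimpleGraph V) {u v : V} (h : G.Adj u v) (e : G.edgeSet) :
    e = ⟨s(u, v), h⟩ ↔ (sE G e = u ∧ tE G e = v) ∨ (tE G e = u ∧ sE G e = v) := by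
  rw [Subtype.ext_iff, ← st_mk G e, Sym2.eq_iff]
  constructor
  · rintro (h | ⟨h1, h2⟩)
    · exact Or.inl h
    · exact Or.inr ⟨h2, h1⟩
  · rintro (h | ⟨h1, h2⟩)
    · exact Or.inl h
    · exact Or.inr ⟨h2, h1⟩

lemma cut_card [Finite V] (G : SimpleGraph V) [Fintype G.edgeSet] (Z : Set V) :
    (cut (sE G) (tE G) Z).card = (bdry G Z).ncard := by
  classical
  have h1 : bdry G Z = ((cut (sE G) (tE G) Z).map ⟨Subtype.val, Subtype.val_injective⟩ :
      Finset (Sym2 V)) := by
    ext e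
    simp only [bdry, Set.mem_ofPred_eq, coe_map, Function.Embedding.coeFn_mk, Set.mem_image,
      mem_coe, cut, mem_filter, mem_univ, true_and]
    constructor
    · rintro ⟨u, v, huv, hu, hv, rfl⟩
      refine ⟨⟨s(u, v), huv⟩, ?_, rfl⟩
      rcases (st_eq G huv ⟨s(u, v), huv⟩).1 rfl with ⟨h1, h2⟩ | ⟨h1, h2⟩
      · rw [h1, h2]; tauto
      · rw [h1, h2]; tauto
    · rintro ⟨e, he, rfl⟩
      by_cases hs : sE G e ∈ Z
      · exact ⟨_, _, st_adj G e, hs, fun h => he ⟨fun _ => h, fun _ => hs⟩, (st_mk G e).symm⟩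
      · have ht : tE G e ∈ Z := by
          by_contra h
          exact he ⟨fun h' => absurd h' hs, fun h' => absurd h' h⟩
        exact ⟨_, _, (st_adj G e).symm, ht, hs, by rw [← st_mk G e, Sym2.eq_swap]⟩
  rw [h1, Set.ncard_coe_finset, card_map]

lemma cross {G : SimpleGraph V} (Z : Set V) : ∀ {a b : V} (_ : G.Walk a b), a ∈ Z → b ∉ Z →
    ∃ x y, G.Adj x y ∧ x ∈ Z ∧ y ∉ Z := by
  intro a b p
  induction p with
  | nil => intro h1 h2; exact absurd h1 h2
  | @cons a c b h p ih =>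
    intro h1 h2
    by_cases hc : c ∈ Z
    · exact ih hc h2
    · exact ⟨a, c, h, h1, hc⟩

lemma bridge_conv (G : SimpleGraph V) [Fintype G.edgeSet]
    (h : ∀ u v : V, G.Adj u v → (G.deleteEdges {s(u, v)}).Reachable u v) (Z : Set V) :
    (cut (sE G) (tE G) Z).card ≠ 1 := by
  classical
  intro h1
  obtain ⟨e, he⟩ := Finset.card_eq_one.1 h1
  have hmem : ∀ e', e' ∈ cut (sE G) (tE G) Z ↔ e' = e := fun e' => by rw [he, mem_singleton]
  have h2 : ¬ (sE G e ∈ Z ↔ tE G e ∈ Z) := (mem_cut _ _ Z e).1 ((hmem e).2 rfl)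
  have key : ∀ u v, G.Adj u v → u ∈ Z → v ∉ Z → e.1 = s(u, v) := by
    intro u v huv hu hv
    have h3 : (⟨s(u, v), huv⟩ : G.edgeSet) ∈ cut (sE G) (tE G) Z := by
      rw [mem_cut]
      rcases (st_eq G huv ⟨s(u, v), huv⟩).1 rfl with ⟨h1, h2⟩ | ⟨h1, h2⟩
      · rw [h1, h2]; tauto
      · rw [h1, h2]; tauto
    rw [hmem] at h3
    rw [← h3]
  obtain ⟨u, v, huv, hu, hv⟩ : ∃ u v, G.Adj u v ∧ u ∈ Z ∧ v ∉ Z := by
    by_cases hs : sE G e ∈ Z
    · exact ⟨_, _, st_adj G e, hs, fun h => h2 ⟨fun _ => h, fun _ => hs⟩⟩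
    · have ht : tE G e ∈ Z := by
        by_contra h
        exact h2 ⟨fun h' => absurd h' hs, fun h' => absurd h' h⟩
      exact ⟨_, _, (st_adj G e).symm, ht, hs⟩
  obtain ⟨p⟩ := h u v huv
  obtain ⟨x, y, hxy, hx, hy⟩ := cross Z p hu hv
  rw [SimpleGraph.deleteEdges_adj] at hxy
  have h4 := key u v huv hu hv
  have h5 := key x y hxy.1 hx hy
  exact hxy.2 (by rw [Set.mem_singleton_iff, ← h4, ← h5])

/-- an orientable five cycle double cover, as five conservative functions with values in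
`{-1, 0, 1}` -/
def Five [Fintype V] (G : SimpleGraph V) (g : Fin 5 → V → V → ℤ) : Prop :=
  (∀ i u v, g i v u = - g i u v) ∧ (∀ i u, ∑ w, g i u w = 0) ∧
  (∀ i u v, g i u v = 0 ∨ g i u v = 1 ∨ g i u v = -1) ∧ (∀ i u v, ¬ G.Adj u v → g i u v = 0) ∧
  ∀ u v, G.Adj u v → ∃! i, g i u v = 1

open Classical in
/-- The flow of the coordinate `i` on the pairs of vertices. -/
noncomputable def gfl (G : SimpleGraph V) [Fintype G.edgeSet] (f : G.edgeSet → ℕ) (i : Fin 5)
    (u v : V) : ℤ :=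
  ∑ e, co (f e) i * ((if sE G e = u ∧ tE G e = v then 1 else 0) -
    (if tE G e = u ∧ sE G e = v then 1 else 0))

theorem five_of_good [Fintype V] (G : SimpleGraph V) [Fintype G.edgeSet] (f : G.edgeSet → ℕ)
    (hf : Good (sE G) (tE G) f Set.univ) : Five G (gfl G f) := by
  classical
  have hanti : ∀ i u v, gfl G f i v u = - gfl G f i u v := by
    intro i u v
    unfold gfl
    rw [← Finset.sum_neg_distrib]
    refine Finset.sum_congr rfl fun e _ => ?_
    simp only [and_comm]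
    ring
  have hz : ∀ i u v, ¬ G.Adj u v → gfl G f i u v = 0 := by
    intro i u v h
    unfold gfl
    refine Finset.sum_eq_zero fun e _ => ?_
    rw [if_neg, if_neg]
    · ring
    · rintro ⟨h1, h2⟩
      exact h (h1 ▸ h2 ▸ (st_adj G e).symm)
    · rintro ⟨h1, h2⟩
      exact h (h1 ▸ h2 ▸ (st_adj G e))
  have hval : ∀ u v (h : G.Adj u v), (∀ i, gfl G f i u v = co (f ⟨s(u, v), h⟩) i) ∨
      ∀ i, gfl G f i u v = - co (f ⟨s(u, v), h⟩) i := by
    intro u v h
    have hne := h.ne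
    have h0 : ∀ i, gfl G f i u v = co (f ⟨s(u, v), h⟩) i *
        ((if sE G ⟨s(u, v), h⟩ = u ∧ tE G ⟨s(u, v), h⟩ = v then 1 else 0) -
          (if tE G ⟨s(u, v), h⟩ = u ∧ sE G ⟨s(u, v), h⟩ = v then 1 else 0)) := by
      intro i
      unfold gfl
      refine Finset.sum_eq_single_of_mem (⟨s(u, v), h⟩ : G.edgeSet) (mem_univ _) ?_
      intro e _ hne'
      have h1 := (st_eq G h e).not.1 hne'
      push Not at h1
      rw [if_neg (fun h2 => h1.1 h2.1 h2.2), if_neg (fun h2 => h1.2 h2.1 h2.2)]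
      ring
    rcases (st_eq G h ⟨s(u, v), h⟩).1 rfl with ⟨h1, h2⟩ | ⟨h1, h2⟩
    · left
      intro i
      rw [h0 i, if_pos (And.intro h1 h2), if_neg (fun h3 => hne (h1.symm.trans h3.2))]
      ring
    · right
      intro i
      rw [h0 i, if_neg (fun h3 => hne (h3.1.symm.trans h2)), if_pos (And.intro h1 h2)]
      ring
  refine ⟨hanti, ?_, ?_, hz, ?_⟩
  · intro i u
    rw [← hf.2 u (Set.mem_univ _) i i.2]
    unfold gfl bd
    rw [Finset.sum_comm]
    refine Finset.sum_congr rfl fun e _ => ?_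
    rw [← Finset.mul_sum, Finset.sum_sub_distrib]
    congr 2
    · by_cases h : sE G e = u <;> simp [h]
    · by_cases h : tE G e = u <;> simp [h]
  · intro i u v
    by_cases h : G.Adj u v
    · have h1 : co (f ⟨s(u, v), h⟩) i = 0 ∨ co (f ⟨s(u, v), h⟩) i = 1 ∨
          co (f ⟨s(u, v), h⟩) i = -1 := by
        unfold co
        split_ifs <;> simp
      rcases hval u v h with h2 | h2
      · rw [h2 i]; exact h1
      · rw [h2 i]
        rcases h1 with h1 | h1 | h1 <;> rw [h1] <;> simp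
    · exact Or.inl (hz i u v h)
  · intro u v h
    obtain ⟨h25, hne⟩ := (vc_iff _).1 (hf.1 ⟨s(u, v), h⟩)
    rcases hval u v h with h2 | h2
    · refine ⟨⟨f ⟨s(u, v), h⟩ / 5, by omega⟩, ?_, ?_⟩
      · show gfl G f _ u v = 1
        rw [h2]
        unfold co
        rw [if_pos rfl, if_neg (fun h' => hne h'.symm)]
        norm_num
      · intro j hj
        have hj' : gfl G f j u v = 1 := hj
        rw [h2] at hj'
        unfold co at hj'
        by_cases h3 : f ⟨s(u, v), h⟩ / 5 = j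
        · exact Fin.ext h3.symm
        · rw [if_neg h3] at hj'
          split_ifs at hj' <;> norm_num at hj'
    · refine ⟨⟨f ⟨s(u, v), h⟩ % 5, by omega⟩, ?_, ?_⟩
      · show gfl G f _ u v = 1
        rw [h2]
        unfold co
        rw [if_neg hne, if_pos rfl]
        norm_num
      · intro j hj
        have hj' : gfl G f j u v = 1 := hj
        rw [h2] at hj'
        unfold co at hj'
        by_cases h3 : f ⟨s(u, v), h⟩ % 5 = j
        · exact Fin.ext h3.symm
        · rw [if_neg h3] at hj'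
          split_ifs at hj' <;> norm_num at hj'

end Pool.Agent.X82.OC0
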