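import Pool.Agent.TH505.OW.Perm
import Pool.Agent.H160R2.HF.Hoffman
import Pool.Agent.TH362.TF.Defs

/-!
Orientable five cycle double covers: graphs with a nowhere-zero 4-flow, and the symmetries of the
oriented triangles of roots.
-/

set_option autoImplicit false
set_option linter.unusedSectionVars false

open Finset

namespace Pool.Agent.X82.OC

open Pool.Agent.TH505.OW (Good bd co vc vc_iff sw pt)
open Pool.Agent.TH362.TF (F Cons)

/-- the root of the system `A₃` that belongs to a root of the system `D₃` -/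
theorem code_of (x y z : ℤ) (h : (x = 0 ∧ (y = 1 ∨ y = -1) ∧ (z = 1 ∨ z = -1)) ∨
    (y = 0 ∧ (x = 1 ∨ x = -1) ∧ (z = 1 ∨ z = -1)) ∨
    (z = 0 ∧ (x = 1 ∨ x = -1) ∧ (y = 1 ∨ y = -1))) :
    ∃ c, vc c = true ∧ 2 * co c 0 = 1 * x + 1 * y + 1 * z ∧
      2 * co c 1 = 1 * x + (-1) * y + (-1) * z ∧
      2 * co c 2 = (-1) * x + 1 * y + (-1) * z ∧ 2 * co c 3 = (-1) * x + (-1) * y + 1 * z ∧
      2 * co c 4 = 0 * x + 0 * y + 0 * z := by
  rcases h with ⟨rfl, rfl | rfl, rfl | rfl⟩ | ⟨rfl, rfl | rfl, rfl | rfl⟩ |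
    ⟨rfl, rfl | rfl, rfl | rfl⟩
  · exact ⟨1, by decide, by decide, by decide, by decide, by decide, by decide⟩
  · exact ⟨13, by decide, by decide, by decide, by decide, by decide, by decide⟩
  · exact ⟨17, by decide, by decide, by decide, by decide, by decide, by decide⟩
  · exact ⟨5, by decide, by decide, by decide, by decide, by decide, by decide⟩
  · exact ⟨2, by decide, by decide, by decide, by decide, by decide, by decide⟩
  · exact ⟨8, by decide, by decide, by decide, by decide, by decide, by decide⟩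
  · exact ⟨16, by decide, by decide, by decide, by decide, by decide, by decide⟩
  · exact ⟨10, by decide, by decide, by decide, by decide, by decide, by decide⟩
  · exact ⟨3, by decide, by decide, by decide, by decide, by decide, by decide⟩
  · exact ⟨7, by decide, by decide, by decide, by decide, by decide, by decide⟩
  · exact ⟨11, by decide, by decide, by decide, by decide, by decide, by decide⟩
  · exact ⟨15, by decide, by decide, by decide, by decide, by decide, by decide⟩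

section

variable {V E : Type} [Fintype V] [Fintype E] [DecidableEq V] [DecidableEq E]

theorem net_bd (s t : E → V) (x : E → ℤ) (v : V) :
    Pool.Agent.H160R2.HF.net s t x v = bd s t x v := by
  unfold Pool.Agent.H160R2.HF.net bd
  rw [sum_filter, sum_filter, ← sum_sub_distrib]
  refine sum_congr rfl fun e _ => ?_
  by_cases h1 : s e = v <;> by_cases h2 : t e = v <;> simp [h1, h2]

theorem orient_even (s t : E → V) (φ : E → F) (hc : ∀ v, Cons s t univ φ v) (L : F →+ ZMod 2) :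
    ∃ ψ : E → ℤ, (∀ e, (L (φ e) = 1 → ψ e = 1 ∨ ψ e = -1) ∧ (L (φ e) = 0 → ψ e = 0)) ∧
      ∀ v, bd s t ψ v = 0 := by
  have hz : ∀ a : ZMod 2, a = 0 ∨ a = 1 := by decide
  obtain ⟨ψ, h1, h2⟩ := Pool.Agent.H160R2.HF.eulerian s t (univ.filter fun e => L (φ e) = 1) (by
    intro v
    rw [← ZMod.natCast_eq_zero_iff_even, Nat.cast_add, card_filter, card_filter, Nat.cast_sum,
      Nat.cast_sum, sum_filter, sum_filter, ← sum_add_distrib]
    have h3 : ∑ e, L ((if s e = v then φ e else 0) + (if t e = v then φ e else 0)) = 0 := by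
      have h4 : ∑ e, ((if s e = v then φ e else 0) + (if t e = v then φ e else 0)) = 0 := hc v
      rw [← map_sum, h4, map_zero]
    refine Eq.trans (sum_congr rfl fun e _ => ?_) h3
    rw [map_add]
    rcases hz (L (φ e)) with h4 | h4 <;> by_cases h5 : s e = v <;> by_cases h6 : t e = v <;>
      simp [h4, h5, h6])
  refine ⟨ψ, fun e => ⟨fun h => (h1 e).1 (by simp [h]), fun h => (h1 e).2 (by simp [h])⟩,
    fun v => ?_⟩
  rw [← net_bd]
  exact h2 v

/-- a nowhere-zero flow with values in the group with four elements gives an orientable double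
cover with four classes -/
theorem four_good (s t : E → V) (φ : E → F) (h0 : ∀ e, φ e ≠ 0) (hc : ∀ v, Cons s t univ φ v) :
    ∃ f : E → ℕ, Good s t f Set.univ := by
  obtain ⟨x, hx1, hx2⟩ := orient_even s t φ hc (AddMonoidHom.fst (ZMod 2) (ZMod 2))
  obtain ⟨y, hy1, hy2⟩ := orient_even s t φ hc (AddMonoidHom.snd (ZMod 2) (ZMod 2))
  obtain ⟨z, hz1, hz2⟩ := orient_even s t φ hc
    (AddMonoidHom.fst (ZMod 2) (ZMod 2) + AddMonoidHom.snd (ZMod 2) (ZMod 2))
  have hF : ∀ a : F, a ≠ 0 → (a.1 = 0 ∧ a.2 = 1 ∧ a.1 + a.2 = 1) ∨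
      (a.2 = 0 ∧ a.1 = 1 ∧ a.1 + a.2 = 1) ∨ (a.1 + a.2 = 0 ∧ a.1 = 1 ∧ a.2 = 1) := by decide
  have key : ∀ e, ∃ c, vc c = true ∧ 2 * co c 0 = 1 * x e + 1 * y e + 1 * z e ∧
      2 * co c 1 = 1 * x e + (-1) * y e + (-1) * z e ∧
      2 * co c 2 = (-1) * x e + 1 * y e + (-1) * z e ∧
      2 * co c 3 = (-1) * x e + (-1) * y e + 1 * z e ∧
      2 * co c 4 = 0 * x e + 0 * y e + 0 * z e := by
    intro e
    apply code_of
    rcases hF (φ e) (h0 e) with ⟨h1, h2, h3⟩ | ⟨h1, h2, h3⟩ | ⟨h1, h2, h3⟩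
    · exact Or.inl ⟨(hx1 e).2 h1, (hy1 e).1 h2, (hz1 e).1 h3⟩
    · exact Or.inr (Or.inl ⟨(hy1 e).2 h1, (hx1 e).1 h2, (hz1 e).1 h3⟩)
    · exact Or.inr (Or.inr ⟨(hz1 e).2 h1, (hx1 e).1 h2, (hy1 e).1 h3⟩)
  choose c hc1 hc2 hc3 hc4 hc5 hc6 using key
  have lin : ∀ (g : E → ℤ) (p q r : ℤ), (∀ e, 2 * g e = p * x e + q * y e + r * z e) →
      ∀ v, bd s t g v = 0 := by
    intro g p q r hg v
    have h1 : 2 * bd s t g v = p * bd s t x v + q * bd s t y v + r * bd s t z v := by
      unfold bd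
      rw [mul_sum, mul_sum, mul_sum, mul_sum, ← sum_add_distrib, ← sum_add_distrib]
      refine sum_congr rfl fun e _ => ?_
      rw [← mul_assoc, hg e]
      ring
    rw [hx2, hy2, hz2] at h1
    omega
  refine ⟨c, hc1, fun v _ i hi => ?_⟩
  have h5 : i = 0 ∨ i = 1 ∨ i = 2 ∨ i = 3 ∨ i = 4 := by omega
  rcases h5 with rfl | rfl | rfl | rfl | rfl
  · exact lin _ _ _ _ hc2 v
  · exact lin _ _ _ _ hc3 v
  · exact lin _ _ _ _ hc4 v
  · exact lin _ _ _ _ hc5 v
  · exact lin _ _ _ _ hc6 v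

/-- the local version -/
theorem four_local (s t : E → V) (X : Set V) (hX : ∃ w, w ∉ X) (φ : E → F)
    (h0 : ∀ e, s e ∈ X ∨ t e ∈ X → φ e ≠ 0) (hc : ∀ v ∈ X, Cons s t univ φ v) :
    ∃ f : E → ℕ, Good s t f X := by
  classical
  obtain ⟨w, hw⟩ := hX
  obtain ⟨r, hr⟩ : ∃ r : V → V, r = fun v => if v ∈ X then v else w := ⟨_, rfl⟩
  have hr1 : ∀ u v, v ∈ X → (r u = v ↔ u = v) := by
    intro u v hv
    rw [hr]
    by_cases h : u ∈ X
    · simp only [if_pos h]
    · simp only [if_neg h]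
      exact ⟨fun h' => absurd (h' ▸ hv) hw, fun h' => absurd (h' ▸ hv) h⟩
  have hr2 : ∀ u v, v ∉ X → v ≠ w → r u ≠ v := by
    intro u v hv hvw
    rw [hr]
    by_cases h : u ∈ X
    · simp only [if_pos h]
      exact fun h' => hv (h' ▸ h)
    · simp only [if_neg h]
      exact fun h' => hvw h'.symm
  obtain ⟨φ', hφ'⟩ : ∃ φ' : E → F, φ' = fun e => if s e ∈ X ∨ t e ∈ X then φ e else (1, 0) :=
    ⟨_, rfl⟩
  have hne : ∀ e, φ' e ≠ 0 := by
    intro e
    rw [hφ']
    by_cases h : s e ∈ X ∨ t e ∈ X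
    · simp only [if_pos h]
      exact h0 e h
    · simp only [if_neg h]
      decide
  have hoth : ∀ v, v ≠ w → Cons (fun e => r (s e)) (fun e => r (t e)) univ φ' v := by
    intro v hv
    by_cases hvX : v ∈ X
    · refine Eq.trans (sum_congr rfl fun e _ => ?_) (hc v hvX)
      simp only [hr1 _ _ hvX]
      congr 1
      · by_cases h : s e = v
        · rw [if_pos h, if_pos h, hφ']
          exact if_pos (Or.inl (h ▸ hvX))
        · rw [if_neg h, if_neg h]
      · by_cases h : t e = v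
        · rw [if_pos h, if_pos h, hφ']
          exact if_pos (Or.inr (h ▸ hvX))
        · rw [if_neg h, if_neg h]
    · refine sum_eq_zero fun e _ => ?_
      rw [if_neg (hr2 _ _ hvX hv), if_neg (hr2 _ _ hvX hv), add_zero]
  have hall : ∀ v, Cons (fun e => r (s e)) (fun e => r (t e)) univ φ' v := by
    intro v
    by_cases hv : v = w
    · have h1 : ∑ v, ∑ e, ((if r (s e) = v then φ' e else 0) + (if r (t e) = v then φ' e else 0)) =
          0 := by
        rw [sum_comm]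
        refine sum_eq_zero fun e _ => ?_
        rw [sum_add_distrib, sum_ite_eq, sum_ite_eq, if_pos (mem_univ _), if_pos (mem_univ _)]
        have : ∀ a : F, a + a = 0 := by decide
        exact this _
      rw [sum_eq_single w (fun u _ hu => hoth u hu) (fun h => absurd (mem_univ _) h)] at h1
      rw [hv]
      exact h1
    · exact hoth v hv
  obtain ⟨f, hf1, hf2⟩ := four_good (fun e => r (s e)) (fun e => r (t e)) φ' hne hall
  refine ⟨f, hf1, fun v hv i hi => ?_⟩
  rw [← hf2 v (Set.mem_univ v) i hi]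
  unfold bd
  refine sum_congr rfl fun e _ => ?_
  have e1 := hr1 (s e) v hv
  have e2 := hr1 (t e) v hv
  have e3 : r v = v := (hr1 v v hv).2 rfl
  by_cases h1 : s e = v <;> by_cases h2 : t e = v <;> simp [h1, h2, e1, e2, e3]

end

/-- the sum of three roots is zero -/
def zs (a b c : ℕ) : Bool := (List.range 5).all fun i => decide (co a i + co b i + co c i = 0)

theorem tri_all : ∀ a b c : Fin 25, (vc a && vc b && vc c && zs a b c) = true →
    (∃ p : Fin 240, pt p 1 = a ∧ pt p 7 = b ∧ pt p 10 = c) ∧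
    ∃ p : Fin 240, pt p a = 1 ∧ pt p b = 7 ∧ pt p c = 10 := by
  decide +kernel

theorem two_all : ∀ a b : Fin 25, (vc a && vc b) = true → ∃ p : Fin 240, pt p a = b := by
  decide +kernel

/-- two triples of roots with sum zero differ by a symmetry -/
theorem match3 (a b : Fin 3 → ℕ) (ha : ∀ j, vc (a j) = true) (hb : ∀ j, vc (b j) = true)
    (sa : ∀ i < 5, co (a 0) i + co (a 1) i + co (a 2) i = 0)
    (sb : ∀ i < 5, co (b 0) i + co (b 1) i + co (b 2) i = 0) :
    ∃ p < 240, ∃ q < 240, ∀ j, pt p (pt q (a j)) = b j := by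
  have h25 : ∀ c, vc c = true → c < 25 := fun c h => ((vc_iff c).1 h).1
  have hz : ∀ a : Fin 3 → ℕ, (∀ i < 5, co (a 0) i + co (a 1) i + co (a 2) i = 0) →
      zs (a 0) (a 1) (a 2) = true := by
    intro a sa
    unfold zs
    rw [List.all_eq_true]
    intro i hi
    rw [List.mem_range] at hi
    exact decide_eq_true (sa i hi)
  obtain ⟨-, ⟨q, h1, h2, h3⟩⟩ := tri_all ⟨a 0, h25 _ (ha 0)⟩ ⟨a 1, h25 _ (ha 1)⟩
    ⟨a 2, h25 _ (ha 2)⟩ (by
      simp only [Bool.and_eq_true]
      exact ⟨⟨⟨ha 0, ha 1⟩, ha 2⟩, hz a sa⟩)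
  obtain ⟨⟨p, k1, k2, k3⟩, -⟩ := tri_all ⟨b 0, h25 _ (hb 0)⟩ ⟨b 1, h25 _ (hb 1)⟩
    ⟨b 2, h25 _ (hb 2)⟩ (by
      simp only [Bool.and_eq_true]
      exact ⟨⟨⟨hb 0, hb 1⟩, hb 2⟩, hz b sb⟩)
  refine ⟨p, p.2, q, q.2, fun j => ?_⟩
  fin_cases j
  · show pt p (pt q (a 0)) = b 0
    rw [h1, k1]
  · show pt p (pt q (a 1)) = b 1
    rw [h2, k2]
  · show pt p (pt q (a 2)) = b 2
    rw [h3, k3]

end Pool.Agent.X82.OC
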