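import Pool.Agent.X82.OC1
import Pool.Agent.X82.OC0
import Pool.Agent.X42.FewCuts
import Pool.Agent.X42.FewCover

/-!
Orientable five cycle double covers of bridgeless graphs with few small odd cuts.
-/

set_option autoImplicit false
set_option linter.unusedSectionVars false

open Finset

namespace Pool.Agent.X82.OC

open Pool.Agent.TH505.OW (Good bd co vc vc_iff sw pt ov act_good pt_vc pt_sw sw_sw co_sw
  vc_sw)
open Pool.Agent.X82.OC0 (ov_pt bd_congr)
open Pool.Agent.TH362.TF
open Pool.Agent.X42.FlowH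
open Pool.Agent.TH362.TF.Contr (nb_inj nb_ne padj_nb struct)
open Pool.Agent.TH362.TF.Str (joins_other)

/-- the codes of an orientable double cover of the Petersen graph at the edges leaving `k` -/
def PC (k : Fin 10) (j : Fin 3) : ℕ :=
  (![![1, 7, 10], ![2, 5, 11], ![3, 10, 17], ![13, 15, 2], ![11, 17, 8], ![14, 20, 2],
    ![14, 21, 7], ![19, 22, 13], ![4, 22, 10], ![9, 23, 16]] : Fin 10 → Fin 3 → ℕ) k j

/-- the code from `k` to `l` -/
def PE (k l : Fin 10) : ℕ :=
  if nb k 0 = l then PC k 0 else if nb k 1 = l then PC k 1 else PC k 2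

theorem PE_nb : ∀ k j, PE k (nb k j) = PC k j ∧ PE (nb k j) k = sw (PC k j) := by decide +kernel

theorem PC_vc : ∀ k j, vc (PC k j) = true := by decide +kernel

theorem PC_sum' : ∀ k : Fin 10, ∀ i : Fin 5, co (PC k 0) i + co (PC k 1) i + co (PC k 2) i = 0 := by
  decide +kernel

theorem PC_sum (k : Fin 10) : ∀ i < 5, co (PC k 0) i + co (PC k 1) i + co (PC k 2) i = 0 :=
  fun i hi => PC_sum' k ⟨i, hi⟩

variable {V E : Type} [Fintype V] [Fintype E] [DecidableEq V] [DecidableEq E]

open Classical in
theorem cut_sum (s t : E → V) (X : Set V) (x : E → ℤ) (h : ∀ v ∈ X, bd s t x v = 0) :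
    ∑ e, x e * ((if s e ∈ X then 1 else 0) - (if t e ∈ X then 1 else 0)) = 0 := by
  have h1 : ∑ v, (if v ∈ X then bd s t x v else 0) = 0 := by
    refine sum_eq_zero fun v _ => ?_
    split_ifs with h2
    · exact h v h2
    · rfl
  have h2 : ∀ v, (if v ∈ X then bd s t x v else 0) =
      ∑ e, x e * ((if s e = v then (if v ∈ X then 1 else 0) else 0) -
        (if t e = v then (if v ∈ X then 1 else 0) else 0)) := by
    intro v
    unfold bd
    split_ifs with h3
    · refine sum_congr rfl fun e _ => ?_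
      by_cases h4 : s e = v <;> by_cases h5 : t e = v <;> simp [h4, h5]
    · symm
      refine sum_eq_zero fun e _ => ?_
      split_ifs <;> simp
  simp_rw [h2] at h1
  rw [sum_comm] at h1
  refine Eq.trans (sum_congr rfl fun e _ => ?_) h1
  rw [← mul_sum, sum_sub_distrib, sum_ite_eq, sum_ite_eq]
  simp

theorem out_sum {s t : E → V} {κ : V → Fin 10} (k : Fin 10) (ee : Fin 3 → E)
    (he1 : ∀ j, Joins κ s t k (nb k j) (ee j))
    (he2 : ∀ x, ¬ (κ (s x) = k ↔ κ (t x) = k) → ∃ j, x = ee j) (f : E → ℕ)
    (hf : Good s t f {v | κ v = k}) : ∀ i < 5, co (ov s {v | κ v = k} f (ee 0)) i +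
      co (ov s {v | κ v = k} f (ee 1)) i + co (ov s {v | κ v = k} f (ee 2)) i = 0 := by
  classical
  intro i hi
  have h1 := cut_sum s t {v | κ v = k} (fun e => co (f e) i) (fun v hv => hf.2 v hv i hi)
  have hinj : Function.Injective ee := by
    intro a b hab
    have h2 := he1 a
    rw [hab] at h2
    exact nb_inj k a b (joins_other (nb_ne k a).symm h2 (he1 b))
  have h2 := Fintype.sum_of_injective ee hinj
    (fun j => co (ov s {v | κ v = k} f (ee j)) i)
    (fun e => co (f e) i * ((if s e ∈ {v | κ v = k} then 1 else 0) -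
      (if t e ∈ {v | κ v = k} then 1 else 0))) (by
      intro e he
      have h3 : (κ (s e) = k ↔ κ (t e) = k) := by
        by_contra h4
        obtain ⟨j, hj⟩ := he2 e h4
        exact he ⟨j, hj.symm⟩
      simp only [Set.mem_ofPred_eq]
      by_cases h4 : κ (s e) = k
      · rw [if_pos h4, if_pos (h3.1 h4)]; ring
      · rw [if_neg h4, if_neg (fun h5 => h4 (h3.2 h5))]; ring) (by
      intro j
      have h25 := ((vc_iff _).1 (hf.1 (ee j))).1
      unfold ov
      simp only [Set.mem_ofPred_eq]
      rcases he1 j with ⟨a, b⟩ | ⟨a, b⟩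
      · rw [if_pos a, if_pos a, if_neg (fun h5 => nb_ne k j (b.symm.trans h5))]; ring
      · have h6 : ¬ κ (s (ee j)) = k := fun h5 => nb_ne k j (a.symm.trans h5)
        rw [if_neg h6, if_neg h6, if_pos b, co_sw _ _ h25]; ring)
  rw [Fin.sum_univ_three] at h2
  exact h2.trans (by convert h1)

theorem ocdc {s t : E → V} (h1 : N1 s t univ) (h2 : ¬ Bad s t univ) :
    ∃ f : E → ℕ, Good s t f Set.univ := by
  classical
  rcases mainB s t univ h1 h2 with ⟨φ, hφ1, hφ2⟩ | ⟨κ, hκ⟩
  · exact four_good s t φ (fun e => hφ1 e (mem_univ e)) hφ2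
  · choose φ hφ using fun k => sideInn h1 h2 hκ k
    choose ee he1 he2 using fun k => struct s t κ hκ k
    have hloc : ∀ k, ∃ f : E → ℕ, Good s t f {v | κ v = k} := by
      intro k
      refine four_local s t {v | κ v = k} ?_ (φ k)
        (fun e he => (hφ k).1 e (mem_univ e) he) (hφ k).2
      rcases he1 k 0 with ⟨_, b⟩ | ⟨a, _⟩
      · exact ⟨t (ee k 0), fun h3 => nb_ne k 0 (b.symm.trans h3)⟩
      · exact ⟨s (ee k 0), fun h3 => nb_ne k 0 (a.symm.trans h3)⟩
    choose f hf using hloc
    have hvo : ∀ k e, vc (ov s {v | κ v = k} (f k) e) = true := by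
      intro k e
      unfold ov
      split_ifs
      · exact (hf k).1 e
      · exact vc_sw _ ((hf k).1 e)
    have hm := fun k => match3 (fun j => ov s {v | κ v = k} (f k) (ee k j)) (PC k)
      (fun j => hvo k (ee k j)) (PC_vc k) (out_sum k (ee k) (he1 k) (he2 k) (f k) (hf k))
      (PC_sum k)
    choose p hp q hq hpq using hm
    obtain ⟨g, hgd⟩ : ∃ g : Fin 10 → E → ℕ, g = fun k e => pt (p k) (pt (q k) (f k e)) := ⟨_, rfl⟩
    have hg0 : ∀ k, Good s t (fun e => pt (q k) (f k e)) {v | κ v = k} := fun k =>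
      act_good V E s t _ (f k) (q k) (hq k) (hf k)
    have hg : ∀ k, Good s t (g k) {v | κ v = k} := by
      intro k
      rw [hgd]
      exact act_good V E s t _ _ (p k) (hp k) (hg0 k)
    have hgo : ∀ k j, ov s {v | κ v = k} (g k) (ee k j) = PC k j := by
      intro k j
      rw [hgd]
      have e1 := ov_pt s t {v | κ v = k} (fun e => pt (q k) (f k e)) (hg0 k).1 (p k) (hp k) (ee k j)
      have e2 := ov_pt s t {v | κ v = k} (f k) (hf k).1 (q k) (hq k) (ee k j)
      rw [← hpq k j, ← e2]
      exact e1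
    have key : ∀ k x, κ (s x) = k ∨ κ (t x) = k →
        (if κ (s x) = κ (t x) then g (κ (s x)) x else PE (κ (s x)) (κ (t x))) = g k x := by
      intro k x hx
      by_cases hin : κ (s x) = κ (t x)
      · have h3 : κ (s x) = k := by
          rcases hx with hx | hx
          · exact hx
          · rw [hin]; exact hx
        rw [if_pos hin, h3]
      · have h3 : ¬ (κ (s x) = k ↔ κ (t x) = k) := by
          intro hh
          rcases hx with hx | hx
          · exact hin (hx.trans (hh.1 hx).symm)
          · exact hin ((hh.2 hx).trans hx.symm)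
        obtain ⟨j, rfl⟩ := he2 k x h3
        rw [if_neg hin]
        have h4 := hgo k j
        have h25 := ((vc_iff _).1 ((hg k).1 (ee k j))).1
        unfold ov at h4
        simp only [Set.mem_ofPred_eq] at h4
        rcases he1 k j with ⟨a, b⟩ | ⟨a, b⟩
        · rw [if_pos a] at h4
          rw [a, b, (PE_nb k j).1, h4]
        · rw [if_neg (fun h5 => nb_ne k j (a.symm.trans h5))] at h4
          rw [a, b, (PE_nb k j).2, ← h4, sw_sw _ h25]
    refine ⟨fun x => if κ (s x) = κ (t x) then g (κ (s x)) x else PE (κ (s x)) (κ (t x)),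
      fun x => ?_, fun v _ i hi => ?_⟩
    · have h3 := key (κ (s x)) x (Or.inl rfl)
      show vc (if κ (s x) = κ (t x) then g (κ (s x)) x else PE (κ (s x)) (κ (t x))) = true
      rw [h3]
      exact (hg _).1 x
    · rw [← (hg (κ v)).2 v rfl i hi]
      apply bd_congr
      intro e he
      have h3 := key (κ v) e (by
        rcases he with h | h
        · exact Or.inl (by rw [h])
        · exact Or.inr (by rw [h]))
      show co (if κ (s e) = κ (t e) then g (κ (s e)) e else PE (κ (s e)) (κ (t e))) i = _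
      rw [h3]

end Pool.Agent.X82.OC
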