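import Pool.Agent.X82.OC2

/-!
From flows with values in the roots to families of directed cycles.
-/

set_option autoImplicit false
set_option linter.unusedSectionVars false

open Finset

namespace Pool.Agent.X82.OC

open Pool.Agent.TH505.OW (Good co bd)
open Pool.Agent.X82.OC0 (sE tE st_adj st_eq st_mk bridge_conv five_of_good gfl bdry cut_card mem_cut)
open Pool.Agent.TH505.OCDC

open scoped Classical in
theorem cycles_of_good {V : Type} [Fintype V] (G : SimpleGraph V)
    (h : ∃ f : G.edgeSet → ℕ, Good (sE G) (tE G) f Set.univ) :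
    ∃ C : Fin 5 → List (Σ v : V, G.Walk v v), (∀ i, ∀ c ∈ C i, c.2.IsCycle) ∧
      (∀ i u v, tot (C i) u v + tot (C i) v u ≤ 1) ∧
      ∀ u v, G.Adj u v → ∑ i, tot (C i) u v = 1 := by
  obtain ⟨f, hf⟩ := h
  obtain ⟨h1, h2, h4, h5, h6⟩ := five_of_good G f hf
  have key : ∀ i, ∃ C : List (Σ v : V, G.Walk v v), (∀ c ∈ C, c.2.IsCycle) ∧
      ∀ u v, tot C u v = ind (gfl G f i u v = 1) := fun i =>
    flow_decomp (gfl G f i) (h1 i) (h4 i) (fun u v hne => by
      by_contra h'
      exact hne (h5 i u v h')) (h2 i)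
  choose C hC1 hC2 using key
  refine ⟨C, hC1, ?_, ?_⟩
  · intro i u v
    rw [hC2, hC2, h1 i u v]
    rcases h4 i u v with h7 | h7 | h7
    · rw [h7, ind_neg (by norm_num), ind_neg (by norm_num)]; norm_num
    · rw [h7, ind_pos rfl, ind_neg (by norm_num)]
    · rw [h7, ind_neg (by norm_num), ind_pos (by norm_num)]
  · intro u v huv
    rw [Finset.sum_congr rfl (fun i _ => hC2 i u v)]
    obtain ⟨i, hi1, hi2⟩ := h6 u v huv
    rw [Finset.sum_eq_single i]
    · exact ind_pos hi1
    · intro k _ hk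
      exact ind_neg (fun h' => hk (hi2 k h'))
    · intro h'; exact absurd (mem_univ _) h'

theorem n1_conv {V : Type} [Fintype V] (G : SimpleGraph V) [Fintype G.edgeSet]
    (h : ∀ u v : V, G.Adj u v → (G.deleteEdges {s(u, v)}).Reachable u v) :
    Pool.Agent.TH362.TF.N1 (sE G) (tE G) univ := by
  classical
  intro x
  have h1 := bridge_conv G h {v | x v = true}
  have h2 : Pool.Agent.TH505.OW.cut (sE G) (tE G) {v | x v = true} =
      Pool.Agent.TH362.TF.cut (sE G) (tE G) univ x := by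
    ext e
    rw [mem_cut]
    unfold Pool.Agent.TH362.TF.cut
    rw [mem_filter]
    simp only [mem_univ, true_and, Set.mem_ofPred_eq]
    cases x (sE G e) <;> cases x (tE G e) <;> simp
  rw [← h2]
  exact h1

theorem boundary_conv {V : Type} [Fintype V] (G : SimpleGraph V) [Fintype G.edgeSet] (X : Set V) :
    Pool.Agent.X42.FewCuts.boundary (sE G) (tE G) X = (bdry G X).ncard := by
  classical
  rw [← cut_card]
  unfold Pool.Agent.X42.FewCuts.boundary
  rw [← Set.ncard_coe_finset]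
  congr 1
  ext e
  rw [mem_coe, mem_cut]
  rfl

theorem nbr_conv {V : Type} [Fintype V] (G : SimpleGraph V) (v : V) :
    {w | w ≠ v ∧ ∃ e, (sE G e = v ∧ tE G e = w) ∨ (sE G e = w ∧ tE G e = v)} =
      G.neighborSet v := by
  ext w
  simp only [Set.mem_ofPred_eq, SimpleGraph.mem_neighborSet]
  constructor
  · rintro ⟨_, e, ⟨h1, h2⟩ | ⟨h1, h2⟩⟩
    · rw [← h1, ← h2]; exact st_adj G e
    · rw [← h1, ← h2]; exact (st_adj G e).symm
  · intro h
    refine ⟨h.ne', ⟨s(v, w), h⟩, ?_⟩
    rcases (st_eq G h ⟨s(v, w), h⟩).1 rfl with ⟨h1, h2⟩ | ⟨h1, h2⟩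
    · exact Or.inl ⟨h1, h2⟩
    · exact Or.inr ⟨h2, h1⟩

end Pool.Agent.X82.OC
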