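import Pool.Agent.X82.OC1

/-!
Operations on graphs with orientable five cycle double covers: identification of vertices,
edge-disjoint unions, sums along cuts with at most three edges.
-/

set_option autoImplicit false
set_option linter.unusedSectionVars false

open Finset

namespace Pool.Agent.X82.OC

open Pool.Agent.TH505.OW (Good bd co vc vc_iff sw pt act_good pt_vc pt_sw sw_sw co_sw
  vc_sw)

/-- there is an orientable double cover with five classes -/
def OG {V E : Type} [Fintype E] (s t : E → V) : Prop := ∃ f : E → ℕ, Good s t f Set.univ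

section

variable {V W E : Type} [Fintype E]

/-- identification of vertices -/
theorem og_map {s t : E → V} (c : V → W) (h : OG s t) : OG (c ∘ s) (c ∘ t) := by
  classical
  obtain ⟨f, hf1, hf2⟩ := h
  refine ⟨f, hf1, fun w _ i hi => ?_⟩
  have key : bd (c ∘ s) (c ∘ t) (fun e => co (f e) i) w =
      ∑ v ∈ (univ.image s ∪ univ.image t).filter (fun v => c v = w),
        bd s t (fun e => co (f e) i) v := by
    unfold bd
    rw [sum_comm]
    refine sum_congr rfl fun e _ => ?_
    rw [← mul_sum, sum_sub_distrib, sum_ite_eq, sum_ite_eq]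
    have h1 : s e ∈ (univ.image s ∪ univ.image t).filter (fun v => c v = w) ↔ c (s e) = w := by
      rw [mem_filter, mem_union]
      exact ⟨fun h => h.2, fun h => ⟨Or.inl (mem_image_of_mem s (mem_univ e)), h⟩⟩
    have h2 : t e ∈ (univ.image s ∪ univ.image t).filter (fun v => c v = w) ↔ c (t e) = w := by
      rw [mem_filter, mem_union]
      exact ⟨fun h => h.2, fun h => ⟨Or.inr (mem_image_of_mem t (mem_univ e)), h⟩⟩
    by_cases h3 : c (s e) = w <;> by_cases h4 : c (t e) = w <;> simp [h1, h2, h3, h4]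
  rw [key]
  exact sum_eq_zero fun v _ => hf2 v (Set.mem_univ v) i hi

open Classical in
/-- edge-disjoint unions -/
theorem og_union {s t : E → V} (D : Set E) (hA : OG s (fun e => if e ∈ D then s e else t e))
    (hB : OG s (fun e => if e ∈ Dᶜ then s e else t e)) : OG s t := by
  obtain ⟨f, hf1, hf2⟩ := hA
  obtain ⟨g, hg1, hg2⟩ := hB
  refine ⟨fun e => if e ∈ D then g e else f e, fun e => ?_, fun v hv i hi => ?_⟩
  · show vc (if e ∈ D then g e else f e) = true
    split_ifs
    · exact hg1 e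
    · exact hf1 e
  · have h1 := hf2 v hv i hi
    have h2 := hg2 v hv i hi
    have h3 : bd s t (fun e => co (if e ∈ D then g e else f e) i) v =
        bd s (fun e => if e ∈ D then s e else t e) (fun e => co (f e) i) v +
          bd s (fun e => if e ∈ Dᶜ then s e else t e) (fun e => co (g e) i) v := by
      unfold bd
      rw [← sum_add_distrib]
      refine sum_congr rfl fun e _ => ?_
      by_cases h4 : e ∈ D
      · have h5 : e ∉ Dᶜ := fun h => h h4
        simp only [if_pos h4, if_neg h5]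
        ring
      · have h5 : e ∈ Dᶜ := h4
        simp only [if_neg h4, if_pos h5]
        ring
    rw [h3, h1, h2, add_zero]

end

/-- two roots with sum zero -/
theorem two_sw : ∀ a b : Fin 25, (vc a && vc b && (List.range 5).all fun i =>
    decide (co a i + co b i = 0)) = true → (b : ℕ) = sw a := by
  decide +kernel

theorem one_no : ∀ a : Fin 25, (vc a && (List.range 5).all fun i => decide (co a i = 0)) =
    false := by decide +kernel

/-- a symmetry of the codes -/
structure Sym (ρ : ℕ → ℕ) : Prop where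
  vcs : ∀ c, vc c = true → vc (ρ c) = true
  sws : ∀ c, vc c = true → ρ (sw c) = sw (ρ c)
  good : ∀ (V E : Type) [Fintype E] (s t : E → V) (X : Set V) (f : E → ℕ), Good s t f X →
    Good s t (fun e => ρ (f e)) X

theorem sym_id : Sym (fun c => c) := ⟨fun _ h => h, fun _ _ => rfl, fun _ _ _ _ _ _ _ h => h⟩

theorem sym_pt {p : ℕ} (hp : p < 240) : Sym (pt p) :=
  ⟨fun c h => pt_vc p c hp h, fun c h => pt_sw p c hp h,
    fun V E _ s t X f h => act_good V E s t X f p hp h⟩

theorem sym_comp {ρ σ : ℕ → ℕ} (h1 : Sym ρ) (h2 : Sym σ) : Sym (fun c => ρ (σ c)) :=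
  ⟨fun c h => h1.vcs _ (h2.vcs c h), fun c h => by rw [h2.sws c h, h1.sws _ (h2.vcs c h)],
    fun V E _ s t X f h => h1.good V E s t X _ (h2.good V E s t X f h)⟩

/-- two choices of roots on at most three edges with sum zero differ by a symmetry -/
theorem match_le {E : Type} [DecidableEq E] (D : Finset E) (h3 : D.card ≤ 3) (a b : E → ℕ)
    (ha : ∀ e, vc (a e) = true) (hb : ∀ e, vc (b e) = true)
    (sa : ∀ i < 5, ∑ e ∈ D, co (a e) i = 0) (sb : ∀ i < 5, ∑ e ∈ D, co (b e) i = 0) :
    ∃ ρ, Sym ρ ∧ ∀ e ∈ D, ρ (a e) = b e := by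
  have h25 : ∀ c, vc c = true → c < 25 := fun c h => ((vc_iff c).1 h).1
  have hc : D.card = 0 ∨ D.card = 1 ∨ D.card = 2 ∨ D.card = 3 := by omega
  rcases hc with hc | hc | hc | hc
  · rw [card_eq_zero] at hc
    subst hc
    exact ⟨_, sym_id, fun e he => absurd he (notMem_empty _)⟩
  · obtain ⟨x, rfl⟩ := card_eq_one.mp hc
    exfalso
    have h1 := one_no ⟨a x, h25 _ (ha x)⟩
    have h2 : (vc (a x) && (List.range 5).all fun i => decide (co (a x) i = 0)) = true := by
      rw [Bool.and_eq_true, List.all_eq_true]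
      refine ⟨ha x, fun i hi => decide_eq_true ?_⟩
      have := sa i (List.mem_range.1 hi)
      rwa [sum_singleton] at this
    rw [h2] at h1
    exact absurd h1 (by decide)
  · obtain ⟨x, y, hxy, rfl⟩ := card_eq_two.mp hc
    have key : ∀ a : E → ℕ, (∀ e, vc (a e) = true) →
        (∀ i < 5, ∑ e ∈ ({x, y} : Finset E), co (a e) i = 0) → a y = sw (a x) := by
      intro a ha sa
      refine two_sw ⟨a x, h25 _ (ha x)⟩ ⟨a y, h25 _ (ha y)⟩ ?_
      rw [Bool.and_eq_true, Bool.and_eq_true, List.all_eq_true]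
      refine ⟨⟨ha x, ha y⟩, fun i hi => decide_eq_true ?_⟩
      have := sa i (List.mem_range.1 hi)
      rwa [sum_pair hxy] at this
    obtain ⟨p, hp⟩ := two_all ⟨a x, h25 _ (ha x)⟩ ⟨b x, h25 _ (hb x)⟩ (by
      rw [Bool.and_eq_true]; exact ⟨ha x, hb x⟩)
    have hp' : pt p (a x) = b x := hp
    refine ⟨pt p, sym_pt p.2, fun e he => ?_⟩
    rw [mem_insert, mem_singleton] at he
    rcases he with rfl | rfl
    · exact hp'
    · rw [key a ha sa, key b hb sb, pt_sw _ _ p.2 (ha x), hp']
  · obtain ⟨x, y, z, hxy, hxz, hyz, rfl⟩ := card_eq_three.mp hc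
    have key : ∀ a : E → ℕ, (∀ i < 5, ∑ e ∈ ({x, y, z} : Finset E), co (a e) i = 0) →
        ∀ i < 5, co (a x) i + co (a y) i + co (a z) i = 0 := by
      intro a sa i hi
      have := sa i hi
      rw [sum_insert (by simp [hxy, hxz]), sum_pair hyz, ← add_assoc] at this
      exact this
    obtain ⟨p, hp, q, hq, h⟩ := match3 (![a x, a y, a z]) (![b x, b y, b z])
      (fun j => by fin_cases j <;> exact ha _) (fun j => by fin_cases j <;> exact hb _)
      (key a sa) (key b sb)
    refine ⟨fun c => pt p (pt q c), sym_comp (sym_pt hp) (sym_pt hq), fun e he => ?_⟩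
    rw [mem_insert, mem_insert, mem_singleton] at he
    rcases he with rfl | rfl | rfl
    · exact h 0
    · exact h 1
    · exact h 2

section

variable {V E : Type} [Fintype E]

theorem bd_contract {Z : Set V} [DecidablePred (· ∈ Z)] {z : V} (hz : z ∈ Z) (s t : E → V) (x : E → ℤ) {v : V}
    (hv : v ∉ Z) : bd (fun e => if s e ∈ Z then z else s e) (fun e => if t e ∈ Z then z else t e)
      x v = bd s t x v := by
  have h1 : ∀ u : V, ((if u ∈ Z then z else u) = v) ↔ u = v := by
    intro u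
    by_cases h : u ∈ Z
    · rw [if_pos h]
      exact ⟨fun h' => absurd (h' ▸ hz) hv, fun h' => absurd (h' ▸ h) hv⟩
    · rw [if_neg h]
  unfold bd
  refine sum_congr rfl fun e _ => ?_
  have e1 := h1 (s e)
  have e2 := h1 (t e)
  by_cases h2 : s e = v <;> by_cases h3 : t e = v
  · rw [if_pos (e1.2 h2), if_pos (e2.2 h3), if_pos h2, if_pos h3]
  · rw [if_pos (e1.2 h2), if_neg (e2.not.2 h3), if_pos h2, if_neg h3]
  · rw [if_neg (e1.not.2 h2), if_pos (e2.2 h3), if_neg h2, if_pos h3]
  · rw [if_neg (e1.not.2 h2), if_neg (e2.not.2 h3), if_neg h2, if_neg h3]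

theorem bd_contract_self {Z : Set V} [DecidablePred (· ∈ Z)] {z : V} (hz : z ∈ Z) (s t : E → V) (x : E → ℤ) :
    bd (fun e => if s e ∈ Z then z else s e) (fun e => if t e ∈ Z then z else t e) x z =
      ∑ e, x e * ((if s e ∈ Z then 1 else 0) - (if t e ∈ Z then 1 else 0)) := by
  have h1 : ∀ u : V, ((if u ∈ Z then z else u) = z) ↔ u ∈ Z := by
    intro u
    by_cases h : u ∈ Z
    · simp [h]
    · rw [if_neg h]
      exact ⟨fun h' => absurd (h' ▸ hz) h, fun h' => absurd h' h⟩
  unfold bd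
  refine sum_congr rfl fun e _ => ?_
  have e1 := h1 (s e)
  have e2 := h1 (t e)
  by_cases h2 : s e ∈ Z <;> by_cases h3 : t e ∈ Z
  · rw [if_pos (e1.2 h2), if_pos (e2.2 h3), if_pos h2, if_pos h3]
  · rw [if_pos (e1.2 h2), if_neg (e2.not.2 h3), if_pos h2, if_neg h3]
  · rw [if_neg (e1.not.2 h2), if_pos (e2.2 h3), if_neg h2, if_pos h3]
  · rw [if_neg (e1.not.2 h2), if_neg (e2.not.2 h3), if_neg h2, if_neg h3]

open Classical in
/-- the sum of the outgoing values is zero -/
theorem out_zero (Z : Set V) (s t : E → V) (f : E → ℕ) (hf : ∀ e, vc (f e) = true) (i : ℕ)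
    (h : ∑ e, co (f e) i * ((if s e ∈ Z then 1 else 0) - (if t e ∈ Z then 1 else 0)) = 0) :
    ∑ e ∈ univ.filter (fun e => ¬ (s e ∈ Z ↔ t e ∈ Z)),
      co (if s e ∈ Z then f e else sw (f e)) i = 0 := by
  rw [← h, sum_filter]
  refine sum_congr rfl fun e _ => ?_
  have h25 := ((vc_iff _).1 (hf e)).1
  by_cases h2 : s e ∈ Z <;> by_cases h3 : t e ∈ Z
  · rw [if_neg (fun h => h ⟨fun _ => h3, fun _ => h2⟩), if_pos h2, if_pos h3]; ring
  · rw [if_pos (fun h => h3 (h.1 h2)), if_pos h2, if_pos h2, if_neg h3]; ring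
  · rw [if_pos (fun h => h2 (h.2 h3)), if_neg h2, if_neg h2, if_pos h3, co_sw _ _ h25]; ring
  · rw [if_neg (fun h => h ⟨fun h' => absurd h' h2, fun h' => absurd h' h3⟩), if_neg h2,
      if_neg h3]; ring

open Classical in
/-- sums along cuts with at most three edges -/
theorem og_sum {s t : E → V} (Z : Set V) {z z' : V} (hz : z ∈ Z) (hz' : z' ∉ Z)
    (h3 : (univ.filter (fun e => ¬ (s e ∈ Z ↔ t e ∈ Z))).card ≤ 3)
    (hA : OG (fun e => if s e ∈ Z then z else s e) (fun e => if t e ∈ Z then z else t e))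
    (hB : OG (fun e => if s e ∈ Zᶜ then z' else s e) (fun e => if t e ∈ Zᶜ then z' else t e)) :
    OG s t := by
  obtain ⟨f, hf1, hf2⟩ := hA
  obtain ⟨g, hg1, hg2⟩ := hB
  have hz'' : z' ∈ Zᶜ := hz'
  have hvo : ∀ (f : E → ℕ), (∀ e, vc (f e) = true) →
      ∀ e, vc (if s e ∈ Z then f e else sw (f e)) = true := by
    intro f hf e
    split_ifs
    · exact hf e
    · exact vc_sw _ (hf e)
  have sf : ∀ i < 5, ∑ e ∈ univ.filter (fun e => ¬ (s e ∈ Z ↔ t e ∈ Z)),
      co (if s e ∈ Z then f e else sw (f e)) i = 0 := by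
    intro i hi
    apply out_zero Z s t f hf1 i
    rw [← bd_contract_self hz s t]
    exact hf2 z (Set.mem_univ _) i hi
  have sg : ∀ i < 5, ∑ e ∈ univ.filter (fun e => ¬ (s e ∈ Z ↔ t e ∈ Z)),
      co (if s e ∈ Z then g e else sw (g e)) i = 0 := by
    intro i hi
    apply out_zero Z s t g hg1 i
    have h1 := hg2 z' (Set.mem_univ _) i hi
    rw [bd_contract_self hz'' s t] at h1
    have h2 : ∀ e, co (g e) i * ((if s e ∈ Z then (1 : ℤ) else 0) - (if t e ∈ Z then 1 else 0)) =
        - (co (g e) i * ((if s e ∈ Zᶜ then (1 : ℤ) else 0) - (if t e ∈ Zᶜ then 1 else 0))) := by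
      intro e
      by_cases h2 : s e ∈ Z <;> by_cases h3 : t e ∈ Z
      · have a1 : s e ∉ Zᶜ := fun h => h h2
        have a2 : t e ∉ Zᶜ := fun h => h h3
        rw [if_pos h2, if_pos h3, if_neg a1, if_neg a2]; ring
      · have a1 : s e ∉ Zᶜ := fun h => h h2
        have a2 : t e ∈ Zᶜ := h3
        rw [if_pos h2, if_neg h3, if_neg a1, if_pos a2]; ring
      · have a1 : s e ∈ Zᶜ := h2
        have a2 : t e ∉ Zᶜ := fun h => h h3
        rw [if_neg h2, if_pos h3, if_pos a1, if_neg a2]; ring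
      · have a1 : s e ∈ Zᶜ := h2
        have a2 : t e ∈ Zᶜ := h3
        rw [if_neg h2, if_neg h3, if_pos a1, if_pos a2]; ring
    rw [sum_congr rfl (fun e _ => h2 e), sum_neg_distrib, h1, neg_zero]
  obtain ⟨ρ, hρ, hρe⟩ := match_le (univ.filter (fun e => ¬ (s e ∈ Z ↔ t e ∈ Z))) h3
    (fun e => if s e ∈ Z then g e else sw (g e)) (fun e => if s e ∈ Z then f e else sw (f e))
    (hvo g hg1) (hvo f hf1) sg sf
  have hcut : ∀ e, ¬ (s e ∈ Z ↔ t e ∈ Z) → ρ (g e) = f e := by
    intro e he
    have h1 := hρe e (by rw [mem_filter]; exact ⟨mem_univ _, he⟩)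
    by_cases h2 : s e ∈ Z
    · simp only [if_pos h2] at h1
      exact h1
    · simp only [if_neg h2] at h1
      rw [hρ.sws _ (hg1 e)] at h1
      have h4 := congrArg sw h1
      rw [sw_sw _ ((vc_iff _).1 (hρ.vcs _ (hg1 e))).1, sw_sw _ ((vc_iff _).1 (hf1 e)).1] at h4
      exact h4
  have hgood := hρ.good V E _ _ Set.univ g ⟨hg1, hg2⟩
  refine ⟨fun e => if s e ∈ Z ∧ t e ∈ Z then ρ (g e) else f e, fun e => ?_, fun v _ i hi => ?_⟩
  · show vc (if s e ∈ Z ∧ t e ∈ Z then ρ (g e) else f e) = true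
    split_ifs
    · exact hρ.vcs _ (hg1 e)
    · exact hf1 e
  · by_cases hv : v ∈ Z
    · have hv' : v ∉ Zᶜ := fun h => h hv
      have h1 := hgood.2 v (Set.mem_univ _) i hi
      rw [bd_contract hz'' s t _ hv'] at h1
      rw [← h1]
      unfold bd
      refine sum_congr rfl fun e _ => ?_
      beta_reduce
      by_cases h5 : s e ∈ Z ∧ t e ∈ Z
      · rw [if_pos h5]
      · by_cases h6 : (s e ∈ Z ↔ t e ∈ Z)
        · have h7 : s e ∉ Z := fun h => h5 ⟨h, h6.mp h⟩
          have h8 : t e ∉ Z := fun h => h7 (h6.mpr h)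
          rw [if_neg (fun h : s e = v => h7 (h ▸ hv)), if_neg (fun h : t e = v => h8 (h ▸ hv))]
          ring
        · rw [if_neg h5, hcut e h6]
    · have h1 := hf2 v (Set.mem_univ _) i hi
      rw [bd_contract hz s t _ hv] at h1
      rw [← h1]
      unfold bd
      refine sum_congr rfl fun e _ => ?_
      beta_reduce
      by_cases h5 : s e ∈ Z ∧ t e ∈ Z
      · rw [if_neg (fun h : s e = v => hv (h ▸ h5.1)), if_neg (fun h : t e = v => hv (h ▸ h5.2))]
        ring
      · rw [if_neg h5]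

end

open Classical in
/-- two even subgraphs that cover all edges -/
theorem og_flow {V E : Type} [Fintype E] [Finite V] (s t : E → V) (C₁ C₂ : Set E)
    (h1 : ∀ v, Even ((univ.filter fun e => e ∈ C₁ ∧ s e = v).card +
      (univ.filter fun e => e ∈ C₁ ∧ t e = v).card))
    (h2 : ∀ v, Even ((univ.filter fun e => e ∈ C₂ ∧ s e = v).card +
      (univ.filter fun e => e ∈ C₂ ∧ t e = v).card))
    (h : C₁ ∪ C₂ = Set.univ) : OG s t := by
  have := Fintype.ofFinite V
  refine four_good s t (fun e => (if e ∈ C₁ then 1 else 0, if e ∈ C₂ then 1 else 0))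
    (fun e => ?_) (fun v => ?_)
  · have he : e ∈ C₁ ∪ C₂ := by rw [h]; trivial
    rcases he with h3 | h3
    · intro h4
      have h5 := congrArg Prod.fst h4
      simp [h3] at h5
    · intro h4
      have h5 := congrArg Prod.snd h4
      simp [h3] at h5
  · have key : ∀ C : Set E, Even ((univ.filter fun e => e ∈ C ∧ s e = v).card +
        (univ.filter fun e => e ∈ C ∧ t e = v).card) →
        ∑ e, ((if s e = v then (if e ∈ C then (1 : ZMod 2) else 0) else 0) +
          (if t e = v then (if e ∈ C then (1 : ZMod 2) else 0) else 0)) = 0 := by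
      intro C hC
      rw [← ZMod.natCast_eq_zero_iff_even, Nat.cast_add, card_filter, card_filter, Nat.cast_sum,
        Nat.cast_sum, ← sum_add_distrib] at hC
      refine Eq.trans (sum_congr rfl fun e _ => ?_) hC
      by_cases h5 : e ∈ C <;> by_cases h6 : s e = v <;> by_cases h7 : t e = v <;>
        simp [h5, h6, h7]
    show ∑ e, _ = _
    apply Prod.ext
    · rw [Prod.fst_sum]
      refine Eq.trans (sum_congr rfl fun e _ => ?_) (key C₁ (h1 v))
      by_cases h5 : s e = v <;> by_cases h6 : t e = v <;> simp [h5, h6]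
    · rw [Prod.snd_sum]
      refine Eq.trans (sum_congr rfl fun e _ => ?_) (key C₂ (h2 v))
      by_cases h5 : s e = v <;> by_cases h6 : t e = v <;> simp [h5, h6]

end Pool.Agent.X82.OC
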