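import Pool.Agent.X82.OC0
import Pool.Agent.X82.OC4

/-!
From flows with values in the roots to families of directed cycles, for any choice of the ends.
-/

set_option autoImplicit false
set_option linter.unusedSectionVars false

open Finset

namespace Pool.Agent.X82.OC

open Pool.Agent.TH505.OW (Good co bd vc vc_iff sw vc_sw co_sw)
open Pool.Agent.X82.OC0 (sE tE st_adj st_eq st_mk five_of_good gfl)
open Pool.Agent.TH505.OCDC

open scoped Classical in
theorem cycles_of_good' {V : Type} [Fintype V] (G : SimpleGraph V)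
    (h : ∃ f : G.edgeSet → ℕ, Good (sE G) (tE G) f Set.univ) :
    ∃ C : Fin 5 → List (Σ v : V, G.Walk v v), (∀ i, ∀ c ∈ C i, c.2.IsCycle) ∧
      (∀ i u v, tot (C i) u v + tot (C i) v u ≤ 1) ∧
      ∀ u v, G.Adj u v → ∑ i, tot (C i) u v = 1 := by
  obtain ⟨f, hf⟩ := h
  obtain ⟨h1, h2, h4, h5, h6⟩ := five_of_good G f hf
  have key : ∀ i, ∃ C : List (Σ v : V, G.Walk v v), (∀ c ∈ C, c.2.IsCycle) ∧
      ∀ u v, tot C u v = ind (gfl G f i u v = 1) := fun i =>
    flow_decomp (gfl G f i) (h1 i) (h4 i) (fun u v hne => by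
      by_contra h'
      exact hne (h5 i u v h')) (h2 i)
  choose C hC1 hC2 using key
  refine ⟨C, hC1, ?_, ?_⟩
  · intro i u v
    rw [hC2, hC2, h1 i u v]
    rcases h4 i u v with h7 | h7 | h7
    · rw [h7, ind_neg (by norm_num), ind_neg (by norm_num)]; norm_num
    · rw [h7, ind_pos rfl, ind_neg (by norm_num)]
    · rw [h7, ind_neg (by norm_num), ind_pos (by norm_num)]
  · intro u v huv
    rw [Finset.sum_congr rfl (fun i _ => hC2 i u v)]
    obtain ⟨i, hi1, hi2⟩ := h6 u v huv
    rw [Finset.sum_eq_single i]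
    · exact ind_pos hi1
    · intro k _ hk
      exact ind_neg (fun h' => hk (hi2 k h'))
    · intro h'; exact absurd (mem_univ _) h'

open scoped Classical in
theorem cycles_of_ends {V : Type} [Fintype V] (G : SimpleGraph V) (s t : G.edgeSet → V)
    (hst : ∀ e, s(s e, t e) = e.1) (h : OG s t) :
    ∃ C : Fin 5 → List (Σ v : V, G.Walk v v), (∀ i, ∀ c ∈ C i, c.2.IsCycle) ∧
      (∀ i u v, tot (C i) u v + tot (C i) v u ≤ 1) ∧
      ∀ u v, G.Adj u v → ∑ i, tot (C i) u v = 1 := by
  obtain ⟨f, hf1, hf2⟩ := h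
  apply cycles_of_good' G
  refine ⟨fun e => if s e = sE G e then f e else sw (f e), fun e => ?_, fun v hv i hi => ?_⟩
  · show vc (if s e = sE G e then f e else sw (f e)) = true
    split_ifs
    · exact hf1 e
    · exact vc_sw _ (hf1 e)
  · rw [← hf2 v hv i hi]
    unfold bd
    refine sum_congr rfl fun e _ => ?_
    beta_reduce
    have h1 : s(s e, t e) = s(sE G e, tE G e) := by rw [hst e, st_mk G e]
    rw [Sym2.eq_iff] at h1
    by_cases h2 : s e = sE G e
    · rw [if_pos h2]
      rcases h1 with ⟨h3, h4⟩ | ⟨h3, h4⟩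
      · rw [h3, h4]
      · have h5 : t e = tE G e := by rw [h4, ← h2, h3]
        rw [h2, h5]
    · rw [if_neg h2, co_sw _ _ ((vc_iff _).1 (hf1 e)).1]
      rcases h1 with ⟨h3, h4⟩ | ⟨h3, h4⟩
      · exact absurd h3 h2
      · rw [h3, h4]
        ring

end Pool.Agent.X82.OC
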