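import Pool.Agent.X82.PC5

/-!
A substitution whose system is semi-conjugate to a toral translation has the super-coincidence
property. Part 4: the theorem.
-/

set_option autoImplicit false

namespace Pool.Agent.X82.PC
open Pool.Agent.H812R2.PI
open scoped BigOperators Topology
open Filter

variable {d m : ℕ} {σ : Fin d → List (Fin d)}

theorem exists_not_mem_null {N : Set (Torus m)} (hN : MeasureTheory.volume N = 0) :
    ∃ y, y ∉ N := by
  by_contra hcon
  push Not at hcon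
  have h1 : N = Set.univ := Set.eq_univ_of_forall hcon
  rw [h1] at hN
  have h2 := TKron_univ (m := m)
  unfold MeasureTheory.Measure.real at h2
  rw [hN] at h2
  simp at h2

/-- boundedly many steps are enough to enter an open set -/
theorem bounded_gap {γ : Torus m} (hmin : MinimalTranslation γ) {U : Set (Torus m)}
    (hU : IsOpen U) (hne : U.Nonempty) : ∃ G : ℕ, ∀ p : Torus m, ∃ g ≤ G, p + g • γ ∈ U := by
  have hopen : ∀ g : ℕ, IsOpen {p : Torus m | p + g • γ ∈ U} := fun g =>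
    hU.preimage (continuous_id.add continuous_const)
  have hcov : (Set.univ : Set (Torus m)) ⊆ ⋃ g : ℕ, {p : Torus m | p + g • γ ∈ U} := by
    intro p _
    obtain ⟨z, ⟨n, hn⟩, hz⟩ := (hmin p).exists_mem_open hU hne
    rw [Set.mem_iUnion]
    refine ⟨n, ?_⟩
    show p + n • γ ∈ U
    rw [← hn]
    exact hz
  obtain ⟨t, ht⟩ := isCompact_univ.elim_finite_subcover _ hopen hcov
  refine ⟨t.sup id, fun p => ?_⟩
  have := ht (Set.mem_univ p)
  rw [Set.mem_iUnion₂] at this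
  obtain ⟨g, hg, hgp⟩ := this
  exact ⟨g, Finset.le_sup (f := id) hg, hgp⟩

theorem take_edge {x : ℤ → Fin d} {k : ℤ} {w : List (Fin d)} (hw : win x k w.length = w)
    (z : Fin d → ℤ) (t : ℕ) (ht : t < w.length) :
    (z + (psum x (k + t) - psum x k), x (k + t)) ∈ edges z w := by
  rw [mem_edges]
  refine ⟨t, ht, ?_⟩
  have h1 : w.take t = win x k t := by
    conv_lhs => rw [← hw]
    exact CCov_take_win x k _ t ht.le
  have h2 : w[t] = x (k + t) := by
    have h3 := win_getElem x k w.length t (by rw [win_length]; exact ht)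
    rw [← h3]
    congr 1
    exact hw.symm
  rw [h1, h2, ab_win]

/-- Semi-conjugacy to a toral translation implies that all overlapping pairs of edges lead to a
coincidence. -/
theorem coincidence_of_semi (P : PD (inc σ)) (hs : SemiConjToral σ) (a b : Fin d)
    (v : Fin d → ℤ) (hv1 : P.ht v < P.ell a) (hv2 : 0 < P.ht v + P.ell b) :
    ∃ k : ℕ, ∃ e, e ∈ edges 0 (iter σ k a) ∧ e ∈ edges ((inc σ ^ k).mulVec v) (iter σ k b) := by
  classical
  obtain ⟨m, γ, hmin, π, hc, -, hπ, N, hN, huniq⟩ := hs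
  obtain ⟨y0, hy0⟩ := exists_not_mem_null hN
  obtain ⟨z, ⟨hzX, hzπ⟩, hzu⟩ := huniq y0 hy0
  obtain ⟨K, hK⟩ := lang_bd P
  obtain ⟨h, hcont, hcoc, -, -⟩ := exists_h P K hK
  -- the closed set
  obtain ⟨C, hC⟩ : ∃ C : Set (ℤ → Fin d), C = X σ ∩ (fun x => (x 0, h x)) ⁻¹'
      {q : Fin d × (Fin d → ℝ) | q.1 ≠ z 0 ∨ ∃ i, 1 / 4 ≤ |q.2 i - h z i|} := ⟨_, rfl⟩
  have hTclosed : IsClosed {q : Fin d × (Fin d → ℝ) | q.1 ≠ z 0 ∨ ∃ i, 1 / 4 ≤ |q.2 i - h z i|} := by
    have e : {q : Fin d × (Fin d → ℝ) | q.1 ≠ z 0 ∨ ∃ i, 1 / 4 ≤ |q.2 i - h z i|} =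
        {q : Fin d × (Fin d → ℝ) | q.1 ≠ z 0} ∪ ⋃ i, {q : Fin d × (Fin d → ℝ) | 1 / 4 ≤ |q.2 i - h z i|} := by
      ext q
      simp
    rw [e]
    refine IsClosed.union ?_ (isClosed_iUnion_of_finite fun i => ?_)
    · exact (isClosed_discrete {c : Fin d | c ≠ z 0}).preimage continuous_fst
    · exact isClosed_le continuous_const (by fun_prop)
  have hF : ContinuousOn (fun x : ℤ → Fin d => (x 0, h x)) (X σ) :=
    (continuous_apply (0 : ℤ)).continuousOn.prodMk hcont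
  have hCclosed : IsClosed C := by
    rw [hC]
    exact hF.preimage_isClosed_of_isClosed (X_closed σ) hTclosed
  have hCsub : C ⊆ X σ := by rw [hC]; exact Set.inter_subset_left
  have hCcomp : IsCompact C := (X_compact σ).of_isClosed_subset hCclosed hCsub
  have hπC : IsClosed (π '' C) := (hCcomp.image_of_continuousOn (hc.mono hCsub)).isClosed
  have hy0C : y0 ∉ π '' C := by
    rintro ⟨x, hxC, hxy⟩
    have hxz := hzu x ⟨hCsub hxC, hxy⟩
    subst hxz
    rw [hC] at hxC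
    rcases hxC.2 with h1 | ⟨i, h1⟩
    · exact h1 rfl
    · simp at h1
      norm_num at h1
  -- neighbourhoods
  have hadd : Tendsto (fun q : Torus m × Torus m => q.1 + q.2) (𝓝 (y0, 0)) (𝓝 (y0 + 0)) :=
    (continuous_fst.add continuous_snd).tendsto _
  rw [add_zero] at hadd
  have hpre := hadd (hπC.isOpen_compl.mem_nhds hy0C)
  rw [Filter.mem_map, nhds_prod_eq, Filter.mem_prod_iff] at hpre
  obtain ⟨U1, hU1, V, hV, hUV⟩ := hpre
  obtain ⟨U, hUU1, hUo, hyU⟩ := mem_nhds_iff.1 hU1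
  have hUVC : ∀ p ∈ U, ∀ q ∈ V, p + q ∉ π '' C := fun p hp q hq => by
    have := hUV (Set.mk_mem_prod (hUU1 hp) hq)
    exact this
  obtain ⟨G, hG⟩ := bounded_gap hmin hUo ⟨y0, hyU⟩
  -- the points
  obtain ⟨x0, hx0, k0, hx0a, hx0b⟩ := exists_pair P a b
  obtain ⟨t, ht⟩ : ∃ t : Fin d → ℤ, t = ab (win x0 0 k0) - v := ⟨_, rfl⟩
  have hW : win x0 0 (k0 + 1) = win x0 0 k0 ++ [b] := by
    rw [win_append, win_succ' x0 (0 + (k0 : ℤ)) 0, win_zero, zero_add, hx0b]
  have hWa : ∃ w, win x0 0 (k0 + 1) = a :: w := ⟨_, by rw [win_succ', hx0a]⟩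
  have hWl : win x0 0 (k0 + 1) ∈ lang σ := hx0 _ _
  -- choice of n
  have hn1 := Gp_top P hc hπ t
  have hn1' : ∀ᶠ n : ℕ in atTop, (Sn σ n t) • γ ∈ V := by
    have hn2 : Tendsto (fun n : ℕ => (Sn σ n t) • γ) atTop (𝓝 0) := hn1
    exact hn2 hV
  have hn2 := Sn_tendsto P (ev a) (by rw [ht_ev]; exact P.ell_pos a) G
  have hn3 := Sn_tendsto P (ev b) (by rw [ht_ev]; exact P.ell_pos b) G
  have hn4 := Sn_tendsto P (ev a - v) (by
    have := ht_add P (ev a - v) v
    rw [sub_add_cancel, ht_ev] at this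
    linarith) G
  have hn5 := Sn_tendsto P (ev b + v) (by rw [ht_add, ht_ev]; linarith) G
  have hn6 : ∀ᶠ n : ℕ in atTop, P.c * (P.rho ^ n * P.N (rv t)) < 1 / 2 := by
    have h1 := (tendsto_pow_atTop_nhds_zero_of_lt_one P.rho_nonneg P.rho_lt).mul_const (P.N (rv t))
    have h2 := h1.const_mul P.c
    rw [zero_mul, mul_zero] at h2
    exact h2.eventually (gt_mem_nhds (by norm_num))
  obtain ⟨n, ⟨⟨⟨⟨⟨hn1, hn2⟩, hn3⟩, hn4⟩, hn5⟩, hn6⟩⟩ :=
    (((((hn1'.and hn2).and hn3).and hn4).and hn5).and hn6).exists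
  have hn2' : (G : ℤ) < Sn σ n (ev a) := by exact_mod_cast hn2
  have hn3' : (G : ℤ) < Sn σ n (ev b) := by exact_mod_cast hn3
  have hn4' : (G : ℤ) < Sn σ n (ev a) - Sn σ n v := by rw [← Sn_sub]; exact_mod_cast hn4
  have hn5' : (G : ℤ) < Sn σ n (ev b) + Sn σ n v := by rw [← Sn_add]; exact_mod_cast hn5
  rw [← Sn_ev] at hn2' hn3' hn4' hn5'
  -- the point over the image
  obtain ⟨x, hx, hwin⟩ := exists_point P (lang_iter hWl n)
  have hwa : win x 0 (iter σ n a).length = iter σ n a := by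
    obtain ⟨w, hw⟩ := hWa
    rw [hw, ext_cons, List.length_append, win_append] at hwin
    exact (List.append_inj hwin (by simp [win_length])).1
  obtain ⟨L, hL⟩ : ∃ L : ℕ, L = (ext (iter σ n) (win x0 0 k0)).length := ⟨_, rfl⟩
  rw [hW, ext_append, ext_single, List.length_append, win_append, ← hL, zero_add] at hwin
  have hwin2 := List.append_inj hwin (by rw [win_length, hL])
  obtain ⟨hw0, hwb⟩ := hwin2
  have hpL : psum x L = (inc σ ^ n).mulVec (ab (win x0 0 k0)) := by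
    rw [← ab_ext_iter, ← hw0, ab_win, psum_zero, zero_add, sub_zero]
  have hLS : (L : ℤ) = Sn σ n (ab (win x0 0 k0)) := by rw [hL, Sn_len]
  -- indices
  obtain ⟨s, hs⟩ : ∃ s : ℤ, s = Sn σ n v := ⟨_, rfl⟩
  rw [← hs] at hn4' hn5'
  obtain ⟨i, j, hij, hi, hj⟩ : ∃ i j : ℕ, (i : ℤ) - j = s ∧ (i + G < (iter σ n a).length) ∧
      (j + G < (iter σ n b).length) := by
    rcases le_total 0 s with h0 | h0
    · exact ⟨s.toNat, 0, by omega, by omega, by omega⟩
    · exact ⟨0, (-s).toNat, by omega, by omega, by omega⟩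
  obtain ⟨g, hgG, hgU⟩ := hG (π (shZ i x))
  have hp : π (shZ (i + g) x) ∈ U := by
    rw [pi_shZ hπ x hx, add_zsmul, ← add_assoc, ← pi_shZ hπ x hx, natCast_zsmul]
    exact hgU
  have hpX := shZ_mem hx (i + g : ℤ)
  have hqX := shZ_mem hx (L + j + g : ℤ)
  have hqe : π (shZ (L + j + g) x) = π (shZ (i + g) x) + (Sn σ n t) • γ := by
    have e : (L + j + g : ℤ) = (i + g) + Sn σ n t := by
      rw [ht, Sn_sub, ← hLS, ← hs]
      omega
    rw [pi_shZ hπ x hx, pi_shZ hπ x hx, e, add_zsmul _ ((i : ℤ) + g), ← add_assoc]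
  have hpC : shZ (i + g) x ∉ C := by
    intro hcon
    have h1 := hUVC _ hp 0 (mem_of_mem_nhds hV)
    rw [add_zero] at h1
    exact h1 ⟨_, hcon, rfl⟩
  have hqC : shZ (L + j + g) x ∉ C := by
    intro hcon
    have h1 := hUVC _ hp _ hn1
    rw [← hqe] at h1
    exact h1 ⟨_, hcon, rfl⟩
  have hCnot : ∀ y ∈ X σ, y ∉ C → y 0 = z 0 ∧ ∀ i, |h y i - h z i| < 1 / 4 := by
    intro y hy hyC
    have h1 : ¬ (y 0 ≠ z 0 ∨ ∃ i, 1 / 4 ≤ |h y i - h z i|) := by
      intro hcon
      apply hyC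
      rw [hC]
      exact ⟨hy, hcon⟩
    push Not at h1
    exact h1
  obtain ⟨hp0, hph⟩ := hCnot _ hpX hpC
  obtain ⟨hq0, hqh⟩ := hCnot _ hqX hqC
  -- the offset
  obtain ⟨off, hoff⟩ : ∃ off : Fin d → ℤ, off = ((inc σ ^ n).mulVec v +
      (psum x (L + ((j + g : ℕ) : ℤ)) - psum x L)) - psum x ((i + g : ℕ) : ℤ) := ⟨_, rfl⟩
  have hoffsum : ∑ c, off c = 0 := by
    have h1 : ∑ c, off c = Sn σ n v + ((L + ((j + g : ℕ) : ℤ)) - L) - ((i + g : ℕ) : ℤ) := by
      rw [hoff]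
      simp only [Pi.sub_apply, Pi.add_apply, Finset.sum_sub_distrib, Finset.sum_add_distrib,
        psum_sum]
      rfl
    rw [h1, ← hs]
    push_cast
    omega
  have hoffr : ∑ c, rv off c = 0 := by
    have : ((∑ c, off c : ℤ) : ℝ) = 0 := by rw [hoffsum]; simp
    push_cast at this
    exact this
  have hoffpr : rv off = (h (shZ (L + j + g) x) - h (shZ (i + g) x)) -
      P.pr (rv ((inc σ ^ n).mulVec t)) := by
    rw [← FOff_pr_of_sum P (rv off) hoffr, cocycle_shZ P h hcoc x hx, cocycle_shZ P h hcoc x hx,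
      hoff, ht, Matrix.mulVec_sub, ← hpL]
    have e1 : ((j + g : ℕ) : ℤ) = (j : ℤ) + g := by push_cast; rfl
    have e2 : ((i + g : ℕ) : ℤ) = (i : ℤ) + g := by push_cast; rfl
    rw [e1, e2, ← add_assoc]
    simp only [rv_sub, rv_add, pr_sub, pr_add]
    abel
  have hoff0 : off = 0 := by
    funext c
    have h1 := congrFun hoffpr c
    simp only [Pi.sub_apply] at h1
    have h2 : |P.pr (rv ((inc σ ^ n).mulVec t)) c| < 1 / 2 := by
      have h3 := P.le_cN (rv ((inc σ ^ n).mulVec t)) c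
      have h4 := mul_le_mul_of_nonneg_left (N_pow_mulVec P n t) P.c_pos.le
      exact lt_of_le_of_lt (h3.trans h4) hn6
    have h5 := hph c
    have h6 := hqh c
    rw [abs_lt] at h2 h5 h6
    have h7 : |rv off c| < 1 := by
      rw [h1, abs_lt]
      constructor <;> linarith
    have h8 : |off c| < 1 := by
      have : ((|off c| : ℤ) : ℝ) < 1 := by
        rw [Int.cast_abs]
        exact h7
      exact_mod_cast this
    exact Int.abs_lt_one_iff.1 h8
  -- the common edge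
  have hea := take_edge hwa 0 (i + g) (by omega)
  have heb := take_edge hwb ((inc σ ^ n).mulVec v) (j + g) (by omega)
  refine ⟨n, _, hea, ?_⟩
  have hfst : (0 : Fin d → ℤ) + (psum x (0 + ((i + g : ℕ) : ℤ)) - psum x 0) =
      (inc σ ^ n).mulVec v + (psum x (L + ((j + g : ℕ) : ℤ)) - psum x L) := by
    rw [hoff, sub_eq_zero] at hoff0
    rw [hoff0, psum_zero, zero_add, zero_add, sub_zero]
  have hsnd : x (0 + ((i + g : ℕ) : ℤ)) = x (L + ((j + g : ℕ) : ℤ)) := by
    have e1 : (shZ (i + g) x) 0 = x (0 + ((i + g : ℕ) : ℤ)) := by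
      simp only [shZ]
      congr 1
    have e2 : (shZ (L + j + g) x) 0 = x (L + ((j + g : ℕ) : ℤ)) := by
      simp only [shZ]
      congr 1
      push_cast
      ring
    rw [← e1, ← e2, hp0, hq0]
  rw [hfst, hsnd]
  exact heb

end Pool.Agent.X82.PC
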