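import Pool.Agent.TH100.Pisot.Pow
import Pool.Agent.X82.PC6

/-!
Every substitution which satisfies the Pisot substitution conjecture is absorbing (MP_e732b0_an).
-/

set_option autoImplicit false

namespace Pool.Agent.X82.PC
open Pool.Agent.H812R2.PI Pool.Agent.TH100.Pisot
open scoped BigOperators

variable {d : ℕ}

/-- Every pair of edges which overlap in height leads to a common edge. -/
def Coin {M : Matrix (Fin d) (Fin d) ℤ} (P : PD M) (σ : Fin d → List (Fin d)) : Prop :=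
  ∀ (a b : Fin d) (v : Fin d → ℤ), P.ht v < P.ell a → 0 < P.ht v + P.ell b →
    ∃ k : ℕ, ∃ e, e ∈ edges 0 (iter σ k a) ∧ e ∈ edges ((inc σ ^ k).mulVec v) (iter σ k b)

theorem coin_of_semi {M : Matrix (Fin d) (Fin d) ℤ} (P : PD M) (n : ℕ) (hn : 1 ≤ n)
    (σ : Fin d → List (Fin d)) (hσ : inc σ = M ^ n) (hs : SemiConjToral σ) : Coin P σ := by
  have key : ∀ (A : Matrix (Fin d) (Fin d) ℤ) (_ : inc σ = A) (Q : PD A) (a b : Fin d)
      (v : Fin d → ℤ), Q.ht v < Q.ell a → 0 < Q.ht v + Q.ell b →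
      ∃ k : ℕ, ∃ e, e ∈ edges 0 (iter σ k a) ∧ e ∈ edges ((inc σ ^ k).mulVec v) (iter σ k b) := by
    intro A hA Q
    subst hA
    exact coincidence_of_semi Q hs
  intro a b v h1 h2
  exact key (M ^ n) hσ (P.pow n hn) a b v h1 h2

theorem compList_replicate (σ : Fin d → List (Fin d)) (k : ℕ) :
    compList (List.replicate k σ) = iter σ k := by
  induction k with
  | zero => rfl
  | succ k ih =>
    funext a
    rw [List.replicate_succ]
    simp only [compList, comp]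
    rw [ih, iter_succ]

/-- a common edge persists -/
theorem persist_edge {S T : Fin d → List (Fin d)} (hS : ∀ a, S a ≠ []) {a b : Fin d}
    {v : Fin d → ℤ} (h : ∃ e, e ∈ edges 0 (T a) ∧ e ∈ edges ((inc T).mulVec v) (T b)) :
    ∃ e, e ∈ edges 0 (comp S T a) ∧ e ∈ edges ((inc (comp S T)).mulVec v) (comp S T b) := by
  obtain ⟨e, he1, he2⟩ := h
  obtain ⟨c, w, hcw⟩ := List.exists_cons_of_ne_nil (hS e.2)
  have hh : ((inc S).mulVec e.1, c) ∈ edges ((inc S).mulVec e.1) (S e.2) := by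
    rw [hcw]
    simp [edges]
  refine ⟨((inc S).mulVec e.1, c), ?_, ?_⟩
  · have h2 := JComp_mem (S := S) he1 hh
    rw [Matrix.mulVec_zero] at h2
    exact h2
  · have h2 := JComp_mem (S := S) he2 hh
    rw [Matrix.mulVec_mulVec, ← inc_comp] at h2
    exact h2

theorem ov_pos_iff {M : Matrix (Fin d) (Fin d) ℤ} (P : PD M) (a b : Fin d) (v : Fin d → ℤ)
    (h : 0 < P.OV (0, a) (v, b)) : P.ht v < P.ell a ∧ 0 < P.ht v + P.ell b := by
  unfold PD.OV ovl at h
  simp only [ht_zero, zero_add] at h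
  rw [lt_max_iff] at h
  rcases h with h | h
  · exact absurd h (lt_irrefl _)
  · have h1 : max 0 (P.ht v) < min (P.ell a) (P.ht v + P.ell b) := by linarith
    rw [lt_min_iff, max_lt_iff, max_lt_iff] at h1
    exact ⟨h1.1.2, h1.2.1⟩

/-- some power of a super-coincident substitution hits everything within distance `D` -/
theorem exists_hit {M : Matrix (Fin d) (Fin d) ℤ} (P : PD M) (n : ℕ) (hn : 1 ≤ n)
    (σ : Fin d → List (Fin d)) (hσ : inc σ = M ^ n) (hc : Coin P σ) (D : ℝ) :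
    ∃ K : ℕ, ∀ k ≥ K, P.Hit (compList (List.replicate k σ)) D := by
  classical
  have hne : ∀ a, σ a ≠ [] := fun a => JList_ne_nil (P.pow n hn) σ hσ a
  have hfin := window_finite P D (∑ i, P.ell i)
  obtain ⟨W, hW⟩ : ∃ W : Finset (Fin d → ℤ), W = hfin.toFinset := ⟨_, rfl⟩
  have hell : ∀ a, P.ell a ≤ ∑ i, P.ell i := fun a =>
    Finset.single_le_sum (f := P.ell) (fun j _ => (P.ell_pos j).le) (Finset.mem_univ a)
  have hex : ∀ t : Fin d × Fin d × (Fin d → ℤ), ∃ k : ℕ, 0 < P.OV (0, t.1) (t.2.2, t.2.1) →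
      ∃ e, e ∈ edges 0 (iter σ k t.1) ∧ e ∈ edges ((inc σ ^ k).mulVec t.2.2) (iter σ k t.2.1) := by
    rintro ⟨a, b, v⟩
    by_cases hO : 0 < P.OV (0, a) (v, b)
    · obtain ⟨h1, h2⟩ := ov_pos_iff P a b v hO
      obtain ⟨k, hk⟩ := hc a b v h1 h2
      exact ⟨k, fun _ => hk⟩
    · exact ⟨0, fun h => absurd h hO⟩
  choose κ hκ using hex
  obtain ⟨K, hK⟩ : ∃ K : ℕ, K = (Finset.univ ×ˢ (Finset.univ ×ˢ W)).sup κ := ⟨_, rfl⟩
  refine ⟨K, fun k hk a b v hv hO => ?_⟩
  have hvW : v ∈ W := by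
    rw [hW, Set.Finite.mem_toFinset]
    refine ⟨hv, ?_⟩
    obtain ⟨h1, h2⟩ := ov_pos_iff P a b v hO
    rw [abs_le]
    constructor
    · linarith [hell b]
    · linarith [hell a]
  have hle : κ (a, b, v) ≤ K := by
    rw [hK]
    exact Finset.le_sup (f := κ) (by simp [hvW])
  have h1 := hκ (a, b, v) hO
  simp only at h1
  obtain ⟨j, hj⟩ : ∃ j, k = j + κ (a, b, v) := ⟨k - κ (a, b, v), by omega⟩
  have h2 : List.replicate k σ = List.replicate j σ ++ List.replicate (κ (a, b, v)) σ := by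
    rw [hj, List.replicate_add]
  rw [h2, compList_append]
  refine persist_edge ?_ ?_
  · intro c
    have : ∀ m : ℕ, ∀ c, compList (List.replicate m σ) c ≠ [] := by
      intro m
      induction m with
      | zero => intro c; simp [compList]
      | succ m ih =>
        intro c
        rw [List.replicate_succ]
        simp only [compList, comp]
        obtain ⟨c', w, hcw⟩ := List.exists_cons_of_ne_nil (ih c)
        rw [hcw, ext_cons]
        have := hne c'
        simp [this]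
    exact this j c
  · rw [compList_replicate, inc_iter]
    exact h1

theorem persistent {m : ℕ} (M : Matrix (Fin (m+1)) (Fin (m+1)) ℤ)
    (hnn : ∀ i j, 0 ≤ M i j) (hM : PisotMat M) (n : ℕ) (h1n : 1 ≤ n)
    (τ : Fin (m+1) → List (Fin (m+1))) (hτ : inc τ = M ^ n) (hs : SemiConjToral τ) :
      ∀ T : ℕ, ∃ K : ℕ, ∀ k ≥ K, ∀ l₁ l₂ : List (Fin (m+1) → List (Fin (m+1))),
        (∀ ρ ∈ l₁ ++ l₂, ∃ i, 1 ≤ i ∧ i ≤ T ∧ inc ρ = M ^ i) →
        PisotMat (inc (compList (l₁ ++ List.replicate k τ ++ l₂))) ∧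
        SemiConjToral (compList (l₁ ++ List.replicate k τ ++ l₂)) := by
  classical
  intro T
  obtain ⟨lam, u, hlam, hu, husum⟩ := exists_u M hnn hM
  obtain ⟨P, -, -⟩ := exists_PD M hnn hM lam hlam u hu husum
  have hdet : IsUnit M.det := by
    rcases hM.2.1 with h | h <;> rw [h] <;> simp
  have hr : 0 < 1 - P.rho := by linarith [P.rho_lt]
  have hrho : ∀ᶠ n : ℕ in Filter.atTop, P.rho ^ n ≤ 1 / 2 := by
    have h := tendsto_pow_atTop_nhds_zero_of_lt_one P.rho_nonneg P.rho_lt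
    exact (h.eventually (gt_mem_nhds (show (0:ℝ) < 1/2 by norm_num))).mono fun n hn => hn.le
  obtain ⟨n1, hn1⟩ := Filter.eventually_atTop.mp hrho
  -- bound for the factors
  obtain ⟨BF, hBF⟩ : ∃ BF : ℝ, BF = ∑ i ∈ Finset.range (T + n + 1),
      P.c * ∑ a, ∑ b, ((M ^ i) a b : ℝ) := ⟨_, rfl⟩
  have hterm : ∀ i ∈ Finset.range (T + n + 1), 0 ≤ P.c * ∑ a, ∑ b, ((M ^ i) a b : ℝ) := by
    intro i _
    refine mul_nonneg P.c_pos.le (Finset.sum_nonneg fun a _ => Finset.sum_nonneg fun b _ => ?_)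
    exact_mod_cast GFin_pow_nonneg M hnn i a b
  have hBF0 : 0 ≤ BF := by
    rw [hBF]
    exact Finset.sum_nonneg hterm
  have hfac : ∀ ρ : Fin (m+1) → List (Fin (m+1)), (∃ i, 1 ≤ i ∧ i ≤ T + n ∧ inc ρ = M ^ i) →
      Fac P BF ρ := by
    rintro ρ ⟨i, hi1, hiT, hi⟩
    refine ⟨⟨i, hi1, hi⟩, fun a k => ?_⟩
    have h1 := JFin_BT (P.pow i hi1) (GFin_pow_nonneg M hnn i) ρ hi a k
    have h2 := Finset.single_le_sum hterm (Finset.mem_range.2 (Nat.lt_succ_of_le hiT))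
    rw [hBF]
    exact le_trans h1 h2
  have hfacτ : Fac P BF τ := hfac τ ⟨n, h1n, by omega, hτ⟩
  obtain ⟨BS, hBS⟩ : ∃ BS : ℝ, BS = BF / (1 - P.rho) + ∑ a, P.N (rv (ev a)) := ⟨_, rfl⟩
  have hBS0 : 0 ≤ BS := by
    rw [hBS]
    exact add_nonneg (div_nonneg hBF0 hr.le) (Finset.sum_nonneg fun a _ => P.N_nonneg _)
  obtain ⟨D, hD⟩ : ∃ D : ℝ, D = (16 * P.c ^ 2 + 4) * BS + 2 * BF / (1 - P.rho) := ⟨_, rfl⟩
  have hq1 : 0 ≤ 2 * BF / (1 - P.rho) := div_nonneg (by linarith) hr.le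
  have hq2 : 0 ≤ (16 * P.c ^ 2 + 4) * BS := mul_nonneg (by positivity) hBS0
  have hD0 : 0 ≤ D := by rw [hD]; linarith
  have hDBS : (16 * P.c ^ 2 + 4) * BS ≤ D := by rw [hD]; linarith
  have hDBF : 2 * BF ≤ (1 - P.rho) * D := by
    have h1 : 2 * BF / (1 - P.rho) ≤ D := by rw [hD]; linarith
    rw [div_le_iff₀ hr] at h1
    linarith
  obtain ⟨K, hK⟩ := exists_hit P n h1n τ hτ (coin_of_semi P n h1n τ hτ hs) D
  refine ⟨K + n1 + 1, fun k hk l₁ l₂ hl => ?_⟩
  have hl1 : ∀ ρ ∈ l₁, Fac P BF ρ := fun ρ h => by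
    obtain ⟨i, h1, h2, h3⟩ := hl ρ (List.mem_append_left _ h)
    exact hfac ρ ⟨i, h1, by omega, h3⟩
  have hl2 : ∀ ρ ∈ l₂, Fac P BF ρ := fun ρ h => by
    obtain ⟨i, h1, h2, h3⟩ := hl ρ (List.mem_append_right _ h)
    exact hfac ρ ⟨i, h1, by omega, h3⟩
  have hrep : ∀ j : ℕ, ∀ ρ ∈ List.replicate j τ, Fac P BF ρ := fun j ρ h => by
    rw [List.eq_of_mem_replicate h]
    exact hfacτ
  have hall : ∀ ρ ∈ l₁ ++ List.replicate k τ ++ l₂, Fac P BF ρ := by
    intro ρ h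
    rw [List.mem_append, List.mem_append] at h
    rcases h with (h | h) | h
    · exact hl1 ρ h
    · exact hrep k ρ h
    · exact hl2 ρ h
  -- exponent of the incidence matrix
  obtain ⟨N1, -, hN1⟩ := fac_inc P BF l₁ hl1
  obtain ⟨N2, -, hN2⟩ := fac_inc P BF l₂ hl2
  have hN3 : inc (compList (List.replicate k τ)) = M ^ (n * k) := by
    rw [inc_compList (M ^ n) _ (fun ρ h => by rw [List.eq_of_mem_replicate h]; exact hτ),
      List.length_replicate, ← pow_mul]
  have hinc : inc (compList (l₁ ++ List.replicate k τ ++ l₂)) = M ^ (N1 + n * k + N2) := by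
    rw [compList_append, compList_append, inc_comp, inc_comp, hN1, hN2, hN3, ← pow_add, ← pow_add]
  have hnk : k ≤ n * k := Nat.le_mul_of_pos_left k (by omega)
  have hN : n1 ≤ N1 + n * k + N2 := by omega
  have hN1' : 1 ≤ N1 + n * k + N2 := by omega
  refine ⟨by rw [hinc]; exact pisotMat_pow M hnn hM _ hN1', ?_⟩
  have hhit : P.Hit (compList (l₁ ++ List.replicate k τ ++ l₂)) D := by
    rw [compList_append, compList_append, comp_assoc]
    refine hit_comp_right P _ _ (fac_ne_nil P BF l₁ hl1) D ?_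
    exact hit_comp_left P _ _ D D (fac_ovTo P l₂ BF D hD0 hl2 hDBF) (hK k (by omega))
  have hpre : ∀ a j, P.N (rv (ab ((compList (l₁ ++ List.replicate k τ ++ l₂) a).take j))) ≤ BS := by
    intro a j
    refine (fac_prefix P _ BF hBF0 hall a j).trans ?_
    rw [hBS]
    have := Finset.single_le_sum (f := fun a => P.N (rv (ev a)))
      (fun a _ => P.N_nonneg _) (Finset.mem_univ a)
    linarith
  refine JFin_semi (P.pow _ hN1') (by rw [Matrix.det_pow]; exact hdet.pow _) BS D hBS0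
    hDBS (hn1 _ hN) 1 le_rfl _ (by rw [pow_one]; exact hinc) hpre ?_
  intro a b v hv hO
  exact hhit a b v hv hO

end Pool.Agent.X82.PC
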