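import Pool.Agent.X82.PC1
import Pool.Agent.X82.PC7

/-!
The conclusion of the Pisot substitution conjecture is absorbing; zero-one law for the products of
substitutions from a finite set (MP_e732b0_an).
-/

set_option autoImplicit false

namespace Pool.Agent.X82.PC
open Pool.Agent.H812R2.PI Pool.Agent.TH100.Pisot
open scoped BigOperators

/-- Uniform absorption. -/
theorem uniform {m : ℕ} (M : Matrix (Fin (m+1)) (Fin (m+1)) ℤ)
    (hnn : ∀ i j, 0 ≤ M i j) (hM : PisotMat M) (n T : ℕ) (hn : 1 ≤ n) :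
      ∃ K : ℕ, ∀ τ : Fin (m+1) → List (Fin (m+1)), inc τ = M ^ n → SemiConjToral τ →
      ∀ k ≥ K, ∀ l₁ l₂ : List (Fin (m+1) → List (Fin (m+1))),
        (∀ ρ ∈ l₁ ++ l₂, ∃ i, 1 ≤ i ∧ i ≤ T ∧ inc ρ = M ^ i) →
        PisotMat (inc (compList (l₁ ++ List.replicate k τ ++ l₂))) ∧
        SemiConjToral (compList (l₁ ++ List.replicate k τ ++ l₂)) := by
  classical
  have hfin := JFin_finite (M ^ n)
  have hex : ∀ τ : Fin (m+1) → List (Fin (m+1)), ∃ K : ℕ, inc τ = M ^ n → SemiConjToral τ →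
      ∀ k ≥ K, ∀ l₁ l₂ : List (Fin (m+1) → List (Fin (m+1))),
        (∀ ρ ∈ l₁ ++ l₂, ∃ i, 1 ≤ i ∧ i ≤ T ∧ inc ρ = M ^ i) →
        PisotMat (inc (compList (l₁ ++ List.replicate k τ ++ l₂))) ∧
        SemiConjToral (compList (l₁ ++ List.replicate k τ ++ l₂)) := by
    intro τ
    by_cases h1 : inc τ = M ^ n
    · by_cases h2 : SemiConjToral τ
      · obtain ⟨K, hK⟩ := persistent M hnn hM n hn τ h1 h2 T
        exact ⟨K, fun _ _ => hK⟩
      · exact ⟨0, fun _ h => absurd h h2⟩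
    · exact ⟨0, fun h => absurd h h1⟩
  choose κ hκ using hex
  refine ⟨hfin.toFinset.sup κ, fun τ h1 h2 k hk => hκ τ h1 h2 k (le_trans ?_ hk)⟩
  exact Finset.le_sup (f := κ) (by rw [Set.Finite.mem_toFinset]; exact h1)

theorem compList_flatten {d : ℕ} (l : List (Fin d → List (Fin d))) (K : ℕ) :
    compList (List.replicate K l).flatten = compList (List.replicate K (compList l)) := by
  induction K with
  | zero => rfl
  | succ K ih =>
    rw [List.replicate_succ, List.replicate_succ, List.flatten_cons, compList_append, ih]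
    rfl

theorem inc_prod {d : ℕ} (M : Matrix (Fin d) (Fin d) ℤ) (l : List (Fin d → List (Fin d)))
    (hl : ∀ ρ ∈ l, ∃ i, 1 ≤ i ∧ inc ρ = M ^ i) : ∃ N, l.length ≤ N ∧ inc (compList l) = M ^ N := by
  induction l with
  | nil => exact ⟨0, le_rfl, by rw [pow_zero]; exact JComp_inc_id⟩
  | cons τ l ih =>
    obtain ⟨N, hN, h⟩ := ih (fun τ' h => hl τ' (List.mem_cons_of_mem _ h))
    obtain ⟨i, hi, h1⟩ := hl τ (List.mem_cons_self ..)
    refine ⟨i + N, by rw [List.length_cons]; omega, ?_⟩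
    simp only [compList]
    rw [inc_comp, h1, h, pow_add]

/-- Zero-one law. -/
theorem zero_one {m : ℕ} (M : Matrix (Fin (m+1)) (Fin (m+1)) ℤ)
    (hnn : ∀ i j, 0 ≤ M i j) (hM : PisotMat M)
    (F : Finset (Fin (m+1) → List (Fin (m+1)))) (hF : ∀ ρ ∈ F, ∃ i, 1 ≤ i ∧ inc ρ = M ^ i) :
    (∀ l : List (Fin (m+1) → List (Fin (m+1))), l ≠ [] → (∀ ρ ∈ l, ρ ∈ F) →
      ¬ SemiConjToral (compList l)) ∨
    ∃ C c : ℝ, 0 < c ∧ ∀ k : ℕ,
      ({f : Fin k → (Fin (m+1) → List (Fin (m+1))) | (∀ i, f i ∈ F) ∧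
        ¬ SemiConjToral (compList (List.ofFn f))}.ncard : ℝ) ≤
      C * Real.exp (-(c * k)) * (F.card : ℝ) ^ k := by
  classical
  by_cases hall : ∀ l : List (Fin (m+1) → List (Fin (m+1))), l ≠ [] → (∀ ρ ∈ l, ρ ∈ F) →
      ¬ SemiConjToral (compList l)
  · exact Or.inl hall
  right
  push Not at hall
  obtain ⟨l, hl0, hlF, hls⟩ := hall
  obtain ⟨n, hn, hinc⟩ := inc_prod M l (fun ρ hρ => hF ρ (hlF ρ hρ))
  have hn1 : 1 ≤ n := le_trans (List.length_pos_iff.2 hl0) hn
  have hex : ∀ ρ : Fin (m+1) → List (Fin (m+1)), ∃ i : ℕ, ρ ∈ F → 1 ≤ i ∧ inc ρ = M ^ i := by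
    intro ρ
    by_cases h : ρ ∈ F
    · obtain ⟨i, hi⟩ := hF ρ h
      exact ⟨i, fun _ => hi⟩
    · exact ⟨0, fun h' => absurd h' h⟩
  choose e he using hex
  obtain ⟨K, hK⟩ := uniform M hnn hM n (F.sup e) hn1
  obtain ⟨w, hw⟩ : ∃ w : List F, w.map Subtype.val = (List.replicate K l).flatten := by
    have h1 : ∀ ρ ∈ (List.replicate K l).flatten, ρ ∈ F := by
      intro ρ hρ
      rw [List.mem_flatten] at hρ
      obtain ⟨l', hl', hρ'⟩ := hρ
      rw [List.eq_of_mem_replicate hl'] at hρ'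
      exact hlF ρ hρ'
    exact ⟨(List.replicate K l).flatten.attach.map (fun q => ⟨q.1, h1 q.1 q.2⟩), by simp⟩
  have hne : Nonempty F := by
    obtain ⟨ρ, l', hl'⟩ := List.exists_cons_of_ne_nil hl0
    exact ⟨⟨ρ, hlF ρ (by rw [hl']; exact List.mem_cons_self ..)⟩⟩
  obtain ⟨C, c, hC, hc, hcount⟩ := count_avoid w
  refine ⟨C, c, hc, fun k => ?_⟩
  have hsub : {f : Fin k → (Fin (m+1) → List (Fin (m+1))) | (∀ i, f i ∈ F) ∧
        ¬ SemiConjToral (compList (List.ofFn f))} ⊆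
      (fun (g : Fin k → F) (i : Fin k) => (g i).1) '' (Avoid w k) := by
    rintro f ⟨hf1, hf2⟩
    refine ⟨fun i => ⟨f i, hf1 i⟩, ?_, rfl⟩
    rintro ⟨l₁, l₂, hl⟩
    apply hf2
    have hf3 : List.ofFn f = l₁.map Subtype.val ++ (List.replicate K l).flatten ++
        l₂.map Subtype.val := by
      have h1 := congrArg (List.map Subtype.val) hl
      rw [List.map_ofFn, List.map_append, List.map_append, hw] at h1
      exact h1
    have hf4 : compList (List.ofFn f) = compList (l₁.map Subtype.val ++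
        List.replicate K (compList l) ++ l₂.map Subtype.val) := by
      rw [hf3, compList_append, compList_append, compList_append, compList_append,
        compList_flatten]
    rw [hf4]
    refine (hK (compList l) hinc hls K le_rfl _ _ ?_).2
    intro ρ hρ
    have hρF : ρ ∈ F := by
      rw [List.mem_append, List.mem_map, List.mem_map] at hρ
      rcases hρ with ⟨t, -, rfl⟩ | ⟨t, -, rfl⟩
      · exact t.2
      · exact t.2
    obtain ⟨h1, h2⟩ := he ρ hρF
    exact ⟨e ρ, h1, Finset.le_sup (f := e) hρF, h2⟩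
  have h1 := (Set.ncard_le_ncard hsub (Set.toFinite _)).trans (Set.ncard_image_le (Set.toFinite _))
  have h2 := hcount k
  rw [Fintype.card_coe] at h2
  exact le_trans (by exact_mod_cast h1) h2

end Pool.Agent.X82.PC
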