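import Pool.Agent.TH100.Pisot.Absorb

/-!
A substitution whose system is semi-conjugate to a toral translation has the super-coincidence
property. Part 1: words, points, lengths.
-/

set_option autoImplicit false

namespace Pool.Agent.X82.PC
open Pool.Agent.H812R2.PI
open scoped BigOperators Topology
open Filter

variable {d : ℕ} {σ : Fin d → List (Fin d)}

/-- every word of the language occurs at the origin of a point -/
theorem exists_point (P : PD (inc σ)) {w : List (Fin d)} (hw : w ∈ lang σ) :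
    ∃ x ∈ X σ, win x 0 w.length = w := by
  obtain ⟨x0, hx0⟩ := X_nonempty P
  obtain ⟨L, hL⟩ := lang_recurrent P w hw
  obtain ⟨s, r, hsr⟩ := hL (win x0 0 L) (hx0 0 L) (by rw [win_length])
  refine ⟨shZ s.length x0, shZ_mem hx0 _, ?_⟩
  rw [win_shZ, zero_add]
  have hlen : L = s.length + w.length + r.length := by
    have := congrArg List.length hsr
    simp only [List.length_append, win_length] at this
    omega
  rw [hlen, win_append, win_append, zero_add] at hsr
  have h1 := List.append_inj hsr (by simp [win_length])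
  have h2 := List.append_inj h1.1 (by simp [win_length])
  exact h2.2.symm

theorem lang_iter {w : List (Fin d)} (hw : w ∈ lang σ) (n : ℕ) : ext (iter σ n) w ∈ lang σ := by
  obtain ⟨m, hm, c, s, r, hsr⟩ := hw
  refine ⟨n + m, by omega, c, ?_⟩
  rw [iter_add, ← hsr, ext_append, ext_append]
  exact ⟨_, _, rfl⟩

/-- sum of the coordinates of `M ^ n t` -/
def Sn (σ : Fin d → List (Fin d)) (n : ℕ) (t : Fin d → ℤ) : ℤ := ∑ i, ((inc σ ^ n).mulVec t) i

theorem Sn_add (n : ℕ) (s t : Fin d → ℤ) : Sn σ n (s + t) = Sn σ n s + Sn σ n t := by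
  unfold Sn
  rw [Matrix.mulVec_add, ← Finset.sum_add_distrib]
  rfl

theorem Sn_neg (n : ℕ) (t : Fin d → ℤ) : Sn σ n (-t) = - Sn σ n t := by
  unfold Sn
  rw [Matrix.mulVec_neg, ← Finset.sum_neg_distrib]
  rfl

theorem Sn_sub (n : ℕ) (s t : Fin d → ℤ) : Sn σ n (s - t) = Sn σ n s - Sn σ n t := by
  rw [sub_eq_add_neg, Sn_add, Sn_neg, sub_eq_add_neg]

theorem Sn_zero (n : ℕ) : Sn σ n 0 = 0 := by
  unfold Sn
  rw [Matrix.mulVec_zero]
  simp

theorem ab_ext_iter (n : ℕ) (w : List (Fin d)) :
    ab (ext (iter σ n) w) = (inc σ ^ n).mulVec (ab w) := by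
  rw [ab_ext, inc_iter]

theorem Sn_len (n : ℕ) (w : List (Fin d)) : ((ext (iter σ n) w).length : ℤ) = Sn σ n (ab w) := by
  rw [← ab_sum, ab_ext_iter]
  rfl

theorem ext_single (τ : Fin d → List (Fin d)) (a : Fin d) : ext τ [a] = τ a := by simp [ext]

theorem Sn_ev (n : ℕ) (a : Fin d) : ((iter σ n a).length : ℤ) = Sn σ n (ev a) := by
  rw [← ab_single, ← Sn_len, ext_single]

/-- the length goes to infinity for vectors of positive height -/
theorem Sn_tendsto (P : PD (inc σ)) (t : Fin d → ℤ) (ht : 0 < P.ht t) (B : ℝ) :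
    ∀ᶠ n : ℕ in atTop, B < (Sn σ n t : ℝ) := by
  have hne : (Finset.univ : Finset (Fin d)).Nonempty := by
    rw [Finset.nonempty_iff_ne_empty]
    intro h0
    have := P.u_sum
    rw [h0] at this
    simp at this
  have hmu : 0 < ∑ i, P.ell i * P.u i :=
    Finset.sum_pos (fun i _ => mul_pos (P.ell_pos i) (P.u_pos i)) hne
  obtain ⟨μ, hμ⟩ : ∃ μ, μ = ∑ i, P.ell i * P.u i := ⟨_, rfl⟩
  rw [← hμ] at hmu
  obtain ⟨E, hE⟩ : ∃ E, E = ∑ i, P.ell i := ⟨_, rfl⟩
  have key : ∀ n : ℕ, P.lam ^ n * P.ht t ≤ E * (P.c * P.N (rv t)) + (Sn σ n t : ℝ) * μ := by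
    intro n
    rw [← ht_pow_mulVec]
    obtain ⟨w, hw⟩ : ∃ w, w = (inc σ ^ n).mulVec t := ⟨_, rfl⟩
    have hS : (Sn σ n t : ℝ) = ∑ j, rv w j := by
      unfold Sn
      rw [← hw]
      simp [rv]
    rw [← hw, hS]
    have hN : P.N (rv w) ≤ P.N (rv t) := by
      rw [hw]
      refine (N_pow_mulVec P n t).trans ?_
      have h1 : P.rho ^ n ≤ 1 := pow_le_one₀ P.rho_nonneg P.rho_lt.le
      have h2 := P.N_nonneg (rv t)
      nlinarith
    have h1 : P.ht w = ∑ i, P.ell i * (rv w i - (∑ j, rv w j) * P.u i) + (∑ j, rv w j) * μ := by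
      rw [hμ, Finset.mul_sum, ← Finset.sum_add_distrib]
      unfold PD.ht
      refine Finset.sum_congr rfl fun i _ => ?_
      simp only [rv]
      ring
    rw [h1]
    have h2 : ∑ i, P.ell i * (rv w i - (∑ j, rv w j) * P.u i) ≤ E * (P.c * P.N (rv t)) := by
      rw [hE, Finset.sum_mul]
      refine Finset.sum_le_sum fun i _ => mul_le_mul_of_nonneg_left ?_ (P.ell_pos i).le
      exact (le_abs_self _).trans ((P.le_cN _ i).trans (mul_le_mul_of_nonneg_left hN P.c_pos.le))
    linarith
  have h1 : Tendsto (fun n : ℕ => P.lam ^ n * P.ht t) atTop atTop :=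
    Filter.Tendsto.atTop_mul_const ht (tendsto_pow_atTop_atTop_of_one_lt P.lam_gt)
  filter_upwards [h1.eventually (Filter.eventually_gt_atTop (E * (P.c * P.N (rv t)) + B * μ))] with n hn
  have := key n
  by_contra hcon
  push Not at hcon
  have h3 : (Sn σ n t : ℝ) * μ ≤ B * μ := mul_le_mul_of_nonneg_right hcon hmu.le
  linarith

theorem win_eq_get {x y : ℤ → Fin d} {k l : ℤ} {n : ℕ} (h : win x k n = win y l n) (t : ℕ)
    (ht : t < n) : x (k + t) = y (l + t) := by
  have h1 := win_getElem x k n t (by rw [win_length]; exact ht)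
  have h2 := win_getElem y l n t (by rw [win_length]; exact ht)
  rw [← h1, ← h2]
  congr 1

/-- all letters occur after each other -/
theorem exists_pair (P : PD (inc σ)) (a b : Fin d) :
    ∃ x ∈ X σ, ∃ k : ℕ, x 0 = a ∧ x k = b := by
  obtain ⟨k0, hk0, hprim⟩ := primitive P
  have hl : ∀ c : Fin d, [c] ∈ lang σ := by
    intro c
    refine ⟨k0, hk0, c, ?_⟩
    obtain ⟨s, t, hst⟩ := List.append_of_mem (hprim k0 le_rfl c c)
    exact ⟨s, t, by rw [hst]; simp⟩
  obtain ⟨x, hx, hxa⟩ := exists_point P (hl a)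
  obtain ⟨L, hL⟩ := lang_recurrent P [b] (hl b)
  obtain ⟨s, r, hsr⟩ := hL (win x 0 L) (hx 0 L) (by rw [win_length])
  refine ⟨x, hx, s.length, ?_, ?_⟩
  · simp only [List.length_singleton] at hxa
    rw [win_succ' x 0 0, win_zero] at hxa
    simpa using hxa
  · have hlen : L = s.length + 1 + r.length := by
      have := congrArg List.length hsr
      simp only [List.length_append, win_length, List.length_singleton] at this
      omega
    rw [hlen, win_append, win_append, zero_add] at hsr
    have h1 := List.append_inj hsr (by simp [win_length])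
    have h2 := List.append_inj h1.1 (by simp [win_length])
    have h3 := h2.2
    rw [win_succ' x s.length 0, win_zero] at h3
    simpa using h3.symm

end Pool.Agent.X82.PC
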