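import Pool.Agent.X82.PC3

/-!
A substitution whose system is semi-conjugate to a toral translation has the super-coincidence
property. Part 2: return vectors.
-/

set_option autoImplicit false

namespace Pool.Agent.X82.PC
open Pool.Agent.H812R2.PI
open scoped BigOperators Topology
open Filter

variable {d m : ℕ} {σ : Fin d → List (Fin d)}

theorem pi_shZ {π : (ℤ → Fin d) → Torus m} {γ : Torus m}
    (hπ : ∀ x ∈ X σ, π (sh x) = π x + γ) :
    ∀ x ∈ X σ, ∀ k : ℤ, π (shZ k x) = π x + k • γ := by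
  intro x hx k
  have step : ∀ k : ℤ, π (shZ (k+1) x) = π (shZ k x) + γ := by
    intro k
    have h1 := hπ (shZ k x) (shZ_mem hx k)
    rw [sh_eq_shZ, shZ_add, add_comm] at h1
    exact h1
  induction k using Int.induction_on with
  | zero => simp [shZ_zero]
  | succ n ih =>
    rw [step, ih, add_zsmul, one_zsmul, add_assoc]
  | pred n ih =>
    have h1 := step (-(n:ℤ) - 1)
    have e1 : -(n:ℤ) - 1 + 1 = -n := by ring
    rw [e1, ih] at h1
    have h2 : π (shZ (-(n:ℤ) - 1) x) = π x + (-(n:ℤ)) • γ - γ := eq_sub_of_add_eq h1.symm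
    have h3 : (-(n:ℤ) - 1) • γ = (-(n:ℤ)) • γ - γ := by rw [sub_zsmul (a := γ), one_zsmul, sub_eq_add_neg]
    rw [h2, h3]
    abel

/-- uniform continuity -/
theorem unif {π : (ℤ → Fin d) → Torus m} (hc : ContinuousOn π (X σ))
    {U : Set (Torus m)} (hU : U ∈ 𝓝 (0 : Torus m)) :
    ∃ c : ℕ, ∀ p ∈ X σ, ∀ q ∈ X σ, (∀ t : ℤ, |t| ≤ c → p t = q t) → π q - π p ∈ U := by
  by_contra hcon
  push Not at hcon
  choose p hp q hq hag hnU using hcon
  obtain ⟨a, ha, φ, hφ, hlim⟩ := (X_compact σ).tendsto_subseq hp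
  have hlim2 : Tendsto (q ∘ φ) atTop (𝓝 a) := by
    rw [tendsto_pi_nhds] at hlim ⊢
    intro t
    refine (hlim t).congr' ?_
    filter_upwards [Filter.eventually_ge_atTop t.natAbs] with n hn
    have h1 : t.natAbs ≤ φ n := hn.trans (hφ.id_le n)
    exact hag (φ n) t (by rw [Int.abs_eq_natAbs]; exact_mod_cast h1)
  have h1 : Tendsto (fun n => π ((p ∘ φ) n)) atTop (𝓝 (π a)) :=
    (hc a ha).tendsto.comp (tendsto_nhdsWithin_iff.2 ⟨hlim, Filter.Eventually.of_forall fun n => hp _⟩)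
  have h2 : Tendsto (fun n => π ((q ∘ φ) n)) atTop (𝓝 (π a)) :=
    (hc a ha).tendsto.comp (tendsto_nhdsWithin_iff.2 ⟨hlim2, Filter.Eventually.of_forall fun n => hq _⟩)
  have h3 := h2.sub h1
  rw [sub_self] at h3
  obtain ⟨n, hn⟩ := (h3.eventually hU).exists
  exact hnU (φ n) hn

/-- return vectors -/
theorem ret_tendsto (P : PD (inc σ)) {π : (ℤ → Fin d) → Torus m} (hc : ContinuousOn π (X σ))
    {γ : Torus m} (hπ : ∀ x ∈ X σ, π (sh x) = π x + γ) {a : Fin d} {w : List (Fin d)}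
    (hw : (a :: w) ++ [a] ∈ lang σ) :
    Tendsto (fun n : ℕ => (Sn σ n (ab (a :: w))) • γ) atTop (𝓝 0) := by
  rw [tendsto_def]
  intro U hU
  obtain ⟨c, hcU⟩ := unif hc hU
  filter_upwards [SRec_len P a (2 * c + 1)] with n hn
  have hn' : 2 * c + 1 < (iter σ n a).length := by exact_mod_cast hn
  obtain ⟨x, hx, hwin⟩ := exists_point P (lang_iter hw n)
  rw [ext_append, ext_single, List.length_append, win_append] at hwin
  have h1 := List.append_inj hwin (by simp [win_length])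
  rw [zero_add] at h1
  obtain ⟨h1, h2⟩ := h1
  rw [ext_cons, List.length_append, win_append] at h1
  have h3 := (List.append_inj h1 (by simp [win_length])).1
  obtain ⟨L, hL⟩ : ∃ L : ℕ, L = (ext (iter σ n) (a :: w)).length := ⟨_, rfl⟩
  rw [← hL] at h2
  have h4 : win x 0 (iter σ n a).length = win x L (iter σ n a).length := by rw [h2, h3]
  have hag : ∀ t : ℤ, |t| ≤ c → (shZ c x) t = (shZ (c + L) x) t := by
    intro t ht
    rw [abs_le] at ht
    obtain ⟨s, hs⟩ : ∃ s : ℕ, (s : ℤ) = t + c := ⟨(t + c).toNat, by omega⟩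
    have := win_eq_get h4 s (by omega)
    simp only [shZ]
    rw [show t + (c : ℤ) = 0 + (s : ℤ) by omega, show t + ((c : ℤ) + (L : ℤ)) = L + s by omega]
    exact this
  have h5 := hcU _ (shZ_mem hx c) _ (shZ_mem hx (c + L)) hag
  rw [pi_shZ hπ x hx, pi_shZ hπ x hx, add_zsmul] at h5
  have h6 : (Sn σ n (ab (a :: w))) • γ = π x + ((c : ℤ) • γ + (L : ℤ) • γ) - (π x + (c : ℤ) • γ) := by
    rw [← Sn_len, ← hL]
    abel
  show (Sn σ n (ab (a :: w))) • γ ∈ U
  rw [h6]
  exact h5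

/-- the group of vectors which are asymptotically trivial -/
def Gp (σ : Fin d → List (Fin d)) (γ : Torus m) : AddSubgroup (Fin d → ℤ) where
  carrier := {t | Tendsto (fun n : ℕ => (Sn σ n t) • γ) atTop (𝓝 0)}
  zero_mem' := by
    show Tendsto (fun n : ℕ => (Sn σ n 0) • γ) atTop (𝓝 0)
    simp only [Sn_zero, zero_zsmul]
    exact tendsto_const_nhds
  add_mem' := by
    intro s t hs ht
    have h : Tendsto (fun n : ℕ => (Sn σ n s) • γ + (Sn σ n t) • γ) atTop (𝓝 (0 + 0)) :=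
      Filter.Tendsto.add hs ht
    rw [add_zero] at h
    show Tendsto (fun n : ℕ => (Sn σ n (s + t)) • γ) atTop (𝓝 0)
    refine h.congr fun n => ?_
    rw [Sn_add, add_zsmul]
  neg_mem' := by
    intro t ht
    have h : Tendsto (fun n : ℕ => -((Sn σ n t) • γ)) atTop (𝓝 (-0)) := Filter.Tendsto.neg ht
    rw [neg_zero] at h
    show Tendsto (fun n : ℕ => (Sn σ n (-t)) • γ) atTop (𝓝 0)
    refine h.congr fun n => ?_
    rw [Sn_neg, neg_zsmul]

theorem Gp_psum (P : PD (inc σ)) {π : (ℤ → Fin d) → Torus m} (hc : ContinuousOn π (X σ))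
    {γ : Torus m} (hπ : ∀ x ∈ X σ, π (sh x) = π x + γ) {x : ℤ → Fin d} (hx : x ∈ X σ)
    {i j : ℤ} (hij : x i = x j) : psum x j - psum x i ∈ Gp σ γ := by
  have key : ∀ i j : ℤ, i < j → x i = x j → psum x j - psum x i ∈ Gp σ γ := by
    intro i j hlt hij
    obtain ⟨n, hn⟩ : ∃ n : ℕ, j = i + ((n + 1 : ℕ) : ℤ) := ⟨(j - i - 1).toNat, by omega⟩
    have h1 : win x i (n + 1 + 1) = (x i :: win x (i + 1) n) ++ [x i] := by
      rw [win_append, win_succ' x i n, win_succ' x (i + ((n + 1 : ℕ) : ℤ)) 0, win_zero, ← hn, hij]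
    have h2 : (x i :: win x (i + 1) n) ++ [x i] ∈ lang σ := by
      rw [← h1]
      exact hx _ _
    have h3 := ret_tendsto P hc hπ h2
    rw [← win_succ' x i n, ab_win, ← hn] at h3
    exact h3
  rcases lt_trichotomy i j with h | h | h
  · exact key i j h hij
  · subst h
    rw [sub_self]
    exact (Gp σ γ).zero_mem
  · have h1 := (Gp σ γ).neg_mem (key j i h hij.symm)
    rw [neg_sub] at h1
    exact h1

end Pool.Agent.X82.PC
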