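import Pool.Agent.X82.PC4

/-!
A substitution whose system is semi-conjugate to a toral translation has the super-coincidence
property. Part 3: the return vectors generate the lattice.
-/

set_option autoImplicit false

namespace Pool.Agent.X82.PC
open Pool.Agent.H812R2.PI
open scoped BigOperators Topology
open Filter

variable {d m : ℕ} {σ : Fin d → List (Fin d)}

theorem lang_bd (P : PD (inc σ)) : ∃ K : ℝ, ∀ w ∈ lang σ, ∀ i,
    |(ab w i : ℝ) - (w.length : ℝ) * P.u i| ≤ K := by
  have hB := JFin_BT P (fun i j => by unfold inc; positivity) σ rfl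
  refine ⟨P.c * (2 * (P.c * ∑ i, ∑ j, ((inc σ) i j : ℝ)) / (1 - P.rho)), fun w hw i => ?_⟩
  have h1 := lang_N_le P _ hB w hw
  have h2 := (P.le_cN (rv (ab w)) i).trans (mul_le_mul_of_nonneg_left h1 P.c_pos.le)
  have h3 : ∑ j, rv (ab w) j = (w.length : ℝ) := by
    have := ab_sum w
    simp only [rv]
    exact_mod_cast this
  rw [h3] at h2
  exact h2

theorem Gp_top (P : PD (inc σ)) {π : (ℤ → Fin d) → Torus m} (hc : ContinuousOn π (X σ))
    {γ : Torus m} (hπ : ∀ x ∈ X σ, π (sh x) = π x + γ) (t : Fin d → ℤ) : t ∈ Gp σ γ := by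
  classical
  obtain ⟨G, hG⟩ : ∃ G, G = Gp σ γ := ⟨_, rfl⟩
  rw [← hG]
  obtain ⟨x, hx⟩ := X_nonempty P
  have hocc : ∀ a : Fin d, ∃ k : ℤ, x k = a := by
    intro a
    obtain ⟨y, hy, -, hy0, -⟩ := exists_pair P a a
    obtain ⟨k, hk⟩ := X_minimal P hx hy 0
    have := hk 0 (by simp)
    rw [add_zero, hy0] at this
    exact ⟨k, this⟩
  choose κ hκ using hocc
  have hps : ∀ k : ℤ, psum x k - psum x (κ (x k)) ∈ G := by
    intro k
    rw [hG]
    exact Gp_psum P hc hπ hx (hκ (x k))
  obtain ⟨K, hK⟩ := lang_bd P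
  have hev : ∀ a0 : Fin d, ev a0 ∈ G := by
    intro a0
    obtain ⟨s, hs⟩ : ∃ s, s = psum x (κ a0) := ⟨_, rfl⟩
    obtain ⟨ε, hε⟩ : ∃ ε : Fin d → ℤ, ε = fun a =>
      (if psum x (κ a) + ev a - s ∈ G then 1 else 0) - (if psum x (κ a) - s ∈ G then 1 else 0) :=
      ⟨_, rfl⟩
    obtain ⟨g, hg⟩ : ∃ g : ℤ → ℤ, g = fun k => if psum x k - s ∈ G then 1 else 0 := ⟨_, rfl⟩
    have hstep : ∀ k : ℤ, g (k + 1) = g k + ε (x k) := by
      intro k
      have e1 : (psum x k - s ∈ G) ↔ (psum x (κ (x k)) - s ∈ G) := by
        constructor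
        · intro h
          have := G.sub_mem h (hps k)
          rwa [show psum x k - s - (psum x k - psum x (κ (x k))) = psum x (κ (x k)) - s by abel] at this
        · intro h
          have := G.add_mem h (hps k)
          rwa [show psum x (κ (x k)) - s + (psum x k - psum x (κ (x k))) = psum x k - s by abel] at this
      have e2 : (psum x (k + 1) - s ∈ G) ↔ (psum x (κ (x k)) + ev (x k) - s ∈ G) := by
        rw [psum_succ]
        constructor
        · intro h
          have := G.sub_mem h (hps k)
          rwa [show psum x k + ev (x k) - s - (psum x k - psum x (κ (x k))) =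
            psum x (κ (x k)) + ev (x k) - s by abel] at this
        · intro h
          have := G.add_mem h (hps k)
          rwa [show psum x (κ (x k)) + ev (x k) - s + (psum x k - psum x (κ (x k))) =
            psum x k + ev (x k) - s by abel] at this
      rw [hg, hε]
      simp only [e1, e2]
      ring
    have hsum : ∀ n : ℕ, ∑ a, ε a * psum x n a = g n - g 0 := by
      intro n
      induction n with
      | zero => simp [psum_zero]
      | succ n ih =>
        have h1 : ∑ a, ε a * ev (x n) a = ε (x n) := by simp [ev]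
        have h2 : ∑ a, ε a * psum x ((n + 1 : ℕ) : ℤ) a =
            ∑ a, ε a * psum x n a + ∑ a, ε a * ev (x n) a := by
          rw [← Finset.sum_add_distrib]
          refine Finset.sum_congr rfl fun a _ => ?_
          push_cast
          rw [psum_succ]
          simp only [Pi.add_apply]
          ring
        rw [h2, ih, h1]
        push_cast
        rw [hstep]
        ring
    have hg1 : ∀ k : ℤ, 0 ≤ g k ∧ g k ≤ 1 := by
      intro k
      rw [hg]
      simp only
      split_ifs <;> simp
    have hε1 : ∀ a, |((ε a : ℤ) : ℝ)| ≤ 1 := by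
      intro a
      have : |ε a| ≤ 1 := by
        rw [hε]
        simp only
        split_ifs <;> simp
      exact_mod_cast this
    have hzero : ∑ a, ((ε a : ℤ) : ℝ) * P.u a = 0 := by
      obtain ⟨S, hS⟩ : ∃ S : ℝ, S = ∑ a, ((ε a : ℤ) : ℝ) * P.u a := ⟨_, rfl⟩
      rw [← hS]
      have hb : ∀ n : ℕ, |(n : ℝ) * S| ≤ 1 + ∑ _a : Fin d, K := by
        intro n
        have h1 : (n : ℝ) * S = (∑ a, ((ε a : ℤ) : ℝ) * (psum x n a : ℝ)) -
            ∑ a, ((ε a : ℤ) : ℝ) * ((psum x n a : ℝ) - n * P.u a) := by
          rw [hS, ← Finset.sum_sub_distrib, Finset.mul_sum]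
          refine Finset.sum_congr rfl fun a _ => ?_
          ring
        have h2 : |∑ a, ((ε a : ℤ) : ℝ) * (psum x n a : ℝ)| ≤ 1 := by
          have h3 := hsum n
          have h4 := hg1 n
          have h5 := hg1 0
          have h6 : |∑ a, ε a * psum x n a| ≤ 1 := by
            rw [h3, abs_le]
            constructor <;> linarith
          have h7 : ((|∑ a, ε a * psum x n a| : ℤ) : ℝ) ≤ 1 := by exact_mod_cast h6
          rw [Int.cast_abs] at h7
          push_cast at h7
          exact h7
        have h3 : |∑ a, ((ε a : ℤ) : ℝ) * ((psum x n a : ℝ) - n * P.u a)| ≤ ∑ _a : Fin d, K := by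
          refine (Finset.abs_sum_le_sum_abs _ _).trans (Finset.sum_le_sum fun a _ => ?_)
          rw [abs_mul]
          have h4 : |(psum x n a : ℝ) - n * P.u a| ≤ K := by
            have h5 := hK _ (hx 0 n) a
            rw [ab_win, win_length, zero_add, psum_zero, sub_zero] at h5
            exact h5
          have h6 := hε1 a
          have h7 := abs_nonneg ((psum x n a : ℝ) - n * P.u a)
          nlinarith [abs_nonneg ((ε a : ℤ) : ℝ)]
        rw [h1]
        exact (abs_sub _ _).trans (by linarith)
      by_contra hne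
      have hpos : 0 < |S| := abs_pos.2 hne
      obtain ⟨n, hn⟩ := exists_nat_gt ((1 + ∑ _a : Fin d, K) / |S|)
      rw [div_lt_iff₀ hpos] at hn
      have := hb n
      rw [abs_mul, Nat.abs_cast] at this
      linarith
    have h0 := P.u_ind ε hzero
    have h1 := congrFun h0 a0
    rw [hε] at h1
    simp only [Pi.zero_apply] at h1
    rw [← hs, sub_self, if_pos G.zero_mem, show s + ev a0 - s = ev a0 by abel] at h1
    by_contra hcon
    rw [if_neg hcon] at h1
    norm_num at h1
  have ht : t = ∑ a, t a • ev a := by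
    funext i
    simp [Finset.sum_apply, ev]
  rw [ht]
  exact G.sum_mem fun a _ => G.zsmul_mem (hev a) _

end Pool.Agent.X82.PC
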