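import Pool.Agent.X82.SepThree

/-!
# Counting: random families of r-tuples

Three counting estimates for families `ω : Fin M → Fin r → Fin n` of `M` tuples of length `r`.
-/

set_option autoImplicit false

namespace Pool.Agent.X82.SepThree

open Finset

theorem card_mul_le {α β γ : Type} [Fintype β] [Fintype γ] [DecidableEq γ]
    (E : Finset α) (f : α → β → γ)
    (h : ∀ a ∈ E, ∀ a' ∈ E, ∀ x y, f a x = f a' y → a = a' ∧ x = y) :
    E.card * Fintype.card β ≤ Fintype.card γ := by
  classical
  have h1 : ((E ×ˢ (univ : Finset β)).image (fun p => f p.1 p.2)).card ≤ Fintype.card γ :=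
    card_le_univ _
  rw [card_image_of_injOn, card_product, card_univ] at h1
  · exact h1
  · intro p hp q hq hpq
    have hp' := (mem_product.mp hp).1
    have hq' := (mem_product.mp hq).1
    obtain ⟨h2, h3⟩ := h p.1 hp' q.1 hq' p.2 q.2 hpq
    exact Prod.ext h2 h3

theorem card_fun3 (n r M : ℕ) : Fintype.card (Fin M → Fin r → Fin n) = (n ^ r) ^ M := by
  simp only [Fintype.card_fun, Fintype.card_fin]

section one

variable {n r M : ℕ}

theorem one_a (i : Fin M) (a b : Fin r) (hab : a ≠ b) :
    (univ.filter (fun ω : Fin M → Fin r → Fin n => ω i a = ω i b)).card * n ≤ (n ^ r) ^ M := by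
  classical
  have h := card_mul_le (univ.filter (fun ω : Fin M → Fin r → Fin n => ω i a = ω i b))
    (fun ω (x : Fin n) => Function.update ω i (Function.update (ω i) a x)) ?_
  · rw [card_fun3, Fintype.card_fin] at h
    exact h
  intro ω hω ω' hω' x y hxy
  have hω := (mem_filter.mp hω).2
  have hω' := (mem_filter.mp hω').2
  have hi : ∀ c, Function.update (ω i) a x c = Function.update (ω' i) a y c := by
    intro c
    have h1 := congrFun (congrFun hxy i) c
    simpa using h1
  have hc : ∀ c, c ≠ a → ω i c = ω' i c := by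
    intro c hc
    have h1 := hi c
    rwa [Function.update_of_ne hc, Function.update_of_ne hc] at h1
  have hx : x = y := by
    have h1 := hi a
    rwa [Function.update_self, Function.update_self] at h1
  refine ⟨?_, hx⟩
  funext j c
  by_cases hj : j = i
  · subst hj
    by_cases hca : c = a
    · subst hca
      rw [hω, hω']
      exact hc b (Ne.symm hab)
    · exact hc c hca
  · have h1 := congrFun (congrFun hxy j) c
    simpa [Function.update_of_ne hj] using h1

theorem one_b (i j : Fin M) (hij : j ≠ i) (a b c d : Fin r) (hab : a ≠ b) :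
    (univ.filter (fun ω : Fin M → Fin r → Fin n => ω i a = ω j c ∧ ω i b = ω j d)).card * (n * n)
      ≤ (n ^ r) ^ M := by
  classical
  have h := card_mul_le
    (univ.filter (fun ω : Fin M → Fin r → Fin n => ω i a = ω j c ∧ ω i b = ω j d))
    (fun ω (x : Fin n × Fin n) =>
      Function.update ω i (Function.update (Function.update (ω i) a x.1) b x.2)) ?_
  · rw [card_fun3, Fintype.card_prod, Fintype.card_fin] at h
    exact h
  intro ω hω ω' hω' x y hxy
  have hω := (mem_filter.mp hω).2
  have hω' := (mem_filter.mp hω').2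
  have hi : ∀ e, Function.update (Function.update (ω i) a x.1) b x.2 e =
      Function.update (Function.update (ω' i) a y.1) b y.2 e := by
    intro e
    have h1 := congrFun (congrFun hxy i) e
    simpa using h1
  have hj : ∀ k, k ≠ i → ω k = ω' k := by
    intro k hk
    have h1 := congrFun hxy k
    simpa [Function.update_of_ne hk] using h1
  have hx2 : x.2 = y.2 := by
    have h1 := hi b
    rwa [Function.update_self, Function.update_self] at h1
  have hx1 : x.1 = y.1 := by
    have h1 := hi a
    rwa [Function.update_of_ne hab, Function.update_of_ne hab, Function.update_self,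
      Function.update_self] at h1
  refine ⟨?_, Prod.ext hx1 hx2⟩
  funext k e
  by_cases hk : k = i
  · subst hk
    by_cases hea : e = a
    · rw [hea, hω.1, hω'.1, hj j hij]
    · by_cases heb : e = b
      · rw [heb, hω.2, hω'.2, hj j hij]
      · have h1 := hi e
        rwa [Function.update_of_ne heb, Function.update_of_ne heb, Function.update_of_ne hea,
          Function.update_of_ne hea] at h1
  · rw [hj k hk]

/-- the tuple `i` of the family is degenerate or shares two vertices with another one -/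
def BadAt (ω : Fin M → Fin r → Fin n) (i : Fin M) : Prop :=
  (∃ p : Fin r × Fin r, p.1 ≠ p.2 ∧ ω i p.1 = ω i p.2) ∨
    ∃ q : Fin M × (Fin r × Fin r) × (Fin r × Fin r), (q.1 ≠ i ∧ q.2.1.1 ≠ q.2.1.2) ∧
      (ω i q.2.1.1 = ω q.1 q.2.2.1 ∧ ω i q.2.1.2 = ω q.1 q.2.2.2)

open Classical in
theorem bad_at_count (i : Fin M) :
    (univ.filter (fun ω : Fin M → Fin r → Fin n => BadAt ω i)).card * (n * n) ≤
      (r ^ 2 * n + M * r ^ 4) * (n ^ r) ^ M := by
  let P1 : Finset (Fin r × Fin r) := univ.filter (fun p => p.1 ≠ p.2)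
  let P2 : Finset (Fin M × (Fin r × Fin r) × (Fin r × Fin r)) :=
    univ.filter (fun q => q.1 ≠ i ∧ q.2.1.1 ≠ q.2.1.2)
  let A1 : Fin r × Fin r → Finset (Fin M → Fin r → Fin n) := fun p =>
    univ.filter (fun ω => ω i p.1 = ω i p.2)
  let A2 : Fin M × (Fin r × Fin r) × (Fin r × Fin r) → Finset (Fin M → Fin r → Fin n) := fun q =>
    univ.filter (fun ω => ω i q.2.1.1 = ω q.1 q.2.2.1 ∧ ω i q.2.1.2 = ω q.1 q.2.2.2)
  have hsub : univ.filter (fun ω : Fin M → Fin r → Fin n => BadAt ω i) ⊆
      P1.biUnion A1 ∪ P2.biUnion A2 := by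
    intro ω hω
    rcases (mem_filter.mp hω).2 with ⟨p, hp, h⟩ | ⟨q, hq, h⟩
    · exact mem_union_left _ (mem_biUnion.mpr ⟨p, mem_filter.mpr ⟨mem_univ _, hp⟩,
        mem_filter.mpr ⟨mem_univ _, h⟩⟩)
    · exact mem_union_right _ (mem_biUnion.mpr ⟨q, mem_filter.mpr ⟨mem_univ _, hq⟩,
        mem_filter.mpr ⟨mem_univ _, h⟩⟩)
  have hP1 : P1.card ≤ r ^ 2 := by
    refine le_trans (card_le_univ _) ?_
    rw [Fintype.card_prod, Fintype.card_fin, sq]
  have hP2 : P2.card ≤ M * r ^ 4 := by
    refine le_trans (card_le_univ _) ?_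
    rw [Fintype.card_prod, Fintype.card_prod, Fintype.card_prod, Fintype.card_fin,
      Fintype.card_fin]
    exact le_of_eq (by ring)
  have h1 : (P1.biUnion A1).card * (n * n) ≤ r ^ 2 * n * (n ^ r) ^ M := by
    calc (P1.biUnion A1).card * (n * n) ≤ (∑ p ∈ P1, (A1 p).card) * (n * n) :=
          Nat.mul_le_mul_right _ card_biUnion_le
      _ = ∑ p ∈ P1, (A1 p).card * n * n := by
          rw [sum_mul]
          exact sum_congr rfl (fun p _ => by ring)
      _ ≤ ∑ p ∈ P1, (n ^ r) ^ M * n :=
          sum_le_sum (fun p hp => Nat.mul_le_mul_right _ (one_a i p.1 p.2 (mem_filter.mp hp).2))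
      _ = P1.card * ((n ^ r) ^ M * n) := by rw [sum_const, smul_eq_mul]
      _ ≤ r ^ 2 * ((n ^ r) ^ M * n) := Nat.mul_le_mul_right _ hP1
      _ = r ^ 2 * n * (n ^ r) ^ M := by ring
  have h2 : (P2.biUnion A2).card * (n * n) ≤ M * r ^ 4 * (n ^ r) ^ M := by
    calc (P2.biUnion A2).card * (n * n) ≤ (∑ p ∈ P2, (A2 p).card) * (n * n) :=
          Nat.mul_le_mul_right _ card_biUnion_le
      _ = ∑ p ∈ P2, (A2 p).card * (n * n) := by rw [sum_mul]
      _ ≤ ∑ p ∈ P2, (n ^ r) ^ M :=
          sum_le_sum (fun q hq => one_b i q.1 (mem_filter.mp hq).2.1 _ _ _ _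
            (mem_filter.mp hq).2.2)
      _ = P2.card * ((n ^ r) ^ M) := by rw [sum_const, smul_eq_mul]
      _ ≤ M * r ^ 4 * (n ^ r) ^ M := Nat.mul_le_mul_right _ hP2
  calc (univ.filter (fun ω : Fin M → Fin r → Fin n => BadAt ω i)).card * (n * n)
      ≤ ((P1.biUnion A1).card + (P2.biUnion A2).card) * (n * n) :=
        Nat.mul_le_mul_right _ (le_trans (card_le_card hsub) (card_union_le _ _))
    _ = (P1.biUnion A1).card * (n * n) + (P2.biUnion A2).card * (n * n) := add_mul _ _ _
    _ ≤ r ^ 2 * n * (n ^ r) ^ M + M * r ^ 4 * (n ^ r) ^ M := Nat.add_le_add h1 h2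
    _ = (r ^ 2 * n + M * r ^ 4) * (n ^ r) ^ M := by ring

open Classical in
/-- Few families have many bad tuples. -/
theorem bad_count (b : ℕ) :
    (univ.filter (fun ω : Fin M → Fin r → Fin n =>
      b ≤ (univ.filter (fun i => BadAt ω i)).card)).card * b * (n * n) ≤
      M * (r ^ 2 * n + M * r ^ 4) * (n ^ r) ^ M := by
  have h1 : (univ.filter (fun ω : Fin M → Fin r → Fin n =>
      b ≤ (univ.filter (fun i => BadAt ω i)).card)).card * b ≤
      ∑ i : Fin M, (univ.filter (fun ω : Fin M → Fin r → Fin n => BadAt ω i)).card := by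
    calc (univ.filter (fun ω : Fin M → Fin r → Fin n =>
        b ≤ (univ.filter (fun i => BadAt ω i)).card)).card * b
        = ∑ ω ∈ univ.filter (fun ω : Fin M → Fin r → Fin n =>
            b ≤ (univ.filter (fun i => BadAt ω i)).card), b := by rw [sum_const, smul_eq_mul]
      _ ≤ ∑ ω ∈ univ.filter (fun ω : Fin M → Fin r → Fin n =>
            b ≤ (univ.filter (fun i => BadAt ω i)).card),
              (univ.filter (fun i => BadAt ω i)).card :=
          sum_le_sum (fun ω hω => (mem_filter.mp hω).2)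
      _ ≤ ∑ ω : Fin M → Fin r → Fin n, (univ.filter (fun i => BadAt ω i)).card :=
          sum_le_sum_of_subset (filter_subset _ _)
      _ = ∑ ω : Fin M → Fin r → Fin n, ∑ i : Fin M, if BadAt ω i then 1 else 0 :=
          sum_congr rfl (fun ω _ => card_filter _ _)
      _ = ∑ i : Fin M, ∑ ω : Fin M → Fin r → Fin n, if BadAt ω i then 1 else 0 := sum_comm
      _ = ∑ i : Fin M, (univ.filter (fun ω : Fin M → Fin r → Fin n => BadAt ω i)).card :=
          sum_congr rfl (fun i _ => (card_filter _ _).symm)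
  calc _ ≤ (∑ i : Fin M, (univ.filter (fun ω : Fin M → Fin r → Fin n => BadAt ω i)).card) *
        (n * n) := Nat.mul_le_mul_right _ h1
    _ = ∑ i : Fin M, (univ.filter (fun ω : Fin M → Fin r → Fin n => BadAt ω i)).card *
        (n * n) := by rw [sum_mul]
    _ ≤ ∑ _i : Fin M, (r ^ 2 * n + M * r ^ 4) * (n ^ r) ^ M :=
        sum_le_sum (fun i _ => bad_at_count i)
    _ = M * (r ^ 2 * n + M * r ^ 4) * (n ^ r) ^ M := by
        rw [sum_const, smul_eq_mul, card_univ, Fintype.card_fin]
        ring

end one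

section product

variable {n r M : ℕ}

theorem card_prescribed (A : Finset (Fin r → Fin n)) (T : Finset (Fin M)) :
    (univ.filter (fun ω : Fin M → Fin r → Fin n => ∀ i ∈ T, ω i ∈ A)).card =
      A.card ^ T.card * (n ^ r) ^ (M - T.card) := by
  classical
  have h1 : univ.filter (fun ω : Fin M → Fin r → Fin n => ∀ i ∈ T, ω i ∈ A) =
      Fintype.piFinset (fun i => if i ∈ T then A else univ) := by
    ext ω
    rw [mem_filter, Fintype.mem_piFinset]
    constructor
    · intro h i
      by_cases hi : i ∈ T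
      · rw [if_pos hi]
        exact h.2 i hi
      · rw [if_neg hi]
        exact mem_univ _
    · intro h
      refine ⟨mem_univ _, fun i hi => ?_⟩
      have := h i
      rwa [if_pos hi] at this
  rw [h1, Fintype.card_piFinset]
  have h2 : ∀ i, (if i ∈ T then A else univ : Finset (Fin r → Fin n)).card =
      if i ∈ T then A.card else n ^ r := by
    intro i
    split_ifs
    · rfl
    · rw [card_univ, Fintype.card_fun, Fintype.card_fin, Fintype.card_fin]
  rw [prod_congr rfl (fun i _ => h2 i), prod_ite, prod_const, prod_const]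
  have h3 : (univ.filter (fun i => i ∈ T)) = T := by
    ext i
    simp
  have h4 : (univ.filter (fun i => i ∉ T)).card = M - T.card := by
    have h5 := card_compl T
    rw [Fintype.card_fin] at h5
    rw [← h5]
    congr 1
    ext i
    simp
  rw [h3, h4]

/-- the tuple starts with two different elements of `I` -/
def Cov {k : ℕ} (I : Finset (Fin n)) (f : Fin (k + 2) → Fin n) : Prop :=
  f 0 ∈ I ∧ f 1 ∈ I ∧ f 0 ≠ f 1

open Classical in
theorem cov_count {k : ℕ} (I : Finset (Fin n)) :
    (univ.filter (fun f : Fin (k + 2) → Fin n => ¬ Cov I f)).card +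
      (I.card * I.card - I.card) * n ^ k ≤ n ^ (k + 2) := by
  have h1 : (I.card * I.card - I.card) * n ^ k ≤
      (univ.filter (fun f : Fin (k + 2) → Fin n => Cov I f)).card := by
    have h2 : (I.offDiag ×ˢ (univ : Finset (Fin k → Fin n))).card =
        (I.card * I.card - I.card) * n ^ k := by
      rw [card_product, offDiag_card, card_univ, Fintype.card_fun, Fintype.card_fin,
        Fintype.card_fin]
    rw [← h2]
    refine card_le_card_of_injOn
      (fun p => (Fin.cons p.1.1 (Fin.cons p.1.2 p.2 : Fin (k + 1) → Fin n) :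
        Fin (k + 2) → Fin n)) ?_ ?_
    · intro p hp
      have hp1 := mem_offDiag.mp (mem_product.mp hp).1
      refine mem_coe.mpr (mem_filter.mpr ⟨mem_univ _, ?_⟩)
      exact hp1
    · intro p hp q hq hpq
      have h3 := Fin.cons_injective2 hpq
      have h4 := Fin.cons_injective2 h3.2
      exact Prod.ext (Prod.ext h3.1 h4.1) h4.2
  have h2 := card_filter_add_card_filter_not (s := (univ : Finset (Fin (k + 2) → Fin n)))
    (fun f => Cov I f)
  rw [card_univ, Fintype.card_fun, Fintype.card_fin, Fintype.card_fin] at h2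
  omega

open Classical in
theorem cov_event {k : ℕ} (I : Finset (Fin n)) (b : ℕ) (hb : b ≤ M) :
    (univ.filter (fun ω : Fin M → Fin (k + 2) → Fin n =>
      (univ.filter (fun i => Cov I (ω i))).card ≤ b)).card ≤
      M ^ b * ((univ.filter (fun f : Fin (k + 2) → Fin n => ¬ Cov I f)).card ^ (M - b) *
        (n ^ (k + 2)) ^ b) := by
  let Q : Finset (Fin (k + 2) → Fin n) := univ.filter (fun f => ¬ Cov I f)
  have hsub : univ.filter (fun ω : Fin M → Fin (k + 2) → Fin n =>
      (univ.filter (fun i => Cov I (ω i))).card ≤ b) ⊆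
      (powersetCard (M - b) (univ : Finset (Fin M))).biUnion
        (fun T => univ.filter (fun ω : Fin M → Fin (k + 2) → Fin n => ∀ i ∈ T, ω i ∈ Q)) := by
    intro ω hω
    have h1 := (mem_filter.mp hω).2
    have h2 : M - b ≤ (univ.filter (fun i => ¬ Cov I (ω i))).card := by
      have h3 := card_filter_add_card_filter_not (s := (univ : Finset (Fin M)))
        (fun i => Cov I (ω i))
      rw [card_univ, Fintype.card_fin] at h3
      omega
    obtain ⟨T, hT, hTc⟩ := exists_subset_card_eq h2
    rw [mem_biUnion]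
    refine ⟨T, mem_powersetCard.mpr ⟨subset_univ _, hTc⟩, mem_filter.mpr ⟨mem_univ _, ?_⟩⟩
    intro i hi
    exact mem_filter.mpr ⟨mem_univ _, (mem_filter.mp (hT hi)).2⟩
  calc _ ≤ _ := card_le_card hsub
    _ ≤ ∑ T ∈ powersetCard (M - b) (univ : Finset (Fin M)),
        (univ.filter (fun ω : Fin M → Fin (k + 2) → Fin n => ∀ i ∈ T, ω i ∈ Q)).card :=
        card_biUnion_le
    _ = ∑ T ∈ powersetCard (M - b) (univ : Finset (Fin M)),
        Q.card ^ (M - b) * (n ^ (k + 2)) ^ b := by
        refine sum_congr rfl (fun T hT => ?_)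
        rw [card_prescribed, (mem_powersetCard.mp hT).2]
        congr 2
        omega
    _ = M.choose (M - b) * (Q.card ^ (M - b) * (n ^ (k + 2)) ^ b) := by
        rw [sum_const, smul_eq_mul, card_powersetCard, card_univ, Fintype.card_fin]
    _ ≤ M ^ b * (Q.card ^ (M - b) * (n ^ (k + 2)) ^ b) := by
        refine Nat.mul_le_mul_right _ ?_
        rw [Nat.choose_symm hb]
        exact Nat.choose_le_pow _ _

open Classical in
/-- Few families avoid covering pairs of a large set. -/
theorem cov_union {k : ℕ} (m b q : ℕ) (hb : b ≤ M)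
    (hq : ∀ I : Finset (Fin n), I.card = m →
      (univ.filter (fun f : Fin (k + 2) → Fin n => ¬ Cov I f)).card ≤ q) :
    (univ.filter (fun ω : Fin M → Fin (k + 2) → Fin n => ∃ I : Finset (Fin n), I.card = m ∧
      (univ.filter (fun i => Cov I (ω i))).card ≤ b)).card ≤
      2 ^ n * (M ^ b * (q ^ (M - b) * (n ^ (k + 2)) ^ b)) := by
  have hsub : univ.filter (fun ω : Fin M → Fin (k + 2) → Fin n =>
      ∃ I : Finset (Fin n), I.card = m ∧ (univ.filter (fun i => Cov I (ω i))).card ≤ b) ⊆
      (univ.filter (fun I : Finset (Fin n) => I.card = m)).biUnion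
        (fun I => univ.filter (fun ω : Fin M → Fin (k + 2) → Fin n =>
          (univ.filter (fun i => Cov I (ω i))).card ≤ b)) := by
    intro ω hω
    obtain ⟨I, hI, h⟩ := (mem_filter.mp hω).2
    exact mem_biUnion.mpr ⟨I, mem_filter.mpr ⟨mem_univ _, hI⟩, mem_filter.mpr ⟨mem_univ _, h⟩⟩
  calc _ ≤ _ := card_le_card hsub
    _ ≤ ∑ I ∈ univ.filter (fun I : Finset (Fin n) => I.card = m),
        (univ.filter (fun ω : Fin M → Fin (k + 2) → Fin n =>
          (univ.filter (fun i => Cov I (ω i))).card ≤ b)).card := card_biUnion_le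
    _ ≤ ∑ I ∈ univ.filter (fun I : Finset (Fin n) => I.card = m),
        M ^ b * (q ^ (M - b) * (n ^ (k + 2)) ^ b) := by
        refine sum_le_sum (fun I hI => ?_)
        refine le_trans (cov_event I b hb) ?_
        refine Nat.mul_le_mul_left _ (Nat.mul_le_mul_right _ ?_)
        exact Nat.pow_le_pow_left (hq I (mem_filter.mp hI).2) _
    _ = (univ.filter (fun I : Finset (Fin n) => I.card = m)).card *
        (M ^ b * (q ^ (M - b) * (n ^ (k + 2)) ^ b)) := by rw [sum_const, smul_eq_mul]
    _ ≤ 2 ^ n * (M ^ b * (q ^ (M - b) * (n ^ (k + 2)) ^ b)) := by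
        refine Nat.mul_le_mul_right _ ?_
        refine le_trans (card_le_univ _) ?_
        rw [Fintype.card_finset, Fintype.card_fin]

open Classical in
/-- Few families have `t` tuples inside a set of `2 * t` points. -/
theorem dense_event (t : ℕ) :
    (univ.filter (fun ω : Fin M → Fin r → Fin n => ∃ T : Finset (Fin M), T.card = t ∧
      ∃ S : Finset (Fin n), S.card = 2 * t ∧ ∀ i ∈ T, ∀ a, ω i a ∈ S)).card ≤
      M ^ t * (n ^ (2 * t) * (((2 * t) ^ r) ^ t * (n ^ r) ^ (M - t))) := by
  let A : Finset (Fin n) → Finset (Fin r → Fin n) := fun S => Fintype.piFinset (fun _ => S)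
  have hA : ∀ S, (A S).card = S.card ^ r := by
    intro S
    simp only [A]
    rw [Fintype.card_piFinset, prod_const, card_univ, Fintype.card_fin]
  have hsub : univ.filter (fun ω : Fin M → Fin r → Fin n => ∃ T : Finset (Fin M), T.card = t ∧
      ∃ S : Finset (Fin n), S.card = 2 * t ∧ ∀ i ∈ T, ∀ a, ω i a ∈ S) ⊆
      (powersetCard t (univ : Finset (Fin M)) ×ˢ
        powersetCard (2 * t) (univ : Finset (Fin n))).biUnion
        (fun p => univ.filter (fun ω : Fin M → Fin r → Fin n => ∀ i ∈ p.1, ω i ∈ A p.2)) := by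
    intro ω hω
    obtain ⟨T, hT, S, hS, h⟩ := (mem_filter.mp hω).2
    refine mem_biUnion.mpr ⟨(T, S), mem_product.mpr ⟨mem_powersetCard.mpr ⟨subset_univ _, hT⟩,
      mem_powersetCard.mpr ⟨subset_univ _, hS⟩⟩, mem_filter.mpr ⟨mem_univ _, ?_⟩⟩
    intro i hi
    exact Fintype.mem_piFinset.mpr (fun a => h i hi a)
  calc _ ≤ _ := card_le_card hsub
    _ ≤ ∑ p ∈ powersetCard t (univ : Finset (Fin M)) ×ˢ
          powersetCard (2 * t) (univ : Finset (Fin n)),
        (univ.filter (fun ω : Fin M → Fin r → Fin n => ∀ i ∈ p.1, ω i ∈ A p.2)).card :=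
        card_biUnion_le
    _ = ∑ p ∈ powersetCard t (univ : Finset (Fin M)) ×ˢ
          powersetCard (2 * t) (univ : Finset (Fin n)),
        ((2 * t) ^ r) ^ t * (n ^ r) ^ (M - t) := by
        refine sum_congr rfl (fun p hp => ?_)
        have hp' := mem_product.mp hp
        rw [card_prescribed, hA, (mem_powersetCard.mp hp'.1).2, (mem_powersetCard.mp hp'.2).2]
    _ = M.choose t * n.choose (2 * t) * (((2 * t) ^ r) ^ t * (n ^ r) ^ (M - t)) := by
        rw [sum_const, smul_eq_mul, card_product, card_powersetCard, card_powersetCard,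
          card_univ, card_univ, Fintype.card_fin, Fintype.card_fin]
    _ ≤ M ^ t * n ^ (2 * t) * (((2 * t) ^ r) ^ t * (n ^ r) ^ (M - t)) :=
        Nat.mul_le_mul_right _ (Nat.mul_le_mul (Nat.choose_le_pow _ _) (Nat.choose_le_pow _ _))
    _ = _ := by ring

end product

end Pool.Agent.X82.SepThree
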