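import Pool.Agent.X82.SepRandom

/-!
# The hypergraph of the good tuples
-/

set_option autoImplicit false

namespace Pool.Agent.X82.SepThree

open Finset

/-- every edge has `r` vertices -/
def Uniform {V : Type} (r : ℕ) (H : Finset (Finset V)) : Prop := ∀ e ∈ H, e.card = r

/-- two different vertices lie in at most one common edge -/
def Linear {V : Type} (H : Finset (Finset V)) : Prop :=
  ∀ u v, u ≠ v → ∀ e ∈ H, ∀ f ∈ H, u ∈ e → v ∈ e → u ∈ f → v ∈ f → e = f

theorem exists_hypergraph (k x : ℕ) (hk : 47 ≤ k) (hx : 160 * (k + 2) ^ 4 ≤ x)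
    (hx5 : 8 * 5 ^ (k + 2) ≤ x) :
    ∃ H : Finset (Finset (Fin (x ^ 14))), Uniform (k + 2) H ∧ Linear H ∧
      x ^ 20 ≤ 2 * H.card ∧ SepColourable H 3 := by
  classical
  have hx8 : 8 ≤ x := by
    have : 1 ≤ 5 ^ (k + 2) := Nat.one_le_pow _ _ (by norm_num)
    omega
  have hx0 : 0 < x := by omega
  obtain ⟨ω, h1, h2, h3⟩ := exists_family k x hk hx hx5
  set b := 8 * (k + 2) ^ 4 * x ^ 12 with hb
  let good : Finset (Fin (x ^ 20)) := univ.filter (fun i => ¬ BadAt ω i)
  let e : Fin (x ^ 20) → Finset (Fin (x ^ 14)) := fun i => univ.image (ω i)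
  have hgood : ∀ i, i ∈ good ↔ ¬ BadAt ω i := by
    intro i
    simp only [good, mem_filter, mem_univ, true_and]
  have hinj : ∀ i ∈ good, Function.Injective (ω i) := by
    intro i hi a c hac
    by_contra hne
    exact ((hgood i).mp hi) (Or.inl ⟨(a, c), hne, hac⟩)
  have hcard : ∀ i ∈ good, (e i).card = k + 2 := by
    intro i hi
    simp only [e]
    rw [card_image_of_injective _ (hinj i hi), card_univ, Fintype.card_fin]
  have hkey : ∀ i ∈ good, ∀ j ∈ good, ∀ u v, u ≠ v → u ∈ e i → v ∈ e i → u ∈ e j → v ∈ e j →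
      i = j := by
    intro i hi j hj u v huv hui hvi huj hvj
    by_contra hij
    obtain ⟨a, _, ha⟩ := mem_image.mp hui
    obtain ⟨c, _, hc⟩ := mem_image.mp hvi
    obtain ⟨a', _, ha'⟩ := mem_image.mp huj
    obtain ⟨c', _, hc'⟩ := mem_image.mp hvj
    refine ((hgood i).mp hi) (Or.inr ⟨(j, (a, c), (a', c')), ⟨fun h => hij h.symm, ?_⟩, ?_, ?_⟩)
    · intro hac
      have hac' : a = c := hac
      rw [hac'] at ha
      exact huv (ha.symm.trans hc)
    · exact ha.trans ha'.symm
    · exact hc.trans hc'.symm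
  have heinj : Set.InjOn e (good : Set (Fin (x ^ 20))) := by
    intro i hi j hj hij
    have h4 : 1 < (e i).card := by
      rw [hcard i hi]
      omega
    obtain ⟨u, hu, v, hv, huv⟩ := one_lt_card.mp h4
    exact hkey i hi j hj u v huv hu hv (hij ▸ hu) (hij ▸ hv)
  have hgoodcard : x ^ 20 < good.card + b := by
    have h4 := card_filter_add_card_filter_not (s := (univ : Finset (Fin (x ^ 20))))
      (fun i => BadAt ω i)
    rw [card_univ, Fintype.card_fin] at h4
    have h5 : good.card = (univ.filter (fun i => ¬ BadAt ω i)).card := rfl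
    omega
  refine ⟨good.image e, ?_, ?_, ?_, ?_⟩
  · intro s hs
    obtain ⟨i, hi, rfl⟩ := mem_image.mp hs
    exact hcard i hi
  · intro u v huv s hs t ht hus hvs hut hvt
    obtain ⟨i, hi, rfl⟩ := mem_image.mp hs
    obtain ⟨j, hj, rfl⟩ := mem_image.mp ht
    rw [hkey i hi j hj u v huv hus hvs hut hvt]
  · rw [card_image_of_injOn heinj]
    have h5 : 2 * b ≤ x ^ 20 := by
      calc 2 * b = 16 * (k + 2) ^ 4 * x ^ 12 := by
            rw [hb]
            ring
        _ ≤ x * x ^ 12 := Nat.mul_le_mul_right _ (by omega)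
        _ = x ^ 13 := by ring
        _ ≤ x ^ 20 := Nat.pow_le_pow_right hx0 (by norm_num)
    omega
  · refine sep_three _ ?_ (4 * x ^ 13) (4 * x ^ 11) ?_ ?_ ?_
    · intro s hs
      obtain ⟨i, hi, rfl⟩ := mem_image.mp hs
      rw [← card_pos, hcard i hi]
      omega
    · intro I hI
      obtain ⟨I', hI', hI'c⟩ := exists_subset_card_eq (le_of_lt hI)
      have h4 := h2 I' hI'c
      have h5 : ∃ i ∈ univ.filter (fun i => Cov I' (ω i)),
          i ∉ univ.filter (fun i => BadAt ω i) :=
        exists_mem_notMem_of_card_lt_card (lt_trans h1 h4)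
      obtain ⟨i, hi, hi'⟩ := h5
      have hc : Cov I' (ω i) := (mem_filter.mp hi).2
      have hg : i ∈ good := by
        rw [hgood]
        intro h
        exact hi' (mem_filter.mpr ⟨mem_univ _, h⟩)
      refine ⟨ω i 0, hI' hc.1, ω i 1, hI' hc.2.1, hc.2.2, e i, mem_image_of_mem _ hg, ?_, ?_⟩
      · exact mem_image_of_mem _ (mem_univ _)
      · exact mem_image_of_mem _ (mem_univ _)
    · intro S hS
      by_contra hlt
      push Not at hlt
      have h4 : ((good.image e).filter (· ⊆ S)).card ≤ (good.filter (fun i => e i ⊆ S)).card := by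
        have h5 : (good.image e).filter (· ⊆ S) ⊆ (good.filter (fun i => e i ⊆ S)).image e := by
          intro s hs
          obtain ⟨hs1, hs2⟩ := mem_filter.mp hs
          obtain ⟨i, hi, rfl⟩ := mem_image.mp hs1
          exact mem_image_of_mem _ (mem_filter.mpr ⟨hi, hs2⟩)
        exact le_trans (card_le_card h5) card_image_le
      have h5 : S.card / 2 + 1 ≤ (good.filter (fun i => e i ⊆ S)).card := by omega
      obtain ⟨T, hT, hTc⟩ := exists_subset_card_eq h5
      have h6 : 2 * (S.card / 2 + 1) ≤ (univ : Finset (Fin (x ^ 14))).card := by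
        rw [card_univ, Fintype.card_fin]
        have h7 : 8 * x ^ 13 ≤ x * x ^ 13 := Nat.mul_le_mul_right _ hx8
        have h8 : x * x ^ 13 = x ^ 14 := by ring
        have h9 : 1 ≤ x ^ 13 := Nat.one_le_pow _ _ hx0
        omega
      obtain ⟨S', hS', _, hS'c⟩ := exists_subsuperset_card_eq (subset_univ S)
        (by omega : S.card ≤ 2 * (S.card / 2 + 1)) h6
      refine h3 (S.card / 2 + 1) (by omega) (by omega) T hTc S' hS'c ?_
      intro i hi a
      refine hS' ((mem_filter.mp (hT hi)).2 ?_)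
      exact mem_image_of_mem _ (mem_univ _)
    · intro N hN
      rw [Fintype.card_fin] at hN
      have h4 : 4 * N ≤ 3 * x := by
        have h5 : (4 * N) * x ^ 13 ≤ (3 * x) * x ^ 13 := by
          calc (4 * N) * x ^ 13 = N * (4 * x ^ 13) := by ring
            _ ≤ 3 * x ^ 14 := hN
            _ = (3 * x) * x ^ 13 := by ring
        exact Nat.le_of_mul_le_mul_right h5 (by positivity)
      have h6 : N ^ 2 ≤ x ^ 2 := Nat.pow_le_pow_left (by omega) 2
      calc 4 * x ^ 11 * N ^ 2 ≤ 4 * x ^ 11 * x ^ 2 := Nat.mul_le_mul_left _ h6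
        _ = 4 * x ^ 13 := by ring

end Pool.Agent.X82.SepThree
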