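import Pool.Agent.X82.SepCount

/-!
# Linear uniform hypergraphs of large degree with separation choice number at most three
-/

set_option autoImplicit false

namespace Pool.Agent.X82.SepThree

open Finset

theorem geo (c : ℕ → ℕ) (X s : ℕ) (h : ∀ t, 1 ≤ t → t ≤ s → c t * 8 ^ t ≤ X) :
    7 * (∑ t ∈ Icc 1 s, c t) * 8 ^ s + X ≤ X * 8 ^ s := by
  induction s with
  | zero => simp
  | succ s ih =>
    have h1 := ih (fun t ht1 ht2 => h t ht1 (by omega))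
    have h2 := h (s + 1) (by omega) le_rfl
    rw [sum_Icc_succ_top (by omega)]
    have h3 : (8 : ℕ) ^ (s + 1) = 8 * 8 ^ s := by ring
    rw [h3] at h2 ⊢
    nlinarith

section

variable {n r M : ℕ}

open Classical in
theorem dense_union (s : ℕ) (hs : s ≤ M) (h : ∀ t, t ≤ s → M * n ^ 2 * (2 * t) ^ r * 8 ≤ n ^ r) :
    4 * (univ.filter (fun ω : Fin M → Fin r → Fin n => ∃ t, (1 ≤ t ∧ t ≤ s) ∧
      ∃ T : Finset (Fin M), T.card = t ∧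
      ∃ S : Finset (Fin n), S.card = 2 * t ∧ ∀ i ∈ T, ∀ a, ω i a ∈ S)).card ≤ (n ^ r) ^ M := by
  let c : ℕ → ℕ := fun t =>
    (univ.filter (fun ω : Fin M → Fin r → Fin n => ∃ T : Finset (Fin M), T.card = t ∧
      ∃ S : Finset (Fin n), S.card = 2 * t ∧ ∀ i ∈ T, ∀ a, ω i a ∈ S)).card
  have h1 : ∀ t, 1 ≤ t → t ≤ s → c t * 8 ^ t ≤ (n ^ r) ^ M := by
    intro t _ hts
    calc c t * 8 ^ t ≤ M ^ t * (n ^ (2 * t) * (((2 * t) ^ r) ^ t * (n ^ r) ^ (M - t))) * 8 ^ t :=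
          Nat.mul_le_mul_right _ (dense_event t)
      _ = (M * n ^ 2 * (2 * t) ^ r * 8) ^ t * (n ^ r) ^ (M - t) := by
          generalize (2 * t) ^ r = Z
          rw [mul_pow, mul_pow, mul_pow, ← pow_mul n 2 t]
          ring
      _ ≤ (n ^ r) ^ t * (n ^ r) ^ (M - t) :=
          Nat.mul_le_mul_right _ (Nat.pow_le_pow_left (h t hts) _)
      _ = (n ^ r) ^ M := by
          rw [← pow_add]
          congr 1
          omega
  have h2 := geo c ((n ^ r) ^ M) s h1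
  have h3 : (univ.filter (fun ω : Fin M → Fin r → Fin n => ∃ t, (1 ≤ t ∧ t ≤ s) ∧
      ∃ T : Finset (Fin M), T.card = t ∧
      ∃ S : Finset (Fin n), S.card = 2 * t ∧ ∀ i ∈ T, ∀ a, ω i a ∈ S)).card ≤
      ∑ t ∈ Icc 1 s, c t := by
    have hsub : univ.filter (fun ω : Fin M → Fin r → Fin n => ∃ t, (1 ≤ t ∧ t ≤ s) ∧
        ∃ T : Finset (Fin M), T.card = t ∧
        ∃ S : Finset (Fin n), S.card = 2 * t ∧ ∀ i ∈ T, ∀ a, ω i a ∈ S) ⊆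
        (Icc 1 s).biUnion (fun t => univ.filter (fun ω : Fin M → Fin r → Fin n =>
          ∃ T : Finset (Fin M), T.card = t ∧
          ∃ S : Finset (Fin n), S.card = 2 * t ∧ ∀ i ∈ T, ∀ a, ω i a ∈ S)) := by
      intro ω hω
      obtain ⟨t, ht, hT⟩ := (mem_filter.mp hω).2
      exact mem_biUnion.mpr ⟨t, mem_Icc.mpr ht, mem_filter.mpr ⟨mem_univ _, hT⟩⟩
    exact le_trans (card_le_card hsub) card_biUnion_le
  have h4 : 7 * (∑ t ∈ Icc 1 s, c t) ≤ (n ^ r) ^ M := by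
    have h5 : (7 * ∑ t ∈ Icc 1 s, c t) * 8 ^ s ≤ (n ^ r) ^ M * 8 ^ s := by omega
    exact Nat.le_of_mul_le_mul_right h5 (by positivity)
  omega

end

/-- the numerical estimate for the second event -/
theorem second_bound (k x q : ℕ) (hx : 160 * (k + 2) ^ 4 ≤ x) (hx8 : 8 ≤ x)
    (hq : q + (4 * x ^ 11 * (4 * x ^ 11) - 4 * x ^ 11) * (x ^ 14) ^ k ≤ (x ^ 14) ^ (k + 2)) :
    4 * (2 ^ (x ^ 14) * ((x ^ 20) ^ (8 * (k + 2) ^ 4 * x ^ 12) *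
      (q ^ (x ^ 20 - 8 * (k + 2) ^ 4 * x ^ 12) *
        ((x ^ 14) ^ (k + 2)) ^ (8 * (k + 2) ^ 4 * x ^ 12)))) ≤
      ((x ^ 14) ^ (k + 2)) ^ (x ^ 20) := by
  have hx0 : 0 < x := by omega
  set b := 8 * (k + 2) ^ 4 * x ^ 12 with hb
  set X := (x ^ 14) ^ (k + 2) with hX
  have hXpos : 0 < X := by positivity
  have hbM : 2 * b ≤ x ^ 20 := by
    have h1 : 2 * b ≤ x * x ^ 12 := by
      rw [hb]
      have : 2 * (8 * (k + 2) ^ 4 * x ^ 12) = (16 * (k + 2) ^ 4) * x ^ 12 := by ring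
      rw [this]
      exact Nat.mul_le_mul_right _ (by omega)
    calc 2 * b ≤ x * x ^ 12 := h1
      _ = x ^ 13 := by ring
      _ ≤ x ^ 20 := Nat.pow_le_pow_right hx0 (by norm_num)
  have hMb : x ^ 20 - b + b = x ^ 20 := by omega
  -- the power of `M`
  have hMpow : (x ^ 20) ^ b ≤ 2 ^ (x ^ 14) := by
    have h1 : x ≤ 2 ^ x := Nat.lt_two_pow_self.le
    calc (x ^ 20) ^ b ≤ ((2 ^ x) ^ 20) ^ b := Nat.pow_le_pow_left (Nat.pow_le_pow_left h1 _) _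
      _ = 2 ^ (160 * (k + 2) ^ 4 * x ^ 13) := by
          rw [← pow_mul, ← pow_mul, hb]
          congr 1
          ring
      _ ≤ 2 ^ (x ^ 14) := by
          refine Nat.pow_le_pow_right (by norm_num) ?_
          calc 160 * (k + 2) ^ 4 * x ^ 13 ≤ x * x ^ 13 := Nat.mul_le_mul_right _ hx
            _ = x ^ 14 := by ring
  -- the probability of one tuple
  have hqR : (q : ℝ) ≤ (X : ℝ) * (1 - 8 / (x : ℝ) ^ 6) := by
    have h1 : 8 * x ^ 22 ≤ 4 * x ^ 11 * (4 * x ^ 11) - 4 * x ^ 11 := by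
      have h2 : 4 * x ^ 11 * (4 * x ^ 11) = 16 * x ^ 22 := by ring
      have h3 : x ^ 11 ≤ x ^ 22 := Nat.pow_le_pow_right hx0 (by norm_num)
      omega
    have h2 : q + 8 * x ^ 22 * (x ^ 14) ^ k ≤ X := by
      refine le_trans (Nat.add_le_add_left (Nat.mul_le_mul_right _ h1) _) hq
    have h3 : (8 * x ^ 22 * (x ^ 14) ^ k) * x ^ 6 = 8 * X := by
      rw [hX]
      ring
    have h2' : (q : ℝ) + 8 * (x : ℝ) ^ 22 * ((x : ℝ) ^ 14) ^ k ≤ (X : ℝ) := by exact_mod_cast h2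
    have h3' : (8 * (x : ℝ) ^ 22 * ((x : ℝ) ^ 14) ^ k) * (x : ℝ) ^ 6 = 8 * (X : ℝ) := by
      exact_mod_cast h3
    have hx6 : (0 : ℝ) < (x : ℝ) ^ 6 := by positivity
    have h4 : 8 * (x : ℝ) ^ 22 * ((x : ℝ) ^ 14) ^ k = 8 * (X : ℝ) / (x : ℝ) ^ 6 := by
      rw [eq_div_iff (ne_of_gt hx6)]
      exact h3'
    rw [h4] at h2'
    have h5 : (X : ℝ) * (1 - 8 / (x : ℝ) ^ 6) = X - 8 * (X : ℝ) / (x : ℝ) ^ 6 := by ring
    rw [h5]
    linarith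
  have hδ : (8 : ℝ) / (x : ℝ) ^ 6 ≤ 1 := by
    rw [div_le_one (by positivity)]
    have h1 : (8 : ℝ) ≤ (x : ℝ) := by exact_mod_cast hx8
    calc (8 : ℝ) ≤ (x : ℝ) := h1
      _ = (x : ℝ) ^ 1 := (pow_one _).symm
      _ ≤ (x : ℝ) ^ 6 := pow_le_pow_right₀ (by linarith) (by norm_num)
  have hexp : (1 - 8 / (x : ℝ) ^ 6) ^ (x ^ 20 - b) ≤ ((1 : ℝ) / 2) ^ (4 * x ^ 14) := by
    have h1 : (1 - 8 / (x : ℝ) ^ 6) ≤ Real.exp (-(8 / (x : ℝ) ^ 6)) := Real.one_sub_le_exp_neg _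
    have h2 : (1 - 8 / (x : ℝ) ^ 6) ^ (x ^ 20 - b) ≤
        Real.exp (-(8 / (x : ℝ) ^ 6)) ^ (x ^ 20 - b) :=
      pow_le_pow_left₀ (by linarith) h1 _
    have h3 : Real.exp (-(8 / (x : ℝ) ^ 6)) ^ (x ^ 20 - b) =
        Real.exp (((x ^ 20 - b : ℕ) : ℝ) * (-(8 / (x : ℝ) ^ 6))) := by
      rw [Real.exp_nat_mul]
    have h4 : ((x ^ 20 - b : ℕ) : ℝ) * (-(8 / (x : ℝ) ^ 6)) ≤ ((4 * x ^ 14 : ℕ) : ℝ) * (-1) := by
      have h5 : (x : ℝ) ^ 20 / 2 ≤ ((x ^ 20 - b : ℕ) : ℝ) := by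
        have h6 : x ^ 20 ≤ 2 * (x ^ 20 - b) := by omega
        have h7 : (x : ℝ) ^ 20 ≤ 2 * ((x ^ 20 - b : ℕ) : ℝ) := by exact_mod_cast h6
        linarith
      have h8 : (x : ℝ) ^ 20 / 2 * (8 / (x : ℝ) ^ 6) = 4 * (x : ℝ) ^ 14 := by
        have : (x : ℝ) ≠ 0 := by positivity
        field_simp
        ring
      have h9 : (x : ℝ) ^ 20 / 2 * (8 / (x : ℝ) ^ 6) ≤
          ((x ^ 20 - b : ℕ) : ℝ) * (8 / (x : ℝ) ^ 6) :=
        mul_le_mul_of_nonneg_right h5 (by positivity)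
      push_cast
      linarith
    have h5 : Real.exp (((4 * x ^ 14 : ℕ) : ℝ) * (-1)) = Real.exp (-1) ^ (4 * x ^ 14) := by
      rw [Real.exp_nat_mul]
    have h6 : Real.exp (-1) ≤ 1 / 2 := by
      rw [Real.exp_neg, inv_eq_one_div]
      refine one_div_le_one_div_of_le (by norm_num) ?_
      have := Real.add_one_le_exp 1
      linarith
    calc (1 - 8 / (x : ℝ) ^ 6) ^ (x ^ 20 - b)
        ≤ Real.exp (((x ^ 20 - b : ℕ) : ℝ) * (-(8 / (x : ℝ) ^ 6))) := by rw [← h3]; exact h2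
      _ ≤ Real.exp (((4 * x ^ 14 : ℕ) : ℝ) * (-1)) := Real.exp_le_exp.mpr h4
      _ = Real.exp (-1) ^ (4 * x ^ 14) := h5
      _ ≤ ((1 : ℝ) / 2) ^ (4 * x ^ 14) := pow_le_pow_left₀ (Real.exp_pos _).le h6 _
  have hqpow : (q : ℝ) ^ (x ^ 20 - b) ≤ (X : ℝ) ^ (x ^ 20 - b) * ((1 : ℝ) / 2) ^ (4 * x ^ 14) := by
    calc (q : ℝ) ^ (x ^ 20 - b) ≤ ((X : ℝ) * (1 - 8 / (x : ℝ) ^ 6)) ^ (x ^ 20 - b) :=
          pow_le_pow_left₀ (Nat.cast_nonneg _) hqR _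
      _ = (X : ℝ) ^ (x ^ 20 - b) * (1 - 8 / (x : ℝ) ^ 6) ^ (x ^ 20 - b) := mul_pow _ _ _
      _ ≤ (X : ℝ) ^ (x ^ 20 - b) * ((1 : ℝ) / 2) ^ (4 * x ^ 14) :=
          mul_le_mul_of_nonneg_left hexp (by positivity)
  have hfin : (4 : ℝ) * (2 ^ (x ^ 14) * (((x : ℝ) ^ 20) ^ b * ((q : ℝ) ^ (x ^ 20 - b) *
      (X : ℝ) ^ b))) ≤ (X : ℝ) ^ (x ^ 20) := by
    have h1 : ((x : ℝ) ^ 20) ^ b ≤ 2 ^ (x ^ 14) := by exact_mod_cast hMpow
    have h2 : (X : ℝ) ^ (x ^ 20) = (X : ℝ) ^ (x ^ 20 - b) * (X : ℝ) ^ b := by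
      rw [← pow_add, hMb]
    have h3 : (4 : ℝ) * (2 ^ (x ^ 14) * 2 ^ (x ^ 14)) * ((1 : ℝ) / 2) ^ (4 * x ^ 14) ≤ 1 := by
      have h4 : (4 : ℝ) * (2 ^ (x ^ 14) * 2 ^ (x ^ 14)) = 2 ^ (2 + x ^ 14 + x ^ 14) := by
        rw [pow_add, pow_add]
        ring
      have h5 : (2 : ℝ) ^ (2 + x ^ 14 + x ^ 14) ≤ 2 ^ (4 * x ^ 14) := by
        refine pow_le_pow_right₀ (by norm_num) ?_
        have : 1 ≤ x ^ 14 := Nat.one_le_pow _ _ hx0
        omega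
      have h6 : (2 : ℝ) ^ (4 * x ^ 14) * ((1 : ℝ) / 2) ^ (4 * x ^ 14) = 1 := by
        rw [← mul_pow]
        norm_num
      calc (4 : ℝ) * (2 ^ (x ^ 14) * 2 ^ (x ^ 14)) * ((1 : ℝ) / 2) ^ (4 * x ^ 14)
          ≤ 2 ^ (4 * x ^ 14) * ((1 : ℝ) / 2) ^ (4 * x ^ 14) := by
            rw [h4]
            exact mul_le_mul_of_nonneg_right h5 (by positivity)
        _ = 1 := h6
    calc (4 : ℝ) * (2 ^ (x ^ 14) * (((x : ℝ) ^ 20) ^ b * ((q : ℝ) ^ (x ^ 20 - b) *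
        (X : ℝ) ^ b)))
        ≤ 4 * (2 ^ (x ^ 14) * (2 ^ (x ^ 14) * (((X : ℝ) ^ (x ^ 20 - b) *
          ((1 : ℝ) / 2) ^ (4 * x ^ 14)) * (X : ℝ) ^ b))) := by
          gcongr
      _ = ((4 : ℝ) * (2 ^ (x ^ 14) * 2 ^ (x ^ 14)) * ((1 : ℝ) / 2) ^ (4 * x ^ 14)) *
          ((X : ℝ) ^ (x ^ 20 - b) * (X : ℝ) ^ b) := by ring
      _ ≤ 1 * ((X : ℝ) ^ (x ^ 20 - b) * (X : ℝ) ^ b) :=
          mul_le_mul_of_nonneg_right h3 (by positivity)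
      _ = (X : ℝ) ^ (x ^ 20) := by rw [one_mul, h2]
  exact_mod_cast hfin

open Classical in
/-- A good family of tuples exists. -/
theorem exists_family (k x : ℕ) (hk : 47 ≤ k) (hx : 160 * (k + 2) ^ 4 ≤ x)
    (hx5 : 8 * 5 ^ (k + 2) ≤ x) :
    ∃ ω : Fin (x ^ 20) → Fin (k + 2) → Fin (x ^ 14),
      (univ.filter (fun i => BadAt ω i)).card < 8 * (k + 2) ^ 4 * x ^ 12 ∧
      (∀ I : Finset (Fin (x ^ 14)), I.card = 4 * x ^ 11 →
        8 * (k + 2) ^ 4 * x ^ 12 < (univ.filter (fun i => Cov I (ω i))).card) ∧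
      (∀ t, 1 ≤ t → t ≤ 2 * x ^ 13 + 1 → ∀ T : Finset (Fin (x ^ 20)), T.card = t →
        ∀ S : Finset (Fin (x ^ 14)), S.card = 2 * t → ¬ ∀ i ∈ T, ∀ a, ω i a ∈ S) := by
  have hx8 : 8 ≤ x := by
    have : 1 ≤ 5 ^ (k + 2) := Nat.one_le_pow _ _ (by norm_num)
    omega
  have hx0 : 0 < x := by omega
  set b := 8 * (k + 2) ^ 4 * x ^ 12 with hb
  have hbM : b ≤ x ^ 20 := by
    calc b ≤ x * x ^ 12 := by
          rw [hb]
          exact Nat.mul_le_mul_right _ (by omega)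
      _ = x ^ 13 := by ring
      _ ≤ x ^ 20 := Nat.pow_le_pow_right hx0 (by norm_num)
  let Ω := Fin (x ^ 20) → Fin (k + 2) → Fin (x ^ 14)
  let E1 : Finset Ω := univ.filter (fun ω => b ≤ (univ.filter (fun i => BadAt ω i)).card)
  let E2 : Finset Ω := univ.filter (fun ω => ∃ I : Finset (Fin (x ^ 14)), I.card = 4 * x ^ 11 ∧
      (univ.filter (fun i => Cov I (ω i))).card ≤ b)
  let E3 : Finset Ω := univ.filter (fun ω => ∃ t, (1 ≤ t ∧ t ≤ 2 * x ^ 13 + 1) ∧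
      ∃ T : Finset (Fin (x ^ 20)), T.card = t ∧
      ∃ S : Finset (Fin (x ^ 14)), S.card = 2 * t ∧ ∀ i ∈ T, ∀ a, ω i a ∈ S)
  have hE1 : 4 * E1.card ≤ ((x ^ 14) ^ (k + 2)) ^ (x ^ 20) := by
    have h1 := bad_count (n := x ^ 14) (r := k + 2) (M := x ^ 20) b
    have h2 : x ^ 20 * ((k + 2) ^ 2 * x ^ 14 + x ^ 20 * (k + 2) ^ 4) ≤
        2 * (k + 2) ^ 4 * x ^ 40 := by
      have h3 : (k + 2) ^ 2 * x ^ 14 ≤ (k + 2) ^ 4 * x ^ 20 :=
        Nat.mul_le_mul (Nat.pow_le_pow_right (by omega) (by norm_num))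
          (Nat.pow_le_pow_right hx0 (by norm_num))
      calc x ^ 20 * ((k + 2) ^ 2 * x ^ 14 + x ^ 20 * (k + 2) ^ 4)
          ≤ x ^ 20 * ((k + 2) ^ 4 * x ^ 20 + x ^ 20 * (k + 2) ^ 4) :=
            Nat.mul_le_mul_left _ (Nat.add_le_add_right h3 _)
        _ = 2 * (k + 2) ^ 4 * x ^ 40 := by ring
    have h3 : E1.card * b * (x ^ 14 * x ^ 14) = (4 * E1.card) * (2 * (k + 2) ^ 4 * x ^ 40) := by
      rw [hb]
      ring
    have h4 : (4 * E1.card) * (2 * (k + 2) ^ 4 * x ^ 40) ≤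
        ((x ^ 14) ^ (k + 2)) ^ (x ^ 20) * (2 * (k + 2) ^ 4 * x ^ 40) := by
      rw [← h3]
      refine le_trans h1 ?_
      rw [mul_comm (((x ^ 14) ^ (k + 2)) ^ (x ^ 20))]
      exact Nat.mul_le_mul_right _ h2
    exact Nat.le_of_mul_le_mul_right h4 (by positivity)
  have hE2 : 4 * E2.card ≤ ((x ^ 14) ^ (k + 2)) ^ (x ^ 20) := by
    let q := (x ^ 14) ^ (k + 2) - (4 * x ^ 11 * (4 * x ^ 11) - 4 * x ^ 11) * (x ^ 14) ^ k
    have h1 : (4 * x ^ 11 * (4 * x ^ 11) - 4 * x ^ 11) * (x ^ 14) ^ k ≤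
        (x ^ 14) ^ (k + 2) := by
      have h2 : 4 * x ^ 11 * (4 * x ^ 11) - 4 * x ^ 11 ≤ x ^ 28 := by
        have h3 : 4 * x ^ 11 * (4 * x ^ 11) = 16 * x ^ 22 := by ring
        have h4 : 16 ≤ x ^ 6 := by
          calc 16 ≤ 8 ^ 6 := by norm_num
            _ ≤ x ^ 6 := Nat.pow_le_pow_left hx8 _
        have h5 : 16 * x ^ 22 ≤ x ^ 6 * x ^ 22 := Nat.mul_le_mul_right _ h4
        have h6 : x ^ 6 * x ^ 22 = x ^ 28 := by ring
        omega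
      calc _ ≤ x ^ 28 * (x ^ 14) ^ k := Nat.mul_le_mul_right _ h2
        _ = (x ^ 14) ^ (k + 2) := by ring
    have h2 : E2.card ≤ 2 ^ (x ^ 14) * ((x ^ 20) ^ b * (q ^ (x ^ 20 - b) *
        ((x ^ 14) ^ (k + 2)) ^ b)) := by
      refine cov_union (4 * x ^ 11) b q hbM ?_
      intro I hI
      have h3 := cov_count (k := k) I
      rw [hI] at h3
      exact Nat.le_sub_of_add_le h3
    refine le_trans (Nat.mul_le_mul_left 4 h2) ?_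
    refine second_bound k x q hx hx8 ?_
    exact le_of_eq (Nat.sub_add_cancel h1)
  have hE3 : 4 * E3.card ≤ ((x ^ 14) ^ (k + 2)) ^ (x ^ 20) := by
    refine dense_union (2 * x ^ 13 + 1) ?_ ?_
    · have h1 : x ^ 13 * 8 ^ 7 ≤ x ^ 13 * x ^ 7 :=
        Nat.mul_le_mul_left _ (Nat.pow_le_pow_left hx8 _)
      have h2 : x ^ 13 * x ^ 7 = x ^ 20 := by ring
      have h3 : 1 ≤ x ^ 13 := Nat.one_le_pow _ _ hx0
      omega
    · intro t ht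
      have h1 : 2 * t ≤ 5 * x ^ 13 := by
        have h3 : 8 ≤ x ^ 13 := by
          calc 8 ≤ x := hx8
            _ = x ^ 1 := (pow_one _).symm
            _ ≤ x ^ 13 := Nat.pow_le_pow_right hx0 (by norm_num)
        omega
      have h2 : x ^ 20 * (x ^ 14) ^ 2 * (5 * x ^ 13) ^ (k + 2) * 8 =
          (8 * 5 ^ (k + 2)) * (x ^ 48 * x ^ (13 * (k + 2))) := by
        rw [mul_pow, ← pow_mul x 13]
        ring
      calc x ^ 20 * (x ^ 14) ^ 2 * (2 * t) ^ (k + 2) * 8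
          ≤ x ^ 20 * (x ^ 14) ^ 2 * (5 * x ^ 13) ^ (k + 2) * 8 :=
            Nat.mul_le_mul_right _ (Nat.mul_le_mul_left _ (Nat.pow_le_pow_left h1 _))
        _ = (8 * 5 ^ (k + 2)) * (x ^ 48 * x ^ (13 * (k + 2))) := h2
        _ ≤ x * (x ^ 48 * x ^ (13 * (k + 2))) := Nat.mul_le_mul_right _ hx5
        _ = x ^ (49 + 13 * (k + 2)) := by
            rw [pow_add]
            ring
        _ ≤ x ^ (14 * (k + 2)) := Nat.pow_le_pow_right hx0 (by omega)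
        _ = (x ^ 14) ^ (k + 2) := by rw [pow_mul]
  have hpos : 0 < ((x ^ 14) ^ (k + 2)) ^ (x ^ 20) := by positivity
  have hcard : (univ : Finset Ω).card = ((x ^ 14) ^ (k + 2)) ^ (x ^ 20) := by
    rw [card_univ]
    exact card_fun3 _ _ _
  have hun : (E1 ∪ E2 ∪ E3).card < (univ : Finset Ω).card := by
    have h1 := card_union_le (E1 ∪ E2) E3
    have h2 := card_union_le E1 E2
    rw [hcard]
    omega
  obtain ⟨ω, _, hω⟩ := exists_mem_notMem_of_card_lt_card hun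
  rw [mem_union, mem_union, not_or, not_or] at hω
  refine ⟨ω, ?_, ?_, ?_⟩
  · by_contra h
    push Not at h
    exact hω.1.1 (mem_filter.mpr ⟨mem_univ _, h⟩)
  · intro I hI
    by_contra h
    push Not at h
    exact hω.1.2 (mem_filter.mpr ⟨mem_univ _, I, hI, h⟩)
  · intro t ht1 ht2 T hT S hS h
    exact hω.2 (mem_filter.mpr ⟨mem_univ _, t, ⟨ht1, ht2⟩, T, hT, S, hS, h⟩)

end Pool.Agent.X82.SepThree
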