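import Mathlib

/-!
# Hypergraphs with separation choice number at most three

If every two vertex sets that could receive a common pair of colours are small, and small vertex
sets span few edges, then every separated assignment of lists of size three is colourable.
-/

set_option autoImplicit false

namespace Pool.Agent.X82.SepThree

open Finset

variable {V : Type} [Fintype V] [DecidableEq V]

/-- `H` has a proper colouring from every separated list assignment with lists of size at
least `k` -/
def SepColourable (H : Finset (Finset V)) (k : ℕ) : Prop :=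
  ∀ L : V → Finset ℕ, (∀ v, k ≤ (L v).card) →
    (∀ u v, u ≠ v → (∃ e ∈ H, u ∈ e ∧ v ∈ e) → (L u ∩ L v).card ≤ 1) →
      ∃ φ : V → ℕ, (∀ v, φ v ∈ L v) ∧ ∀ e ∈ H, ¬ ∃ a, ∀ v ∈ e, φ v = a

/-- colouring from lists of size two when all colour classes are sparse -/
theorem two_lists (H : Finset (Finset V)) (hne : ∀ e ∈ H, e.Nonempty) (s0 : ℕ)
    (hb : ∀ S : Finset V, S.card ≤ s0 → 2 * (H.filter (· ⊆ S)).card ≤ S.card)
    (L : V → Finset ℕ) (hL : ∀ v, (L v).card = 2)
    (hV : ∀ a, (univ.filter (fun v => a ∈ L v)).card ≤ s0) :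
    ∃ φ : V → ℕ, (∀ v, φ v ∈ L v) ∧ ∀ e ∈ H, ¬ ∃ a, ∀ v ∈ e, φ v = a := by
  classical
  let C : Finset ℕ := univ.biUnion L
  let D : Finset (Finset V × ℕ) := (H ×ˢ C).filter (fun p => ∀ v ∈ p.1, p.2 ∈ L v)
  have hDmem : ∀ p : Finset V × ℕ, p ∈ D ↔ (p.1 ∈ H ∧ p.2 ∈ C) ∧ ∀ v ∈ p.1, p.2 ∈ L v := by
    intro p
    simp only [D, mem_filter, mem_product]
  have hall : ∀ F : Finset D, F.card ≤ (F.biUnion (fun p => p.1.1)).card := by
    intro F
    let S : Finset V := F.biUnion (fun p => p.1.1)
    let Fa : ℕ → Finset D := fun a => F.filter (fun p => p.1.2 = a)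
    let Sa : ℕ → Finset V := fun a => (Fa a).biUnion (fun p => p.1.1)
    have h1 : F.card = ∑ a ∈ C, (Fa a).card := by
      refine card_eq_sum_card_fiberwise (f := fun p : D => p.1.2) ?_
      intro p _
      exact ((hDmem p.1).mp p.2).1.2
    have h2 : ∀ a, Sa a ⊆ S.filter (fun v => a ∈ L v) := by
      intro a v hv
      simp only [Sa, Fa, mem_biUnion, mem_filter] at hv
      obtain ⟨p, ⟨hpF, hpa⟩, hvp⟩ := hv
      rw [mem_filter]
      refine ⟨mem_biUnion.mpr ⟨p, hpF, hvp⟩, ?_⟩
      rw [← hpa]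
      exact ((hDmem p.1).mp p.2).2 v hvp
    have h3 : ∀ a, 2 * (Fa a).card ≤ (Sa a).card := by
      intro a
      have hs : (Sa a).card ≤ s0 := by
        refine le_trans (card_le_card ?_) (hV a)
        intro v hv
        have := h2 a hv
        rw [mem_filter] at this ⊢
        exact ⟨mem_univ _, this.2⟩
      refine le_trans (Nat.mul_le_mul_left 2 ?_) (hb (Sa a) hs)
      refine card_le_card_of_injOn (fun p => p.1.1) ?_ ?_
      · intro p hp
        have hp' := mem_filter.mp hp
        simp only [coe_filter, Set.mem_ofPred_eq]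
        refine ⟨((hDmem p.1).mp p.2).1.1, ?_⟩
        intro v hv
        exact mem_biUnion.mpr ⟨p, hp, hv⟩
      · intro p hp q hq hpq
        have hp' := mem_filter.mp hp
        have hq' := mem_filter.mp hq
        exact Subtype.ext (Prod.ext hpq (hp'.2.trans hq'.2.symm))
    have h4 : ∑ a ∈ C, (S.filter (fun v => a ∈ L v)).card = ∑ v ∈ S, (L v).card := by
      have h5 : ∀ a, (S.filter (fun v => a ∈ L v)).card = ∑ v ∈ S, if a ∈ L v then 1 else 0 := by
        intro a
        rw [card_filter]
      rw [sum_congr rfl (fun a _ => h5 a), sum_comm]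
      refine sum_congr rfl (fun v _ => ?_)
      rw [← sum_filter, sum_const, smul_eq_mul, mul_one]
      congr 1
      ext a
      rw [mem_filter]
      constructor
      · exact fun h => h.2
      · intro h
        exact ⟨mem_biUnion.mpr ⟨v, mem_univ _, h⟩, h⟩
    have h6 : ∑ v ∈ S, (L v).card = 2 * S.card := by
      rw [sum_congr rfl (fun v _ => hL v), sum_const, smul_eq_mul, mul_comm]
    have h7 : 2 * F.card ≤ 2 * S.card := by
      calc 2 * F.card = ∑ a ∈ C, 2 * (Fa a).card := by rw [h1, mul_sum]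
        _ ≤ ∑ a ∈ C, (Sa a).card := sum_le_sum (fun a _ => h3 a)
        _ ≤ ∑ a ∈ C, (S.filter (fun v => a ∈ L v)).card :=
            sum_le_sum (fun a _ => card_le_card (h2 a))
        _ = 2 * S.card := by rw [h4, h6]
    have h8 : F.card ≤ S.card := by omega
    exact h8
  obtain ⟨τ, hτ, hτm⟩ := (Finset.all_card_le_biUnion_card_iff_exists_injective
    (fun p : D => p.1.1)).mp hall
  have hex : ∀ v, ∃ x, x ∈ L v ∧ ∀ p : D, τ p = v → x ≠ p.1.2 := by
    intro v
    by_cases h : ∃ p : D, τ p = v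
    · obtain ⟨p, hp⟩ := h
      have hc : 1 ≤ ((L v).erase p.1.2).card := by
        have := pred_card_le_card_erase (s := L v) (a := p.1.2)
        rw [hL v] at this
        exact this
      obtain ⟨x, hx⟩ := card_pos.mp hc
      refine ⟨x, (mem_erase.mp hx).2, ?_⟩
      intro q hq
      have : q = p := hτ (hq.trans hp.symm)
      rw [this]
      exact (mem_erase.mp hx).1
    · have hc : 0 < (L v).card := by rw [hL v]; norm_num
      obtain ⟨x, hx⟩ := card_pos.mp hc
      exact ⟨x, hx, fun p hp => absurd ⟨p, hp⟩ h⟩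
  choose φ hφ1 hφ2 using hex
  refine ⟨φ, hφ1, ?_⟩
  rintro e he ⟨a, ha⟩
  obtain ⟨v, hv⟩ := hne e he
  have hmem : (e, a) ∈ D := by
    rw [hDmem]
    refine ⟨⟨he, ?_⟩, ?_⟩
    · refine mem_biUnion.mpr ⟨v, mem_univ _, ?_⟩
      show a ∈ L v
      rw [← ha v hv]
      exact hφ1 v
    · intro w hw
      show a ∈ L w
      rw [← ha w hw]
      exact hφ1 w
  have h1 := hφ2 (τ ⟨(e, a), hmem⟩) ⟨(e, a), hmem⟩ rfl
  exact h1 (ha _ (hτm ⟨(e, a), hmem⟩))

/-- If every set of more than `l` vertices has two vertices in a common edge, if the sets of at most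
`s0` vertices span few edges, and if `l` is small compared to `s0`, then every separated
assignment of lists of size three is colourable. -/
theorem sep_three (H : Finset (Finset V)) (hne : ∀ e ∈ H, e.Nonempty) (s0 l : ℕ)
    (ha : ∀ I : Finset V, l < I.card → ∃ u ∈ I, ∃ v ∈ I, u ≠ v ∧ ∃ e ∈ H, u ∈ e ∧ v ∈ e)
    (hb : ∀ S : Finset V, S.card ≤ s0 → 2 * (H.filter (· ⊆ S)).card ≤ S.card)
    (hc : ∀ N : ℕ, N * s0 ≤ 3 * Fintype.card V → l * N ^ 2 ≤ s0) :
    SepColourable H 3 := by
  classical
  intro L hL hsep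
  have h1 : ∀ v, ∃ T, T ⊆ L v ∧ T.card = 3 := fun v => exists_subset_card_eq (hL v)
  choose L1 hL1 hL1c using h1
  let C : Finset ℕ := univ.biUnion L1
  let cl : ℕ → Finset V := fun a => univ.filter (fun v => a ∈ L1 v)
  let big : Finset ℕ := C.filter (fun a => s0 < (cl a).card)
  have hmemcl : ∀ a v, v ∈ cl a ↔ a ∈ L1 v := by
    intro a v
    simp only [cl, mem_filter, mem_univ, true_and]
  have hN : big.card * s0 ≤ 3 * Fintype.card V := by
    have h2 : ∑ a ∈ C, (cl a).card = ∑ v : V, (L1 v).card := by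
      have h5 : ∀ a, (cl a).card = ∑ v : V, if a ∈ L1 v then 1 else 0 := by
        intro a
        simp only [cl, card_filter]
      rw [sum_congr rfl (fun a _ => h5 a), sum_comm]
      refine sum_congr rfl (fun v _ => ?_)
      rw [← sum_filter, sum_const, smul_eq_mul, mul_one]
      congr 1
      ext a
      rw [mem_filter]
      constructor
      · exact fun h => h.2
      · intro h
        exact ⟨mem_biUnion.mpr ⟨v, mem_univ _, h⟩, h⟩
    have h3 : ∑ v : V, (L1 v).card = 3 * Fintype.card V := by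
      rw [sum_congr rfl (fun v _ => hL1c v), sum_const, smul_eq_mul, mul_comm, card_univ]
    calc big.card * s0 = ∑ a ∈ big, s0 := by rw [sum_const, smul_eq_mul]
      _ ≤ ∑ a ∈ big, (cl a).card := sum_le_sum (fun a h => (mem_filter.mp h).2.le)
      _ ≤ ∑ a ∈ C, (cl a).card := sum_le_sum_of_subset (filter_subset _ _)
      _ = 3 * Fintype.card V := by rw [h2, h3]
  have hlN := hc _ hN
  let B : Finset V := univ.filter (fun v => 2 ≤ (L1 v ∩ big).card)
  have hpair : ∀ a b, a ≠ b → (cl a ∩ cl b).card ≤ l := by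
    intro a b hab
    by_contra hlt
    push Not at hlt
    obtain ⟨u, hu, v, hv, huv, he⟩ := ha _ hlt
    have h2 := hsep u v huv he
    have h3 : ({a, b} : Finset ℕ) ⊆ L u ∩ L v := by
      intro x hx
      rw [mem_insert, mem_singleton] at hx
      rw [mem_inter, hmemcl, hmemcl] at hu hv
      rw [mem_inter]
      rcases hx with rfl | rfl
      · exact ⟨hL1 _ hu.1, hL1 _ hv.1⟩
      · exact ⟨hL1 _ hu.2, hL1 _ hv.2⟩
    have h4 := card_le_card h3
    rw [card_pair hab] at h4
    omega
  have hB : B.card ≤ s0 := by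
    have h2 : B ⊆ big.offDiag.biUnion (fun p => cl p.1 ∩ cl p.2) := by
      intro v hv
      have h3 : 1 < (L1 v ∩ big).card := (mem_filter.mp hv).2
      obtain ⟨a, haa, b, hbb, hab⟩ := one_lt_card.mp h3
      rw [mem_inter] at haa hbb
      rw [mem_biUnion]
      refine ⟨(a, b), mem_offDiag.mpr ⟨haa.2, hbb.2, hab⟩, ?_⟩
      rw [mem_inter, hmemcl, hmemcl]
      exact ⟨haa.1, hbb.1⟩
    calc B.card ≤ _ := card_le_card h2
      _ ≤ ∑ p ∈ big.offDiag, (cl p.1 ∩ cl p.2).card := card_biUnion_le
      _ ≤ ∑ p ∈ big.offDiag, l :=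
          sum_le_sum (fun p hp => hpair _ _ (mem_offDiag.mp hp).2.2)
      _ = big.offDiag.card * l := by rw [sum_const, smul_eq_mul]
      _ ≤ l * big.card ^ 2 := by
          rw [mul_comm]
          refine Nat.mul_le_mul_left l ?_
          rw [offDiag_card, sq]
          exact Nat.sub_le _ _
      _ ≤ s0 := hlN
  have h2 : ∀ v, ∃ T, T ⊆ L1 v ∧ T.card = 2 ∧ (v ∉ B → Disjoint T big) := by
    intro v
    by_cases hv : v ∈ B
    · obtain ⟨T, hT, hTc⟩ := exists_subset_card_eq (s := L1 v) (n := 2) (by rw [hL1c v]; norm_num)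
      exact ⟨T, hT, hTc, fun h => absurd hv h⟩
    · have h3 : ¬ 2 ≤ (L1 v ∩ big).card := by
        intro h
        exact hv (mem_filter.mpr ⟨mem_univ _, h⟩)
      have h4 : 2 ≤ (L1 v \ big).card := by
        have := card_sdiff_add_card_inter (L1 v) big
        rw [hL1c v] at this
        omega
      obtain ⟨T, hT, hTc⟩ := exists_subset_card_eq h4
      refine ⟨T, hT.trans sdiff_subset, hTc, fun _ => ?_⟩
      exact disjoint_of_subset_left hT sdiff_disjoint
  choose L2 hL2 hL2c hL2B using h2
  have hcl : ∀ a, (univ.filter (fun v => a ∈ L2 v)).card ≤ s0 := by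
    intro a
    by_cases hab : a ∈ big
    · refine le_trans (card_le_card ?_) hB
      intro v hv
      by_contra hvB
      exact (disjoint_left.mp (hL2B v hvB)) (mem_filter.mp hv).2 hab
    · by_cases haC : a ∈ C
      · have h3 : ¬ s0 < (cl a).card := fun h => hab (mem_filter.mpr ⟨haC, h⟩)
        push Not at h3
        refine le_trans (card_le_card ?_) h3
        intro v hv
        rw [hmemcl]
        exact hL2 v (mem_filter.mp hv).2
      · have h3 : univ.filter (fun v => a ∈ L2 v) = ∅ := by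
          rw [filter_eq_empty_iff]
          intro v _ hv
          exact haC (mem_biUnion.mpr ⟨v, mem_univ _, hL2 v hv⟩)
        rw [h3, card_empty]
        exact Nat.zero_le _
  obtain ⟨φ, h3, h4⟩ := two_lists H hne s0 hb L2 hL2c hcl
  exact ⟨φ, fun v => hL1 v (hL2 v (h3 v)), h4⟩

end Pool.Agent.X82.SepThree
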