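import Mathlib

/-!
# MP_5f020a_co: the rainbow entropy-Turán density is not given by templates with two palettes

Let `H` be the graph obtained from `K_{9,9}` with parts `p 0, ..., p 8` and `q 0, ..., q 8` by
deleting the edge `p 0 q 0` and adding the edges `p 0 p 1`, `p 0 p 2`, `q 0 q 1`, `q 0 q 2`.  It
has `84` edges.  For `ℓ = 2296` colours the template with `V = V₁ ∪ V₂`, in which the pairs inside
`V₁` have the palette `{0}`, the pairs inside `V₂` have the palette `{0, ..., 8}` and the other
pairs have all colours, is `H`-SDR-free, and its density is larger than `log 83`, which is the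
maximum in Q1.  So Q1 and Q2 both fail.
-/

set_option autoImplicit false

namespace Pool.Agent.Results.MP_5f020a_co.ThreePalettes

open Finset

/-! ### The definitions of the problem -/

/-- `P` is an `ℓ`-palette template on the complete graph with vertex set `Fin n`: every pair of
different vertices has a nonempty palette of colours from the set `{0, ..., ℓ - 1}`.  (The values
at the diagonal elements of `Sym2 (Fin n)` play no role.) -/
def IsTemplate (n ℓ : ℕ) (P : Sym2 (Fin n) → Finset ℕ) : Prop :=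
  ∀ e, ¬ e.IsDiag → (P e).Nonempty ∧ P e ⊆ range ℓ

/-- For every copy of `H` (given by an injective map of the vertices) the palettes on its edges
have no system of distinct representatives. -/
def SDRFree {V : Type} (H : SimpleGraph V) (n : ℕ) (P : Sym2 (Fin n) → Finset ℕ) : Prop :=
  ∀ φ : V → Fin n, Function.Injective φ →
    ¬ ∃ c : Sym2 V → ℕ, (∀ e ∈ H.edgeSet, c e ∈ P (e.map φ)) ∧ Set.InjOn c H.edgeSet

/-- `ex_log(n; H, ℓ)` -/
noncomputable def exLog {V : Type} (H : SimpleGraph V) (n ℓ : ℕ) : ℝ :=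
  sSup {s : ℝ | ∃ P : Sym2 (Fin n) → Finset ℕ, IsTemplate n ℓ P ∧ SDRFree H n P ∧
    s = ∑ e ∈ univ.filter (fun e : Sym2 (Fin n) => ¬ e.IsDiag), Real.log ((P e).card : ℝ)}

/-- `λ(H, ℓ)` -/
noncomputable def lam {V : Type} [Fintype V] (H : SimpleGraph V) (ℓ : ℕ) : ℝ :=
  sInf {x : ℝ | ∃ n : ℕ, Fintype.card V ≤ n ∧ x = exLog H n ℓ / (n.choose 2 : ℝ)}

/-- the number of edges -/
noncomputable def numEdges {V : Type} (H : SimpleGraph V) : ℕ := H.edgeSet.ncard

/-- `χ_j(H)`: the least chromatic number of a graph obtained by deleting `j` edges -/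
noncomputable def chi {V : Type} (H : SimpleGraph V) (j : ℕ) : ℕ :=
  sInf {k : ℕ | ∃ S : Finset (Sym2 V), (∀ e ∈ S, e ∈ H.edgeSet) ∧ S.card = j ∧
    (H.deleteEdges (S : Set (Sym2 V))).Colorable k}

/-- `π_j(H)` -/
noncomputable def dens {V : Type} (H : SimpleGraph V) (j : ℕ) : ℝ :=
  if 3 ≤ chi H j then 1 - 1 / ((chi H j : ℝ) - 1) else 0

/-- the hypotheses on `H` and `ℓ` -/
def Admissible {V : Type} (H : SimpleGraph V) (ℓ : ℕ) : Prop :=
  (∀ v, ∃ w, H.Adj v w) ∧ 3 ≤ numEdges H ∧ (∃ u v w, u ≠ w ∧ H.Adj u v ∧ H.Adj v w) ∧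
    numEdges H ≤ ℓ

/-- the assertion of Q1: `λ(H, ℓ)` is the maximum of the numbers `π_j log ℓ + (1 - π_j) log j` -/
def Q1 : Prop :=
  ∀ (V : Type) [Fintype V] (H : SimpleGraph V) (ℓ : ℕ), Admissible H ℓ →
    IsGreatest {x : ℝ | ∃ j : ℕ, 1 ≤ j ∧ j ≤ numEdges H - 1 ∧
      x = dens H j * Real.log ℓ + (1 - dens H j) * Real.log j} (lam H ℓ)

/-- the assertion of Q2 -/
def Q2 : Prop :=
  ∀ (V : Type) [Fintype V] (H : SimpleGraph V) (ℓ : ℕ), Admissible H ℓ →
    (lam H ℓ = Real.log ((numEdges H : ℝ) - 1) ↔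
      ∀ j : ℕ, 1 ≤ j → j ≤ numEdges H - 1 →
        (ℓ : ℝ) ^ dens H j * (j : ℝ) ^ (1 - dens H j) ≤ (numEdges H : ℝ) - 1)

/-! ### The graph -/

/-- the vertex set -/
abbrev W : Type := Fin 9 ⊕ Fin 9

/-- adjacency inside a part -/
def inner (i j : Fin 9) : Bool :=
  (i == 0 && (j == 1 || j == 2)) || (j == 0 && (i == 1 || i == 2))

/-- adjacency as a Boolean -/
def adj : W → W → Bool
  | Sum.inl i, Sum.inl j => inner i j
  | Sum.inr i, Sum.inr j => inner i j
  | Sum.inl i, Sum.inr j => !(i == 0 && j == 0)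
  | Sum.inr i, Sum.inl j => !(i == 0 && j == 0)

/-- the graph -/
def H0 : SimpleGraph W where
  Adj x y := adj x y = true
  symm := ⟨by decide⟩
  loopless := ⟨by decide⟩

instance : DecidableRel H0.Adj := fun x y => inferInstanceAs (Decidable (adj x y = true))

theorem numEdges_H0 : numEdges H0 = 84 := by
  have h1 : ∑ v, H0.degree v = 168 := by decide +kernel
  have h2 := H0.sum_degrees_eq_twice_card_edges
  have h3 : numEdges H0 = H0.edgeFinset.card := by
    rw [numEdges, ← SimpleGraph.coe_edgeFinset, Set.ncard_coe_finset]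
  omega

theorem inl_inr_adj {i j : Fin 9} (h : (i, j) ≠ (0, 0)) : s((Sum.inl i : W), Sum.inr j) ∈ H0.edgeSet := by
  rw [SimpleGraph.mem_edgeSet]
  show (!(i == 0 && j == 0)) = true
  by_contra hcon
  apply h
  simp only [Bool.not_eq_true', Bool.not_eq_false, Bool.and_eq_true, beq_iff_eq] at hcon
  rw [hcon.1, hcon.2]

/-- the palettes: `a` says which vertices of the complete graph are in `V₁` -/
def pal (n : ℕ) (a : Fin n → Bool) : Sym2 (Fin n) → Finset ℕ :=
  Sym2.lift ⟨fun x y => if a x && a y then {0} else if !(a x) && !(a y) then range 9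
    else range 2296, by
      intro x y
      simp only [Bool.and_comm (a x) (a y), Bool.and_comm (!(a x)) (!(a y))]⟩

theorem pal_mk (n : ℕ) (a : Fin n → Bool) (x y : Fin n) :
    pal n a s(x, y) = if a x && a y then {0} else if !(a x) && !(a y) then range 9
      else range 2296 := rfl

theorem pal_template (n : ℕ) (a : Fin n → Bool) : IsTemplate n 2296 (pal n a) := by
  intro e _
  induction e using Sym2.ind with
  | _ x y =>
    rw [pal_mk]
    split_ifs
    · exact ⟨⟨0, mem_singleton_self 0⟩, by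
        intro z hz
        rw [mem_singleton] at hz
        rw [hz, mem_range]
        norm_num⟩
    · exact ⟨⟨0, mem_range.mpr (by norm_num)⟩, range_subset_range.mpr (by norm_num)⟩
    · exact ⟨⟨0, mem_range.mpr (by norm_num)⟩, Subset.refl _⟩

theorem sdrFree_pal (n : ℕ) (a : Fin n → Bool) : SDRFree H0 n (pal n a) := by
  rintro φ _ ⟨c, hc, hinj⟩
  let s : W → Bool := fun v => a (φ v)
  have hc1 : ∀ u v, s(u, v) ∈ H0.edgeSet → s u = true → s v = true → c s(u, v) = 0 := by
    intro u v huv hu hv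
    have h1 := hc _ huv
    rw [Sym2.map_mk, pal_mk] at h1
    have h2 : (a (φ u) && a (φ v)) = true := by
      have h3 : a (φ u) = true := hu
      have h4 : a (φ v) = true := hv
      rw [h3, h4]
      rfl
    rw [if_pos h2, mem_singleton] at h1
    exact h1
  have hc2 : ∀ u v, s(u, v) ∈ H0.edgeSet → s u = s v → c s(u, v) ∈ range 9 := by
    intro u v huv hs
    have h1 := hc _ huv
    rw [Sym2.map_mk, pal_mk] at h1
    have h3 : a (φ u) = a (φ v) := hs
    rw [h3] at h1
    cases h4 : a (φ v) with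
    | true =>
      rw [h4] at h1
      simp only [Bool.and_self, if_true, mem_singleton] at h1
      rw [h1, mem_range]
      norm_num
    | false =>
      rw [h4] at h1
      simpa using h1
  let A : Finset (Fin 9) := univ.filter (fun i => s (Sum.inl i) = true)
  let B : Finset (Fin 9) := univ.filter (fun j => s (Sum.inr j) = true)
  have hA : ∀ i, i ∈ A ↔ s (Sum.inl i) = true := by
    intro i
    simp only [A, mem_filter, mem_univ, true_and]
  have hB : ∀ j, j ∈ B ↔ s (Sum.inr j) = true := by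
    intro j
    simp only [B, mem_filter, mem_univ, true_and]
  have hA9 : A.card ≤ 9 := le_trans (card_le_univ A) (by simp)
  have hB9 : B.card ≤ 9 := le_trans (card_le_univ B) (by simp)
  have hAc : (univ \ A).card + A.card = 9 := by
    rw [card_sdiff_add_card_eq_card (subset_univ A)]
    simp
  have hBc : (univ \ B).card + B.card = 9 := by
    rw [card_sdiff_add_card_eq_card (subset_univ B)]
    simp
  let M : Finset (Fin 9 × Fin 9) := A ×ˢ B ∪ (univ \ A) ×ˢ (univ \ B)
  have hMcard : M.card = A.card * B.card + (univ \ A).card * (univ \ B).card := by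
    simp only [M]
    rw [card_union_of_disjoint, card_product, card_product]
    rw [disjoint_left]
    intro p hp hp'
    exact (mem_sdiff.mp (mem_product.mp hp').1).2 (mem_product.mp hp).1
  have hMs : ∀ p ∈ M, s (Sum.inl p.1) = s (Sum.inr p.2) := by
    intro p hp
    rcases mem_union.mp hp with h | h
    · have h1 := mem_product.mp h
      rw [(hA _).mp h1.1, (hB _).mp h1.2]
    · have h1 := mem_product.mp h
      have h2 : ¬ s (Sum.inl p.1) = true := fun h => (mem_sdiff.mp h1.1).2 ((hA _).mpr h)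
      have h3 : ¬ s (Sum.inr p.2) = true := fun h => (mem_sdiff.mp h1.2).2 ((hB _).mpr h)
      rw [Bool.not_eq_true] at h2 h3
      rw [h2, h3]
  let crs : Fin 9 × Fin 9 → Sym2 W := fun p => s(Sum.inl p.1, Sum.inr p.2)
  have hcrs : Function.Injective crs := by
    intro p q hpq
    simp only [crs, Sym2.eq_iff] at hpq
    rcases hpq with h | h
    · exact Prod.ext (Sum.inl_injective h.1) (Sum.inr_injective h.2)
    · exact absurd h.1 (by simp)
  have hcrsE : ∀ p ∈ M.erase (0, 0), crs p ∈ H0.edgeSet := fun p hp =>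
    inl_inr_adj (mem_erase.mp hp).1
  -- the edges of small colours
  have hsmall : ∀ F : Finset (Sym2 W), (∀ e ∈ F, e ∈ H0.edgeSet ∧ c e ∈ range 9) → F.card ≤ 9 := by
    intro F hF
    have h1 := card_le_card_of_injOn (s := F) (t := range 9) c (fun e he => (hF e he).2)
      (fun e he f hf hef => hinj (hF e he).1 (hF f hf).1 hef)
    rwa [card_range] at h1
  have hM1 : (M.erase (0, 0)).card ≤ 9 := by
    rw [← card_image_of_injective _ hcrs]
    refine hsmall _ (fun e he => ?_)
    obtain ⟨p, hp, rfl⟩ := mem_image.mp he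
    exact ⟨hcrsE p hp, hc2 _ _ (hcrsE p hp) (hMs p (mem_erase.mp hp).2)⟩
  have hM2 : M.card ≤ 10 := by
    have := pred_card_le_card_erase (s := M) (a := ((0, 0) : Fin 9 × Fin 9))
    omega
  -- edges with both ends in the first class
  have hzero : (A ×ˢ B).card ≤ 2 := by
    have h1 : ((A ×ˢ B).erase (0, 0)).card ≤ 1 := by
      rw [card_le_one]
      intro p hp q hq
      have hp' := mem_product.mp (mem_erase.mp hp).2
      have hq' := mem_product.mp (mem_erase.mp hq).2
      have hpE := inl_inr_adj (mem_erase.mp hp).1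
      have hqE := inl_inr_adj (mem_erase.mp hq).1
      have h2 := hc1 _ _ hpE ((hA _).mp hp'.1) ((hB _).mp hp'.2)
      have h3 := hc1 _ _ hqE ((hA _).mp hq'.1) ((hB _).mp hq'.2)
      exact hcrs (hinj hpE hqE (h2.trans h3.symm))
    have := pred_card_le_card_erase (s := A ×ˢ B) (a := ((0, 0) : Fin 9 × Fin 9))
    omega
  rw [card_product] at hzero
  -- the inner edges
  have hP1 : s((Sum.inl 0 : W), Sum.inl 1) ∈ H0.edgeSet := by
    rw [SimpleGraph.mem_edgeSet]
    decide
  have hP2 : s((Sum.inl 0 : W), Sum.inl 2) ∈ H0.edgeSet := by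
    rw [SimpleGraph.mem_edgeSet]
    decide
  have hQ1 : s((Sum.inr 0 : W), Sum.inr 1) ∈ H0.edgeSet := by
    rw [SimpleGraph.mem_edgeSet]
    decide
  have hQ2 : s((Sum.inr 0 : W), Sum.inr 2) ∈ H0.edgeSet := by
    rw [SimpleGraph.mem_edgeSet]
    decide
  by_cases ha : A.card = 0
  · have hA0 : A = ∅ := card_eq_zero.mp ha
    have hsP : ∀ i, s (Sum.inl i) = false := by
      intro i
      rw [← Bool.not_eq_true, ← hA, hA0]
      exact notMem_empty i
    have h1 : ((M.erase (0, 0)).image crs ∪ {s((Sum.inl 0 : W), Sum.inl 1),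
        s((Sum.inl 0 : W), Sum.inl 2)}).card ≤ 9 := by
      refine hsmall _ (fun e he => ?_)
      rcases mem_union.mp he with he | he
      · obtain ⟨p, hp, rfl⟩ := mem_image.mp he
        exact ⟨hcrsE p hp, hc2 _ _ (hcrsE p hp) (hMs p (mem_erase.mp hp).2)⟩
      · rw [mem_insert, mem_singleton] at he
        rcases he with rfl | rfl
        · exact ⟨hP1, hc2 _ _ hP1 (by rw [hsP, hsP])⟩
        · exact ⟨hP2, hc2 _ _ hP2 (by rw [hsP, hsP])⟩
    rw [card_union_of_disjoint, card_image_of_injective _ hcrs, card_pair (by decide)] at h1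
    · have h2 := pred_card_le_card_erase (s := M) (a := ((0, 0) : Fin 9 × Fin 9))
      have h3 : M.card ≤ 8 := by omega
      rw [hMcard, ha] at h3
      have h4 : (univ \ A).card = 9 := by omega
      rw [h4] at h3
      have h5 : B.card = 9 := by omega
      have hBu : B = univ := (card_eq_iff_eq_univ B).mp (by rw [h5]; simp)
      have hsQ : ∀ j, s (Sum.inr j) = true := by
        intro j
        rw [← hB, hBu]
        exact mem_univ j
      have h6 := hc1 _ _ hQ1 (hsQ 0) (hsQ 1)
      have h7 := hc1 _ _ hQ2 (hsQ 0) (hsQ 2)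
      exact absurd (hinj hQ1 hQ2 (h6.trans h7.symm)) (by decide)
    · rw [disjoint_left]
      intro e he he'
      obtain ⟨p, _, rfl⟩ := mem_image.mp he
      simp only [crs, mem_insert, mem_singleton, Sym2.eq_iff] at he'
      simp at he'
  · by_cases hb : B.card = 0
    · have hB0 : B = ∅ := card_eq_zero.mp hb
      have hsQ : ∀ j, s (Sum.inr j) = false := by
        intro j
        rw [← Bool.not_eq_true, ← hB, hB0]
        exact notMem_empty j
      have h1 : ((M.erase (0, 0)).image crs ∪ {s((Sum.inr 0 : W), Sum.inr 1),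
          s((Sum.inr 0 : W), Sum.inr 2)}).card ≤ 9 := by
        refine hsmall _ (fun e he => ?_)
        rcases mem_union.mp he with he | he
        · obtain ⟨p, hp, rfl⟩ := mem_image.mp he
          exact ⟨hcrsE p hp, hc2 _ _ (hcrsE p hp) (hMs p (mem_erase.mp hp).2)⟩
        · rw [mem_insert, mem_singleton] at he
          rcases he with rfl | rfl
          · exact ⟨hQ1, hc2 _ _ hQ1 (by rw [hsQ, hsQ])⟩
          · exact ⟨hQ2, hc2 _ _ hQ2 (by rw [hsQ, hsQ])⟩
      rw [card_union_of_disjoint, card_image_of_injective _ hcrs, card_pair (by decide)] at h1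
      · have h2 := pred_card_le_card_erase (s := M) (a := ((0, 0) : Fin 9 × Fin 9))
        have h3 : M.card ≤ 8 := by omega
        rw [hMcard, hb] at h3
        have h4 : (univ \ B).card = 9 := by omega
        rw [h4] at h3
        have h5 : A.card = 9 := by omega
        have hAu : A = univ := (card_eq_iff_eq_univ A).mp (by rw [h5]; simp)
        have hsP : ∀ i, s (Sum.inl i) = true := by
          intro i
          rw [← hA, hAu]
          exact mem_univ i
        have h6 := hc1 _ _ hP1 (hsP 0) (hsP 1)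
        have h7 := hc1 _ _ hP2 (hsP 0) (hsP 2)
        exact absurd (hinj hP1 hP2 (h6.trans h7.symm)) (by decide)
      · rw [disjoint_left]
        intro e he he'
        obtain ⟨p, _, rfl⟩ := mem_image.mp he
        simp only [crs, mem_insert, mem_singleton, Sym2.eq_iff] at he'
        simp at he'
    · rw [hMcard] at hM2
      have h1 : 1 ≤ A.card := Nat.one_le_iff_ne_zero.mpr ha
      have h2 : 1 ≤ B.card := Nat.one_le_iff_ne_zero.mpr hb
      have h3 : A.card ≤ 2 := le_trans (Nat.le_mul_of_pos_right _ h2) hzero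
      have h4 : B.card ≤ 2 := le_trans (Nat.le_mul_of_pos_left _ h1) hzero
      have h5 : 7 ≤ (univ \ A).card := by omega
      have h6 : 7 ≤ (univ \ B).card := by omega
      have h7 := Nat.mul_le_mul h5 h6
      omega

/-! ### Averaging over the partitions -/

theorem fiber_card (n : ℕ) (x y : Fin n) (hxy : x ≠ y) (p : Fin 5 × Fin 5) :
    (univ.filter (fun σ : Fin n → Fin 5 => (σ x, σ y) = p)).card * 25 = 5 ^ n := by
  have h1 : univ.filter (fun σ : Fin n → Fin 5 => (σ x, σ y) = p) =
      Fintype.piFinset (fun z => if z = x then {p.1} else if z = y then {p.2} else univ) := by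
    ext σ
    rw [mem_filter, Fintype.mem_piFinset]
    constructor
    · rintro ⟨_, h⟩ z
      by_cases hz : z = x
      · rw [if_pos hz, mem_singleton, hz, ← h]
      · rw [if_neg hz]
        by_cases hz2 : z = y
        · rw [if_pos hz2, mem_singleton, hz2, ← h]
        · rw [if_neg hz2]
          exact mem_univ _
    · intro h
      refine ⟨mem_univ _, ?_⟩
      have h2 := h x
      have h3 := h y
      rw [if_pos rfl, mem_singleton] at h2
      rw [if_neg (Ne.symm hxy), if_pos rfl, mem_singleton] at h3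
      rw [h2, h3]
  rw [h1, Fintype.card_piFinset]
  have h2 : ∀ z, (if z = x then {p.1} else if z = y then {p.2} else univ : Finset (Fin 5)).card =
      if z = x then 1 else if z = y then 1 else 5 := by
    intro z
    split_ifs
    · exact card_singleton _
    · exact card_singleton _
    · simp
  rw [prod_congr rfl (fun z _ => h2 z), ← mul_prod_erase univ _ (mem_univ x), if_pos rfl,
    ← mul_prod_erase (univ.erase x) _ (mem_erase.mpr ⟨Ne.symm hxy, mem_univ y⟩),
    if_neg (Ne.symm hxy), if_pos rfl]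
  have h3 : ∀ z ∈ (univ.erase x).erase y,
      (if z = x then 1 else if z = y then 1 else 5) = 5 := by
    intro z hz
    have hz1 := mem_erase.mp hz
    have hz2 := mem_erase.mp hz1.2
    rw [if_neg hz2.1, if_neg hz1.1]
  rw [prod_congr rfl h3, prod_const, card_erase_of_mem (mem_erase.mpr ⟨Ne.symm hxy, mem_univ y⟩),
    card_erase_of_mem (mem_univ x), card_univ, Fintype.card_fin]
  have h4 : 2 ≤ n := by
    have h5 : Fintype.card (Fin n) = n := Fintype.card_fin n
    have h6 : 1 < Fintype.card (Fin n) := Fintype.one_lt_card_iff.mpr ⟨x, y, hxy⟩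
    omega
  obtain ⟨m, rfl⟩ : ∃ m, n = m + 2 := ⟨n - 2, by omega⟩
  have h5 : m + 2 - 1 - 1 = m := by omega
  rw [h5, pow_add]
  ring

/-- the logarithm of the size of the palette of a pair with labels `i`, `j` -/
noncomputable def wt (i j : Fin 5) : ℝ :=
  if i < 2 ∧ j < 2 then 0 else if ¬ i < 2 ∧ ¬ j < 2 then Real.log 9 else Real.log 2296

theorem sum_wt : ∑ p : Fin 5 × Fin 5, wt p.1 p.2 = 12 * Real.log 2296 + 9 * Real.log 9 := by
  rw [Fintype.sum_prod_type]
  simp only [Fin.sum_univ_five, wt]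
  simp only [Fin.reduceLT, not_true_eq_false, not_false_eq_true, and_self, and_true, and_false,
    if_true, if_false]
  ring

/-- the density of the template -/
noncomputable def T : ℝ := (12 * Real.log 2296 + 9 * Real.log 9) / 25

theorem log_pal (n : ℕ) (σ : Fin n → Fin 5) (x y : Fin n) :
    Real.log ((pal n (fun z => decide (σ z < 2)) s(x, y)).card : ℝ) = wt (σ x) (σ y) := by
  rw [pal_mk, wt]
  by_cases hx : σ x < 2
  · by_cases hy : σ y < 2
    · simp [hx, hy]
    · simp [hx, hy]
  · by_cases hy : σ y < 2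
    · simp [hx, hy]
    · simp [hx, hy]

theorem sum_pair (n : ℕ) (x y : Fin n) (hxy : x ≠ y) :
    ∑ σ : Fin n → Fin 5, Real.log ((pal n (fun z => decide (σ z < 2)) s(x, y)).card : ℝ) =
      5 ^ n * T := by
  have h1 : ∑ σ : Fin n → Fin 5,
      Real.log ((pal n (fun z => decide (σ z < 2)) s(x, y)).card : ℝ) =
      ∑ σ : Fin n → Fin 5, wt (σ x) (σ y) := sum_congr rfl (fun σ _ => log_pal n σ x y)
  have h2 : ∑ σ : Fin n → Fin 5, wt (σ x) (σ y) =
      ∑ p : Fin 5 × Fin 5, ∑ σ ∈ univ.filter (fun σ : Fin n → Fin 5 => (σ x, σ y) = p),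
        wt (σ x) (σ y) := (sum_fiberwise univ (fun σ : Fin n → Fin 5 => (σ x, σ y)) _).symm
  have h3 : ∀ p : Fin 5 × Fin 5,
      ∑ σ ∈ univ.filter (fun σ : Fin n → Fin 5 => (σ x, σ y) = p), wt (σ x) (σ y) =
      (5 ^ n / 25) * wt p.1 p.2 := by
    intro p
    have h4 : ∀ σ ∈ univ.filter (fun σ : Fin n → Fin 5 => (σ x, σ y) = p),
        wt (σ x) (σ y) = wt p.1 p.2 := by
      intro σ hσ
      have h5 := (mem_filter.mp hσ).2
      rw [← h5]
    rw [sum_congr rfl h4, sum_const, nsmul_eq_mul]
    have h6 := fiber_card n x y hxy p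
    have h7 : ((univ.filter (fun σ : Fin n → Fin 5 => (σ x, σ y) = p)).card : ℝ) * 25 = 5 ^ n := by
      exact_mod_cast h6
    rw [← h7]
    ring
  rw [h1, h2, sum_congr rfl (fun p _ => h3 p), ← mul_sum, sum_wt, T]
  ring

theorem card_pairs (n : ℕ) :
    (univ.filter (fun e : Sym2 (Fin n) => ¬ e.IsDiag)).card = n.choose 2 := by
  have h := Sym2.card_subtype_not_diag (α := Fin n)
  rw [Fintype.card_fin, Fintype.card_subtype] at h
  exact h

theorem exists_partition (n : ℕ) : ∃ a : Fin n → Bool, (n.choose 2 : ℝ) * T ≤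
    ∑ e ∈ univ.filter (fun e : Sym2 (Fin n) => ¬ e.IsDiag), Real.log ((pal n a e).card : ℝ) := by
  by_contra hcon
  push Not at hcon
  have h1 : ∑ σ : Fin n → Fin 5, ∑ e ∈ univ.filter (fun e : Sym2 (Fin n) => ¬ e.IsDiag),
      Real.log ((pal n (fun z => decide (σ z < 2)) e).card : ℝ) <
      ∑ _σ : Fin n → Fin 5, (n.choose 2 : ℝ) * T :=
    sum_lt_sum_of_nonempty ⟨fun _ => 0, mem_univ _⟩ (fun σ _ => hcon _)
  have h2 : ∑ σ : Fin n → Fin 5, ∑ e ∈ univ.filter (fun e : Sym2 (Fin n) => ¬ e.IsDiag),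
      Real.log ((pal n (fun z => decide (σ z < 2)) e).card : ℝ) =
      (n.choose 2 : ℝ) * (5 ^ n * T) := by
    rw [sum_comm]
    have h3 : ∀ e ∈ univ.filter (fun e : Sym2 (Fin n) => ¬ e.IsDiag),
        ∑ σ : Fin n → Fin 5, Real.log ((pal n (fun z => decide (σ z < 2)) e).card : ℝ) =
        5 ^ n * T := by
      intro e he
      have he' := (mem_filter.mp he).2
      induction e using Sym2.ind with
      | _ x y =>
        rw [Sym2.mk_isDiag_iff] at he'
        exact sum_pair n x y he'
    rw [sum_congr rfl h3, sum_const, nsmul_eq_mul, card_pairs]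
  rw [h2, sum_const, nsmul_eq_mul, card_univ, Fintype.card_fun, Fintype.card_fin,
    Fintype.card_fin] at h1
  push_cast at h1
  have h4 : (n.choose 2 : ℝ) * (5 ^ n * T) = 5 ^ n * ((n.choose 2 : ℝ) * T) := by ring
  rw [h4] at h1
  exact lt_irrefl _ h1

theorem exLog_lower (n : ℕ) : (n.choose 2 : ℝ) * T ≤ exLog H0 n 2296 := by
  obtain ⟨a, ha⟩ := exists_partition n
  refine le_trans ha (le_csSup ?_ ⟨pal n a, pal_template n a, sdrFree_pal n a, rfl⟩)
  refine ⟨∑ e ∈ univ.filter (fun e : Sym2 (Fin n) => ¬ e.IsDiag), Real.log (2296 : ℝ), ?_⟩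
  rintro s ⟨P, hP, _, rfl⟩
  refine sum_le_sum (fun e he => ?_)
  have he' := hP e (mem_filter.mp he).2
  have h1 : 0 < (P e).card := card_pos.mpr he'.1
  have h2 : (P e).card ≤ 2296 := by
    have := card_le_card he'.2
    rwa [card_range] at this
  exact Real.log_le_log (by exact_mod_cast h1) (by exact_mod_cast h2)

theorem lam_lower : T ≤ lam H0 2296 := by
  refine le_csInf ⟨_, Fintype.card W, le_rfl, rfl⟩ ?_
  rintro x ⟨n, hn, rfl⟩
  have h1 : Fintype.card W = 18 := by simp [W]
  rw [h1] at hn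
  have h2 : 0 < n.choose 2 := Nat.choose_pos (by omega)
  have h3 : (0 : ℝ) < (n.choose 2 : ℝ) := by exact_mod_cast h2
  rw [le_div_iff₀ h3, mul_comm]
  exact exLog_lower n

theorem log_lt_T : Real.log 83 < T := by
  rw [T, lt_div_iff₀ (by norm_num)]
  have h1 : Real.log 83 * 25 = Real.log (83 ^ 25) := by
    rw [Real.log_pow]
    push_cast
    ring
  have h2 : 12 * Real.log 2296 + 9 * Real.log 9 = Real.log (2296 ^ 12 * 9 ^ 9) := by
    rw [Real.log_mul (by norm_num) (by norm_num), Real.log_pow, Real.log_pow]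
    push_cast
    ring
  rw [h1, h2]
  exact Real.log_lt_log (by norm_num) (by norm_num)

theorem half_lt : (Real.log 2296 + Real.log 3) / 2 < Real.log 83 := by
  have h1 : Real.log 2296 + Real.log 3 = Real.log (2296 * 3) :=
    (Real.log_mul (by norm_num) (by norm_num)).symm
  have h2 : Real.log 83 * 2 = Real.log (83 ^ 2) := by
    rw [Real.log_pow]
    push_cast
    ring
  rw [div_lt_iff₀ (by norm_num), h1, h2]
  exact Real.log_lt_log (by norm_num) (by norm_num)

/-! ### The chromatic numbers -/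

/-- a colouring with three colours -/
def col3 : W → Fin 3
  | Sum.inl i => if i = 0 then 2 else 0
  | Sum.inr i => if i = 0 then 2 else 1

theorem colorable3 : H0.Colorable 3 := by
  refine ⟨SimpleGraph.Coloring.mk col3 ?_⟩
  have h : ∀ x y : W, adj x y = true → col3 x ≠ col3 y := by decide +kernel
  intro x y hxy
  exact h x y hxy

/-- the four edges inside the parts -/
def innerEdges : Finset (Sym2 W) :=
  {s(Sum.inl 0, Sum.inl 1), s(Sum.inl 0, Sum.inl 2), s(Sum.inr 0, Sum.inr 1),
    s(Sum.inr 0, Sum.inr 2)}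

theorem innerEdges_card : innerEdges.card = 4 := by decide +kernel

theorem innerEdges_sub : innerEdges ⊆ H0.edgeFinset := by decide +kernel

theorem edges_card : H0.edgeFinset.card = 84 := by
  have h := numEdges_H0
  rwa [numEdges, ← SimpleGraph.coe_edgeFinset, Set.ncard_coe_finset] at h

theorem chi_le_three (j : ℕ) (hj : j ≤ 84) : chi H0 j ≤ 3 := by
  obtain ⟨S, hS, hSc⟩ := exists_subset_card_eq (by rw [edges_card]; exact hj :
    j ≤ H0.edgeFinset.card)
  refine Nat.sInf_le ⟨S, fun e he => SimpleGraph.mem_edgeFinset.mp (hS he), hSc, ?_⟩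
  exact colorable3.mono_left (SimpleGraph.deleteEdges_le _)

theorem chi_le_two (j : ℕ) (hj4 : 4 ≤ j) (hj : j ≤ 84) : chi H0 j ≤ 2 := by
  obtain ⟨S, hS1, hS2, hSc⟩ := exists_subsuperset_card_eq innerEdges_sub
    (by rw [innerEdges_card]; exact hj4 : innerEdges.card ≤ j) (by rw [edges_card]; exact hj)
  refine Nat.sInf_le ⟨S, fun e he => SimpleGraph.mem_edgeFinset.mp (hS2 he), hSc, ?_⟩
  refine ⟨SimpleGraph.Coloring.mk (fun v => if v.isLeft then (0 : Fin 2) else 1) ?_⟩
  have h : ∀ x y : W, adj x y = true → s(x, y) ∉ innerEdges →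
      (if x.isLeft then (0 : Fin 2) else 1) ≠ if y.isLeft then (0 : Fin 2) else 1 := by
    decide +kernel
  intro x y hxy
  rw [SimpleGraph.deleteEdges_adj] at hxy
  exact h x y hxy.1 (fun h' => hxy.2 (mem_coe.mpr (hS1 h')))

theorem dens_half (j : ℕ) (hj : j ≤ 84) : 0 ≤ dens H0 j ∧ dens H0 j ≤ 1 / 2 := by
  unfold dens
  split_ifs with h
  · have h1 := chi_le_three j hj
    have h2 : chi H0 j = 3 := by omega
    rw [h2]
    norm_num
  · norm_num

theorem dens_zero (j : ℕ) (hj4 : 4 ≤ j) (hj : j ≤ 84) : dens H0 j = 0 := by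
  have h := chi_le_two j hj4 hj
  unfold dens
  rw [if_neg (by omega)]

/-- all the terms of the maximum are at most `log 83` -/
theorem term_le (j : ℕ) (hj1 : 1 ≤ j) (hj : j ≤ 83) :
    dens H0 j * Real.log 2296 + (1 - dens H0 j) * Real.log j ≤ Real.log 83 := by
  have hjR : (1 : ℝ) ≤ j := by exact_mod_cast hj1
  by_cases h4 : 4 ≤ j
  · rw [dens_zero j h4 (by omega), zero_mul, sub_zero, one_mul, zero_add]
    exact Real.log_le_log (by linarith) (by exact_mod_cast hj)
  · have h3 : (j : ℝ) ≤ 3 := by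
      have : j ≤ 3 := by omega
      exact_mod_cast this
    have h5 := dens_half j (by omega)
    have h6 : Real.log j ≤ Real.log 3 := Real.log_le_log (by linarith) h3
    have h7 : Real.log 3 ≤ Real.log 2296 := Real.log_le_log (by norm_num) (by norm_num)
    have h8 := half_lt
    nlinarith [h5.1, h5.2]

theorem admissible : Admissible H0 2296 := by
  refine ⟨?_, ?_, ?_, ?_⟩
  · intro v
    have h : ∀ v : W, ∃ w, adj v w = true := by decide +kernel
    exact h v
  · rw [numEdges_H0]
    norm_num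
  · refine ⟨Sum.inl 1, Sum.inl 0, Sum.inl 2, by decide, ?_, ?_⟩
    · show adj _ _ = true
      decide
    · show adj _ _ = true
      decide
  · rw [numEdges_H0]
    norm_num

theorem result : ¬ Q1 ∧ ¬ Q2 ∧
    (∃ (V : Type) (_ : Fintype V) (H : SimpleGraph V) (ℓ : ℕ), Admissible H ℓ ∧
      ∃ t : ℝ, t < lam H ℓ ∧ ∀ j : ℕ, 1 ≤ j → j ≤ numEdges H - 1 →
        dens H j * Real.log ℓ + (1 - dens H j) * Real.log j ≤ t) := by
  have hlam := lt_of_lt_of_le log_lt_T lam_lower
  refine ⟨?_, ?_, W, inferInstance, H0, 2296, admissible, Real.log 83, hlam, ?_⟩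
  · intro hQ
    obtain ⟨⟨j, hj1, hj2, hj⟩, _⟩ := hQ W H0 2296 admissible
    rw [numEdges_H0] at hj2
    have h1 := term_le j hj1 (by omega)
    have h2 : ((2296 : ℕ) : ℝ) = 2296 := by norm_num
    rw [h2] at hj
    linarith
  · intro hQ
    have h1 := (hQ W H0 2296 admissible).mpr ?_
    · rw [numEdges_H0] at h1
      have h2 : (((84 : ℕ) : ℝ) - 1) = 83 := by norm_num
      rw [h2] at h1
      linarith
    · intro j hj1 hj2
      rw [numEdges_H0] at hj2 ⊢
      have h1 := term_le j hj1 (by omega)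
      have h2 : (((84 : ℕ) : ℝ) - 1) = 83 := by norm_num
      have hj0 : (0 : ℝ) < j := by
        have : 0 < j := hj1
        exact_mod_cast this
      have h3 : (0 : ℝ) < ((2296 : ℕ) : ℝ) := by norm_num
      rw [h2, Real.rpow_def_of_pos h3, Real.rpow_def_of_pos hj0, ← Real.exp_add]
      have h4 : ((2296 : ℕ) : ℝ) = 2296 := by norm_num
      rw [h4]
      calc Real.exp (Real.log 2296 * dens H0 j + Real.log j * (1 - dens H0 j))
          ≤ Real.exp (Real.log 83) := by
            rw [Real.exp_le_exp]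
            linarith
        _ = 83 := Real.exp_log (by norm_num)
  · intro j hj1 hj2
    rw [numEdges_H0] at hj2
    have h1 := term_le j hj1 (by omega)
    have h2 : ((2296 : ℕ) : ℝ) = 2296 := by norm_num
    rw [h2]
    exact h1

end Pool.Agent.Results.MP_5f020a_co.ThreePalettes
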